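import Mathlib

set_option autoImplicit false

/-! # Weyl's bound for exponential sums of polynomials modulo a prime (helper79) -/

namespace Pool.Agent.V1179.MH

open Finset Polynomial

variable {P : ℕ} [Fact P.Prime]

lemma norm_sq_sum (φ : ZMod P → ZMod P) :
    ((‖∑ x : ZMod P, ZMod.stdAddChar (φ x)‖ ^ 2 : ℝ) : ℂ) =
      ∑ h : ZMod P, ∑ x : ZMod P, ZMod.stdAddChar (φ (x + h) - φ x) := by
  push_cast
  rw [← Complex.conj_mul', map_sum, sum_mul_sum, sum_comm (s := univ) (t := univ)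
    (f := fun (h : ZMod P) (x : ZMod P) => (ZMod.stdAddChar (φ (x + h) - φ x) : ℂ))]
  apply sum_congr rfl
  intro x _
  symm
  apply Fintype.sum_equiv (Equiv.addLeft x)
  intro h
  rw [← AddChar.map_neg_eq_conj, ← AddChar.map_add_eq_mul]
  congr 1
  simp only [Equiv.coe_addLeft]
  ring

lemma diff_natDegree (d : ℕ) (hd : 1 ≤ d) (hdP : d + 1 < P) (F : (ZMod P)[X])
    (hF : F.natDegree = d + 1) (h : ZMod P) (hh : h ≠ 0) :
    (taylor h F - F).natDegree = d := by
  have hlead : F.coeff (d + 1) ≠ 0 := by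
    rw [← hF]
    have : F ≠ 0 := by
      rintro rfl
      simp at hF
    simpa using this
  have hcd : (((d + 1 : ℕ) : ZMod P)) ≠ 0 := by
    intro h0
    rw [ZMod.natCast_eq_zero_iff] at h0
    exact absurd (Nat.le_of_dvd (by omega) h0) (by omega)
  apply le_antisymm
  · rw [natDegree_le_iff_coeff_eq_zero]
    intro N hN
    rw [coeff_sub]
    rcases Nat.lt_or_ge (d + 1) N with h1 | h1
    · rw [coeff_eq_zero_of_natDegree_lt (by rw [natDegree_taylor, hF]; exact h1),
        coeff_eq_zero_of_natDegree_lt (by rw [hF]; exact h1), sub_zero]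
    · have h2 : N = F.natDegree := by omega
      rw [h2]
      have h3 := leadingCoeff_taylor (r := h) (f := F)
      rw [leadingCoeff, leadingCoeff, natDegree_taylor] at h3
      rw [h3, sub_self]
  · apply le_natDegree_of_ne_zero
    rw [coeff_sub, taylor_coeff]
    have h1 : (hasseDeriv d F).natDegree < 2 := by
      have := natDegree_hasseDeriv_le F d
      omega
    rw [eval_eq_sum_range' h1, sum_range_succ, sum_range_one, hasseDeriv_coeff, hasseDeriv_coeff]
    simp only [zero_add, Nat.choose_self, Nat.cast_one, one_mul, pow_zero, mul_one, pow_one]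
    rw [add_sub_cancel_left, add_comm 1 d, Nat.choose_succ_self_right]
    exact mul_ne_zero (mul_ne_zero hcd hlead) hh

theorem weyl (d : ℕ) : ∀ F : (ZMod P)[X], F.natDegree = d + 1 → d + 1 < P →
    ‖∑ x : ZMod P, ZMod.stdAddChar (F.eval x)‖ ≤ 2 * (P : ℝ) ^ (1 - 1 / 2 ^ d : ℝ) := by
  classical
  have hP : P.Prime := Fact.out
  have hP1 : (1 : ℝ) ≤ P := by exact_mod_cast hP.one_le
  have hP0 : (0 : ℝ) < P := by linarith
  induction d with
  | zero =>
    intro F hF _
    have hlin : ∀ x, F.eval x = F.coeff 0 + F.coeff 1 * x := by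
      intro x
      rw [eval_eq_sum_range' (n := 2) (by omega), sum_range_succ, sum_range_one]
      simp
    have hlead : F.coeff 1 ≠ 0 := by
      have : F ≠ 0 := by
        rintro rfl
        simp at hF
      have h2 : F.coeff F.natDegree ≠ 0 := by simpa using this
      rwa [hF, zero_add] at h2
    have h1 := AddChar.sum_mulShift (F.coeff 1) (ZMod.isPrimitive_stdAddChar P)
    rw [if_neg hlead, Nat.cast_zero] at h1
    have h2 : ∑ x : ZMod P, ZMod.stdAddChar (F.eval x) = 0 := by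
      simp_rw [hlin, AddChar.map_add_eq_mul]
      rw [← mul_sum]
      have : ∑ x : ZMod P, ZMod.stdAddChar (F.coeff 1 * x) = (0 : ℂ) := by
        rw [← h1]
        apply sum_congr rfl
        intro x _
        rw [mul_comm]
      rw [this, mul_zero]
    rw [h2, norm_zero]
    positivity
  | succ d ih =>
    intro F hF hdP
    set S : ℂ := ∑ x : ZMod P, ZMod.stdAddChar (F.eval x) with hS
    have h1 := norm_sq_sum (fun x : ZMod P => F.eval x)
    rw [← hS] at h1
    have h2 : ‖S‖ ^ 2 = ‖∑ h : ZMod P, ∑ x : ZMod P,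
        ZMod.stdAddChar (F.eval (x + h) - F.eval x)‖ := by
      rw [← h1, Complex.norm_real, Real.norm_eq_abs, abs_of_nonneg (by positivity)]
    have h3 : ∀ h : ZMod P, h ≠ 0 → ‖∑ x : ZMod P,
        ZMod.stdAddChar (F.eval (x + h) - F.eval x)‖ ≤ 2 * (P : ℝ) ^ (1 - 1 / 2 ^ d : ℝ) := by
      intro h hh
      have h4 := ih (taylor h F - F) (diff_natDegree (d + 1) (by omega) (by omega) F hF h hh)
        (by omega)
      simpa [eval_sub, taylor_eval] using h4
    have h5 : ‖∑ h : ZMod P, ∑ x : ZMod P, ZMod.stdAddChar (F.eval (x + h) - F.eval x)‖ ≤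
        P + P * (2 * (P : ℝ) ^ (1 - 1 / 2 ^ d : ℝ)) := by
      refine (norm_sum_le _ _).trans ?_
      rw [← add_sum_erase univ _ (mem_univ (0 : ZMod P))]
      apply add_le_add
      · simp
      · calc _ ≤ ∑ _h ∈ univ.erase (0 : ZMod P), 2 * (P : ℝ) ^ (1 - 1 / 2 ^ d : ℝ) :=
              sum_le_sum fun h hh => h3 h (ne_of_mem_erase hh)
          _ ≤ ∑ _h : ZMod P, 2 * (P : ℝ) ^ (1 - 1 / 2 ^ d : ℝ) :=
              sum_le_sum_of_subset_of_nonneg (erase_subset _ _) (fun _ _ _ => by positivity)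
          _ = _ := by rw [sum_const, card_univ, ZMod.card, nsmul_eq_mul]
    have e0 : (0 : ℝ) < 1 / 2 ^ d ∧ (1 / 2 ^ d : ℝ) ≤ 1 := by
      constructor
      · positivity
      · rw [div_le_one (by positivity)]
        exact one_le_pow₀ (by norm_num)
    have e1 : (P : ℝ) ≤ (P : ℝ) ^ (2 - 1 / 2 ^ d : ℝ) := by
      nth_rewrite 1 [← Real.rpow_one (P : ℝ)]
      exact Real.rpow_le_rpow_of_exponent_le hP1 (by linarith)
    have e2 : (P : ℝ) * (P : ℝ) ^ (1 - 1 / 2 ^ d : ℝ) = (P : ℝ) ^ (2 - 1 / 2 ^ d : ℝ) := by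
      nth_rewrite 1 [← Real.rpow_one (P : ℝ)]
      rw [← Real.rpow_add hP0]
      congr 1
      ring
    have e3 : ((P : ℝ) ^ (1 - 1 / 2 ^ (d + 1) : ℝ)) ^ 2 = (P : ℝ) ^ (2 - 1 / 2 ^ d : ℝ) := by
      rw [← Real.rpow_natCast, ← Real.rpow_mul hP0.le]
      congr 1
      rw [pow_succ]
      field_simp
      norm_num
      ring
    have h6 : ‖S‖ ^ 2 ≤ (2 * (P : ℝ) ^ (1 - 1 / 2 ^ (d + 1) : ℝ)) ^ 2 := by
      rw [mul_pow, e3, h2]
      refine h5.trans ?_
      nlinarith
    exact le_of_sq_le_sq h6 (by positivity)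

end Pool.Agent.V1179.MH
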