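import Pool.Agent.Y165.HN.Burg

set_option autoImplicit false

/-! # Burgess' bound for short character sums along progressions with a small difference (helper79)

The proof is the one of `Pool.Agent.H471R4.BW` with the shifts replaced by multiples of the
difference. -/

namespace Pool.Agent.V1179.MH

open Finset
open Pool.Agent.H471R4.BW

open Classical in
/-- the short sum of `χ` over `1 ≤ m ≤ X`, `m ≡ ρ mod q` -/
noncomputable def shortQ (N : ℕ) (χ : DirichletCharacter ℂ N) (q : ℕ) (ρ : ℤ) (X : ℕ) : ℂ :=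
  ∑ m ∈ Icc 1 X, if (q : ℤ) ∣ (m : ℤ) - ρ then χ (m : ZMod N) else 0

theorem shfq (N : ℕ) [NeZero N] (χ : DirichletCharacter ℂ N) (A : Finset ℕ) (X M B q : ℕ) (ρ : ℤ)
    (hA : ∀ a ∈ A, Nat.Coprime a N) (hM : ∀ a ∈ A, a ≤ M) :
    (A.card : ℝ) * B * ‖shortQ N χ q ρ X‖ ≤
      ∑ x : ZMod N, (nu N A X x : ℝ) * ‖∑ b ∈ range B, χ (x + ((q * b : ℕ) : ZMod N))‖ +
        (A.card : ℝ) * B * (2 * M * B * q) := by
  classical
  set T : ZMod N → ℝ := fun x => ‖∑ b ∈ range B, χ (x + ((q * b : ℕ) : ZMod N))‖ with hT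
  have hχ : ∀ a : ZMod N, ‖χ a‖ ≤ 1 := fun a => χ.norm_le_one a
  set G : ℕ → ℂ := fun m => if (q : ℤ) ∣ (m : ℤ) - ρ then χ (m : ZMod N) else 0 with hG
  have hGn : ∀ m, ‖G m‖ ≤ 1 := by
    intro m
    simp only [hG]
    split_ifs
    · exact hχ _
    · simp
  have hGs : ∀ m h : ℕ, G (m + q * h) =
      if (q : ℤ) ∣ (m : ℤ) - ρ then χ ((m + q * h : ℕ) : ZMod N) else 0 := by
    intro m h
    simp only [hG]
    have : ((q : ℤ) ∣ ((m + q * h : ℕ) : ℤ) - ρ) ↔ (q : ℤ) ∣ (m : ℤ) - ρ := by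
      push_cast
      rw [show (m : ℤ) + q * h - ρ = ((m : ℤ) - ρ) + q * h by ring]
      exact dvd_add_left (dvd_mul_right _ _)
    simp only [this]
  have h1 : ∀ a ∈ A, ∀ b ∈ range B,
      ‖shortQ N χ q ρ X - ∑ m ∈ Icc 1 X, G (m + q * (a * b))‖ ≤ 2 * M * B * q := by
    intro a ha b hb
    rw [Finset.mem_range] at hb
    have h := SHFx.shift G hGn X (q * (a * b))
    have e0 : shortQ N χ q ρ X = ∑ m ∈ Icc 1 X, G m := rfl
    rw [e0]
    refine h.trans ?_
    have h2 : q * (a * b) ≤ q * (M * B) :=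
      Nat.mul_le_mul le_rfl (Nat.mul_le_mul (hM a ha) hb.le)
    have h3 : ((q * (a * b) : ℕ) : ℝ) ≤ ((q * (M * B) : ℕ) : ℝ) := by exact_mod_cast h2
    push_cast at h3 ⊢
    linarith
  have h2 : ‖∑ a ∈ A, ∑ b ∈ range B, ∑ m ∈ Icc 1 X, G (m + q * (a * b))‖ ≤
      ∑ x : ZMod N, (nu N A X x : ℝ) * T x := by
    have e1 : ∑ a ∈ A, ∑ b ∈ range B, ∑ m ∈ Icc 1 X, G (m + q * (a * b)) =
        ∑ w ∈ A ×ˢ Icc 1 X, ∑ b ∈ range B, G (w.2 + q * (w.1 * b)) := by
      rw [Finset.sum_product]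
      refine Finset.sum_congr rfl fun a _ => ?_
      rw [Finset.sum_comm]
    rw [e1]
    refine (norm_sum_le _ _).trans ?_
    have e2 : ∑ x : ZMod N, (nu N A X x : ℝ) * T x =
        ∑ w ∈ A ×ˢ Icc 1 X, ∑ x : ZMod N, if (w.2 : ZMod N) = (w.1 : ZMod N) * x then T x else 0 := by
      rw [Finset.sum_comm]
      refine Finset.sum_congr rfl fun x _ => ?_
      unfold nu
      rw [Finset.card_filter]
      push_cast
      rw [Finset.sum_mul]
      refine Finset.sum_congr rfl fun w _ => ?_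
      split_ifs <;> simp
    rw [e2]
    refine Finset.sum_le_sum fun w hw => ?_
    rw [Finset.mem_product] at hw
    have hu : IsUnit (w.1 : ZMod N) := (ZMod.isUnit_iff_coprime w.1 N).mpr (hA _ hw.1)
    obtain ⟨u, hu⟩ := hu
    set x0 : ZMod N := (↑(u⁻¹) : ZMod N) * (w.2 : ZMod N) with hx0
    have hx1 : (w.1 : ZMod N) * x0 = (w.2 : ZMod N) := by
      rw [hx0, ← hu, ← mul_assoc, Units.mul_inv, one_mul]
    have h3 : ∑ x : ZMod N, (if (w.2 : ZMod N) = (w.1 : ZMod N) * x then T x else 0) = T x0 := by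
      rw [Finset.sum_eq_single x0]
      · rw [if_pos hx1.symm]
      · intro y _ hy
        rw [if_neg]
        intro h
        apply hy
        rw [hx0, h, ← hu, ← mul_assoc, Units.inv_mul, one_mul]
      · intro h; exact absurd (Finset.mem_univ _) h
    rw [h3]
    simp_rw [hGs]
    by_cases hd : (q : ℤ) ∣ (w.2 : ℤ) - ρ
    · simp only [hd, if_true]
      have e3 : ∑ b ∈ range B, χ ((w.2 + q * (w.1 * b) : ℕ) : ZMod N) =
          χ (w.1 : ZMod N) * ∑ b ∈ range B, χ (x0 + ((q * b : ℕ) : ZMod N)) := by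
        rw [Finset.mul_sum]
        refine Finset.sum_congr rfl fun b _ => ?_
        rw [← map_mul]
        congr 1
        push_cast
        rw [mul_add, hx1]
        ring
      rw [e3, norm_mul]
      calc ‖χ (w.1 : ZMod N)‖ * ‖∑ b ∈ range B, χ (x0 + ((q * b : ℕ) : ZMod N))‖
          ≤ 1 * ‖∑ b ∈ range B, χ (x0 + ((q * b : ℕ) : ZMod N))‖ :=
            mul_le_mul_of_nonneg_right (hχ _) (norm_nonneg _)
        _ = T x0 := one_mul _
    · simp only [hd, if_false]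
      simp only [Finset.sum_const_zero, norm_zero, hT]
      exact norm_nonneg _
  have h3 : ‖∑ a ∈ A, ∑ b ∈ range B, (shortQ N χ q ρ X -
      ∑ m ∈ Icc 1 X, G (m + q * (a * b)))‖ ≤ (A.card : ℝ) * B * (2 * M * B * q) := by
    refine (norm_sum_le _ _).trans ?_
    have h4 : ∀ a ∈ A, ‖∑ b ∈ range B, (shortQ N χ q ρ X -
        ∑ m ∈ Icc 1 X, G (m + q * (a * b)))‖ ≤ B * (2 * M * B * q) := by
      intro a ha
      refine (norm_sum_le _ _).trans ?_
      refine (Finset.sum_le_sum fun b hb => h1 a ha b hb).trans ?_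
      rw [Finset.sum_const, Finset.card_range, nsmul_eq_mul]
    refine (Finset.sum_le_sum h4).trans ?_
    rw [Finset.sum_const, nsmul_eq_mul]
    exact le_of_eq (by ring)
  have e4 : (A.card : ℂ) * B * shortQ N χ q ρ X =
      ∑ a ∈ A, ∑ b ∈ range B, (shortQ N χ q ρ X -
        ∑ m ∈ Icc 1 X, G (m + q * (a * b))) +
      ∑ a ∈ A, ∑ b ∈ range B, ∑ m ∈ Icc 1 X, G (m + q * (a * b)) := by
    rw [← Finset.sum_add_distrib]
    have : ∀ a ∈ A, (∑ b ∈ range B, (shortQ N χ q ρ X -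
        ∑ m ∈ Icc 1 X, G (m + q * (a * b))) +
        ∑ b ∈ range B, ∑ m ∈ Icc 1 X, G (m + q * (a * b))) = B * shortQ N χ q ρ X := by
      intro a _
      rw [← Finset.sum_add_distrib]
      simp only [sub_add_cancel]
      rw [Finset.sum_const, Finset.card_range, nsmul_eq_mul]
    rw [Finset.sum_congr rfl this, Finset.sum_const, nsmul_eq_mul, mul_assoc]
  have e5 : (A.card : ℝ) * B * ‖shortQ N χ q ρ X‖ = ‖(A.card : ℂ) * B * shortQ N χ q ρ X‖ := by
    rw [norm_mul, norm_mul, Complex.norm_natCast, Complex.norm_natCast]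
  rw [e5, e4]
  refine (norm_add_le _ _).trans ?_
  linarith

/-- the moments along multiples of `q` -/
theorem momq (N : ℕ) [NeZero N] (χ : DirichletCharacter ℂ N) (q B r : ℕ) (hq : Nat.Coprime q N) :
    ∑ x : ZMod N, ‖∑ b ∈ range B, χ (x + ((q * b : ℕ) : ZMod N))‖ ^ (2 * r) =
      ∑ x : ZMod N, ‖∑ b ∈ range B, χ (x + (b : ZMod N))‖ ^ (2 * r) := by
  obtain ⟨u, hu⟩ := (ZMod.isUnit_iff_coprime q N).mpr hq
  have hbij : Function.Bijective (fun x : ZMod N => (q : ZMod N) * x) := by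
    apply Finite.injective_iff_bijective.1
    intro x y hxy
    have : (u : ZMod N) * x = u * y := by rw [hu]; exact hxy
    exact (Units.mul_right_inj u).1 this
  rw [← Fintype.sum_bijective (fun x : ZMod N => (q : ZMod N) * x) hbij
    (fun x => ‖∑ b ∈ range B, χ (((q : ZMod N) * x) + ((q * b : ℕ) : ZMod N))‖ ^ (2 * r))
    (fun x => ‖∑ b ∈ range B, χ (x + ((q * b : ℕ) : ZMod N))‖ ^ (2 * r)) (fun x => rfl)]
  apply sum_congr rfl
  intro x _
  congr 1
  have e : ∑ b ∈ range B, χ ((q : ZMod N) * x + ((q * b : ℕ) : ZMod N)) =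
      χ (q : ZMod N) * ∑ b ∈ range B, χ (x + (b : ZMod N)) := by
    rw [mul_sum]
    apply sum_congr rfl
    intro b _
    rw [← map_mul]
    congr 1
    push_cast
    ring
  have hn : ‖χ (q : ZMod N)‖ = 1 := by
    rw [← hu]
    exact DirichletCharacter.unit_norm_eq_one χ u
  rw [e, norm_mul, hn, one_mul]

theorem binq (N : ℕ) [NeZero N] (χ : DirichletCharacter ℂ N) (A : Finset ℕ)
    (X M B r q : ℕ) (ρ : ℤ) (K : ℝ) (hr : 1 ≤ r) (hK : 0 ≤ K) (hB : 1 ≤ B) (hX : 1 ≤ X)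
    (hA : A.Nonempty) (hAp : ∀ a ∈ A, a.Prime) (hAc : ∀ a ∈ A, Nat.Coprime a N)
    (hAM : ∀ a ∈ A, a ≤ M) (hMX : M * X < N) (hNB : Real.sqrt N ≤ (B : ℝ) ^ r)
    (hq : Nat.Coprime q N) (hC : Complete N χ r B K) :
    ‖shortQ N χ q ρ X‖ ≤ 2 * M * B * q +
      X * (3 * ((r : ℝ) ^ (2 * r) + K) * Real.sqrt N / (A.card * X)) ^ (1 / (2 * r : ℝ)) := by
  set Tf : ZMod N → ℝ := fun x => ‖∑ b ∈ range B, χ (x + ((q * b : ℕ) : ZMod N))‖ with hTf
  set P : ℝ := (A.card : ℝ) with hP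
  have hP1 : 1 ≤ P := by
    rw [hP]; exact_mod_cast hA.card_pos
  have hX1 : (1 : ℝ) ≤ X := by exact_mod_cast hX
  have hB1 : (1 : ℝ) ≤ B := by exact_mod_cast hB
  have hP0 : 0 < P := by linarith
  have hX0 : (0 : ℝ) < X := by linarith
  have hB0 : (0 : ℝ) < B := by linarith
  set S : ℝ := ∑ x : ZMod N, (nu N A X x : ℝ) * Tf x with hS
  have hS0 : 0 ≤ S := Finset.sum_nonneg (fun x _ => mul_nonneg (Nat.cast_nonneg _) (norm_nonneg _))
  have e1 : ∑ x : ZMod N, (nu N A X x : ℝ) = P * X := by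
    have := nu1 N A X hAc
    rw [hP]
    exact_mod_cast this
  have e2 : ∑ x : ZMod N, ((nu N A X x : ℝ)) ^ 2 ≤ 3 * P * X := by
    have := nu2b N A X M hAp hAc hAM hMX
    rw [hP]
    exact_mod_cast this
  have e3 : ∑ x : ZMod N, Tf x ^ (2 * r) ≤
      ((r : ℝ) ^ (2 * r) + K) * (B : ℝ) ^ (2 * r) * Real.sqrt N := by
    rw [hTf]
    simp only
    rw [momq N χ q B r hq]
    refine (mom tup N χ r B K hr hK hC).trans ?_
    have hN0 : (0 : ℝ) ≤ N := Nat.cast_nonneg _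
    have hNs : (N : ℝ) = Real.sqrt N * Real.sqrt N := (Real.mul_self_sqrt hN0).symm
    have h6 : (B : ℝ) ^ r * N ≤ (B : ℝ) ^ (2 * r) * Real.sqrt N := by
      calc (B : ℝ) ^ r * N = (B : ℝ) ^ r * (Real.sqrt N * Real.sqrt N) := by rw [← hNs]
        _ = (B : ℝ) ^ r * Real.sqrt N * Real.sqrt N := by ring
        _ ≤ (B : ℝ) ^ r * (B : ℝ) ^ r * Real.sqrt N := by
            apply mul_le_mul_of_nonneg_right _ (Real.sqrt_nonneg _)
            exact mul_le_mul_of_nonneg_left hNB (by positivity)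
        _ = (B : ℝ) ^ (2 * r) * Real.sqrt N := by rw [two_mul, pow_add]
    have h7 : (r : ℝ) ^ (2 * r) * ((B : ℝ) ^ r * N) ≤
        (r : ℝ) ^ (2 * r) * ((B : ℝ) ^ (2 * r) * Real.sqrt N) :=
      mul_le_mul_of_nonneg_left h6 (by positivity)
    nlinarith [h7]
  set Q : ℝ := 3 * ((r : ℝ) ^ (2 * r) + K) * Real.sqrt N / (P * X) with hQ
  have hQ0 : 0 ≤ Q := by rw [hQ]; positivity
  have hH := hol (ZMod N) r hr (fun x => (nu N A X x : ℝ)) Tf (fun x => Nat.cast_nonneg _)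
    (fun x => norm_nonneg _)
  have hpow : S ^ (2 * r) ≤ (P * X * B) ^ (2 * r) * Q := by
    refine hH.trans ?_
    rw [e1]
    have h8 : (P * (X : ℝ)) ^ (2 * r - 2) * (∑ x : ZMod N, ((nu N A X x : ℝ)) ^ 2) *
        ∑ x : ZMod N, Tf x ^ (2 * r) ≤ (P * (X : ℝ)) ^ (2 * r - 2) * (3 * P * X) *
        (((r : ℝ) ^ (2 * r) + K) * (B : ℝ) ^ (2 * r) * Real.sqrt N) := by
      apply mul_le_mul _ e3 (Finset.sum_nonneg (fun x _ => by positivity)) (by positivity)
      exact mul_le_mul_of_nonneg_left e2 (by positivity)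
    refine h8.trans (le_of_eq ?_)
    have h9 : (P * (X : ℝ) * B) ^ (2 * r) =
        (P * (X : ℝ)) ^ (2 * r - 2) * (P * X) ^ 2 * (B : ℝ) ^ (2 * r) := by
      rw [← pow_add, mul_pow (P * (X : ℝ)) (B : ℝ)]
      congr 2
      omega
    rw [h9, hQ]
    field_simp
  have hroot : S ≤ P * X * B * Q ^ (1 / (2 * r : ℝ)) := by
    have hr0 : (2 * r : ℕ) ≠ 0 := by omega
    have hq : (Q ^ (1 / (2 * r : ℝ))) ^ (2 * r) = Q := by
      rw [← Real.rpow_natCast, ← Real.rpow_mul hQ0]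
      have : 1 / (2 * (r : ℝ)) * ((2 * r : ℕ) : ℝ) = 1 := by
        push_cast
        have : (r : ℝ) ≠ 0 := by
          have : (1 : ℝ) ≤ r := by exact_mod_cast hr
          linarith
        field_simp
      rw [this, Real.rpow_one]
    have h10 : S ^ (2 * r) ≤ (P * X * B * Q ^ (1 / (2 * r : ℝ))) ^ (2 * r) := by
      rw [mul_pow (P * (X : ℝ) * B), hq]
      exact hpow
    exact (pow_le_pow_iff_left₀ hS0 (by positivity) hr0).1 h10
  have hsh := shfq N χ A X M B q ρ hAc hAM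
  have hfin : P * B * ‖shortQ N χ q ρ X‖ ≤
      P * B * (2 * M * B * q + X * Q ^ (1 / (2 * r : ℝ))) := by
    calc P * B * ‖shortQ N χ q ρ X‖ ≤ S + P * B * (2 * M * B * q) := hsh
      _ ≤ P * X * B * Q ^ (1 / (2 * r : ℝ)) + P * B * (2 * M * B * q) := by linarith
      _ = _ := by ring
  exact le_of_mul_le_mul_left hfin (by positivity)

end Pool.Agent.V1179.MH
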