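import Pool.Agent.V1179.MH.BG1

set_option autoImplicit false

/-! # Burgess' bound along progressions, with a power saving (helper79) -/

namespace Pool.Agent.V1179.MH

open Finset Filter
open Pool.Agent.H471R4.BW

theorem coreq (δ η : ℝ) (hδ : 0 < δ) (hδ1 : δ ≤ 1)
    (hη : 0 < η) (r : ℕ) (hr : 1 ≤ r) (hrη : 1 / (2 * (r : ℝ)) ≤ η)
    (N : ℕ) [Fact N.Prime] (hN3 : (3 : ℝ) ≤ N)
    (ha : 2 * (N : ℝ) ^ (1 / (2 * (r : ℝ))) ≤ N)
    (hb : 200 ≤ δ * (N : ℝ) ^ (1 / 4 : ℝ) / 32)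
    (hc : 8 * (Real.log N) ^ 2 ≤ δ * (N : ℝ) ^ (1 / 4 : ℝ) / 32)
    (hd : 3 * ((r : ℝ) ^ (2 * r) + 2 * r) * 128 * Real.log N ≤
      ((δ / 2) ^ (2 * r) * δ) * (N : ℝ) ^ η)
    (χ : DirichletCharacter ℂ N) (hχ : χ ≠ 1) (X q : ℕ) (ρ : ℤ) (hq : 1 ≤ q)
    (hqN : Nat.Coprime q N)
    (hX1 : (N : ℝ) ^ (1 / 4 + η) ≤ X) (hX2 : (X : ℝ) ≤ Real.sqrt N) :
    ‖shortQ N χ q ρ X‖ ≤ δ * X * q := by
  have hNpos : (0 : ℝ) < N := by linarith
  have hN1 : (1 : ℝ) ≤ N := by linarith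
  have hr' : (1 : ℝ) ≤ r := by exact_mod_cast hr
  have hqR : (1 : ℝ) ≤ q := by exact_mod_cast hq
  set s : ℝ := 1 / (2 * (r : ℝ)) with hs
  have hs0 : 0 < s := by positivity
  have hNs1 : 1 ≤ (N : ℝ) ^ s := Real.one_le_rpow hN1 hs0.le
  set B : ℕ := ⌈(N : ℝ) ^ s⌉₊ with hB
  have hB1 : (N : ℝ) ^ s ≤ B := Nat.le_ceil _
  have hB2 : (B : ℝ) ≤ 2 * (N : ℝ) ^ s := by
    have := (Nat.ceil_lt_add_one (by linarith : (0 : ℝ) ≤ (N : ℝ) ^ s)).le
    linarith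
  have hBone : (1 : ℝ) ≤ B := hNs1.trans hB1
  have hBpos : (0 : ℝ) < B := by linarith
  have hX0 : (1 : ℝ) ≤ X := by
    refine le_trans ?_ hX1
    exact Real.one_le_rpow hN1 (by linarith)
  have hXpos : (0 : ℝ) < X := by linarith
  set M : ℕ := ⌊δ * X / (8 * B)⌋₊ with hM
  have hM1 : (M : ℝ) ≤ δ * X / (8 * B) := Nat.floor_le (by positivity)
  have hM2 : δ * X / (8 * B) - 1 < M := Nat.sub_one_lt_floor _
  have hqq : (N : ℝ) ^ (1 / 4 : ℝ) * B ≤ 2 * X := by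
    have e1 : (N : ℝ) ^ (1 / 4 : ℝ) * (N : ℝ) ^ s ≤ (N : ℝ) ^ (1 / 4 + η) := by
      rw [← Real.rpow_add hNpos]
      exact Real.rpow_le_rpow_of_exponent_le hN1 (by linarith)
    have e2 : 0 ≤ (N : ℝ) ^ (1 / 4 : ℝ) := Real.rpow_nonneg hNpos.le _
    nlinarith
  have hM3 : δ * (N : ℝ) ^ (1 / 4 : ℝ) / 16 ≤ δ * X / (8 * B) := by
    rw [div_le_div_iff₀ (by norm_num) (by positivity)]
    nlinarith
  have hM4 : δ * (N : ℝ) ^ (1 / 4 : ℝ) / 32 ≤ M := by linarith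
  have hM200 : 200 ≤ M := by exact_mod_cast hb.trans hM4
  have hXX : (X : ℝ) * X ≤ N := by
    have := Real.mul_self_sqrt hNpos.le
    nlinarith [Real.sqrt_nonneg (N : ℝ)]
  have hMX : (M : ℝ) * (8 * B) ≤ δ * X := by
    rwa [le_div_iff₀ (by positivity)] at hM1
  have hMX8 : (M : ℝ) * 8 ≤ X := by
    have e1 : (M : ℝ) * 8 ≤ M * (8 * B) := by
      have : (0 : ℝ) ≤ M := Nat.cast_nonneg _
      nlinarith
    nlinarith
  have hMXN : M * X < N := by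
    have : (M : ℝ) * X < N := by nlinarith
    exact_mod_cast this
  have hMN : M ≤ N := by
    have h1 : M ≤ M * X := Nat.le_mul_of_pos_right M (by exact_mod_cast hXpos)
    omega
  have hcard := bfm_count M N hM200 hMN (hc.trans hM4)
  have hL : 0 < Real.log N := Real.log_pos (by linarith)
  have hMpos : (0 : ℝ) < M := by
    have : (200 : ℝ) ≤ M := by exact_mod_cast hM200
    linarith
  have hcardpos : (0 : ℝ) < (bfmA M N).card := lt_of_lt_of_le (by positivity) hcard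
  have hne : (bfmA M N).Nonempty := by
    rw [← card_pos]
    exact_mod_cast hcardpos
  have hBr : Real.sqrt N ≤ (B : ℝ) ^ r := by
    have e1 : ((N : ℝ) ^ s) ^ r = Real.sqrt N := by
      rw [Real.sqrt_eq_rpow, ← Real.rpow_natCast, ← Real.rpow_mul hNpos.le, hs]
      congr 1
      field_simp
    rw [← e1]
    exact pow_le_pow_left₀ (by linarith) hB1 r
  have hmain := binq N χ (bfmA M N) X M B r q ρ (2 * r) hr (by positivity) (by exact_mod_cast hBone)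
    (by exact_mod_cast hX0) hne (fun a ha => (mem_filter.1 ha).2.1)
    (fun a ha => (mem_filter.1 ha).2.2)
    (fun a ha => Nat.lt_succ_iff.1 (mem_range.1 (mem_filter.1 ha).1)) hMXN hBr hqN
    (Pool.Agent.Y165.HN.fam_all N χ hχ r B hr (by rw [Real.rpow_one]; exact hB2.trans ha))
  -- the second term
  have hAX : δ * ((N : ℝ) ^ η * Real.sqrt N) / (128 * Real.log N) ≤ (bfmA M N).card * X := by
    have e1 : (N : ℝ) ^ (1 / 4 : ℝ) * (N : ℝ) ^ (1 / 4 + η) = (N : ℝ) ^ η * Real.sqrt N := by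
      rw [Real.sqrt_eq_rpow, ← Real.rpow_add hNpos, ← Real.rpow_add hNpos]
      congr 1
      ring
    rw [← e1]
    have e2 : δ * (N : ℝ) ^ (1 / 4 : ℝ) / (128 * Real.log N) ≤ (bfmA M N).card := by
      refine le_trans ?_ hcard
      rw [div_le_div_iff₀ (by positivity) (by positivity)]
      nlinarith
    have e3 : 0 ≤ (N : ℝ) ^ (1 / 4 + η) := Real.rpow_nonneg hNpos.le _
    calc δ * ((N : ℝ) ^ (1 / 4 : ℝ) * (N : ℝ) ^ (1 / 4 + η)) / (128 * Real.log N)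
        = (δ * (N : ℝ) ^ (1 / 4 : ℝ) / (128 * Real.log N)) * (N : ℝ) ^ (1 / 4 + η) := by ring
      _ ≤ (bfmA M N).card * X := mul_le_mul e2 hX1 e3 hcardpos.le
  have hsq : 0 < Real.sqrt N := Real.sqrt_pos.2 hNpos
  have hNη : 0 < (N : ℝ) ^ η := Real.rpow_pos_of_pos hNpos _
  have hQ : 3 * ((r : ℝ) ^ (2 * r) + 2 * r) * Real.sqrt N / ((bfmA M N).card * X) ≤
      (δ / 2) ^ (2 * r) := by
    rw [div_le_iff₀ (by positivity)]
    have e1 : 3 * ((r : ℝ) ^ (2 * r) + 2 * r) * Real.sqrt N ≤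
        (δ / 2) ^ (2 * r) * (δ * ((N : ℝ) ^ η * Real.sqrt N) / (128 * Real.log N)) := by
      rw [mul_div_assoc', le_div_iff₀ (by positivity)]
      have := mul_le_mul_of_nonneg_right hd hsq.le
      nlinarith
    exact e1.trans (mul_le_mul_of_nonneg_left hAX (by positivity))
  have hQ0 : 0 ≤ 3 * ((r : ℝ) ^ (2 * r) + 2 * r) * Real.sqrt N / ((bfmA M N).card * X) := by
    positivity
  have hroot : (3 * ((r : ℝ) ^ (2 * r) + 2 * r) * Real.sqrt N / ((bfmA M N).card * X)) ^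
      (1 / (2 * r : ℝ)) ≤ δ / 2 := by
    calc (3 * ((r : ℝ) ^ (2 * r) + 2 * r) * Real.sqrt N / ((bfmA M N).card * X)) ^
      (1 / (2 * r : ℝ)) ≤ ((δ / 2) ^ (2 * r)) ^ (1 / (2 * r : ℝ)) :=
          Real.rpow_le_rpow hQ0 hQ (by positivity)
      _ = δ / 2 := by
          rw [← Real.rpow_natCast, ← Real.rpow_mul (by positivity)]
          have : ((2 * r : ℕ) : ℝ) * (1 / (2 * r : ℝ)) = 1 := by
            push_cast
            field_simp
          rw [this, Real.rpow_one]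
  have hfirst : 2 * (M : ℝ) * B * q ≤ δ * X / 4 * q :=
    mul_le_mul_of_nonneg_right (by linarith) (by linarith)
  have hsec : (X : ℝ) * (δ / 2) ≤ X * (δ / 2) * q := le_mul_of_one_le_right (by positivity) hqR
  have hq0 : 0 ≤ δ * X * q := by positivity
  calc ‖shortQ N χ q ρ X‖ ≤ _ := hmain
    _ ≤ δ * X / 4 * q + X * (δ / 2) :=
        add_le_add hfirst (mul_le_mul_of_nonneg_left hroot hXpos.le)
    _ ≤ δ * X / 4 * q + X * (δ / 2) * q := by linarith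
    _ = 3 / 4 * (δ * X * q) := by ring
    _ ≤ δ * X * q := by linarith

/-- Burgess' bound along progressions with a power saving -/
theorem burgess_ap (η : ℝ) (hη : 0 < η) (hη1 : η ≤ 1 / 4) : ∃ d : ℝ, 0 < d ∧ d ≤ η ∧ ∃ P₀ : ℕ,
    ∀ P : ℕ, P₀ ≤ P → ∀ [Fact P.Prime] (χ : DirichletCharacter ℂ P), χ ≠ 1 →
    ∀ (X q : ℕ) (ρ : ℤ), 1 ≤ q → Nat.Coprime q P → (P : ℝ) ^ (1 / 4 + η) ≤ X →
    (X : ℝ) ≤ Real.sqrt P → ‖shortQ P χ q ρ X‖ ≤ (P : ℝ) ^ (-d) * X * q := by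
  obtain ⟨r, hr⟩ := exists_nat_gt (1 / η)
  have hrpos : (0 : ℝ) < r := lt_trans (by positivity) hr
  have hr0 : 1 ≤ r := by exact_mod_cast hrpos
  have hr1 : (1 : ℝ) ≤ r := by exact_mod_cast hr0
  have hrη : 1 / (2 * (r : ℝ)) ≤ η := by
    rw [div_lt_iff₀ hη] at hr
    rw [div_le_iff₀ (by positivity)]
    nlinarith
  set d : ℝ := η / (2 * (2 * r + 1)) with hd
  have hd0 : 0 < d := by positivity
  have hdη : d ≤ η / 2 := by
    rw [hd]
    apply div_le_div_of_nonneg_left hη.le (by norm_num)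
    linarith
  have hd8 : d ≤ 1 / 8 := by linarith
  refine ⟨d, hd0, by linarith, ?_⟩
  have hs : 1 / (2 * (r : ℝ)) ≤ 1 / 2 := by
    apply one_div_le_one_div_of_le (by norm_num)
    linarith
  have hev : ∀ᶠ x : ℝ in atTop, 3 ≤ x ∧ 2 * x ^ (1 / (2 * (r : ℝ))) ≤ x ∧
      200 ≤ x ^ (-d) * x ^ (1 / 4 : ℝ) / 32 ∧
      8 * (Real.log x) ^ 2 ≤ x ^ (-d) * x ^ (1 / 4 : ℝ) / 32 ∧
      3 * ((r : ℝ) ^ (2 * r) + 2 * r) * 128 * Real.log x ≤
        ((x ^ (-d) / 2) ^ (2 * r) * x ^ (-d)) * x ^ η := by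
    have l1 := (isLittleO_log_rpow_atTop (show (0 : ℝ) < 1 / 16 by norm_num)).def
      (show (0 : ℝ) < 1 / 16 by norm_num)
    have l2 := (isLittleO_log_rpow_atTop (show (0 : ℝ) < η / 2 by positivity)).def
      (show (0 : ℝ) < 1 / (3 * ((r : ℝ) ^ (2 * r) + 2 * r) * 128 * 2 ^ (2 * r)) by positivity)
    filter_upwards [eventually_ge_atTop (4 : ℝ), l1, l2,
      (tendsto_rpow_atTop (show (0 : ℝ) < 1 / 8 by norm_num)).eventually_ge_atTop 6400]
      with x h4 h5 h6 h7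
    have hx0 : 0 < x := by linarith
    have hx1 : 1 ≤ x := by linarith
    have hlog : 0 ≤ Real.log x := Real.log_nonneg hx1
    rw [Real.norm_eq_abs, Real.norm_eq_abs, abs_of_nonneg hlog,
      abs_of_nonneg (Real.rpow_nonneg hx0.le _)] at h5 h6
    have e1 : x ^ (1 / 8 : ℝ) ≤ x ^ (-d) * x ^ (1 / 4 : ℝ) := by
      rw [← Real.rpow_add hx0]
      exact Real.rpow_le_rpow_of_exponent_le hx1 (by linarith)
    refine ⟨by linarith, ?_, by linarith, ?_, ?_⟩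
    · have h8 : x ^ (1 / (2 * (r : ℝ))) ≤ Real.sqrt x := by
        rw [Real.sqrt_eq_rpow]
        exact Real.rpow_le_rpow_of_exponent_le hx1 hs
      have h9 : Real.sqrt x * Real.sqrt x = x := Real.mul_self_sqrt hx0.le
      have h10 : 2 ≤ Real.sqrt x := by
        rw [show (2 : ℝ) = Real.sqrt 4 by
          rw [show (4 : ℝ) = 2 ^ 2 by norm_num, Real.sqrt_sq (by norm_num)]]
        exact Real.sqrt_le_sqrt h4
      nlinarith
    · have h8 : (Real.log x) ^ 2 ≤ (1 / 16 * x ^ (1 / 16 : ℝ)) ^ 2 :=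
        pow_le_pow_left₀ hlog h5 2
      have h9 : (x ^ (1 / 16 : ℝ)) ^ 2 = x ^ (1 / 8 : ℝ) := by
        rw [← Real.rpow_natCast, ← Real.rpow_mul hx0.le]
        norm_num
      rw [mul_pow, h9] at h8
      have h10 : 8 * (Real.log x) ^ 2 ≤ x ^ (1 / 8 : ℝ) / 32 := by
        have : 8 * ((1 / 16 : ℝ) ^ 2 * x ^ (1 / 8 : ℝ)) = x ^ (1 / 8 : ℝ) / 32 := by ring
        linarith
      linarith
    · have h8 : ((x ^ (-d) / 2) ^ (2 * r) * x ^ (-d)) * x ^ η = x ^ (η / 2) / 2 ^ (2 * r) := by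
        rw [div_pow, ← Real.rpow_natCast (x ^ (-d)), ← Real.rpow_mul hx0.le]
        have : x ^ (-d * ((2 * r : ℕ) : ℝ)) * x ^ (-d) * x ^ η = x ^ (η / 2) := by
          rw [← Real.rpow_add hx0, ← Real.rpow_add hx0]
          congr 1
          push_cast
          rw [hd]
          field_simp
          ring
        rw [← this]
        ring
      rw [h8, le_div_iff₀ (by positivity)]
      have h9 : 0 < 3 * ((r : ℝ) ^ (2 * r) + 2 * r) * 128 * 2 ^ (2 * r) := by positivity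
      rw [div_mul_eq_mul_div, one_mul, le_div_iff₀ h9] at h6
      linarith
  obtain ⟨Z, hZ⟩ := eventually_atTop.1 hev
  refine ⟨⌈Z⌉₊, ?_⟩
  intro P hP _ χ hχ X q ρ hq hqP hX1 hX2
  obtain ⟨c1, c2, c3, c4, c5⟩ := hZ P (Nat.ceil_le.1 hP)
  have hP0 : (0 : ℝ) < P := by linarith
  exact coreq ((P : ℝ) ^ (-d)) η (Real.rpow_pos_of_pos hP0 _)
    (Real.rpow_le_one_of_one_le_of_nonpos (by linarith) (by linarith)) hη r hr0 hrη P c1 c2 c3 c4
    c5 χ hχ X q ρ hq hqP hX1 hX2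

end Pool.Agent.V1179.MH
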