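import Mathlib

set_option autoImplicit false

/-! # Products of several integers in a residue class, by multiplicative characters (helper79) -/

namespace Pool.Agent.V1179.MH

open Finset

variable {P : ℕ} [Fact P.Prime]

/-- character sum over a finite set of integers -/
noncomputable def cs (χ : DirichletCharacter ℂ P) (A : Finset ℕ) : ℂ := ∑ n ∈ A, χ (n : ZMod P)

lemma card_units_eq : ((P.totient : ℕ) : ℝ) = (P : ℝ) - 1 := by
  have hp : P.Prime := Fact.out
  rw [Nat.totient_prime hp, Nat.cast_sub hp.one_le, Nat.cast_one]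

/-- the second moment of character sums -/
lemma second_moment (A : Finset ℕ) (hA : ∀ n ∈ A, 0 < n ∧ n < P) :
    ∑ χ : DirichletCharacter ℂ P, ‖cs χ A‖ ^ 2 = ((P : ℝ) - 1) * A.card := by
  classical
  have hunit : ∀ n ∈ A, IsUnit (n : ZMod P) := by
    intro n hn
    rw [ZMod.isUnit_iff_coprime]
    exact (Nat.coprime_of_lt_prime (hA n hn).1.ne' (hA n hn).2 Fact.out).symm
  have h1 : ∀ χ : DirichletCharacter ℂ P, ((‖cs χ A‖ ^ 2 : ℝ) : ℂ) =
      ∑ n ∈ A, ∑ n' ∈ A, χ ((n : ZMod P)⁻¹) * χ (n' : ZMod P) := by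
    intro χ
    push_cast
    rw [← Complex.conj_mul', cs, map_sum, sum_mul_sum]
    apply sum_congr rfl
    intro n _
    apply sum_congr rfl
    intro n' _
    congr 1
    have := MulChar.star_apply' χ (n : ZMod P)
    rw [MulChar.inv_apply'] at this
    exact this
  have h2 : ((∑ χ : DirichletCharacter ℂ P, ‖cs χ A‖ ^ 2 : ℝ) : ℂ) =
      (((P : ℝ) - 1) * A.card : ℝ) := by
    rw [Complex.ofReal_sum]
    rw [sum_congr rfl (fun χ _ => h1 χ), sum_comm]
    have h3 : ∀ n ∈ A, ∑ χ : DirichletCharacter ℂ P, ∑ n' ∈ A,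
        χ ((n : ZMod P)⁻¹) * χ (n' : ZMod P) = (P.totient : ℂ) := by
      intro n hn
      rw [sum_comm]
      simp_rw [DirichletCharacter.sum_char_inv_mul_char_eq ℂ (hunit n hn)]
      rw [sum_eq_single n]
      · simp
      · intro n' hn' hne
        rw [if_neg]
        intro h
        rw [ZMod.natCast_eq_natCast_iff', Nat.mod_eq_of_lt (hA n hn).2,
          Nat.mod_eq_of_lt (hA n' hn').2] at h
        exact hne h.symm
      · intro h
        exact absurd hn h
    rw [sum_congr rfl h3, sum_const, nsmul_eq_mul]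
    have h4 := card_units_eq (P := P)
    push_cast
    have h5 : ((P.totient : ℕ) : ℂ) = (P : ℂ) - 1 := by exact_mod_cast congrArg (fun x : ℝ => (x : ℂ)) h4
    rw [h5]
    ring
  exact_mod_cast h2

open Classical in
/-- the number of points with a given product -/
theorem count_prod (m : ℕ) (A : Fin (m + 2) → Finset ℕ) (hA : ∀ j, ∀ n ∈ A j, 0 < n ∧ n < P)
    (a : ZMod P) (ha : a ≠ 0) (V X : ℝ) (hV : 0 ≤ V) (hX : ∀ j, ((A j).card : ℝ) ≤ X)
    (hS : ∀ χ : DirichletCharacter ℂ P, χ ≠ 1 → ∀ j, ‖cs χ (A j)‖ ≤ V) :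
    |((((Fintype.piFinset A).filter (fun x => ∏ j, ((x j : ℕ) : ZMod P) = a)).card : ℝ)) -
      (∏ j, ((A j).card : ℝ)) / ((P : ℝ) - 1)| ≤ V ^ m * X := by
  have hp : P.Prime := Fact.out
  have hP1 : (0 : ℝ) < (P : ℝ) - 1 := by
    have : (2 : ℝ) ≤ P := by exact_mod_cast hp.two_le
    linarith
  have hunit : ∀ j, ∀ n ∈ A j, IsUnit (n : ZMod P) := by
    intro j n hn
    rw [ZMod.isUnit_iff_coprime]
    exact (Nat.coprime_of_lt_prime (hA j n hn).1.ne' (hA j n hn).2 Fact.out).symm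
  have hau : IsUnit a := isUnit_iff_ne_zero.2 ha
  set N : ℕ := ((Fintype.piFinset A).filter (fun x => ∏ j, ((x j : ℕ) : ZMod P) = a)).card with hN
  have hφ : ((P.totient : ℕ) : ℂ) = (P : ℂ) - 1 := by
    exact_mod_cast congrArg (fun x : ℝ => (x : ℂ)) (card_units_eq (P := P))
  have h1 : ((P : ℂ) - 1) * N = ∑ χ : DirichletCharacter ℂ P, χ a⁻¹ * ∏ j, cs χ (A j) := by
    have h2 : ∀ χ : DirichletCharacter ℂ P, ∏ j, cs χ (A j) =
        ∑ x ∈ Fintype.piFinset A, χ (∏ j, ((x j : ℕ) : ZMod P)) := by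
      intro χ
      simp only [cs]
      rw [prod_univ_sum]
      apply sum_congr rfl
      intro x _
      rw [map_prod]
    simp_rw [h2, mul_sum]
    rw [sum_comm]
    simp_rw [DirichletCharacter.sum_char_inv_mul_char_eq ℂ hau]
    rw [hN, card_filter, ← hφ]
    push_cast
    rw [mul_sum]
    apply sum_congr rfl
    intro x _
    by_cases h : ∏ j, ((x j : ℕ) : ZMod P) = a
    · rw [if_pos h, if_pos h.symm, mul_one]
    · rw [if_neg h, if_neg (fun h' => h h'.symm), mul_zero]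
  have hone : ∀ j, cs (1 : DirichletCharacter ℂ P) (A j) = (A j).card := by
    intro j
    rw [cs, sum_congr rfl (fun n hn => MulChar.one_apply (hunit j n hn)), sum_const,
      nsmul_eq_mul, mul_one]
  have h3 : ((P : ℂ) - 1) * N - ∏ j, ((A j).card : ℂ) =
      ∑ χ ∈ univ.erase (1 : DirichletCharacter ℂ P), χ a⁻¹ * ∏ j, cs χ (A j) := by
    rw [h1, ← add_sum_erase univ _ (mem_univ (1 : DirichletCharacter ℂ P))]
    simp_rw [hone]
    rw [MulChar.one_apply (by rw [isUnit_iff_ne_zero]; exact inv_ne_zero ha)]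
    ring
  have h4 : ‖((P : ℂ) - 1) * N - ∏ j, ((A j).card : ℂ)‖ ≤ V ^ m * (((P : ℝ) - 1) * X) := by
    rw [h3]
    refine (norm_sum_le _ _).trans ?_
    calc _ ≤ ∑ χ ∈ univ.erase (1 : DirichletCharacter ℂ P),
          V ^ m * ((‖cs χ (A 0)‖ ^ 2 + ‖cs χ (A 1)‖ ^ 2) / 2) := by
          apply sum_le_sum
          intro χ hχ
          have hχ1 := ne_of_mem_erase hχ
          rw [norm_mul, norm_prod]
          have h5 : ‖χ a⁻¹‖ ≤ 1 := χ.norm_le_one _
          have h6 : ∏ j, ‖cs χ (A j)‖ ≤ (‖cs χ (A 0)‖ * ‖cs χ (A 1)‖) * V ^ m := by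
            rw [Fin.prod_univ_succ, Fin.prod_univ_succ, ← mul_assoc]
            apply mul_le_mul_of_nonneg_left _ (by positivity)
            calc ∏ i : Fin m, ‖cs χ (A i.succ.succ)‖ ≤ ∏ _i : Fin m, V :=
                  prod_le_prod (fun _ _ => norm_nonneg _) (fun i _ => hS χ hχ1 _)
              _ = V ^ m := by rw [prod_const, card_univ, Fintype.card_fin]
          have h7 : 0 ≤ ∏ j, ‖cs χ (A j)‖ := prod_nonneg fun _ _ => norm_nonneg _
          have h8 : ‖cs χ (A 0)‖ * ‖cs χ (A 1)‖ ≤ (‖cs χ (A 0)‖ ^ 2 + ‖cs χ (A 1)‖ ^ 2) / 2 := by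
            nlinarith [sq_nonneg (‖cs χ (A 0)‖ - ‖cs χ (A 1)‖)]
          calc ‖χ a⁻¹‖ * ∏ j, ‖cs χ (A j)‖ ≤ 1 * ∏ j, ‖cs χ (A j)‖ :=
                mul_le_mul_of_nonneg_right h5 h7
            _ ≤ (‖cs χ (A 0)‖ * ‖cs χ (A 1)‖) * V ^ m := by rw [one_mul]; exact h6
            _ ≤ ((‖cs χ (A 0)‖ ^ 2 + ‖cs χ (A 1)‖ ^ 2) / 2) * V ^ m :=
                mul_le_mul_of_nonneg_right h8 (by positivity)
            _ = _ := by ring
      _ ≤ ∑ χ : DirichletCharacter ℂ P,
          V ^ m * ((‖cs χ (A 0)‖ ^ 2 + ‖cs χ (A 1)‖ ^ 2) / 2) :=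
          sum_le_sum_of_subset_of_nonneg (erase_subset _ _) (fun _ _ _ => by positivity)
      _ = V ^ m * ((((P : ℝ) - 1) * (A 0).card + ((P : ℝ) - 1) * (A 1).card) / 2) := by
          rw [← mul_sum, ← sum_div, sum_add_distrib, second_moment (A 0) (hA 0),
            second_moment (A 1) (hA 1)]
      _ ≤ V ^ m * (((P : ℝ) - 1) * X) := by
          apply mul_le_mul_of_nonneg_left _ (by positivity)
          have h9 := hX 0
          have h10 := hX 1
          nlinarith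
  have h5 : ((P : ℂ) - 1) * N - ∏ j, ((A j).card : ℂ) =
      ((((P : ℝ) - 1) * N - ∏ j, ((A j).card : ℝ) : ℝ) : ℂ) := by
    push_cast
    rfl
  rw [h5, Complex.norm_real, Real.norm_eq_abs] at h4
  have h6 : (N : ℝ) - (∏ j, ((A j).card : ℝ)) / ((P : ℝ) - 1) =
      (((P : ℝ) - 1) * N - ∏ j, ((A j).card : ℝ)) / ((P : ℝ) - 1) := by
    field_simp
  rw [h6, abs_div, abs_of_pos hP1, div_le_iff₀ hP1]
  calc _ ≤ V ^ m * (((P : ℝ) - 1) * X) := h4
    _ = _ := by ring

end Pool.Agent.V1179.MH
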