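import Pool.Agent.V1179.MH.Box
import Pool.Agent.Y961.JR.ScaledJ

set_option autoImplicit false

/-! # The criterion for record prime gaps around residues modulo a large prime (helper79) -/

namespace Pool.Agent.V1179.MH

open Finset Filter
open Pool.Agent.W147.PS (ff ff_compare ev_pow)

lemma prod_diff : ∀ (r : ℕ) (x y M : Fin r → ℝ) (δ : ℝ), 0 ≤ δ →
    (∀ j, 0 ≤ x j ∧ x j ≤ M j) → (∀ j, 0 ≤ y j ∧ y j ≤ M j) → (∀ j, |x j - y j| ≤ δ * M j) →
    |∏ j, x j - ∏ j, y j| ≤ r * δ * ∏ j, M j := by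
  intro r
  induction r with
  | zero => intro x y M δ _ _ _ _; simp
  | succ r ih =>
    intro x y M δ hδ hx hy h
    rw [Fin.prod_univ_succ, Fin.prod_univ_succ, Fin.prod_univ_succ]
    have h1 := ih (fun j => x j.succ) (fun j => y j.succ) (fun j => M j.succ) δ hδ
      (fun j => hx _) (fun j => hy _) (fun j => h _)
    have h2 : 0 ≤ ∏ j : Fin r, x j.succ := prod_nonneg fun j _ => (hx _).1
    have h3 : ∏ j : Fin r, x j.succ ≤ ∏ j : Fin r, M j.succ :=
      prod_le_prod (fun j _ => (hx _).1) (fun j _ => (hx _).2)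
    have hM : ∀ j, 0 ≤ M j := fun j => (hx j).1.trans (hx j).2
    have h4 : x 0 * ∏ j : Fin r, x j.succ - y 0 * ∏ j : Fin r, y j.succ =
        (x 0 - y 0) * ∏ j : Fin r, x j.succ +
          y 0 * (∏ j : Fin r, x j.succ - ∏ j : Fin r, y j.succ) := by ring
    rw [h4]
    refine (abs_add_le _ _).trans ?_
    rw [abs_mul, abs_mul, abs_of_nonneg h2, abs_of_nonneg (hy 0).1]
    have h5 : |x 0 - y 0| * ∏ j : Fin r, x j.succ ≤ (δ * M 0) * ∏ j : Fin r, M j.succ :=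
      mul_le_mul (h 0) h3 h2 (mul_nonneg hδ (hM 0))
    have h6 : y 0 * |∏ j : Fin r, x j.succ - ∏ j : Fin r, y j.succ| ≤
        M 0 * (r * δ * ∏ j : Fin r, M j.succ) :=
      mul_le_mul (hy 0).2 h1 (abs_nonneg _) (hM 0)
    push_cast
    linarith

lemma ev_main (r : ℕ) (ε : ℝ) (h0 : 0 < ε) : ∀ᶠ P : ℝ in atTop,
    4 * (P ^ (-ε) * (1 + r + (2 + Real.log P) ^ r)) ≤ P ^ (-(ε / 2)) ∧ P ^ (-(ε / 2)) ≤ 1 := by
  have h1 : ∀ᶠ P : ℝ in atTop, (2 + Real.log P) ^ r ≤ P ^ (ε / 4) := by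
    have h2 := (isLittleO_log_rpow_atTop (show (0 : ℝ) < ε / (4 * (r + 1)) by positivity)).def
      (show (0 : ℝ) < 1 / 2 by norm_num)
    have h3 := (tendsto_rpow_atTop (show (0 : ℝ) < ε / (4 * (r + 1)) by positivity)).eventually_ge_atTop
      4
    filter_upwards [h2, h3, eventually_ge_atTop (1 : ℝ)] with P h4 h5 h6
    have h7 := Real.log_nonneg h6
    rw [Real.norm_eq_abs, Real.norm_eq_abs, abs_of_nonneg h7,
      abs_of_nonneg (Real.rpow_nonneg (by linarith) _)] at h4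
    calc (2 + Real.log P) ^ r ≤ (P ^ (ε / (4 * (r + 1)))) ^ r := by
          apply pow_le_pow_left₀ (by linarith)
          linarith
      _ = P ^ (ε / (4 * (r + 1)) * r) := by
          rw [Real.rpow_mul (by linarith), Real.rpow_natCast]
      _ ≤ P ^ (ε / 4) := by
          apply Real.rpow_le_rpow_of_exponent_le h6
          rw [div_mul_eq_mul_div, div_le_div_iff₀ (by positivity) (by norm_num)]
          nlinarith
  have h2 := (tendsto_rpow_atTop (show (0 : ℝ) < ε / 4 by positivity)).eventually_ge_atTop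
    (8 * (1 + r))
  have h3 := (tendsto_rpow_atTop (show (0 : ℝ) < ε / 4 by positivity)).eventually_ge_atTop
    (8 : ℝ)
  filter_upwards [h1, h2, h3, eventually_ge_atTop (1 : ℝ)] with P h4 h5 h8 h6
  have hP0 : 0 < P := by linarith
  have h7 : 0 < P ^ (ε / 4) := Real.rpow_pos_of_pos hP0 _
  constructor
  · have e1 : P ^ (-(ε / 2)) = P ^ (-ε) * (P ^ (ε / 4) * P ^ (ε / 4)) := by
      rw [← Real.rpow_add hP0, ← Real.rpow_add hP0]
      congr 1
      ring
    rw [e1]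
    have h9 : 0 < P ^ (-ε) := Real.rpow_pos_of_pos hP0 _
    have h10 : 4 * (1 + r + (2 + Real.log P) ^ r) ≤ P ^ (ε / 4) * P ^ (ε / 4) := by
      nlinarith
    nlinarith
  · exact Real.rpow_le_one_of_one_le_of_nonpos h6 (by linarith)

theorem crit_gen (k r : ℕ) (hkr : 1 ≤ k + r) (ε : ℝ) (h0 : 0 < ε) (h1 : ε ≤ 1) :
    ∃ κ : ℝ, 0 < κ ∧ ∃ P₀ : ℕ, ∀ P : ℕ, P₀ ≤ P → P.Prime → ∀ [NeZero P],
    ∀ (ι : Type) (t : Finset ι) (w : ι → Fin k → ℤ) (u : ι → Fin r → ZMod P) (B : ℝ), 0 ≤ B →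
    (∀ q : ℕ, 1 ≤ q → (q : ℝ) ≤ (P : ℝ) ^ ε → ∀ ρ : Fin k → ℤ,
      |((t.filter (fun i => ∀ j, (q : ℤ) ∣ w i j - ρ j)).card : ℝ) - t.card / (q : ℝ) ^ k| ≤
        t.card * (P : ℝ) ^ (-ε) ∧
      ∀ h : Fin r → ZMod P, h ≠ 0 →
        ‖∑ i ∈ t.filter (fun i => ∀ j, (q : ℤ) ∣ w i j - ρ j),
          ZMod.stdAddChar (∑ j, h j * u i j)‖ ≤ B) →
    (∀ i ∈ t, ∀ j, (P : ℝ) ^ ε ≤ w i j) →
    ∀ a L : Fin r → ℕ, (∀ j, (P : ℝ) ^ ε ≤ a j) → (∀ j, a j + L j ≤ P) →
    (∀ j, (P : ℝ) ^ ε ≤ L j) → 0 < t.card →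
    B * (P : ℝ) ^ ((r : ℝ) + ε) ≤ t.card * ∏ j, (L j : ℝ) →
    ∃ i ∈ t, (∀ j, ∀ q : ℕ, q.Prime → κ * ff P < |(q : ℝ) - w i j|) ∧
      ∀ j, a j ≤ (u i j).val ∧ (u i j).val < a j + L j ∧
        ∀ q : ℕ, q.Prime → κ * ff P < |(q : ℝ) - (u i j).val| := by
  classical
  obtain ⟨κ, hκ, X₀, hc⟩ := Pool.Agent.Y961.JR.critJ (k + r) hkr
  have hkr1 : (1 : ℝ) ≤ ((k + r : ℕ) : ℝ) := by exact_mod_cast hkr
  set n : ℝ := ((k + r : ℕ) : ℝ) with hn
  set θ : ℝ := ε / (4 * n) with hθ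
  have hθ0 : 0 < θ := by positivity
  have hθε : θ ≤ ε := div_le_self h0.le (by linarith)
  have hθ1 : θ ≤ 1 := hθε.trans h1
  have hev := ((ev_main r ε h0).and ((ff_compare θ hθ0 hθ1).and
    (((tendsto_rpow_atTop hθ0).eventually_ge_atTop X₀).and
      (((tendsto_rpow_atTop hθ0).eventually Pool.Agent.Y961.JR.ev_small).and
        (eventually_gt_atTop (1 : ℝ))))))
  obtain ⟨Z, hZ⟩ := eventually_atTop.1 hev
  refine ⟨κ * (θ / 32), by positivity, ⌈Z⌉₊, ?_⟩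
  intro P hPZ hPp _ ι t w u B hB hE hw a L ha haL hL ht hBt
  have hPZ' : Z ≤ (P : ℝ) := Nat.ceil_le.1 hPZ
  obtain ⟨⟨m1, m2⟩, m3, m4, ⟨m5, m6⟩, m7⟩ := hZ P hPZ'
  have hP1 : (1 : ℝ) ≤ P := m7.le
  have hP0 : (0 : ℝ) < P := by linarith
  have hlogP : 0 ≤ Real.log P := Real.log_nonneg hP1
  have hmono : ∀ x y : ℝ, x ≤ y → (P : ℝ) ^ x ≤ (P : ℝ) ^ y := fun x y h =>
    Real.rpow_le_rpow_of_exponent_le hP1 h
  set X : ℝ := (P : ℝ) ^ θ with hX
  obtain ⟨hfl, hcr⟩ := hc X m4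
  set D : ℝ := 2 + Real.log P with hD
  have hD0 : 0 ≤ D := by positivity
  set Lp : ℝ := ∏ j, (L j : ℝ) with hLp
  have hLp0 : 0 < Lp := prod_pos fun j _ => lt_of_lt_of_le (Real.rpow_pos_of_pos hP0 _) (hL j)
  set W : ℝ := t.card * Lp / (P : ℝ) ^ r with hW
  have htR : (0 : ℝ) < t.card := by exact_mod_cast ht
  have hPr : (0 : ℝ) < (P : ℝ) ^ r := by positivity
  have hW0 : 0 < W := by positivity
  have hBW : B ≤ W * (P : ℝ) ^ (-ε) := by
    rw [hW, Real.rpow_neg hP0.le, ← div_eq_mul_inv, div_div, le_div_iff₀ (by positivity)]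
    rw [Real.rpow_add hP0, Real.rpow_natCast] at hBt
    exact hBt
  set δ : ℝ := (P : ℝ) ^ (-ε) with hδ
  have hδ0 : 0 < δ := Real.rpow_pos_of_pos hP0 _
  -- the main count
  have hmain : ∀ q : ℕ, 1 ≤ q → (q : ℝ) ≤ (P : ℝ) ^ ε → q < P → ∀ (ρ : Fin k → ℤ) (σ : Fin r → ℤ),
      |((t.filter (fun i => (∀ j, (q : ℤ) ∣ w i j - ρ j) ∧
        ∀ j, u i j ∈ AP P (a j) (L j) q (σ j))).card : ℝ) - W / (q : ℝ) ^ (k + r)| ≤
        W * (δ * (1 + r + D ^ r)) := by
    intro q hq hqP hqlt ρ σ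
    have hqR : (0 : ℝ) < q := by exact_mod_cast hq
    have hq1 : (1 : ℝ) ≤ q := by exact_mod_cast hq
    have hcop : Nat.Coprime P q :=
      Nat.coprime_of_lt_prime (by omega) hqlt hPp
    obtain ⟨g1, g2⟩ := hE q hq hqP ρ
    set t' := t.filter (fun i => ∀ j, (q : ℤ) ∣ w i j - ρ j) with ht'
    have hbox := count_box t' u B D hB g2 (fun j => AP P (a j) (L j) q (σ j))
      (fun j => fourier_AP (haL j) hq hcop (σ j))
    have hfil : t.filter (fun i => (∀ j, (q : ℤ) ∣ w i j - ρ j) ∧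
        ∀ j, u i j ∈ AP P (a j) (L j) q (σ j)) =
        t'.filter (fun i => ∀ j, u i j ∈ AP P (a j) (L j) q (σ j)) := by
      rw [ht', filter_filter]
    rw [hfil]
    set N : ℝ := ((t'.filter (fun i => ∀ j, u i j ∈ AP P (a j) (L j) q (σ j))).card : ℝ)
    set Ap : ℝ := ∏ j, ((AP P (a j) (L j) q (σ j)).card : ℝ) with hAp
    have hdiff : |Ap - ∏ j, ((L j : ℝ) / q)| ≤ r * δ * Lp := by
      apply prod_diff r _ _ _ δ hδ0.le
      · intro j
        exact ⟨Nat.cast_nonneg _, by exact_mod_cast card_AP_le (σ j)⟩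
      · intro j
        exact ⟨by positivity, div_le_self (Nat.cast_nonneg _) hq1⟩
      · intro j
        refine (card_AP (haL j) hq (σ j)).trans ?_
        rw [hδ, Real.rpow_neg hP0.le, inv_mul_eq_div, le_div_iff₀ (by positivity), one_mul]
        exact hL j
    have hprodq : ∏ j, ((L j : ℝ) / q) = Lp / (q : ℝ) ^ r := by
      rw [prod_div_distrib, prod_const, card_univ, Fintype.card_fin]
    rw [hprodq] at hdiff
    have ht'le : (t'.card : ℝ) ≤ t.card := by exact_mod_cast card_filter_le _ _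
    have hqr1 : (1 : ℝ) ≤ (q : ℝ) ^ r := one_le_pow₀ hq1
    have k1 : |t'.card * Ap / (P : ℝ) ^ r - W / (q : ℝ) ^ (k + r)| ≤ W * (δ * (1 + r)) := by
      have e1 : t'.card * Ap / (P : ℝ) ^ r - W / (q : ℝ) ^ (k + r) =
          (t'.card * (Ap - Lp / (q : ℝ) ^ r) +
            (t'.card - t.card / (q : ℝ) ^ k) * (Lp / (q : ℝ) ^ r)) / (P : ℝ) ^ r := by
        rw [hW, pow_add]
        field_simp
        ring
      rw [e1, abs_div, abs_of_pos hPr, div_le_iff₀ hPr]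
      have e2 : W * (δ * (1 + r)) * (P : ℝ) ^ r = t.card * (r * δ * Lp) + t.card * δ * Lp := by
        rw [hW]
        field_simp
        ring
      rw [e2]
      refine (abs_add_le _ _).trans (add_le_add ?_ ?_)
      · rw [abs_mul, abs_of_nonneg (Nat.cast_nonneg _)]
        exact mul_le_mul ht'le hdiff (abs_nonneg _) htR.le
      · rw [abs_mul, abs_of_nonneg (show (0 : ℝ) ≤ Lp / (q : ℝ) ^ r by positivity)]
        exact mul_le_mul g1 (div_le_self hLp0.le hqr1) (by positivity) (by positivity)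
    have k2 : B * D ^ r ≤ W * (δ * D ^ r) := by
      calc B * D ^ r ≤ (W * δ) * D ^ r := mul_le_mul_of_nonneg_right hBW (by positivity)
        _ = _ := by ring
    have k3 : N - W / (q : ℝ) ^ (k + r) = (N - t'.card * Ap / (P : ℝ) ^ r) +
        (t'.card * Ap / (P : ℝ) ^ r - W / (q : ℝ) ^ (k + r)) := by ring
    rw [k3]
    refine (abs_add_le _ _).trans ?_
    have k4 : W * (δ * (1 + r + D ^ r)) = W * (δ * D ^ r) + W * (δ * (1 + r)) := by ring
    rw [k4]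
    exact add_le_add (hbox.trans k2) k1
  set Δ : ℝ := δ * (1 + r + D ^ r) with hΔ
  have hΔ0 : 0 ≤ Δ := by positivity
  have hXP : X ^ (2 / 5 : ℝ) ≤ (P : ℝ) ^ ε := by
    rw [hX, ← Real.rpow_mul hP0.le]
    exact hmono _ _ (by nlinarith)
  have hXP2 : X ^ (2 / 5 : ℝ) < P := by
    rw [hX, ← Real.rpow_mul hP0.le]
    calc (P : ℝ) ^ (θ * (2 / 5)) ≤ (P : ℝ) ^ (2 / 5 : ℝ) := hmono _ _ (by nlinarith)
      _ < (P : ℝ) ^ (1 : ℝ) := Real.rpow_lt_rpow_of_exponent_lt m7 (by norm_num)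
      _ = P := Real.rpow_one _
  set s : Finset ι := t.filter (fun i => ∀ j, a j ≤ (u i j).val ∧ (u i j).val < a j + L j) with hs
  set v : ι → Fin (k + r) → ℤ := fun i => Fin.append (w i) (fun j => ((u i j).val : ℤ)) with hv
  have hfilter : ∀ (q : ℕ) (ρ : Fin (k + r) → ℤ),
      s.filter (fun i => ∀ j, (q : ℤ) ∣ v i j - ρ j) =
      t.filter (fun i => (∀ j, (q : ℤ) ∣ w i j - ρ (Fin.castAdd r j)) ∧
        ∀ j, u i j ∈ AP P (a j) (L j) q (ρ (Fin.natAdd k j))) := by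
    intro q ρ
    rw [hs, filter_filter]
    apply filter_congr
    intro i _
    constructor
    · rintro ⟨f1, f2⟩
      refine ⟨fun j => ?_, fun j => ?_⟩
      · have := f2 (Fin.castAdd r j)
        simpa [hv] using this
      · rw [mem_AP (haL j)]
        refine ⟨f1 j, ?_⟩
        have := f2 (Fin.natAdd k j)
        simpa [hv] using this
    · rintro ⟨f1, f2⟩
      refine ⟨fun j => ((mem_AP (haL j) _ _).1 (f2 j)).1, ?_⟩
      intro j
      refine Fin.addCases (fun j => ?_) (fun j => ?_) j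
      · simpa [hv] using f1 j
      · simpa [hv] using ((mem_AP (haL j) _ _).1 (f2 j)).2
  have hs1 : |(s.card : ℝ) - W| ≤ W * Δ := by
    have h5 := hmain 1 le_rfl (by
      push_cast
      exact Real.one_le_rpow hP1 h0.le) hPp.one_lt (fun _ => 0) (fun _ => 0)
    have h6 := hfilter 1 (fun _ => 0)
    rw [← h6] at h5
    have h7 : s.filter (fun i => ∀ j, ((1 : ℕ) : ℤ) ∣ v i j - (fun _ => 0 : Fin (k + r) → ℤ) j) = s := by
      apply filter_true_of_mem
      intro i _ j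
      simp
    rw [h7] at h5
    simpa using h5
  have hΔ1 : Δ ≤ 1 / 4 := by
    have : 4 * Δ ≤ 1 := m1.trans m2
    linarith
  have hsW : W ≤ 2 * s.card := by
    have h5 := (abs_le.1 hs1).1
    nlinarith
  have hsne : s.Nonempty := by
    rw [← card_pos]
    have : (0 : ℝ) < s.card := by linarith
    exact_mod_cast this
  obtain ⟨i, hi, hi2⟩ := hcr ι s v hsne (by
    intro q hq hqX ρ
    have hqR : (0 : ℝ) < q := by exact_mod_cast hq
    have hq1 : (1 : ℝ) ≤ q := by exact_mod_cast hq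
    have hqlt : q < P := by
      have : (q : ℝ) < P := lt_of_le_of_lt hqX hXP2
      exact_mod_cast this
    rw [hfilter q ρ]
    have h5 := hmain q hq (hqX.trans hXP) hqlt (fun j => ρ (Fin.castAdd r j))
      (fun j => ρ (Fin.natAdd k j))
    have h6 : |W / (q : ℝ) ^ (k + r) - s.card / (q : ℝ) ^ (k + r)| ≤ W * Δ := by
      rw [← sub_div, abs_div, abs_of_pos (show (0 : ℝ) < (q : ℝ) ^ (k + r) by positivity)]
      refine (div_le_self (abs_nonneg _) (one_le_pow₀ hq1)).trans ?_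
      rw [abs_sub_comm]
      exact hs1
    have h7 : W * Δ + W * Δ ≤ s.card * X ^ (-(2 * ((k + r : ℕ) : ℝ))) := by
      have e1 : X ^ (-(2 * ((k + r : ℕ) : ℝ))) = (P : ℝ) ^ (-(ε / 2)) := by
        rw [hX, ← Real.rpow_mul hP0.le]
        congr 1
        rw [hθ, ← hn]
        field_simp
        norm_num
      rw [e1]
      have hsc : (0 : ℝ) ≤ s.card := Nat.cast_nonneg _
      calc W * Δ + W * Δ = 2 * Δ * W := by ring
        _ ≤ 2 * Δ * (2 * s.card) := mul_le_mul_of_nonneg_left hsW (by positivity)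
        _ = s.card * (4 * Δ) := by ring
        _ ≤ s.card * (P : ℝ) ^ (-(ε / 2)) := mul_le_mul_of_nonneg_left m1 hsc
    refine le_trans ?_ h7
    refine le_trans (le_of_eq ?_) ((abs_add_le _ _).trans (add_le_add h5 h6))
    congr 1
    ring)
  have hXε : X ≤ (P : ℝ) ^ ε := hmono _ _ hθε
  rw [hs, mem_filter] at hi
  have hscal : κ * (θ / 32) * ff P ≤ κ * Pool.Agent.H256R2.SC.ff X :=
    Pool.Agent.Y961.JR.ff_scaled κ θ P hκ hθ1 hP1 m3.2
  refine ⟨i, hi.1, ?_, ?_⟩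
  · intro j q hq
    refine lt_of_le_of_lt hscal ?_
    apply Pool.Agent.Y961.JR.no_prime κ X hfl m5 m6 (w i j) (hXε.trans (hw i hi.1 j)) _ q hq
    intro m hm
    rw [Int.floor_intCast] at hm
    apply hi2 (Fin.castAdd r j) m
    simpa [hv] using hm
  · intro j
    refine ⟨(hi.2 j).1, (hi.2 j).2, ?_⟩
    intro q hq
    refine lt_of_le_of_lt hscal ?_
    have haj : (a j : ℝ) ≤ ((u i j).val : ℝ) := by exact_mod_cast (hi.2 j).1
    apply Pool.Agent.Y961.JR.no_prime κ X hfl m5 m6 ((u i j).val : ℝ)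
      ((hXε.trans (ha j)).trans haj) _ q hq
    intro m hm
    rw [Int.floor_natCast] at hm
    apply hi2 (Fin.natAdd k j) m
    simpa [hv] using hm

end Pool.Agent.V1179.MH
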