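import Pool.Agent.V1179.MH.QR2
import Pool.Agent.V1179.MH.Crit

set_option autoImplicit false

/-! # Patterns of Legendre symbols and record prime gaps (helper79) -/

namespace Pool.Agent.V1179.MH

open Finset Filter
open Pool.Agent.W147.PS (ff ff_compare ev_pow)

lemma class_eq (x H q : ℕ) (hq : 1 ≤ q) (ρ : ℤ) : ∃ s : ℕ, s < q ∧
    (Ico x (x + H)).filter (fun n : ℕ => (q : ℤ) ∣ (n : ℤ) - ρ) =
      (range (TT H q s)).image (fun k => x + (s + q * k)) := by
  have hq0 : (0 : ℤ) < q := by exact_mod_cast hq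
  have h0 : 0 ≤ (ρ - x) % q := Int.emod_nonneg _ hq0.ne'
  have h1 : (ρ - x) % q < q := Int.emod_lt_of_pos _ hq0
  obtain ⟨s, hs⟩ : ∃ s : ℕ, (s : ℤ) = (ρ - x) % q := ⟨((ρ - x) % q).toNat, by omega⟩
  have hsq : s < q := by omega
  have hd : (q : ℤ) ∣ (ρ - x) - s := by rw [hs]; exact Int.dvd_self_sub_emod
  refine ⟨s, hsq, ?_⟩
  ext n
  rw [mem_filter, mem_Ico, mem_image]
  constructor
  · rintro ⟨⟨hn1, hn2⟩, hn3⟩
    have h2 : (q : ℤ) ∣ (n : ℤ) - x - s := by
      have := dvd_add hn3 hd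
      have e : (n : ℤ) - ρ + (ρ - x - s) = (n : ℤ) - x - s := by ring
      rwa [e] at this
    obtain ⟨c, hc⟩ := h2
    have hc0 : 0 ≤ c := by
      by_contra hneg
      push Not at hneg
      have : (q : ℤ) * c ≤ q * (-1) := mul_le_mul_of_nonneg_left (by omega) hq0.le
      omega
    obtain ⟨k, rfl⟩ := Int.eq_ofNat_of_zero_le hc0
    have h3 : n = x + (s + q * k) := by
      have : (n : ℤ) = ((x + (s + q * k) : ℕ) : ℤ) := by push_cast; linarith
      exact_mod_cast this
    refine ⟨k, ?_, h3.symm⟩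
    rw [mem_range, lt_TT H q s k hq hsq]
    omega
  · rintro ⟨k, hk, rfl⟩
    rw [mem_range, lt_TT H q s k hq hsq] at hk
    refine ⟨⟨by omega, by omega⟩, ?_⟩
    have e : ((x + (s + q * k) : ℕ) : ℤ) - ρ = q * k - ((ρ - x) - s) := by push_cast; ring
    rw [e]
    exact dvd_sub (dvd_mul_right _ _) hd

variable {P : ℕ} [Fact P.Prime]

/-- the pattern at `n` -/
def Pat {K : ℕ} (b : Fin K → ZMod P) (ω : Fin K → ℤ) (n : ℕ) : Prop :=
  ∀ j, quadraticChar (ZMod P) ((n : ZMod P) + b j) = ω j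

open Classical in
lemma count_pat {K : ℕ} (b : Fin K → ZMod P)
    (ω : Fin K → ℤ) (hω : ∀ j, ω j = 1 ∨ ω j = -1) (x H : ℕ) (hxH : x + H ≤ P) (q s : ℕ)
    (hq : 1 ≤ q) (hs : s < q) (E : ℝ) (hE0 : 0 ≤ E)
    (hgood : ∀ S : Finset (Fin K), S.Nonempty → |ZZ b H (q, s, S) (x : ZMod P)| ≤ E) :
    |((((range (TT H q s)).image (fun k => x + (s + q * k))).filter (Pat b ω)).card : ℝ) -
      (2 : ℝ)⁻¹ ^ K * TT H q s| ≤ E + K := by
  set A := (range (TT H q s)).image (fun k => x + (s + q * k)) with hA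
  have hinjk : Set.InjOn (fun k => x + (s + q * k)) (range (TT H q s)) := by
    intro k _ k' _ h
    simp only at h
    have : q * k = q * k' := by omega
    exact Nat.eq_of_mul_eq_mul_left (by omega) this
  have hAsub : ∀ n ∈ A, x ≤ n ∧ n < x + H := by
    intro n hn
    rw [hA, mem_image] at hn
    obtain ⟨k, hk, rfl⟩ := hn
    rw [mem_range, lt_TT H q s k hq hs] at hk
    omega
  -- weighted count
  have h1 : ∑ n ∈ A, (2 : ℝ)⁻¹ ^ K * ∏ j, (1 + (ω j : ℝ) * qc ((n : ZMod P) + b j)) =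
      (2 : ℝ)⁻¹ ^ K * ∑ S : Finset (Fin K), (∏ j ∈ S, (ω j : ℝ)) * ZZ b H (q, s, S) (x : ZMod P) := by
    rw [← mul_sum]
    congr 1
    rw [hA, sum_image hinjk]
    simp_rw [prod_one_add, powerset_univ, prod_mul_distrib]
    rw [sum_comm]
    apply sum_congr rfl
    intro S _
    unfold ZZ
    rw [mul_sum]
    apply sum_congr rfl
    intro k _
    congr 1
    apply prod_congr rfl
    intro j _
    congr 1
    push_cast
    ring
  have h2 : |∑ n ∈ A, (2 : ℝ)⁻¹ ^ K * ∏ j, (1 + (ω j : ℝ) * qc ((n : ZMod P) + b j)) -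
      (2 : ℝ)⁻¹ ^ K * TT H q s| ≤ E := by
    rw [h1, ← mul_sub, ← add_sum_erase univ _ (mem_univ (∅ : Finset (Fin K)))]
    have hZ0 : (∏ j ∈ (∅ : Finset (Fin K)), (ω j : ℝ)) * ZZ b H (q, s, ∅) (x : ZMod P) =
        TT H q s := by
      unfold ZZ
      simp
    rw [hZ0, add_sub_cancel_left, abs_mul, abs_of_nonneg (by positivity)]
    have h3 : |∑ S ∈ (univ : Finset (Finset (Fin K))).erase ∅,
        (∏ j ∈ S, (ω j : ℝ)) * ZZ b H (q, s, S) (x : ZMod P)| ≤ 2 ^ K * E := by
      refine (abs_sum_le_sum_abs _ _).trans ?_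
      calc _ ≤ ∑ _S ∈ (univ : Finset (Finset (Fin K))).erase ∅, E := by
            apply sum_le_sum
            intro S hS
            rw [abs_mul, abs_prod]
            have h4 : ∏ j ∈ S, |(ω j : ℝ)| = 1 := by
              apply prod_eq_one
              intro j _
              rcases hω j with h | h <;> rw [h] <;> norm_num
            rw [h4, one_mul]
            exact hgood S (nonempty_iff_ne_empty.2 (ne_of_mem_erase hS))
        _ ≤ ∑ _S ∈ (univ : Finset (Finset (Fin K))), E :=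
            sum_le_sum_of_subset_of_nonneg (erase_subset _ _) (fun _ _ _ => hE0)
        _ = 2 ^ K * E := by
            rw [sum_const, card_univ, Fintype.card_finset, Fintype.card_fin, nsmul_eq_mul]
            push_cast
            ring
    calc (2 : ℝ)⁻¹ ^ K * _ ≤ (2 : ℝ)⁻¹ ^ K * (2 ^ K * E) :=
          mul_le_mul_of_nonneg_left h3 (by positivity)
      _ = E := by rw [inv_pow]; field_simp
  -- zeros
  have h5 : ∑ n ∈ A, (if ∃ j, (n : ZMod P) + b j = 0 then (1 : ℝ) else 0) ≤ K := by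
    calc _ ≤ ∑ n ∈ A, ∑ j : Fin K, (if (n : ZMod P) + b j = 0 then (1 : ℝ) else 0) := by
          apply sum_le_sum
          intro n _
          split_ifs with h
          · obtain ⟨j, hj⟩ := h
            calc (1 : ℝ) = if (n : ZMod P) + b j = 0 then (1 : ℝ) else 0 := by rw [if_pos hj]
              _ ≤ _ := single_le_sum (f := fun j => if (n : ZMod P) + b j = 0 then (1 : ℝ) else 0)
                  (fun j _ => by split_ifs <;> norm_num) (mem_univ j)
          · exact sum_nonneg fun j _ => by split_ifs <;> norm_num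
      _ = ∑ j : Fin K, ∑ n ∈ A, (if (n : ZMod P) + b j = 0 then (1 : ℝ) else 0) := sum_comm
      _ ≤ ∑ _j : Fin K, (1 : ℝ) := by
          apply sum_le_sum
          intro j _
          rw [← sum_filter, sum_const, nsmul_eq_mul, mul_one]
          have : (A.filter (fun n : ℕ => (n : ZMod P) + b j = 0)).card ≤ 1 := by
            rw [card_le_one]
            intro m hm n hn
            rw [mem_filter] at hm hn
            have e1 : (m : ZMod P) = n := by linear_combination hm.2 - hn.2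
            have m1 := hAsub m hm.1
            have n1 := hAsub n hn.1
            rw [ZMod.natCast_eq_natCast_iff', Nat.mod_eq_of_lt (by omega),
              Nat.mod_eq_of_lt (by omega)] at e1
            exact e1
          exact_mod_cast this
      _ = K := by simp
  have h6 : |∑ n ∈ A, (2 : ℝ)⁻¹ ^ K * ∏ j, (1 + (ω j : ℝ) * qc ((n : ZMod P) + b j)) -
      ((A.filter (Pat b ω)).card : ℝ)| ≤ K := by
    have h7 : ((A.filter (Pat b ω)).card : ℝ) = ∑ n ∈ A, (if Pat b ω n then (1 : ℝ) else 0) := by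
      rw [card_filter]
      push_cast
      rfl
    rw [h7, ← sum_sub_distrib]
    refine (abs_sum_le_sum_abs _ _).trans (le_trans ?_ h5)
    refine sum_le_sum fun n _ => ?_
    exact @pattern_weight P _ K b ω hω (n : ZMod P) (Classical.propDecidable _) _
  have h8 : ((A.filter (Pat b ω)).card : ℝ) - (2 : ℝ)⁻¹ ^ K * TT H q s =
      -(∑ n ∈ A, (2 : ℝ)⁻¹ ^ K * ∏ j, (1 + (ω j : ℝ) * qc ((n : ZMod P) + b j)) -
        ((A.filter (Pat b ω)).card : ℝ)) +
      (∑ n ∈ A, (2 : ℝ)⁻¹ ^ K * ∏ j, (1 + (ω j : ℝ) * qc ((n : ZMod P) + b j)) -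
        (2 : ℝ)⁻¹ ^ K * TT H q s) := by ring
  rw [h8]
  refine (abs_add_le _ _).trans ?_
  rw [abs_neg]
  linarith

end Pool.Agent.V1179.MH
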