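import Pool.Agent.V1179.MH.BG2
import Pool.Agent.V1179.MH.BG3
import Pool.Agent.V1179.MH.QR3

set_option autoImplicit false

/-! # Residue classes as products of integers in the middle of record prime gaps (helper79) -/

namespace Pool.Agent.V1179.MH

open Finset Filter
open Pool.Agent.W147.PS (ff ff_compare ev_pow)

/-- the class `ρ mod q` in `(Y, X]` -/
def cl (Y X q : ℕ) (ρ : ℤ) : Finset ℕ := (Ioc Y X).filter (fun n : ℕ => (q : ℤ) ∣ (n : ℤ) - ρ)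

lemma card_cl (Y X q : ℕ) (hYX : Y ≤ X) (hq : 1 ≤ q) (ρ : ℤ) :
    |((cl Y X q ρ).card : ℝ) - ((X - Y : ℕ) : ℝ) / q| ≤ 1 := by
  obtain ⟨s, hs, h⟩ := class_eq (Y + 1) (X - Y) q hq ρ
  have h1 : Ioc Y X = Ico (Y + 1) (Y + 1 + (X - Y)) := by
    ext n
    rw [mem_Ioc, mem_Ico]
    omega
  have h2 : (cl Y X q ρ).card = TT (X - Y) q s := by
    unfold cl
    rw [h1, h, card_image_of_injOn, card_range]
    intro k _ k' _ hk
    simp only at hk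
    have : q * k = q * k' := by omega
    exact Nat.eq_of_mul_eq_mul_left (by omega) this
  rw [h2]
  exact TT_bound (X - Y) q s hq hs

lemma card_cl_le (Y X q : ℕ) (ρ : ℤ) : (cl Y X q ρ).card ≤ X - Y := by
  unfold cl
  refine (card_filter_le _ _).trans ?_
  rw [Nat.card_Ioc]

lemma cs_cl {P : ℕ} [Fact P.Prime] (χ : DirichletCharacter ℂ P) (Y X q : ℕ) (hYX : Y ≤ X) (ρ : ℤ) :
    ‖cs χ (cl Y X q ρ)‖ ≤ ‖shortQ P χ q ρ X‖ + Y := by
  classical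
  have h0 : ∀ Z : ℕ, Icc 1 Z = Ioc 0 Z := by
    intro Z
    ext n
    rw [mem_Icc, mem_Ioc]
    omega
  have h1 : cs χ (cl Y X q ρ) = shortQ P χ q ρ X - shortQ P χ q ρ Y := by
    unfold cs cl shortQ
    rw [sum_filter, h0 X, h0 Y, ← sum_Ioc_consecutive _ (Nat.zero_le Y) hYX]
    rw [add_sub_cancel_left]
  have h2 : ‖shortQ P χ q ρ Y‖ ≤ Y := by
    unfold shortQ
    refine (norm_sum_le _ _).trans ?_
    calc _ ≤ ∑ _m ∈ Icc 1 Y, (1 : ℝ) := by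
          apply sum_le_sum
          intro n _
          split_ifs
          · exact χ.norm_le_one _
          · simp
      _ = Y := by simp
  rw [h1]
  exact (norm_sub_le _ _).trans (by linarith)

/-- the criterion for vectors of integers, with the expected number of points as a parameter -/
theorem crit_int (k : ℕ) (hk : 1 ≤ k) (θ : ℝ) (h0 : 0 < θ) (h1 : θ ≤ 1) :
    ∃ κ : ℝ, 0 < κ ∧ ∃ P₀ : ℕ, ∀ P : ℕ, P₀ ≤ P → P.Prime →
    ∀ (ι : Type) (t : Finset ι) (w : ι → Fin k → ℤ) (W Δ : ℝ), 0 < W → 0 ≤ Δ →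
    4 * Δ ≤ (P : ℝ) ^ (-θ) →
    (∀ q : ℕ, 1 ≤ q → (q : ℝ) ≤ (P : ℝ) ^ θ → ∀ ρ : Fin k → ℤ,
      |((t.filter (fun i => ∀ j, (q : ℤ) ∣ w i j - ρ j)).card : ℝ) - W / (q : ℝ) ^ k| ≤ W * Δ) →
    (∀ i ∈ t, ∀ j, (P : ℝ) ^ θ ≤ w i j) →
    ∃ i ∈ t, ∀ j, ∀ q : ℕ, q.Prime → κ * ff P < |(q : ℝ) - w i j| := by
  obtain ⟨κ, hκ, P₁, hc⟩ := crit_gen k 0 (by omega) θ h0 h1
  refine ⟨κ, hκ, P₁, ?_⟩
  intro P hP hPp ι t w W Δ hW0 hΔ0 hΔθ hcount hw
  have : NeZero P := ⟨hPp.ne_zero⟩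
  have hP1 : (1 : ℝ) ≤ P := by exact_mod_cast hPp.one_le
  have hs1 : |(t.card : ℝ) - W| ≤ W * Δ := by
    have h5 := hcount 1 le_rfl (by push_cast; exact Real.one_le_rpow hP1 h0.le) (fun _ => 0)
    have h7 : t.filter (fun x => ∀ j, ((1 : ℕ) : ℤ) ∣ w x j - (fun _ => 0 : Fin k → ℤ) j) = t := by
      apply filter_true_of_mem
      intro x _ j
      simp
    rw [h7] at h5
    simpa using h5
  have hΔ1 : 4 * Δ ≤ 1 := hΔθ.trans (Real.rpow_le_one_of_one_le_of_nonpos hP1 (by linarith))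
  have hWΔ : W * Δ ≤ W * (1 / 4) := mul_le_mul_of_nonneg_left (by linarith) hW0.le
  have hsW : W ≤ 2 * t.card := by
    have h5 := (abs_le.1 hs1).1
    linarith
  have htpos : 0 < t.card := by
    have : (0 : ℝ) < t.card := by linarith
    exact_mod_cast this
  obtain ⟨x, hx, hx1, -⟩ := hc P hP hPp ι t w (fun _ j => j.elim0) 0 le_rfl (by
      intro q hq hqP ρ
      constructor
      · have hqR : (0 : ℝ) < q := by exact_mod_cast hq
        have hq1 : (1 : ℝ) ≤ q := by exact_mod_cast hq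
        have h3 := hcount q hq hqP ρ
        have h4 : |W / (q : ℝ) ^ k - t.card / (q : ℝ) ^ k| ≤ W * Δ := by
          rw [← sub_div, abs_div, abs_of_pos (show (0 : ℝ) < (q : ℝ) ^ k by positivity)]
          refine (div_le_self (abs_nonneg _) (one_le_pow₀ hq1)).trans ?_
          rw [abs_sub_comm]
          exact hs1
        refine (abs_sub_le _ (W / (q : ℝ) ^ k) _).trans ?_
        have hsc : (0 : ℝ) ≤ t.card := Nat.cast_nonneg _
        have h5 : W * Δ + W * Δ ≤ t.card * (P : ℝ) ^ (-θ) := by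
          calc W * Δ + W * Δ = 2 * Δ * W := by ring
            _ ≤ 2 * Δ * (2 * t.card) := mul_le_mul_of_nonneg_left hsW (by positivity)
            _ = t.card * (4 * Δ) := by ring
            _ ≤ _ := mul_le_mul_of_nonneg_left hΔθ hsc
        linarith
      · intro h hh
        exact absurd (Subsingleton.elim h 0) hh)
    hw (fun j => j.elim0) (fun j => j.elim0) (fun j => j.elim0) (fun j => j.elim0)
    (fun j => j.elim0) htpos (by
      rw [zero_mul]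
      positivity)
  exact ⟨x, hx, hx1⟩

open Classical in
theorem products (ε : ℝ) (h0 : 0 < ε) :
    ∃ k₀ : ℕ, ∀ k : ℕ, k₀ ≤ k → ∃ κ : ℝ, 0 < κ ∧ ∃ P₀ : ℕ, ∀ P : ℕ, P₀ ≤ P → P.Prime →
    ∀ a : ℤ, ¬ (P : ℤ) ∣ a → ∃ x : Fin k → ℕ, (∀ j, (x j : ℝ) ≤ (P : ℝ) ^ (1 / 4 + ε)) ∧
      (P : ℤ) ∣ ∏ j, (x j : ℤ) - a ∧ ∀ j, ∀ q : ℕ, q.Prime → κ * ff P < |(q : ℝ) - x j| := by
  set ε₁ : ℝ := min ε (1 / 4) with hε₁
  have hε0 : 0 < ε₁ := lt_min h0 (by norm_num)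
  have hε1 : ε₁ ≤ 1 / 4 := min_le_right _ _
  have hε2 : ε₁ ≤ ε := min_le_left _ _
  obtain ⟨d, hd0, hdη, P₁, hbur⟩ := burgess_ap (ε₁ / 2) (by linarith) (by linarith)
  set θ : ℝ := d / 8 with hθ
  have hθ0 : 0 < θ := by positivity
  have hθ1 : θ ≤ 1 / 64 := by rw [hθ]; linarith
  refine ⟨2 + ⌈2 / d⌉₊, ?_⟩
  intro k hk
  obtain ⟨m, rfl⟩ : ∃ m, k = m + 2 := ⟨k - 2, by omega⟩
  have hm : 1 ≤ (m : ℝ) * (d / 2) := by
    have h1 : ⌈2 / d⌉₊ ≤ m := by omega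
    have h2 : 2 / d ≤ m := Nat.ceil_le.1 h1
    rw [div_le_iff₀ hd0] at h2
    linarith
  obtain ⟨κ, hκ, P₂, hc⟩ := crit_int (m + 2) (by omega) θ hθ0 (by linarith)
  set C : ℝ := ((m + 2 : ℕ) : ℝ) + 2 ^ (m + 1) with hC
  have hC1 : 1 ≤ C := by
    rw [hC]
    push_cast
    have : (0 : ℝ) < 2 ^ (m + 1) := by positivity
    have : (0 : ℝ) ≤ m := Nat.cast_nonneg _
    linarith
  have hev : ∀ᶠ P : ℝ in atTop, 2 ≤ P ∧ 2 ≤ P ^ (ε₁ / 2) ∧ 2 ≤ P ^ (3 * d / 8) ∧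
      8 * C * P ^ θ ≤ P ^ (1 / 8 : ℝ) ∧ 4 ≤ P ^ (1 / 8 : ℝ) := by
    filter_upwards [eventually_ge_atTop (2 : ℝ),
      (tendsto_rpow_atTop (show (0 : ℝ) < ε₁ / 2 by linarith)).eventually_ge_atTop 2,
      (tendsto_rpow_atTop (show (0 : ℝ) < 3 * d / 8 by positivity)).eventually_ge_atTop 2,
      ev_pow θ (1 / 8) (8 * C) (by linarith),
      (tendsto_rpow_atTop (show (0 : ℝ) < 1 / 8 by norm_num)).eventually_ge_atTop 4]
      with P a1 a2 a3 a4 a5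
    exact ⟨a1, a2, a3, a4, a5⟩
  obtain ⟨Z, hZ⟩ := eventually_atTop.1 hev
  refine ⟨κ, hκ, max P₁ (max P₂ ⌈Z⌉₊), ?_⟩
  intro P hP hPp a ha
  have : Fact P.Prime := ⟨hPp⟩
  have : NeZero P := ⟨hPp.ne_zero⟩
  obtain ⟨n1, n2, n3, n4, n5⟩ := hZ P (Nat.ceil_le.1
    (((le_max_right _ _).trans (le_max_right _ _)).trans hP))
  have hP1 : (1 : ℝ) ≤ P := by linarith
  have hP0 : (0 : ℝ) < P := by linarith
  have hmono : ∀ x y : ℝ, x ≤ y → (P : ℝ) ^ x ≤ (P : ℝ) ^ y := fun x y h =>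
    Real.rpow_le_rpow_of_exponent_le hP1 h
  have hsq : Real.sqrt P * Real.sqrt P = P := Real.mul_self_sqrt hP0.le
  have hsqlt : Real.sqrt P < P := by
    have : 1 < Real.sqrt P := by
      rw [show (1 : ℝ) = Real.sqrt 1 by simp]
      exact Real.sqrt_lt_sqrt (by norm_num) (by linarith)
    nlinarith
  -- the parameters
  set X : ℕ := ⌊(P : ℝ) ^ (1 / 4 + ε₁)⌋₊ with hX
  have hX1 : (X : ℝ) ≤ (P : ℝ) ^ (1 / 4 + ε₁) := Nat.floor_le (by positivity)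
  have hX2 : (P : ℝ) ^ (1 / 4 + ε₁) - 1 < X := Nat.sub_one_lt_floor _
  have hX3 : (P : ℝ) ^ (1 / 4 + ε₁ / 2) ≤ X := by
    have e1 : (P : ℝ) ^ (1 / 4 + ε₁) = (P : ℝ) ^ (1 / 4 + ε₁ / 2) * (P : ℝ) ^ (ε₁ / 2) := by
      rw [← Real.rpow_add hP0]; congr 1; ring
    have e2 : 1 ≤ (P : ℝ) ^ (1 / 4 + ε₁ / 2) := Real.one_le_rpow hP1 (by linarith)
    rw [e1] at hX2
    nlinarith
  have hX4 : (X : ℝ) ≤ Real.sqrt P := by
    rw [Real.sqrt_eq_rpow]
    exact hX1.trans (hmono _ _ (by linarith))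
  have hXP : X < P := by
    have : (X : ℝ) < P := lt_of_le_of_lt hX4 hsqlt
    exact_mod_cast this
  set Y : ℕ := ⌈(P : ℝ) ^ θ⌉₊ with hY
  have hPθ1 : 1 ≤ (P : ℝ) ^ θ := Real.one_le_rpow hP1 hθ0.le
  have hY1 : (P : ℝ) ^ θ ≤ Y := Nat.le_ceil _
  have hY2 : (Y : ℝ) ≤ 2 * (P : ℝ) ^ θ := by
    have := (Nat.ceil_lt_add_one (by linarith : (0 : ℝ) ≤ (P : ℝ) ^ θ)).le
    linarith
  have hP14 : (P : ℝ) ^ (1 / 4 : ℝ) = (P : ℝ) ^ (1 / 8 : ℝ) * (P : ℝ) ^ (1 / 8 : ℝ) := by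
    rw [← Real.rpow_add hP0]; norm_num
  have hX5 : (P : ℝ) ^ (1 / 4 : ℝ) ≤ X := (hmono _ _ (by linarith)).trans hX3
  have hYX2 : 2 * (Y : ℝ) ≤ X := by
    have h3 : (P : ℝ) ^ θ ≤ (P : ℝ) ^ (1 / 8 : ℝ) := hmono _ _ (by linarith)
    have h4 : 4 * (P : ℝ) ^ (1 / 8 : ℝ) ≤ (P : ℝ) ^ (1 / 4 : ℝ) := by
      rw [hP14]; nlinarith
    linarith
  have hYX : Y ≤ X := by
    have : (Y : ℝ) ≤ X := by linarith [(Nat.cast_nonneg Y : (0 : ℝ) ≤ Y)]
    exact_mod_cast this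
  set H : ℝ := ((X - Y : ℕ) : ℝ) with hH
  have hHe : H = X - Y := by rw [hH, Nat.cast_sub hYX]
  have hXH : (X : ℝ) ≤ 2 * H := by rw [hHe]; linarith
  have hHX : H ≤ X := by rw [hHe]; linarith [(Nat.cast_nonneg Y : (0 : ℝ) ≤ Y)]
  have hX0 : (0 : ℝ) < X := lt_of_lt_of_le (Real.rpow_pos_of_pos hP0 _) hX5
  have hH0 : 0 < H := by linarith
  have hP10 : (0 : ℝ) < (P : ℝ) - 1 := by linarith
  set V : ℝ := (P : ℝ) ^ (-(d / 2)) * X with hV
  have hV0 : 0 ≤ V := by positivity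
  have haz : ((a : ZMod P)) ≠ 0 := by
    intro h
    exact ha ((ZMod.intCast_zmod_eq_zero_iff_dvd a P).1 h)
  set W : ℝ := H ^ (m + 2) / ((P : ℝ) - 1) with hW
  have hW0 : 0 < W := by positivity
  set Δ : ℝ := C / H with hΔ
  have hΔ0 : 0 ≤ Δ := by positivity
  have hcount : ∀ q : ℕ, 1 ≤ q → (q : ℝ) ≤ (P : ℝ) ^ θ → ∀ ρ : Fin (m + 2) → ℤ,
      |((((Fintype.piFinset (fun j => cl Y X q (ρ j))).filter
        (fun x => ∏ j, ((x j : ℕ) : ZMod P) = (a : ZMod P))).card : ℝ)) - W / (q : ℝ) ^ (m + 2)| ≤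
        W * Δ := by
    intro q hq hqP ρ
    have hq1 : (1 : ℝ) ≤ q := by exact_mod_cast hq
    have hqlt : q < P := by
      have h3 : (q : ℝ) < P := by
        refine lt_of_le_of_lt (hqP.trans (hmono θ (1 / 2) (by linarith))) ?_
        rw [← Real.sqrt_eq_rpow]
        exact hsqlt
      exact_mod_cast h3
    have hcop : Nat.Coprime q P := (Nat.coprime_of_lt_prime (by omega) hqlt hPp).symm
    have h1 := count_prod m (fun j => cl Y X q (ρ j)) (by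
      intro j n hn
      unfold cl at hn
      rw [mem_filter, mem_Ioc] at hn
      omega) (a : ZMod P) haz V X hV0 (by
      intro j
      have h3 : (((cl Y X q (ρ j)).card : ℕ) : ℝ) ≤ ((X - Y : ℕ) : ℝ) := by
        exact_mod_cast card_cl_le Y X q (ρ j)
      linarith) (by
      intro χ hχ j
      refine (cs_cl χ Y X q hYX (ρ j)).trans ?_
      have h3 := hbur P ((le_max_left _ _).trans hP) χ hχ X q (ρ j) hq hcop hX3 hX4
      have h4 : (P : ℝ) ^ (-d) * X * q ≤ (P : ℝ) ^ (-(7 * d / 8)) * X := by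
        calc (P : ℝ) ^ (-d) * X * q ≤ (P : ℝ) ^ (-d) * X * (P : ℝ) ^ θ :=
              mul_le_mul_of_nonneg_left hqP (by positivity)
          _ = ((P : ℝ) ^ (-d) * (P : ℝ) ^ θ) * X := by ring
          _ = (P : ℝ) ^ (-(7 * d / 8)) * X := by
              rw [← Real.rpow_add hP0]
              congr 2
              rw [hθ]; ring
      have h5 : (Y : ℝ) ≤ (P : ℝ) ^ (-(7 * d / 8)) * X := by
        have e1 : (P : ℝ) ^ (1 / 8 : ℝ) ≤ (P : ℝ) ^ (-(7 * d / 8)) * (P : ℝ) ^ (1 / 4 : ℝ) := by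
          rw [← Real.rpow_add hP0]
          exact hmono _ _ (by linarith)
        have e2 : (P : ℝ) ^ (-(7 * d / 8)) * (P : ℝ) ^ (1 / 4 : ℝ) ≤
            (P : ℝ) ^ (-(7 * d / 8)) * X := mul_le_mul_of_nonneg_left hX5 (by positivity)
        have e3 : 2 * (P : ℝ) ^ θ ≤ 8 * C * (P : ℝ) ^ θ := by nlinarith
        linarith
      have h6 : V = (P : ℝ) ^ (3 * d / 8) * ((P : ℝ) ^ (-(7 * d / 8)) * X) := by
        rw [hV, ← mul_assoc, ← Real.rpow_add hP0]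
        congr 2
        ring
      rw [h6]
      have h7 : 0 ≤ (P : ℝ) ^ (-(7 * d / 8)) * X := by positivity
      nlinarith)
    have h2 := prod_diff (m + 2) (fun j => ((cl Y X q (ρ j)).card : ℝ)) (fun _ => H / q)
      (fun _ => H) (1 / H) (by positivity)
      (fun j => ⟨Nat.cast_nonneg _, by
        rw [hH]
        exact_mod_cast card_cl_le Y X q (ρ j)⟩)
      (fun j => ⟨by positivity, div_le_self hH0.le hq1⟩)
      (fun j => by
        rw [one_div, inv_mul_cancel₀ hH0.ne']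
        exact card_cl Y X q hYX hq (ρ j))
    simp only [prod_const, card_univ, Fintype.card_fin] at h2
    have h3 : |(∏ j, ((cl Y X q (ρ j)).card : ℝ)) / ((P : ℝ) - 1) - W / (q : ℝ) ^ (m + 2)| ≤
        ((m + 2 : ℕ) : ℝ) * (1 / H) * H ^ (m + 2) / ((P : ℝ) - 1) := by
      have e1 : (∏ j, ((cl Y X q (ρ j)).card : ℝ)) / ((P : ℝ) - 1) - W / (q : ℝ) ^ (m + 2) =
          ((∏ j, ((cl Y X q (ρ j)).card : ℝ)) - (H / q) ^ (m + 2)) / ((P : ℝ) - 1) := by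
        rw [hW, div_pow]
        field_simp
      rw [e1, abs_div, abs_of_pos hP10]
      exact div_le_div_of_nonneg_right h2 hP10.le
    have h4 : V ^ m * X ≤ 2 ^ (m + 1) * H ^ (m + 1) / ((P : ℝ) - 1) := by
      have e1 : V ^ m = (P : ℝ) ^ (-((m : ℝ) * (d / 2))) * (X : ℝ) ^ m := by
        rw [hV, mul_pow, ← Real.rpow_natCast ((P : ℝ) ^ (-(d / 2))), ← Real.rpow_mul hP0.le]
        congr 2
        ring
      have e2 : (P : ℝ) ^ (-((m : ℝ) * (d / 2))) ≤ (P : ℝ)⁻¹ := by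
        rw [← Real.rpow_neg_one]
        exact hmono _ _ (by linarith)
      have e3 : (P : ℝ)⁻¹ ≤ ((P : ℝ) - 1)⁻¹ := inv_anti₀ hP10 (by linarith)
      rw [e1, mul_assoc, ← pow_succ, le_div_iff₀ hP10]
      calc (P : ℝ) ^ (-((m : ℝ) * (d / 2))) * (X : ℝ) ^ (m + 1) * ((P : ℝ) - 1) ≤
            ((P : ℝ) - 1)⁻¹ * (X : ℝ) ^ (m + 1) * ((P : ℝ) - 1) := by
            gcongr
            exact e2.trans e3
        _ = (X : ℝ) ^ (m + 1) := by field_simp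
        _ ≤ (2 * H) ^ (m + 1) := pow_le_pow_left₀ hX0.le hXH _
        _ = _ := by rw [mul_pow]
    have h5 : W * Δ = ((m + 2 : ℕ) : ℝ) * (1 / H) * H ^ (m + 2) / ((P : ℝ) - 1) +
        2 ^ (m + 1) * H ^ (m + 1) / ((P : ℝ) - 1) := by
      rw [hW, hΔ, hC]
      field_simp
      ring
    rw [h5]
    refine (abs_sub_le _ ((∏ j, ((cl Y X q (ρ j)).card : ℝ)) / ((P : ℝ) - 1)) _).trans ?_
    linarith
  set t : Finset (Fin (m + 2) → ℕ) := (Fintype.piFinset (fun _ => Ioc Y X)).filter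
    (fun x => ∏ j, ((x j : ℕ) : ZMod P) = (a : ZMod P)) with ht
  have htq : ∀ (q : ℕ) (ρ : Fin (m + 2) → ℤ),
      t.filter (fun x => ∀ j, (q : ℤ) ∣ ((x j : ℕ) : ℤ) - ρ j) =
      (Fintype.piFinset (fun j => cl Y X q (ρ j))).filter
        (fun x => ∏ j, ((x j : ℕ) : ZMod P) = (a : ZMod P)) := by
    intro q ρ
    ext x
    simp only [ht, mem_filter, Fintype.mem_piFinset, cl]
    constructor
    · rintro ⟨⟨f1, f2⟩, f3⟩
      exact ⟨fun j => ⟨f1 j, f3 j⟩, f2⟩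
    · rintro ⟨f1, f2⟩
      exact ⟨⟨fun j => (f1 j).1, f2⟩, fun j => (f1 j).2⟩
  have hΔθ : 4 * Δ ≤ (P : ℝ) ^ (-θ) := by
    rw [hΔ, Real.rpow_neg hP0.le, ← mul_div_assoc, ← one_div, div_le_div_iff₀ hH0 (by positivity)]
    have e1 : (P : ℝ) ^ (1 / 8 : ℝ) ≤ (P : ℝ) ^ (1 / 4 : ℝ) := hmono _ _ (by norm_num)
    linarith
  obtain ⟨x, hx, hx1⟩ := hc P (((le_max_left _ _).trans (le_max_right _ _)).trans hP) hPp
    (Fin (m + 2) → ℕ) t (fun x j => (x j : ℤ)) W Δ hW0 hΔ0 hΔθ (by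
      intro q hq hqP ρ
      rw [htq q ρ]
      exact hcount q hq hqP ρ)
    (by
      intro x hx j
      rw [ht, mem_filter, Fintype.mem_piFinset] at hx
      have h3 := hx.1 j
      rw [mem_Ioc] at h3
      have h4 : (Y : ℝ) ≤ (x j : ℝ) := by exact_mod_cast h3.1.le
      push_cast
      linarith)
  rw [ht, mem_filter, Fintype.mem_piFinset] at hx
  refine ⟨x, ?_, ?_, ?_⟩
  · intro j
    have h3 := hx.1 j
    rw [mem_Ioc] at h3
    have h4 : (x j : ℝ) ≤ X := by exact_mod_cast h3.2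
    exact (h4.trans hX1).trans (hmono _ _ (by linarith))
  · rw [← ZMod.intCast_zmod_eq_zero_iff_dvd]
    push_cast
    rw [hx.2, sub_self]
  · intro j q hq
    have := hx1 j q hq
    simpa using this

end Pool.Agent.V1179.MH
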