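import Pool.Agent.H442R2.KF.Inc

set_option autoImplicit false

/-! # Counting points modulo `P` whose coordinates lie in progressions (helper79) -/

namespace Pool.Agent.V1179.MH

open Finset

/-- the progression `ρ mod q` in the interval `[a, a + L)` as residues mod `P` -/
noncomputable def AP (P a L q : ℕ) (ρ : ℤ) : Finset (ZMod P) :=
  ((Ico (a : ℤ) (a + L)).filter (fun m => m ≡ ρ [ZMOD q])).image (fun m : ℤ => (m : ZMod P))

lemma val_cast {P : ℕ} [NeZero P] {m : ℤ} (h0 : 0 ≤ m) (h1 : m < P) :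
    (((m : ZMod P)).val : ℤ) = m := by
  rw [ZMod.val_intCast, Int.emod_eq_of_lt h0 h1]

lemma injOn_AP {P a L : ℕ} [NeZero P] (haL : a + L ≤ P) :
    Set.InjOn (fun m : ℤ => (m : ZMod P)) (Ico (a : ℤ) (a + L)) := by
  intro x hx y hy hxy
  rw [coe_Ico, Set.mem_Ico] at hx hy
  have h := congrArg (fun z : ZMod P => (z.val : ℤ)) hxy
  simp only at h
  rw [val_cast (by omega) (by omega), val_cast (by omega) (by omega)] at h
  exact h

lemma mem_AP {P a L q : ℕ} [NeZero P] (haL : a + L ≤ P) (ρ : ℤ) (x : ZMod P) :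
    x ∈ AP P a L q ρ ↔ (a ≤ x.val ∧ x.val < a + L) ∧ (q : ℤ) ∣ (x.val : ℤ) - ρ := by
  unfold AP
  rw [mem_image]
  constructor
  · rintro ⟨m, hm, rfl⟩
    rw [mem_filter, mem_Ico] at hm
    have hv := val_cast (P := P) (m := m) (by omega) (by omega)
    refine ⟨⟨by omega, by omega⟩, ?_⟩
    rw [hv]
    exact (Int.modEq_iff_dvd.1 hm.2.symm)
  · rintro ⟨⟨h1, h2⟩, h3⟩
    refine ⟨(x.val : ℤ), ?_, ?_⟩
    · rw [mem_filter, mem_Ico]
      exact ⟨⟨by exact_mod_cast h1, by exact_mod_cast h2⟩, (Int.modEq_iff_dvd.2 h3).symm⟩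
    · simp

lemma card_AP {P a L q : ℕ} [NeZero P] (haL : a + L ≤ P) (hq : 1 ≤ q) (ρ : ℤ) :
    |((AP P a L q ρ).card : ℝ) - L / q| ≤ 1 := by
  have hq0 : (0 : ℤ) < q := by exact_mod_cast hq
  have hqR : (0 : ℝ) < q := by exact_mod_cast hq
  have h1 : (AP P a L q ρ).card =
      ((Ico (a : ℤ) (a + L)).filter (fun m => m ≡ ρ [ZMOD q])).card := by
    unfold AP
    apply card_image_of_injOn
    intro x hx y hy hxy
    rw [mem_coe, mem_filter] at hx hy
    exact injOn_AP haL (mem_coe.2 hx.1) (mem_coe.2 hy.1) hxy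
  have h2 := Int.Ico_filter_modEq_card (a := (a : ℤ)) (b := (a : ℤ) + L) (r := (q : ℤ)) hq0 ρ
  rw [h1]
  set N := ((Ico (a : ℤ) (a + L)).filter (fun m => m ≡ ρ [ZMOD q])).card
  have c1 := Int.le_ceil ((((a : ℤ) + L : ℤ) : ℚ) - ρ) 
  have hle : (((a : ℤ) : ℚ) - ρ) / ((q : ℤ) : ℚ) ≤ ((((a : ℤ) + L : ℤ) : ℚ) - ρ) / ((q : ℤ) : ℚ) := by
    apply div_le_div_of_nonneg_right _ (by exact_mod_cast hq0.le)
    push_cast
    have : (0 : ℚ) ≤ L := Nat.cast_nonneg _
    linarith
  have hmono := Int.ceil_le_ceil hle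
  push_cast at h2 hmono ⊢
  rw [max_eq_left (by linarith)] at h2
  have h3 : (N : ℝ) = ((⌈((a : ℚ) + L - ρ) / q⌉ - ⌈((a : ℚ) - ρ) / q⌉ : ℤ) : ℝ) := by
    exact_mod_cast h2
  have e1 := Int.le_ceil (((a : ℚ) + L - ρ) / q)
  have e2 := Int.ceil_lt_add_one (((a : ℚ) + L - ρ) / q)
  have e3 := Int.le_ceil (((a : ℚ) - ρ) / q)
  have e4 := Int.ceil_lt_add_one (((a : ℚ) - ρ) / q)
  have f1 : (((a : ℝ) + L - ρ) / q) ≤ (⌈((a : ℚ) + L - ρ) / q⌉ : ℝ) := by exact_mod_cast e1
  have f2 : (⌈((a : ℚ) + L - ρ) / q⌉ : ℝ) < ((a : ℝ) + L - ρ) / q + 1 := by exact_mod_cast e2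
  have f3 : (((a : ℝ) - ρ) / q) ≤ (⌈((a : ℚ) - ρ) / q⌉ : ℝ) := by exact_mod_cast e3
  have f4 : (⌈((a : ℚ) - ρ) / q⌉ : ℝ) < ((a : ℝ) - ρ) / q + 1 := by exact_mod_cast e4
  have f5 : ((a : ℝ) + L - ρ) / q = ((a : ℝ) - ρ) / q + L / q := by ring
  rw [h3]
  push_cast
  rw [abs_le]
  constructor <;> linarith

lemma card_AP_le {P a L q : ℕ} [NeZero P] (ρ : ℤ) :
    (AP P a L q ρ).card ≤ L := by
  unfold AP
  refine card_image_le.trans ((card_filter_le _ _).trans ?_)
  simp

/-- the `L¹` norm of the Fourier transform of a progression -/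
lemma fourier_AP {P a L q : ℕ} [NeZero P] (haL : a + L ≤ P) (hq : 1 ≤ q) (hqP : Nat.Coprime P q)
    (ρ : ℤ) :
    ∑ w : ZMod P, ‖∑ y ∈ AP P a L q ρ, ZMod.stdAddChar (-(w * y))‖ ≤
      P * (2 + Real.log P) := by
  classical
  rcases Nat.eq_zero_or_pos L with hL | hL
  · subst hL
    have : AP P a 0 q ρ = ∅ := by
      unfold AP
      simp
    simp only [this, sum_empty, norm_zero, sum_const_zero]
    have : 0 ≤ Real.log P := Real.log_natCast_nonneg P
    positivity
  obtain ⟨m₀, H, -, hS⟩ := Pool.Agent.H442R2.KF.Inc.prog q hq ρ a (a + L - 1) (by omega)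
  have hIcc : Icc (a : ℤ) (a + L - 1) = Ico (a : ℤ) (a + L) := by
    ext x
    rw [mem_Icc, mem_Ico]
    omega
  rw [hIcc] at hS
  have hq0 : (q : ℤ) ≠ 0 := by exact_mod_cast (show q ≠ 0 by omega)
  have hinj : Set.InjOn (fun k : ℕ => m₀ + (q : ℤ) * k) (range H) := by
    intro x _ y _ hxy
    have : (q : ℤ) * x = q * y := by
      have := hxy
      simp only at this
      linarith
    exact_mod_cast mul_left_cancel₀ hq0 this
  have hsum : ∀ F : ZMod P → ℂ, ∑ y ∈ AP P a L q ρ, F y =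
      ∑ k ∈ range H, F ((m₀ + (q : ℤ) * k : ℤ) : ZMod P) := by
    intro F
    unfold AP
    rw [sum_image, hS, sum_image]
    · exact hinj
    · intro x hx y hy hxy
      rw [mem_coe, mem_filter] at hx hy
      exact injOn_AP haL (mem_coe.2 hx.1) (mem_coe.2 hy.1) hxy
  have hHP : H ≤ L := by
    have h1 : H = ((range H).image (fun k : ℕ => m₀ + (q : ℤ) * k)).card := by
      rw [card_image_of_injOn hinj, card_range]
    rw [h1, ← hS]
    refine (card_filter_le _ _).trans ?_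
    simp
  have hqu : IsUnit (q : ZMod P) := (ZMod.isUnit_iff_coprime q P).2 hqP.symm
  have hterm : ∀ w : ZMod P, ‖∑ y ∈ AP P a L q ρ, ZMod.stdAddChar (-(w * y))‖ =
      ‖∑ k ∈ range H, ZMod.stdAddChar ((-(w * (q : ZMod P))) * (k : ZMod P))‖ := by
    intro w
    rw [hsum]
    have h1 : ∀ k ∈ range H, ZMod.stdAddChar (-(w * ((m₀ + (q : ℤ) * k : ℤ) : ZMod P))) =
        ZMod.stdAddChar (-(w * (m₀ : ZMod P))) *
          ZMod.stdAddChar ((-(w * (q : ZMod P))) * (k : ZMod P)) := by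
      intro k _
      rw [← AddChar.map_add_eq_mul]
      congr 1
      push_cast
      ring
    rw [sum_congr rfl h1, ← mul_sum, norm_mul, AddChar.norm_apply, one_mul]
  simp_rw [hterm]
  have hbij : Function.Bijective (fun w : ZMod P => -(w * (q : ZMod P))) := by
    apply Finite.injective_iff_bijective.1
    intro x y hxy
    exact hqu.mul_right_cancel (neg_injective hxy)
  rw [Fintype.sum_bijective (fun w : ZMod P => -(w * (q : ZMod P))) hbij
    (fun w => ‖∑ k ∈ range H, ZMod.stdAddChar ((-(w * (q : ZMod P))) * (k : ZMod P))‖)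
    (fun w => ‖∑ k ∈ range H, ZMod.stdAddChar (w * (k : ZMod P))‖) (fun w => rfl)]
  refine (Pool.Agent.H442R2.KF.Inc.sumgeom P H).trans ?_
  have : (H : ℝ) ≤ P := by
    exact_mod_cast hHP.trans (by omega)
  nlinarith

/-- Fourier inversion for the characteristic function of a set -/
lemma ind_eq {P : ℕ} [NeZero P] (A : Finset (ZMod P)) (x : ZMod P) :
    (if x ∈ A then (1 : ℂ) else 0) = (P : ℂ)⁻¹ *
      ∑ w : ZMod P, ZMod.stdAddChar (w * x) * ∑ y ∈ A, ZMod.stdAddChar (-(w * y)) := by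
  classical
  set φ : ZMod P → ℂ := fun u => if u ∈ A then (1 : ℂ) else 0 with hφ
  have h1 := congrFun ((ZMod.dft (N := P) (E := ℂ)).symm_apply_apply φ) x
  rw [ZMod.invDFT_apply] at h1
  rw [show (if x ∈ A then (1 : ℂ) else 0) = φ x from rfl, ← h1]
  simp only [smul_eq_mul, ZMod.dft_apply]
  congr 1
  apply sum_congr rfl
  intro w _
  congr 1
  rw [hφ]
  simp only [mul_ite, mul_one, mul_zero]
  rw [← sum_filter]
  have : univ.filter (fun u => u ∈ A) = A := by ext; simp
  rw [this]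
  apply sum_congr rfl
  intro y _
  rw [mul_comm]

lemma map_char_sum {P r : ℕ} [NeZero P] (w v : Fin r → ZMod P) :
    (ZMod.stdAddChar (∑ j, w j * v j) : ℂ) = ∏ j, ZMod.stdAddChar (w j * v j) := by
  induction r with
  | zero => simp
  | succ r ih =>
    rw [Fin.sum_univ_succ, Fin.prod_univ_succ, AddChar.map_add_eq_mul,
      ih (fun j => w j.succ) (fun j => v j.succ)]

/-- counting in boxes of sets -/
theorem count_box {P r : ℕ} [NeZero P] {ι : Type} (t : Finset ι) (u : ι → Fin r → ZMod P) (B D : ℝ)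
    (hB : 0 ≤ B) (hu : ∀ h : Fin r → ZMod P, h ≠ 0 →
      ‖∑ i ∈ t, ZMod.stdAddChar (∑ j, h j * u i j)‖ ≤ B)
    (A : Fin r → Finset (ZMod P))
    (hA : ∀ j, ∑ w : ZMod P, ‖∑ y ∈ A j, ZMod.stdAddChar (-(w * y))‖ ≤ P * D) :
    |((t.filter (fun i => ∀ j, u i j ∈ A j)).card : ℝ) -
      t.card * (∏ j, ((A j).card : ℝ)) / (P : ℝ) ^ r| ≤ B * D ^ r := by
  classical
  have hP0 : (0 : ℝ) < P := by exact_mod_cast Nat.pos_of_ne_zero (NeZero.ne P)
  have hPc : (P : ℂ) ≠ 0 := by exact_mod_cast NeZero.ne P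
  have h1 : ((t.filter (fun i => ∀ j, u i j ∈ A j)).card : ℂ) =
      ((P : ℂ)⁻¹) ^ r * ∑ w : Fin r → ZMod P,
        (∏ j, ∑ y ∈ A j, ZMod.stdAddChar (-(w j * y))) *
          ∑ i ∈ t, ZMod.stdAddChar (∑ j, w j * u i j) := by
    rw [card_filter]
    push_cast
    have h2 : ∀ i ∈ t, (if ∀ j, u i j ∈ A j then (1 : ℂ) else 0) =
        ((P : ℂ)⁻¹) ^ r * ∑ w : Fin r → ZMod P,
        (∏ j, ∑ y ∈ A j, ZMod.stdAddChar (-(w j * y))) *
          ZMod.stdAddChar (∑ j, w j * u i j) := by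
      intro i _
      have h3 : (if ∀ j, u i j ∈ A j then (1 : ℂ) else 0) =
          ∏ j, (if u i j ∈ A j then (1 : ℂ) else 0) := by
        split_ifs with h
        · rw [prod_eq_one]
          intro j _
          rw [if_pos (h j)]
        · push Not at h
          obtain ⟨j, hj⟩ := h
          rw [prod_eq_zero (mem_univ j)]
          rw [if_neg hj]
      rw [h3]
      simp_rw [ind_eq]
      rw [prod_mul_distrib, prod_const, card_univ, Fintype.card_fin]
      congr 1
      rw [prod_univ_sum, Fintype.piFinset_univ]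
      apply sum_congr rfl
      intro w _
      rw [prod_mul_distrib, mul_comm]
      congr 1
      exact (map_char_sum _ _).symm
    rw [sum_congr rfl h2, ← mul_sum, sum_comm]
    congr 1
    apply sum_congr rfl
    intro w _
    rw [mul_sum]
  have h4 : ((t.filter (fun i => ∀ j, u i j ∈ A j)).card : ℂ) -
      t.card * (∏ j, ((A j).card : ℂ)) / (P : ℂ) ^ r =
      ((P : ℂ)⁻¹) ^ r * ∑ w ∈ (univ : Finset (Fin r → ZMod P)).erase 0,
        (∏ j, ∑ y ∈ A j, ZMod.stdAddChar (-(w j * y))) *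
          ∑ i ∈ t, ZMod.stdAddChar (∑ j, w j * u i j) := by
    rw [h1, ← add_sum_erase univ _ (mem_univ (0 : Fin r → ZMod P))]
    simp only [Pi.zero_apply, zero_mul, neg_zero, sum_const_zero, AddChar.map_zero_eq_one,
      sum_const, nsmul_eq_mul, mul_one]
    rw [mul_add, inv_pow]
    field_simp
    ring
  have h5 : ‖((t.filter (fun i => ∀ j, u i j ∈ A j)).card : ℂ) -
      t.card * (∏ j, ((A j).card : ℂ)) / (P : ℂ) ^ r‖ ≤ B * D ^ r := by
    rw [h4, norm_mul, norm_pow, norm_inv, Complex.norm_natCast]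
    have h6 : ‖∑ w ∈ (univ : Finset (Fin r → ZMod P)).erase 0,
        (∏ j, ∑ y ∈ A j, ZMod.stdAddChar (-(w j * y))) *
          ∑ i ∈ t, ZMod.stdAddChar (∑ j, w j * u i j)‖ ≤ B * (P * D) ^ r := by
      calc _ ≤ ∑ w ∈ (univ : Finset (Fin r → ZMod P)).erase 0,
            ‖(∏ j, ∑ y ∈ A j, ZMod.stdAddChar (-(w j * y))) *
              ∑ i ∈ t, ZMod.stdAddChar (∑ j, w j * u i j)‖ := norm_sum_le _ _
        _ ≤ ∑ w ∈ (univ : Finset (Fin r → ZMod P)).erase 0,
            (∏ j, ‖∑ y ∈ A j, ZMod.stdAddChar (-(w j * y))‖) * B := by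
              apply sum_le_sum
              intro w hw
              rw [norm_mul, norm_prod]
              exact mul_le_mul_of_nonneg_left (hu w (ne_of_mem_erase hw))
                (prod_nonneg fun _ _ => norm_nonneg _)
        _ ≤ ∑ w : Fin r → ZMod P,
            (∏ j, ‖∑ y ∈ A j, ZMod.stdAddChar (-(w j * y))‖) * B := by
              apply sum_le_sum_of_subset_of_nonneg (erase_subset _ _)
              intro w _ _
              exact mul_nonneg (prod_nonneg fun _ _ => norm_nonneg _) hB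
        _ = (∏ j, ∑ w : ZMod P, ‖∑ y ∈ A j, ZMod.stdAddChar (-(w * y))‖) * B := by
              rw [← sum_mul, prod_univ_sum, Fintype.piFinset_univ]
        _ ≤ (∏ _j : Fin r, (P * D)) * B := by
              apply mul_le_mul_of_nonneg_right _ hB
              apply prod_le_prod
              · intro j _
                exact sum_nonneg fun _ _ => norm_nonneg _
              · intro j _
                exact hA j
        _ = B * (P * D) ^ r := by
              rw [prod_const, card_univ, Fintype.card_fin]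
              ring
    calc _ ≤ ((P : ℝ)⁻¹) ^ r * (B * (P * D) ^ r) :=
          mul_le_mul_of_nonneg_left h6 (by positivity)
      _ = _ := by
          rw [mul_pow, inv_pow]
          field_simp
  have h7 : ((t.filter (fun i => ∀ j, u i j ∈ A j)).card : ℂ) -
      t.card * (∏ j, ((A j).card : ℂ)) / (P : ℂ) ^ r =
      ((((t.filter (fun i => ∀ j, u i j ∈ A j)).card : ℝ) -
      t.card * (∏ j, ((A j).card : ℝ)) / (P : ℝ) ^ r : ℝ) : ℂ) := by
    push_cast
    rfl
  rw [h7, Complex.norm_real, Real.norm_eq_abs] at h5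
  exact h5

end Pool.Agent.V1179.MH
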