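import Pool.Agent.V1179.MH.Box
import Pool.Agent.Helper112.MultLS
import Pool.Agent.H353R2.Z2

set_option autoImplicit false

/-! # The fourth moment of character sums over progressions in arbitrary intervals (helper79) -/

namespace Pool.Agent.V1179.MH

open Finset

/-- the weight of a frequency -/
noncomputable def Vw {P : ℕ} (T : ℝ) (m : ZMod P) : ℝ := min T (P / |((m.valMinAbs : ℤ) : ℝ)|)

/-- the weight of an integer product of two frequencies -/
noncomputable def hh (P : ℕ) (T y : ℝ) : ℝ := min (T ^ 2) ((P : ℝ) ^ 2 / y)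

lemma Vw_nonneg {P : ℕ} (T : ℝ) (hT : 0 ≤ T) (m : ZMod P) : 0 ≤ Vw T m :=
  le_min hT (by positivity)

lemma hh_nonneg (P : ℕ) (T y : ℝ) (hy : 0 ≤ y) : 0 ≤ hh P T y :=
  le_min (by positivity) (by positivity)

lemma hh_sq (P : ℕ) (T y : ℝ) (hy : 0 ≤ y) : hh P T y ^ 2 ≤ T ^ 2 * (P : ℝ) ^ 2 * (1 / y) := by
  have h0 := hh_nonneg P T y hy
  calc hh P T y ^ 2 = hh P T y * hh P T y := sq _
    _ ≤ T ^ 2 * ((P : ℝ) ^ 2 / y) :=
        mul_le_mul (min_le_left _ _) (min_le_right _ _) h0 (by positivity)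
    _ = _ := by ring

lemma Vw_mul {P : ℕ} (T : ℝ) (hT : 0 ≤ T) (m m' : ZMod P) :
    Vw T m * Vw T m' ≤ hh P T |((m.valMinAbs * m'.valMinAbs : ℤ) : ℝ)| := by
  have h0 := Vw_nonneg T hT m
  have h0' := Vw_nonneg T hT m'
  refine le_min ?_ ?_
  · rw [sq]
    exact mul_le_mul (min_le_left _ _) (min_le_left _ _) h0' hT
  · calc Vw T m * Vw T m' ≤ (P / |((m.valMinAbs : ℤ) : ℝ)|) * (P / |((m'.valMinAbs : ℤ) : ℝ)|) :=
          mul_le_mul (min_le_right _ _) (min_le_right _ _) h0' (by positivity)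
      _ = _ := by
          rw [div_mul_div_comm, ← sq]
          push_cast
          rw [abs_mul]

variable {P : ℕ} [Fact P.Prime]

/-- the product of the least residues -/
noncomputable def NN (x : ZMod P) (u : (ZMod P)ˣ) : ℤ :=
  (u : ZMod P).valMinAbs * ((((u⁻¹ : (ZMod P)ˣ) : ZMod P)) * x).valMinAbs

lemma NN_cast (x : ZMod P) (u : (ZMod P)ˣ) : ((NN x u : ℤ) : ZMod P) = x := by
  unfold NN
  rw [Int.cast_mul, ZMod.coe_valMinAbs, ZMod.coe_valMinAbs, ← mul_assoc, Units.mul_inv, one_mul]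

lemma NN_ne (x : ZMod P) (hx : x ≠ 0) (u : (ZMod P)ˣ) : NN x u ≠ 0 := by
  intro h
  apply hx
  rw [← NN_cast x u, h, Int.cast_zero]

lemma NN_le (x : ZMod P) (u : (ZMod P)ˣ) : (NN x u).natAbs < P ^ 2 := by
  have hp : 0 < P := (Fact.out : P.Prime).pos
  unfold NN
  rw [Int.natAbs_mul]
  have h1 := ZMod.natAbs_valMinAbs_le (u : ZMod P)
  have h2 := ZMod.natAbs_valMinAbs_le ((((u⁻¹ : (ZMod P)ˣ) : ZMod P)) * x)
  have h3 : P / 2 < P := Nat.div_lt_self hp (by norm_num)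
  calc _ ≤ (P / 2) * (P / 2) := Nat.mul_le_mul h1 h2
    _ < P * P := Nat.mul_lt_mul'' h3 h3
    _ = _ := (sq P).symm

lemma fiber (x : ZMod P) (N : ℤ) (hN : N ≠ 0) :
    ((univ : Finset (ZMod P)ˣ).filter (fun u => NN x u = N)).card ≤
      2 * (N.natAbs.divisors).card := by
  classical
  set S := (univ : Finset (ZMod P)ˣ).filter (fun u => NN x u = N) with hS
  have hinj : Set.InjOn (fun u : (ZMod P)ˣ => (u : ZMod P).valMinAbs) (S : Set (ZMod P)ˣ) := by
    intro u _ u' _ h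
    have h1 := congrArg (fun z : ℤ => (z : ZMod P)) h
    simp only [ZMod.coe_valMinAbs] at h1
    exact Units.ext h1
  rw [← card_image_of_injOn hinj]
  have hsub : S.image (fun u : (ZMod P)ˣ => (u : ZMod P).valMinAbs) ⊆
      (N.natAbs.divisors.image (fun d : ℕ => (d : ℤ))) ∪
        (N.natAbs.divisors.image (fun d : ℕ => -(d : ℤ))) := by
    intro z hz
    rw [mem_image] at hz
    obtain ⟨u, hu, rfl⟩ := hz
    rw [hS, mem_filter] at hu
    have h1 : (u : ZMod P).valMinAbs ∣ N := by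
      rw [← hu.2]
      exact dvd_mul_right _ _
    have h2 : (u : ZMod P).valMinAbs.natAbs ∈ N.natAbs.divisors := by
      rw [Nat.mem_divisors]
      exact ⟨Int.natAbs_dvd_natAbs.2 h1, by simpa using hN⟩
    rw [mem_union, mem_image, mem_image]
    rcases Int.natAbs_eq (u : ZMod P).valMinAbs with h | h
    · left
      exact ⟨_, h2, h.symm⟩
    · right
      exact ⟨_, h2, h.symm⟩
  refine (card_le_card hsub).trans ((card_union_le _ _).trans ?_)
  have h1 := card_image_le (s := N.natAbs.divisors) (f := fun d : ℕ => (d : ℤ))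
  have h2 := card_image_le (s := N.natAbs.divisors) (f := fun d : ℕ => -(d : ℤ))
  omega

lemma sum_hh (T : ℝ) (v : ℕ) :
    ∑ j ∈ range (P + 1), hh P T (((v + j * P : ℕ)) : ℝ) ≤
      hh P T v + P * (1 + Real.log P) := by
  have hp : (0 : ℝ) < P := by exact_mod_cast (Fact.out : P.Prime).pos
  rw [sum_range_succ', zero_mul, add_zero, add_comm]
  have h1 : ∑ j ∈ range P, hh P T (((v + (j + 1) * P : ℕ)) : ℝ) ≤
      ∑ j ∈ range P, (P : ℝ) * ((((j + 1 : ℕ)) : ℝ))⁻¹ := by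
    apply sum_le_sum
    intro j _
    refine (min_le_right _ _).trans ?_
    have h2 : (0 : ℝ) < ((j + 1 : ℕ) : ℝ) := by positivity
    have h3 : ((j + 1 : ℕ) : ℝ) * P ≤ ((v + (j + 1) * P : ℕ) : ℝ) := by
      push_cast
      have : (0 : ℝ) ≤ v := Nat.cast_nonneg v
      linarith
    calc (P : ℝ) ^ 2 / ((v + (j + 1) * P : ℕ) : ℝ) ≤ (P : ℝ) ^ 2 / (((j + 1 : ℕ) : ℝ) * P) :=
          div_le_div_of_nonneg_left (by positivity) (by positivity) h3
      _ = _ := by field_simp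
  have h2 : ∑ j ∈ range P, (P : ℝ) * ((((j + 1 : ℕ)) : ℝ))⁻¹ ≤ P * (1 + Real.log P) := by
    rw [← mul_sum]
    apply mul_le_mul_of_nonneg_left _ hp.le
    have h3 := harmonic_le_one_add_log P
    rw [harmonic] at h3
    push_cast at h3 ⊢
    exact h3
  linarith [h1.trans h2]

open Classical in
theorem core (T D : ℝ) (hT : 0 ≤ T)
    (hD : ∀ N : ℕ, 1 ≤ N → N ≤ 2 * P ^ 2 → (N.divisors.card : ℝ) ≤ D)
    (x : ZMod P) (hx : x ≠ 0) :
    ∑ u : (ZMod P)ˣ, Vw T (u : ZMod P) * Vw T (((u⁻¹ : (ZMod P)ˣ) : ZMod P) * x) ≤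
      2 * D * (hh P T (x.val : ℝ) + hh P T ((-x).val : ℝ) + 2 * (P * (1 + Real.log P))) := by
  have hpp : P.Prime := Fact.out
  have hp : 0 < P := hpp.pos
  have hD0 : 0 ≤ D := (Nat.cast_nonneg _).trans (hD 1 le_rfl (by nlinarith [hpp.one_le]))
  have hvpos : ∀ y : ZMod P, y ≠ 0 → 0 < y.val := by
    intro y hy
    rcases Nat.eq_zero_or_pos y.val with h | h
    · exact absurd ((ZMod.val_eq_zero y).1 h) hy
    · exact h
  have key : ∀ (y : ZMod P), y ≠ 0 → ∀ (M : (ZMod P)ˣ → ℤ),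
      (∀ N : ℤ, N ≠ 0 → (((univ : Finset (ZMod P)ˣ).filter (fun u => M u = N)).card) ≤
        2 * (N.natAbs.divisors).card) →
      ∑ u : (ZMod P)ˣ, ∑ j ∈ range (P + 1), (if M u = ((y.val + j * P : ℕ) : ℤ) then
        hh P T (((y.val + j * P : ℕ)) : ℝ) else 0) ≤
        2 * D * (hh P T (y.val : ℝ) + P * (1 + Real.log P)) := by
    intro y hy M hM
    rw [sum_comm]
    have h1 : ∀ j ∈ range (P + 1), ∑ u : (ZMod P)ˣ, (if M u = ((y.val + j * P : ℕ) : ℤ) then
        hh P T (((y.val + j * P : ℕ)) : ℝ) else 0) ≤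
        2 * D * hh P T (((y.val + j * P : ℕ)) : ℝ) := by
      intro j hj
      rw [← sum_filter, sum_const, nsmul_eq_mul]
      apply mul_le_mul_of_nonneg_right _ (hh_nonneg P T _ (Nat.cast_nonneg _))
      have h2 := hM ((y.val + j * P : ℕ) : ℤ) (by
        have := hvpos y hy
        have h3 : 0 < y.val + j * P := by positivity
        exact_mod_cast h3.ne')
      have h4 := hD (y.val + j * P) (by
        have := hvpos y hy
        have h3 : 0 < y.val + j * P := by positivity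
        omega) (by
        have h5 : y.val < P := ZMod.val_lt y
        rw [mem_range] at hj
        have h6 : j * P ≤ P * P := Nat.mul_le_mul_right _ (by omega)
        nlinarith)
      rw [Int.natAbs_natCast] at h2
      have h7 : ((((univ : Finset (ZMod P)ˣ).filter
        (fun u => M u = ((y.val + j * P : ℕ) : ℤ))).card : ℕ) : ℝ) ≤
        2 * ((y.val + j * P).divisors.card : ℝ) := by exact_mod_cast h2
      linarith
    refine (sum_le_sum h1).trans ?_
    rw [← mul_sum]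
    exact mul_le_mul_of_nonneg_left (sum_hh T y.val) (by positivity)
  have hterm : ∀ u : (ZMod P)ˣ,
      Vw T (u : ZMod P) * Vw T (((u⁻¹ : (ZMod P)ˣ) : ZMod P) * x) ≤
      ∑ j ∈ range (P + 1), (if NN x u = ((x.val + j * P : ℕ) : ℤ) then
        hh P T (((x.val + j * P : ℕ)) : ℝ) else 0) +
      ∑ j ∈ range (P + 1), (if -NN x u = (((-x).val + j * P : ℕ) : ℤ) then
        hh P T ((((-x).val + j * P : ℕ)) : ℝ) else 0) := by
    intro u
    refine (Vw_mul T hT _ _).trans ?_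
    have hnn1 : 0 ≤ ∑ j ∈ range (P + 1), (if NN x u = ((x.val + j * P : ℕ) : ℤ) then
        hh P T (((x.val + j * P : ℕ)) : ℝ) else 0) := by
      apply sum_nonneg
      intro j _
      split_ifs
      · exact hh_nonneg _ _ _ (Nat.cast_nonneg _)
      · exact le_rfl
    have hnn2 : 0 ≤ ∑ j ∈ range (P + 1), (if -NN x u = (((-x).val + j * P : ℕ) : ℤ) then
        hh P T ((((-x).val + j * P : ℕ)) : ℝ) else 0) := by
      apply sum_nonneg
      intro j _
      split_ifs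
      · exact hh_nonneg _ _ _ (Nat.cast_nonneg _)
      · exact le_rfl
    have hgen : ∀ (y : ZMod P) (M : ℤ), ((M : ℤ) : ZMod P) = y → 0 ≤ M → M.natAbs < P ^ 2 →
        hh P T |(M : ℝ)| ≤ ∑ j ∈ range (P + 1), (if M = ((y.val + j * P : ℕ) : ℤ) then
          hh P T (((y.val + j * P : ℕ)) : ℝ) else 0) := by
      intro y M hMy hM0 hMP
      have h1 : (y.val : ℤ) = M % P := by
        rw [← hMy, ZMod.val_intCast]
      set j : ℕ := (M / P).toNat with hj
      have hj0 : 0 ≤ M / (P : ℤ) := Int.ediv_nonneg hM0 (by positivity)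
      have hjz : (j : ℤ) = M / P := Int.toNat_of_nonneg hj0
      have h2 : M = ((y.val + j * P : ℕ) : ℤ) := by
        push_cast
        rw [h1, hjz]
        have := Int.emod_add_mul_ediv M P
        linarith
      have hjP : j < P + 1 := by
        have h3 : j * P ≤ M.natAbs := by
          have : (M.natAbs : ℤ) = M := Int.natAbs_of_nonneg hM0
          have h4 : ((j * P : ℕ) : ℤ) ≤ M := by
            rw [h2]
            push_cast
            have : (0 : ℤ) ≤ y.val := Int.natCast_nonneg _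
            linarith
          omega
        by_contra hcon
        push Not at hcon
        have : P * P ≤ j * P := Nat.mul_le_mul_right _ (by omega)
        nlinarith
      have h5 := single_le_sum (s := range (P + 1)) (f := fun j : ℕ =>
        (if M = ((y.val + j * P : ℕ) : ℤ) then
          hh P T (((y.val + j * P : ℕ)) : ℝ) else 0)) (by
          intro i _
          split_ifs
          · exact hh_nonneg _ _ _ (Nat.cast_nonneg _)
          · exact le_rfl) (mem_range.2 hjP)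
      rw [if_pos h2] at h5
      refine le_trans (le_of_eq ?_) h5
      congr 1
      have h6 : (M : ℝ) = (((y.val + j * P : ℕ)) : ℝ) := by
        have := congrArg (fun z : ℤ => (z : ℝ)) h2
        simpa using this
      rw [h6, abs_of_nonneg (Nat.cast_nonneg _)]
    have e1 : ((u : ZMod P).valMinAbs * ((((u⁻¹ : (ZMod P)ˣ) : ZMod P)) * x).valMinAbs : ℤ) =
      NN x u := rfl
    rw [e1]
    rcases le_total 0 (NN x u) with h | h
    · have := hgen x (NN x u) (NN_cast x u) h (NN_le x u)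
      linarith
    · have := hgen (-x) (-NN x u) (by
        push_cast
        rw [NN_cast]) (by linarith) (by
        rw [Int.natAbs_neg]
        exact NN_le x u)
      rw [Int.cast_neg, abs_neg] at this
      linarith
  refine (sum_le_sum (fun u _ => hterm u)).trans ?_
  rw [sum_add_distrib]
  have k1 := key x hx (NN x) (fun N hN => fiber x N hN)
  have k2 := key (-x) (neg_ne_zero.2 hx) (fun u => -NN x u) (by
    intro N hN
    have := fiber x (-N) (neg_ne_zero.2 hN)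
    rw [Int.natAbs_neg] at this
    refine le_trans (le_of_eq ?_) this
    congr 1
    ext u
    simp only [mem_filter, mem_univ, true_and]
    constructor
    · intro h; omega
    · intro h; omega)
  have : 2 * D * (hh P T (x.val : ℝ) + hh P T ((-x).val : ℝ) + 2 * (P * (1 + Real.log P))) =
    2 * D * (hh P T (x.val : ℝ) + P * (1 + Real.log P)) +
    2 * D * (hh P T ((-x).val : ℝ) + P * (1 + Real.log P)) := by ring
  rw [this]
  exact add_le_add k1 k2

lemma sum_units_val (F : ℕ → ℝ) (hF : ∀ n, 0 ≤ F n) :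
    ∑ x : (ZMod P)ˣ, F (x : ZMod P).val ≤ ∑ v ∈ Ico 1 P, F v := by
  classical
  have hinj : Set.InjOn (fun x : (ZMod P)ˣ => (x : ZMod P).val)
      ((univ : Finset (ZMod P)ˣ) : Set (ZMod P)ˣ) := by
    intro x _ y _ h
    exact Units.ext (ZMod.val_injective P h)
  rw [← sum_image (f := F) hinj]
  apply sum_le_sum_of_subset_of_nonneg
  · intro v hv
    rw [mem_image] at hv
    obtain ⟨x, -, rfl⟩ := hv
    rw [mem_Ico]
    refine ⟨?_, ZMod.val_lt _⟩
    rcases Nat.eq_zero_or_pos (x : ZMod P).val with h | h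
    · exact absurd ((ZMod.val_eq_zero _).1 h) x.ne_zero
    · exact h
  · intro v _ _
    exact hF v

omit [Fact P.Prime] in
lemma sum_inv_Ico : ∑ v ∈ Ico 1 P, 1 / (v : ℝ) ≤ 1 + Real.log P := by
  have h3 : ∑ v ∈ Ico 1 P, 1 / (v : ℝ) ≤ (harmonic P : ℝ) := by
    rw [harmonic_eq_sum_Icc]
    push_cast
    rw [show (∑ v ∈ Ico 1 P, 1 / (v : ℝ)) = ∑ v ∈ Ico 1 P, ((v : ℝ))⁻¹ from
      sum_congr rfl (fun v _ => one_div _)]
    apply sum_le_sum_of_subset_of_nonneg
    · intro v hv; rw [mem_Ico] at hv; rw [mem_Icc]; omega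
    · intro v _ _; positivity
  exact h3.trans (harmonic_le_one_add_log P)

open Classical in
/-- the number of solutions of `l₁ l₂ ≡ l₃ l₄`, weighted -/
theorem core_sq (T D : ℝ) (hT : 0 ≤ T)
    (hD : ∀ N : ℕ, 1 ≤ N → N ≤ 2 * P ^ 2 → (N.divisors.card : ℝ) ≤ D) :
    ∑ x : (ZMod P)ˣ, (∑ u : (ZMod P)ˣ,
      Vw T (u : ZMod P) * Vw T (((u⁻¹ : (ZMod P)ˣ) : ZMod P) * (x : ZMod P))) ^ 2 ≤
      48 * D ^ 2 * (1 + Real.log P) ^ 2 * (T ^ 2 * (P : ℝ) ^ 2 + (P : ℝ) ^ 3) := by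
  have hpp : P.Prime := Fact.out
  have hp1 : (1 : ℝ) ≤ P := by exact_mod_cast hpp.one_le
  set Λ : ℝ := 1 + Real.log P with hΛ
  have hΛ1 : 1 ≤ Λ := by
    have := Real.log_nonneg hp1
    linarith
  have hD0 : 0 ≤ D := (Nat.cast_nonneg _).trans (hD 1 le_rfl (by nlinarith [hpp.one_le]))
  have h1 : ∀ x : (ZMod P)ˣ, (∑ u : (ZMod P)ˣ,
      Vw T (u : ZMod P) * Vw T (((u⁻¹ : (ZMod P)ˣ) : ZMod P) * (x : ZMod P))) ^ 2 ≤
      12 * D ^ 2 * (T ^ 2 * (P : ℝ) ^ 2 * (1 / ((x : ZMod P).val : ℝ)) +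
        T ^ 2 * (P : ℝ) ^ 2 * (1 / ((-(x : ZMod P)).val : ℝ)) + 4 * P ^ 2 * Λ ^ 2) := by
    intro x
    have h2 := core T D hT hD (x : ZMod P) x.ne_zero
    have h3 : 0 ≤ ∑ u : (ZMod P)ˣ,
      Vw T (u : ZMod P) * Vw T (((u⁻¹ : (ZMod P)ˣ) : ZMod P) * (x : ZMod P)) :=
      sum_nonneg fun u _ => mul_nonneg (Vw_nonneg T hT _) (Vw_nonneg T hT _)
    have h4 := hh_sq P T ((x : ZMod P).val : ℝ) (Nat.cast_nonneg _)
    have h5 := hh_sq P T ((-(x : ZMod P)).val : ℝ) (Nat.cast_nonneg _)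
    set A := hh P T ((x : ZMod P).val : ℝ)
    set B := hh P T ((-(x : ZMod P)).val : ℝ)
    calc _ ≤ (2 * D * (A + B + 2 * (P * Λ))) ^ 2 := pow_le_pow_left₀ h3 h2 2
      _ = 4 * D ^ 2 * (A + B + 2 * (P * Λ)) ^ 2 := by ring
      _ ≤ 4 * D ^ 2 * (3 * (A ^ 2 + B ^ 2 + (2 * (P * Λ)) ^ 2)) := by
          apply mul_le_mul_of_nonneg_left _ (by positivity)
          nlinarith [sq_nonneg (A - B), sq_nonneg (B - 2 * (P * Λ)), sq_nonneg (A - 2 * (P * Λ))]
      _ = 12 * D ^ 2 * (A ^ 2 + B ^ 2 + 4 * P ^ 2 * Λ ^ 2) := by ring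
      _ ≤ _ := by
          apply mul_le_mul_of_nonneg_left _ (by positivity)
          linarith
  refine (sum_le_sum (fun x _ => h1 x)).trans ?_
  rw [← mul_sum, sum_add_distrib, sum_add_distrib, ← mul_sum, ← mul_sum, sum_const, nsmul_eq_mul]
  have h6 : ∑ x : (ZMod P)ˣ, 1 / ((x : ZMod P).val : ℝ) ≤ Λ :=
    (sum_units_val (fun n => 1 / (n : ℝ)) (fun n => by positivity)).trans sum_inv_Ico
  have h7 : ∑ x : (ZMod P)ˣ, 1 / ((-(x : ZMod P)).val : ℝ) ≤ Λ := by
    have h8 : ∑ x : (ZMod P)ˣ, 1 / ((-(x : ZMod P)).val : ℝ) =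
        ∑ x : (ZMod P)ˣ, 1 / ((x : ZMod P).val : ℝ) :=
      Fintype.sum_equiv (Equiv.neg (ZMod P)ˣ) _ _ (fun x => by simp)
    rw [h8]
    exact h6
  have h9 : (((univ : Finset (ZMod P)ˣ).card : ℕ) : ℝ) ≤ P := by
    rw [card_univ, ZMod.card_units_eq_totient]
    exact_mod_cast Nat.totient_le P
  have h10 : Λ ≤ Λ ^ 2 := by nlinarith
  have h11 : T ^ 2 * (P : ℝ) ^ 2 * ∑ x : (ZMod P)ˣ, 1 / ((x : ZMod P).val : ℝ) ≤
      T ^ 2 * (P : ℝ) ^ 2 * Λ ^ 2 := mul_le_mul_of_nonneg_left (h6.trans h10) (by positivity)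
  have h12 : T ^ 2 * (P : ℝ) ^ 2 * ∑ x : (ZMod P)ˣ, 1 / ((-(x : ZMod P)).val : ℝ) ≤
      T ^ 2 * (P : ℝ) ^ 2 * Λ ^ 2 := mul_le_mul_of_nonneg_left (h7.trans h10) (by positivity)
  have h13 : (((univ : Finset (ZMod P)ˣ).card : ℕ) : ℝ) * (4 * P ^ 2 * Λ ^ 2) ≤
      P * (4 * P ^ 2 * Λ ^ 2) := mul_le_mul_of_nonneg_right h9 (by positivity)
  have h14 : 0 ≤ T ^ 2 * (P : ℝ) ^ 2 * Λ ^ 2 := by positivity
  calc _ ≤ 12 * D ^ 2 * (T ^ 2 * (P : ℝ) ^ 2 * Λ ^ 2 + T ^ 2 * (P : ℝ) ^ 2 * Λ ^ 2 +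
        P * (4 * P ^ 2 * Λ ^ 2)) := by
        apply mul_le_mul_of_nonneg_left _ (by positivity)
        linarith
    _ ≤ 12 * D ^ 2 * (4 * (T ^ 2 * (P : ℝ) ^ 2 * Λ ^ 2) + P * (4 * P ^ 2 * Λ ^ 2)) := by
        apply mul_le_mul_of_nonneg_left _ (by positivity)
        linarith
    _ = _ := by ring

end Pool.Agent.V1179.MH
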