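import Pool.Agent.V1179.MH.FM1

set_option autoImplicit false

/-! # The fourth moment of character sums over progressions in arbitrary intervals, II (helper79) -/

namespace Pool.Agent.V1179.MH

open Finset

lemma AP_param {P a L q : ℕ} [NeZero P] (haL : a + L ≤ P) (hq : 1 ≤ q) (ρ : ℤ) :
    ∃ (m₀ : ℤ) (H : ℕ), H ≤ L ∧ ∀ F : ZMod P → ℂ, ∑ y ∈ AP P a L q ρ, F y =
      ∑ k ∈ range H, F ((m₀ + (q : ℤ) * k : ℤ) : ZMod P) := by
  classical
  rcases Nat.eq_zero_or_pos L with hL | hL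
  · subst hL
    refine ⟨0, 0, le_rfl, ?_⟩
    intro F
    have : AP P a 0 q ρ = ∅ := by
      unfold AP
      simp
    rw [this]
    simp
  obtain ⟨m₀, H, -, hS⟩ := Pool.Agent.H442R2.KF.Inc.prog q hq ρ a (a + L - 1) (by omega)
  have hIcc : Icc (a : ℤ) (a + L - 1) = Ico (a : ℤ) (a + L) := by
    ext x
    rw [mem_Icc, mem_Ico]
    omega
  rw [hIcc] at hS
  have hq0 : (q : ℤ) ≠ 0 := by exact_mod_cast (show q ≠ 0 by omega)
  have hinj : Set.InjOn (fun k : ℕ => m₀ + (q : ℤ) * k) (range H) := by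
    intro x _ y _ hxy
    have : (q : ℤ) * x = q * y := by
      have := hxy
      simp only at this
      linarith
    exact_mod_cast mul_left_cancel₀ hq0 this
  refine ⟨m₀, H, ?_, ?_⟩
  · have h1 : H = ((range H).image (fun k : ℕ => m₀ + (q : ℤ) * k)).card := by
      rw [card_image_of_injOn hinj, card_range]
    rw [h1, ← hS]
    refine (card_filter_le _ _).trans ?_
    simp
  · intro F
    unfold AP
    rw [sum_image, hS, sum_image]
    · exact hinj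
    · intro x hx y hy hxy
      rw [mem_coe, mem_filter] at hx hy
      exact injOn_AP haL (mem_coe.2 hx.1) (mem_coe.2 hy.1) hxy

variable {P : ℕ} [Fact P.Prime]

lemma val_inv_le (w : ZMod P) (hw : w ≠ 0) :
    (P : ℝ) / 2 * (1 / (w.val : ℝ) + 1 / ((P : ℝ) - w.val)) ≤ P / |((w.valMinAbs : ℤ) : ℝ)| := by
  have hP : (0 : ℝ) < P := by exact_mod_cast (Fact.out : P.Prime).pos
  have hv0 : 0 < w.val := by
    rcases Nat.eq_zero_or_pos w.val with h | h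
    · exact absurd ((ZMod.val_eq_zero w).1 h) hw
    · exact h
  have hvq : w.val < P := ZMod.val_lt w
  have hv0' : (0 : ℝ) < w.val := by exact_mod_cast hv0
  have hvq' : (0 : ℝ) < P - w.val := by
    have : (w.val : ℝ) < P := by exact_mod_cast hvq
    linarith
  rw [ZMod.valMinAbs_def_pos]
  split_ifs with h
  · have h1 : (w.val : ℝ) ≤ P - w.val := by
      have : 2 * w.val ≤ P := by omega
      have h2 : (2 : ℝ) * w.val ≤ P := by exact_mod_cast this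
      linarith
    rw [Int.cast_natCast, abs_of_pos hv0']
    have h2 := one_div_le_one_div_of_le hv0' h1
    calc (P : ℝ) / 2 * (1 / (w.val : ℝ) + 1 / ((P : ℝ) - w.val)) ≤
          P / 2 * (1 / (w.val : ℝ) + 1 / (w.val : ℝ)) := by gcongr
      _ = _ := by ring
  · have h1 : (P : ℝ) - w.val ≤ w.val := by
      have : P ≤ 2 * w.val := by omega
      have h2 : (P : ℝ) ≤ 2 * w.val := by exact_mod_cast this
      linarith
    have h3 : |(((w.val : ℤ) - (P : ℤ) : ℤ) : ℝ)| = P - w.val := by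
      push_cast
      rw [abs_sub_comm, abs_of_pos hvq']
    rw [h3]
    have h2 := one_div_le_one_div_of_le hvq' h1
    calc (P : ℝ) / 2 * (1 / (w.val : ℝ) + 1 / ((P : ℝ) - w.val)) ≤
          P / 2 * (1 / ((P : ℝ) - w.val) + 1 / ((P : ℝ) - w.val)) := by gcongr
      _ = _ := by ring

lemma fourier_pt {a L q : ℕ} (haL : a + L ≤ P) (hq : 1 ≤ q) (hqP : Nat.Coprime P q) (ρ : ℤ)
    (w : ZMod P) (hw : w ≠ 0) :
    ‖∑ y ∈ AP P a L q ρ, ZMod.stdAddChar (w * y)‖ ≤ Vw (L : ℝ) (w * (q : ZMod P)) := by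
  obtain ⟨m₀, H, hHL, hF⟩ := AP_param haL hq ρ
  rw [hF]
  have h1 : ∀ k ∈ range H, ZMod.stdAddChar (w * ((m₀ + (q : ℤ) * k : ℤ) : ZMod P)) =
      ZMod.stdAddChar (w * (m₀ : ZMod P)) *
        ZMod.stdAddChar ((w * (q : ZMod P)) * (k : ZMod P)) := by
    intro k _
    rw [← AddChar.map_add_eq_mul]
    congr 1
    push_cast
    ring
  rw [sum_congr rfl h1, ← mul_sum, norm_mul, AddChar.norm_apply, one_mul]
  have hq0 : (q : ZMod P) ≠ 0 := by
    intro h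
    rw [ZMod.natCast_eq_zero_iff] at h
    have h2 : P ∣ 1 := by
      rw [← hqP]
      exact Nat.dvd_gcd dvd_rfl h
    exact (Fact.out : P.Prime).one_lt.ne' (Nat.dvd_one.1 h2)
  have hwq : w * (q : ZMod P) ≠ 0 := mul_ne_zero hw hq0
  refine le_min ?_ ?_
  · calc _ ≤ ∑ _k ∈ range H, (1 : ℝ) := by
          refine (norm_sum_le _ _).trans (sum_le_sum fun k _ => ?_)
          rw [AddChar.norm_apply]
      _ = H := by simp
      _ ≤ L := by exact_mod_cast hHL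
  · exact (Pool.Agent.H442R2.KF.Inc.geom P _ hwq H).trans (val_inv_le _ hwq)

lemma prim_of_ne (χ : DirichletCharacter ℂ P) (hχ : χ ≠ 1) : χ.IsPrimitive := by
  have hp : P.Prime := Fact.out
  rw [DirichletCharacter.isPrimitive_def]
  rcases (Nat.dvd_prime hp).1 χ.conductor_dvd_level with h | h
  · exact absurd (DirichletCharacter.eq_one_iff_conductor_eq_one.2 h) hχ
  · exact h

/-- character sum over a finite set of residues -/
noncomputable def cz (χ : DirichletCharacter ℂ P) (A : Finset (ZMod P)) : ℂ := ∑ x ∈ A, χ x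

/-- the sum over a set through its Fourier transform -/
lemma cz_gauss (χ : DirichletCharacter ℂ P) (hχ : χ ≠ 1) (A : Finset (ZMod P)) :
    ∑ a : ZMod P, χ⁻¹ a * ∑ y ∈ A, ZMod.stdAddChar (a * y) =
      cz χ A * gaussSum χ⁻¹ (ZMod.stdAddChar : AddChar (ZMod P) ℂ) := by
  have hinv : (χ⁻¹).IsPrimitive := prim_of_ne _ (inv_ne_one.2 hχ)
  simp_rw [mul_sum]
  rw [sum_comm, cz, sum_mul]
  apply sum_congr rfl
  intro n _
  have h := gaussSum_mulShift_of_isPrimitive (ZMod.stdAddChar : AddChar (ZMod P) ℂ) hinv n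
  rw [inv_inv] at h
  rw [← h, gaussSum]
  apply sum_congr rfl
  intro a _
  rw [AddChar.mulShift_apply, mul_comm a]

lemma norm_gauss' (χ : DirichletCharacter ℂ P) (hχ : χ ≠ 1) :
    ‖gaussSum χ⁻¹ (ZMod.stdAddChar : AddChar (ZMod P) ℂ)‖ ^ 2 = P :=
  Pool.Agent.Helper112.MLS.norm_gauss P (prim_of_ne _ (inv_ne_one.2 hχ))

/-- Pólya–Vinogradov for progressions -/
lemma cz_pv {a L q : ℕ} (haL : a + L ≤ P) (hq : 1 ≤ q) (hqP : Nat.Coprime P q) (ρ : ℤ)
    (χ : DirichletCharacter ℂ P) (hχ : χ ≠ 1) :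
    ‖cz χ (AP P a L q ρ)‖ ≤ Real.sqrt P * (2 + Real.log P) := by
  have hP : (0 : ℝ) < P := by exact_mod_cast (Fact.out : P.Prime).pos
  have h1 := congrArg norm (cz_gauss χ hχ (AP P a L q ρ))
  rw [norm_mul] at h1
  have h2 : ‖gaussSum χ⁻¹ (ZMod.stdAddChar : AddChar (ZMod P) ℂ)‖ = Real.sqrt P := by
    rw [← norm_gauss' χ hχ, Real.sqrt_sq (norm_nonneg _)]
  have h3 : ‖∑ a' : ZMod P, χ⁻¹ a' * ∑ y ∈ AP P a L q ρ, ZMod.stdAddChar (a' * y)‖ ≤
      P * (2 + Real.log P) := by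
    calc _ ≤ ∑ a' : ZMod P, ‖∑ y ∈ AP P a L q ρ, ZMod.stdAddChar (a' * y)‖ := by
          refine (norm_sum_le _ _).trans (sum_le_sum fun a' _ => ?_)
          rw [norm_mul]
          exact mul_le_of_le_one_left (norm_nonneg _) (DirichletCharacter.norm_le_one _ _)
      _ = ∑ w : ZMod P, ‖∑ y ∈ AP P a L q ρ, ZMod.stdAddChar (-(w * y))‖ := by
          refine Fintype.sum_equiv (Equiv.neg (ZMod P)) _ _ (fun w => ?_)
          simp
      _ ≤ _ := fourier_AP haL hq hqP ρ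
  rw [h1, h2] at h3
  have hs : 0 < Real.sqrt P := Real.sqrt_pos.2 hP
  have hss : Real.sqrt P * Real.sqrt P = P := Real.mul_self_sqrt hP.le
  have h4 : ‖cz χ (AP P a L q ρ)‖ * Real.sqrt P ≤ (Real.sqrt P * (2 + Real.log P)) * Real.sqrt P := by
    calc _ ≤ (P : ℝ) * (2 + Real.log P) := h3
      _ = (Real.sqrt P * Real.sqrt P) * (2 + Real.log P) := by rw [hss]
      _ = _ := by ring
  exact le_of_mul_le_mul_right h4 hs

/-- the fourth moment through the transform -/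
lemma fourth_transform (g : ZMod P → ℂ) (W : ZMod P → ℝ) (hW : ∀ w, w ≠ 0 → ‖g w‖ ≤ W w) :
    ∑ χ : DirichletCharacter ℂ P, ‖∑ a : ZMod P, χ⁻¹ a * g a‖ ^ 4 ≤
      P * ∑ x : (ZMod P)ˣ, (∑ u : (ZMod P)ˣ,
        W (u : ZMod P) * W (((u⁻¹ : (ZMod P)ˣ) : ZMod P) * (x : ZMod P))) ^ 2 := by
  classical
  set G : ZMod P → ℂ := fun x => ∑ u : (ZMod P)ˣ, g (u : ZMod P) *
    g (((u⁻¹ : (ZMod P)ˣ) : ZMod P) * x) with hG
  have hunits : ∀ (χ : DirichletCharacter ℂ P) (F : ZMod P → ℂ), ∑ a : ZMod P, χ⁻¹ a * F a =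
      ∑ a : (ZMod P)ˣ, χ⁻¹ (a : ZMod P) * F a := by
    intro χ F
    have := sum_filter_add_sum_filter_not (univ : Finset (ZMod P)) (fun a => IsUnit a)
      (fun a => χ⁻¹ a * F a)
    rw [← this]
    have h0 : ∑ a ∈ univ.filter (fun a : ZMod P => ¬ IsUnit a), χ⁻¹ a * F a = 0 := by
      apply sum_eq_zero
      intro a ha
      rw [mem_filter] at ha
      rw [MulChar.map_nonunit _ ha.2, zero_mul]
    rw [h0, add_zero]
    symm
    apply sum_bij (fun (a : (ZMod P)ˣ) _ => (a : ZMod P))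
    · intro a _; simp
    · intro a _ b _ hab; exact Units.ext hab
    · intro b hb
      rw [mem_filter] at hb
      exact ⟨hb.2.unit, mem_univ _, rfl⟩
    · intro a _; rfl
  have hsq : ∀ χ : DirichletCharacter ℂ P, (∑ a : ZMod P, χ⁻¹ a * g a) ^ 2 =
      ∑ a : ZMod P, χ⁻¹ a * G a := by
    intro χ
    rw [hunits χ g, hunits χ G, sq, sum_mul_sum]
    have h1 : ∀ u : (ZMod P)ˣ, ∑ v : (ZMod P)ˣ, χ⁻¹ (u : ZMod P) * g u * (χ⁻¹ (v : ZMod P) * g v) =
        ∑ x : (ZMod P)ˣ, χ⁻¹ (x : ZMod P) *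
          (g (u : ZMod P) * g (((u⁻¹ : (ZMod P)ˣ) : ZMod P) * (x : ZMod P))) := by
      intro u
      refine Fintype.sum_equiv (Equiv.mulLeft u) _ _ (fun v => ?_)
      simp only [Equiv.coe_mulLeft, Units.val_mul, map_mul]
      rw [← mul_assoc ((u⁻¹ : (ZMod P)ˣ) : ZMod P), Units.inv_mul, one_mul]
      ring
    rw [sum_congr rfl (fun u _ => h1 u), sum_comm]
    apply sum_congr rfl
    intro x _
    rw [hG, mul_sum]
  have h2 : ∀ χ : DirichletCharacter ℂ P, ‖∑ a : ZMod P, χ⁻¹ a * g a‖ ^ 4 =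
      ‖∑ a : ZMod P, χ⁻¹ a * G a‖ ^ 2 := by
    intro χ
    rw [← hsq, norm_pow]
    ring
  simp_rw [h2]
  rw [Pool.Agent.Helper112.MLS.sum_all P G]
  have h3 : ∀ x : (ZMod P)ˣ, ‖G (x : ZMod P)‖ ^ 2 ≤ (∑ u : (ZMod P)ˣ,
        W (u : ZMod P) * W (((u⁻¹ : (ZMod P)ˣ) : ZMod P) * (x : ZMod P))) ^ 2 := by
    intro x
    apply pow_le_pow_left₀ (norm_nonneg _)
    rw [hG]
    refine (norm_sum_le _ _).trans (sum_le_sum fun u _ => ?_)
    rw [norm_mul]
    have hu : (u : ZMod P) ≠ 0 := u.ne_zero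
    have hux : (((u⁻¹ : (ZMod P)ˣ) : ZMod P) * (x : ZMod P)) ≠ 0 :=
      mul_ne_zero (u⁻¹).ne_zero x.ne_zero
    exact mul_le_mul (hW _ hu) (hW _ hux) (norm_nonneg _) ((norm_nonneg _).trans (hW _ hu))
  have h4 : ((P.totient : ℕ) : ℝ) ≤ P := by exact_mod_cast Nat.totient_le P
  exact mul_le_mul h4 (sum_le_sum fun x _ => h3 x) (sum_nonneg fun _ _ => by positivity)
    (Nat.cast_nonneg _)

/-- the fourth moment over a progression in an arbitrary interval -/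
theorem fourth_AP (D : ℝ) (hD : ∀ N : ℕ, 1 ≤ N → N ≤ 2 * P ^ 2 → (N.divisors.card : ℝ) ≤ D)
    {a L q : ℕ} (haL : a + L ≤ P) (hq : 1 ≤ q) (hqP : Nat.Coprime P q) (ρ : ℤ) :
    ∑ χ ∈ (univ : Finset (DirichletCharacter ℂ P)).erase 1, ‖cz χ (AP P a L q ρ)‖ ^ 4 ≤
      48 * D ^ 2 * (1 + Real.log P) ^ 2 * ((P : ℝ) * (L : ℝ) ^ 2 + (P : ℝ) ^ 2) := by
  classical
  have hpp : P.Prime := Fact.out
  have hP : (0 : ℝ) < P := by exact_mod_cast hpp.pos
  have hq0 : (q : ZMod P) ≠ 0 := by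
    intro h
    rw [ZMod.natCast_eq_zero_iff] at h
    have h2 : P ∣ 1 := by
      rw [← hqP]
      exact Nat.dvd_gcd dvd_rfl h
    exact hpp.one_lt.ne' (Nat.dvd_one.1 h2)
  set g : ZMod P → ℂ := fun w => ∑ y ∈ AP P a L q ρ, ZMod.stdAddChar (w * y) with hg
  have h1 := fourth_transform g (fun w => Vw (L : ℝ) (w * (q : ZMod P)))
    (fun w hw => fourier_pt haL hq hqP ρ w hw)
  -- remove the factor q
  set qu : (ZMod P)ˣ := Units.mk0 (q : ZMod P) hq0 with hqu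
  have h2 : ∑ x : (ZMod P)ˣ, (∑ u : (ZMod P)ˣ,
        Vw (L : ℝ) ((u : ZMod P) * (q : ZMod P)) *
          Vw (L : ℝ) ((((u⁻¹ : (ZMod P)ˣ) : ZMod P) * (x : ZMod P)) * (q : ZMod P))) ^ 2 =
      ∑ x : (ZMod P)ˣ, (∑ u : (ZMod P)ˣ,
        Vw (L : ℝ) (u : ZMod P) * Vw (L : ℝ) (((u⁻¹ : (ZMod P)ˣ) : ZMod P) * (x : ZMod P))) ^ 2 := by
    refine Fintype.sum_equiv (Equiv.mulLeft (qu * qu)) _ _ (fun x => ?_)
    congr 1
    refine Fintype.sum_equiv (Equiv.mulLeft qu) _ _ (fun u => ?_)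
    have e1 : ((qu : (ZMod P)ˣ) : ZMod P) = (q : ZMod P) := rfl
    simp only [Equiv.coe_mulLeft, Units.val_mul, mul_inv_rev, e1]
    have e2 : (((u⁻¹ : (ZMod P)ˣ) : ZMod P) * ((qu⁻¹ : (ZMod P)ˣ) : ZMod P)) *
        ((q : ZMod P) * (q : ZMod P) * (x : ZMod P)) =
        (((u⁻¹ : (ZMod P)ˣ) : ZMod P) * (x : ZMod P)) * (q : ZMod P) := by
      have e3 : ((qu⁻¹ : (ZMod P)ˣ) : ZMod P) * (q : ZMod P) = 1 := by
        rw [← e1]
        exact Units.inv_mul qu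
      calc _ = (((qu⁻¹ : (ZMod P)ˣ) : ZMod P) * (q : ZMod P)) *
            ((((u⁻¹ : (ZMod P)ˣ) : ZMod P) * (x : ZMod P)) * (q : ZMod P)) := by ring
        _ = _ := by rw [e3, one_mul]
    rw [e2, mul_comm (q : ZMod P) (u : ZMod P)]
  rw [h2] at h1
  have h3 := core_sq (P := P) (L : ℝ) D (Nat.cast_nonneg _) hD
  have h4 : ∀ χ ∈ (univ : Finset (DirichletCharacter ℂ P)).erase 1,
      (P : ℝ) ^ 2 * ‖cz χ (AP P a L q ρ)‖ ^ 4 = ‖∑ a' : ZMod P, χ⁻¹ a' * g a'‖ ^ 4 := by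
    intro χ hχ
    have hχ1 := ne_of_mem_erase hχ
    rw [hg, cz_gauss χ hχ1, norm_mul, mul_pow]
    have := norm_gauss' χ hχ1
    calc _ = (‖gaussSum χ⁻¹ (ZMod.stdAddChar : AddChar (ZMod P) ℂ)‖ ^ 2) ^ 2 *
          ‖cz χ (AP P a L q ρ)‖ ^ 4 := by rw [this]
      _ = _ := by ring
  have h5 : (P : ℝ) ^ 2 * ∑ χ ∈ (univ : Finset (DirichletCharacter ℂ P)).erase 1,
      ‖cz χ (AP P a L q ρ)‖ ^ 4 ≤ P * (48 * D ^ 2 * (1 + Real.log P) ^ 2 *
        ((L : ℝ) ^ 2 * (P : ℝ) ^ 2 + (P : ℝ) ^ 3)) := by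
    rw [mul_sum, sum_congr rfl h4]
    refine le_trans (sum_le_sum_of_subset_of_nonneg (erase_subset _ _)
      (fun _ _ _ => by positivity)) (h1.trans ?_)
    exact mul_le_mul_of_nonneg_left h3 hP.le
  have h6 : (0 : ℝ) < (P : ℝ) ^ 2 := by positivity
  refine le_of_mul_le_mul_left (h5.trans (le_of_eq ?_)) h6
  ring

end Pool.Agent.V1179.MH
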