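import Pool.Agent.V1179.MH.FM2

set_option autoImplicit false

/-! # Monomial congruences in boxes: counting and variance (helper79) -/

namespace Pool.Agent.V1179.MH

open Finset

variable {P : ℕ} [Fact P.Prime]

open Classical in
/-- the points of a product set with `∏_{S} x = a ∏_{Sᶜ} x` -/
noncomputable def pts {k : ℕ} (S : Finset (Fin k)) (a : ZMod P) (A : Fin k → Finset (ZMod P)) :
    Finset (Fin k → ZMod P) :=
  (Fintype.piFinset A).filter (fun x => ∏ j ∈ S, x j = a * ∏ j ∈ Sᶜ, x j)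

/-- the monomial with exponents `±1` -/
noncomputable def mono {k : ℕ} (S : Finset (Fin k)) (x : Fin k → ZMod P) : ZMod P :=
  ∏ j, (if j ∈ S then x j else (x j)⁻¹)

lemma mono_eq {k : ℕ} (S : Finset (Fin k)) (x : Fin k → ZMod P) :
    mono S x = (∏ j ∈ S, x j) * (∏ j ∈ Sᶜ, x j)⁻¹ := by
  classical
  unfold mono
  rw [← prod_mul_prod_compl S, ← prod_inv_distrib]
  congr 1
  · exact prod_congr rfl fun j hj => by rw [if_pos hj]
  · exact prod_congr rfl fun j hj => by rw [if_neg (mem_compl.1 hj)]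

lemma mem_pts_iff {k : ℕ} (S : Finset (Fin k)) (a : ZMod P) (A : Fin k → Finset (ZMod P))
    (h0 : ∀ j, (0 : ZMod P) ∉ A j) (x : Fin k → ZMod P) (hx : ∀ j, x j ∈ A j) :
    (∏ j ∈ S, x j = a * ∏ j ∈ Sᶜ, x j) ↔ a = mono S x := by
  have hne : ∏ j ∈ Sᶜ, x j ≠ 0 := prod_ne_zero_iff.2 fun j _ h => h0 j (h ▸ hx j)
  rw [mono_eq]
  constructor
  · intro h
    rw [h, mul_assoc, mul_inv_cancel₀ hne, mul_one]
  · intro h
    rw [h, mul_assoc, inv_mul_cancel₀ hne, mul_one]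

/-- the factor of a coordinate -/
noncomputable def fc {k : ℕ} (S : Finset (Fin k)) (χ : DirichletCharacter ℂ P)
    (A : Fin k → Finset (ZMod P)) (j : Fin k) : ℂ :=
  ∑ y ∈ A j, χ (if j ∈ S then y else y⁻¹)

lemma norm_fc {k : ℕ} (S : Finset (Fin k)) (χ : DirichletCharacter ℂ P)
    (A : Fin k → Finset (ZMod P)) (j : Fin k) : ‖fc S χ A j‖ = ‖cz χ (A j)‖ := by
  unfold fc cz
  by_cases h : j ∈ S
  · simp only [h, if_true]
  · simp only [h, if_false]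
    have h1 : ∑ y ∈ A j, χ y⁻¹ = (starRingEnd ℂ) (∑ y ∈ A j, χ y) := by
      rw [map_sum]
      apply sum_congr rfl
      intro y _
      have := MulChar.star_apply' χ y
      rw [MulChar.inv_apply'] at this
      exact this.symm
    rw [h1, RCLike.norm_conj]

lemma sum_mono {k : ℕ} (S : Finset (Fin k)) (χ : DirichletCharacter ℂ P)
    (A : Fin k → Finset (ZMod P)) :
    ∑ x ∈ Fintype.piFinset A, χ (mono S x) = ∏ j, fc S χ A j := by
  unfold fc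
  rw [prod_univ_sum]
  apply sum_congr rfl
  intro x _
  unfold mono
  rw [map_prod]

lemma cz_inv (χ : DirichletCharacter ℂ P) (A : Finset (ZMod P)) : ‖cz χ⁻¹ A‖ = ‖cz χ A‖ := by
  have h1 : cz χ⁻¹ A = (starRingEnd ℂ) (cz χ A) := by
    unfold cz
    rw [map_sum]
    apply sum_congr rfl
    intro y _
    exact (MulChar.star_apply' χ y).symm
  rw [h1, RCLike.norm_conj]

lemma fc_one {k : ℕ} (S : Finset (Fin k)) (A : Fin k → Finset (ZMod P))
    (h0 : ∀ j, (0 : ZMod P) ∉ A j) (j : Fin k) :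
    fc S (1 : DirichletCharacter ℂ P) A j = (A j).card := by
  unfold fc
  rw [sum_congr rfl (g := fun _ => (1 : ℂ)), sum_const, nsmul_eq_mul, mul_one]
  intro y hy
  have hy0 : y ≠ 0 := fun h => h0 j (h ▸ hy)
  apply MulChar.one_apply
  rw [isUnit_iff_ne_zero]
  split_ifs
  · exact hy0
  · exact inv_ne_zero hy0

lemma totient_real : ((P.totient : ℕ) : ℝ) = (P : ℝ) - 1 := by
  have hp : P.Prime := Fact.out
  rw [Nat.totient_prime hp, Nat.cast_sub hp.one_le, Nat.cast_one]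

open Classical in
/-- the number of points -/
theorem count_mono {k : ℕ} (S : Finset (Fin k)) (A : Fin k → Finset (ZMod P))
    (h0 : ∀ j, (0 : ZMod P) ∉ A j) (a : ZMod P) (ha : a ≠ 0) (E : ℝ)
    (hE : ∑ χ ∈ (univ : Finset (DirichletCharacter ℂ P)).erase 1, ∏ j, ‖cz χ (A j)‖ ≤ E) :
    |((pts S a A).card : ℝ) - (∏ j, ((A j).card : ℝ)) / ((P : ℝ) - 1)| ≤ E / ((P : ℝ) - 1) := by
  have hp : P.Prime := Fact.out
  have hP1 : (0 : ℝ) < (P : ℝ) - 1 := by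
    have : (2 : ℝ) ≤ P := by exact_mod_cast hp.two_le
    linarith
  have hau : IsUnit a := isUnit_iff_ne_zero.2 ha
  have hφ : ((P.totient : ℕ) : ℂ) = (P : ℂ) - 1 := by
    exact_mod_cast congrArg (fun x : ℝ => (x : ℂ)) (totient_real (P := P))
  set N : ℕ := (pts S a A).card with hN
  have h1 : ((P : ℂ) - 1) * N = ∑ χ : DirichletCharacter ℂ P, χ a⁻¹ * ∏ j, fc S χ A j := by
    simp_rw [← sum_mono, mul_sum]
    rw [sum_comm]
    simp_rw [DirichletCharacter.sum_char_inv_mul_char_eq ℂ hau]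
    rw [hN, pts, card_filter, ← hφ]
    push_cast
    rw [mul_sum]
    apply sum_congr rfl
    intro x hx
    rw [Fintype.mem_piFinset] at hx
    have h2 := mem_pts_iff S a A h0 x hx
    by_cases h : a = mono S x
    · rw [if_pos h, if_pos (h2.2 h), mul_one]
    · rw [if_neg h, if_neg (fun h' => h (h2.1 h')), mul_zero]
  have h3 : ((P : ℂ) - 1) * N - ∏ j, ((A j).card : ℂ) =
      ∑ χ ∈ univ.erase (1 : DirichletCharacter ℂ P), χ a⁻¹ * ∏ j, fc S χ A j := by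
    rw [h1, ← add_sum_erase univ _ (mem_univ (1 : DirichletCharacter ℂ P))]
    simp_rw [fc_one S A h0]
    rw [MulChar.one_apply (by rw [isUnit_iff_ne_zero]; exact inv_ne_zero ha)]
    ring
  have h4 : ‖((P : ℂ) - 1) * N - ∏ j, ((A j).card : ℂ)‖ ≤ E := by
    rw [h3]
    refine (norm_sum_le _ _).trans (le_trans (sum_le_sum fun χ _ => ?_) hE)
    rw [norm_mul, norm_prod]
    simp_rw [norm_fc]
    exact mul_le_of_le_one_left (prod_nonneg fun _ _ => norm_nonneg _)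
      (DirichletCharacter.norm_le_one _ _)
  have h5 : ((P : ℂ) - 1) * N - ∏ j, ((A j).card : ℂ) =
      ((((P : ℝ) - 1) * N - ∏ j, ((A j).card : ℝ) : ℝ) : ℂ) := by
    push_cast
    rfl
  rw [h5, Complex.norm_real, Real.norm_eq_abs] at h4
  have h6 : (N : ℝ) - (∏ j, ((A j).card : ℝ)) / ((P : ℝ) - 1) =
      (((P : ℝ) - 1) * N - ∏ j, ((A j).card : ℝ)) / ((P : ℝ) - 1) := by
    field_simp
  rw [h6, abs_div, abs_of_pos hP1]
  exact div_le_div_of_nonneg_right h4 hP1.le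

open Classical in
/-- the variance of the number of points -/
theorem variance_mono {k : ℕ} (S : Finset (Fin k)) (A : Fin k → Finset (ZMod P))
    (h0 : ∀ j, (0 : ZMod P) ∉ A j) (E : ℝ)
    (hE : ∑ χ ∈ (univ : Finset (DirichletCharacter ℂ P)).erase 1, ∏ j, ‖cz χ (A j)‖ ^ 2 ≤ E) :
    ∑ a : (ZMod P)ˣ, (((pts S (a : ZMod P) A).card : ℝ) -
      (∏ j, ((A j).card : ℝ)) / ((P : ℝ) - 1)) ^ 2 ≤ E / ((P : ℝ) - 1) := by
  have hp : P.Prime := Fact.out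
  have hP1 : (0 : ℝ) < (P : ℝ) - 1 := by
    have : (2 : ℝ) ≤ P := by exact_mod_cast hp.two_le
    linarith
  have hφ : ((P.totient : ℕ) : ℂ) = (P : ℂ) - 1 := by
    exact_mod_cast congrArg (fun x : ℝ => (x : ℂ)) (totient_real (P := P))
  set main : ℝ := (∏ j, ((A j).card : ℝ)) / ((P : ℝ) - 1) with hmain
  set g : ZMod P → ℂ := fun a => ((((pts S a A).card : ℝ) - main : ℝ) : ℂ) with hg
  have hsum : ∀ χ : DirichletCharacter ℂ P, ∑ a : ZMod P, χ⁻¹ a * ((pts S a A).card : ℂ) =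
      ∏ j, fc S χ⁻¹ A j := by
    intro χ
    rw [← sum_mono]
    have h1 : ∀ a : ZMod P, χ⁻¹ a * ((pts S a A).card : ℂ) =
        ∑ x ∈ Fintype.piFinset A, (if a = mono S x then χ⁻¹ a else 0) := by
      intro a
      by_cases ha : a = 0
      · subst ha
        rw [MulChar.map_nonunit _ (by simp), zero_mul]
        symm
        apply sum_eq_zero
        intro x _
        split_ifs <;> rfl
      · rw [pts, card_filter]
        push_cast
        rw [mul_sum]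
        apply sum_congr rfl
        intro x hx
        rw [Fintype.mem_piFinset] at hx
        have h2 := mem_pts_iff S a A h0 x hx
        by_cases h : a = mono S x
        · rw [if_pos h, if_pos (h2.2 h), mul_one]
        · rw [if_neg h, if_neg (fun h' => h (h2.1 h')), mul_zero]
    rw [sum_congr rfl (fun a _ => h1 a), sum_comm]
    apply sum_congr rfl
    intro x _
    rw [sum_ite_eq' univ (mono S x)]
    simp
  have hchar : ∀ χ : DirichletCharacter ℂ P, ∑ a : ZMod P, χ⁻¹ a * g a =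
      (∏ j, fc S χ⁻¹ A j) - main * ∑ a : ZMod P, χ⁻¹ a := by
    intro χ
    rw [hg, ← hsum χ, mul_sum, ← sum_sub_distrib]
    apply sum_congr rfl
    intro a _
    push_cast
    ring
  have hnorm : ∀ χ ∈ (univ : Finset (DirichletCharacter ℂ P)).erase 1,
      ‖∑ a : ZMod P, χ⁻¹ a * g a‖ ^ 2 = ∏ j, ‖cz χ (A j)‖ ^ 2 := by
    intro χ hχ
    have hχ1 := ne_of_mem_erase hχ
    rw [hchar χ, MulChar.sum_eq_zero_of_ne_one (inv_ne_one.2 hχ1), mul_zero, sub_zero, norm_prod,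
      prod_pow]
    congr 1
    apply prod_congr rfl
    intro j _
    rw [norm_fc, cz_inv]
  have hone : ∑ a : ZMod P, (1 : DirichletCharacter ℂ P)⁻¹ a * g a = 0 := by
    rw [hchar 1, inv_one]
    simp_rw [fc_one S A h0]
    rw [MulChar.sum_one_eq_card_units]
    have h1 : ((Fintype.card (ZMod P)ˣ : ℕ) : ℂ) = (P : ℂ) - 1 := by
      rw [ZMod.card_units_eq_totient, hφ]
    have hPc : (P : ℂ) - 1 ≠ 0 := by
      have : (((P : ℝ) - 1 : ℝ) : ℂ) ≠ 0 := by exact_mod_cast hP1.ne'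
      push_cast at this
      exact this
    rw [h1, hmain]
    push_cast
    field_simp
    ring
  have h2 := Pool.Agent.Helper112.MLS.sum_all P g
  rw [← add_sum_erase univ _ (mem_univ (1 : DirichletCharacter ℂ P)), hone, norm_zero,
    sum_congr rfl hnorm, totient_real] at h2
  have h3 : ∀ a : (ZMod P)ˣ, ‖g (a : ZMod P)‖ ^ 2 =
      (((pts S (a : ZMod P) A).card : ℝ) - main) ^ 2 := by
    intro a
    rw [hg]
    simp only
    rw [Complex.norm_real, Real.norm_eq_abs, sq_abs]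
  rw [sum_congr rfl (fun a _ => h3 a)] at h2
  rw [le_div_iff₀ hP1, mul_comm, ← h2]
  simpa using hE

/-- the second moment -/
lemma second_cz (A : Finset (ZMod P)) (h0 : (0 : ZMod P) ∉ A) :
    ∑ χ : DirichletCharacter ℂ P, ‖cz χ A‖ ^ 2 = ((P : ℝ) - 1) * A.card := by
  classical
  have h1 := Pool.Agent.Helper112.MLS.sum_all P (fun a => if a ∈ A then (1 : ℂ) else 0)
  rw [totient_real] at h1
  have h2 : ∀ χ : DirichletCharacter ℂ P, ‖cz χ A‖ ^ 2 =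
      ‖∑ a : ZMod P, χ⁻¹ a * (if a ∈ A then (1 : ℂ) else 0)‖ ^ 2 := by
    intro χ
    rw [← cz_inv]
    congr 2
    unfold cz
    simp
  simp_rw [h2]
  rw [h1]
  congr 1
  have h3 : ∀ a : (ZMod P)ˣ, ‖(if (a : ZMod P) ∈ A then (1 : ℂ) else 0)‖ ^ 2 =
      if (a : ZMod P) ∈ A then (1 : ℝ) else 0 := by
    intro a
    split_ifs <;> simp
  simp_rw [h3]
  rw [← sum_filter, sum_const, nsmul_eq_mul, mul_one]
  congr 1
  apply card_bij (fun (a : (ZMod P)ˣ) _ => (a : ZMod P))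
  · intro a ha
    rw [mem_filter] at ha
    exact ha.2
  · intro a _ b _ hab; exact Units.ext hab
  · intro b hb
    have hb0 : b ≠ 0 := fun h => h0 (h ▸ hb)
    exact ⟨Units.mk0 b hb0, by simpa using hb, rfl⟩

/-- Cauchy's inequality twice -/
lemma cauchy4 {ι : Type*} (s : Finset ι) (f0 f1 f2 f3 : ι → ℝ) (B0 B1 B2 B3 : ℝ)
    (hB0 : 0 ≤ B0) (hB1 : 0 ≤ B1) (hB2 : 0 ≤ B2) (hB3 : 0 ≤ B3)
    (h0 : ∑ i ∈ s, f0 i ^ 4 ≤ B0 ^ 2) (h1 : ∑ i ∈ s, f1 i ^ 4 ≤ B1 ^ 2)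
    (h2 : ∑ i ∈ s, f2 i ^ 4 ≤ B2 ^ 2) (h3 : ∑ i ∈ s, f3 i ^ 4 ≤ B3 ^ 2) :
    ∑ i ∈ s, f0 i * f1 i * (f2 i * f3 i) ≤ Real.sqrt (B0 * B1 * (B2 * B3)) := by
  have key : ∀ (f g : ι → ℝ) (B C : ℝ), 0 ≤ B → 0 ≤ C → ∑ i ∈ s, f i ^ 4 ≤ B ^ 2 →
      ∑ i ∈ s, g i ^ 4 ≤ C ^ 2 → ∑ i ∈ s, (f i * g i) ^ 2 ≤ B * C := by
    intro f g B C hB hC hf hg
    have := Real.sum_mul_le_sqrt_mul_sqrt s (fun i => f i ^ 2) (fun i => g i ^ 2)
    simp only [← pow_mul] at this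
    norm_num at this
    calc ∑ i ∈ s, (f i * g i) ^ 2 = ∑ i ∈ s, f i ^ 2 * g i ^ 2 := by simp_rw [mul_pow]
      _ ≤ _ := this
      _ ≤ Real.sqrt (B ^ 2) * Real.sqrt (C ^ 2) :=
          mul_le_mul (Real.sqrt_le_sqrt hf) (Real.sqrt_le_sqrt hg) (Real.sqrt_nonneg _)
            (Real.sqrt_nonneg _)
      _ = B * C := by rw [Real.sqrt_sq hB, Real.sqrt_sq hC]
  refine (Real.sum_mul_le_sqrt_mul_sqrt s (fun i => f0 i * f1 i) (fun i => f2 i * f3 i)).trans ?_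
  rw [Real.sqrt_mul (mul_nonneg hB0 hB1)]
  exact mul_le_mul (Real.sqrt_le_sqrt (key f0 f1 B0 B1 hB0 hB1 h0 h1))
    (Real.sqrt_le_sqrt (key f2 f3 B2 B3 hB2 hB3 h2 h3)) (Real.sqrt_nonneg _) (Real.sqrt_nonneg _)

lemma cauchy2 {ι : Type*} (s : Finset ι) (f0 f1 : ι → ℝ) (B0 B1 : ℝ)
    (hB0 : 0 ≤ B0) (hB1 : 0 ≤ B1)
    (h0 : ∑ i ∈ s, f0 i ^ 4 ≤ B0 ^ 2) (h1 : ∑ i ∈ s, f1 i ^ 4 ≤ B1 ^ 2) :
    ∑ i ∈ s, f0 i ^ 2 * f1 i ^ 2 ≤ B0 * B1 := by
  have := Real.sum_mul_le_sqrt_mul_sqrt s (fun i => f0 i ^ 2) (fun i => f1 i ^ 2)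
  simp only [← pow_mul] at this
  norm_num at this
  calc ∑ i ∈ s, f0 i ^ 2 * f1 i ^ 2 ≤ _ := this
    _ ≤ Real.sqrt (B0 ^ 2) * Real.sqrt (B1 ^ 2) :=
        mul_le_mul (Real.sqrt_le_sqrt h0) (Real.sqrt_le_sqrt h1) (Real.sqrt_nonneg _)
          (Real.sqrt_nonneg _)
    _ = B0 * B1 := by rw [Real.sqrt_sq hB0, Real.sqrt_sq hB1]

lemma cauchy3 {ι : Type*} (s : Finset ι) (f0 f1 f2 : ι → ℝ) (B0 B1 C : ℝ)
    (hB0 : 0 ≤ B0) (hB1 : 0 ≤ B1)
    (h0 : ∑ i ∈ s, f0 i ^ 4 ≤ B0 ^ 2) (h1 : ∑ i ∈ s, f1 i ^ 4 ≤ B1 ^ 2)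
    (h2 : ∑ i ∈ s, f2 i ^ 2 ≤ C) :
    ∑ i ∈ s, f0 i * f1 i * f2 i ≤ Real.sqrt (B0 * B1 * C) := by
  have hk := cauchy2 s f0 f1 B0 B1 hB0 hB1 h0 h1
  refine (Real.sum_mul_le_sqrt_mul_sqrt s (fun i => f0 i * f1 i) f2).trans ?_
  rw [Real.sqrt_mul (mul_nonneg hB0 hB1)]
  simp only [mul_pow]
  exact mul_le_mul (Real.sqrt_le_sqrt hk) (Real.sqrt_le_sqrt h2) (Real.sqrt_nonneg _)
    (Real.sqrt_nonneg _)

end Pool.Agent.V1179.MH
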