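import Pool.Agent.V1179.MH.FM3
import Pool.Agent.V1179.MH.BG4

set_option autoImplicit false

/-! # Monomial congruences in boxes: the criterion (helper79) -/

namespace Pool.Agent.V1179.MH

open Finset Filter
open Pool.Agent.W147.PS (ff ff_compare ev_pow)

lemma AP_mod {P a L q : ℕ} [NeZero P] (haL : a + L ≤ P) (ρ : ℤ) :
    AP P a L q ρ = AP P a L q (ρ % q) := by
  ext x
  rw [mem_AP haL, mem_AP haL]
  have h : (q : ℤ) ∣ (x.val : ℤ) - ρ ↔ (q : ℤ) ∣ (x.val : ℤ) - ρ % q := by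
    have h1 : (x.val : ℤ) - ρ % q = ((x.val : ℤ) - ρ) + q * (ρ / q) := by
      have := Int.emod_add_mul_ediv ρ q
      linarith
    rw [h1]
    exact (dvd_add_left (dvd_mul_right _ _)).symm
  rw [h]

/-- the criterion for monomials in boxes -/
theorem mono_crit (k : ℕ) (hk : 1 ≤ k) (θ : ℝ) (h0 : 0 < θ) (h1 : θ ≤ 1 / 16) :
    ∃ κ : ℝ, 0 < κ ∧ ∃ P₀ : ℕ, ∀ P : ℕ, P₀ ≤ P → ∀ [Fact P.Prime],
    ∀ (S : Finset (Fin k)) (a : ZMod P) (M L : Fin k → ℕ), (∀ j, M j + L j ≤ P) →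
    (∀ j, (P : ℝ) ^ θ ≤ M j) → (∀ j, (P : ℝ) ^ (1 / 4 : ℝ) ≤ L j) →
    (∀ q : ℕ, 1 ≤ q → (q : ℝ) ≤ (P : ℝ) ^ θ → ∀ ρ : Fin k → ℤ,
      |((pts S a (fun j => AP P (M j) (L j) q (ρ j))).card : ℝ) -
        (∏ j, ((AP P (M j) (L j) q (ρ j)).card : ℝ)) / ((P : ℝ) - 1)| ≤
        (P : ℝ) ^ (-(2 * θ)) * ((∏ j, (L j : ℝ)) / ((P : ℝ) - 1))) →
    ∃ x : Fin k → ZMod P, (∀ j, M j ≤ (x j).val ∧ (x j).val < M j + L j) ∧
      ∏ j ∈ S, x j = a * ∏ j ∈ Sᶜ, x j ∧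
      ∀ j, ∀ q : ℕ, q.Prime → κ * ff P < |(q : ℝ) - (x j).val| := by
  classical
  obtain ⟨κ, hκ, P₁, hc⟩ := crit_int k hk θ h0 (by linarith)
  have hev : ∀ᶠ P : ℝ in atTop, 2 ≤ P ∧ (8 * k : ℝ) * P ^ θ ≤ P ^ (1 / 4 : ℝ) ∧ 8 ≤ P ^ θ := by
    filter_upwards [eventually_ge_atTop (2 : ℝ), ev_pow θ (1 / 4) (8 * k) (by linarith),
      (tendsto_rpow_atTop h0).eventually_ge_atTop 8] with P a1 a2 a3
    exact ⟨a1, a2, a3⟩
  obtain ⟨Z, hZ⟩ := eventually_atTop.1 hev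
  refine ⟨κ, hκ, max P₁ ⌈Z⌉₊, ?_⟩
  intro P hP _ S a M L hML hM hL hcount
  have hPp : P.Prime := Fact.out
  obtain ⟨n1, n2, n3⟩ := hZ P (Nat.ceil_le.1 ((le_max_right _ _).trans hP))
  have hP1 : (1 : ℝ) ≤ P := by linarith
  have hP0 : (0 : ℝ) < P := by linarith
  have hP10 : (0 : ℝ) < (P : ℝ) - 1 := by linarith
  have hmono : ∀ x y : ℝ, x ≤ y → (P : ℝ) ^ x ≤ (P : ℝ) ^ y := fun x y h =>
    Real.rpow_le_rpow_of_exponent_le hP1 h
  have hq14 : (1 : ℝ) ≤ (P : ℝ) ^ (1 / 4 : ℝ) := Real.one_le_rpow hP1 (by norm_num)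
  have hL0 : ∀ j, (0 : ℝ) < L j := fun j => by linarith [hL j]
  set Lp : ℝ := ∏ j, (L j : ℝ) with hLp
  have hLp0 : 0 < Lp := prod_pos fun j _ => hL0 j
  set W : ℝ := Lp / ((P : ℝ) - 1) with hW
  have hW0 : 0 < W := by positivity
  set δ : ℝ := (P : ℝ) ^ (-(1 / 4) : ℝ) with hδ
  have hδ0 : 0 < δ := Real.rpow_pos_of_pos hP0 _
  set Δ : ℝ := k * δ + (P : ℝ) ^ (-(2 * θ)) with hΔ
  have hΔ0 : 0 ≤ Δ := by positivity
  have hΔθ : 4 * Δ ≤ (P : ℝ) ^ (-θ) := by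
    have e1 : (P : ℝ) ^ (-θ) = (P : ℝ) ^ (-(2 * θ)) * (P : ℝ) ^ θ := by
      rw [← Real.rpow_add hP0]; congr 1; ring
    have e2 : 8 * (P : ℝ) ^ (-(2 * θ)) ≤ (P : ℝ) ^ (-θ) := by
      rw [e1]
      have : 0 < (P : ℝ) ^ (-(2 * θ)) := Real.rpow_pos_of_pos hP0 _
      nlinarith
    have e3 : (P : ℝ) ^ (-θ) = δ * ((P : ℝ) ^ (1 / 4 : ℝ) * (P : ℝ) ^ (-θ)) := by
      rw [hδ, ← mul_assoc, ← Real.rpow_add hP0]
      norm_num
    have e4 : (8 * k : ℝ) ≤ (P : ℝ) ^ (1 / 4 : ℝ) * (P : ℝ) ^ (-θ) := by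
      rw [Real.rpow_neg hP0.le, ← div_eq_mul_inv, le_div_iff₀ (Real.rpow_pos_of_pos hP0 _)]
      exact n2
    have e5 : 8 * (k * δ) ≤ (P : ℝ) ^ (-θ) := by
      rw [e3]
      nlinarith
    rw [hΔ]
    linarith
  set t : Finset (Fin k → ZMod P) := pts S a (fun j => AP P (M j) (L j) 1 0) with ht
  have htq : ∀ (q : ℕ) (ρ : Fin k → ℤ),
      t.filter (fun x => ∀ j, (q : ℤ) ∣ (((x j).val : ℕ) : ℤ) - ρ j) =
      pts S a (fun j => AP P (M j) (L j) q (ρ j)) := by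
    intro q ρ
    ext x
    simp only [ht, pts, mem_filter, Fintype.mem_piFinset]
    constructor
    · rintro ⟨⟨f1, f2⟩, f3⟩
      refine ⟨fun j => ?_, f2⟩
      have := (mem_AP (hML j) 0 (x j)).1 (f1 j)
      exact (mem_AP (hML j) _ (x j)).2 ⟨this.1, f3 j⟩
    · rintro ⟨f1, f2⟩
      refine ⟨⟨fun j => ?_, f2⟩, fun j => ((mem_AP (hML j) _ (x j)).1 (f1 j)).2⟩
      have := (mem_AP (hML j) _ (x j)).1 (f1 j)
      exact (mem_AP (hML j) 0 (x j)).2 ⟨this.1, by simp⟩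
  obtain ⟨x, hx, hx1⟩ := hc P ((le_max_left _ _).trans hP) hPp (Fin k → ZMod P) t
    (fun x j => (((x j).val : ℕ) : ℤ)) W Δ hW0 hΔ0 hΔθ (by
      intro q hq hqP ρ
      have hq1 : (1 : ℝ) ≤ q := by exact_mod_cast hq
      rw [htq q ρ]
      have g1 := hcount q hq hqP ρ
      have g2 := prod_diff k (fun j => ((AP P (M j) (L j) q (ρ j)).card : ℝ))
        (fun j => (L j : ℝ) / q) (fun j => (L j : ℝ)) δ hδ0.le
        (fun j => ⟨Nat.cast_nonneg _, by exact_mod_cast card_AP_le (ρ j)⟩)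
        (fun j => ⟨by positivity, div_le_self (hL0 j).le hq1⟩)
        (fun j => by
          refine (card_AP (hML j) hq (ρ j)).trans ?_
          have e1 := mul_le_mul_of_nonneg_left (hL j) hδ0.le
          have e2 : δ * (P : ℝ) ^ (1 / 4 : ℝ) = 1 := by
            rw [hδ, ← Real.rpow_add hP0]
            norm_num
          linarith)
      rw [prod_div_distrib, prod_const, card_univ, Fintype.card_fin] at g2
      have g3 : |(∏ j, ((AP P (M j) (L j) q (ρ j)).card : ℝ)) / ((P : ℝ) - 1) -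
          W / (q : ℝ) ^ k| ≤ k * δ * W := by
        have e1 : (∏ j, ((AP P (M j) (L j) q (ρ j)).card : ℝ)) / ((P : ℝ) - 1) -
            W / (q : ℝ) ^ k = ((∏ j, ((AP P (M j) (L j) q (ρ j)).card : ℝ)) -
            Lp / (q : ℝ) ^ k) / ((P : ℝ) - 1) := by
          rw [hW]
          field_simp
        rw [e1, abs_div, abs_of_pos hP10]
        calc _ ≤ k * δ * Lp / ((P : ℝ) - 1) := div_le_div_of_nonneg_right g2 hP10.le
          _ = _ := by rw [hW]; ring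
      have g4 : W * Δ = (P : ℝ) ^ (-(2 * θ)) * W + k * δ * W := by rw [hΔ]; ring
      rw [g4]
      refine (abs_sub_le _ ((∏ j, ((AP P (M j) (L j) q (ρ j)).card : ℝ)) / ((P : ℝ) - 1)) _).trans ?_
      exact add_le_add g1 g3)
    (by
      intro x hx j
      simp only [ht, pts, mem_filter, Fintype.mem_piFinset] at hx
      have h3 := ((mem_AP (hML j) 0 (x j)).1 (hx.1 j)).1.1
      have h4 : (M j : ℝ) ≤ ((x j).val : ℝ) := by exact_mod_cast h3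
      push_cast
      linarith [hM j])
  simp only [ht, pts, mem_filter, Fintype.mem_piFinset] at hx
  refine ⟨x, ?_, hx.2, ?_⟩
  · intro j
    exact ((mem_AP (hML j) 0 (x j)).1 (hx.1 j)).1
  · intro j q hq
    have := hx1 j q hq
    simpa using this

/-- cutting off a short initial part -/
lemma cutbox (θ : ℝ) (h1 : θ ≤ 1 / 16) :
    ∃ Z : ℝ, ∀ P : ℕ, Z ≤ P → ∀ (k : ℕ) (M L : Fin k → ℕ), (∀ j, M j + L j ≤ P) →
    (∀ j, Real.sqrt P ≤ L j) → ∃ M' L' : Fin k → ℕ, ∀ j, M j ≤ M' j ∧ M' j + L' j = M j + L j ∧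
      (P : ℝ) ^ θ ≤ M' j ∧ (L j : ℝ) ≤ 2 * L' j := by
  have hev : ∀ᶠ P : ℝ in atTop, 1 ≤ P ∧ (2 : ℝ) * P ^ θ ≤ P ^ (1 / 4 : ℝ) ∧
      4 ≤ P ^ (1 / 4 : ℝ) := by
    filter_upwards [eventually_ge_atTop (1 : ℝ), ev_pow θ (1 / 4) 2 (by linarith),
      (tendsto_rpow_atTop (show (0 : ℝ) < 1 / 4 by norm_num)).eventually_ge_atTop 4]
      with P a1 a2 a3
    exact ⟨a1, a2, a3⟩
  obtain ⟨Z, hZ⟩ := eventually_atTop.1 hev
  refine ⟨Z, fun P hP k M L hML hL => ?_⟩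
  obtain ⟨hP1, n2, n3⟩ := hZ P hP
  have hP0 : (0 : ℝ) < P := by linarith
  set c : ℕ := ⌈(P : ℝ) ^ θ⌉₊ with hc
  have hθ0 : 0 < (P : ℝ) ^ θ := Real.rpow_pos_of_pos hP0 _
  have hc1 : (P : ℝ) ^ θ ≤ c := Nat.le_ceil _
  have hc2 : (c : ℝ) < (P : ℝ) ^ θ + 1 := Nat.ceil_lt_add_one hθ0.le
  have hsq : Real.sqrt P = (P : ℝ) ^ (1 / 4 : ℝ) * (P : ℝ) ^ (1 / 4 : ℝ) := by
    rw [Real.sqrt_eq_rpow, ← Real.rpow_add hP0]; norm_num
  have hcL : ∀ j, 2 * c ≤ L j := by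
    intro j
    have h5 := hL j
    rw [hsq] at h5
    have : (2 * (c : ℝ)) ≤ L j := by nlinarith
    exact_mod_cast this
  refine ⟨fun j => max (M j) c, fun j => M j + L j - max (M j) c, fun j => ?_⟩
  have h5 := hcL j
  have h6 : max (M j) c ≤ M j + L j := max_le (by omega) (by omega)
  have h7 : max (M j) c ≤ M j + c := max_le (by omega) (by omega)
  refine ⟨le_max_left _ _, by simp only; omega, ?_, ?_⟩
  · refine hc1.trans ?_
    exact_mod_cast le_max_right _ _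
  · have : L j ≤ 2 * (M j + L j - max (M j) c) := by omega
    exact_mod_cast this

/-- the divisor bound and logarithms are small -/
lemma small (η : ℝ) (hη : 0 < η) : ∃ Z : ℝ, ∀ P : ℕ, Z ≤ P → ∃ D : ℝ, 0 ≤ D ∧
    (∀ N : ℕ, 1 ≤ N → N ≤ 2 * P ^ 2 → (N.divisors.card : ℝ) ≤ D) ∧
    256 * D ^ 2 * (1 + Real.log P) ^ 2 ≤ (P : ℝ) ^ η ∧
    (2 + Real.log P) ^ 2 ≤ (P : ℝ) ^ η := by
  obtain ⟨C, hC, hdiv⟩ := H353.divisor_bound_real (η / 16) (by positivity)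
  have hev : ∀ᶠ P : ℝ in atTop, 2 ≤ P ∧ (2 + 16 / η) * P ^ (η / 16) ≤ P ^ (η / 8) ∧
      256 * C ^ 2 ≤ P ^ (η / 4) := by
    filter_upwards [eventually_ge_atTop (2 : ℝ), ev_pow (η / 16) (η / 8) (2 + 16 / η) (by linarith),
      (tendsto_rpow_atTop (show (0 : ℝ) < η / 4 by positivity)).eventually_ge_atTop (256 * C ^ 2)]
      with P a1 a2 a3
    exact ⟨a1, a2, a3⟩
  obtain ⟨Z, hZ⟩ := eventually_atTop.1 hev
  refine ⟨Z, fun P hP => ?_⟩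
  obtain ⟨n1, n2, n3⟩ := hZ P hP
  have hP1 : (1 : ℝ) ≤ P := by linarith
  have hP0 : (0 : ℝ) < P := by linarith
  have hmono : ∀ x y : ℝ, x ≤ y → (P : ℝ) ^ x ≤ (P : ℝ) ^ y := fun x y h =>
    Real.rpow_le_rpow_of_exponent_le hP1 h
  have hlog0 : 0 ≤ Real.log P := Real.log_nonneg hP1
  have hlog : 2 + Real.log P ≤ (P : ℝ) ^ (η / 8) := by
    have e1 := Real.log_le_rpow_div hP0.le (show (0 : ℝ) < η / 16 by positivity)
    have e2 : 1 ≤ (P : ℝ) ^ (η / 16) := Real.one_le_rpow hP1 (by positivity)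
    have e3 : (P : ℝ) ^ (η / 16) / (η / 16) = 16 / η * (P : ℝ) ^ (η / 16) := by
      field_simp
    rw [e3] at e1
    nlinarith
  have hlog2 : (2 + Real.log P) ^ 2 ≤ (P : ℝ) ^ (η / 4) := by
    calc (2 + Real.log P) ^ 2 ≤ ((P : ℝ) ^ (η / 8)) ^ 2 := pow_le_pow_left₀ (by linarith) hlog 2
      _ = _ := by
          rw [← Real.rpow_natCast, ← Real.rpow_mul hP0.le]
          congr 1
          push_cast
          ring
  refine ⟨C * (P : ℝ) ^ (3 * η / 16), by positivity, ?_, ?_, ?_⟩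
  · intro N hN1 hN2
    refine (hdiv N (by omega)).trans ?_
    apply mul_le_mul_of_nonneg_left _ hC.le
    have h1 : (N : ℝ) ≤ (P : ℝ) ^ (3 : ℝ) := by
      have e1 : (N : ℝ) ≤ 2 * (P : ℝ) ^ 2 := by exact_mod_cast hN2
      have e2 : (P : ℝ) ^ (3 : ℝ) = (P : ℝ) ^ 3 := by
        rw [← Real.rpow_natCast]
        norm_num
      rw [e2]
      nlinarith [sq_nonneg (P : ℝ)]
    calc (N : ℝ) ^ (η / 16) ≤ ((P : ℝ) ^ (3 : ℝ)) ^ (η / 16) :=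
          Real.rpow_le_rpow (Nat.cast_nonneg _) h1 (by positivity)
      _ = _ := by
          rw [← Real.rpow_mul hP0.le]
          congr 1
          ring
  · have e1 : (1 + Real.log P) ^ 2 ≤ (P : ℝ) ^ (η / 4) :=
      (pow_le_pow_left₀ (by linarith) (by linarith) 2).trans hlog2
    have e2 : (C * (P : ℝ) ^ (3 * η / 16)) ^ 2 = C ^ 2 * (P : ℝ) ^ (3 * η / 8) := by
      rw [mul_pow, ← Real.rpow_natCast ((P : ℝ) ^ (3 * η / 16)), ← Real.rpow_mul hP0.le]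
      congr 2
      push_cast
      ring
    rw [e2]
    have h3 : 0 < (P : ℝ) ^ (3 * η / 8) := Real.rpow_pos_of_pos hP0 _
    calc 256 * (C ^ 2 * (P : ℝ) ^ (3 * η / 8)) * (1 + Real.log P) ^ 2 =
          (256 * C ^ 2) * (P : ℝ) ^ (3 * η / 8) * (1 + Real.log P) ^ 2 := by ring
      _ ≤ (P : ℝ) ^ (η / 4) * (P : ℝ) ^ (3 * η / 8) * (P : ℝ) ^ (η / 4) := by
          gcongr
      _ = (P : ℝ) ^ (η / 4 + 3 * η / 8 + η / 4) := by
          rw [Real.rpow_add hP0, Real.rpow_add hP0]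
      _ ≤ _ := hmono _ _ (by linarith)
  · exact hlog2.trans (hmono _ _ (by linarith))

/-- the bounds for the character sums in the form used below -/
lemma cz_bounds (η : ℝ) (hη : 0 < η) : ∃ Z : ℝ, ∀ P : ℕ, Z ≤ P → ∀ [Fact P.Prime],
    ∀ (a L q : ℕ) (ρ : ℤ), a + L ≤ P → 1 ≤ q → Nat.Coprime P q → Real.sqrt P ≤ 2 * L →
    ∑ χ ∈ (univ : Finset (DirichletCharacter ℂ P)).erase 1, ‖cz χ (AP P a L q ρ)‖ ^ 4 ≤
      ((P : ℝ) ^ ((1 + η) / 2) * L) ^ 2 ∧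
    ∀ χ : DirichletCharacter ℂ P, χ ≠ 1 → ‖cz χ (AP P a L q ρ)‖ ≤ (P : ℝ) ^ ((1 + η) / 2) := by
  classical
  obtain ⟨Z, hZ⟩ := small η hη
  refine ⟨max Z 1, fun P hP _ a L q ρ haL hq hqP hL => ?_⟩
  obtain ⟨D, hD0, hD, hd1, hd2⟩ := hZ P ((le_max_left _ _).trans hP)
  have hP1 : (1 : ℝ) ≤ P := (le_max_right _ _).trans hP
  have hP0 : (0 : ℝ) < P := by linarith
  have hb : ((P : ℝ) ^ ((1 + η) / 2)) ^ 2 = (P : ℝ) * (P : ℝ) ^ η := by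
    rw [← Real.rpow_natCast, ← Real.rpow_mul hP0.le]
    have : (1 + η) / 2 * ((2 : ℕ) : ℝ) = 1 + η := by push_cast; ring
    rw [this, Real.rpow_add hP0, Real.rpow_one]
  have hPη : 0 < (P : ℝ) ^ η := Real.rpow_pos_of_pos hP0 _
  constructor
  · refine (fourth_AP D hD haL hq hqP ρ).trans ?_
    have h1 : (P : ℝ) ≤ 4 * (L : ℝ) ^ 2 := by
      have e1 : (P : ℝ) = Real.sqrt P ^ 2 := (Real.sq_sqrt hP0.le).symm
      rw [e1]
      calc Real.sqrt P ^ 2 ≤ (2 * (L : ℝ)) ^ 2 := pow_le_pow_left₀ (Real.sqrt_nonneg _) hL 2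
        _ = _ := by ring
    have h2 : (P : ℝ) * (L : ℝ) ^ 2 + (P : ℝ) ^ 2 ≤ 5 * (P * (L : ℝ) ^ 2) := by nlinarith
    have h3 : 0 ≤ D ^ 2 * (1 + Real.log P) ^ 2 := by positivity
    calc 48 * D ^ 2 * (1 + Real.log P) ^ 2 * ((P : ℝ) * (L : ℝ) ^ 2 + (P : ℝ) ^ 2) ≤
          48 * D ^ 2 * (1 + Real.log P) ^ 2 * (5 * (P * (L : ℝ) ^ 2)) :=
          mul_le_mul_of_nonneg_left h2 (by positivity)
      _ = 240 * (D ^ 2 * (1 + Real.log P) ^ 2) * (P * (L : ℝ) ^ 2) := by ring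
      _ ≤ 256 * (D ^ 2 * (1 + Real.log P) ^ 2) * (P * (L : ℝ) ^ 2) := by
          apply mul_le_mul_of_nonneg_right _ (by positivity)
          linarith
      _ = (256 * D ^ 2 * (1 + Real.log P) ^ 2) * (P * (L : ℝ) ^ 2) := by ring
      _ ≤ (P : ℝ) ^ η * (P * (L : ℝ) ^ 2) := mul_le_mul_of_nonneg_right hd1 (by positivity)
      _ = _ := by rw [mul_pow, hb]; ring
  · intro χ hχ
    refine (cz_pv haL hq hqP ρ χ hχ).trans ?_
    have h1 : 0 ≤ 2 + Real.log P := by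
      have := Real.log_nonneg hP1
      linarith
    have h2 : (Real.sqrt P * (2 + Real.log P)) ^ 2 ≤ ((P : ℝ) ^ ((1 + η) / 2)) ^ 2 := by
      rw [hb, mul_pow, Real.sq_sqrt hP0.le]
      exact mul_le_mul_of_nonneg_left hd2 hP0.le
    exact le_of_sq_le_sq h2 (by positivity) |>.trans le_rfl

end Pool.Agent.V1179.MH
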