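import Pool.Agent.V1179.MH.FM4

set_option autoImplicit false

/-! # Monomial congruences in boxes: every class for `k ≥ 3` coordinates (helper79) -/

namespace Pool.Agent.V1179.MH

open Finset Filter
open Pool.Agent.W147.PS (ff ff_compare ev_pow)

lemma fin_prod_split (m : ℕ) (f : Fin (m + 4) → ℝ) : ∏ j, f j =
    f 0 * f 1 * (f 2 * f 3) * ∏ j : Fin m, f j.succ.succ.succ.succ := by
  rw [Fin.prod_univ_succ, Fin.prod_univ_succ, Fin.prod_univ_succ, Fin.prod_univ_succ]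
  have e1 : (Fin.succ (0 : Fin (m + 3))) = (1 : Fin (m + 4)) := rfl
  have e2 : (Fin.succ (Fin.succ (0 : Fin (m + 2)))) = (2 : Fin (m + 4)) := rfl
  have e3 : (Fin.succ (Fin.succ (Fin.succ (0 : Fin (m + 1))))) = (3 : Fin (m + 4)) := rfl
  rw [e1, e2, e3]
  ring

/-- the case of at least four coordinates: bound for the sum over characters -/
lemma sum4 {P : ℕ} [Fact P.Prime] (m : ℕ) (A : Fin (m + 4) → Finset (ZMod P)) (b : ℝ) (hb : 0 ≤ b)
    (L : Fin (m + 4) → ℝ) (hL : ∀ j, 0 ≤ L j)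
    (h4 : ∀ j, ∑ χ ∈ (univ : Finset (DirichletCharacter ℂ P)).erase 1, ‖cz χ (A j)‖ ^ 4 ≤
      (b * L j) ^ 2)
    (hs : ∀ j, ∀ χ : DirichletCharacter ℂ P, χ ≠ 1 → ‖cz χ (A j)‖ ≤ b) :
    ∑ χ ∈ (univ : Finset (DirichletCharacter ℂ P)).erase 1, ∏ j, ‖cz χ (A j)‖ ≤
      b ^ m * Real.sqrt (b * L 0 * (b * L 1) * (b * L 2 * (b * L 3))) := by
  classical
  have h1 : ∀ χ ∈ (univ : Finset (DirichletCharacter ℂ P)).erase 1, ∏ j, ‖cz χ (A j)‖ ≤
      b ^ m * (‖cz χ (A 0)‖ * ‖cz χ (A 1)‖ * (‖cz χ (A 2)‖ * ‖cz χ (A 3)‖)) := by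
    intro χ hχ
    rw [fin_prod_split, mul_comm]
    apply mul_le_mul_of_nonneg_right _ (by positivity)
    calc ∏ j : Fin m, ‖cz χ (A j.succ.succ.succ.succ)‖ ≤ ∏ _j : Fin m, b :=
          prod_le_prod (fun _ _ => norm_nonneg _) (fun j _ => hs _ χ (ne_of_mem_erase hχ))
      _ = b ^ m := by rw [prod_const, card_univ, Fintype.card_fin]
  refine (sum_le_sum h1).trans ?_
  rw [← mul_sum]
  apply mul_le_mul_of_nonneg_left _ (by positivity)
  exact cauchy4 _ _ _ _ _ _ _ _ _ (mul_nonneg hb (hL _)) (mul_nonneg hb (hL _))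
    (mul_nonneg hb (hL _)) (mul_nonneg hb (hL _)) (h4 0) (h4 1) (h4 2) (h4 3)

/-- the case of three coordinates -/
lemma sum3 {P : ℕ} [Fact P.Prime] (A : Fin 3 → Finset (ZMod P)) (h0 : (0 : ZMod P) ∉ A 2)
    (b : ℝ) (hb : 0 ≤ b)
    (L : Fin 3 → ℝ) (hL : ∀ j, 0 ≤ L j) (hA : ((A 2).card : ℝ) ≤ L 2)
    (h4 : ∀ j, ∑ χ ∈ (univ : Finset (DirichletCharacter ℂ P)).erase 1, ‖cz χ (A j)‖ ^ 4 ≤
      (b * L j) ^ 2) :
    ∑ χ ∈ (univ : Finset (DirichletCharacter ℂ P)).erase 1, ∏ j, ‖cz χ (A j)‖ ≤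
      Real.sqrt (b * L 0 * (b * L 1) * (P * L 2)) := by
  classical
  have h1 : ∀ χ ∈ (univ : Finset (DirichletCharacter ℂ P)).erase 1, ∏ j, ‖cz χ (A j)‖ =
      ‖cz χ (A 0)‖ * ‖cz χ (A 1)‖ * ‖cz χ (A 2)‖ := by
    intro χ _
    rw [Fin.prod_univ_three]
  rw [sum_congr rfl h1]
  have h2 : ∑ χ ∈ (univ : Finset (DirichletCharacter ℂ P)).erase 1, ‖cz χ (A 2)‖ ^ 2 ≤
      P * L 2 := by
    refine (sum_le_sum_of_subset_of_nonneg (erase_subset _ _)
      (fun _ _ _ => by positivity)).trans ?_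
    rw [second_cz (A 2) h0]
    have hP1 : (1 : ℝ) ≤ P := by exact_mod_cast (Fact.out : P.Prime).one_le
    exact mul_le_mul (by linarith) hA (Nat.cast_nonneg _) (by linarith)
  exact cauchy3 _ _ _ _ _ _ _ (mul_nonneg hb (hL _)) (mul_nonneg hb (hL _)) (h4 0) (h4 1) h2

/-- comparison for at least four coordinates -/
lemma comp4 (m : ℕ) (p η θ ε b : ℝ) (hp : 1 ≤ p) (hb : b = p ^ ((1 + η) / 2))
    (hηθ : (m + 2 : ℝ) * η + 4 * θ + ε / 4 ≤ ε) (h2 : (2 : ℝ) ^ m ≤ p ^ (ε / 4))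
    (L : Fin (m + 4) → ℝ) (hL : ∀ j, Real.sqrt p ≤ 2 * L j)
    (hprod : p ^ (((m + 4 : ℕ) : ℝ) / 2 + ε) ≤ ∏ j, L j) :
    b ^ m * Real.sqrt (b * L 0 * (b * L 1) * (b * L 2 * (b * L 3))) ≤
      p ^ (-(2 * θ)) * ∏ j, L j := by
  have hp0 : 0 < p := by linarith
  have hmono : ∀ x y : ℝ, x ≤ y → p ^ x ≤ p ^ y := fun x y h =>
    Real.rpow_le_rpow_of_exponent_le hp h
  have hb0 : 0 < b := by rw [hb]; exact Real.rpow_pos_of_pos hp0 _
  have hsp : 0 < Real.sqrt p := Real.sqrt_pos.2 hp0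
  have hL0 : ∀ j, 0 < L j := fun j => by linarith [hL j]
  set X : ℝ := ∏ j, L j with hX
  have hX0 : 0 < X := prod_pos fun j _ => hL0 j
  set Q : ℝ := L 0 * L 1 * (L 2 * L 3) with hQ
  set R : ℝ := ∏ j : Fin m, L j.succ.succ.succ.succ with hR
  have hQ0 : 0 < Q := by
    have := hL0 0; have := hL0 1; have := hL0 2; have := hL0 3
    positivity
  have hXQR : X = Q * R := by rw [hX, fin_prod_split]
  have hRlow : (Real.sqrt p / 2) ^ m ≤ R := by
    calc (Real.sqrt p / 2) ^ m = ∏ _j : Fin m, (Real.sqrt p / 2) := by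
          rw [prod_const, card_univ, Fintype.card_fin]
      _ ≤ R := prod_le_prod (fun _ _ => by positivity) (fun j _ => by linarith [hL j.succ.succ.succ.succ])
  have hsqm : (Real.sqrt p / 2) ^ m * 2 ^ m = p ^ ((m : ℝ) / 2) := by
    rw [← mul_pow, div_mul_cancel₀ _ (by norm_num : (2 : ℝ) ≠ 0), Real.sqrt_eq_rpow,
      ← Real.rpow_natCast, ← Real.rpow_mul hp0.le]
    congr 1
    ring
  -- the square
  have hkey : (b ^ m) ^ 2 * (b * L 0 * (b * L 1) * (b * L 2 * (b * L 3))) ≤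
      (p ^ (-(2 * θ)) * X) ^ 2 := by
    have e1 : (b ^ m) ^ 2 * (b * L 0 * (b * L 1) * (b * L 2 * (b * L 3))) =
        (b ^ 2) ^ (m + 2) * Q := by rw [hQ]; ring
    have e2 : (b ^ 2) ^ (m + 2) = p ^ ((1 + η) * (m + 2)) := by
      rw [hb, ← Real.rpow_natCast (p ^ ((1 + η) / 2)), ← Real.rpow_mul hp0.le,
        ← Real.rpow_natCast, ← Real.rpow_mul hp0.le]
      congr 1
      push_cast
      ring
    have e3 : (p ^ (-(2 * θ)) * X) ^ 2 = p ^ (-(4 * θ)) * (X * R) * Q := by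
      rw [mul_pow, ← Real.rpow_natCast (p ^ (-(2 * θ))), ← Real.rpow_mul hp0.le]
      have : -(2 * θ) * ((2 : ℕ) : ℝ) = -(4 * θ) := by push_cast; ring
      rw [this, show X ^ 2 = X * R * Q by rw [sq]; nth_rewrite 2 [hXQR]; ring]
      ring
    rw [e1, e2, e3]
    apply mul_le_mul_of_nonneg_right _ hQ0.le
    have e4 : p ^ ((1 + η) * (m + 2)) * 2 ^ m ≤ (p ^ (-(4 * θ)) * (X * R)) * 2 ^ m := by
      calc p ^ ((1 + η) * (m + 2)) * 2 ^ m ≤ p ^ ((1 + η) * (m + 2)) * p ^ (ε / 4) :=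
            mul_le_mul_of_nonneg_left h2 (Real.rpow_nonneg hp0.le _)
        _ = p ^ ((1 + η) * (m + 2) + ε / 4) := by rw [Real.rpow_add hp0]
        _ ≤ p ^ (-(4 * θ) + (((m + 4 : ℕ) : ℝ) / 2 + ε) + (m : ℝ) / 2) := by
            apply hmono
            push_cast
            linarith
        _ = p ^ (-(4 * θ)) * p ^ (((m + 4 : ℕ) : ℝ) / 2 + ε) * p ^ ((m : ℝ) / 2) := by
            rw [Real.rpow_add hp0, Real.rpow_add hp0]
        _ ≤ p ^ (-(4 * θ)) * X * (R * 2 ^ m) := by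
            apply mul_le_mul
            · exact mul_le_mul_of_nonneg_left hprod (Real.rpow_nonneg hp0.le _)
            · rw [← hsqm]
              exact mul_le_mul_of_nonneg_right hRlow (by positivity)
            · exact Real.rpow_nonneg hp0.le _
            · exact mul_nonneg (Real.rpow_nonneg hp0.le _) hX0.le
        _ = _ := by ring
    exact le_of_mul_le_mul_right e4 (by positivity)
  have hprod0 : 0 ≤ b * L 0 * (b * L 1) * (b * L 2 * (b * L 3)) := by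
    have := hL0 0; have := hL0 1; have := hL0 2; have := hL0 3
    positivity
  have h3 : (b ^ m * Real.sqrt (b * L 0 * (b * L 1) * (b * L 2 * (b * L 3)))) ^ 2 ≤
      (p ^ (-(2 * θ)) * X) ^ 2 := by
    rw [mul_pow, Real.sq_sqrt hprod0]
    exact hkey
  exact le_of_sq_le_sq h3 (mul_nonneg (Real.rpow_nonneg hp0.le _) hX0.le)

/-- comparison for three coordinates -/
lemma comp3 (p η θ ε b : ℝ) (hp : 1 ≤ p) (hb : b = p ^ ((1 + η) / 2))
    (hηθ : η + 4 * θ ≤ ε)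
    (L : Fin 3 → ℝ) (hL : ∀ j, 0 < L j) (hprod : p ^ ((2 : ℝ) + ε) ≤ ∏ j, L j) :
    Real.sqrt (b * L 0 * (b * L 1) * (p * L 2)) ≤ p ^ (-(2 * θ)) * ∏ j, L j := by
  have hp0 : 0 < p := by linarith
  have hmono : ∀ x y : ℝ, x ≤ y → p ^ x ≤ p ^ y := fun x y h =>
    Real.rpow_le_rpow_of_exponent_le hp h
  have hb0 : 0 < b := by rw [hb]; exact Real.rpow_pos_of_pos hp0 _
  set X : ℝ := ∏ j, L j with hX
  have hX3 : X = L 0 * L 1 * L 2 := by rw [hX, Fin.prod_univ_three]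
  have hX0 : 0 < X := prod_pos fun j _ => hL j
  apply Real.sqrt_le_iff.2
  refine ⟨mul_nonneg (Real.rpow_nonneg hp0.le _) hX0.le, ?_⟩
  have e1 : b * L 0 * (b * L 1) * (p * L 2) = b ^ 2 * p * X := by rw [hX3]; ring
  have e2 : b ^ 2 = p ^ (1 + η) := by
    rw [hb, ← Real.rpow_natCast, ← Real.rpow_mul hp0.le]
    congr 1
    push_cast
    ring
  have e3 : (p ^ (-(2 * θ)) * X) ^ 2 = p ^ (-(4 * θ)) * X * X := by
    rw [mul_pow, ← Real.rpow_natCast (p ^ (-(2 * θ))), ← Real.rpow_mul hp0.le]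
    have : -(2 * θ) * ((2 : ℕ) : ℝ) = -(4 * θ) := by push_cast; ring
    rw [this]
    ring
  rw [e1, e2, e3]
  apply mul_le_mul_of_nonneg_right _ hX0.le
  calc p ^ (1 + η) * p = p ^ (1 + η + 1) := by rw [Real.rpow_add hp0 (1 + η) 1, Real.rpow_one]
    _ ≤ p ^ (-(4 * θ) + (2 + ε)) := hmono _ _ (by linarith)
    _ = p ^ (-(4 * θ)) * p ^ (2 + ε) := by rw [Real.rpow_add hp0]
    _ ≤ _ := mul_le_mul_of_nonneg_left hprod (Real.rpow_nonneg hp0.le _)

end Pool.Agent.V1179.MH
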