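import Pool.Agent.V1179.MH.FM5

set_option autoImplicit false

/-! # Monomial congruences in boxes: final theorems (helper79) -/

namespace Pool.Agent.V1179.MH

open Finset Filter
open Pool.Agent.W147.PS (ff ff_compare ev_pow)

lemma zero_notMem_AP {P : ℕ} [NeZero P] {a L q : ℕ} (haL : a + L ≤ P) (ρ : ℤ) (ha : 1 ≤ a) :
    (0 : ZMod P) ∉ AP P a L q ρ := by
  intro h
  have := ((mem_AP haL ρ (0 : ZMod P)).1 h).1.1
  rw [ZMod.val_zero] at this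
  omega

lemma finish (k : ℕ) (hk : 1 ≤ k) (θ : ℝ) (h0 : 0 < θ) (h1 : θ ≤ 1 / 16) :
    ∃ κ : ℝ, 0 < κ ∧ ∃ P₀ : ℕ, ∀ P : ℕ, P₀ ≤ P → ∀ [Fact P.Prime],
    ∀ (S : Finset (Fin k)) (a : ZMod P), a ≠ 0 → ∀ (M L : Fin k → ℕ), (∀ j, M j + L j ≤ P) →
    (∀ j, (P : ℝ) ^ θ ≤ M j) → (∀ j, Real.sqrt P ≤ 2 * L j) →
    (∀ q : ℕ, 1 ≤ q → (q : ℝ) ≤ (P : ℝ) ^ θ → ∀ ρ : Fin k → ℤ,
      |((pts S a (fun j => AP P (M j) (L j) q (ρ j))).card : ℝ) -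
        (∏ j, ((AP P (M j) (L j) q (ρ j)).card : ℝ)) / ((P : ℝ) - 1)| ≤
        (P : ℝ) ^ (-(2 * θ)) * ((∏ j, (L j : ℝ)) / ((P : ℝ) - 1))) →
    ∃ x : Fin k → ℕ, (∀ j, M j ≤ x j ∧ x j < M j + L j) ∧
      ∏ j ∈ S, ((x j : ℕ) : ZMod P) = a * ∏ j ∈ Sᶜ, ((x j : ℕ) : ZMod P) ∧
      ∀ j, ∀ q : ℕ, q.Prime → κ * ff P < |(q : ℝ) - x j| := by
  classical
  obtain ⟨κ, hκ, P₁, hc⟩ := mono_crit k hk θ h0 h1
  have hev := ((tendsto_rpow_atTop (show (0 : ℝ) < 1 / 4 by norm_num)).eventually_ge_atTop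
    (2 : ℝ)).and (eventually_gt_atTop (1 : ℝ))
  obtain ⟨Z, hZ⟩ := eventually_atTop.1 hev
  refine ⟨κ, hκ, max P₁ ⌈Z⌉₊, ?_⟩
  intro P hP _ S a ha M L hML hM hL hcount
  obtain ⟨n1, n2⟩ := hZ P (Nat.ceil_le.1 ((le_max_right _ _).trans hP))
  have hP0 : (0 : ℝ) < P := by linarith
  have hsq : Real.sqrt P = (P : ℝ) ^ (1 / 4 : ℝ) * (P : ℝ) ^ (1 / 4 : ℝ) := by
    rw [Real.sqrt_eq_rpow, ← Real.rpow_add hP0]; norm_num
  obtain ⟨x, hx1, hx2, hx3⟩ := hc P ((le_max_left _ _).trans hP) S a M L hML hM (by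
    intro j
    have := hL j
    rw [hsq] at this
    nlinarith) hcount
  refine ⟨fun j => (x j).val, hx1, ?_, hx3⟩
  simpa only [ZMod.natCast_zmod_val] using hx2

/-- every residue class, at least three coordinates -/
theorem all_classes (k : ℕ) (hk : 3 ≤ k) (ε : ℝ) (hε : 0 < ε) :
    ∃ κ : ℝ, 0 < κ ∧ ∃ P₀ : ℕ, ∀ P : ℕ, P₀ ≤ P → P.Prime →
    ∀ a : ℤ, ¬ (P : ℤ) ∣ a → ∀ M L : Fin k → ℕ, (∀ j, M j + L j ≤ P) →
    (∀ j, Real.sqrt P ≤ L j) → (P : ℝ) ^ (max 2 ((k : ℝ) / 2) + ε) ≤ ∏ j, (L j : ℝ) →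
    ∀ S : Finset (Fin k), ∃ x : Fin k → ℕ, (∀ j, M j ≤ x j ∧ x j < M j + L j) ∧
      (P : ℤ) ∣ ∏ j ∈ S, (x j : ℤ) - a * ∏ j ∈ Sᶜ, (x j : ℤ) ∧
      ∀ j, ∀ q : ℕ, q.Prime → κ * ff P < |(q : ℝ) - x j| := by
  classical
  set θ : ℝ := min (1 / 16) (ε / 64) with hθ
  have hθ0 : 0 < θ := lt_min (by norm_num) (by positivity)
  have hθ1 : θ ≤ 1 / 16 := min_le_left _ _
  have hθ2 : θ ≤ ε / 64 := min_le_right _ _
  set η : ℝ := ε / (16 * (k + 2)) with hη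
  have hk0 : (0 : ℝ) < k := by exact_mod_cast (show 0 < k by omega)
  have hη0 : 0 < η := by positivity
  have hηk : (k + 2 : ℝ) * η = ε / 16 := by
    rw [hη]
    field_simp
  obtain ⟨κ, hκ, P₁, hfin⟩ := finish k (by omega) θ hθ0 hθ1
  obtain ⟨Z₁, hcut⟩ := cutbox θ hθ1
  obtain ⟨Z₂, hcz⟩ := cz_bounds η hη0
  have hev := ((tendsto_rpow_atTop (show (0 : ℝ) < ε / 8 by positivity)).eventually_ge_atTop
    ((2 : ℝ) ^ k)).and (eventually_gt_atTop (1 : ℝ))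
  obtain ⟨Z, hZ⟩ := eventually_atTop.1 hev
  refine ⟨κ, hκ, max (max P₁ ⌈Z₁⌉₊) (max ⌈Z₂⌉₊ ⌈Z⌉₊), ?_⟩
  intro P hP hPp a ha M L hML hL hprod S
  have hPP1 : P₁ ≤ P := ((le_max_left _ _).trans (le_max_left _ _)).trans hP
  have hPZ1 : Z₁ ≤ P := Nat.ceil_le.1 (((le_max_right _ _).trans (le_max_left _ _)).trans hP)
  have hPZ2 : Z₂ ≤ P := Nat.ceil_le.1 (((le_max_left _ _).trans (le_max_right _ _)).trans hP)
  obtain ⟨n1, n2⟩ := hZ P (Nat.ceil_le.1 (((le_max_right _ _).trans (le_max_right _ _)).trans hP))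
  have : Fact P.Prime := ⟨hPp⟩
  have hP1 : (1 : ℝ) ≤ P := n2.le
  have hP0 : (0 : ℝ) < P := by linarith
  have hP10 : (0 : ℝ) < (P : ℝ) - 1 := by linarith
  have hmono : ∀ x y : ℝ, x ≤ y → (P : ℝ) ^ x ≤ (P : ℝ) ^ y := fun x y h =>
    Real.rpow_le_rpow_of_exponent_le hP1 h
  have haz : ((a : ZMod P)) ≠ 0 := by
    intro h
    exact ha ((ZMod.intCast_zmod_eq_zero_iff_dvd a P).1 h)
  obtain ⟨M', L', hML'⟩ := hcut P hPZ1 k M L hML hL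
  have hML2 : ∀ j, M' j + L' j ≤ P := fun j => by rw [(hML' j).2.1]; exact hML j
  have hL2 : ∀ j, Real.sqrt P ≤ 2 * L' j := fun j => (hL j).trans (hML' j).2.2.2
  have hprod2 : (P : ℝ) ^ (max 2 ((k : ℝ) / 2) + ε / 2) ≤ ∏ j, (L' j : ℝ) := by
    have h1 : ∏ j, (L j : ℝ) ≤ 2 ^ k * ∏ j, (L' j : ℝ) := by
      calc ∏ j, (L j : ℝ) ≤ ∏ j, (2 * (L' j : ℝ)) :=
            prod_le_prod (fun j _ => Nat.cast_nonneg _) (fun j _ => (hML' j).2.2.2)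
        _ = _ := by rw [prod_mul_distrib, prod_const, card_univ, Fintype.card_fin]
    have h2 : (P : ℝ) ^ (max 2 ((k : ℝ) / 2) + ε) =
        (P : ℝ) ^ (max 2 ((k : ℝ) / 2) + ε / 2) * (P : ℝ) ^ (ε / 2) := by
      rw [← Real.rpow_add hP0]
      congr 1
      ring
    have h3 : (2 : ℝ) ^ k ≤ (P : ℝ) ^ (ε / 2) := n1.trans (hmono _ _ (by linarith))
    have h4 : 0 < (P : ℝ) ^ (max 2 ((k : ℝ) / 2) + ε / 2) := Real.rpow_pos_of_pos hP0 _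
    have h5 : (P : ℝ) ^ (max 2 ((k : ℝ) / 2) + ε / 2) * 2 ^ k ≤ (∏ j, (L' j : ℝ)) * 2 ^ k := by
      calc _ ≤ (P : ℝ) ^ (max 2 ((k : ℝ) / 2) + ε / 2) * (P : ℝ) ^ (ε / 2) :=
            mul_le_mul_of_nonneg_left h3 h4.le
        _ ≤ _ := by
            rw [← h2, mul_comm _ ((2 : ℝ) ^ k)]
            exact hprod.trans h1
    exact le_of_mul_le_mul_right h5 (by positivity)
  have hPθ1 : 1 ≤ (P : ℝ) ^ θ := Real.one_le_rpow hP1 hθ0.le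
  have hM1 : ∀ j, 1 ≤ M' j := by
    intro j
    have h1 := (hML' j).2.2.1
    have : (1 : ℝ) ≤ M' j := by linarith
    exact_mod_cast this
  have hL0 : ∀ j, (0 : ℝ) < L' j := fun j => by
    have := hL2 j
    have := Real.sqrt_pos.2 hP0
    linarith
  have hcop : ∀ q : ℕ, 1 ≤ q → (q : ℝ) ≤ (P : ℝ) ^ θ → Nat.Coprime P q := by
    intro q hq hqP
    have hqlt : q < P := by
      have h3 : (q : ℝ) < P := by
        refine lt_of_le_of_lt hqP ?_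
        calc (P : ℝ) ^ θ < (P : ℝ) ^ (1 : ℝ) :=
              Real.rpow_lt_rpow_of_exponent_lt n2 (by linarith)
          _ = P := Real.rpow_one _
      exact_mod_cast h3
    exact Nat.coprime_of_lt_prime (by omega) hqlt hPp
  set b : ℝ := (P : ℝ) ^ ((1 + η) / 2) with hb
  have hb0 : 0 ≤ b := Real.rpow_nonneg hP0.le _
  have hcsum : ∀ q : ℕ, 1 ≤ q → (q : ℝ) ≤ (P : ℝ) ^ θ → ∀ ρ : Fin k → ℤ,
      ∑ χ ∈ (univ : Finset (DirichletCharacter ℂ P)).erase 1,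
        ∏ j, ‖cz χ (AP P (M' j) (L' j) q (ρ j))‖ ≤ (P : ℝ) ^ (-(2 * θ)) * ∏ j, (L' j : ℝ) := by
    intro q hq hqP ρ
    have hj := fun j => hcz P hPZ2 (M' j) (L' j) q (ρ j) (hML2 j) hq (hcop q hq hqP) (hL2 j)
    rcases Nat.lt_or_ge 3 k with h | h
    · obtain ⟨m, rfl⟩ : ∃ m, k = m + 4 := ⟨k - 4, by omega⟩
      refine (sum4 m _ b hb0 (fun j => (L' j : ℝ)) (fun j => (hL0 j).le)
        (fun j => (hj j).1) (fun j χ hχ => (hj j).2 χ hχ)).trans ?_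
      refine comp4 m P η θ (ε / 2) b hP1 hb ?_ ?_ _ hL2 ?_
      · push_cast at hηk
        nlinarith
      · have h5 : (2 : ℝ) ^ m ≤ 2 ^ (m + 4) := pow_le_pow_right₀ (by norm_num) (by omega)
        exact (h5.trans n1).trans (hmono _ _ (by linarith))
      · refine le_trans (hmono _ _ ?_) hprod2
        have := le_max_right (2 : ℝ) (((m + 4 : ℕ) : ℝ) / 2)
        linarith
    · obtain rfl : k = 3 := by omega
      refine (sum3 _ (zero_notMem_AP (hML2 2) _ (hM1 2)) b hb0 (fun j => (L' j : ℝ))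
        (fun j => (hL0 j).le) (by exact_mod_cast card_AP_le (ρ 2)) (fun j => (hj j).1)).trans ?_
      refine comp3 P η θ (ε / 2) b hP1 hb ?_ _ hL0 ?_
      · push_cast at hηk
        nlinarith
      · refine le_trans (hmono _ _ ?_) hprod2
        have := le_max_left (2 : ℝ) (((3 : ℕ) : ℝ) / 2)
        linarith
  obtain ⟨x, hx1, hx2, hx3⟩ := hfin P hPP1 S (a : ZMod P) haz M' L' hML2
    (fun j => (hML' j).2.2.1) hL2 (by
    intro q hq hqP ρ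
    have := count_mono S (fun j => AP P (M' j) (L' j) q (ρ j))
      (fun j => zero_notMem_AP (hML2 j) _ (hM1 j)) (a : ZMod P) haz _ (hcsum q hq hqP ρ)
    refine this.trans (le_of_eq ?_)
    ring)
  refine ⟨x, fun j => ⟨(hML' j).1.trans (hx1 j).1, ?_⟩, ?_, hx3⟩
  · rw [← (hML' j).2.1]
    exact (hx1 j).2
  · rw [← ZMod.intCast_zmod_eq_zero_iff_dvd]
    push_cast
    rw [hx2, sub_self]

/-- comparison for the variance -/
lemma comp2 (m : ℕ) (p η θ ε b : ℝ) (hp : 1 ≤ p) (hb : b = p ^ ((1 + η) / 2))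
    (hηθ : (m + 1 : ℝ) * η + (m + 7) * θ + ε / 8 ≤ ε / 4) (h2 : (2 : ℝ) ^ m ≤ p ^ (ε / 8))
    (L : Fin (m + 2) → ℝ) (hL : ∀ j, Real.sqrt p ≤ 2 * L j)
    (hprod : p ^ (((m + 2 : ℕ) : ℝ) / 2 + 3 * ε / 4) ≤ ∏ j, L j) :
    b ^ (2 * m + 2) * (L 0 * L 1) * (p * p ^ (4 * θ) * p ^ ((m + 3 : ℝ) * θ)) ≤
      p ^ (1 - ε / 2) * (∏ j, L j) ^ 2 := by
  have hp0 : 0 < p := by linarith
  have hmono : ∀ x y : ℝ, x ≤ y → p ^ x ≤ p ^ y := fun x y h =>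
    Real.rpow_le_rpow_of_exponent_le hp h
  have hsp : 0 < Real.sqrt p := Real.sqrt_pos.2 hp0
  have hL0 : ∀ j, 0 < L j := fun j => by linarith [hL j]
  set X : ℝ := ∏ j, L j with hX
  have hX0 : 0 < X := prod_pos fun j _ => hL0 j
  set R : ℝ := ∏ j : Fin m, L j.succ.succ with hR
  have hXR : X = (L 0 * L 1) * R := by
    rw [hX, Fin.prod_univ_succ, Fin.prod_univ_succ, ← mul_assoc]
    rfl
  have hRlow : (Real.sqrt p / 2) ^ m ≤ R := by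
    calc (Real.sqrt p / 2) ^ m = ∏ _j : Fin m, (Real.sqrt p / 2) := by
          rw [prod_const, card_univ, Fintype.card_fin]
      _ ≤ R := prod_le_prod (fun _ _ => by positivity) (fun j _ => by linarith [hL j.succ.succ])
  have hsqm : (Real.sqrt p / 2) ^ m * 2 ^ m = p ^ ((m : ℝ) / 2) := by
    rw [← mul_pow, div_mul_cancel₀ _ (by norm_num : (2 : ℝ) ≠ 0), Real.sqrt_eq_rpow,
      ← Real.rpow_natCast, ← Real.rpow_mul hp0.le]
    congr 1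
    ring
  have e2 : b ^ (2 * m + 2) = p ^ ((1 + η) * (m + 1)) := by
    rw [hb, ← Real.rpow_natCast (p ^ ((1 + η) / 2)), ← Real.rpow_mul hp0.le]
    congr 1
    push_cast
    ring
  have hL01 : 0 < L 0 * L 1 := mul_pos (hL0 0) (hL0 1)
  have e3 : p ^ (1 - ε / 2) * X ^ 2 = (p ^ (1 - ε / 2) * (X * R)) * (L 0 * L 1) := by
    rw [sq]
    nth_rewrite 2 [hXR]
    ring
  have e5 : b ^ (2 * m + 2) * (L 0 * L 1) * (p * p ^ (4 * θ) * p ^ ((m + 3 : ℝ) * θ)) =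
      p ^ ((1 + η) * (m + 1) + 1 + 4 * θ + (m + 3) * θ) * (L 0 * L 1) := by
    rw [e2, Real.rpow_add hp0, Real.rpow_add hp0, Real.rpow_add hp0, Real.rpow_one]
    ring
  rw [e5, e3]
  apply mul_le_mul_of_nonneg_right _ hL01.le
  have e4 : p ^ ((1 + η) * (m + 1) + 1 + 4 * θ + (m + 3) * θ) * 2 ^ m ≤
      (p ^ (1 - ε / 2) * (X * R)) * 2 ^ m := by
    calc _ ≤ p ^ ((1 + η) * (m + 1) + 1 + 4 * θ + (m + 3) * θ) * p ^ (ε / 8) :=
          mul_le_mul_of_nonneg_left h2 (Real.rpow_nonneg hp0.le _)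
      _ = p ^ ((1 + η) * (m + 1) + 1 + 4 * θ + (m + 3) * θ + ε / 8) := by
          rw [Real.rpow_add hp0 _ (ε / 8)]
      _ ≤ p ^ ((1 - ε / 2) + (((m + 2 : ℕ) : ℝ) / 2 + 3 * ε / 4) + (m : ℝ) / 2) := by
          apply hmono
          push_cast
          linarith
      _ = p ^ (1 - ε / 2) * p ^ (((m + 2 : ℕ) : ℝ) / 2 + 3 * ε / 4) * p ^ ((m : ℝ) / 2) := by
          rw [Real.rpow_add hp0, Real.rpow_add hp0]
      _ ≤ p ^ (1 - ε / 2) * X * (R * 2 ^ m) := by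
          apply mul_le_mul
          · exact mul_le_mul_of_nonneg_left hprod (Real.rpow_nonneg hp0.le _)
          · rw [← hsqm]
            exact mul_le_mul_of_nonneg_right hRlow (by positivity)
          · exact Real.rpow_nonneg hp0.le _
          · exact mul_nonneg (Real.rpow_nonneg hp0.le _) hX0.le
      _ = _ := by ring
  exact le_of_mul_le_mul_right e4 (by positivity)

/-- the sum of squares over characters -/
lemma sum2 {P : ℕ} [Fact P.Prime] (m : ℕ) (A : Fin (m + 2) → Finset (ZMod P)) (b : ℝ) (hb : 0 ≤ b)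
    (L : Fin (m + 2) → ℝ) (hL : ∀ j, 0 ≤ L j)
    (h4 : ∀ j, ∑ χ ∈ (univ : Finset (DirichletCharacter ℂ P)).erase 1, ‖cz χ (A j)‖ ^ 4 ≤
      (b * L j) ^ 2)
    (hs : ∀ j, ∀ χ : DirichletCharacter ℂ P, χ ≠ 1 → ‖cz χ (A j)‖ ≤ b) :
    ∑ χ ∈ (univ : Finset (DirichletCharacter ℂ P)).erase 1, ∏ j, ‖cz χ (A j)‖ ^ 2 ≤
      b ^ (2 * m + 2) * (L 0 * L 1) := by
  classical
  have h1 : ∀ χ ∈ (univ : Finset (DirichletCharacter ℂ P)).erase 1, ∏ j, ‖cz χ (A j)‖ ^ 2 ≤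
      b ^ (2 * m) * (‖cz χ (A 0)‖ ^ 2 * ‖cz χ (A 1)‖ ^ 2) := by
    intro χ hχ
    rw [Fin.prod_univ_succ, Fin.prod_univ_succ, ← mul_assoc, mul_comm (b ^ (2 * m))]
    apply mul_le_mul_of_nonneg_left _ (by positivity)
    calc ∏ j : Fin m, ‖cz χ (A j.succ.succ)‖ ^ 2 ≤ ∏ _j : Fin m, b ^ 2 :=
          prod_le_prod (fun _ _ => by positivity)
            (fun j _ => pow_le_pow_left₀ (norm_nonneg _) (hs _ χ (ne_of_mem_erase hχ)) 2)
      _ = b ^ (2 * m) := by rw [prod_const, card_univ, Fintype.card_fin, ← pow_mul]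
  refine (sum_le_sum h1).trans ?_
  rw [← mul_sum]
  calc b ^ (2 * m) * _ ≤ b ^ (2 * m) * ((b * L 0) * (b * L 1)) :=
        mul_le_mul_of_nonneg_left (cauchy2 _ _ _ _ _ (mul_nonneg hb (hL _))
          (mul_nonneg hb (hL _)) (h4 0) (h4 1)) (by positivity)
    _ = _ := by ring

end Pool.Agent.V1179.MH
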