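import Pool.Agent.V1179.MH.FM6

set_option autoImplicit false

/-! # Monomial congruences in boxes: almost every class (helper79) -/

namespace Pool.Agent.V1179.MH

open Finset Filter
open Pool.Agent.W147.PS (ff ff_compare ev_pow)

open Classical in
/-- almost every residue class, at least two coordinates -/
theorem almost_all (m : ℕ) (ε : ℝ) (hε : 0 < ε) :
    ∃ κ : ℝ, 0 < κ ∧ ∃ P₀ : ℕ, ∀ P : ℕ, P₀ ≤ P → P.Prime →
    ∀ M L : Fin (m + 2) → ℕ, (∀ j, M j + L j ≤ P) → (∀ j, Real.sqrt P ≤ L j) →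
    (P : ℝ) ^ (((m + 2 : ℕ) : ℝ) / 2 + ε) ≤ ∏ j, (L j : ℝ) →
    ∀ S : Finset (Fin (m + 2)), ∃ B : Finset ℕ, (B.card : ℝ) ≤ (P : ℝ) ^ (1 - ε / 2) ∧
    ∀ a : ℕ, 0 < a → a < P → a ∉ B → ∃ x : Fin (m + 2) → ℕ,
      (∀ j, M j ≤ x j ∧ x j < M j + L j) ∧
      ∏ j ∈ S, x j ≡ a * ∏ j ∈ Sᶜ, x j [MOD P] ∧
      ∀ j, ∀ q : ℕ, q.Prime → κ * ff P < |(q : ℝ) - x j| := by
  set θ : ℝ := min (1 / 16) (ε / (32 * (m + 7))) with hθ
  have hm0 : (0 : ℝ) ≤ m := Nat.cast_nonneg m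
  have hθ0 : 0 < θ := lt_min (by norm_num) (by positivity)
  have hθ1 : θ ≤ 1 / 16 := min_le_left _ _
  have hθ2 : (m + 7 : ℝ) * θ ≤ ε / 32 := by
    have h1 : θ ≤ ε / (32 * (m + 7)) := min_le_right _ _
    calc (m + 7 : ℝ) * θ ≤ (m + 7) * (ε / (32 * (m + 7))) :=
          mul_le_mul_of_nonneg_left h1 (by positivity)
      _ = ε / 32 := by field_simp
  set η : ℝ := ε / (32 * (m + 1)) with hη
  have hη0 : 0 < η := by positivity
  have hηm : (m + 1 : ℝ) * η = ε / 32 := by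
    rw [hη]
    field_simp
  obtain ⟨κ, hκ, P₁, hfin⟩ := finish (m + 2) (by omega) θ hθ0 hθ1
  obtain ⟨Z₁, hcut⟩ := cutbox θ hθ1
  obtain ⟨Z₂, hcz⟩ := cz_bounds η hη0
  have hev := ((tendsto_rpow_atTop (show (0 : ℝ) < ε / 8 by positivity)).eventually_ge_atTop
    ((2 : ℝ) ^ (m + 2))).and (eventually_gt_atTop (1 : ℝ))
  obtain ⟨Z, hZ⟩ := eventually_atTop.1 hev
  refine ⟨κ, hκ, max (max P₁ ⌈Z₁⌉₊) (max ⌈Z₂⌉₊ ⌈Z⌉₊), ?_⟩
  intro P hP hPp M L hML hL hprod S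
  have hPP1 : P₁ ≤ P := ((le_max_left _ _).trans (le_max_left _ _)).trans hP
  have hPZ1 : Z₁ ≤ P := Nat.ceil_le.1 (((le_max_right _ _).trans (le_max_left _ _)).trans hP)
  have hPZ2 : Z₂ ≤ P := Nat.ceil_le.1 (((le_max_left _ _).trans (le_max_right _ _)).trans hP)
  obtain ⟨n1, n2⟩ := hZ P (Nat.ceil_le.1 (((le_max_right _ _).trans (le_max_right _ _)).trans hP))
  have : Fact P.Prime := ⟨hPp⟩
  have hP1 : (1 : ℝ) ≤ P := n2.le
  have hP0 : (0 : ℝ) < P := by linarith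
  have hP10 : (0 : ℝ) < (P : ℝ) - 1 := by linarith
  have hmono : ∀ x y : ℝ, x ≤ y → (P : ℝ) ^ x ≤ (P : ℝ) ^ y := fun x y h =>
    Real.rpow_le_rpow_of_exponent_le hP1 h
  obtain ⟨M', L', hML'⟩ := hcut P hPZ1 (m + 2) M L hML hL
  have hML2 : ∀ j, M' j + L' j ≤ P := fun j => by rw [(hML' j).2.1]; exact hML j
  have hL2 : ∀ j, Real.sqrt P ≤ 2 * L' j := fun j => (hL j).trans (hML' j).2.2.2
  have hprod2 : (P : ℝ) ^ (((m + 2 : ℕ) : ℝ) / 2 + 3 * ε / 4) ≤ ∏ j, (L' j : ℝ) := by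
    have h1 : ∏ j, (L j : ℝ) ≤ 2 ^ (m + 2) * ∏ j, (L' j : ℝ) := by
      calc ∏ j, (L j : ℝ) ≤ ∏ j, (2 * (L' j : ℝ)) :=
            prod_le_prod (fun j _ => Nat.cast_nonneg _) (fun j _ => (hML' j).2.2.2)
        _ = _ := by rw [prod_mul_distrib, prod_const, card_univ, Fintype.card_fin]
    have h2 : (P : ℝ) ^ (((m + 2 : ℕ) : ℝ) / 2 + ε) =
        (P : ℝ) ^ (((m + 2 : ℕ) : ℝ) / 2 + 3 * ε / 4) * (P : ℝ) ^ (ε / 4) := by
      rw [← Real.rpow_add hP0]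
      congr 1
      ring
    have h3 : (2 : ℝ) ^ (m + 2) ≤ (P : ℝ) ^ (ε / 4) := n1.trans (hmono _ _ (by linarith))
    have h4 : 0 < (P : ℝ) ^ (((m + 2 : ℕ) : ℝ) / 2 + 3 * ε / 4) := Real.rpow_pos_of_pos hP0 _
    have h5 : (P : ℝ) ^ (((m + 2 : ℕ) : ℝ) / 2 + 3 * ε / 4) * 2 ^ (m + 2) ≤
        (∏ j, (L' j : ℝ)) * 2 ^ (m + 2) := by
      calc _ ≤ (P : ℝ) ^ (((m + 2 : ℕ) : ℝ) / 2 + 3 * ε / 4) * (P : ℝ) ^ (ε / 4) :=
            mul_le_mul_of_nonneg_left h3 h4.le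
        _ ≤ _ := by
            rw [← h2, mul_comm _ ((2 : ℝ) ^ (m + 2))]
            exact hprod.trans h1
    exact le_of_mul_le_mul_right h5 (by positivity)
  have hPθ1 : 1 ≤ (P : ℝ) ^ θ := Real.one_le_rpow hP1 hθ0.le
  have hM1 : ∀ j, 1 ≤ M' j := by
    intro j
    have h1 := (hML' j).2.2.1
    have : (1 : ℝ) ≤ M' j := by linarith
    exact_mod_cast this
  have hL0 : ∀ j, (0 : ℝ) < L' j := fun j => by
    have := hL2 j
    have := Real.sqrt_pos.2 hP0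
    linarith
  have hcop : ∀ q : ℕ, 1 ≤ q → (q : ℝ) ≤ (P : ℝ) ^ θ → Nat.Coprime P q := by
    intro q hq hqP
    have hqlt : q < P := by
      have h3 : (q : ℝ) < P := by
        refine lt_of_le_of_lt hqP ?_
        calc (P : ℝ) ^ θ < (P : ℝ) ^ (1 : ℝ) :=
              Real.rpow_lt_rpow_of_exponent_lt n2 (by linarith)
          _ = P := Real.rpow_one _
      exact_mod_cast h3
    exact Nat.coprime_of_lt_prime (by omega) hqlt hPp
  set b : ℝ := (P : ℝ) ^ ((1 + η) / 2) with hb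
  have hb0 : 0 < b := Real.rpow_pos_of_pos hP0 _
  set X : ℝ := ∏ j, (L' j : ℝ) with hX
  have hX0 : 0 < X := prod_pos fun j _ => hL0 j
  set E : ℝ := b ^ (2 * m + 2) * ((L' 0 : ℝ) * (L' 1 : ℝ)) with hE
  have hE0 : 0 ≤ E := by positivity
  set T₀ : ℝ := (P : ℝ) ^ (-(2 * θ)) * (X / ((P : ℝ) - 1)) with hT₀
  have hT₀0 : 0 < T₀ := mul_pos (Real.rpow_pos_of_pos hP0 _) (by positivity)
  -- the deviation
  set dev : ℕ → (Fin (m + 2) → ℤ) → ZMod P → ℝ := fun q ρ a =>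
    ((pts S a (fun j => AP P (M' j) (L' j) q (ρ j))).card : ℝ) -
      (∏ j, ((AP P (M' j) (L' j) q (ρ j)).card : ℝ)) / ((P : ℝ) - 1) with hdev
  have hvar : ∀ q : ℕ, 1 ≤ q → (q : ℝ) ≤ (P : ℝ) ^ θ → ∀ ρ : Fin (m + 2) → ℤ,
      ∑ a : (ZMod P)ˣ, dev q ρ (a : ZMod P) ^ 2 ≤ E / ((P : ℝ) - 1) := by
    intro q hq hqP ρ
    have hj := fun j => hcz P hPZ2 (M' j) (L' j) q (ρ j) (hML2 j) hq (hcop q hq hqP) (hL2 j)
    exact variance_mono S (fun j => AP P (M' j) (L' j) q (ρ j))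
      (fun j => zero_notMem_AP (hML2 j) _ (hM1 j)) E
      (sum2 m _ b hb0.le (fun j => (L' j : ℝ)) (fun j => (hL0 j).le)
        (fun j => (hj j).1) (fun j χ hχ => (hj j).2 χ hχ))
  have hcard : ∀ q : ℕ, 1 ≤ q → (q : ℝ) ≤ (P : ℝ) ^ θ → ∀ ρ : Fin (m + 2) → ℤ,
      ((((univ : Finset (ZMod P)ˣ).filter (fun a : (ZMod P)ˣ => T₀ < |dev q ρ (a : ZMod P)|)).card : ℝ)) ≤
        E * (P * (P : ℝ) ^ (4 * θ)) / X ^ 2 := by
    intro q hq hqP ρ
    set F := (univ : Finset (ZMod P)ˣ).filter (fun a : (ZMod P)ˣ => T₀ < |dev q ρ (a : ZMod P)|) with hF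
    have h1 : (F.card : ℝ) * T₀ ^ 2 ≤ E / ((P : ℝ) - 1) := by
      calc (F.card : ℝ) * T₀ ^ 2 = ∑ _a ∈ F, T₀ ^ 2 := by rw [sum_const, nsmul_eq_mul]
        _ ≤ ∑ a ∈ F, dev q ρ ((a : (ZMod P)ˣ) : ZMod P) ^ 2 := by
            apply sum_le_sum
            intro a ha
            rw [hF, mem_filter] at ha
            rw [← sq_abs (dev q ρ (a : ZMod P))]
            exact pow_le_pow_left₀ hT₀0.le ha.2.le 2
        _ ≤ ∑ a : (ZMod P)ˣ, dev q ρ (a : ZMod P) ^ 2 :=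
            sum_le_sum_of_subset_of_nonneg (filter_subset _ _) (fun _ _ _ => sq_nonneg _)
        _ ≤ _ := hvar q hq hqP ρ
    have h2 : T₀ ^ 2 = (P : ℝ) ^ (-(4 * θ)) * X ^ 2 / ((P : ℝ) - 1) ^ 2 := by
      rw [hT₀, mul_pow, ← Real.rpow_natCast ((P : ℝ) ^ (-(2 * θ))), ← Real.rpow_mul hP0.le, div_pow]
      have : -(2 * θ) * ((2 : ℕ) : ℝ) = -(4 * θ) := by push_cast; ring
      rw [this]
      ring
    have hP4 : 0 < (P : ℝ) ^ (4 * θ) := Real.rpow_pos_of_pos hP0 _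
    have h3 : (F.card : ℝ) * X ^ 2 ≤ E * ((P : ℝ) - 1) * (P : ℝ) ^ (4 * θ) := by
      rw [h2, Real.rpow_neg hP0.le] at h1
      have h5 : (F.card : ℝ) * (((P : ℝ) ^ (4 * θ))⁻¹ * X ^ 2 / ((P : ℝ) - 1) ^ 2) =
          ((F.card : ℝ) * X ^ 2) / ((P : ℝ) ^ (4 * θ) * ((P : ℝ) - 1) ^ 2) := by
        field_simp
      rw [h5, div_le_div_iff₀ (by positivity) hP10] at h1
      have h6 : (F.card : ℝ) * X ^ 2 * ((P : ℝ) - 1) ≤
          (E * ((P : ℝ) - 1) * (P : ℝ) ^ (4 * θ)) * ((P : ℝ) - 1) := by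
        calc _ ≤ E * ((P : ℝ) ^ (4 * θ) * ((P : ℝ) - 1) ^ 2) := h1
          _ = _ := by ring
      exact le_of_mul_le_mul_right h6 hP10
    rw [le_div_iff₀ (by positivity)]
    calc (F.card : ℝ) * X ^ 2 ≤ E * ((P : ℝ) - 1) * (P : ℝ) ^ (4 * θ) := h3
      _ ≤ E * P * (P : ℝ) ^ (4 * θ) := by
          apply mul_le_mul_of_nonneg_right _ hP4.le
          exact mul_le_mul_of_nonneg_left (by linarith) hE0
      _ = _ := by ring
  set Q₀ : ℕ := ⌊(P : ℝ) ^ θ⌋₊ with hQ₀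
  have hQ₀le : (Q₀ : ℝ) ≤ (P : ℝ) ^ θ := Nat.floor_le (by positivity)
  set idx : Finset (Σ _q : ℕ, Fin (m + 2) → ℕ) :=
    (Icc 1 Q₀).sigma (fun q => Fintype.piFinset (fun _ : Fin (m + 2) => range q)) with hidx
  have hidxc : (idx.card : ℝ) ≤ (P : ℝ) ^ ((m + 3 : ℝ) * θ) := by
    rw [hidx, card_sigma]
    push_cast
    calc ∑ q ∈ Icc 1 Q₀, ((Fintype.piFinset (fun _ : Fin (m + 2) => range q)).card : ℝ) ≤
          ∑ _q ∈ Icc 1 Q₀, ((P : ℝ) ^ θ) ^ (m + 2) := by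
          apply sum_le_sum
          intro q hq
          rw [mem_Icc] at hq
          rw [Fintype.card_piFinset]
          simp only [card_range, prod_const, card_univ, Fintype.card_fin]
          push_cast
          apply pow_le_pow_left₀ (Nat.cast_nonneg _)
          have : (q : ℝ) ≤ Q₀ := by exact_mod_cast hq.2
          linarith
      _ = (Q₀ : ℝ) * ((P : ℝ) ^ θ) ^ (m + 2) := by
          rw [sum_const, Nat.card_Icc, nsmul_eq_mul]
          congr 2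
      _ ≤ (P : ℝ) ^ θ * ((P : ℝ) ^ θ) ^ (m + 2) :=
          mul_le_mul_of_nonneg_right hQ₀le (by positivity)
      _ = ((P : ℝ) ^ θ) ^ (m + 3) := by ring
      _ = _ := by
          rw [← Real.rpow_natCast, ← Real.rpow_mul hP0.le]
          congr 1
          push_cast
          ring
  set BU : Finset (ZMod P)ˣ := idx.biUnion (fun i =>
    (univ : Finset (ZMod P)ˣ).filter
      (fun a : (ZMod P)ˣ => T₀ < |dev i.1 (fun j => (i.2 j : ℤ)) (a : ZMod P)|)) with hBU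
  have hBUc : (BU.card : ℝ) ≤ (P : ℝ) ^ (1 - ε / 2) := by
    have h1 : (BU.card : ℝ) ≤ ∑ i ∈ idx, ((((univ : Finset (ZMod P)ˣ).filter
      (fun a : (ZMod P)ˣ => T₀ < |dev i.1 (fun j => (i.2 j : ℤ)) (a : ZMod P)|)).card : ℕ) : ℝ) := by
      rw [← Nat.cast_sum]
      exact_mod_cast card_biUnion_le
    have h2 : (BU.card : ℝ) ≤ (idx.card : ℝ) * (E * (P * (P : ℝ) ^ (4 * θ)) / X ^ 2) := by
      refine h1.trans ?_
      rw [← nsmul_eq_mul, ← sum_const]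
      apply sum_le_sum
      intro i hi
      rw [hidx, mem_sigma, mem_Icc] at hi
      have : (i.1 : ℝ) ≤ Q₀ := by exact_mod_cast hi.1.2
      exact hcard i.1 hi.1.1 (this.trans hQ₀le) _
    have h3 : (idx.card : ℝ) * (E * (P * (P : ℝ) ^ (4 * θ)) / X ^ 2) ≤
        (P : ℝ) ^ ((m + 3 : ℝ) * θ) * (E * (P * (P : ℝ) ^ (4 * θ)) / X ^ 2) :=
      mul_le_mul_of_nonneg_right hidxc (by positivity)
    refine h2.trans (h3.trans ?_)
    have h4 := comp2 m P η θ ε b hP1 hb (by nlinarith) (by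
      have h5 : (2 : ℝ) ^ m ≤ 2 ^ (m + 2) := pow_le_pow_right₀ (by norm_num) (by omega)
      exact h5.trans n1) (fun j => (L' j : ℝ)) hL2 hprod2
    rw [← mul_div_assoc, div_le_iff₀ (by positivity)]
    calc _ = b ^ (2 * m + 2) * ((L' 0 : ℝ) * (L' 1 : ℝ)) *
          (P * (P : ℝ) ^ (4 * θ) * (P : ℝ) ^ ((m + 3 : ℝ) * θ)) := by rw [hE]; ring
      _ ≤ _ := h4
  refine ⟨BU.image (fun a : (ZMod P)ˣ => (a : ZMod P).val), ?_, ?_⟩
  · refine le_trans ?_ hBUc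
    exact_mod_cast card_image_le
  · intro a ha0 haP haB
    have haz : ((a : ℕ) : ZMod P) ≠ 0 := by
      intro h
      rw [ZMod.natCast_eq_zero_iff] at h
      exact absurd (Nat.le_of_dvd ha0 h) (by omega)
    have haU : Units.mk0 ((a : ℕ) : ZMod P) haz ∉ BU := by
      intro h
      apply haB
      rw [mem_image]
      refine ⟨_, h, ?_⟩
      rw [Units.val_mk0, ZMod.val_natCast, Nat.mod_eq_of_lt haP]
    obtain ⟨x, hx1, hx2, hx3⟩ := hfin P hPP1 S ((a : ℕ) : ZMod P) haz M' L' hML2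
      (fun j => (hML' j).2.2.1) hL2 (by
      intro q hq hqP ρ
      have hqZ : (0 : ℤ) < q := by exact_mod_cast hq
      have hρ : ∀ j, AP P (M' j) (L' j) q (ρ j) =
          AP P (M' j) (L' j) q (((ρ j % q).toNat : ℕ) : ℤ) := by
        intro j
        rw [Int.toNat_of_nonneg (Int.emod_nonneg _ hqZ.ne')]
        exact AP_mod (hML2 j) (ρ j)
      simp_rw [hρ]
      by_contra hcon
      push Not at hcon
      apply haU
      rw [hBU, mem_biUnion]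
      refine ⟨⟨q, fun j => (ρ j % q).toNat⟩, ?_, ?_⟩
      · rw [hidx, mem_sigma, mem_Icc]
        refine ⟨⟨hq, Nat.le_floor hqP⟩, ?_⟩
        rw [Fintype.mem_piFinset]
        intro j
        rw [mem_range]
        have h5 := Int.emod_lt_of_pos (ρ j) hqZ
        have h6 := Int.emod_nonneg (ρ j) hqZ.ne'
        show (ρ j % q).toNat < q
        omega
      · rw [mem_filter]
        refine ⟨mem_univ _, ?_⟩
        rw [Units.val_mk0]
        exact hcon)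
    refine ⟨x, fun j => ⟨(hML' j).1.trans (hx1 j).1, ?_⟩, ?_, hx3⟩
    · rw [← (hML' j).2.1]
      exact (hx1 j).2
    · rw [← ZMod.natCast_eq_natCast_iff]
      push_cast
      exact hx2

end Pool.Agent.V1179.MH
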