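import Pool.Agent.V1179.MH.SF2

set_option autoImplicit false

/-! # The criterion for families of polynomial values, with exceptional classes

As `critF`, but for every coordinate there may be a set `E i` of exceptional integers: the numbers
`m` with `F (v i) j - m` in `E j` are not covered, and the local conditions are only needed for the
other classes.  Example: families of products, where the products themselves (class `0`) are not
covered. -/

namespace Pool.Agent.V1179.MH.GH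

open Finset Filter
open Pool.Agent.H256R2.SC (ff params survivors)
open Pool.Agent.TH915.PW (crt_small)
open Pool.Agent.Y961.JR (coverAbs)
open Pool.Agent.V1179.MH.SF (boxF mem_boxF colF colF_eq countF₀)

open scoped Classical

/-- the residue vector `ρ` has the colour `c` at `p` -/
def HitG {r : ℕ} {K : Type} (idx : K → Fin r) (res : K → ℤ) (w : Fin r → ℤ) (p : ℕ) (c : K) : Prop :=
  (p : ℤ) ∣ w (idx c) - res c ∧ ∀ d, idx d ≠ idx c → ¬ (p : ℤ) ∣ w (idx d) - res d

/-- the local counts give enough residue vectors for every colour -/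
lemma local_count {n r : ℕ} (F : (Fin n → ℤ) → Fin r → ℤ) {K : Type} [Fintype K] (p : ℕ)
    (idx : K → Fin r) (res : K → ℤ) (A B : ℝ) (hB0 : 0 ≤ B)
    (hone : ∀ c : K, A ≤ (((boxF n p).filter (fun ρ => (p : ℤ) ∣ F ρ (idx c) - res c)).card : ℝ))
    (htwo : ∀ c d : K, idx c ≠ idx d → (((boxF n p).filter (fun ρ =>
      (p : ℤ) ∣ F ρ (idx c) - res c ∧ (p : ℤ) ∣ F ρ (idx d) - res d)).card : ℝ) ≤ B) (c : K) :
    A - Fintype.card K * B ≤
      (((boxF n p).filter (fun ρ => HitG idx res (F ρ) p c)).card : ℝ) := by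
  have h1 : (boxF n p).filter (fun ρ => (p : ℤ) ∣ F ρ (idx c) - res c) ⊆
      ((boxF n p).filter (fun ρ => HitG idx res (F ρ) p c)) ∪
      ((Finset.univ : Finset K).filter (fun d => idx d ≠ idx c)).biUnion (fun d =>
        (boxF n p).filter (fun ρ => (p : ℤ) ∣ F ρ (idx c) - res c ∧
          (p : ℤ) ∣ F ρ (idx d) - res d)) := by
    intro ρ hρ
    rw [Finset.mem_filter] at hρ
    rw [Finset.mem_union]
    by_cases h : HitG idx res (F ρ) p c
    · left
      exact Finset.mem_filter.mpr ⟨hρ.1, h⟩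
    · right
      have h2 : ∃ d, idx d ≠ idx c ∧ (p : ℤ) ∣ F ρ (idx d) - res d := by
        by_contra hcon
        push Not at hcon
        exact h ⟨hρ.2, hcon⟩
      obtain ⟨d, hd, hk⟩ := h2
      rw [Finset.mem_biUnion]
      exact ⟨d, Finset.mem_filter.mpr ⟨Finset.mem_univ _, hd⟩,
        Finset.mem_filter.mpr ⟨hρ.1, hρ.2, hk⟩⟩
  have h2 := (Finset.card_le_card h1).trans ((Finset.card_union_le _ _).trans
    (Nat.add_le_add_left Finset.card_biUnion_le _))
  have h3 : (((boxF n p).filter (fun ρ => (p : ℤ) ∣ F ρ (idx c) - res c)).card : ℝ) ≤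
      (((boxF n p).filter (fun ρ => HitG idx res (F ρ) p c)).card : ℝ) +
      ∑ d ∈ (Finset.univ : Finset K).filter (fun d => idx d ≠ idx c),
        (((boxF n p).filter (fun ρ => (p : ℤ) ∣ F ρ (idx c) - res c ∧
          (p : ℤ) ∣ F ρ (idx d) - res d)).card : ℝ) := by
    exact_mod_cast h2
  have h4 : ∑ d ∈ (Finset.univ : Finset K).filter (fun d => idx d ≠ idx c),
      (((boxF n p).filter (fun ρ => (p : ℤ) ∣ F ρ (idx c) - res c ∧
        (p : ℤ) ∣ F ρ (idx d) - res d)).card : ℝ) ≤ Fintype.card K * B := by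
    calc _ ≤ ∑ _d ∈ (Finset.univ : Finset K).filter (fun d => idx d ≠ idx c), B := by
          apply Finset.sum_le_sum
          intro d hd
          exact htwo c d (Ne.symm (Finset.mem_filter.mp hd).2)
      _ = (((Finset.univ : Finset K).filter (fun d => idx d ≠ idx c)).card : ℝ) * B := by
          rw [Finset.sum_const, nsmul_eq_mul]
      _ ≤ ((Finset.univ : Finset K).card : ℝ) * B := by
          apply mul_le_mul_of_nonneg_right _ hB0
          exact_mod_cast Finset.card_filter_le _ _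
      _ = _ := by
          rw [Finset.card_univ]
  linarith [hone c]

lemma HitG.unique {r : ℕ} {K : Type} {idx : K → Fin r} {res : K → ℤ} {w : Fin r → ℤ} {p : ℕ}
    {c c' : K} (hinj : ∀ k l, k ≠ l → idx k = idx l → ¬ (p : ℤ) ∣ res k - res l)
    (h : HitG idx res w p c) (h' : HitG idx res w p c') : c = c' := by
  by_contra hne
  by_cases h1 : idx c = idx c'
  · apply hinj c c' hne h1
    have h2 := dvd_sub h'.1 h.1
    rw [h1] at h2
    have e : w (idx c') - res c' - (w (idx c') - res c) = res c - res c' := by ring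
    rwa [e] at h2
  · exact h.2 c' (Ne.symm h1) h'.1

/-- families of values: the criterion with exceptional classes -/
theorem critH (n r : ℕ) (hn : 1 ≤ n) (hr : 1 ≤ r) (C : ℝ) (hC : 0 ≤ C) :
    ∃ κ : ℝ, 0 < κ ∧ ∀ P₀ : ℝ, ∃ X₀ : ℝ, ∀ X : ℝ, X₀ ≤ X →
    κ * ff X + 1 ≤ (Real.log X) ^ 2 ∧
    ∀ (F : (Fin n → ℤ) → Fin r → ℤ) (E : Fin r → Set ℤ),
    (∀ q : ℕ, ∀ ρ ρ' : Fin n → ℤ, (∀ j, (q : ℤ) ∣ ρ j - ρ' j) →
      ∀ i, (q : ℤ) ∣ F ρ i - F ρ' i) →
    (∀ q : ℕ, Squarefree q → (∀ p ∈ q.primeFactors, (p : ℝ) ≤ Real.log X) →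
      ∀ e : ℤ, ∃ ρ : Fin n → ℤ, ∀ i, (q : ℤ) ∣ F ρ i - e) →
    (∀ p : ℕ, p.Prime → P₀ < p → ∀ i a, |a| < (p : ℤ) → a ∉ E i →
      (p : ℝ) ^ (n - 1) * (1 - C / p) ≤
      (((boxF n p).filter (fun ρ => (p : ℤ) ∣ F ρ i - a)).card : ℝ)) →
    (∀ p : ℕ, p.Prime → P₀ < p → ∀ i j, i ≠ j → ∀ a b, |a| < (p : ℤ) → |b| < (p : ℤ) →
      a ∉ E i → b ∉ E j →
      (((boxF n p).filter (fun ρ => (p : ℤ) ∣ F ρ i - a ∧ (p : ℤ) ∣ F ρ j - b)).card : ℝ) ≤
        (p : ℝ) ^ (n - 1) * (C / p)) →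
    ∀ (ι : Type) (s : Finset ι) (v : ι → Fin n → ℤ), s.Nonempty →
    (∀ q : ℕ, 1 ≤ q → (q : ℝ) ≤ X ^ (2 / 5 : ℝ) →
      ∀ ρ : Fin n → ℤ, |((s.filter (fun i => ∀ j, (q : ℤ) ∣ v i j - ρ j)).card : ℝ) -
        s.card / (q : ℝ) ^ n| ≤ s.card * X ^ (-(2 * (n : ℝ)))) →
    ∃ i ∈ s, ∀ j, ∀ m : ℤ, |(m : ℝ) - F (v i) j| ≤ κ * ff X + 1 → F (v i) j - m ∉ E j →
      ∃ p : ℕ, p.Prime ∧ (p : ℝ) ≤ X ^ (1 / 10 : ℝ) ∧ (p : ℤ) ∣ m := by
  obtain ⟨c₀, hc₀, X₁, hcov⟩ := coverAbs
  set c₁ : ℝ := min c₀ (1 / (4 * (C + 1))) with hc₁'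
  have hc₁ : 0 < c₁ := lt_min hc₀ (by positivity)
  have hc₁0 : c₁ ≤ c₀ := min_le_left _ _
  have hc₁2 : c₁ ≤ 1 / (4 * (C + 1)) := min_le_right _ _
  have hn0 : (0 : ℝ) < n := by exact_mod_cast hn
  have hn1 : (1 : ℝ) ≤ n := by exact_mod_cast hn
  have hr0 : (0 : ℝ) < r := by exact_mod_cast hr
  have hr1 : (1 : ℝ) ≤ r := by exact_mod_cast hr
  obtain ⟨c, hc, X₂, hpar⟩ := params survivors (c₁ / r) (by positivity)
  have hlogx : ∀ᶠ X : ℝ in atTop, Real.log X / 10 ≤ X ^ (1 / 10 : ℝ) := by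
    have h := (isLittleO_log_rpow_atTop (show (0 : ℝ) < 1 / 10 by norm_num)).def
      (show (0 : ℝ) < 1 by norm_num)
    filter_upwards [h, eventually_ge_atTop (1 : ℝ)] with X hX hX1
    rw [Real.norm_eq_abs, abs_of_nonneg (Real.log_nonneg hX1), Real.norm_eq_abs,
      abs_of_nonneg (Real.rpow_nonneg (by linarith) _)] at hX
    have := Real.log_nonneg hX1
    linarith
  obtain ⟨X₃, hX₃⟩ := eventually_atTop.mp hlogx
  refine ⟨c / 4, by positivity, fun P₀ => ?_⟩
  have hL16 : ∀ᶠ X : ℝ in atTop, 160 + 4 * C + |P₀| ≤ Real.log X :=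
    Real.tendsto_log_atTop.eventually_ge_atTop _
  obtain ⟨X₄, hX₄⟩ := eventually_atTop.mp hL16
  refine ⟨max (max X₁ X₂) (max X₃ (max X₄ 1)), ?_⟩
  intro X hX
  have hXX1 : X₁ ≤ X := ((le_max_left _ _).trans (le_max_left _ _)).trans hX
  have hXX2 : X₂ ≤ X := ((le_max_right _ _).trans (le_max_left _ _)).trans hX
  have hXX3 : X₃ ≤ X := ((le_max_left _ _).trans (le_max_right _ _)).trans hX
  have hXX4 : X₄ ≤ X := (((le_max_left _ _).trans (le_max_right _ _)).trans
    (le_max_right _ _)).trans hX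
  have hX1 : 1 ≤ X := (((le_max_right _ _).trans (le_max_right _ _)).trans
    (le_max_right _ _)).trans hX
  have hX0 : 0 < X := by linarith
  obtain ⟨hX1000, hLlog, hLge, hprim, b, hb1, hb2⟩ := hpar X hXX2
  have h3 := hX₃ X hXX3
  have h4' := hX₄ X hXX4
  have h4 : 160 ≤ Real.log X := by linarith [abs_nonneg P₀]
  have h4C : 4 * C ≤ Real.log X := by linarith [abs_nonneg P₀]
  have h4P : P₀ ≤ Real.log X := by linarith [le_abs_self P₀]
  set l : ℝ := Real.log X with hl
  have hl1 : 1 ≤ l := by linarith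
  have hl0 : 0 < l := by linarith
  set L : ℕ := ⌊c * ff X⌋₊ with hL
  set Ny : ℕ := ⌊l / 10⌋₊ with hNy
  set P : ℕ := primorial Ny with hP
  set S : Finset ℕ := (Finset.range (Ny + 1)).filter Nat.Prime with hS
  have hPS : P = ∏ p ∈ S, p := rfl
  have hSp : ∀ p ∈ S, p.Prime := fun p hp => (Finset.mem_filter.mp hp).2
  have hSle : ∀ p ∈ S, (p : ℝ) ≤ l / 10 := by
    intro p hp
    have h5 := Finset.mem_range.mp (Finset.mem_filter.mp hp).1
    have h6 : (p : ℝ) ≤ Ny := by exact_mod_cast Nat.lt_succ_iff.mp h5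
    exact h6.trans (Nat.floor_le (by linarith))
  have hSmem : ∀ p : ℕ, p.Prime → (p : ℝ) ≤ l / 10 → p ∈ S := by
    intro p hp hpl
    rw [hS, Finset.mem_filter, Finset.mem_range]
    exact ⟨Nat.lt_succ_of_le (Nat.le_floor hpl), hp⟩
  have hPpos : 0 < P := primorial_pos _
  have hPr : (0 : ℝ) < P := by exact_mod_cast hPpos
  have hPsq : Squarefree P := by
    rw [hPS]
    refine Finset.squarefree_prod_of_pairwise_isCoprime ?_ ?_
    · intro p hp p' hp' hpp
      exact Nat.coprime_iff_isRelPrime.mp ((Nat.coprime_primes (hSp p hp) (hSp p' hp')).mpr hpp)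
    · intro p hp
      exact (hSp p hp).squarefree
  have hff : c * ff X < L + 1 := Nat.lt_floor_add_one _
  refine ⟨by nlinarith, ?_⟩
  intro F E hcong hsmall hone htwo ι s v hs hcount
  set h : ℕ := L / 2 with hh
  obtain ⟨r0, hr0'⟩ := crt_small S hSp (fun p => b p + (p - 1) * h)
  obtain ⟨x0, hx0⟩ := hsmall P hPsq (by
    intro p hp
    have h5 := Nat.dvd_of_mem_primeFactors hp
    have h6 := Nat.prime_of_mem_primeFactors hp
    rw [hPS] at h5
    obtain ⟨p', hp', h7⟩ := (Prime.dvd_finsetProd_iff h6.prime _).mp h5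
    have h8 := (Nat.prime_dvd_prime_iff_eq h6 (hSp p' hp')).mp h7
    have h9 := hSle p' hp'
    rw [← h8] at h9
    linarith) r0
  -- the candidates
  set 𝒜 : Finset ι := s.filter (fun i => ∀ j, (P : ℤ) ∣ v i j - x0 j) with h𝒜
  set U : Finset ℕ := (Finset.Icc 1 L).filter (fun k => ∀ p : ℕ, p.Prime →
          (p : ℝ) ≤ l / 10 → ¬ k ≡ b p [MOD p]) with hU
  have hcardU : (Fintype.card {k // k ∈ U} : ℝ) ≤ c₁ / r * l := by
    rw [Fintype.card_coe]
    exact hb2
  set K : Type := {c : Fin r × {k // k ∈ U} // (h : ℤ) - (c.2.1 : ℤ) ∉ E c.1} with hK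
  set idx : K → Fin r := fun c => c.1.1 with hidx
  set res : K → ℤ := fun c => (h : ℤ) - (c.1.2.1 : ℤ) with hres
  have hKcard : (Fintype.card K : ℝ) ≤ r * (Fintype.card {k // k ∈ U} : ℝ) := by
    have h5 : Fintype.card K ≤ Fintype.card (Fin r × {k // k ∈ U}) := Fintype.card_subtype_le _
    rw [Fintype.card_prod, Fintype.card_fin] at h5
    exact_mod_cast h5
  have hcard : (Fintype.card K : ℝ) ≤ c₀ * l := by
    calc (Fintype.card K : ℝ) ≤ (r : ℝ) * (Fintype.card {k // k ∈ U} : ℝ) := hKcard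
      _ ≤ r * (c₁ / r * l) := by gcongr
      _ = c₁ * l := by field_simp
      _ ≤ c₀ * l := by gcongr
  have hru : (Fintype.card K : ℝ) ≤ 1 / (4 * (C + 1)) * l := by
    calc (Fintype.card K : ℝ) ≤ (r : ℝ) * (Fintype.card {k // k ∈ U} : ℝ) := hKcard
      _ ≤ r * (c₁ / r * l) := by gcongr
      _ = c₁ * l := by field_simp
      _ ≤ 1 / (4 * (C + 1)) * l := by gcongr
  have hu0 : (0 : ℝ) ≤ (Fintype.card K : ℝ) := Nat.cast_nonneg _
  have hresp : ∀ p : ℕ, l ^ 2 < p → ∀ c : K, |res c| < (p : ℤ) := by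
    intro p hpl c
    have hk := Finset.mem_Icc.mp (Finset.mem_filter.mp c.1.2.2).1
    have hLp : L < p := by
      have : (L : ℝ) < p := by linarith
      exact_mod_cast this
    have hh2 : h ≤ L := by omega
    rw [abs_lt]
    have e : res c = (h : ℤ) - (c.1.2.1 : ℤ) := rfl
    rw [e]
    constructor <;> omega
  have hinj : ∀ p : ℕ, l ^ 2 < p → ∀ k k' : K, k ≠ k' → idx k = idx k' →
      ¬ ((p : ℤ) ∣ res k - res k') := by
    intro p hpl k0 k0' hkk0 hidx0 hd
    have h5 : res k0 - res k0' = (k0'.1.2.1 : ℤ) - (k0.1.2.1 : ℤ) := by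
      simp only [hres]
      ring
    rw [h5] at hd
    set k := k0.1.2 with hk0
    set k' := k0'.1.2 with hk0'
    have hkk : k ≠ k' := by
      intro hcon
      apply hkk0
      apply Subtype.ext
      exact Prod.ext hidx0 hcon
    have hk := Finset.mem_Icc.mp (Finset.mem_filter.mp k.2).1
    have hk' := Finset.mem_Icc.mp (Finset.mem_filter.mp k'.2).1
    have hLp : L < p := by
      have : (L : ℝ) < p := by linarith
      exact_mod_cast this
    have hne : k.1 ≠ k'.1 := fun h => hkk (Subtype.ext h)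
    rcases lt_or_gt_of_ne hne with h6 | h6
    · have := Int.le_of_dvd (by omega) hd
      omega
    · have h7 : (p : ℤ) ∣ (k.1 : ℤ) - (k'.1 : ℤ) := by
        have := (dvd_neg (a := (p : ℤ))).mpr hd
        rwa [neg_sub] at this
      have := Int.le_of_dvd (by omega) h7
      omega
  -- the sets of residue vectors
  set G : ℕ → ℕ := fun p => ⌈(p : ℝ) ^ (n - 1) * (1 - 1 / (2 * l))⌉₊ with hG
  have hGle : ∀ p : ℕ, G p ≤ p ^ (n - 1) := by
    intro p
    rw [hG]
    simp only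
    rw [Nat.ceil_le]
    push_cast
    have h5 : 0 ≤ 1 / (2 * l) := by positivity
    have h6 : (0 : ℝ) ≤ (p : ℝ) ^ (n - 1) := by positivity
    nlinarith
  have hGge : ∀ p : ℕ, (p : ℝ) ^ (n - 1) * (1 - 1 / (2 * l)) ≤ G p := fun p => Nat.le_ceil _
  have hRex : ∀ p : ℕ, ∀ c : K, p.Prime → l ^ 2 < p →
      ∃ R : Finset (Fin n → ℤ), R ⊆ (boxF n p).filter (fun ρ => HitG idx res (F ρ) p c) ∧
        R.card = G p := by
    intro p c hp hpl
    apply Finset.exists_subset_card_eq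
    rw [hG]
    simp only
    rw [Nat.ceil_le]
    have hp0 : (0 : ℝ) < p := by exact_mod_cast hp.pos
    have hPp : P₀ < p := by nlinarith
    have h5 := local_count F p idx res ((p : ℝ) ^ (n - 1) * (1 - C / p))
      ((p : ℝ) ^ (n - 1) * (C / p)) (by positivity)
      (fun c => hone p hp hPp (idx c) (res c) (hresp p hpl c) c.2)
      (fun c d hcd => htwo p hp hPp (idx c) (idx d) hcd (res c) (res d) (hresp p hpl c)
        (hresp p hpl d) c.2 d.2) c
    refine le_trans ?_ h5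
    have h6 : (p : ℝ) ^ (n - 1) * (1 - C / p) -
        Fintype.card K * ((p : ℝ) ^ (n - 1) * (C / p)) =
        (p : ℝ) ^ (n - 1) * (1 - C / p * (1 + Fintype.card K)) := by ring
    rw [h6]
    apply mul_le_mul_of_nonneg_left _ (by positivity)
    have h7 : C / p * (1 + Fintype.card K) ≤ 1 / (2 * l) := by
      have h8 : C / p ≤ C / l ^ 2 := by
        apply div_le_div_of_nonneg_left hC (by positivity) hpl.le
      calc C / p * (1 + Fintype.card K)
          ≤ C / l ^ 2 * (1 + 1 / (4 * (C + 1)) * l) := by gcongr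
        _ = C / l ^ 2 + (C / (C + 1)) * (1 / (4 * l)) := by
            field_simp
        _ ≤ 1 / (4 * l) + 1 * (1 / (4 * l)) := by
            apply add_le_add
            · rw [div_le_div_iff₀ (by positivity) (by positivity)]
              nlinarith
            · apply mul_le_mul_of_nonneg_right _ (by positivity)
              rw [div_le_one (by positivity)]
              linarith
        _ = 1 / (2 * l) := by
            field_simp
            norm_num
    linarith
  set R : ℕ → K → Finset (Fin n → ℤ) := fun p c =>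
    if hp : p.Prime ∧ l ^ 2 < p then (hRex p c hp.1 hp.2).choose else ∅ with hR
  have hRsub : ∀ p : ℕ, ∀ c, p.Prime → l ^ 2 < p →
      R p c ⊆ (boxF n p).filter (fun ρ => HitG idx res (F ρ) p c) := by
    intro p c hp hpl
    rw [hR]
    simp only
    rw [dif_pos ⟨hp, hpl⟩]
    exact (hRex p c hp hpl).choose_spec.1
  have hRcard : ∀ p : ℕ, ∀ c, p.Prime → l ^ 2 < p → (R p c).card = G p := by
    intro p c hp hpl
    rw [hR]
    simp only
    rw [dif_pos ⟨hp, hpl⟩]
    exact (hRex p c hp hpl).choose_spec.2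
  have hRdisj : ∀ p : ℕ, p.Prime → l ^ 2 < p → ∀ c c', c ≠ c' → Disjoint (R p c) (R p c') := by
    intro p hp hpl c c' hne
    rw [Finset.disjoint_left]
    intro ρ h5 h6
    have h7 := (Finset.mem_filter.mp (hRsub p c hp hpl h5)).2
    have h8 := (Finset.mem_filter.mp (hRsub p c' hp hpl h6)).2
    exact hne (HitG.unique (hinj p hpl) h7 h8)
  have hscard : (0 : ℝ) < s.card := by exact_mod_cast hs.card_pos
  have hNpos : (0 : ℝ) < s.card / (P : ℝ) ^ n := by positivity
  have hXr0 : 0 < X ^ (-(2 * (n : ℝ))) := Real.rpow_pos_of_pos hX0 _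
  -- equidistribution of the candidates
  have hcountA : ∀ q : ℕ, Squarefree q → (q : ℝ) ≤ X ^ (1 / 4 : ℝ) →
      (∀ p ∈ q.primeFactors, l ^ 2 < p) → ∀ ρ : Fin n → ℤ,
      |((𝒜.filter (fun x => ∀ j, (q : ℤ) ∣ v x j - ρ j)).card : ℝ) -
        (s.card / (P : ℝ) ^ n) / (q : ℝ) ^ n| ≤ s.card * X ^ (-(2 * (n : ℝ))) := by
    intro q hq hqX hqp ρ
    have hcop : Nat.Coprime P q := by
      rw [Nat.coprime_comm, hPS]
      apply Nat.Coprime.prod_right
      intro p hp
      rw [Nat.coprime_comm, Nat.Prime.coprime_iff_not_dvd (hSp p hp)]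
      intro hd
      have h5 : p ∈ q.primeFactors := Nat.mem_primeFactors.mpr ⟨hSp p hp, hd, hq.ne_zero⟩
      have h6 := hqp p h5
      have h7 := hSle p hp
      have h8 : l ≤ l ^ 2 := by nlinarith
      linarith
    have hq1 : 1 ≤ q := Nat.one_le_iff_ne_zero.mpr hq.ne_zero
    obtain ⟨u, w, huw⟩ := Nat.isCoprime_iff_coprime.2 hcop
    set r' : Fin n → ℤ := fun j => x0 j * (w * q) + ρ j * (u * P) with hr'
    have hiff : ∀ (j : Fin n) (x : ℤ), ((P : ℤ) ∣ x - x0 j ∧ (q : ℤ) ∣ x - ρ j) ↔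
        ((P * q : ℕ) : ℤ) ∣ x - r' j := by
      intro j x
      have e1 : x0 j - r' j = (x0 j - ρ j) * u * P := by
        simp only [hr']
        linear_combination (-(x0 j : ℤ)) * huw
      have e2 : ρ j - r' j = (ρ j - x0 j) * w * q := by
        simp only [hr']
        linear_combination (-(ρ j : ℤ)) * huw
      constructor
      · rintro ⟨h5, h6⟩
        have h7 : (P : ℤ) ∣ x - r' j := by
          have : x - r' j = (x - x0 j) + (x0 j - ρ j) * u * P := by rw [← e1]; ring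
          rw [this]
          exact dvd_add h5 (Dvd.intro_left _ rfl)
        have h8 : (q : ℤ) ∣ x - r' j := by
          have : x - r' j = (x - ρ j) + (ρ j - x0 j) * w * q := by rw [← e2]; ring
          rw [this]
          exact dvd_add h6 (Dvd.intro_left _ rfl)
        push_cast
        exact IsCoprime.mul_dvd (Nat.isCoprime_iff_coprime.2 hcop) h7 h8
      · intro h5
        push_cast at h5
        constructor
        · have h6 : (P : ℤ) ∣ x - r' j := (dvd_mul_right _ _).trans h5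
          have : x - x0 j = (x - r' j) - (x0 j - ρ j) * u * P := by rw [← e1]; ring
          rw [this]
          exact dvd_sub h6 (Dvd.intro_left _ rfl)
        · have h6 : (q : ℤ) ∣ x - r' j := (dvd_mul_left _ _).trans h5
          have : x - ρ j = (x - r' j) - (ρ j - x0 j) * w * q := by rw [← e2]; ring
          rw [this]
          exact dvd_sub h6 (Dvd.intro_left _ rfl)
    have h5 : 𝒜.filter (fun x => ∀ j, (q : ℤ) ∣ v x j - ρ j) =
        s.filter (fun x => ∀ j, ((P * q : ℕ) : ℤ) ∣ v x j - r' j) := by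
      rw [h𝒜, Finset.filter_filter]
      apply Finset.filter_congr
      intro x _
      constructor
      · rintro ⟨a1, a2⟩ j
        exact (hiff j (v x j)).mp ⟨a1 j, a2 j⟩
      · intro a1
        exact ⟨fun j => ((hiff j (v x j)).mpr (a1 j)).1, fun j => ((hiff j (v x j)).mpr (a1 j)).2⟩
    rw [h5]
    have h6 : (s.card : ℝ) / (P : ℝ) ^ n / (q : ℝ) ^ n = s.card / ((P * q : ℕ) : ℝ) ^ n := by
      push_cast
      rw [div_div, mul_pow]
    rw [h6]
    apply hcount (P * q) (Nat.mul_pos hPpos hq1)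
    push_cast
    calc (P : ℝ) * q ≤ X ^ (3 / 20 : ℝ) * X ^ (1 / 4 : ℝ) := by gcongr
      _ = X ^ (3 / 20 + 1 / 4 : ℝ) := by rw [Real.rpow_add hX0]
      _ = _ := by norm_num
  set Err₀ : ℝ := s.card * X ^ (-(2 * (n : ℝ))) with hErr₀
  have hErr₀0 : 0 ≤ Err₀ := by positivity
  set Err : ℝ := Err₀ * (X ^ (1 / 4 : ℝ)) ^ (n - 1) with hErr
  have hErr0 : 0 ≤ Err := by positivity
  obtain ⟨i, hi, hcovi⟩ := hcov X hXX1 K hcard
    (fun p => (G p : ℝ) / (p : ℝ) ^ n)
    (fun p hp hpl _ => by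
      have hp0 : (0 : ℝ) < p := by exact_mod_cast hp.pos
      have e : (p : ℝ) ^ n = (p : ℝ) ^ (n - 1) * p := by
        rw [← pow_succ, Nat.sub_add_cancel hn]
      constructor
      · rw [le_div_iff₀ (by positivity), e]
        calc 1 / (p : ℝ) * (1 - 1 / (2 * l)) * ((p : ℝ) ^ (n - 1) * p)
            = (p : ℝ) ^ (n - 1) * (1 - 1 / (2 * l)) := by field_simp
          _ ≤ G p := hGge p
      · rw [div_le_div_iff₀ (by positivity) hp0, e]
        have h5 : (G p : ℝ) ≤ (p : ℝ) ^ (n - 1) := by exact_mod_cast hGle p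
        nlinarith) ι 𝒜
    (fun x p => colF R (v x) p) (s.card / (P : ℝ) ^ n) Err hNpos hErr0 (by
      have h5 : (P : ℝ) ^ n ≤ X ^ ((3 / 20 : ℝ) * n) := by
        rw [Real.rpow_mul hX0.le, Real.rpow_natCast]
        exact pow_le_pow_left₀ hPr.le hprim n
      have h6 : (X ^ (1 / 4 : ℝ)) ^ (n - 1) ≤ X ^ ((1 / 4 : ℝ) * n) := by
        rw [Real.rpow_mul hX0.le, Real.rpow_natCast]
        exact pow_le_pow_right₀ (Real.one_le_rpow hX1 (by norm_num)) (Nat.sub_le n 1)
      rw [hErr, hErr₀, div_mul_eq_mul_div, le_div_iff₀ (by positivity)]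
      calc (s.card : ℝ) * X ^ (-(2 * (n : ℝ))) * (X ^ (1 / 4 : ℝ)) ^ (n - 1) * (P : ℝ) ^ n
          ≤ (s.card : ℝ) * X ^ (-(2 * (n : ℝ))) * X ^ ((1 / 4 : ℝ) * n) * X ^ ((3 / 20 : ℝ) * n) := by
            gcongr
        _ = (s.card : ℝ) * X ^ (-(2 * (n : ℝ)) + (1 / 4 : ℝ) * n + (3 / 20 : ℝ) * n) := by
            rw [Real.rpow_add hX0, Real.rpow_add hX0]; ring
        _ ≤ (s.card : ℝ) * X ^ (-(2 / 5) : ℝ) := by
            apply mul_le_mul_of_nonneg_left _ hscard.le
            apply Real.rpow_le_rpow_of_exponent_le hX1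
            nlinarith) (by
      intro S' hS' hS'Q D hD
      have h5 := countF₀ 𝒜 v R G (s.card / (P : ℝ) ^ n) Err₀ (X ^ (1 / 4 : ℝ)) (l ^ 2) hErr₀0
        hcountA S' (fun p hp => ⟨(hS' p hp).1, (hS' p hp).2.1⟩)
        (fun p hp => hRdisj p (hS' p hp).1 (hS' p hp).2.1)
        (fun p hp c => hRcard p c (hS' p hp).1 (hS' p hp).2.1) (fun p _ => hGle p)
        (fun p hp c ρ hρ => mem_boxF.mp
          (Finset.mem_filter.mp (hRsub p c (hS' p hp).1 (hS' p hp).2.1 hρ)).1)
        hS'Q D hD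
      refine le_trans (le_of_eq ?_) (h5.trans ?_)
      · congr!
      rw [hErr]
      apply mul_le_mul_of_nonneg_left _ hErr₀0
      rw [Finset.prod_pow]
      exact pow_le_pow_left₀ (Finset.prod_nonneg fun _ _ => Nat.cast_nonneg _) hS'Q _)
  rw [h𝒜, Finset.mem_filter] at hi
  refine ⟨i, hi.1, ?_⟩
  intro j m hm hmE
  have hL16 : (16 : ℝ) ≤ L := by linarith
  have hLh : (L : ℝ) ≤ 2 * h + 1 := by
    have : L ≤ 2 * h + 1 := by omega
    exact_mod_cast this
  have hLh' : 2 * (h : ℝ) ≤ L := by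
    have : 2 * h ≤ L := by omega
    exact_mod_cast this
  have hm' := abs_le.mp hm
  have hk1 : (1 : ℤ) ≤ m - F (v i) j + h := by
    have : (0 : ℝ) < ((m - F (v i) j + h : ℤ) : ℝ) := by
      push_cast
      linarith [hm'.1]
    have : (0 : ℤ) < m - F (v i) j + h := by exact_mod_cast this
    omega
  have hk2 : m - F (v i) j + h ≤ L := by
    have : ((m - F (v i) j + h : ℤ) : ℝ) ≤ ((L : ℤ) : ℝ) := by
      push_cast
      linarith [hm'.2]
    exact_mod_cast this
  obtain ⟨k, hk⟩ : ∃ k : ℕ, (k : ℤ) = m - F (v i) j + h :=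
    ⟨(m - F (v i) j + h).toNat, by omega⟩
  have hkIcc : k ∈ Finset.Icc 1 L := by
    rw [Finset.mem_Icc]
    omega
  by_cases hkU : k ∈ U
  · have hkE : (h : ℤ) - (k : ℤ) ∉ E j := by
      have e : (h : ℤ) - (k : ℤ) = F (v i) j - m := by rw [hk]; ring
      rw [e]
      exact hmE
    obtain ⟨p, hp, hpl, hpX, hd⟩ := hcovi ⟨(j, ⟨k, hkU⟩), hkE⟩
    refine ⟨p, hp, hpX, ?_⟩
    have hmem := (colF_eq (hRdisj p hp hpl)).mp hd
    have hd' : (p : ℤ) ∣ F (fun j => v i j % (p : ℤ)) j - ((h : ℤ) - (k : ℤ)) :=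
      (Finset.mem_filter.mp (hRsub p _ hp hpl hmem)).2.1
    have h5 : (p : ℤ) ∣ F (v i) j - F (fun j => v i j % (p : ℤ)) j := by
      apply hcong
      intro j'
      refine ⟨v i j' / p, ?_⟩
      have := Int.emod_add_mul_ediv (v i j') p
      linarith
    have h6 := dvd_add h5 hd'
    have e2 : F (v i) j - F (fun j => v i j % (p : ℤ)) j +
        (F (fun j => v i j % (p : ℤ)) j - ((h : ℤ) - (k : ℤ))) = m := by
      rw [hk]
      ring
    rwa [e2] at h6
  · have h5 : ∃ p : ℕ, p.Prime ∧ (p : ℝ) ≤ l / 10 ∧ k ≡ b p [MOD p] := by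
      by_contra hcon
      push Not at hcon
      exact hkU (Finset.mem_filter.mpr ⟨hkIcc, hcon⟩)
    obtain ⟨p, hp, hpl, hkb⟩ := h5
    refine ⟨p, hp, hpl.trans h3, ?_⟩
    have hpS := hSmem p hp hpl
    have h6 : (p : ℤ) ∣ (r0 : ℤ) + ((b p : ℤ) + ((p : ℤ) - 1) * h) := by
      have h7 := Int.natCast_dvd_natCast.mpr (hr0' p hpS)
      push_cast [Nat.cast_sub hp.one_le] at h7
      exact h7
    have h7 : (p : ℤ) ∣ F (v i) j - r0 := by
      have h8 : (P : ℤ) ∣ F (v i) j - r0 := by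
        have h9 := dvd_add (hcong P (v i) x0 hi.2 j) (hx0 j)
        have e : F (v i) j - F x0 j + (F x0 j - r0) = F (v i) j - r0 := by ring
        rwa [e] at h9
      refine dvd_trans ?_ h8
      rw [hPS]
      exact Int.natCast_dvd_natCast.mpr (Finset.dvd_prod_of_mem _ hpS)
    have h8 : (p : ℤ) ∣ (k : ℤ) - b p := by
      have := (Nat.modEq_iff_dvd.mp hkb)
      rw [← neg_sub]
      exact (dvd_neg).mpr this
    have h9 : m = (F (v i) j - r0) + ((r0 : ℤ) + ((b p : ℤ) + ((p : ℤ) - 1) * h)) +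
        ((k : ℤ) - b p) - p * h := by
      rw [hk]; ring
    rw [h9]
    exact dvd_sub (dvd_add (dvd_add h7 h6) h8) (Dvd.intro _ rfl)

end Pool.Agent.V1179.MH.GH
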