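import Pool.Agent.V1179.MH.GH9

set_option autoImplicit false

/-! # The criterion for families with a common zero

`F` is a family of `r` functions of `n` integer variables (compatible with congruences) with
`F 0 = 0`.  No condition on common values modulo small primes is needed: the primes outside of a set `Q`
sieve with the class `0` (the vector is `0` modulo these primes), the primes of `Q` with a vector chosen
greedily (Rankin's method for all `r` windows together). -/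

namespace Pool.Agent.V1179.MH.GH

open Finset Filter
open Pool.Agent.H256R2.SC (ff crt_int)
open Pool.Agent.Y961.JR (coverAbs)
open Pool.Agent.V1179.MH.SF (boxF mem_boxF colF colF_eq countF₀)

open scoped Classical

/-- families of values with a common zero: the criterion -/
theorem critZ (n r : ℕ) (hn : 1 ≤ n) (hr : 1 ≤ r) (C : ℝ) (hC : 0 ≤ C) :
    ∃ κ : ℝ, 0 < κ ∧ ∀ P₀ : ℝ, ∃ X₀ : ℝ, ∀ X : ℝ, X₀ ≤ X →
    κ * ff X + 1 ≤ (Real.log X) ^ 2 ∧
    ∀ (F : (Fin n → ℤ) → Fin r → ℤ),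
    (∀ q : ℕ, ∀ ρ ρ' : Fin n → ℤ, (∀ j, (q : ℤ) ∣ ρ j - ρ' j) →
      ∀ i, (q : ℤ) ∣ F ρ i - F ρ' i) →
    (∀ i, F (fun _ => 0) i = 0) →
    (∀ p : ℕ, p.Prime → P₀ < p → (p : ℝ) ≤ X ^ (1 / 10 : ℝ) → ∀ i a,
      (p : ℝ) ^ (n - 1) * (1 - C / p) ≤
      (((boxF n p).filter (fun ρ => (p : ℤ) ∣ F ρ i - a)).card : ℝ)) →
    (∀ p : ℕ, p.Prime → P₀ < p → (p : ℝ) ≤ X ^ (1 / 10 : ℝ) → ∀ i j, i ≠ j → ∀ a b,
      |a| < (p : ℤ) → |b| < (p : ℤ) → a ≠ 0 → b ≠ 0 →
      (((boxF n p).filter (fun ρ => (p : ℤ) ∣ F ρ i - a ∧ (p : ℤ) ∣ F ρ j - b)).card : ℝ) ≤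
        (p : ℝ) ^ (n - 1) * (C / p)) →
    ∀ (ι : Type) (s : Finset ι) (v : ι → Fin n → ℤ), s.Nonempty →
    (∀ q : ℕ, 1 ≤ q → (q : ℝ) ≤ X ^ (2 / 5 : ℝ) →
      ∀ ρ : Fin n → ℤ, |((s.filter (fun i => ∀ j, (q : ℤ) ∣ v i j - ρ j)).card : ℝ) -
        s.card / (q : ℝ) ^ n| ≤ s.card * X ^ (-(2 * (n : ℝ)))) →
    ∃ i ∈ s, ∀ j, ∀ m : ℤ, |(m : ℝ) - F (v i) j| ≤ κ * ff X + 1 →
      ∃ p : ℕ, p.Prime ∧ (p : ℝ) ≤ X ^ (1 / 10 : ℝ) ∧ (p : ℤ) ∣ m := by
  obtain ⟨c₀, hc₀, X₁, hcov⟩ := coverAbs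
  set c₁ : ℝ := min c₀ (1 / (4 * (C + 1))) with hc₁'
  have hc₁ : 0 < c₁ := lt_min hc₀ (by positivity)
  have hc₁0 : c₁ ≤ c₀ := min_le_left _ _
  have hc₁2 : c₁ ≤ 1 / (4 * (C + 1)) := min_le_right _ _
  have hn0 : (0 : ℝ) < n := by exact_mod_cast hn
  have hn1 : (1 : ℝ) ≤ n := by exact_mod_cast hn
  have hr0 : (0 : ℝ) < r := by exact_mod_cast hr
  have hr1 : (1 : ℝ) ≤ r := by exact_mod_cast hr
  obtain ⟨c, hc, X₂, hpar⟩ := params_joint r C hC c₁ hc₁
  have hlogx : ∀ᶠ X : ℝ in atTop, Real.log X / 10 ≤ X ^ (1 / 10 : ℝ) := by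
    have h := (isLittleO_log_rpow_atTop (show (0 : ℝ) < 1 / 10 by norm_num)).def
      (show (0 : ℝ) < 1 by norm_num)
    filter_upwards [h, eventually_ge_atTop (1 : ℝ)] with X hX hX1
    rw [Real.norm_eq_abs, abs_of_nonneg (Real.log_nonneg hX1), Real.norm_eq_abs,
      abs_of_nonneg (Real.rpow_nonneg (by linarith) _)] at hX
    have := Real.log_nonneg hX1
    linarith
  obtain ⟨X₃, hX₃⟩ := eventually_atTop.mp hlogx
  refine ⟨c / 4, by positivity, fun P₀ => ?_⟩
  have hL16 : ∀ᶠ X : ℝ in atTop, 160 + 4 * C + |P₀| ≤ Real.log X :=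
    Real.tendsto_log_atTop.eventually_ge_atTop _
  obtain ⟨X₄', hX₄'⟩ := eventually_atTop.mp hL16
  have hQ5 : ∀ᶠ X : ℝ in atTop, |P₀| + 2 ≤ (Real.log (Real.log X / 10)) ^ 2 := by
    have h1 : Tendsto (fun X : ℝ => Real.log (Real.log X / 10)) atTop atTop :=
      Real.tendsto_log_atTop.comp (Real.tendsto_log_atTop.atTop_div_const (by norm_num))
    filter_upwards [h1.eventually_ge_atTop (|P₀| + 2)] with X hX
    have := abs_nonneg P₀
    nlinarith
  obtain ⟨X₅, hX₅⟩ := eventually_atTop.mp hQ5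
  set X₄ : ℝ := max X₄' X₅ with hX4def
  have hX₄ : ∀ X : ℝ, X₄ ≤ X → 160 + 4 * C + |P₀| ≤ Real.log X :=
    fun X hX => hX₄' X ((le_max_left _ _).trans hX)
  refine ⟨max (max X₁ X₂) (max X₃ (max X₄ 1)), ?_⟩
  intro X hX
  have hXX1 : X₁ ≤ X := ((le_max_left _ _).trans (le_max_left _ _)).trans hX
  have hXX2 : X₂ ≤ X := ((le_max_right _ _).trans (le_max_left _ _)).trans hX
  have hXX3 : X₃ ≤ X := ((le_max_left _ _).trans (le_max_right _ _)).trans hX
  have hXX4 : X₄ ≤ X := (((le_max_left _ _).trans (le_max_right _ _)).trans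
    (le_max_right _ _)).trans hX
  have hX1 : 1 ≤ X := (((le_max_right _ _).trans (le_max_right _ _)).trans
    (le_max_right _ _)).trans hX
  have hX0 : 0 < X := by linarith
  obtain ⟨hX1000, hLlog, hLge, hprim, Q, hQ, hjoint⟩ := hpar X hXX2
  have h5Q := hX₅ X ((le_max_right _ _).trans hXX4)
  have h3 := hX₃ X hXX3
  have h4' := hX₄ X hXX4
  have h4 : 160 ≤ Real.log X := by linarith [abs_nonneg P₀]
  have h4C : 4 * C ≤ Real.log X := by linarith [abs_nonneg P₀]
  have h4P : P₀ ≤ Real.log X := by linarith [le_abs_self P₀]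
  set l : ℝ := Real.log X with hl
  have hl1 : 1 ≤ l := by linarith
  have hl0 : 0 < l := by linarith
  set L : ℕ := ⌊c * ff X⌋₊ with hL
  set Ny : ℕ := ⌊l / 10⌋₊ with hNy
  set P : ℕ := primorial Ny with hP
  set S : Finset ℕ := (Finset.range (Ny + 1)).filter Nat.Prime with hS
  have hPS : P = ∏ p ∈ S, p := rfl
  have hSp : ∀ p ∈ S, p.Prime := fun p hp => (Finset.mem_filter.mp hp).2
  have hSle : ∀ p ∈ S, (p : ℝ) ≤ l / 10 := by
    intro p hp
    have h5 := Finset.mem_range.mp (Finset.mem_filter.mp hp).1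
    have h6 : (p : ℝ) ≤ Ny := by exact_mod_cast Nat.lt_succ_iff.mp h5
    exact h6.trans (Nat.floor_le (by linarith))
  have hSmem : ∀ p : ℕ, p.Prime → (p : ℝ) ≤ l / 10 → p ∈ S := by
    intro p hp hpl
    rw [hS, Finset.mem_filter, Finset.mem_range]
    exact ⟨Nat.lt_succ_of_le (Nat.le_floor hpl), hp⟩
  have hPpos : 0 < P := primorial_pos _
  have hPr : (0 : ℝ) < P := by exact_mod_cast hPpos
  have hPsq : Squarefree P := by
    rw [hPS]
    refine Finset.squarefree_prod_of_pairwise_isCoprime ?_ ?_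
    · intro p hp p' hp' hpp
      exact Nat.coprime_iff_isRelPrime.mp ((Nat.coprime_primes (hSp p hp) (hSp p' hp')).mpr hpp)
    · intro p hp
      exact (hSp p hp).squarefree
  have hff : c * ff X < L + 1 := Nat.lt_floor_add_one _
  refine ⟨by nlinarith, ?_⟩
  intro F hcong hzero hone htwo ι s v hs hcount
  set h : ℕ := L / 2 with hh
  have hQP : ∀ p ∈ Q, P₀ < (p : ℝ) := by
    intro p hp
    have h5 := (hQ p hp).2.1
    have h6 := le_abs_self P₀
    linarith
  have h2Q : 2 ∉ Q := by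
    intro hcon
    have h5 := (hQ 2 hcon).2.1
    have h6 := abs_nonneg P₀
    push_cast at h5
    linarith
  have hboxc : ∀ p : ℕ, (boxF n p).card = p ^ n := by
    intro p
    unfold boxF
    rw [Fintype.card_piFinset, Finset.prod_const, Finset.card_univ, Fintype.card_fin]
    simp
  obtain ⟨σ, hσ, hSv⟩ := hjoint (Fin n → ℤ) (fun p => boxF n p)
    (fun p ρ x => (p : ℤ) ∣ F ρ x.1 + x.2) (by
      intro p hp
      rw [← Finset.card_pos, hboxc]
      exact pow_pos (hQ p hp).1.pos _) (by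
      intro p hp x
      have hp0 : (0 : ℝ) < p := by exact_mod_cast (hQ p hp).1.pos
      have h5 := hone p (hQ p hp).1 (hQP p hp) ((hQ p hp).2.2.trans h3) x.1 (-x.2)
      have e : (boxF n p).filter (fun ρ => (p : ℤ) ∣ F ρ x.1 - -x.2) =
          (boxF n p).filter (fun ρ => (p : ℤ) ∣ F ρ x.1 + x.2) := by
        apply Finset.filter_congr
        intro ρ _
        rw [sub_neg_eq_add]
      rw [e] at h5
      rw [hboxc]
      refine le_trans (le_of_eq ?_) (h5.trans (le_of_eq ?_))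
      · have e2 : (p : ℝ) ^ n = (p : ℝ) ^ (n - 1) * p := by
          rw [← pow_succ, Nat.sub_add_cancel hn]
        push_cast
        rw [e2]
        field_simp
      · congr!)
  have hx0ex : ∀ j : Fin n, ∃ x : ℤ, ∀ p ∈ S, (p : ℤ) ∣ x - (if p ∈ Q then σ p j else 0) := by
    intro j
    exact crt_int S (fun p => (p : ℤ)) (by
      intro p hp p' hp' hne
      exact Nat.isCoprime_iff_coprime.mpr ((Nat.coprime_primes (hSp p hp) (hSp p' hp')).mpr hne))
      (fun p => if p ∈ Q then σ p j else 0)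
  choose x0 hx0 using hx0ex
  -- the candidates
  set 𝒜 : Finset ι := s.filter (fun i => ∀ j, (P : ℤ) ∣ v i j - x0 j) with h𝒜
  set Sv : Finset (Fin r × ℤ) := ((Finset.univ : Finset (Fin r)) ×ˢ Finset.Icc (-(L : ℤ))
          (L : ℤ)).filter (fun x => x.2 ≠ 0 ∧
          (∀ p : ℕ, p.Prime → (p : ℝ) ≤ l / 10 → p ∉ Q → ¬ (p : ℤ) ∣ x.2) ∧
          ∀ p ∈ Q, ¬ (p : ℤ) ∣ F (σ p) x.1 + x.2) with hSvdef
  set Sh : Finset (Fin r × ℤ) := Sv.filter (fun x => |x.2| ≤ (h : ℤ)) with hSh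
  set K : Type := {x : Fin r × ℤ // x ∈ Sh} with hK
  have hKeq : Fintype.card K ≤ Sv.card := by
    have h5 : Fintype.card K = Sh.card := Fintype.card_coe Sh
    rw [h5]
    exact Finset.card_filter_le _ _
  set idx : K → Fin r := fun c => c.1.1 with hidx
  set res : K → ℤ := fun c => -c.1.2 with hres
  have hKcard : (Fintype.card K : ℝ) ≤ c₁ * l := by
    have h5 : (Fintype.card K : ℝ) ≤ Sv.card := by exact_mod_cast hKeq
    refine h5.trans (le_trans (le_of_eq ?_) hSv)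
    congr!
  have hcard : (Fintype.card K : ℝ) ≤ c₀ * l := by
    calc (Fintype.card K : ℝ) ≤ c₁ * l := hKcard
      _ ≤ c₀ * l := by gcongr
  have hru : (Fintype.card K : ℝ) ≤ 1 / (4 * (C + 1)) * l := by
    calc (Fintype.card K : ℝ) ≤ c₁ * l := hKcard
      _ ≤ 1 / (4 * (C + 1)) * l := by gcongr
  have hu0 : (0 : ℝ) ≤ (Fintype.card K : ℝ) := Nat.cast_nonneg _
  have hresp : ∀ p : ℕ, l ^ 2 < p → ∀ c : K, |res c| < (p : ℤ) := by
    intro p hpl c
    have hk := (Finset.mem_filter.mp c.2).2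
    have hLp : L < p := by
      have : (L : ℝ) < p := by linarith
      exact_mod_cast this
    have e : res c = -c.1.2 := rfl
    rw [e, abs_neg]
    omega
  have hres0 : ∀ c : K, res c ≠ 0 := by
    intro c hcon
    have hk := (Finset.mem_filter.mp (Finset.mem_filter.mp c.2).1).2.1
    have e : res c = -c.1.2 := rfl
    rw [e] at hcon
    omega
  have hinj : ∀ p : ℕ, l ^ 2 < p → ∀ k k' : K, k ≠ k' → idx k = idx k' →
      ¬ ((p : ℤ) ∣ res k - res k') := by
    intro p hpl k k' hkk hidx0 hd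
    have hk := abs_le.mp (Finset.mem_filter.mp k.2).2
    have hk' := abs_le.mp (Finset.mem_filter.mp k'.2).2
    have hLp : L < p := by
      have : (L : ℝ) < p := by linarith
      exact_mod_cast this
    have hne : k.1.2 ≠ k'.1.2 := by
      intro hcon
      apply hkk
      apply Subtype.ext
      exact Prod.ext hidx0 hcon
    have e : res k - res k' = k'.1.2 - k.1.2 := by
      simp only [hres]
      ring
    rw [e] at hd
    have h5 : |k'.1.2 - k.1.2| < (p : ℤ) := by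
      rw [abs_lt]
      constructor <;> omega
    have h6 := Int.eq_zero_of_abs_lt_dvd hd h5
    omega
  -- the sets of residue vectors
  set G : ℕ → ℕ := fun p => ⌈(p : ℝ) ^ (n - 1) * (1 - 1 / (2 * l))⌉₊ with hG
  have hGle : ∀ p : ℕ, G p ≤ p ^ (n - 1) := by
    intro p
    rw [hG]
    simp only
    rw [Nat.ceil_le]
    push_cast
    have h5 : 0 ≤ 1 / (2 * l) := by positivity
    have h6 : (0 : ℝ) ≤ (p : ℝ) ^ (n - 1) := by positivity
    nlinarith
  have hGge : ∀ p : ℕ, (p : ℝ) ^ (n - 1) * (1 - 1 / (2 * l)) ≤ G p := fun p => Nat.le_ceil _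
  have hRex : ∀ p : ℕ, ∀ c : K, p.Prime → l ^ 2 < p → (p : ℝ) ≤ X ^ (1 / 10 : ℝ) →
      ∃ R : Finset (Fin n → ℤ), R ⊆ (boxF n p).filter (fun ρ => HitG idx res (F ρ) p c) ∧
        R.card = G p := by
    intro p c hp hpl hpX
    apply Finset.exists_subset_card_eq
    rw [hG]
    simp only
    rw [Nat.ceil_le]
    have hp0 : (0 : ℝ) < p := by exact_mod_cast hp.pos
    have hPp : P₀ < p := by nlinarith
    have h5 := local_count F p idx res ((p : ℝ) ^ (n - 1) * (1 - C / p))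
      ((p : ℝ) ^ (n - 1) * (C / p)) (by positivity)
      (fun c => hone p hp hPp hpX (idx c) (res c))
      (fun c d hcd => htwo p hp hPp hpX (idx c) (idx d) hcd (res c) (res d) (hresp p hpl c)
        (hresp p hpl d) (hres0 c) (hres0 d)) c
    refine le_trans ?_ h5
    have h6 : (p : ℝ) ^ (n - 1) * (1 - C / p) -
        Fintype.card K * ((p : ℝ) ^ (n - 1) * (C / p)) =
        (p : ℝ) ^ (n - 1) * (1 - C / p * (1 + Fintype.card K)) := by ring
    rw [h6]
    apply mul_le_mul_of_nonneg_left _ (by positivity)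
    have h7 : C / p * (1 + Fintype.card K) ≤ 1 / (2 * l) := by
      have h8 : C / p ≤ C / l ^ 2 := by
        apply div_le_div_of_nonneg_left hC (by positivity) hpl.le
      calc C / p * (1 + Fintype.card K)
          ≤ C / l ^ 2 * (1 + 1 / (4 * (C + 1)) * l) := by gcongr
        _ = C / l ^ 2 + (C / (C + 1)) * (1 / (4 * l)) := by
            field_simp
        _ ≤ 1 / (4 * l) + 1 * (1 / (4 * l)) := by
            apply add_le_add
            · rw [div_le_div_iff₀ (by positivity) (by positivity)]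
              nlinarith
            · apply mul_le_mul_of_nonneg_right _ (by positivity)
              rw [div_le_one (by positivity)]
              linarith
        _ = 1 / (2 * l) := by
            field_simp
            norm_num
    linarith
  set R : ℕ → K → Finset (Fin n → ℤ) := fun p c =>
    if hp : p.Prime ∧ l ^ 2 < p ∧ (p : ℝ) ≤ X ^ (1 / 10 : ℝ) then
      (hRex p c hp.1 hp.2.1 hp.2.2).choose else ∅ with hR
  have hRsub : ∀ p : ℕ, ∀ c, p.Prime → l ^ 2 < p → (p : ℝ) ≤ X ^ (1 / 10 : ℝ) →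
      R p c ⊆ (boxF n p).filter (fun ρ => HitG idx res (F ρ) p c) := by
    intro p c hp hpl hpX
    rw [hR]
    simp only
    rw [dif_pos ⟨hp, hpl, hpX⟩]
    exact (hRex p c hp hpl hpX).choose_spec.1
  have hRcard : ∀ p : ℕ, ∀ c, p.Prime → l ^ 2 < p → (p : ℝ) ≤ X ^ (1 / 10 : ℝ) →
      (R p c).card = G p := by
    intro p c hp hpl hpX
    rw [hR]
    simp only
    rw [dif_pos ⟨hp, hpl, hpX⟩]
    exact (hRex p c hp hpl hpX).choose_spec.2
  have hRdisj : ∀ p : ℕ, p.Prime → l ^ 2 < p → (p : ℝ) ≤ X ^ (1 / 10 : ℝ) →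
      ∀ c c', c ≠ c' → Disjoint (R p c) (R p c') := by
    intro p hp hpl hpX c c' hne
    rw [Finset.disjoint_left]
    intro ρ h5 h6
    have h7 := (Finset.mem_filter.mp (hRsub p c hp hpl hpX h5)).2
    have h8 := (Finset.mem_filter.mp (hRsub p c' hp hpl hpX h6)).2
    exact hne (HitG.unique (hinj p hpl) h7 h8)
  have hscard : (0 : ℝ) < s.card := by exact_mod_cast hs.card_pos
  have hNpos : (0 : ℝ) < s.card / (P : ℝ) ^ n := by positivity
  have hXr0 : 0 < X ^ (-(2 * (n : ℝ))) := Real.rpow_pos_of_pos hX0 _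
  -- equidistribution of the candidates
  have hcountA : ∀ q : ℕ, Squarefree q → (q : ℝ) ≤ X ^ (1 / 4 : ℝ) →
      (∀ p ∈ q.primeFactors, l ^ 2 < p) → ∀ ρ : Fin n → ℤ,
      |((𝒜.filter (fun x => ∀ j, (q : ℤ) ∣ v x j - ρ j)).card : ℝ) -
        (s.card / (P : ℝ) ^ n) / (q : ℝ) ^ n| ≤ s.card * X ^ (-(2 * (n : ℝ))) := by
    intro q hq hqX hqp ρ
    have hcop : Nat.Coprime P q := by
      rw [Nat.coprime_comm, hPS]
      apply Nat.Coprime.prod_right
      intro p hp
      rw [Nat.coprime_comm, Nat.Prime.coprime_iff_not_dvd (hSp p hp)]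
      intro hd
      have h5 : p ∈ q.primeFactors := Nat.mem_primeFactors.mpr ⟨hSp p hp, hd, hq.ne_zero⟩
      have h6 := hqp p h5
      have h7 := hSle p hp
      have h8 : l ≤ l ^ 2 := by nlinarith
      linarith
    have hq1 : 1 ≤ q := Nat.one_le_iff_ne_zero.mpr hq.ne_zero
    obtain ⟨u, w, huw⟩ := Nat.isCoprime_iff_coprime.2 hcop
    set r' : Fin n → ℤ := fun j => x0 j * (w * q) + ρ j * (u * P) with hr'
    have hiff : ∀ (j : Fin n) (x : ℤ), ((P : ℤ) ∣ x - x0 j ∧ (q : ℤ) ∣ x - ρ j) ↔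
        ((P * q : ℕ) : ℤ) ∣ x - r' j := by
      intro j x
      have e1 : x0 j - r' j = (x0 j - ρ j) * u * P := by
        simp only [hr']
        linear_combination (-(x0 j : ℤ)) * huw
      have e2 : ρ j - r' j = (ρ j - x0 j) * w * q := by
        simp only [hr']
        linear_combination (-(ρ j : ℤ)) * huw
      constructor
      · rintro ⟨h5, h6⟩
        have h7 : (P : ℤ) ∣ x - r' j := by
          have : x - r' j = (x - x0 j) + (x0 j - ρ j) * u * P := by rw [← e1]; ring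
          rw [this]
          exact dvd_add h5 (Dvd.intro_left _ rfl)
        have h8 : (q : ℤ) ∣ x - r' j := by
          have : x - r' j = (x - ρ j) + (ρ j - x0 j) * w * q := by rw [← e2]; ring
          rw [this]
          exact dvd_add h6 (Dvd.intro_left _ rfl)
        push_cast
        exact IsCoprime.mul_dvd (Nat.isCoprime_iff_coprime.2 hcop) h7 h8
      · intro h5
        push_cast at h5
        constructor
        · have h6 : (P : ℤ) ∣ x - r' j := (dvd_mul_right _ _).trans h5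
          have : x - x0 j = (x - r' j) - (x0 j - ρ j) * u * P := by rw [← e1]; ring
          rw [this]
          exact dvd_sub h6 (Dvd.intro_left _ rfl)
        · have h6 : (q : ℤ) ∣ x - r' j := (dvd_mul_left _ _).trans h5
          have : x - ρ j = (x - r' j) - (ρ j - x0 j) * w * q := by rw [← e2]; ring
          rw [this]
          exact dvd_sub h6 (Dvd.intro_left _ rfl)
    have h5 : 𝒜.filter (fun x => ∀ j, (q : ℤ) ∣ v x j - ρ j) =
        s.filter (fun x => ∀ j, ((P * q : ℕ) : ℤ) ∣ v x j - r' j) := by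
      rw [h𝒜, Finset.filter_filter]
      apply Finset.filter_congr
      intro x _
      constructor
      · rintro ⟨a1, a2⟩ j
        exact (hiff j (v x j)).mp ⟨a1 j, a2 j⟩
      · intro a1
        exact ⟨fun j => ((hiff j (v x j)).mpr (a1 j)).1, fun j => ((hiff j (v x j)).mpr (a1 j)).2⟩
    rw [h5]
    have h6 : (s.card : ℝ) / (P : ℝ) ^ n / (q : ℝ) ^ n = s.card / ((P * q : ℕ) : ℝ) ^ n := by
      push_cast
      rw [div_div, mul_pow]
    rw [h6]
    apply hcount (P * q) (Nat.mul_pos hPpos hq1)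
    push_cast
    calc (P : ℝ) * q ≤ X ^ (3 / 20 : ℝ) * X ^ (1 / 4 : ℝ) := by gcongr
      _ = X ^ (3 / 20 + 1 / 4 : ℝ) := by rw [Real.rpow_add hX0]
      _ = _ := by norm_num
  set Err₀ : ℝ := s.card * X ^ (-(2 * (n : ℝ))) with hErr₀
  have hErr₀0 : 0 ≤ Err₀ := by positivity
  set Err : ℝ := Err₀ * (X ^ (1 / 4 : ℝ)) ^ (n - 1) with hErr
  have hErr0 : 0 ≤ Err := by positivity
  obtain ⟨i, hi, hcovi⟩ := hcov X hXX1 K hcard
    (fun p => (G p : ℝ) / (p : ℝ) ^ n)
    (fun p hp hpl _ => by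
      have hp0 : (0 : ℝ) < p := by exact_mod_cast hp.pos
      have e : (p : ℝ) ^ n = (p : ℝ) ^ (n - 1) * p := by
        rw [← pow_succ, Nat.sub_add_cancel hn]
      constructor
      · rw [le_div_iff₀ (by positivity), e]
        calc 1 / (p : ℝ) * (1 - 1 / (2 * l)) * ((p : ℝ) ^ (n - 1) * p)
            = (p : ℝ) ^ (n - 1) * (1 - 1 / (2 * l)) := by field_simp
          _ ≤ G p := hGge p
      · rw [div_le_div_iff₀ (by positivity) hp0, e]
        have h5 : (G p : ℝ) ≤ (p : ℝ) ^ (n - 1) := by exact_mod_cast hGle p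
        nlinarith) ι 𝒜
    (fun x p => colF R (v x) p) (s.card / (P : ℝ) ^ n) Err hNpos hErr0 (by
      have h5 : (P : ℝ) ^ n ≤ X ^ ((3 / 20 : ℝ) * n) := by
        rw [Real.rpow_mul hX0.le, Real.rpow_natCast]
        exact pow_le_pow_left₀ hPr.le hprim n
      have h6 : (X ^ (1 / 4 : ℝ)) ^ (n - 1) ≤ X ^ ((1 / 4 : ℝ) * n) := by
        rw [Real.rpow_mul hX0.le, Real.rpow_natCast]
        exact pow_le_pow_right₀ (Real.one_le_rpow hX1 (by norm_num)) (Nat.sub_le n 1)
      rw [hErr, hErr₀, div_mul_eq_mul_div, le_div_iff₀ (by positivity)]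
      calc (s.card : ℝ) * X ^ (-(2 * (n : ℝ))) * (X ^ (1 / 4 : ℝ)) ^ (n - 1) * (P : ℝ) ^ n
          ≤ (s.card : ℝ) * X ^ (-(2 * (n : ℝ))) * X ^ ((1 / 4 : ℝ) * n) * X ^ ((3 / 20 : ℝ) * n) := by
            gcongr
        _ = (s.card : ℝ) * X ^ (-(2 * (n : ℝ)) + (1 / 4 : ℝ) * n + (3 / 20 : ℝ) * n) := by
            rw [Real.rpow_add hX0, Real.rpow_add hX0]; ring
        _ ≤ (s.card : ℝ) * X ^ (-(2 / 5) : ℝ) := by
            apply mul_le_mul_of_nonneg_left _ hscard.le
            apply Real.rpow_le_rpow_of_exponent_le hX1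
            nlinarith) (by
      intro S' hS' hS'Q D hD
      have h5 := countF₀ 𝒜 v R G (s.card / (P : ℝ) ^ n) Err₀ (X ^ (1 / 4 : ℝ)) (l ^ 2) hErr₀0
        hcountA S' (fun p hp => ⟨(hS' p hp).1, (hS' p hp).2.1⟩)
        (fun p hp => hRdisj p (hS' p hp).1 (hS' p hp).2.1 (hS' p hp).2.2)
        (fun p hp c => hRcard p c (hS' p hp).1 (hS' p hp).2.1 (hS' p hp).2.2) (fun p _ => hGle p)
        (fun p hp c ρ hρ => mem_boxF.mp
          (Finset.mem_filter.mp (hRsub p c (hS' p hp).1 (hS' p hp).2.1 (hS' p hp).2.2 hρ)).1)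
        hS'Q D hD
      refine le_trans (le_of_eq ?_) (h5.trans ?_)
      · congr!
      rw [hErr]
      apply mul_le_mul_of_nonneg_left _ hErr₀0
      rw [Finset.prod_pow]
      exact pow_le_pow_left₀ (Finset.prod_nonneg fun _ _ => Nat.cast_nonneg _) hS'Q _)
  rw [h𝒜, Finset.mem_filter] at hi
  refine ⟨i, hi.1, ?_⟩
  intro j m hm
  have hL16 : (16 : ℝ) ≤ L := by linarith
  have hLh : (L : ℝ) ≤ 2 * h + 1 := by
    have : L ≤ 2 * h + 1 := by omega
    exact_mod_cast this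
  have hm' := abs_le.mp hm
  set t : ℤ := m - F (v i) j with ht
  have hth : |t| ≤ (h : ℤ) := by
    have h5 : |((t : ℤ) : ℝ)| ≤ h := by
      rw [ht]
      push_cast
      refine hm.trans ?_
      linarith
    exact_mod_cast h5
  have hvp : ∀ p ∈ S, ∀ j', (p : ℤ) ∣ v i j' - (if p ∈ Q then σ p j' else 0) := by
    intro p hp j'
    have h5 : (p : ℤ) ∣ (P : ℤ) := by
      rw [hPS]
      exact Int.natCast_dvd_natCast.mpr (Finset.dvd_prod_of_mem _ hp)
    have h6 := dvd_add (h5.trans (hi.2 j')) (hx0 j' p hp)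
    have e : v i j' - x0 j' + (x0 j' - (if p ∈ Q then σ p j' else 0)) =
        v i j' - (if p ∈ Q then σ p j' else 0) := by ring
    rwa [e] at h6
  have hzp : ∀ p ∈ S, p ∉ Q → (p : ℤ) ∣ F (v i) j := by
    intro p hp hpQ
    have h5 := hcong p (v i) (fun _ => 0) (by
      intro j'
      have h6 := hvp p hp j'
      rwa [if_neg hpQ] at h6) j
    rwa [hzero j, sub_zero] at h5
  by_cases hcase : (j, t) ∈ Sv
  · obtain ⟨p, hp, hpl, hpX, hd⟩ := hcovi ⟨(j, t), Finset.mem_filter.mpr ⟨hcase, hth⟩⟩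
    refine ⟨p, hp, hpX, ?_⟩
    have hmem := (colF_eq (hRdisj p hp hpl hpX)).mp hd
    have hd' : (p : ℤ) ∣ F (fun j => v i j % (p : ℤ)) j - -t :=
      (Finset.mem_filter.mp (hRsub p _ hp hpl hpX hmem)).2.1
    have h5 : (p : ℤ) ∣ F (v i) j - F (fun j => v i j % (p : ℤ)) j := by
      apply hcong
      intro j'
      refine ⟨v i j' / p, ?_⟩
      have := Int.emod_add_mul_ediv (v i j') p
      linarith
    have h6 := dvd_add h5 hd'
    have e2 : F (v i) j - F (fun j => v i j % (p : ℤ)) j +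
        (F (fun j => v i j % (p : ℤ)) j - -t) = m := by
      rw [ht]
      ring
    rwa [e2] at h6
  · have hmt : m = F (v i) j + t := by rw [ht]; ring
    have hex : ∃ p ∈ S, (p ∉ Q ∧ (p : ℤ) ∣ t) ∨ (p ∈ Q ∧ (p : ℤ) ∣ F (σ p) j + t) := by
      by_contra hcon
      push Not at hcon
      apply hcase
      have htL : t ∈ Finset.Icc (-(L : ℤ)) (L : ℤ) := by
        have h5 := abs_le.mp hth
        rw [Finset.mem_Icc]
        constructor <;> omega
      refine Finset.mem_filter.mpr ⟨Finset.mem_product.mpr ⟨Finset.mem_univ _, htL⟩, ?_, ?_, ?_⟩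
      · intro ht0
        have h2S : 2 ∈ S := hSmem 2 Nat.prime_two (by push_cast; linarith)
        exact (hcon 2 h2S).1 h2Q (by rw [show t = 0 from ht0]; exact dvd_zero _)
      · intro p hp hpl hpQ hpt
        exact (hcon p (hSmem p hp hpl)).1 hpQ hpt
      · intro p hpQ hpt
        exact (hcon p (hSmem p (hQ p hpQ).1 (hQ p hpQ).2.2)).2 hpQ hpt
    obtain ⟨p, hpS, hp⟩ := hex
    refine ⟨p, hSp p hpS, (hSle p hpS).trans h3, ?_⟩
    rw [hmt]
    rcases hp with ⟨hpQ, hpt⟩ | ⟨hpQ, hpt⟩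
    · exact dvd_add (hzp p hpS hpQ) hpt
    · have h5 := hcong p (v i) (σ p) (by
        intro j'
        have h6 := hvp p hpS j'
        rwa [if_pos hpQ] at h6) j
      have h6 := dvd_add h5 hpt
      have e : F (v i) j - F (σ p) j + (F (σ p) j + t) = F (v i) j + t := by ring
      rwa [e] at h6

end Pool.Agent.V1179.MH.GH
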