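import Pool.Agent.V1179.MH.SF6

set_option autoImplicit false

/-! # Polynomial configurations: counting modulo primes -/

namespace Pool.Agent.V1179.MH.PC

open Finset Filter MvPolynomial
open Pool.Agent.V1179.MH.SF (boxF mem_boxF box_card critF)
open scoped Classical

/-- the value modulo `q` -/
lemma eval_cast (q : ℕ) {m : ℕ} (P : MvPolynomial (Fin m) ℤ) (y : Fin m → ℤ) :
    ((eval y P : ℤ) : ZMod q) =
      eval (fun l => ((y l : ℤ) : ZMod q)) (map (Int.castRingHom (ZMod q)) P) := by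
  rw [eval_map]
  have h := eval₂_comp_left (Int.castRingHom (ZMod q)) (RingHom.id ℤ) y P
  simpa [eval₂_id, Function.comp_def] using h

lemma eval_cong (q : ℕ) {m : ℕ} (P : MvPolynomial (Fin m) ℤ) (y y' : Fin m → ℤ)
    (h : ∀ j, (q : ℤ) ∣ y j - y' j) : (q : ℤ) ∣ eval y P - eval y' P := by
  have h0 : (fun l => ((y l : ℤ) : ZMod q)) = fun l => ((y' l : ℤ) : ZMod q) := by
    funext l
    rw [← sub_eq_zero, ← Int.cast_sub, ZMod.intCast_zmod_eq_zero_iff_dvd]
    exact h l
  rw [← ZMod.intCast_zmod_eq_zero_iff_dvd, Int.cast_sub, eval_cast, eval_cast, h0, sub_self]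

/-- values of a nonconstant polynomial modulo `p` -/
lemma few_values {m : ℕ} (Q : MvPolynomial (Fin m) ℤ) (s : Fin m →₀ ℕ) (hs : s ≠ 0) (p : ℕ)
    (hp : p.Prime) (hk : ((coeff s Q : ℤ) : ZMod p) ≠ 0) (c : ℤ) :
    ((boxF m p).filter (fun y => (p : ℤ) ∣ eval y Q - c)).card * p ≤ Q.totalDegree * p ^ m := by
  have := Fact.mk hp
  have : NeZero p := ⟨hp.ne_zero⟩
  set G : MvPolynomial (Fin m) (ZMod p) := map (Int.castRingHom (ZMod p)) Q - C (c : ZMod p) with hG
  have hG0 : G ≠ 0 := by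
    intro h
    have h1 : coeff s G = ((coeff s Q : ℤ) : ZMod p) := by
      rw [hG, coeff_sub, coeff_map, coeff_C, if_neg (Ne.symm hs), sub_zero]
      rfl
    rw [h, coeff_zero] at h1
    exact hk h1.symm
  have hdeg : G.totalDegree ≤ Q.totalDegree := by
    rw [hG]
    refine (totalDegree_sub_C_le _ _).trans ?_
    exact Finset.sup_mono (support_map_subset _ _)
  have h1 := schwartz_zippel_totalDegree hG0 (Finset.univ : Finset (ZMod p))
  have h2 : ((boxF m p).filter (fun y => (p : ℤ) ∣ eval y Q - c)).card =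
      ((Finset.univ : Finset (Fin m → ZMod p)).filter (fun y => eval y G = 0)).card := by
    rw [box_card (n := m) (p := p) (fun y => (p : ℤ) ∣ eval y Q - c)
      (fun y => eval y G = 0) (by
        intro y
        rw [hG, map_sub, eval_C, ← eval_cast, ← Int.cast_sub, ZMod.intCast_zmod_eq_zero_iff_dvd])]
  have h3 : Fintype.piFinset (fun _ : Fin m => (Finset.univ : Finset (ZMod p))) = Finset.univ := by
    ext y
    simp
  rw [h3, Finset.card_univ, ZMod.card] at h1
  have hp0 : (0 : ℚ≥0) < p := by exact_mod_cast hp.pos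
  have h4 : (((Finset.univ : Finset (Fin m → ZMod p)).filter (fun y => eval y G = 0)).card : ℚ≥0) *
      p ≤ G.totalDegree * (p : ℚ≥0) ^ m := by
    rw [div_le_div_iff₀ (by positivity) hp0] at h1
    convert h1
  rw [h2]
  have h5 : ((Finset.univ : Finset (Fin m → ZMod p)).filter (fun y => eval y G = 0)).card * p ≤
      G.totalDegree * p ^ m := by exact_mod_cast h4
  exact h5.trans (Nat.mul_le_mul_right _ hdeg)

/-- the values `x + P(y) - P(0)` -/
noncomputable def val {m : ℕ} (P : MvPolynomial (Fin m) ℤ) (z : Fin (m + 1) → ℤ) : ℤ :=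
  z 0 + eval (fun l => z l.succ) P

lemma count_one {m : ℕ} (P : MvPolynomial (Fin m) ℤ) (p : ℕ) (hp : p.Prime) (a : ℤ) :
    p ^ m ≤ ((boxF (m + 1) p).filter (fun z => (p : ℤ) ∣ val P z - a)).card := by
  have hp0 : (0 : ℤ) < p := by exact_mod_cast hp.pos
  have h1 : (boxF m p).card = p ^ m := by
    unfold boxF
    rw [Fintype.card_piFinset, Finset.prod_const, Finset.card_univ, Fintype.card_fin]
    simp
  rw [← h1]
  apply Finset.card_le_card_of_injOn
    (fun y => (Fin.cons ((a - eval y P) % p) y : Fin (m + 1) → ℤ))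
  · intro y hy
    have hy' := mem_boxF.mp (Finset.mem_coe.mp hy)
    refine Finset.mem_coe.mpr (Finset.mem_filter.mpr ⟨?_, ?_⟩)
    · rw [mem_boxF]
      intro j
      refine Fin.cases ?_ (fun l => ?_) j
      · simp only [Fin.cons_zero]
        exact ⟨Int.emod_nonneg _ hp0.ne', Int.emod_lt_of_pos _ hp0⟩
      · simp only [Fin.cons_succ]
        exact hy' l
    · unfold val
      simp only [Fin.cons_zero, Fin.cons_succ]
      have e : (a - eval y P) % (p : ℤ) + eval y P - a =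
          -((p : ℤ) * ((a - eval y P) / p)) := by
        have := Int.emod_add_mul_ediv (a - eval y P) p
        linarith
      rw [e]
      exact (dvd_neg).mpr (dvd_mul_right _ _)
  · intro y _ y' _ h
    funext l
    have := congrFun h l.succ
    simpa using this

lemma count_two {m : ℕ} (P P' : MvPolynomial (Fin m) ℤ) (p : ℕ) (hp : p.Prime) (a b : ℤ) :
    ((boxF (m + 1) p).filter (fun z => (p : ℤ) ∣ val P z - a ∧ (p : ℤ) ∣ val P' z - b)).card ≤
      ((boxF m p).filter (fun y => (p : ℤ) ∣ eval y (P - P') - (a - b))).card := by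
  have hp0 : (0 : ℤ) < p := by exact_mod_cast hp.pos
  apply Finset.card_le_card_of_injOn (fun z l => z l.succ)
  · intro z hz
    obtain ⟨h1, h2, h3⟩ := Finset.mem_filter.mp (Finset.mem_coe.mp hz)
    have hz' := mem_boxF.mp h1
    refine Finset.mem_coe.mpr (Finset.mem_filter.mpr ⟨?_, ?_⟩)
    · rw [mem_boxF]
      intro l
      exact hz' l.succ
    · rw [map_sub]
      unfold val at h2 h3
      have := dvd_sub h2 h3
      have e : z 0 + eval (fun l => z l.succ) P - a - (z 0 + eval (fun l => z l.succ) P' - b) =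
          eval (fun l => z l.succ) P - eval (fun l => z l.succ) P' - (a - b) := by ring
      rwa [e] at this
  · intro z hz z' hz' h
    obtain ⟨h1, h2, _⟩ := Finset.mem_filter.mp (Finset.mem_coe.mp hz)
    obtain ⟨h1', h2', _⟩ := Finset.mem_filter.mp (Finset.mem_coe.mp hz')
    simp only at h
    have hb := mem_boxF.mp h1 0
    have hb' := mem_boxF.mp h1' 0
    unfold val at h2 h2'
    rw [h] at h2
    have h4 := dvd_sub h2 h2'
    have e : z 0 + eval (fun l => z' l.succ) P - a - (z' 0 + eval (fun l => z' l.succ) P - a) =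
        z 0 - z' 0 := by ring
    rw [e] at h4
    have h5 : z 0 = z' 0 := by
      have h6 : z 0 % p = z' 0 % p := Int.emod_eq_emod_iff_emod_sub_eq_zero.mpr
        (Int.emod_eq_zero_of_dvd h4)
      rwa [Int.emod_eq_of_lt hb.1 hb.2, Int.emod_eq_of_lt hb'.1 hb'.2] at h6
    funext j
    refine Fin.cases h5 (fun l => ?_) j
    exact congrFun h l

/-- a nonconstant polynomial has a coefficient -/
lemma exists_coeff {m : ℕ} (Q : MvPolynomial (Fin m) ℤ) (hQ : ∀ c : ℤ, Q ≠ C c) :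
    ∃ s : Fin m →₀ ℕ, s ≠ 0 ∧ coeff s Q ≠ 0 := by
  by_contra hcon
  push Not at hcon
  apply hQ (coeff 0 Q)
  ext s
  rw [coeff_C]
  split_ifs with h
  · rw [← h]
  · exact hcon s (Ne.symm h)

/-- residue classes in an interval -/
lemma card_Ico_class (a : ℤ) (L q : ℕ) (hq : 1 ≤ q) (ρ : ℤ) :
    |((((Finset.Ico a (a + L)).filter (fun x => (q : ℤ) ∣ x - ρ)).card : ℕ) : ℝ) -
      L / q| ≤ 1 := by
  have hq0 : (0 : ℤ) < q := by exact_mod_cast hq
  have hqR : (0 : ℝ) < q := by exact_mod_cast hq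
  have h1 : (Finset.Ico a (a + L)).filter (fun x => (q : ℤ) ∣ x - ρ) =
      (Finset.Ico a (a + L)).filter (fun x => x ≡ ρ [ZMOD q]) := by
    apply Finset.filter_congr
    intro x _
    rw [Int.modEq_comm, Int.modEq_iff_dvd]
  have h2 := Int.Ico_filter_modEq_card (a := a) (b := a + L) (r := (q : ℤ)) hq0 ρ
  rw [h1]
  set N := ((Finset.Ico a (a + L)).filter (fun m => m ≡ ρ [ZMOD q])).card
  have hle : ((a : ℚ) - ρ) / ((q : ℤ) : ℚ) ≤ (((a + L : ℤ) : ℚ) - ρ) / ((q : ℤ) : ℚ) := by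
    apply div_le_div_of_nonneg_right _ (by exact_mod_cast hq0.le)
    push_cast
    have : (0 : ℚ) ≤ L := Nat.cast_nonneg _
    linarith
  have hmono := Int.ceil_le_ceil hle
  push_cast at h2 hmono ⊢
  rw [max_eq_left (by linarith)] at h2
  have h3 : (N : ℝ) = ((⌈((a : ℚ) + L - ρ) / q⌉ - ⌈((a : ℚ) - ρ) / q⌉ : ℤ) : ℝ) := by
    exact_mod_cast h2
  have e1 := Int.le_ceil (((a : ℚ) + L - ρ) / q)
  have e2 := Int.ceil_lt_add_one (((a : ℚ) + L - ρ) / q)
  have e3 := Int.le_ceil (((a : ℚ) - ρ) / q)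
  have e4 := Int.ceil_lt_add_one (((a : ℚ) - ρ) / q)
  have f1 : (((a : ℝ) + L - ρ) / q) ≤ (⌈((a : ℚ) + L - ρ) / q⌉ : ℝ) := by exact_mod_cast e1
  have f2 : (⌈((a : ℚ) + L - ρ) / q⌉ : ℝ) < ((a : ℝ) + L - ρ) / q + 1 := by exact_mod_cast e2
  have f3 : (((a : ℝ) - ρ) / q) ≤ (⌈((a : ℚ) - ρ) / q⌉ : ℝ) := by exact_mod_cast e3
  have f4 : (⌈((a : ℚ) - ρ) / q⌉ : ℝ) < ((a : ℝ) - ρ) / q + 1 := by exact_mod_cast e4
  have f5 : ((a : ℝ) + L - ρ) / q = ((a : ℝ) - ρ) / q + L / q := by ring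
  rw [h3]
  push_cast
  rw [abs_le]
  constructor <;> linarith

/-- residue classes in a box -/
lemma box_count (n q : ℕ) (a : Fin n → ℤ) (L : Fin n → ℕ) (W : ℝ) (hW : 1 ≤ W)
    (hL : ∀ j, W ≤ L j) (hq : 1 ≤ q) (ρ : Fin n → ℤ) :
    |((((Fintype.piFinset (fun j : Fin n => Finset.Ico (a j) (a j + L j))).filter
      (fun v => ∀ j, (q : ℤ) ∣ v j - ρ j)).card : ℕ) : ℝ) - (∏ j, (L j : ℝ)) / (q : ℝ) ^ n| ≤
      n * (1 / (2 * W)) * ∏ j, (2 * (L j : ℝ)) := by
  have hqR : (1 : ℝ) ≤ q := by exact_mod_cast hq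
  have h1 : (Fintype.piFinset (fun j : Fin n => Finset.Ico (a j) (a j + L j))).filter
      (fun v => ∀ j, (q : ℤ) ∣ v j - ρ j) = Fintype.piFinset (fun j : Fin n =>
        (Finset.Ico (a j) (a j + L j)).filter (fun x => (q : ℤ) ∣ x - ρ j)) := by
    ext v
    simp only [Finset.mem_filter, Fintype.mem_piFinset]
    exact forall_and.symm
  rw [h1, Fintype.card_piFinset]
  push_cast
  have h2 : (∏ j, (L j : ℝ)) / (q : ℝ) ^ n = ∏ j : Fin n, ((L j : ℝ) / q) := by
    rw [Finset.prod_div_distrib, Finset.prod_const, Finset.card_univ, Fintype.card_fin]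
  rw [h2]
  apply Pool.Agent.V1179.MH.prod_diff n _ _ _ _ (by positivity)
  · intro j
    have := (abs_le.mp (card_Ico_class (a j) (L j) q hq (ρ j))).2
    have hYq : (L j : ℝ) / q ≤ L j := div_le_self (Nat.cast_nonneg _) hqR
    have := hL j
    refine ⟨Nat.cast_nonneg _, ?_⟩
    linarith
  · intro j
    have hYq : (L j : ℝ) / q ≤ L j := div_le_self (Nat.cast_nonneg _) hqR
    have := hL j
    exact ⟨by positivity, by linarith⟩
  · intro j
    have h3 := card_Ico_class (a j) (L j) q hq (ρ j)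
    have h4 := hL j
    have e : 1 ≤ 1 / (2 * W) * (2 * (L j : ℝ)) := by
      rw [div_mul_eq_mul_div, one_mul, le_div_iff₀ (by positivity)]
      linarith
    exact h3.trans e

end Pool.Agent.V1179.MH.PC
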