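import Pool.Agent.V1179.MH.GH10
import Pool.Agent.V1179.MH.PC1

set_option autoImplicit false

/-! # Dilates of the values of several polynomials: counting modulo primes -/

namespace Pool.Agent.V1179.MH.GH

open Finset Filter MvPolynomial
open Pool.Agent.V1179.MH.SF (boxF mem_boxF box_card cast_ne)
open Pool.Agent.V1179.MH.PC (eval_cast eval_cong)
open scoped Classical

/-- the numbers `x M(y)` for `z = (x, y)` -/
noncomputable def dil {m : ℕ} (M : MvPolynomial (Fin m) ℤ) (z : Fin (m + 1) → ℤ) : ℤ :=
  z 0 * eval (fun l => z l.succ) M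

lemma dil_cong (q : ℕ) {m : ℕ} (M : MvPolynomial (Fin m) ℤ) (y y' : Fin (m + 1) → ℤ)
    (h : ∀ j, (q : ℤ) ∣ y j - y' j) : (q : ℤ) ∣ dil M y - dil M y' := by
  have h1 := eval_cong q M (fun l => y l.succ) (fun l => y' l.succ) (fun l => h l.succ)
  unfold dil
  have e : y 0 * eval (fun l => y l.succ) M - y' 0 * eval (fun l => y' l.succ) M =
      (y 0 - y' 0) * eval (fun l => y l.succ) M +
        y' 0 * (eval (fun l => y l.succ) M - eval (fun l => y' l.succ) M) := by ring
  rw [e]
  exact dvd_add (Dvd.dvd.mul_right (h 0) _) (Dvd.dvd.mul_left h1 _)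

/-- zeros of a nonzero polynomial in a box of residues -/
lemma few_zeros {m : ℕ} (p : ℕ) [Fact p.Prime] (G : MvPolynomial (Fin m) (ZMod p)) (hG : G ≠ 0)
    (D : ℕ) (hD : G.totalDegree ≤ D) :
    ((Finset.univ : Finset (Fin m → ZMod p)).filter (fun y => eval y G = 0)).card * p ≤
      D * p ^ m := by
  have hp := Fact.out (p := p.Prime)
  have h1 := schwartz_zippel_totalDegree hG (Finset.univ : Finset (ZMod p))
  have h3 : Fintype.piFinset (fun _ : Fin m => (Finset.univ : Finset (ZMod p))) = Finset.univ := by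
    ext y
    simp
  rw [h3, Finset.card_univ, ZMod.card] at h1
  have hp0 : (0 : ℚ≥0) < p := by exact_mod_cast hp.pos
  have h4 : (((Finset.univ : Finset (Fin m → ZMod p)).filter (fun y => eval y G = 0)).card : ℚ≥0) *
      p ≤ G.totalDegree * (p : ℚ≥0) ^ m := by
    rw [div_le_div_iff₀ (by positivity) hp0] at h1
    convert h1
  have h5 : ((Finset.univ : Finset (Fin m → ZMod p)).filter (fun y => eval y G = 0)).card * p ≤
      G.totalDegree * p ^ m := by exact_mod_cast h4
  exact h5.trans (Nat.mul_le_mul_right _ hD)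

/-- one value -/
lemma dil_one {m : ℕ} (p : ℕ) [Fact p.Prime] (G : MvPolynomial (Fin m) (ZMod p)) (hG : G ≠ 0)
    (D : ℕ) (hD : G.totalDegree ≤ D) (a : ZMod p) :
    (p : ℝ) ^ m * (1 - (D : ℝ) / p) ≤
      ((((Finset.univ : Finset (Fin (m + 1) → ZMod p)).filter
        (fun z => z 0 * eval (fun l => z l.succ) G = a)).card : ℕ) : ℝ) := by
  have hp := Fact.out (p := p.Prime)
  have hp0 : (0 : ℝ) < p := by exact_mod_cast hp.pos
  have h1 := few_zeros p G hG D hD
  set B := (Finset.univ : Finset (Fin m → ZMod p)).filter (fun y => eval y G = 0) with hB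
  set B' := (Finset.univ : Finset (Fin m → ZMod p)).filter (fun y => ¬ eval y G = 0) with hB'
  have h2 : B.card + B'.card = p ^ m := by
    have := card_filter_add_card_filter_not (s := (Finset.univ : Finset (Fin m → ZMod p)))
      (fun y => eval y G = 0)
    rw [hB, hB', this, Finset.card_univ, Fintype.card_fun, ZMod.card, Fintype.card_fin]
  have h3 : B'.card ≤ ((Finset.univ : Finset (Fin (m + 1) → ZMod p)).filter
        (fun z => z 0 * eval (fun l => z l.succ) G = a)).card := by
    apply Finset.card_le_card_of_injOn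
      (fun y => (Fin.cons (a * (eval y G)⁻¹) y : Fin (m + 1) → ZMod p))
    · intro y hy
      have hy' := (Finset.mem_filter.mp (Finset.mem_coe.mp hy)).2
      refine Finset.mem_coe.mpr (Finset.mem_filter.mpr ⟨Finset.mem_univ _, ?_⟩)
      simp only [Fin.cons_zero, Fin.cons_succ]
      rw [mul_assoc, inv_mul_cancel₀ hy', mul_one]
    · intro y _ y' _ h
      funext l
      have := congrFun h l.succ
      simpa using this
  have h4 : (B.card : ℝ) * p ≤ D * (p : ℝ) ^ m := by exact_mod_cast h1
  have h5 : (B.card : ℝ) + B'.card = (p : ℝ) ^ m := by exact_mod_cast h2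
  have h6 : (B'.card : ℝ) ≤ ((((Finset.univ : Finset (Fin (m + 1) → ZMod p)).filter
        (fun z => z 0 * eval (fun l => z l.succ) G = a)).card : ℕ) : ℝ) := by exact_mod_cast h3
  have h7 : (B.card : ℝ) ≤ (p : ℝ) ^ m * (D / p) := by
    rw [← mul_div_assoc, le_div_iff₀ hp0]
    linarith
  have h8 : (p : ℝ) ^ m * (1 - (D : ℝ) / p) = (p : ℝ) ^ m - (p : ℝ) ^ m * (D / p) := by ring
  rw [h8]
  linarith

/-- two values -/
lemma dil_two {m : ℕ} (p : ℕ) [Fact p.Prime] (G G' : MvPolynomial (Fin m) (ZMod p)) (D : ℕ)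
    (hD : G.totalDegree ≤ D) (hD' : G'.totalDegree ≤ D) (a b : ZMod p) (ha : a ≠ 0)
    (hne : C b * G - C a * G' ≠ 0) :
    ((((Finset.univ : Finset (Fin (m + 1) → ZMod p)).filter
        (fun z => z 0 * eval (fun l => z l.succ) G = a ∧
          z 0 * eval (fun l => z l.succ) G' = b)).card : ℕ) : ℝ) ≤ (p : ℝ) ^ m * ((D : ℝ) / p) := by
  have hp := Fact.out (p := p.Prime)
  have hp0 : (0 : ℝ) < p := by exact_mod_cast hp.pos
  have h1 := few_zeros p (C b * G - C a * G') hne D (by
    refine (totalDegree_sub _ _).trans (max_le ?_ ?_)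
    · refine (totalDegree_mul _ _).trans ?_
      rw [totalDegree_C, zero_add]
      exact hD
    · refine (totalDegree_mul _ _).trans ?_
      rw [totalDegree_C, zero_add]
      exact hD')
  have h3 : ((Finset.univ : Finset (Fin (m + 1) → ZMod p)).filter
        (fun z => z 0 * eval (fun l => z l.succ) G = a ∧
          z 0 * eval (fun l => z l.succ) G' = b)).card ≤
      ((Finset.univ : Finset (Fin m → ZMod p)).filter
        (fun y => eval y (C b * G - C a * G') = 0)).card := by
    apply Finset.card_le_card_of_injOn (fun z l => z l.succ)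
    · intro z hz
      obtain ⟨h4, h5⟩ := (Finset.mem_filter.mp (Finset.mem_coe.mp hz)).2
      refine Finset.mem_coe.mpr (Finset.mem_filter.mpr ⟨Finset.mem_univ _, ?_⟩)
      simp only [map_sub, map_mul, eval_C]
      rw [← h4, ← h5]
      ring
    · intro z hz z' hz' hzz
      obtain ⟨h4, _⟩ := (Finset.mem_filter.mp (Finset.mem_coe.mp hz)).2
      obtain ⟨h4', _⟩ := (Finset.mem_filter.mp (Finset.mem_coe.mp hz')).2
      simp only at hzz
      have h5 : eval (fun l => z' l.succ) G ≠ 0 := by
        intro hcon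
        rw [hcon, mul_zero] at h4'
        exact ha h4'.symm
      rw [hzz, ← h4'] at h4
      have h6 := mul_right_cancel₀ h5 h4
      funext j
      refine Fin.cases h6 (fun l => ?_) j
      exact congrFun hzz l
  have h4 := (Nat.mul_le_mul_right p h3).trans h1
  rw [← mul_div_assoc, le_div_iff₀ hp0]
  have h5 : ((((Finset.univ : Finset (Fin (m + 1) → ZMod p)).filter
        (fun z => z 0 * eval (fun l => z l.succ) G = a ∧
          z 0 * eval (fun l => z l.succ) G' = b)).card : ℕ) : ℝ) * p ≤ D * (p : ℝ) ^ m := by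
    exact_mod_cast h4
  linarith

end Pool.Agent.V1179.MH.GH
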