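import Pool.Agent.V1179.MH.GH11

set_option autoImplicit false

/-! # Dilates of the values of several polynomials, without primes nearby -/

namespace Pool.Agent.V1179.MH.GH

open Finset Filter MvPolynomial
open Pool.Agent.V1179.MH.SF (boxF mem_boxF box_card cast_ne)
open Pool.Agent.V1179.MH.PC (box_count eval_cast eval_cong)
open Pool.Agent.W147.PS (ff ff_compare ev_pow)
open scoped Classical

/-- independent polynomials have a nonzero minor -/
lemma exists_minor {m : ℕ} (M M' : MvPolynomial (Fin m) ℤ) (hM : M ≠ 0)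
    (h : ∀ u v : ℤ, v ≠ 0 → C u * M ≠ C v * M') :
    ∃ st : (Fin m →₀ ℕ) × (Fin m →₀ ℕ),
      coeff st.1 M * coeff st.2 M' - coeff st.2 M * coeff st.1 M' ≠ 0 := by
  obtain ⟨s, hs⟩ := MvPolynomial.ne_zero_iff.mp hM
  by_contra hcon
  push Not at hcon
  apply h (coeff s M') (coeff s M) hs
  ext t
  rw [coeff_C_mul, coeff_C_mul]
  have := hcon (s, t)
  simp only at this
  linarith

lemma not_proportional {m : ℕ} (M M' : MvPolynomial (Fin m) ℤ) (s t : Fin m →₀ ℕ) (p : ℕ)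
    [Fact p.Prime]
    (h : ((coeff s M * coeff t M' - coeff t M * coeff s M' : ℤ) : ZMod p) ≠ 0) (a b : ZMod p)
    (ha : a ≠ 0) :
    C b * map (Int.castRingHom (ZMod p)) M - C a * map (Int.castRingHom (ZMod p)) M' ≠ 0 := by
  intro hcon
  have h1 := congrArg (coeff s) hcon
  have h2 := congrArg (coeff t) hcon
  rw [coeff_sub, coeff_C_mul, coeff_C_mul, coeff_map, coeff_map, coeff_zero] at h1 h2
  simp only [eq_intCast] at h1 h2
  push_cast at h
  apply h
  have h3 : a * (((coeff s M : ℤ) : ZMod p) * ((coeff t M' : ℤ) : ZMod p) -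
      ((coeff t M : ℤ) : ZMod p) * ((coeff s M' : ℤ) : ZMod p)) = 0 := by
    linear_combination ((coeff t M : ℤ) : ZMod p) * h1 - ((coeff s M : ℤ) : ZMod p) * h2
  exact (mul_eq_zero.mp h3).resolve_left ha

lemma dil_iff {m : ℕ} (M : MvPolynomial (Fin m) ℤ) (p : ℕ) (a : ℤ) (ρ : Fin (m + 1) → ℤ) :
    (p : ℤ) ∣ dil M ρ - a ↔ ((fun j => ((ρ j : ℤ) : ZMod p)) : Fin (m + 1) → ZMod p) 0 *
      eval (fun l => ((fun j => ((ρ j : ℤ) : ZMod p)) : Fin (m + 1) → ZMod p) l.succ)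
        (map (Int.castRingHom (ZMod p)) M) = (a : ZMod p) := by
  rw [← ZMod.intCast_zmod_eq_zero_iff_dvd]
  unfold dil
  rw [Int.cast_sub, Int.cast_mul, eval_cast, sub_eq_zero]

theorem dil_config (m r D : ℕ) (hr : 1 ≤ r) (ε : ℝ) (h0 : 0 < ε) (h1 : ε ≤ 1) :
    ∃ κ : ℝ, 0 < κ ∧ ∀ M : Fin r → MvPolynomial (Fin m) ℤ, (∀ i, (M i).totalDegree ≤ D) →
    (∀ i, M i ≠ 0) → (∀ i j, i ≠ j → ∀ u v : ℤ, v ≠ 0 → C u * M i ≠ C v * M j) →
    ∃ T₀ : ℝ, ∀ T : ℝ, T₀ ≤ T → ∀ (a : Fin (m + 1) → ℤ) (L : Fin (m + 1) → ℕ),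
      (∀ j, T ^ ε ≤ L j) →
      (∀ z : Fin (m + 1) → ℤ, (∀ j, a j ≤ z j ∧ z j < a j + L j) → ∀ i,
        T ^ ε ≤ ((dil (M i) z : ℤ) : ℝ)) →
      ∃ z : Fin (m + 1) → ℤ, (∀ j, a j ≤ z j ∧ z j < a j + L j) ∧
        ∀ i, ∀ q : ℕ, q.Prime → κ * ff T < |(q : ℝ) - ((dil (M i) z : ℤ) : ℝ)| := by
  obtain ⟨κ, hκ, hcr⟩ := critZ (m + 1) r (by omega) hr (D : ℝ) (Nat.cast_nonneg _)
  set n : ℝ := ((m + 1 : ℕ) : ℝ) with hn
  have hn1 : (1 : ℝ) ≤ n := by
    rw [hn]
    push_cast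
    linarith [(Nat.cast_nonneg m : (0 : ℝ) ≤ m)]
  set θ : ℝ := ε / (4 * n) with hθ
  have hθ0 : 0 < θ := by positivity
  have hθε : θ ≤ ε := div_le_self h0.le (by linarith)
  have hθ1 : θ ≤ 1 := hθε.trans h1
  refine ⟨κ * (θ / 32), by positivity, ?_⟩
  intro M hdeg hM0 hM
  have hex : ∀ i, ∃ s : Fin m →₀ ℕ, coeff s (M i) ≠ 0 := fun i => MvPolynomial.ne_zero_iff.mp (hM0 i)
  choose s hs using hex
  have hex2 : ∀ i j, i ≠ j → ∃ st : (Fin m →₀ ℕ) × (Fin m →₀ ℕ),
      coeff st.1 (M i) * coeff st.2 (M j) - coeff st.2 (M i) * coeff st.1 (M j) ≠ 0 :=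
    fun i j hij => exists_minor _ _ (hM0 i) (hM i j hij)
  choose! st hst using hex2
  set P₁ : ℝ := ∑ i, |((coeff (s i) (M i) : ℤ) : ℝ)| with hP₁
  set P₂ : ℝ := ∑ i, ∑ j, |((coeff (st i j).1 (M i) * coeff (st i j).2 (M j) -
    coeff (st i j).2 (M i) * coeff (st i j).1 (M j) : ℤ) : ℝ)| with hP₂
  have hP₁0 : 0 ≤ P₁ := Finset.sum_nonneg fun i _ => abs_nonneg _
  have hP₂0 : 0 ≤ P₂ := Finset.sum_nonneg fun i _ => Finset.sum_nonneg fun j _ => abs_nonneg _
  obtain ⟨X₀, hX0⟩ := hcr (P₁ + P₂)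
  have tθ := tendsto_rpow_atTop hθ0
  have hev := (ff_compare θ hθ0 hθ1).and ((tθ.eventually_ge_atTop X₀).and
    ((tθ.eventually Pool.Agent.Y961.JR.ev_small).and ((eventually_gt_atTop (1 : ℝ)).and
        ((tendsto_rpow_atTop (show (0 : ℝ) < ε / 2 by positivity)).eventually_ge_atTop
          (n * 2 ^ (m + 1))))))
  obtain ⟨Z, hZ⟩ := eventually_atTop.1 hev
  refine ⟨Z, ?_⟩
  intro T hT a L hL hval
  obtain ⟨m1, m2, ⟨m3, m4⟩, m7, m8⟩ := hZ T hT
  have hT0 : 0 < T := by linarith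
  set X : ℝ := T ^ θ with hX
  obtain ⟨hfl, hcrit⟩ := hX0 X m2
  set W : ℝ := T ^ ε with hW
  have hW1 : 1 ≤ W := Real.one_le_rpow m7.le h0.le
  have hXW : X ≤ W := Real.rpow_le_rpow_of_exponent_le m7.le hθε
  have hX0' : 0 < X := Real.rpow_pos_of_pos hT0 _
  have hXg : X ^ (2 * n) = T ^ (ε / 2) := by
    rw [hX, ← Real.rpow_mul hT0.le]
    congr 1
    rw [hθ]
    field_simp
    norm_num
  have hWW : T ^ (ε / 2) * T ^ (ε / 2) = W := by
    rw [hW, ← Real.rpow_add hT0]
    congr 1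
    ring
  set box : Finset (Fin (m + 1) → ℤ) :=
    Fintype.piFinset (fun j : Fin (m + 1) => Finset.Ico (a j) (a j + L j)) with hbox
  have hLpos : ∀ j, (1 : ℝ) ≤ L j := fun j => hW1.trans (hL j)
  have hcard : (box.card : ℝ) = ∏ j, (L j : ℝ) := by
    rw [hbox, Fintype.card_piFinset]
    push_cast
    apply Finset.prod_congr rfl
    intro j _
    simp
  have hprod : (0 : ℝ) < ∏ j, (L j : ℝ) := Finset.prod_pos fun j _ => by linarith [hLpos j]
  have hne : box.Nonempty := by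
    rw [← Finset.card_pos]
    have : (0 : ℝ) < box.card := by
      rw [hcard]
      exact hprod
    exact_mod_cast this
  have hdegp : ∀ (p : ℕ) (i : Fin r),
      (map (Int.castRingHom (ZMod p)) (M i)).totalDegree ≤ D := fun p i =>
    (Finset.sup_mono (support_map_subset _ _)).trans (hdeg i)
  obtain ⟨z, hz, hz2⟩ := hcrit (fun z i => dil (M i) z)
    (fun q ρ ρ' h i => dil_cong q (M i) ρ ρ' h)
    (by
      intro i
      unfold dil
      rw [zero_mul])
    (by
      intro p hp hpP _ i u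
      have := Fact.mk hp
      have : NeZero p := ⟨hp.ne_zero⟩
      have hG : map (Int.castRingHom (ZMod p)) (M i) ≠ 0 := by
        intro hcon
        have h2 := congrArg (coeff (s i)) hcon
        rw [coeff_map, coeff_zero, eq_intCast] at h2
        have hk : ((coeff (s i) (M i) : ℤ) : ZMod p) ≠ 0 := by
          apply cast_ne _ (hs i)
          refine lt_of_le_of_lt ?_ hpP
          have h3 : |((coeff (s i) (M i) : ℤ) : ℝ)| ≤ P₁ :=
            Finset.single_le_sum (f := fun i => |((coeff (s i) (M i) : ℤ) : ℝ)|)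
              (fun i _ => abs_nonneg _) (Finset.mem_univ i)
          linarith
        exact hk h2
      have h2 := dil_one p _ hG D (hdegp p i) (u : ZMod p)
      have h3 := box_card (n := m + 1) (p := p) (fun ρ => (p : ℤ) ∣ dil (M i) ρ - u)
        (fun z : Fin (m + 1) → ZMod p => z 0 * eval (fun l => z l.succ)
          (map (Int.castRingHom (ZMod p)) (M i)) = (u : ZMod p)) (fun ρ => dil_iff (M i) p u ρ)
      rw [h3]
      simp only [Nat.add_sub_cancel]
      refine h2.trans (le_of_eq ?_)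
      congr!)
    (by
      intro p hp hpP _ i j hij u v hu _ hu0 _
      have := Fact.mk hp
      have : NeZero p := ⟨hp.ne_zero⟩
      have hk : ((coeff (st i j).1 (M i) * coeff (st i j).2 (M j) -
          coeff (st i j).2 (M i) * coeff (st i j).1 (M j) : ℤ) : ZMod p) ≠ 0 := by
        apply cast_ne _ (hst i j hij)
        refine lt_of_le_of_lt ?_ hpP
        have h3 : |((coeff (st i j).1 (M i) * coeff (st i j).2 (M j) -
          coeff (st i j).2 (M i) * coeff (st i j).1 (M j) : ℤ) : ℝ)| ≤ P₂ := by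
          rw [hP₂]
          refine le_trans ?_ (Finset.single_le_sum (fun i _ => Finset.sum_nonneg
            (fun j _ => abs_nonneg _)) (Finset.mem_univ i))
          exact Finset.single_le_sum (f := fun j => |((coeff (st i j).1 (M i) *
            coeff (st i j).2 (M j) - coeff (st i j).2 (M i) * coeff (st i j).1 (M j) : ℤ) : ℝ)|)
            (fun j _ => abs_nonneg _) (Finset.mem_univ j)
        linarith
      have hu0' : ((u : ℤ) : ZMod p) ≠ 0 := by
        intro hcon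
        exact hu0 (Int.eq_zero_of_abs_lt_dvd
          ((ZMod.intCast_zmod_eq_zero_iff_dvd _ _).mp hcon) hu)
      have h2 := dil_two p _ _ D (hdegp p i) (hdegp p j) (u : ZMod p) (v : ZMod p) hu0'
        (not_proportional (M i) (M j) _ _ p hk _ _ hu0')
      have h3 := box_card (n := m + 1) (p := p)
        (fun ρ => (p : ℤ) ∣ dil (M i) ρ - u ∧ (p : ℤ) ∣ dil (M j) ρ - v)
        (fun z : Fin (m + 1) → ZMod p => z 0 * eval (fun l => z l.succ)
          (map (Int.castRingHom (ZMod p)) (M i)) = (u : ZMod p) ∧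
          z 0 * eval (fun l => z l.succ)
          (map (Int.castRingHom (ZMod p)) (M j)) = (v : ZMod p))
        (fun ρ => and_congr (dil_iff (M i) p u ρ) (dil_iff (M j) p v ρ))
      rw [h3]
      simp only [Nat.add_sub_cancel]
      refine le_trans (le_of_eq ?_) h2
      congr!)
    (Fin (m + 1) → ℤ) box (fun v => v) hne (by
      intro q hq _ ρ
      rw [hcard]
      refine (box_count (m + 1) q a L W hW1 hL hq ρ).trans ?_
      rw [← hn, Real.rpow_neg hX0'.le, hXg, Finset.prod_mul_distrib, Finset.prod_const,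
        Finset.card_univ, Fintype.card_fin]
      have e1 : n * (1 / (2 * W)) * (2 ^ (m + 1) * ∏ j, (L j : ℝ)) =
          (∏ j, (L j : ℝ)) * (n * 2 ^ (m + 1) / (2 * W)) := by
        field_simp
      rw [e1]
      apply mul_le_mul_of_nonneg_left _ hprod.le
      have hTe : 0 < T ^ (ε / 2) := Real.rpow_pos_of_pos hT0 _
      rw [inv_eq_one_div, div_le_div_iff₀ (by positivity) hTe]
      nlinarith)
  have hzb : ∀ j, a j ≤ z j ∧ z j < a j + L j := by
    intro j
    have := Fintype.mem_piFinset.mp hz j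
    rwa [Finset.mem_Ico] at this
  refine ⟨z, hzb, ?_⟩
  intro i q hq
  have hscal : κ * (θ / 32) * ff T ≤ κ * Pool.Agent.H256R2.SC.ff X :=
    Pool.Agent.Y961.JR.ff_scaled κ θ T hκ hθ1 m7.le m1.2
  refine lt_of_le_of_lt hscal ?_
  apply Pool.Agent.Y961.JR.no_prime κ X hfl m3 m4
    ((dil (M i) z : ℤ) : ℝ) (hXW.trans (hval z hzb i)) _ q hq
  intro N hN
  rw [Int.floor_intCast] at hN
  exact hz2 i N hN

end Pool.Agent.V1179.MH.GH
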