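import Pool.Agent.V1179.MH.GH2

set_option autoImplicit false

/-! # Arithmetic and geometric progressions with the same start and step: counting -/

namespace Pool.Agent.V1179.MH.GH

open Finset Filter Polynomial
open Pool.Agent.V1179.MH.SF (boxF mem_boxF box_card)
open Pool.Agent.V1179.MH.PC (box_count)
open Pool.Agent.W147.PS (ff ff_compare ev_pow)
open scoped Classical

/-- the members `x + i (y - 1)` (`i ≤ k`) and `x y^(i - k)` (`i > k`) -/
def ga {R : Type*} [CommRing R] (k : ℕ) (z : Fin 2 → R) (i : ℕ) : R :=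
  if i ≤ k then z 0 + (i : R) * (z 1 - 1) else z 0 * z 1 ^ (i - k)

lemma ga_cast (q : ℕ) (k : ℕ) (z : Fin 2 → ℤ) (i : ℕ) :
    ((ga k z i : ℤ) : ZMod q) = ga k (fun j => ((z j : ℤ) : ZMod q)) i := by
  unfold ga
  split_ifs <;> push_cast <;> ring

lemma ga_cong (q : ℕ) (k : ℕ) (y y' : Fin 2 → ℤ) (h : ∀ j, (q : ℤ) ∣ y j - y' j) (i : ℕ) :
    (q : ℤ) ∣ ga k y i - ga k y' i := by
  have h0 : (fun l => ((y l : ℤ) : ZMod q)) = fun l => ((y' l : ℤ) : ZMod q) := by
    funext l
    rw [← sub_eq_zero, ← Int.cast_sub, ZMod.intCast_zmod_eq_zero_iff_dvd]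
    exact h l
  rw [← ZMod.intCast_zmod_eq_zero_iff_dvd, Int.cast_sub, ga_cast, ga_cast, h0, sub_self]

lemma pair_bound (p : ℕ) [Fact p.Prime] (Ψ : (Fin 2 → ZMod p) → Prop) [DecidablePred Ψ]
    (G : Polynomial (ZMod p))
    (hG : G ≠ 0) (d : ℕ) (hd : G.natDegree ≤ d) (h1 : ∀ z, Ψ z → G.eval (z 1) = 0)
    (h2 : ∀ z z', Ψ z → Ψ z' → z 1 = z' 1 → z 0 = z' 0) :
    ((Finset.univ : Finset (Fin 2 → ZMod p)).filter Ψ).card ≤ d := by
  have h3 : G.roots.toFinset.card ≤ d :=
    (Multiset.toFinset_card_le _).trans ((Polynomial.card_roots' _).trans hd)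
  refine le_trans ?_ h3
  apply Finset.card_le_card_of_injOn (fun z => z 1)
  · intro z hz
    have h4 := (Finset.mem_filter.mp (Finset.mem_coe.mp hz)).2
    exact Finset.mem_coe.mpr (Multiset.mem_toFinset.mpr ((Polynomial.mem_roots hG).mpr (h1 z h4)))
  · intro z hz z' hz' hzz
    have h4 := (Finset.mem_filter.mp (Finset.mem_coe.mp hz)).2
    have h5 := (Finset.mem_filter.mp (Finset.mem_coe.mp hz')).2
    have h6 := h2 z z' h4 h5 hzz
    funext j
    fin_cases j
    · exact h6
    · exact hzz

/-- two members -/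
lemma ga_two (p k : ℕ) [Fact p.Prime] (hk : k < p) (i j : ℕ) (hij : i < j) (hj : j ≤ 2 * k)
    (a b : ZMod p) (ha : k < i → a ≠ 0) (hb : k < j → b ≠ 0) :
    ((Finset.univ : Finset (Fin 2 → ZMod p)).filter
      (fun z => ga k z i = a ∧ ga k z j = b)).card ≤ k + 1 := by
  by_cases h1 : j ≤ k
  · have h2 : i ≤ k := by omega
    have hne : ((j : ZMod p) - (i : ZMod p)) ≠ 0 := by
      rw [← Nat.cast_sub hij.le]
      intro hcon
      have h3 := (ZMod.natCast_eq_zero_iff _ _).mp hcon
      have h4 := Nat.le_of_dvd (by omega) h3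
      omega
    apply pair_bound p _ (C ((j : ZMod p) - (i : ZMod p)) * X -
      C ((j : ZMod p) - (i : ZMod p) + (b - a)))
    · intro hcon
      have h3 := congrArg (fun Q => coeff Q 1) hcon
      simp only [coeff_sub, coeff_C_mul, coeff_X_one, mul_one, coeff_zero, coeff_C_of_ne_zero one_ne_zero,
        sub_zero] at h3
      exact hne h3
    · refine (natDegree_sub_le _ _).trans (max_le ?_ ?_)
      · exact ((natDegree_C_mul_le _ _).trans natDegree_X_le).trans (by omega)
      · rw [natDegree_C]
        omega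
    · rintro z ⟨h3, h4⟩
      unfold ga at h3 h4
      rw [if_pos h2] at h3
      rw [if_pos h1] at h4
      simp only [eval_sub, eval_mul, eval_C, eval_X]
      rw [← h3, ← h4]
      ring
    · rintro z z' ⟨h3, _⟩ ⟨h4, _⟩ h5
      unfold ga at h3 h4
      rw [if_pos h2] at h3 h4
      rw [← h4, h5] at h3
      exact add_right_cancel h3
  · have hb' := hb (by omega)
    by_cases h2 : i ≤ k
    · apply pair_bound p _ ((C (a + i) - C (i : ZMod p) * X) * X ^ (j - k) - C b)
      · intro hcon
        have h3 := congrArg (fun Q => eval 0 Q) hcon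
        simp only [eval_sub, eval_mul, eval_C, eval_X, eval_pow, eval_zero, mul_zero, sub_zero] at h3
        rw [zero_pow (by omega), mul_zero, zero_sub, neg_eq_zero] at h3
        exact hb' h3
      · refine (natDegree_sub_le _ _).trans (max_le ?_ ?_)
        · refine natDegree_mul_le.trans ?_
          have h3 : (C (a + i) - C (i : ZMod p) * X).natDegree ≤ 1 := by
            refine (natDegree_sub_le _ _).trans (max_le ?_ ((natDegree_C_mul_le _ _).trans natDegree_X_le))
            rw [natDegree_C]
            omega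
          have h4 : ((X : Polynomial (ZMod p)) ^ (j - k)).natDegree = j - k := natDegree_X_pow _
          rw [h4]
          omega
        · rw [natDegree_C]
          omega
      · rintro z ⟨h3, h4⟩
        unfold ga at h3 h4
        rw [if_pos h2] at h3
        rw [if_neg h1] at h4
        simp only [eval_sub, eval_mul, eval_C, eval_X, eval_pow]
        rw [← h3, ← h4]
        ring
      · rintro z z' ⟨h3, _⟩ ⟨h4, _⟩ h5
        unfold ga at h3 h4
        rw [if_pos h2] at h3 h4
        rw [← h4, h5] at h3
        exact add_right_cancel h3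
    · have ha' := ha (by omega)
      apply pair_bound p _ (C a * X ^ (j - i) - C b)
      · intro hcon
        have h3 := congrArg (fun Q => eval 0 Q) hcon
        simp only [eval_sub, eval_mul, eval_C, eval_X, eval_pow, eval_zero] at h3
        rw [zero_pow (by omega), mul_zero, zero_sub, neg_eq_zero] at h3
        exact hb' h3
      · refine (natDegree_sub_le _ _).trans (max_le ?_ ?_)
        · refine (natDegree_C_mul_X_pow_le _ _).trans ?_
          omega
        · rw [natDegree_C]
          omega
      · rintro z ⟨h3, h4⟩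
        unfold ga at h3 h4
        rw [if_neg h2] at h3
        rw [if_neg h1] at h4
        simp only [eval_sub, eval_mul, eval_C, eval_X, eval_pow]
        rw [← h3, ← h4, mul_assoc, ← pow_add]
        have : i - k + (j - i) = j - k := by omega
        rw [this, sub_self]
      · rintro z z' ⟨h3, _⟩ ⟨h4, _⟩ h5
        unfold ga at h3 h4
        rw [if_neg h2] at h3 h4
        have h6 : z 1 ^ (i - k) ≠ 0 := by
          intro hcon
          rw [hcon, mul_zero] at h3
          exact ha' h3.symm
        rw [← h4, ← h5] at h3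
        exact mul_right_cancel₀ h6 h3

/-- one member -/
lemma ga_one (p k : ℕ) [Fact p.Prime] (i : ℕ) (a : ZMod p) :
    p - 1 ≤ ((Finset.univ : Finset (Fin 2 → ZMod p)).filter (fun z => ga k z i = a)).card := by
  have h1 : ((Finset.univ : Finset (ZMod p)).filter (fun y => y ≠ 0)).card = p - 1 := by
    rw [Finset.filter_ne', Finset.card_erase_of_mem (Finset.mem_univ _), Finset.card_univ,
      ZMod.card]
  rw [← h1]
  apply Finset.card_le_card_of_injOn (fun y => if i ≤ k then ![a - (i : ZMod p) * (y - 1), y] else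
    ![a * (y ^ (i - k))⁻¹, y])
  · intro y hy
    have hy0 := (Finset.mem_filter.mp (Finset.mem_coe.mp hy)).2
    refine Finset.mem_coe.mpr (Finset.mem_filter.mpr ⟨Finset.mem_univ _, ?_⟩)
    unfold ga
    by_cases h2 : i ≤ k
    · simp only [if_pos h2, Matrix.cons_val_zero, Matrix.cons_val_one]
      ring
    · simp only [if_neg h2, Matrix.cons_val_zero, Matrix.cons_val_one]
      have h3 : y ^ (i - k) ≠ 0 := pow_ne_zero _ hy0
      field_simp
  · intro y _ y' _ hyy
    simp only at hyy
    have h2 := congrFun hyy 1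
    by_cases h3 : i ≤ k
    · simpa [h3] using h2
    · simpa [h3] using h2

end Pool.Agent.V1179.MH.GH
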