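import Pool.Agent.V1179.MH.GH10
import Pool.Agent.V1179.MH.GH4

set_option autoImplicit false

/-! # Linear forms in two variables and the product -/

namespace Pool.Agent.V1179.MH.GH

open Finset Filter Polynomial
open Pool.Agent.V1179.MH.SF (boxF mem_boxF box_card)
open Pool.Agent.V1179.MH.PC (box_count)
open Pool.Agent.W147.PS (ff ff_compare ev_pow)
open scoped Classical

/-- the product `x y` and the linear forms `α_j x + β_j y` -/
def lp {R : Type*} [CommRing R] {r : ℕ} (α β : Fin r → ℕ) (z : Fin 2 → R) : Fin (r + 1) → R :=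
  Fin.cons (z 0 * z 1) (fun j => (α j : R) * z 0 + (β j : R) * z 1)

lemma lp_cast (q : ℕ) {r : ℕ} (α β : Fin r → ℕ) (z : Fin 2 → ℤ) (i : Fin (r + 1)) :
    ((lp α β z i : ℤ) : ZMod q) = lp α β (fun j => ((z j : ℤ) : ZMod q)) i := by
  unfold lp
  refine Fin.cases ?_ (fun j => ?_) i
  · simp only [Fin.cons_zero]
    push_cast
    rfl
  · simp only [Fin.cons_succ]
    push_cast
    rfl

lemma lp_cong (q : ℕ) {r : ℕ} (α β : Fin r → ℕ) (y y' : Fin 2 → ℤ)
    (h : ∀ j, (q : ℤ) ∣ y j - y' j) (i : Fin (r + 1)) : (q : ℤ) ∣ lp α β y i - lp α β y' i := by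
  have h0 : (fun l => ((y l : ℤ) : ZMod q)) = fun l => ((y' l : ℤ) : ZMod q) := by
    funext l
    rw [← sub_eq_zero, ← Int.cast_sub, ZMod.intCast_zmod_eq_zero_iff_dvd]
    exact h l
  rw [← ZMod.intCast_zmod_eq_zero_iff_dvd, Int.cast_sub, lp_cast, lp_cast, h0, sub_self]

lemma lp_one (p : ℕ) [Fact p.Prime] {r : ℕ} (α β : Fin r → ℕ) (i : Fin (r + 1))
    (hαβ : ∀ j, ((α j : ZMod p)) ≠ 0 ∨ ((β j : ZMod p)) ≠ 0) (a : ZMod p) :
    p - 1 ≤ ((Finset.univ : Finset (Fin 2 → ZMod p)).filter (fun z => lp α β z i = a)).card := by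
  have h1 : ((Finset.univ : Finset (ZMod p)).filter (fun y => y ≠ 0)).card = p - 1 := by
    rw [Finset.filter_ne', Finset.card_erase_of_mem (Finset.mem_univ _), Finset.card_univ,
      ZMod.card]
  rw [← h1]
  refine Fin.cases ?_ (fun j => ?_) i
  · apply Finset.card_le_card_of_injOn (fun y => ![a * y⁻¹, y])
    · intro y hy
      have hy0 := (Finset.mem_filter.mp (Finset.mem_coe.mp hy)).2
      refine Finset.mem_coe.mpr (Finset.mem_filter.mpr ⟨Finset.mem_univ _, ?_⟩)
      unfold lp
      simp only [Fin.cons_zero, Matrix.cons_val_zero, Matrix.cons_val_one]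
      field_simp
    · intro y _ y' _ hyy
      have h2 := congrFun hyy 1
      simpa using h2
  · rcases hαβ j with h2 | h2
    · apply Finset.card_le_card_of_injOn (fun y => ![(a - (β j : ZMod p) * y) * (α j : ZMod p)⁻¹, y])
      · intro y hy
        refine Finset.mem_coe.mpr (Finset.mem_filter.mpr ⟨Finset.mem_univ _, ?_⟩)
        unfold lp
        simp only [Fin.cons_succ, Matrix.cons_val_zero, Matrix.cons_val_one]
        field_simp
        ring
      · intro y _ y' _ hyy
        have h2 := congrFun hyy 1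
        simpa using h2
    · apply Finset.card_le_card_of_injOn (fun y => ![y, (a - (α j : ZMod p) * y) * (β j : ZMod p)⁻¹])
      · intro y hy
        refine Finset.mem_coe.mpr (Finset.mem_filter.mpr ⟨Finset.mem_univ _, ?_⟩)
        unfold lp
        simp only [Fin.cons_succ, Matrix.cons_val_zero, Matrix.cons_val_one]
        field_simp
        ring
      · intro y _ y' _ hyy
        have h2 := congrFun hyy 0
        simpa using h2

lemma lin_lin (p : ℕ) [Fact p.Prime] (α β γ δ a b : ZMod p) (h : α * δ - γ * β ≠ 0) :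
    ((Finset.univ : Finset (Fin 2 → ZMod p)).filter (fun z => α * z 0 + β * z 1 = a ∧
      γ * z 0 + δ * z 1 = b)).card ≤ 2 := by
  apply pair_bound p _ (C (α * δ - γ * β) * X - C (α * b - γ * a))
  · intro hcon
    have h3 := congrArg (fun Q => coeff Q 1) hcon
    simp only [coeff_sub, coeff_C_mul, coeff_X_one, mul_one, coeff_zero,
      coeff_C_of_ne_zero one_ne_zero, sub_zero] at h3
    exact h h3
  · refine (natDegree_sub_le _ _).trans (max_le ?_ ?_)
    · exact ((natDegree_C_mul_le _ _).trans natDegree_X_le).trans (by norm_num)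
    · rw [natDegree_C]
      norm_num
  · rintro z ⟨h3, h4⟩
    simp only [eval_sub, eval_mul, eval_C, eval_X]
    rw [← h3, ← h4]
    ring
  · rintro z z' ⟨h3, h4⟩ ⟨h5, h6⟩ h7
    rw [h7] at h3 h4
    have h8 : (α * δ - γ * β) * (z 0 - z' 0) = 0 := by
      linear_combination δ * h3 - β * h4 - δ * h5 + β * h6
    exact sub_eq_zero.mp ((mul_eq_zero.mp h8).resolve_left h)

lemma lin_mul (p : ℕ) [Fact p.Prime] (α β a b : ZMod p) (hb : b ≠ 0) (h : α ≠ 0 ∨ β ≠ 0) :
    ((Finset.univ : Finset (Fin 2 → ZMod p)).filter (fun z => z 0 * z 1 = b ∧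
      α * z 0 + β * z 1 = a)).card ≤ 2 := by
  apply pair_bound p _ (C β * X ^ 2 - C a * X + C (α * b))
  · intro hcon
    rcases h with h | h
    · have h3 := congrArg (fun Q => eval 0 Q) hcon
      simp only [eval_sub, eval_add, eval_mul, eval_C, eval_X, eval_pow, eval_zero] at h3
      have h4 : α * b = 0 := by linear_combination h3
      exact (mul_ne_zero h hb) h4
    · have h3 := congrArg (fun Q => coeff Q 2) hcon
      simp only [coeff_sub, coeff_add, coeff_C_mul, coeff_X_pow, coeff_zero] at h3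
      rw [coeff_C_of_ne_zero (by norm_num), coeff_X] at h3
      norm_num at h3
      exact h h3
  · refine (natDegree_add_le _ _).trans (max_le ((natDegree_sub_le _ _).trans (max_le ?_ ?_)) ?_)
    · exact natDegree_C_mul_X_pow_le _ _
    · exact ((natDegree_C_mul_le _ _).trans natDegree_X_le).trans (by norm_num)
    · rw [natDegree_C]
      norm_num
  · rintro z ⟨h3, h4⟩
    simp only [eval_sub, eval_add, eval_mul, eval_C, eval_X, eval_pow]
    rw [← h3, ← h4]
    ring
  · rintro z z' ⟨h3, _⟩ ⟨h4, _⟩ h5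
    rw [← h4, h5] at h3
    apply mul_right_cancel₀ _ h3
    intro hcon
    rw [hcon, mul_zero] at h4
    exact hb h4.symm

lemma lp_two (p : ℕ) [Fact p.Prime] {r : ℕ} (α β : Fin r → ℕ)
    (hαβ : ∀ j, ((α j : ZMod p)) ≠ 0 ∨ ((β j : ZMod p)) ≠ 0)
    (hdet : ∀ j l, j ≠ l → (α j : ZMod p) * (β l : ZMod p) - (α l : ZMod p) * (β j : ZMod p) ≠ 0)
    (i i' : Fin (r + 1)) (hne : i ≠ i') (a b : ZMod p) (ha : a ≠ 0) (hb : b ≠ 0) :
    ((Finset.univ : Finset (Fin 2 → ZMod p)).filter (fun z => lp α β z i = a ∧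
      lp α β z i' = b)).card ≤ 2 := by
  revert hne
  refine Fin.cases ?_ (fun j => ?_) i
  · refine Fin.cases ?_ (fun l => ?_) i'
    · intro h
      exact absurd rfl h
    · intro _
      have h1 := lin_mul p (α l) (β l) b a ha (hαβ l)
      unfold lp
      simpa only [Fin.cons_zero, Fin.cons_succ] using h1
  · refine Fin.cases ?_ (fun l => ?_) i'
    · intro _
      have h1 := lin_mul p (α j) (β j) a b hb (hαβ j)
      refine le_trans (le_of_eq ?_) h1
      unfold lp
      simp only [Fin.cons_zero, Fin.cons_succ]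
      congr 1
      apply Finset.filter_congr
      intro z _
      exact and_comm
    · intro h
      have h0 : j ≠ l := fun h2 => h (by rw [h2])
      have h1 := lin_lin p (α j) (β j) (α l) (β l) a b (hdet j l h0)
      unfold lp
      simpa only [Fin.cons_succ] using h1

end Pool.Agent.V1179.MH.GH
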