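import Pool.Agent.V1179.MH.GH13

set_option autoImplicit false

/-! # Linear forms in two variables and the product, without primes nearby -/

namespace Pool.Agent.V1179.MH.GH

open Finset Filter
open Pool.Agent.V1179.MH.SF (boxF mem_boxF box_card cast_ne)
open Pool.Agent.V1179.MH.PC (box_count)
open Pool.Agent.W147.PS (ff ff_compare ev_pow)
open scoped Classical

lemma lp_local_one (p : ℕ) (hp : p.Prime) {r : ℕ} (α β : Fin r → ℕ) (i : Fin (r + 1))
    (hαβ : ∀ j, ((α j : ZMod p)) ≠ 0 ∨ ((β j : ZMod p)) ≠ 0) (a : ℤ) :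
    (p : ℝ) ^ (2 - 1) * (1 - (2 : ℝ) / p) ≤
      (((boxF 2 p).filter (fun ρ => (p : ℤ) ∣ lp α β ρ i - a)).card : ℝ) := by
  have := Fact.mk hp
  have : NeZero p := ⟨hp.ne_zero⟩
  have h1 := lp_one p α β i hαβ ((a : ℤ) : ZMod p)
  have h2 : ((boxF 2 p).filter (fun ρ => (p : ℤ) ∣ lp α β ρ i - a)).card =
      ((Finset.univ : Finset (Fin 2 → ZMod p)).filter (fun z => lp α β z i = (a : ZMod p))).card :=
    box_card (n := 2) (p := p) (fun ρ => (p : ℤ) ∣ lp α β ρ i - a)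
      (fun z => lp α β z i = (a : ZMod p)) (by
        intro ρ
        rw [← lp_cast, ← sub_eq_zero, ← Int.cast_sub, ZMod.intCast_zmod_eq_zero_iff_dvd])
  rw [h2]
  have h3 : ((p : ℝ) - 1) ≤
      ((((Finset.univ : Finset (Fin 2 → ZMod p)).filter
        (fun z => lp α β z i = (a : ZMod p))).card : ℕ) : ℝ) := by
    have h4 : (((p - 1 : ℕ) : ℝ)) ≤ ((((Finset.univ : Finset (Fin 2 → ZMod p)).filter
        (fun z => lp α β z i = (a : ZMod p))).card : ℕ) : ℝ) := by exact_mod_cast h1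
    rwa [Nat.cast_sub hp.one_lt.le, Nat.cast_one] at h4
  refine le_trans ?_ h3
  have hp0 : (0 : ℝ) < p := by exact_mod_cast hp.pos
  have h5 : (p : ℝ) ^ (2 - 1) * (1 - (2 : ℝ) / p) = p - 2 := by
    norm_num
    field_simp
  rw [h5]
  linarith

lemma lp_local_two (p : ℕ) (hp : p.Prime) {r : ℕ} (α β : Fin r → ℕ) (i j : Fin (r + 1))
    (hαβ : ∀ j, ((α j : ZMod p)) ≠ 0 ∨ ((β j : ZMod p)) ≠ 0)
    (hdet : ∀ j l, j ≠ l → (α j : ZMod p) * (β l : ZMod p) - (α l : ZMod p) * (β j : ZMod p) ≠ 0)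
    (hij : i ≠ j) (a b : ℤ) (ha : |a| < (p : ℤ)) (hb : |b| < (p : ℤ)) (ha0 : a ≠ 0) (hb0 : b ≠ 0) :
    (((boxF 2 p).filter (fun ρ => (p : ℤ) ∣ lp α β ρ i - a ∧
      (p : ℤ) ∣ lp α β ρ j - b)).card : ℝ) ≤ (p : ℝ) ^ (2 - 1) * ((2 : ℝ) / p) := by
  have := Fact.mk hp
  have : NeZero p := ⟨hp.ne_zero⟩
  have hcast : ∀ c : ℤ, |c| < (p : ℤ) → c ≠ 0 → ((c : ℤ) : ZMod p) ≠ 0 := by
    intro c hc hc0 hcon
    exact hc0 (Int.eq_zero_of_abs_lt_dvd ((ZMod.intCast_zmod_eq_zero_iff_dvd _ _).mp hcon) hc)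
  have h2 : ((boxF 2 p).filter (fun ρ => (p : ℤ) ∣ lp α β ρ i - a ∧
      (p : ℤ) ∣ lp α β ρ j - b)).card =
      ((Finset.univ : Finset (Fin 2 → ZMod p)).filter (fun z => lp α β z i = (a : ZMod p) ∧
        lp α β z j = (b : ZMod p))).card :=
    box_card (n := 2) (p := p) (fun ρ => (p : ℤ) ∣ lp α β ρ i - a ∧ (p : ℤ) ∣ lp α β ρ j - b)
      (fun z => lp α β z i = (a : ZMod p) ∧ lp α β z j = (b : ZMod p)) (by
        intro ρ
        rw [← lp_cast, ← lp_cast, ← sub_eq_zero, ← Int.cast_sub,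
          ZMod.intCast_zmod_eq_zero_iff_dvd, ← sub_eq_zero (b := ((b : ℤ) : ZMod p)),
          ← Int.cast_sub, ZMod.intCast_zmod_eq_zero_iff_dvd])
  have hp0 : (0 : ℝ) < p := by exact_mod_cast hp.pos
  have h5 : (p : ℝ) ^ (2 - 1) * ((2 : ℝ) / p) = ((2 : ℕ) : ℝ) := by
    norm_num
    field_simp
  rw [h5, h2]
  have h3 := lp_two p α β hαβ hdet i j hij _ _ (hcast a ha ha0) (hcast b hb hb0)
  exact_mod_cast h3

theorem lp_config (r : ℕ) (ε : ℝ) (h0 : 0 < ε) (h1 : ε ≤ 1) :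
    ∃ κ : ℝ, 0 < κ ∧ ∀ α β : Fin r → ℕ, (∀ j, α j ≠ 0 ∨ β j ≠ 0) →
      (∀ j l, j ≠ l → α j * β l ≠ α l * β j) →
      ∃ T₀ : ℝ, ∀ T : ℝ, T₀ ≤ T → ∀ (a : Fin 2 → ℤ) (L : Fin 2 → ℕ),
      (∀ j, T ^ ε ≤ a j) → (∀ j, T ^ ε ≤ L j) →
      ∃ z : Fin 2 → ℤ, (∀ j, a j ≤ z j ∧ z j < a j + L j) ∧
        ∀ i : Fin (r + 1), ∀ q : ℕ, q.Prime → κ * ff T < |(q : ℝ) - ((lp α β z i : ℤ) : ℝ)| := by
  obtain ⟨κ, hκ, hcr⟩ := critZ 2 (r + 1) (by omega) (by omega) 2 (by norm_num)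
  set θ : ℝ := ε / 8 with hθ
  have hθ0 : 0 < θ := by positivity
  have hθε : θ ≤ ε := by rw [hθ]; linarith
  have hθ1 : θ ≤ 1 := hθε.trans h1
  refine ⟨κ * (θ / 32), by positivity, ?_⟩
  intro α β hne0 hprop
  set P₁ : ℝ := ∑ j, ((α j : ℝ) + β j) with hP₁
  set P₂ : ℝ := ∑ j, ∑ l, |(((α j : ℤ) * (β l : ℤ) - (α l : ℤ) * (β j : ℤ) : ℤ) : ℝ)| with hP₂
  have hP₁0 : 0 ≤ P₁ := Finset.sum_nonneg fun i _ => by positivity
  have hP₂0 : 0 ≤ P₂ := Finset.sum_nonneg fun i _ => Finset.sum_nonneg fun j _ => abs_nonneg _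
  obtain ⟨X₀, hX0⟩ := hcr (P₁ + P₂)
  have hloc1 : ∀ p : ℕ, p.Prime → P₁ + P₂ < p → ∀ j, ((α j : ZMod p)) ≠ 0 ∨ ((β j : ZMod p)) ≠ 0 := by
    intro p hp hpP j
    have h2 : (α j : ℝ) + β j ≤ P₁ :=
      Finset.single_le_sum (f := fun j => (α j : ℝ) + β j) (fun i _ => by positivity)
        (Finset.mem_univ j)
    have hα : α j < p := by
      have : (α j : ℝ) < p := by linarith [(Nat.cast_nonneg (β j) : (0 : ℝ) ≤ β j)]
      exact_mod_cast this
    have hβ : β j < p := by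
      have : (β j : ℝ) < p := by linarith [(Nat.cast_nonneg (α j) : (0 : ℝ) ≤ α j)]
      exact_mod_cast this
    rcases hne0 j with h | h
    · left
      intro hcon
      have := Nat.le_of_dvd (Nat.pos_of_ne_zero h) ((ZMod.natCast_eq_zero_iff _ _).mp hcon)
      omega
    · right
      intro hcon
      have := Nat.le_of_dvd (Nat.pos_of_ne_zero h) ((ZMod.natCast_eq_zero_iff _ _).mp hcon)
      omega
  have hloc2 : ∀ p : ℕ, p.Prime → P₁ + P₂ < p → ∀ j l, j ≠ l →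
      (α j : ZMod p) * (β l : ZMod p) - (α l : ZMod p) * (β j : ZMod p) ≠ 0 := by
    intro p hp hpP j l hjl
    have hd : ((α j : ℤ) * (β l : ℤ) - (α l : ℤ) * (β j : ℤ)) ≠ 0 := by
      intro hcon
      apply hprop j l hjl
      have : (α j : ℤ) * (β l : ℤ) = (α l : ℤ) * (β j : ℤ) := by linarith
      exact_mod_cast this
    have hk : (((α j : ℤ) * (β l : ℤ) - (α l : ℤ) * (β j : ℤ) : ℤ) : ZMod p) ≠ 0 := by
      apply cast_ne _ hd
      refine lt_of_le_of_lt ?_ hpP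
      have h3 : |(((α j : ℤ) * (β l : ℤ) - (α l : ℤ) * (β j : ℤ) : ℤ) : ℝ)| ≤ P₂ := by
        rw [hP₂]
        refine le_trans ?_ (Finset.single_le_sum (fun i _ => Finset.sum_nonneg
          (fun j _ => abs_nonneg _)) (Finset.mem_univ j))
        exact Finset.single_le_sum
          (f := fun l => |(((α j : ℤ) * (β l : ℤ) - (α l : ℤ) * (β j : ℤ) : ℤ) : ℝ)|)
          (fun j _ => abs_nonneg _) (Finset.mem_univ l)
      linarith
    push_cast at hk
    exact hk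
  have tθ := tendsto_rpow_atTop hθ0
  have hev := (ff_compare θ hθ0 hθ1).and ((tθ.eventually_ge_atTop X₀).and
    ((tθ.eventually Pool.Agent.Y961.JR.ev_small).and ((eventually_gt_atTop (1 : ℝ)).and
        (((tendsto_rpow_atTop (show (0 : ℝ) < ε / 2 by positivity)).eventually_ge_atTop
          8).and ((tendsto_rpow_atTop h0).eventually_ge_atTop 2)))))
  obtain ⟨Z, hZ⟩ := eventually_atTop.1 hev
  refine ⟨Z, ?_⟩
  intro T hT a L ha hL
  obtain ⟨m1, m2, ⟨m3, m4⟩, m7, m8, m9⟩ := hZ T hT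
  have hT0 : 0 < T := by linarith
  set X : ℝ := T ^ θ with hX
  obtain ⟨hfl, hcrit⟩ := hX0 X m2
  set W : ℝ := T ^ ε with hW
  have hW1 : 1 ≤ W := Real.one_le_rpow m7.le h0.le
  have hXW : X ≤ W := Real.rpow_le_rpow_of_exponent_le m7.le hθε
  have hX0' : 0 < X := Real.rpow_pos_of_pos hT0 _
  have hXg : X ^ (2 * ((2 : ℕ) : ℝ)) = T ^ (ε / 2) := by
    rw [hX, ← Real.rpow_mul hT0.le]
    congr 1
    rw [hθ]
    push_cast
    ring
  have hWW : T ^ (ε / 2) * T ^ (ε / 2) = W := by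
    rw [hW, ← Real.rpow_add hT0]
    congr 1
    ring
  set box : Finset (Fin 2 → ℤ) :=
    Fintype.piFinset (fun j : Fin 2 => Finset.Ico (a j) (a j + L j)) with hbox
  have hLpos : ∀ j, (1 : ℝ) ≤ L j := fun j => hW1.trans (hL j)
  have hcard : (box.card : ℝ) = ∏ j, (L j : ℝ) := by
    rw [hbox, Fintype.card_piFinset]
    push_cast
    apply Finset.prod_congr rfl
    intro j _
    simp
  have hprod : (0 : ℝ) < ∏ j, (L j : ℝ) := Finset.prod_pos fun j _ => by linarith [hLpos j]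
  have hne : box.Nonempty := by
    rw [← Finset.card_pos]
    have : (0 : ℝ) < box.card := by
      rw [hcard]
      exact hprod
    exact_mod_cast this
  obtain ⟨z, hz, hz2⟩ := hcrit (fun z i => lp α β z i)
    (fun q ρ ρ' h i => lp_cong q α β ρ ρ' h i)
    (by
      intro i
      unfold lp
      refine Fin.cases ?_ (fun j => ?_) i
      · simp
      · simp)
    (fun p hp hpP _ i u => lp_local_one p hp α β i (hloc1 p hp hpP) u)
    (fun p hp hpP _ i j hij u v hu hv hu0 hv0 => lp_local_two p hp α β i j (hloc1 p hp hpP)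
      (hloc2 p hp hpP) hij u v hu hv hu0 hv0)
    (Fin 2 → ℤ) box (fun v => v) hne (by
      intro q hq _ ρ
      rw [hcard]
      refine (box_count 2 q a L W hW1 hL hq ρ).trans ?_
      rw [Real.rpow_neg hX0'.le, hXg, Finset.prod_mul_distrib, Finset.prod_const,
        Finset.card_univ, Fintype.card_fin]
      have e1 : ((2 : ℕ) : ℝ) * (1 / (2 * W)) * (2 ^ 2 * ∏ j, (L j : ℝ)) =
          (∏ j, (L j : ℝ)) * (8 / (2 * W)) := by
        push_cast
        field_simp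
        norm_num
      rw [e1]
      apply mul_le_mul_of_nonneg_left _ hprod.le
      have hTe : 0 < T ^ (ε / 2) := Real.rpow_pos_of_pos hT0 _
      rw [inv_eq_one_div, div_le_div_iff₀ (by positivity) hTe]
      nlinarith)
  have hzb : ∀ j, a j ≤ z j ∧ z j < a j + L j := by
    intro j
    have := Fintype.mem_piFinset.mp hz j
    rwa [Finset.mem_Ico] at this
  have hzW : ∀ j, W ≤ z j := by
    intro j
    have h3 : ((a j : ℤ) : ℝ) ≤ z j := by exact_mod_cast (hzb j).1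
    exact (ha j).trans h3
  refine ⟨z, hzb, ?_⟩
  intro i q hq
  have hscal : κ * (θ / 32) * ff T ≤ κ * Pool.Agent.H256R2.SC.ff X :=
    Pool.Agent.Y961.JR.ff_scaled κ θ T hκ hθ1 m7.le m1.2
  refine lt_of_le_of_lt hscal ?_
  have hval : W ≤ ((lp α β z i : ℤ) : ℝ) := by
    have hz0 := hzW 0
    have hz1 := hzW 1
    unfold lp
    refine Fin.cases ?_ (fun j => ?_) i
    · simp only [Fin.cons_zero]
      push_cast
      nlinarith
    · simp only [Fin.cons_succ]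
      push_cast
      have h3 : (0 : ℝ) ≤ α j := Nat.cast_nonneg _
      have h4 : (0 : ℝ) ≤ β j := Nat.cast_nonneg _
      have h5 : (1 : ℝ) ≤ (α j : ℝ) + β j := by
        have h6 : 1 ≤ α j + β j := by
          rcases hne0 j with h | h <;> omega
        exact_mod_cast h6
      have h6 : (α j : ℝ) * W ≤ α j * z 0 := mul_le_mul_of_nonneg_left hz0 h3
      have h7 : (β j : ℝ) * W ≤ β j * z 1 := mul_le_mul_of_nonneg_left hz1 h4
      nlinarith
  apply Pool.Agent.Y961.JR.no_prime κ X hfl m3 m4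
    ((lp α β z i : ℤ) : ℝ) (hXW.trans hval) _ q hq
  intro N hN
  rw [Int.floor_intCast] at hN
  exact hz2 i N hN

end Pool.Agent.V1179.MH.GH
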