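import Pool.Agent.V1179.MH.GH10
import Pool.Agent.V1179.MH.PC1

set_option autoImplicit false

/-! # Pairwise independent linear forms, without primes nearby -/

namespace Pool.Agent.V1179.MH.GH

open Finset Filter
open Pool.Agent.V1179.MH.SF (boxF mem_boxF box_card cast_ne)
open Pool.Agent.V1179.MH.PC (box_count)
open Pool.Agent.W147.PS (ff ff_compare ev_pow)
open scoped Classical

/-- the linear form -/
def lf {R : Type*} [CommRing R] {n : ℕ} (A z : Fin n → R) : R := ∑ k, A k * z k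

lemma lf_add {R : Type*} [CommRing R] {n : ℕ} (A z w : Fin n → R) :
    lf A (z + w) = lf A z + lf A w := by
  unfold lf
  rw [← Finset.sum_add_distrib]
  exact Finset.sum_congr rfl fun k _ => by rw [Pi.add_apply, mul_add]

lemma lf_single {R : Type*} [CommRing R] {n : ℕ} (A : Fin n → R) (k : Fin n) (s : R) :
    lf A (Pi.single k s) = A k * s := by
  unfold lf
  rw [Finset.sum_eq_single k]
  · rw [Pi.single_eq_same]
  · intro j _ hj
    rw [Pi.single_eq_of_ne hj, mul_zero]
  · intro h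
    exact absurd (Finset.mem_univ _) h

lemma lf_cast (q : ℕ) {n : ℕ} (A z : Fin n → ℤ) :
    ((lf A z : ℤ) : ZMod q) = lf (fun j => ((A j : ℤ) : ZMod q)) (fun j => ((z j : ℤ) : ZMod q)) := by
  unfold lf
  push_cast
  rfl

lemma lf_cong (q : ℕ) {n : ℕ} (A y y' : Fin n → ℤ)
    (h : ∀ j, (q : ℤ) ∣ y j - y' j) : (q : ℤ) ∣ lf A y - lf A y' := by
  have h0 : (fun l => ((y l : ℤ) : ZMod q)) = fun l => ((y' l : ℤ) : ZMod q) := by
    funext l
    rw [← sub_eq_zero, ← Int.cast_sub, ZMod.intCast_zmod_eq_zero_iff_dvd]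
    exact h l
  rw [← ZMod.intCast_zmod_eq_zero_iff_dvd, Int.cast_sub, lf_cast, lf_cast, h0, sub_self]

lemma lf_one (p n : ℕ) [Fact p.Prime] (A : Fin n → ZMod p) (k : Fin n) (hk : A k ≠ 0)
    (a : ZMod p) :
    p ^ n ≤ ((Finset.univ : Finset (Fin n → ZMod p)).filter (fun z => lf A z = a)).card * p := by
  have h1 : ((Finset.univ : Finset (Fin n → ZMod p))).card = p ^ n := by
    rw [Finset.card_univ, Fintype.card_fun, ZMod.card, Fintype.card_fin]
  have h2 : ((Finset.univ : Finset (ZMod p))).card = p := by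
    rw [Finset.card_univ, ZMod.card]
  have h5 : ((Finset.univ : Finset (Fin n → ZMod p)).filter (fun z => lf A z = a)).card * p =
      (((Finset.univ : Finset (Fin n → ZMod p)).filter (fun z => lf A z = a)) ×ˢ
        (Finset.univ : Finset (ZMod p))).card := by
    rw [Finset.card_product, h2]
  rw [h5, ← h1]
  apply Finset.card_le_card_of_injOn (fun y =>
    (y + Pi.single k (-((lf A y - a) * (A k)⁻¹)), (lf A y - a) * (A k)⁻¹))
  · intro y _
    refine Finset.mem_coe.mpr (Finset.mem_product.mpr ⟨?_, Finset.mem_univ _⟩)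
    refine Finset.mem_filter.mpr ⟨Finset.mem_univ _, ?_⟩
    simp only
    rw [lf_add, lf_single]
    field_simp
    ring
  · intro y _ y' _ h
    simp only [Prod.mk.injEq] at h
    obtain ⟨h3, h4⟩ := h
    rw [h4] at h3
    exact add_right_cancel h3

lemma lf_two (p n : ℕ) [Fact p.Prime] (A B : Fin n → ZMod p) (k l : Fin n)
    (hkl : A k * B l - A l * B k ≠ 0) (a b : ZMod p) :
    ((Finset.univ : Finset (Fin n → ZMod p)).filter (fun z => lf A z = a ∧ lf B z = b)).card *
      (p * p) ≤ p ^ n := by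
  have h1 : ((Finset.univ : Finset (Fin n → ZMod p))).card = p ^ n := by
    rw [Finset.card_univ, Fintype.card_fun, ZMod.card, Fintype.card_fin]
  have h2 : ((Finset.univ : Finset (ZMod p × ZMod p))).card = p * p := by
    rw [Finset.card_univ, Fintype.card_prod, ZMod.card]
  rw [← h1, ← h2, ← Finset.card_product]
  apply Finset.card_le_card_of_injOn (fun x => x.1 + Pi.single k x.2.1 + Pi.single l x.2.2)
  · intro y _
    exact Finset.mem_coe.mpr (Finset.mem_univ _)
  · intro x hx x' hx' h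
    simp only at h
    obtain ⟨h3, h4⟩ := (Finset.mem_filter.mp (Finset.mem_product.mp (Finset.mem_coe.mp hx)).1).2
    obtain ⟨h3', h4'⟩ := (Finset.mem_filter.mp (Finset.mem_product.mp (Finset.mem_coe.mp hx')).1).2
    have h5 := congrArg (lf A) h
    have h6 := congrArg (lf B) h
    rw [lf_add, lf_add, lf_add, lf_add, lf_single, lf_single, lf_single, lf_single, h3, h3'] at h5
    rw [lf_add, lf_add, lf_add, lf_add, lf_single, lf_single, lf_single, lf_single, h4, h4'] at h6
    have h7 : (A k * B l - A l * B k) * (x.2.1 - x'.2.1) = 0 := by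
      linear_combination B l * h5 - A l * h6
    have h8 : (A k * B l - A l * B k) * (x.2.2 - x'.2.2) = 0 := by
      linear_combination A k * h6 - B k * h5
    have h9 := sub_eq_zero.mp ((mul_eq_zero.mp h7).resolve_left hkl)
    have h10 := sub_eq_zero.mp ((mul_eq_zero.mp h8).resolve_left hkl)
    rw [h9, h10, add_assoc, add_assoc] at h
    have h11 := add_right_cancel h
    exact Prod.ext h11 (Prod.ext h9 h10)

lemma lf_iff (p n : ℕ) (A ρ : Fin n → ℤ) (a : ℤ) : (p : ℤ) ∣ lf A ρ - a ↔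
    lf (fun j => ((A j : ℤ) : ZMod p)) (fun j => ((ρ j : ℤ) : ZMod p)) = (a : ZMod p) := by
  rw [← lf_cast, ← ZMod.intCast_zmod_eq_zero_iff_dvd, Int.cast_sub, sub_eq_zero]

theorem lf_config (n r : ℕ) (hn : 1 ≤ n) (hr : 1 ≤ r) (ε : ℝ) (h0 : 0 < ε) (h1 : ε ≤ 1) :
    ∃ κ : ℝ, 0 < κ ∧ ∀ A : Fin r → Fin n → ℤ, (∀ i, A i ≠ 0) →
    (∀ i j, i ≠ j → ∃ k l, A i k * A j l ≠ A i l * A j k) →
    ∃ T₀ : ℝ, ∀ T : ℝ, T₀ ≤ T → ∀ (a : Fin n → ℤ) (L : Fin n → ℕ),
      (∀ j, T ^ ε ≤ L j) →
      (∀ z : Fin n → ℤ, (∀ j, a j ≤ z j ∧ z j < a j + L j) → ∀ i,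
        T ^ ε ≤ ((lf (A i) z : ℤ) : ℝ)) →
      ∃ z : Fin n → ℤ, (∀ j, a j ≤ z j ∧ z j < a j + L j) ∧
        ∀ i, ∀ q : ℕ, q.Prime → κ * ff T < |(q : ℝ) - ((lf (A i) z : ℤ) : ℝ)| := by
  obtain ⟨κ, hκ, hcr⟩ := critZ n r hn hr 1 (by norm_num)
  have hn1 : (1 : ℝ) ≤ n := by exact_mod_cast hn
  set θ : ℝ := ε / (4 * n) with hθ
  have hθ0 : 0 < θ := by positivity
  have hθε : θ ≤ ε := div_le_self h0.le (by linarith)
  have hθ1 : θ ≤ 1 := hθε.trans h1
  refine ⟨κ * (θ / 32), by positivity, ?_⟩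
  intro A hA0 hA
  have hex : ∀ i, ∃ k, A i k ≠ 0 := by
    intro i
    by_contra hcon
    push Not at hcon
    exact hA0 i (funext hcon)
  choose s hs using hex
  have hex2 : ∀ i j, i ≠ j → ∃ kl : Fin n × Fin n,
      A i kl.1 * A j kl.2 - A i kl.2 * A j kl.1 ≠ 0 := by
    intro i j hij
    obtain ⟨k, l, h⟩ := hA i j hij
    exact ⟨(k, l), sub_ne_zero.mpr h⟩
  have hne : Nonempty (Fin n) := ⟨⟨0, hn⟩⟩
  choose! st hst using hex2
  set P₁ : ℝ := ∑ i, |((A i (s i) : ℤ) : ℝ)| with hP₁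
  set P₂ : ℝ := ∑ i, ∑ j, |((A i (st i j).1 * A j (st i j).2 -
    A i (st i j).2 * A j (st i j).1 : ℤ) : ℝ)| with hP₂
  have hP₁0 : 0 ≤ P₁ := Finset.sum_nonneg fun i _ => abs_nonneg _
  have hP₂0 : 0 ≤ P₂ := Finset.sum_nonneg fun i _ => Finset.sum_nonneg fun j _ => abs_nonneg _
  obtain ⟨X₀, hX0⟩ := hcr (P₁ + P₂)
  have tθ := tendsto_rpow_atTop hθ0
  have hev := (ff_compare θ hθ0 hθ1).and ((tθ.eventually_ge_atTop X₀).and
    ((tθ.eventually Pool.Agent.Y961.JR.ev_small).and ((eventually_gt_atTop (1 : ℝ)).and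
        ((tendsto_rpow_atTop (show (0 : ℝ) < ε / 2 by positivity)).eventually_ge_atTop
          ((n : ℝ) * 2 ^ n)))))
  obtain ⟨Z, hZ⟩ := eventually_atTop.1 hev
  refine ⟨Z, ?_⟩
  intro T hT a L hL hval
  obtain ⟨m1, m2, ⟨m3, m4⟩, m7, m8⟩ := hZ T hT
  have hT0 : 0 < T := by linarith
  set X : ℝ := T ^ θ with hX
  obtain ⟨hfl, hcrit⟩ := hX0 X m2
  set W : ℝ := T ^ ε with hW
  have hW1 : 1 ≤ W := Real.one_le_rpow m7.le h0.le
  have hXW : X ≤ W := Real.rpow_le_rpow_of_exponent_le m7.le hθε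
  have hX0' : 0 < X := Real.rpow_pos_of_pos hT0 _
  have hXg : X ^ (2 * (n : ℝ)) = T ^ (ε / 2) := by
    rw [hX, ← Real.rpow_mul hT0.le]
    congr 1
    rw [hθ]
    field_simp
    norm_num
  have hWW : T ^ (ε / 2) * T ^ (ε / 2) = W := by
    rw [hW, ← Real.rpow_add hT0]
    congr 1
    ring
  set box : Finset (Fin n → ℤ) :=
    Fintype.piFinset (fun j : Fin n => Finset.Ico (a j) (a j + L j)) with hbox
  have hLpos : ∀ j, (1 : ℝ) ≤ L j := fun j => hW1.trans (hL j)
  have hcard : (box.card : ℝ) = ∏ j, (L j : ℝ) := by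
    rw [hbox, Fintype.card_piFinset]
    push_cast
    apply Finset.prod_congr rfl
    intro j _
    simp
  have hprod : (0 : ℝ) < ∏ j, (L j : ℝ) := Finset.prod_pos fun j _ => by linarith [hLpos j]
  have hne : box.Nonempty := by
    rw [← Finset.card_pos]
    have : (0 : ℝ) < box.card := by
      rw [hcard]
      exact hprod
    exact_mod_cast this
  obtain ⟨z, hz, hz2⟩ := hcrit (fun z i => lf (A i) z)
    (fun q ρ ρ' h i => lf_cong q (A i) ρ ρ' h)
    (by
      intro i
      unfold lf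
      simp)
    (by
      intro p hp hpP _ i u
      have := Fact.mk hp
      have : NeZero p := ⟨hp.ne_zero⟩
      have hp0 : (0 : ℝ) < p := by exact_mod_cast hp.pos
      have hk : ((A i (s i) : ℤ) : ZMod p) ≠ 0 := by
        apply cast_ne _ (hs i)
        refine lt_of_le_of_lt ?_ hpP
        have h3 : |((A i (s i) : ℤ) : ℝ)| ≤ P₁ :=
          Finset.single_le_sum (f := fun i => |((A i (s i) : ℤ) : ℝ)|)
            (fun i _ => abs_nonneg _) (Finset.mem_univ i)
        linarith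
      have h2 := lf_one p n (fun j => ((A i j : ℤ) : ZMod p)) (s i) hk (u : ZMod p)
      have h3 := box_card (n := n) (p := p) (fun ρ => (p : ℤ) ∣ lf (A i) ρ - u)
        (fun z : Fin n → ZMod p => lf (fun j => ((A i j : ℤ) : ZMod p)) z = (u : ZMod p))
        (fun ρ => lf_iff p n (A i) ρ u)
      rw [h3]
      have h4 : (p : ℝ) ^ n ≤ ((((Finset.univ : Finset (Fin n → ZMod p)).filter
        (fun z => lf (fun j => ((A i j : ℤ) : ZMod p)) z = (u : ZMod p))).card : ℕ) : ℝ) * p := by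
        exact_mod_cast h2
      have h5 : (p : ℝ) ^ n = p ^ (n - 1) * p := by
        rw [← pow_succ]
        congr 1
        omega
      rw [h5] at h4
      have h6 := le_of_mul_le_mul_right h4 hp0
      refine le_trans ?_ (h6.trans (le_of_eq (by congr!)))
      have h7 : (0 : ℝ) ≤ 1 / p := by positivity
      have h8 : (0 : ℝ) ≤ (p : ℝ) ^ (n - 1) := by positivity
      nlinarith)
    (by
      intro p hp hpP _ i j hij u v _ _ _ _
      have := Fact.mk hp
      have : NeZero p := ⟨hp.ne_zero⟩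
      have hp0 : (0 : ℝ) < p := by exact_mod_cast hp.pos
      have hk : ((A i (st i j).1 * A j (st i j).2 -
          A i (st i j).2 * A j (st i j).1 : ℤ) : ZMod p) ≠ 0 := by
        apply cast_ne _ (hst i j hij)
        refine lt_of_le_of_lt ?_ hpP
        have h3 : |((A i (st i j).1 * A j (st i j).2 -
          A i (st i j).2 * A j (st i j).1 : ℤ) : ℝ)| ≤ P₂ := by
          rw [hP₂]
          refine le_trans ?_ (Finset.single_le_sum (fun i _ => Finset.sum_nonneg
            (fun j _ => abs_nonneg _)) (Finset.mem_univ i))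
          exact Finset.single_le_sum (f := fun j => |((A i (st i j).1 * A j (st i j).2 -
            A i (st i j).2 * A j (st i j).1 : ℤ) : ℝ)|)
            (fun j _ => abs_nonneg _) (Finset.mem_univ j)
        linarith
      push_cast at hk
      have h2 := lf_two p n (fun j => ((A i j : ℤ) : ZMod p)) (fun l => ((A j l : ℤ) : ZMod p))
        (st i j).1 (st i j).2 hk (u : ZMod p) (v : ZMod p)
      have h3 := box_card (n := n) (p := p)
        (fun ρ => (p : ℤ) ∣ lf (A i) ρ - u ∧ (p : ℤ) ∣ lf (A j) ρ - v)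
        (fun z : Fin n → ZMod p => lf (fun j => ((A i j : ℤ) : ZMod p)) z = (u : ZMod p) ∧
          lf (fun l => ((A j l : ℤ) : ZMod p)) z = (v : ZMod p))
        (fun ρ => and_congr (lf_iff p n (A i) ρ u) (lf_iff p n (A j) ρ v))
      rw [h3]
      have h4 : ((((Finset.univ : Finset (Fin n → ZMod p)).filter
        (fun z => lf (fun j => ((A i j : ℤ) : ZMod p)) z = (u : ZMod p) ∧
          lf (fun l => ((A j l : ℤ) : ZMod p)) z = (v : ZMod p))).card : ℕ) : ℝ) * (p * p) ≤
          (p : ℝ) ^ n := by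
        exact_mod_cast h2
      have h5 : (p : ℝ) ^ n = p ^ (n - 1) * p := by
        rw [← pow_succ]
        congr 1
        omega
      rw [h5, ← mul_assoc] at h4
      have h6 := le_of_mul_le_mul_right h4 hp0
      rw [← mul_div_assoc, mul_one, le_div_iff₀ hp0]
      refine le_trans (le_of_eq ?_) h6
      congr!)
    (Fin n → ℤ) box (fun v => v) hne (by
      intro q hq _ ρ
      rw [hcard]
      refine (box_count n q a L W hW1 hL hq ρ).trans ?_
      rw [Real.rpow_neg hX0'.le, hXg, Finset.prod_mul_distrib, Finset.prod_const,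
        Finset.card_univ, Fintype.card_fin]
      have e1 : (n : ℝ) * (1 / (2 * W)) * (2 ^ n * ∏ j, (L j : ℝ)) =
          (∏ j, (L j : ℝ)) * (n * 2 ^ n / (2 * W)) := by
        field_simp
      rw [e1]
      apply mul_le_mul_of_nonneg_left _ hprod.le
      have hTe : 0 < T ^ (ε / 2) := Real.rpow_pos_of_pos hT0 _
      rw [inv_eq_one_div, div_le_div_iff₀ (by positivity) hTe]
      nlinarith)
  have hzb : ∀ j, a j ≤ z j ∧ z j < a j + L j := by
    intro j
    have := Fintype.mem_piFinset.mp hz j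
    rwa [Finset.mem_Ico] at this
  refine ⟨z, hzb, ?_⟩
  intro i q hq
  have hscal : κ * (θ / 32) * ff T ≤ κ * Pool.Agent.H256R2.SC.ff X :=
    Pool.Agent.Y961.JR.ff_scaled κ θ T hκ hθ1 m7.le m1.2
  refine lt_of_le_of_lt hscal ?_
  apply Pool.Agent.Y961.JR.no_prime κ X hfl m3 m4
    ((lf (A i) z : ℤ) : ℝ) (hXW.trans (hval z hzb i)) _ q hq
  intro N hN
  rw [Int.floor_intCast] at hN
  exact hz2 i N hN

end Pool.Agent.V1179.MH.GH
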