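import Pool.Agent.V1179.MH.GH2

set_option autoImplicit false

/-! # Multiplicative configurations without primes nearby -/

namespace Pool.Agent.V1179.MH.GH

open Finset Filter
open Pool.Agent.V1179.MH.SF (boxF mem_boxF box_card)
open Pool.Agent.V1179.MH.PC (box_count)
open Pool.Agent.W147.PS (ff ff_compare ev_pow)
open scoped Classical

lemma mon_lower {n : ℕ} (α : Fin n → ℕ) (z : Fin n → ℤ) (hz : ∀ j, 2 ≤ z j) (j : Fin n)
    (hj : 1 ≤ α j) : z j * 2 ^ (∑ l, α l - 1) ≤ mon α z := by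
  have h1 : mon α z = z j ^ α j * ∏ l ∈ Finset.univ.erase j, z l ^ α l := by
    unfold mon
    rw [Finset.mul_prod_erase _ (fun l => z l ^ α l) (Finset.mem_univ j)]
  have h2 : ∑ l, α l = α j + ∑ l ∈ Finset.univ.erase j, α l := by
    rw [Finset.add_sum_erase _ _ (Finset.mem_univ j)]
  have h3 : (2 : ℤ) ^ (∑ l ∈ Finset.univ.erase j, α l) ≤ ∏ l ∈ Finset.univ.erase j, z l ^ α l := by
    rw [← Finset.prod_pow_eq_pow_sum]
    apply Finset.prod_le_prod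
    · intro i _
      positivity
    · intro i _
      exact pow_le_pow_left₀ (by norm_num) (hz i) _
  have h4 : z j * 2 ^ (α j - 1) ≤ z j ^ α j := by
    have h5 : (2 : ℤ) ^ (α j - 1) ≤ z j ^ (α j - 1) := pow_le_pow_left₀ (by norm_num) (hz j) _
    have h6 : z j ^ α j = z j * z j ^ (α j - 1) := by
      rw [← pow_succ']
      congr 1
      omega
    rw [h6]
    have := hz j
    nlinarith
  have h5 : (2 : ℤ) ^ (∑ l, α l - 1) = 2 ^ (α j - 1) * 2 ^ (∑ l ∈ Finset.univ.erase j, α l) := by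
    rw [← pow_add]
    congr 1
    omega
  rw [h1, h5, ← mul_assoc]
  have := hz j
  apply mul_le_mul h4 h3 (by positivity)
  have h7 : 0 ≤ z j := by linarith
  positivity

lemma not_prime {n : ℕ} (α : Fin n → ℕ) (z : Fin n → ℤ) (hz : ∀ j, 2 ≤ z j)
    (hα : 2 ≤ ∑ l, α l) (q : ℕ) (hq : q.Prime) : (q : ℤ) ≠ mon α z := by
  intro h
  have hp : Prime (q : ℤ) := Nat.prime_iff_prime_int.mp hq
  have h1 : (q : ℤ) ∣ ∏ j, z j ^ α j := by
    have : (∏ j, z j ^ α j) = mon α z := rfl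
    rw [this, ← h]
  obtain ⟨j, _, hj⟩ := (Prime.dvd_finsetProd_iff hp _).mp h1
  have hαj : 1 ≤ α j := by
    by_contra hcon
    have h2 : α j = 0 := by omega
    rw [h2, pow_zero] at hj
    exact hp.not_unit (isUnit_of_dvd_one hj)
  have h3 : (q : ℤ) ∣ z j := hp.dvd_of_dvd_pow hj
  have h4 : (q : ℤ) ≤ z j := Int.le_of_dvd (by linarith [hz j]) h3
  have h5 := mon_lower α z hz j hαj
  have h6 : (2 : ℤ) ^ 1 ≤ 2 ^ (∑ l, α l - 1) := pow_le_pow_right₀ (by norm_num) (by omega)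
  have h7 := hz j
  nlinarith

lemma mon_ge {n : ℕ} (α : Fin n → ℕ) (z : Fin n → ℤ) (hz : ∀ j, 2 ≤ z j)
    (hα : 2 ≤ ∑ l, α l) (W : ℝ) (hW : ∀ j, W ≤ z j) : W ≤ ((mon α z : ℤ) : ℝ) := by
  have h1 : ∃ j, 1 ≤ α j := by
    by_contra hcon
    push Not at hcon
    have : ∑ l, α l = 0 := Finset.sum_eq_zero fun l _ => by have := hcon l; omega
    omega
  obtain ⟨j, hj⟩ := h1
  have h5 := mon_lower α z hz j hj
  have h6 : (1 : ℤ) ≤ 2 ^ (∑ l, α l - 1) := one_le_pow₀ (by norm_num)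
  have h7 := hz j
  have h8 : z j ≤ mon α z := by nlinarith
  have h9 : ((z j : ℤ) : ℝ) ≤ ((mon α z : ℤ) : ℝ) := by exact_mod_cast h8
  exact (hW j).trans h9

/-- the local conditions -/
lemma local_one (n D p : ℕ) (hn : 1 ≤ n) (hp : p.Prime) (α : Fin n → ℕ) (β : Fin n → ℤ)
    (h : ∑ j, (α j : ℤ) * β j = 1) (a : ℤ) (ha : |a| < (p : ℤ)) (ha0 : a ≠ 0) :
    (p : ℝ) ^ (n - 1) * (1 - ((n : ℝ) + 4 * D) / p) ≤
      (((boxF n p).filter (fun ρ => (p : ℤ) ∣ mon α ρ - a)).card : ℝ) := by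
  have := Fact.mk hp
  have : NeZero p := ⟨hp.ne_zero⟩
  have haz : ((a : ℤ) : ZMod p) ≠ 0 := by
    intro hcon
    have h1 := (ZMod.intCast_zmod_eq_zero_iff_dvd _ _).mp hcon
    exact ha0 (Int.eq_zero_of_abs_lt_dvd h1 ha)
  have h1 := one_lower p α β h _ haz
  have h2 : ((boxF n p).filter (fun ρ => (p : ℤ) ∣ mon α ρ - a)).card =
      ((Finset.univ : Finset (Fin n → ZMod p)).filter (fun x => mon α x = (a : ZMod p))).card :=
    box_card (n := n) (p := p) (fun ρ => (p : ℤ) ∣ mon α ρ - a)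
      (fun x => mon α x = (a : ZMod p)) (by
        intro ρ
        rw [← mon_cast, ← sub_eq_zero, ← Int.cast_sub, ZMod.intCast_zmod_eq_zero_iff_dvd])
  rw [h2]
  set N := ((Finset.univ : Finset (Fin n → ZMod p)).filter (fun x => mon α x = (a : ZMod p))).card
  have hp1 : 1 < p := hp.one_lt
  have h3 : (p - 1) ^ (n - 1) ≤ N := by
    have h4 : (p - 1) ^ n = (p - 1) * (p - 1) ^ (n - 1) := by
      rw [← pow_succ']
      congr 1
      omega
    rw [h4] at h1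
    exact Nat.le_of_mul_le_mul_left h1 (by omega)
  have h4 : (((p - 1 : ℕ) : ℝ)) ^ (n - 1) ≤ N := by exact_mod_cast h3
  refine le_trans ?_ h4
  have hp0 : (0 : ℝ) < p := by exact_mod_cast hp.pos
  have hp2 : (2 : ℝ) ≤ p := by exact_mod_cast hp.two_le
  rw [Nat.cast_sub hp1.le, Nat.cast_one]
  have h5 : ((p : ℝ) - 1) = p * (1 + (-(1 / (p : ℝ)))) := by
    field_simp
    ring
  rw [h5, mul_pow]
  apply mul_le_mul_of_nonneg_left _ (by positivity)
  have h6 : (1 : ℝ) / p ≤ 1 := by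
    rw [div_le_one hp0]
    linarith
  have h7 := one_add_mul_le_pow (a := -(1 / (p : ℝ))) (by linarith) (n - 1)
  refine le_trans ?_ h7
  have h8 : (((n - 1 : ℕ) : ℝ)) ≤ n := by exact_mod_cast Nat.sub_le n 1
  have h9 : (0 : ℝ) ≤ 1 / p := by positivity
  have h10 : ((n : ℝ) + 4 * D) / p = n * (1 / p) + 4 * D * (1 / p) := by ring
  rw [h10]
  have h11 : (((n - 1 : ℕ) : ℝ)) * (1 / p) ≤ n * (1 / p) := by gcongr
  have h12 : (0 : ℝ) ≤ 4 * D * (1 / p) := by positivity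
  nlinarith

lemma local_two (n D p : ℕ) (hn : 1 ≤ n) (hp : p.Prime) (α α' : Fin n → ℕ) (β : Fin n → ℤ)
    (h : ∑ j, (α j : ℤ) * β j = 1) (h' : ∑ j, (α' j : ℤ) * β j = 1) (hne : α ≠ α')
    (hD : ∀ j, α j ≤ D) (hD' : ∀ j, α' j ≤ D) (a b : ℤ) (ha : |a| < (p : ℤ)) (hb : |b| < (p : ℤ))
    (ha0 : a ≠ 0) (hb0 : b ≠ 0) :
    (((boxF n p).filter (fun ρ => (p : ℤ) ∣ mon α ρ - a ∧ (p : ℤ) ∣ mon α' ρ - b)).card : ℝ) ≤
      (p : ℝ) ^ (n - 1) * (((n : ℝ) + 4 * D) / p) := by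
  have := Fact.mk hp
  have : NeZero p := ⟨hp.ne_zero⟩
  have haz : ((a : ℤ) : ZMod p) ≠ 0 := by
    intro hcon
    have h1 := (ZMod.intCast_zmod_eq_zero_iff_dvd _ _).mp hcon
    exact ha0 (Int.eq_zero_of_abs_lt_dvd h1 ha)
  have hbz : ((b : ℤ) : ZMod p) ≠ 0 := by
    intro hcon
    have h1 := (ZMod.intCast_zmod_eq_zero_iff_dvd _ _).mp hcon
    exact hb0 (Int.eq_zero_of_abs_lt_dvd h1 hb)
  have h1 := two_upper p α α' β h h' hne D hD hD' _ _ haz hbz
  have h2 : ((boxF n p).filter (fun ρ => (p : ℤ) ∣ mon α ρ - a ∧ (p : ℤ) ∣ mon α' ρ - b)).card =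
      ((Finset.univ : Finset (Fin n → ZMod p)).filter (fun x => mon α x = (a : ZMod p) ∧
        mon α' x = (b : ZMod p))).card :=
    box_card (n := n) (p := p) (fun ρ => (p : ℤ) ∣ mon α ρ - a ∧ (p : ℤ) ∣ mon α' ρ - b)
      (fun x => mon α x = (a : ZMod p) ∧ mon α' x = (b : ZMod p)) (by
        intro ρ
        rw [← mon_cast, ← mon_cast, ← sub_eq_zero, ← Int.cast_sub,
          ZMod.intCast_zmod_eq_zero_iff_dvd, ← sub_eq_zero (b := ((b : ℤ) : ZMod p)),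
          ← Int.cast_sub, ZMod.intCast_zmod_eq_zero_iff_dvd])
  rw [h2]
  set N := ((Finset.univ : Finset (Fin n → ZMod p)).filter (fun x => mon α x = (a : ZMod p) ∧
        mon α' x = (b : ZMod p))).card
  have hp1 : 1 < p := hp.one_lt
  have hp0 : (0 : ℝ) < p := by exact_mod_cast hp.pos
  have hp2 : (2 : ℝ) ≤ p := by exact_mod_cast hp.two_le
  have h3 : (((p : ℝ) - 1)) ^ 2 * N ≤ D * (p : ℝ) ^ n := by
    have h4 : (((p - 1 : ℕ) : ℝ)) ^ 2 * N ≤ D * (p : ℝ) ^ n := by exact_mod_cast h1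
    rwa [Nat.cast_sub hp1.le, Nat.cast_one] at h4
  have h4 : (p : ℝ) ^ 2 / 4 * N ≤ D * (p : ℝ) ^ n := by
    refine le_trans ?_ h3
    apply mul_le_mul_of_nonneg_right _ (Nat.cast_nonneg _)
    nlinarith
  have h5 : (p : ℝ) ^ n = p ^ (n - 1) * p := by
    rw [← pow_succ]
    congr 1
    omega
  rw [h5] at h4
  have h6 : (p : ℝ) * N ≤ 4 * D * (p : ℝ) ^ (n - 1) := by
    have h7 : (p : ℝ) * (p * N) ≤ p * (4 * D * (p : ℝ) ^ (n - 1)) := by nlinarith
    exact le_of_mul_le_mul_left h7 hp0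
  rw [← mul_div_assoc, le_div_iff₀ hp0]
  have h7 : (0 : ℝ) ≤ (p : ℝ) ^ (n - 1) := by positivity
  have h8 : (0 : ℝ) ≤ n := Nat.cast_nonneg _
  nlinarith

theorem mult_config (n r D : ℕ) (hn : 1 ≤ n) (hr : 1 ≤ r) (ε : ℝ) (h0 : 0 < ε) (h1 : ε ≤ 1) :
    ∃ κ : ℝ, 0 < κ ∧ ∃ T₀ : ℝ, ∀ T : ℝ, T₀ ≤ T → ∀ (α : Fin r → Fin n → ℕ) (β : Fin n → ℤ),
      Function.Injective α → (∀ i j, α i j ≤ D) → (∀ i, 2 ≤ ∑ j, α i j) →
      (∀ i, ∑ j, (α i j : ℤ) * β j = 1) →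
      ∀ (a : Fin n → ℤ) (L : Fin n → ℕ), (∀ j, T ^ ε ≤ a j) → (∀ j, T ^ ε ≤ L j) →
      ∃ z : Fin n → ℤ, (∀ j, a j ≤ z j ∧ z j < a j + L j) ∧
        ∀ i, ∀ q : ℕ, q.Prime → κ * ff T < |(q : ℝ) - ((mon (α i) z : ℤ) : ℝ)| := by
  obtain ⟨κ, hκ, hcr⟩ := critH n r hn hr ((n : ℝ) + 4 * D) (by positivity)
  have hn1 : (1 : ℝ) ≤ n := by exact_mod_cast hn
  set θ : ℝ := ε / (4 * n) with hθ
  have hθ0 : 0 < θ := by positivity
  have hθε : θ ≤ ε := div_le_self h0.le (by linarith)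
  have hθ1 : θ ≤ 1 := hθε.trans h1
  refine ⟨κ * (θ / 32), by positivity, ?_⟩
  obtain ⟨X₀, hX0⟩ := hcr 0
  have tθ := tendsto_rpow_atTop hθ0
  have hev := (ff_compare θ hθ0 hθ1).and ((tθ.eventually_ge_atTop X₀).and
    ((tθ.eventually Pool.Agent.Y961.JR.ev_small).and ((eventually_gt_atTop (1 : ℝ)).and
        (((tendsto_rpow_atTop (show (0 : ℝ) < ε / 2 by positivity)).eventually_ge_atTop
          ((n : ℝ) * 2 ^ n)).and ((tendsto_rpow_atTop h0).eventually_ge_atTop 2)))))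
  obtain ⟨Z, hZ⟩ := eventually_atTop.1 hev
  refine ⟨Z, ?_⟩
  intro T hT α β hinj hD h2 hβ a L ha hL
  obtain ⟨m1, m2, ⟨m3, m4⟩, m7, m8, m9⟩ := hZ T hT
  have hT0 : 0 < T := by linarith
  set X : ℝ := T ^ θ with hX
  obtain ⟨hfl, hcrit⟩ := hX0 X m2
  set W : ℝ := T ^ ε with hW
  have hW1 : 1 ≤ W := Real.one_le_rpow m7.le h0.le
  have hXW : X ≤ W := Real.rpow_le_rpow_of_exponent_le m7.le hθε
  have hX0' : 0 < X := Real.rpow_pos_of_pos hT0 _
  have hXg : X ^ (2 * (n : ℝ)) = T ^ (ε / 2) := by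
    rw [hX, ← Real.rpow_mul hT0.le]
    congr 1
    rw [hθ]
    field_simp
    norm_num
  have hWW : T ^ (ε / 2) * T ^ (ε / 2) = W := by
    rw [hW, ← Real.rpow_add hT0]
    congr 1
    ring
  set box : Finset (Fin n → ℤ) :=
    Fintype.piFinset (fun j : Fin n => Finset.Ico (a j) (a j + L j)) with hbox
  have hLpos : ∀ j, (1 : ℝ) ≤ L j := fun j => hW1.trans (hL j)
  have hcard : (box.card : ℝ) = ∏ j, (L j : ℝ) := by
    rw [hbox, Fintype.card_piFinset]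
    push_cast
    apply Finset.prod_congr rfl
    intro j _
    simp
  have hprod : (0 : ℝ) < ∏ j, (L j : ℝ) := Finset.prod_pos fun j _ => by linarith [hLpos j]
  have hne : box.Nonempty := by
    rw [← Finset.card_pos]
    have : (0 : ℝ) < box.card := by
      rw [hcard]
      exact hprod
    exact_mod_cast this
  obtain ⟨z, hz, hz2⟩ := hcrit (fun z i => mon (α i) z) (fun _ => {0})
    (fun q ρ ρ' h i => mon_cong q (α i) ρ ρ' h)
    (fun q hq _ e => common_value α β hβ q hq e)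
    (fun p hp _ i u hu hu0 => local_one n D p hn hp (α i) β (hβ i) u hu
      (fun h => hu0 (Set.mem_singleton_iff.mpr h)))
    (fun p hp _ i j hij u v hu hv hu0 hv0 => local_two n D p hn hp (α i) (α j) β (hβ i) (hβ j)
      (fun h => hij (hinj h)) (hD i) (hD j) u v hu hv (fun h => hu0 (Set.mem_singleton_iff.mpr h))
      (fun h => hv0 (Set.mem_singleton_iff.mpr h)))
    (Fin n → ℤ) box (fun v => v) hne (by
      intro q hq _ ρ
      rw [hcard]
      refine (box_count n q a L W hW1 hL hq ρ).trans ?_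
      rw [Real.rpow_neg hX0'.le, hXg, Finset.prod_mul_distrib, Finset.prod_const,
        Finset.card_univ, Fintype.card_fin]
      have e1 : (n : ℝ) * (1 / (2 * W)) * (2 ^ n * ∏ j, (L j : ℝ)) =
          (∏ j, (L j : ℝ)) * (n * 2 ^ n / (2 * W)) := by
        field_simp
      rw [e1]
      apply mul_le_mul_of_nonneg_left _ hprod.le
      have hTe : 0 < T ^ (ε / 2) := Real.rpow_pos_of_pos hT0 _
      rw [inv_eq_one_div, div_le_div_iff₀ (by positivity) hTe]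
      nlinarith)
  have hzb : ∀ j, a j ≤ z j ∧ z j < a j + L j := by
    intro j
    have := Fintype.mem_piFinset.mp hz j
    rwa [Finset.mem_Ico] at this
  have hzW : ∀ j, W ≤ z j := by
    intro j
    have h3 : ((a j : ℤ) : ℝ) ≤ z j := by exact_mod_cast (hzb j).1
    exact (ha j).trans h3
  have hz2' : ∀ j, 2 ≤ z j := by
    intro j
    have : (2 : ℝ) ≤ z j := m9.trans (hzW j)
    exact_mod_cast this
  refine ⟨z, hzb, ?_⟩
  intro i q hq
  have hscal : κ * (θ / 32) * ff T ≤ κ * Pool.Agent.H256R2.SC.ff X :=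
    Pool.Agent.Y961.JR.ff_scaled κ θ T hκ hθ1 m7.le m1.2
  refine lt_of_le_of_lt hscal ?_
  by_contra hcon
  push Not at hcon
  have hval : W ≤ ((mon (α i) z : ℤ) : ℝ) := mon_ge (α i) z hz2' (h2 i) W hzW
  obtain ⟨p, hp, hpX, hpd⟩ := hz2 i (q : ℤ) (by
    push_cast
    linarith) (by
    intro h3
    have h4 : mon (α i) z - (q : ℤ) = 0 := h3
    exact not_prime (α i) z hz2' (h2 i) q hq (by linarith))
  have h5 : p = q := (Nat.prime_dvd_prime_iff_eq hp hq).mp (by exact_mod_cast hpd)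
  rw [h5] at hpX
  have h6 := (abs_le.mp hcon).1
  linarith

end Pool.Agent.V1179.MH.GH
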