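import Pool.Agent.V1179.MH.GH15
import Pool.Agent.V1179.MH.GH3

set_option autoImplicit false

/-! # All subset sums and subset products: counting modulo primes -/

namespace Pool.Agent.V1179.MH.GH

open Finset Filter Polynomial
open scoped Classical

lemma sum_split {R : Type*} [CommRing R] {k : ℕ} (S : Finset (Fin k)) (s t : Fin k) (hst : s ≠ t)
    (x : Fin k → R) : ∑ j ∈ S, x j = (if s ∈ S then x s else 0) + ((if t ∈ S then x t else 0) +
      ∑ j ∈ (S.erase s).erase t, x j) := by
  have h1 : ∀ (S : Finset (Fin k)) (s : Fin k), ∑ j ∈ S, x j = (if s ∈ S then x s else 0) +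
      ∑ j ∈ S.erase s, x j := by
    intro S s
    by_cases h : s ∈ S
    · rw [if_pos h, Finset.add_sum_erase S x h]
    · rw [if_neg h, zero_add, Finset.erase_eq_of_notMem h]
  rw [h1 S s, h1 (S.erase s) t]
  have h2 : t ∈ S.erase s ↔ t ∈ S := by
    rw [Finset.mem_erase]
    exact ⟨fun h => h.2, fun h => ⟨hst.symm, h⟩⟩
  simp only [h2]

lemma prod_split {R : Type*} [CommRing R] {k : ℕ} (S : Finset (Fin k)) (s t : Fin k) (hst : s ≠ t)
    (x : Fin k → R) : ∏ j ∈ S, x j = (if s ∈ S then x s else 1) * ((if t ∈ S then x t else 1) *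
      ∏ j ∈ (S.erase s).erase t, x j) := by
  have h1 : ∀ (S : Finset (Fin k)) (s : Fin k), ∏ j ∈ S, x j = (if s ∈ S then x s else 1) *
      ∏ j ∈ S.erase s, x j := by
    intro S s
    by_cases h : s ∈ S
    · rw [if_pos h, Finset.mul_prod_erase S x h]
    · rw [if_neg h, one_mul, Finset.erase_eq_of_notMem h]
  rw [h1 S s, h1 (S.erase s) t]
  have h2 : t ∈ S.erase s ↔ t ∈ S := by
    rw [Finset.mem_erase]
    exact ⟨fun h => h.2, fun h => ⟨hst.symm, h⟩⟩
  simp only [h2]

/-- counting by two coordinates -/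
lemma fibre_bound (p k : ℕ) [Fact p.Prime] (s t : Fin k) (hst : s ≠ t)
    (Φ : (Fin k → ZMod p) → Prop) [DecidablePred Φ] (D : ℕ)
    (G : (Fin k → ZMod p) → Polynomial (ZMod p)) (hG : ∀ y, G y ≠ 0)
    (hdeg : ∀ y, (G y).natDegree ≤ D)
    (hroot : ∀ y x, Φ x → (∀ j, j ≠ s → j ≠ t → x j = y j) → (G y).eval (x t) = 0)
    (hdet : ∀ x x', Φ x → Φ x' → (∀ j, j ≠ s → j ≠ t → x j = x' j) → x t = x' t → x s = x' s) :
    ((Finset.univ : Finset (Fin k → ZMod p)).filter Φ).card * (p * p) ≤ D * p ^ k := by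
  have h1 : ((Finset.univ : Finset (Fin k → ZMod p))).card = p ^ k := by
    rw [Finset.card_univ, Fintype.card_fun, ZMod.card, Fintype.card_fin]
  have h2 : ((Finset.univ : Finset (ZMod p × ZMod p))).card = p * p := by
    rw [Finset.card_univ, Fintype.card_prod, ZMod.card]
  rw [← h1, ← h2, ← Finset.card_product]
  set f : (Fin k → ZMod p) × (ZMod p × ZMod p) → (Fin k → ZMod p) :=
    fun x => Function.update (Function.update x.1 s x.2.1) t x.2.2 with hf
  apply Finset.card_le_mul_card_image_of_maps_to (f := f) (fun x _ => Finset.mem_univ _)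
  intro y _
  have h3 : (G y).roots.toFinset.card ≤ D :=
    (Multiset.toFinset_card_le _).trans ((Polynomial.card_roots' _).trans (hdeg y))
  refine le_trans ?_ h3
  have hval : ∀ x : (Fin k → ZMod p) × (ZMod p × ZMod p), f x = y →
      x.2.1 = y s ∧ x.2.2 = y t ∧ ∀ j, j ≠ s → j ≠ t → x.1 j = y j := by
    intro x hx
    refine ⟨?_, ?_, ?_⟩
    · rw [← hx, hf]
      simp only
      rw [Function.update_of_ne hst, Function.update_self]
    · rw [← hx, hf]
      simp only
      rw [Function.update_self]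
    · intro j hjs hjt
      rw [← hx, hf]
      simp only
      rw [Function.update_of_ne hjt, Function.update_of_ne hjs]
  apply Finset.card_le_card_of_injOn (fun x => x.1 t)
  · intro x hx
    obtain ⟨h4, h5⟩ := Finset.mem_filter.mp (Finset.mem_coe.mp hx)
    have h6 := (Finset.mem_filter.mp (Finset.mem_product.mp h4).1).2
    exact Finset.mem_coe.mpr (Multiset.mem_toFinset.mpr ((Polynomial.mem_roots (hG y)).mpr
      (hroot y x.1 h6 (hval x h5).2.2)))
  · intro x hx x' hx' hxx
    obtain ⟨h4, h5⟩ := Finset.mem_filter.mp (Finset.mem_coe.mp hx)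
    obtain ⟨h4', h5'⟩ := Finset.mem_filter.mp (Finset.mem_coe.mp hx')
    have h6 := (Finset.mem_filter.mp (Finset.mem_product.mp h4).1).2
    have h6' := (Finset.mem_filter.mp (Finset.mem_product.mp h4').1).2
    obtain ⟨a1, a2, a3⟩ := hval x h5
    obtain ⟨b1, b2, b3⟩ := hval x' h5'
    simp only at hxx
    have h7 : ∀ j, j ≠ s → j ≠ t → x.1 j = x'.1 j := fun j hj hj' => by rw [a3 j hj hj', b3 j hj hj']
    have h8 := hdet x.1 x'.1 h6 h6' h7 hxx
    refine Prod.ext ?_ (Prod.ext (by rw [a1, b1]) (by rw [a2, b2]))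
    funext j
    by_cases hj : j = s
    · rw [hj]; exact h8
    · by_cases hj' : j = t
      · rw [hj']; exact hxx
      · exact h7 j hj hj'

lemma const_ne (p : ℕ) [Fact p.Prime] (Q : Polynomial (ZMod p)) (b : ZMod p) (hb : b ≠ 0) :
    X * Q - C b ≠ 0 := by
  intro hcon
  have h3 := congrArg (fun Q => eval 0 Q) hcon
  simp only [eval_sub, eval_mul, eval_C, eval_X, eval_zero, zero_mul, zero_sub, neg_eq_zero] at h3
  exact hb h3

lemma erase_congr_sum {R : Type*} [CommRing R] {k : ℕ} (S : Finset (Fin k)) (s t : Fin k)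
    (x y : Fin k → R) (h : ∀ j, j ≠ s → j ≠ t → x j = y j) :
    ∑ j ∈ (S.erase s).erase t, x j = ∑ j ∈ (S.erase s).erase t, y j := by
  apply Finset.sum_congr rfl
  intro j hj
  have h1 := Finset.mem_erase.mp hj
  exact h j (Finset.mem_erase.mp h1.2).1 h1.1

lemma erase_congr_prod {R : Type*} [CommRing R] {k : ℕ} (S : Finset (Fin k)) (s t : Fin k)
    (x y : Fin k → R) (h : ∀ j, j ≠ s → j ≠ t → x j = y j) :
    ∏ j ∈ (S.erase s).erase t, x j = ∏ j ∈ (S.erase s).erase t, y j := by
  apply Finset.prod_congr rfl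
  intro j hj
  have h1 := Finset.mem_erase.mp hj
  exact h j (Finset.mem_erase.mp h1.2).1 h1.1

/-- a sum and a product -/
lemma sum_prod (p k : ℕ) [Fact p.Prime] (S T : Finset (Fin k)) (s t : Fin k) (hst : s ≠ t)
    (hs : s ∈ S) (ht : t ∈ T) (a b : ZMod p) (hb : b ≠ 0) :
    ((Finset.univ : Finset (Fin k → ZMod p)).filter
      (fun x => ∑ j ∈ S, x j = a ∧ ∏ j ∈ T, x j = b)).card * (p * p) ≤ 2 * p ^ k := by
  apply fibre_bound p k s t hst _ 2 (fun y => X * ((if s ∈ T then
    (C (a - ∑ j ∈ (S.erase s).erase t, y j) - (if t ∈ S then X else 0)) else 1) *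
      C (∏ j ∈ (T.erase s).erase t, y j)) - C b)
  · intro y
    exact const_ne p _ b hb
  · intro y
    refine (natDegree_sub_le _ _).trans (max_le ?_ (by rw [natDegree_C]; norm_num))
    refine natDegree_mul_le.trans ?_
    rw [natDegree_X]
    have h1 : ((if s ∈ T then (C (a - ∑ j ∈ (S.erase s).erase t, y j) -
        (if t ∈ S then X else 0)) else 1 : Polynomial (ZMod p))).natDegree ≤ 1 := by
      split_ifs
      · refine (natDegree_sub_le _ _).trans (max_le (by rw [natDegree_C]; norm_num) natDegree_X_le)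
      · refine (natDegree_sub_le _ _).trans (max_le (by rw [natDegree_C]; norm_num) (by simp))
      · simp
    have h2 := natDegree_mul_le (p := ((if s ∈ T then (C (a - ∑ j ∈ (S.erase s).erase t, y j) -
        (if t ∈ S then X else 0)) else 1 : Polynomial (ZMod p))))
        (q := C (∏ j ∈ (T.erase s).erase t, y j))
    rw [natDegree_C] at h2
    omega
  · rintro y x ⟨h1, h2⟩ hxy
    rw [sum_split S s t hst, if_pos hs, erase_congr_sum S s t x y hxy] at h1
    rw [prod_split T s t hst, if_pos ht, erase_congr_prod T s t x y hxy] at h2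
    simp only [eval_sub, eval_mul, eval_C, eval_X]
    have h3 : x s = a - ∑ j ∈ (S.erase s).erase t, y j - (if t ∈ S then x t else 0) := by
      rw [← h1]; ring
    by_cases hsT : s ∈ T
    · rw [if_pos hsT] at h2
      simp only [if_pos hsT, eval_sub, eval_C]
      by_cases htS : t ∈ S
      · simp only [if_pos htS, eval_X] at h3 ⊢
        rw [← h3, ← h2]
        ring
      · simp only [if_neg htS, eval_zero] at h3 ⊢
        rw [← h3, ← h2]
        ring
    · rw [if_neg hsT] at h2
      simp only [if_neg hsT, eval_one]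
      rw [← h2]
      ring
  · rintro x x' ⟨h1, _⟩ ⟨h1', _⟩ hxx hxt
    rw [sum_split S s t hst, if_pos hs, erase_congr_sum S s t x x' hxx, hxt] at h1
    rw [sum_split S s t hst, if_pos hs, ← h1] at h1'
    exact (add_right_cancel h1').symm

/-- two products -/
lemma prod_prod (p k : ℕ) [Fact p.Prime] (S T : Finset (Fin k)) (s t : Fin k)
    (hs : s ∈ S) (hsT : s ∉ T) (ht : t ∈ T) (a b : ZMod p) (ha : a ≠ 0) (hb : b ≠ 0) :
    ((Finset.univ : Finset (Fin k → ZMod p)).filter
      (fun x => ∏ j ∈ S, x j = a ∧ ∏ j ∈ T, x j = b)).card * (p * p) ≤ 2 * p ^ k := by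
  have hst : s ≠ t := fun h => hsT (h ▸ ht)
  apply fibre_bound p k s t hst _ 2 (fun y => X * C (∏ j ∈ (T.erase s).erase t, y j) - C b)
  · intro y
    exact const_ne p _ b hb
  · intro y
    refine (natDegree_sub_le _ _).trans (max_le ?_ (by rw [natDegree_C]; norm_num))
    refine natDegree_mul_le.trans ?_
    rw [natDegree_X, natDegree_C]
    norm_num
  · rintro y x ⟨h1, h2⟩ hxy
    rw [prod_split T s t hst, if_pos ht, if_neg hsT, erase_congr_prod T s t x y hxy, one_mul] at h2
    simp only [eval_sub, eval_mul, eval_C, eval_X]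
    rw [h2, sub_self]
  · rintro x x' ⟨h1, _⟩ ⟨h1', _⟩ hxx hxt
    rw [prod_split S s t hst, if_pos hs, erase_congr_prod S s t x x' hxx, hxt] at h1
    rw [prod_split S s t hst, if_pos hs, ← h1] at h1'
    have h2 : ((if t ∈ S then x' t else 1) * ∏ j ∈ (S.erase s).erase t, x' j) ≠ 0 := by
      intro hcon
      rw [hcon, mul_zero] at h1
      exact ha h1.symm
    exact (mul_right_cancel₀ h2 h1').symm

/-- two sums -/
lemma sum_sum (p k : ℕ) [Fact p.Prime] (S T : Finset (Fin k)) (s t : Fin k)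
    (hs : s ∈ S) (hsT : s ∉ T) (ht : t ∈ T) (a b : ZMod p) :
    ((Finset.univ : Finset (Fin k → ZMod p)).filter
      (fun x => ∑ j ∈ S, x j = a ∧ ∑ j ∈ T, x j = b)).card * (p * p) ≤ 2 * p ^ k := by
  have hst : s ≠ t := fun h => hsT (h ▸ ht)
  apply fibre_bound p k s t hst _ 2 (fun y => X - C (b - ∑ j ∈ (T.erase s).erase t, y j))
  · intro y
    exact X_sub_C_ne_zero _
  · intro y
    rw [natDegree_X_sub_C]
    norm_num
  · rintro y x ⟨h1, h2⟩ hxy
    rw [sum_split T s t hst, if_pos ht, if_neg hsT, erase_congr_sum T s t x y hxy, zero_add] at h2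
    simp only [eval_sub, eval_C, eval_X]
    rw [← h2]
    ring
  · rintro x x' ⟨h1, _⟩ ⟨h1', _⟩ hxx hxt
    rw [sum_split S s t hst, if_pos hs, erase_congr_sum S s t x x' hxx, hxt] at h1
    rw [sum_split S s t hst, if_pos hs, ← h1] at h1'
    exact (add_right_cancel h1').symm

end Pool.Agent.V1179.MH.GH
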