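import Pool.Agent.V1179.MH.GH17

set_option autoImplicit false

/-! # All subset sums and subset products, without primes nearby -/

namespace Pool.Agent.V1179.MH.GH

open Finset Filter
open Pool.Agent.V1179.MH.SF (boxF mem_boxF box_card cast_ne)
open Pool.Agent.V1179.MH.PC (box_count)
open Pool.Agent.W147.PS (ff ff_compare ev_pow)
open scoped Classical

/-- the sum or the product over a subset -/
def fv {R : Type*} [CommRing R] {k : ℕ} (c : Bool × Finset (Fin k)) (x : Fin k → R) : R :=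
  if c.1 = true then ∑ j ∈ c.2, x j else ∏ j ∈ c.2, x j

/-- the allowed indices: sums over nonempty sets, products over sets with at least two elements -/
def IsOk {k : ℕ} (c : Bool × Finset (Fin k)) : Prop := c.2.Nonempty ∧ (c.1 = false → 2 ≤ c.2.card)

lemma fv_cast (q : ℕ) {k : ℕ} (c : Bool × Finset (Fin k)) (z : Fin k → ℤ) :
    ((fv c z : ℤ) : ZMod q) = fv c (fun j => ((z j : ℤ) : ZMod q)) := by
  unfold fv
  split_ifs <;> push_cast <;> rfl

lemma fv_cong (q : ℕ) {k : ℕ} (c : Bool × Finset (Fin k)) (y y' : Fin k → ℤ)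
    (h : ∀ j, (q : ℤ) ∣ y j - y' j) : (q : ℤ) ∣ fv c y - fv c y' := by
  have h0 : (fun l => ((y l : ℤ) : ZMod q)) = fun l => ((y' l : ℤ) : ZMod q) := by
    funext l
    rw [← sub_eq_zero, ← Int.cast_sub, ZMod.intCast_zmod_eq_zero_iff_dvd]
    exact h l
  rw [← ZMod.intCast_zmod_eq_zero_iff_dvd, Int.cast_sub, fv_cast, fv_cast, h0, sub_self]

lemma fv_two (p k : ℕ) [Fact p.Prime] (c c' : Bool × Finset (Fin k)) (hc : IsOk c) (hc' : IsOk c')
    (hne : c ≠ c') (a b : ZMod p) (ha : a ≠ 0) (hb : b ≠ 0) :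
    ((Finset.univ : Finset (Fin k → ZMod p)).filter
      (fun x => fv c x = a ∧ fv c' x = b)).card * (p * p) ≤ 2 * p ^ k := by
  obtain ⟨i, S⟩ := c
  obtain ⟨i', T⟩ := c'
  obtain ⟨hS, hS2⟩ := hc
  obtain ⟨hT, hT2⟩ := hc'
  simp only at hS hS2 hT hT2
  have hsw : ((Finset.univ : Finset (Fin k → ZMod p)).filter
      (fun x => fv (i, S) x = a ∧ fv (i', T) x = b)).card =
      ((Finset.univ : Finset (Fin k → ZMod p)).filter
      (fun x => fv (i', T) x = b ∧ fv (i, S) x = a)).card := by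
    congr 1
    apply Finset.filter_congr
    intro x _
    exact and_comm
  have hex : i = i' → (∃ s ∈ S, s ∉ T) ∨ (∃ s ∈ T, s ∉ S) := by
    intro hii
    by_contra hcon
    push Not at hcon
    apply hne
    rw [hii]
    congr 1
    exact Finset.Subset.antisymm hcon.1 hcon.2
  cases i <;> cases i'
  · rcases hex rfl with ⟨s, hs, hsT⟩ | ⟨s, hs, hsT⟩
    · obtain ⟨t, ht⟩ := hT
      have := prod_prod p k S T s t hs hsT ht a b ha hb
      simpa [fv] using this
    · obtain ⟨t, ht⟩ := hS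
      have := prod_prod p k T S s t hs hsT ht b a hb ha
      rw [hsw]
      simpa [fv] using this
  · obtain ⟨s, hs⟩ := hT
    obtain ⟨t, ht, hts⟩ := Finset.exists_mem_ne (s := S) (by have := hS2 rfl; omega) s
    have := sum_prod p k T S s t hts.symm hs ht b a ha
    rw [hsw]
    simpa [fv] using this
  · obtain ⟨s, hs⟩ := hS
    obtain ⟨t, ht, hts⟩ := Finset.exists_mem_ne (s := T) (by have := hT2 rfl; omega) s
    have := sum_prod p k S T s t hts.symm hs ht a b hb
    simpa [fv] using this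
  · rcases hex rfl with ⟨s, hs, hsT⟩ | ⟨s, hs, hsT⟩
    · obtain ⟨t, ht⟩ := hT
      have := sum_sum p k S T s t hs hsT ht a b
      simpa [fv] using this
    · obtain ⟨t, ht⟩ := hS
      have := sum_sum p k T S s t hs hsT ht b a
      rw [hsw]
      simpa [fv] using this

lemma pow_lower (p k : ℕ) (hp : p.Prime) (hk : 1 ≤ k) :
    (p : ℝ) ^ (k - 1) * (1 - ((k : ℝ) + 2) / p) ≤ ((p - 1 : ℕ) : ℝ) ^ (k - 1) := by
  have hp0 : (0 : ℝ) < p := by exact_mod_cast hp.pos
  have hp2 : (2 : ℝ) ≤ p := by exact_mod_cast hp.two_le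
  rw [Nat.cast_sub hp.one_lt.le, Nat.cast_one]
  have h5 : ((p : ℝ) - 1) = p * (1 + (-(1 / (p : ℝ)))) := by
    field_simp
    ring
  rw [h5, mul_pow]
  apply mul_le_mul_of_nonneg_left _ (by positivity)
  have h6 : (1 : ℝ) / p ≤ 1 := by
    rw [div_le_one hp0]
    linarith
  have h7 := one_add_mul_le_pow (a := -(1 / (p : ℝ))) (by linarith) (k - 1)
  refine le_trans ?_ h7
  have h8 : (((k - 1 : ℕ) : ℝ)) ≤ k := by exact_mod_cast Nat.sub_le k 1
  have h9 : (0 : ℝ) ≤ 1 / p := by positivity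
  have h10 : ((k : ℝ) + 2) / p = k * (1 / p) + 2 * (1 / p) := by ring
  rw [h10]
  have h11 : (((k - 1 : ℕ) : ℝ)) * (1 / p) ≤ k * (1 / p) := by gcongr
  nlinarith

lemma fv_one (p k : ℕ) [Fact p.Prime] (hk : 1 ≤ k) (c : Bool × Finset (Fin k)) (hc : IsOk c)
    (a : ZMod p) :
    (p : ℝ) ^ (k - 1) * (1 - ((k : ℝ) + 2) / p) ≤
      ((((Finset.univ : Finset (Fin k → ZMod p)).filter (fun x => fv c x = a)).card : ℕ) : ℝ) := by
  have hp := Fact.out (p := p.Prime)
  have hp0 : (0 : ℝ) < p := by exact_mod_cast hp.pos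
  have hweak : (p : ℝ) ^ (k - 1) * (1 - ((k : ℝ) + 2) / p) ≤ (p : ℝ) ^ (k - 1) := by
    have h7 : (0 : ℝ) ≤ ((k : ℝ) + 2) / p := by positivity
    have h8 : (0 : ℝ) ≤ (p : ℝ) ^ (k - 1) := by positivity
    nlinarith
  have hdiv : ∀ N : ℕ, p ^ k ≤ N * p → (p : ℝ) ^ (k - 1) ≤ N := by
    intro N hN
    have h4 : (p : ℝ) ^ k ≤ (N : ℝ) * p := by exact_mod_cast hN
    have h5 : (p : ℝ) ^ k = p ^ (k - 1) * p := by
      rw [← pow_succ]
      congr 1
      omega
    rw [h5] at h4
    exact le_of_mul_le_mul_right h4 hp0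
  obtain ⟨i, S⟩ := c
  obtain ⟨⟨t, ht⟩, hS2⟩ := hc
  simp only at ht hS2
  cases i
  · by_cases ha : a = 0
    · have h1 := lf_one p k (fun j => if j = t then (1 : ZMod p) else 0) t (by simp) 0
      refine hweak.trans ((hdiv _ h1).trans ?_)
      have h2 : ((Finset.univ : Finset (Fin k → ZMod p)).filter
          (fun z => lf (fun j => if j = t then (1 : ZMod p) else 0) z = 0)).card ≤
          ((Finset.univ : Finset (Fin k → ZMod p)).filter
            (fun x => fv (false, S) x = a)).card := by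
        apply Finset.card_le_card
        intro z hz
        have h3 := (Finset.mem_filter.mp hz).2
        have h4 : lf (fun j => if j = t then (1 : ZMod p) else 0) z = z t := by
          unfold lf
          simp
        rw [h4] at h3
        refine Finset.mem_filter.mpr ⟨Finset.mem_univ _, ?_⟩
        rw [ha]
        have h5 : fv (false, S) z = ∏ j ∈ S, z j := by simp [fv]
        rw [h5]
        exact Finset.prod_eq_zero ht h3
      exact_mod_cast h2
    · have h1 := one_lower p (fun j => if j ∈ S then 1 else 0) (fun j => if j = t then 1 else 0)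
        (by simp [ht]) a ha
      have h2 : (p - 1) ^ (k - 1) ≤ ((Finset.univ : Finset (Fin k → ZMod p)).filter
          (fun x => mon (fun j => if j ∈ S then 1 else 0) x = a)).card := by
        have h4 : (p - 1) ^ k = (p - 1) * (p - 1) ^ (k - 1) := by
          rw [← pow_succ']
          congr 1
          omega
        rw [h4] at h1
        exact Nat.le_of_mul_le_mul_left h1 (by have := hp.one_lt; omega)
      refine (pow_lower p k hp hk).trans ?_
      have h3 : ((Finset.univ : Finset (Fin k → ZMod p)).filter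
          (fun x => mon (fun j => if j ∈ S then 1 else 0) x = a)).card =
          ((Finset.univ : Finset (Fin k → ZMod p)).filter
            (fun x => fv (false, S) x = a)).card := by
        congr 1
        apply Finset.filter_congr
        intro x _
        have h5 : fv (false, S) x = ∏ j ∈ S, x j := by simp [fv]
        have h6 : mon (fun j => if j ∈ S then 1 else 0) x = ∏ j ∈ S, x j := by
          unfold mon
          rw [← Finset.prod_subset (Finset.subset_univ S)]
          · apply Finset.prod_congr rfl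
            intro j hj
            simp [hj]
          · intro j _ hj
            simp [hj]
        rw [h5, h6]
      rw [h3] at h2
      exact_mod_cast h2
  · have h1 := lf_one p k (fun j => if j ∈ S then (1 : ZMod p) else 0) t (by simp [ht]) a
    refine hweak.trans ((hdiv _ h1).trans (le_of_eq ?_))
    congr 2
    apply Finset.filter_congr
    intro x _
    have h5 : fv (true, S) x = ∑ j ∈ S, x j := by simp [fv]
    have h6 : lf (fun j => if j ∈ S then (1 : ZMod p) else 0) x = ∑ j ∈ S, x j := by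
      unfold lf
      rw [← Finset.sum_subset (Finset.subset_univ S)]
      · apply Finset.sum_congr rfl
        intro j hj
        simp [hj]
      · intro j _ hj
        simp [hj]
    rw [h5, h6]

lemma fv_iff (p : ℕ) {k : ℕ} (c : Bool × Finset (Fin k)) (ρ : Fin k → ℤ) (a : ℤ) :
    (p : ℤ) ∣ fv c ρ - a ↔ fv c (fun j => ((ρ j : ℤ) : ZMod p)) = (a : ZMod p) := by
  rw [← fv_cast, ← ZMod.intCast_zmod_eq_zero_iff_dvd, Int.cast_sub, sub_eq_zero]

theorem fv_config (k : ℕ) (hk : 1 ≤ k) (ε : ℝ) (h0 : 0 < ε) (h1 : ε ≤ 1) :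
    ∃ κ : ℝ, 0 < κ ∧ ∃ T₀ : ℝ, ∀ T : ℝ, T₀ ≤ T → ∀ (a : Fin k → ℤ) (L : Fin k → ℕ),
      (∀ j, T ^ ε ≤ a j) → (∀ j, T ^ ε ≤ L j) →
      ∃ z : Fin k → ℤ, (∀ j, a j ≤ z j ∧ z j < a j + L j) ∧
        ∀ c : Bool × Finset (Fin k), IsOk c →
          ∀ q : ℕ, q.Prime → κ * ff T < |(q : ℝ) - ((fv c z : ℤ) : ℝ)| := by
  set r : ℕ := Fintype.card {c : Bool × Finset (Fin k) // IsOk c} with hr
  set e : {c : Bool × Finset (Fin k) // IsOk c} ≃ Fin r := Fintype.equivFin _ with he
  have hr1 : 1 ≤ r := by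
    rw [hr, Nat.one_le_iff_ne_zero, ← Nat.pos_iff_ne_zero, Fintype.card_pos_iff]
    exact ⟨⟨(true, {⟨0, hk⟩}), by
      refine ⟨Finset.singleton_nonempty _, fun h => ?_⟩
      simp at h⟩⟩
  obtain ⟨κ, hκ, hcr⟩ := critZ k r hk hr1 ((k : ℝ) + 2) (by positivity)
  have hn1 : (1 : ℝ) ≤ k := by exact_mod_cast hk
  set θ : ℝ := ε / (4 * k) with hθ
  have hθ0 : 0 < θ := by positivity
  have hθε : θ ≤ ε := div_le_self h0.le (by linarith)
  have hθ1 : θ ≤ 1 := hθε.trans h1
  refine ⟨κ * (θ / 32), by positivity, ?_⟩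
  obtain ⟨X₀, hX0⟩ := hcr 0
  have tθ := tendsto_rpow_atTop hθ0
  have hev := (ff_compare θ hθ0 hθ1).and ((tθ.eventually_ge_atTop X₀).and
    ((tθ.eventually Pool.Agent.Y961.JR.ev_small).and ((eventually_gt_atTop (1 : ℝ)).and
        ((tendsto_rpow_atTop (show (0 : ℝ) < ε / 2 by positivity)).eventually_ge_atTop
          ((k : ℝ) * 2 ^ k)))))
  obtain ⟨Z, hZ⟩ := eventually_atTop.1 hev
  refine ⟨Z, ?_⟩
  intro T hT a L ha hL
  obtain ⟨m1, m2, ⟨m3, m4⟩, m7, m8⟩ := hZ T hT
  have hT0 : 0 < T := by linarith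
  set X : ℝ := T ^ θ with hX
  obtain ⟨hfl, hcrit⟩ := hX0 X m2
  set W : ℝ := T ^ ε with hW
  have hW1 : 1 ≤ W := Real.one_le_rpow m7.le h0.le
  have hXW : X ≤ W := Real.rpow_le_rpow_of_exponent_le m7.le hθε
  have hX0' : 0 < X := Real.rpow_pos_of_pos hT0 _
  have hXg : X ^ (2 * (k : ℝ)) = T ^ (ε / 2) := by
    rw [hX, ← Real.rpow_mul hT0.le]
    congr 1
    rw [hθ]
    field_simp
    norm_num
  have hWW : T ^ (ε / 2) * T ^ (ε / 2) = W := by
    rw [hW, ← Real.rpow_add hT0]
    congr 1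
    ring
  set box : Finset (Fin k → ℤ) :=
    Fintype.piFinset (fun j : Fin k => Finset.Ico (a j) (a j + L j)) with hbox
  have hLpos : ∀ j, (1 : ℝ) ≤ L j := fun j => hW1.trans (hL j)
  have hcard : (box.card : ℝ) = ∏ j, (L j : ℝ) := by
    rw [hbox, Fintype.card_piFinset]
    push_cast
    apply Finset.prod_congr rfl
    intro j _
    simp
  have hprod : (0 : ℝ) < ∏ j, (L j : ℝ) := Finset.prod_pos fun j _ => by linarith [hLpos j]
  have hne : box.Nonempty := by
    rw [← Finset.card_pos]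
    have : (0 : ℝ) < box.card := by
      rw [hcard]
      exact hprod
    exact_mod_cast this
  obtain ⟨z, hz, hz2⟩ := hcrit (fun z i => fv (e.symm i).1 z)
    (fun q ρ ρ' h i => fv_cong q (e.symm i).1 ρ ρ' h)
    (by
      intro i
      have h2 := (e.symm i).2
      unfold fv
      split_ifs
      · simp
      · rw [Finset.prod_const, zero_pow (Finset.card_pos.mpr h2.1).ne'])
    (by
      intro p hp _ _ i u
      have := Fact.mk hp
      have : NeZero p := ⟨hp.ne_zero⟩
      have h2 := fv_one p k hk (e.symm i).1 (e.symm i).2 (u : ZMod p)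
      have h3 := box_card (n := k) (p := p) (fun ρ => (p : ℤ) ∣ fv (e.symm i).1 ρ - u)
        (fun z : Fin k → ZMod p => fv (e.symm i).1 z = (u : ZMod p))
        (fun ρ => fv_iff p (e.symm i).1 ρ u)
      rw [h3]
      exact h2.trans (le_of_eq (by congr!)))
    (by
      intro p hp _ _ i j hij u v hu hv hu0 hv0
      have := Fact.mk hp
      have : NeZero p := ⟨hp.ne_zero⟩
      have hp0 : (0 : ℝ) < p := by exact_mod_cast hp.pos
      have hcast : ∀ c : ℤ, |c| < (p : ℤ) → c ≠ 0 → ((c : ℤ) : ZMod p) ≠ 0 := by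
        intro c hc hc0 hcon
        exact hc0 (Int.eq_zero_of_abs_lt_dvd
          ((ZMod.intCast_zmod_eq_zero_iff_dvd _ _).mp hcon) hc)
      have h2 := fv_two p k (e.symm i).1 (e.symm j).1 (e.symm i).2 (e.symm j).2
        (fun h => hij (e.symm.injective (Subtype.ext h))) (u : ZMod p) (v : ZMod p)
        (hcast u hu hu0) (hcast v hv hv0)
      have h3 := box_card (n := k) (p := p)
        (fun ρ => (p : ℤ) ∣ fv (e.symm i).1 ρ - u ∧ (p : ℤ) ∣ fv (e.symm j).1 ρ - v)
        (fun z : Fin k → ZMod p => fv (e.symm i).1 z = (u : ZMod p) ∧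
          fv (e.symm j).1 z = (v : ZMod p))
        (fun ρ => and_congr (fv_iff p (e.symm i).1 ρ u) (fv_iff p (e.symm j).1 ρ v))
      rw [h3]
      have h4 : ((((Finset.univ : Finset (Fin k → ZMod p)).filter
        (fun z => fv (e.symm i).1 z = (u : ZMod p) ∧
          fv (e.symm j).1 z = (v : ZMod p))).card : ℕ) : ℝ) * (p * p) ≤ 2 * (p : ℝ) ^ k := by
        exact_mod_cast h2
      have h5 : (p : ℝ) ^ k = p ^ (k - 1) * p := by
        rw [← pow_succ]
        congr 1
        omega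
      rw [h5, ← mul_assoc, ← mul_assoc] at h4
      have h6 := le_of_mul_le_mul_right h4 hp0
      rw [← mul_div_assoc, le_div_iff₀ hp0]
      have h7 : 2 * (p : ℝ) ^ (k - 1) ≤ (p : ℝ) ^ (k - 1) * ((k : ℝ) + 2) := by
        have h8 : (0 : ℝ) ≤ (p : ℝ) ^ (k - 1) := by positivity
        nlinarith
      refine le_trans (le_of_eq ?_) (h6.trans h7)
      congr!)
    (Fin k → ℤ) box (fun v => v) hne (by
      intro q hq _ ρ
      rw [hcard]
      refine (box_count k q a L W hW1 hL hq ρ).trans ?_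
      rw [Real.rpow_neg hX0'.le, hXg, Finset.prod_mul_distrib, Finset.prod_const,
        Finset.card_univ, Fintype.card_fin]
      have e1 : (k : ℝ) * (1 / (2 * W)) * (2 ^ k * ∏ j, (L j : ℝ)) =
          (∏ j, (L j : ℝ)) * (k * 2 ^ k / (2 * W)) := by
        field_simp
      rw [e1]
      apply mul_le_mul_of_nonneg_left _ hprod.le
      have hTe : 0 < T ^ (ε / 2) := Real.rpow_pos_of_pos hT0 _
      rw [inv_eq_one_div, div_le_div_iff₀ (by positivity) hTe]
      nlinarith)
  have hzb : ∀ j, a j ≤ z j ∧ z j < a j + L j := by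
    intro j
    have := Fintype.mem_piFinset.mp hz j
    rwa [Finset.mem_Ico] at this
  have hzW : ∀ j, W ≤ z j := by
    intro j
    have h3 : ((a j : ℤ) : ℝ) ≤ z j := by exact_mod_cast (hzb j).1
    exact (ha j).trans h3
  have hz1 : ∀ j, (1 : ℤ) ≤ z j := by
    intro j
    have : (1 : ℝ) ≤ z j := hW1.trans (hzW j)
    exact_mod_cast this
  refine ⟨z, hzb, ?_⟩
  intro c hc q hq
  have hscal : κ * (θ / 32) * ff T ≤ κ * Pool.Agent.H256R2.SC.ff X :=
    Pool.Agent.Y961.JR.ff_scaled κ θ T hκ hθ1 m7.le m1.2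
  refine lt_of_le_of_lt hscal ?_
  have hval : W ≤ ((fv c z : ℤ) : ℝ) := by
    obtain ⟨t, ht⟩ := hc.1
    refine (hzW t).trans ?_
    have h3 : z t ≤ fv c z := by
      unfold fv
      split_ifs
      · exact Finset.single_le_sum (f := fun j => z j) (fun j _ => by linarith [hz1 j]) ht
      · rw [← Finset.mul_prod_erase _ _ ht]
        have h4 : (1 : ℤ) ≤ ∏ j ∈ c.2.erase t, z j := by
          have h5 : ∏ j ∈ c.2.erase t, (1 : ℤ) ≤ ∏ j ∈ c.2.erase t, z j :=
            Finset.prod_le_prod (fun _ _ => by norm_num) (fun j _ => hz1 j)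
          rwa [Finset.prod_const_one] at h5
        have h5 := hz1 t
        nlinarith
    exact_mod_cast h3
  have hee : fv (e.symm (e ⟨c, hc⟩)).1 z = fv c z := by
    rw [Equiv.symm_apply_apply]
  apply Pool.Agent.Y961.JR.no_prime κ X hfl m3 m4
    ((fv c z : ℤ) : ℝ) (hXW.trans hval) _ q hq
  intro N hN
  rw [Int.floor_intCast] at hN
  exact hz2 (e ⟨c, hc⟩) N (by
    simp only [hee]
    exact hN)

end Pool.Agent.V1179.MH.GH
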