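import Pool.Agent.V1179.MH.GH1
import Pool.Agent.V1179.MH.PC1

set_option autoImplicit false

/-! # Monomials: counting modulo primes -/

namespace Pool.Agent.V1179.MH.GH

open Finset
open Pool.Agent.V1179.MH.SF (boxF mem_boxF box_card)
open scoped Classical

/-- the monomial with the exponents `α` -/
def mon {R : Type*} [CommRing R] {n : ℕ} (α : Fin n → ℕ) (x : Fin n → R) : R := ∏ j, x j ^ α j

lemma mon_map {R S : Type*} [CommRing R] [CommRing S] (f : R →+* S) {n : ℕ} (α : Fin n → ℕ)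
    (x : Fin n → R) : f (mon α x) = mon α (fun j => f (x j)) := by
  unfold mon
  rw [map_prod]
  simp

lemma mon_cast (q : ℕ) {n : ℕ} (α : Fin n → ℕ) (x : Fin n → ℤ) :
    ((mon α x : ℤ) : ZMod q) = mon α (fun j => ((x j : ℤ) : ZMod q)) := by
  have := mon_map (Int.castRingHom (ZMod q)) α x
  simpa using this

lemma mon_cong (q : ℕ) {n : ℕ} (α : Fin n → ℕ) (y y' : Fin n → ℤ)
    (h : ∀ j, (q : ℤ) ∣ y j - y' j) : (q : ℤ) ∣ mon α y - mon α y' := by
  have h0 : (fun l => ((y l : ℤ) : ZMod q)) = fun l => ((y' l : ℤ) : ZMod q) := by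
    funext l
    rw [← sub_eq_zero, ← Int.cast_sub, ZMod.intCast_zmod_eq_zero_iff_dvd]
    exact h l
  rw [← ZMod.intCast_zmod_eq_zero_iff_dvd, Int.cast_sub, mon_cast, mon_cast, h0, sub_self]

lemma mon_mul {R : Type*} [CommRing R] {n : ℕ} (α : Fin n → ℕ) (x y : Fin n → R) :
    mon α (fun j => x j * y j) = mon α x * mon α y := by
  unfold mon
  rw [← Finset.prod_mul_distrib]
  exact Finset.prod_congr rfl fun j _ => mul_pow _ _ _

lemma prod_sec {G : Type*} [CommGroup G] {n : ℕ} (α : Fin n → ℕ) (β : Fin n → ℤ) (s : G) :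
    ∏ j, (s ^ β j) ^ α j = s ^ (∑ j, (α j : ℤ) * β j) := by
  have : ∀ S : Finset (Fin n), ∏ j ∈ S, (s ^ β j) ^ α j = s ^ (∑ j ∈ S, (α j : ℤ) * β j) := by
    intro S
    induction S using Finset.induction_on with
    | empty => simp
    | insert j S hj ih =>
      rw [Finset.prod_insert hj, Finset.sum_insert hj, ih, zpow_add, ← zpow_natCast (s ^ β j),
        ← zpow_mul, mul_comm (β j)]
  exact this Finset.univ

lemma mon_sec {p : ℕ} {n : ℕ} (α : Fin n → ℕ) (β : Fin n → ℤ) (h : ∑ j, (α j : ℤ) * β j = 1)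
    (s : (ZMod p)ˣ) : mon α (fun j => ((s ^ β j : (ZMod p)ˣ) : ZMod p)) = s := by
  have h1 := prod_sec α β s
  rw [h, zpow_one] at h1
  unfold mon
  conv_rhs => rw [← h1]
  push_cast
  rfl

lemma mon_single {R : Type*} [CommRing R] {n : ℕ} (α : Fin n → ℕ) (l : Fin n) (t : R) :
    mon α (fun j => if j = l then t else 1) = t ^ α l := by
  unfold mon
  rw [Finset.prod_eq_single l]
  · simp
  · intro j _ hj
    simp [hj]
  · intro h
    exact absurd (Finset.mem_univ _) h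

/-- one monomial -/
lemma one_lower (p : ℕ) [Fact p.Prime] {n : ℕ} (α : Fin n → ℕ) (β : Fin n → ℤ)
    (h : ∑ j, (α j : ℤ) * β j = 1) (a : ZMod p) (ha : a ≠ 0) :
    (p - 1) ^ n ≤ (p - 1) *
      ((Finset.univ : Finset (Fin n → ZMod p)).filter (fun x => mon α x = a)).card := by
  have hG : Fintype.card (ZMod p)ˣ = p - 1 := ZMod.card_units p
  have h1 : Fintype.card (Fin n → (ZMod p)ˣ) = (p - 1) ^ n := by
    rw [Fintype.card_fun, hG, Fintype.card_fin]
  rw [← h1, ← hG, ← Finset.card_univ, ← Finset.card_univ, ← Finset.card_product]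
  set a' : (ZMod p)ˣ := Units.mk0 a ha with ha'
  have key : ∀ y : Fin n → (ZMod p)ˣ, ∀ s : (ZMod p)ˣ, s = (∏ j, y j ^ α j) * a'⁻¹ →
      mon α (fun j => (((s⁻¹) ^ β j * y j : (ZMod p)ˣ) : ZMod p)) = a := by
    intro y s hs
    have e1 : (fun j => (((s⁻¹) ^ β j * y j : (ZMod p)ˣ) : ZMod p)) =
        fun j => (((s⁻¹) ^ β j : (ZMod p)ˣ) : ZMod p) * ((y j : (ZMod p)ˣ) : ZMod p) := by
      funext j
      push_cast
      rfl
    rw [e1, mon_mul, mon_sec α β h]
    have e2 : mon α (fun j => ((y j : (ZMod p)ˣ) : ZMod p)) =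
        ((∏ j, y j ^ α j : (ZMod p)ˣ) : ZMod p) := by
      unfold mon
      push_cast
      rfl
    rw [e2, ← Units.val_mul, hs]
    have e3 : ((∏ j, y j ^ α j) * a'⁻¹)⁻¹ * (∏ j, y j ^ α j) = a' := by
      rw [mul_inv, inv_inv, mul_comm (∏ j, y j ^ α j)⁻¹, mul_assoc, inv_mul_cancel, mul_one]
    rw [e3]
    rfl
  apply Finset.card_le_card_of_injOn (fun y => ((∏ j, y j ^ α j) * a'⁻¹,
    fun j => (((((∏ j, y j ^ α j) * a'⁻¹)⁻¹) ^ β j * y j : (ZMod p)ˣ) : ZMod p)))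
  · intro y _
    refine Finset.mem_coe.mpr (Finset.mem_product.mpr ⟨Finset.mem_univ _, ?_⟩)
    exact Finset.mem_filter.mpr ⟨Finset.mem_univ _, key y _ rfl⟩
  · intro y _ y' _ hyy
    simp only [Prod.mk.injEq] at hyy
    obtain ⟨h2, h3⟩ := hyy
    funext j
    have h4 := congrFun h3 j
    rw [← h2] at h4
    have h5 := Units.ext h4
    exact mul_left_cancel h5

lemma two_upper_aux (p : ℕ) [Fact p.Prime] {n : ℕ} (α α' : Fin n → ℕ) (β : Fin n → ℤ)
    (h : ∑ j, (α j : ℤ) * β j = 1) (h' : ∑ j, (α' j : ℤ) * β j = 1) (l : Fin n) (D : ℕ)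
    (hl : α' l < α l) (hD : α l ≤ D) (a b : ZMod p) (ha : a ≠ 0) (hb : b ≠ 0) :
    (p - 1) ^ 2 * ((Finset.univ : Finset (Fin n → ZMod p)).filter
      (fun x => mon α x = a ∧ mon α' x = b)).card ≤ D * p ^ n := by
  have hG : Fintype.card (ZMod p)ˣ = p - 1 := ZMod.card_units p
  have h1 : Fintype.card (Fin n → ZMod p) = p ^ n := by
    rw [Fintype.card_fun, ZMod.card, Fintype.card_fin]
  set A := (Finset.univ : Finset (Fin n → ZMod p)).filter (fun x => mon α x = a ∧ mon α' x = b)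
    with hA
  have h2 : ((Finset.univ : Finset ((ZMod p)ˣ × (ZMod p)ˣ)) ×ˢ A).card = (p - 1) ^ 2 * A.card := by
    rw [Finset.card_product, Finset.card_univ, Fintype.card_prod, hG, sq]
  rw [← h1, ← h2, ← Finset.card_univ]
  set f : ((ZMod p)ˣ × (ZMod p)ˣ) × (Fin n → ZMod p) → (Fin n → ZMod p) :=
    fun z j => (((z.1.1 ^ β j : (ZMod p)ˣ) : ZMod p) * (if j = l then ((z.1.2 : (ZMod p)ˣ) : ZMod p)
      else 1)) * z.2 j with hf
  have hmon : ∀ (γ : Fin n → ℕ), ∑ j, (γ j : ℤ) * β j = 1 → ∀ z, mon γ (f z) =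
      ((z.1.1 : (ZMod p)ˣ) : ZMod p) * ((z.1.2 : (ZMod p)ˣ) : ZMod p) ^ γ l * mon γ z.2 := by
    intro γ hγ z
    rw [hf]
    simp only
    rw [mon_mul, mon_mul, mon_sec γ β hγ, mon_single]
  apply Finset.card_le_mul_card_image_of_maps_to (f := f) (fun z _ => Finset.mem_univ _)
  intro y _
  set c : ZMod p := mon α y * b * (a * mon α' y)⁻¹ with hc
  have h3 : (Polynomial.nthRoots (α l - α' l) c).toFinset.card ≤ D :=
    (Multiset.toFinset_card_le _).trans ((Polynomial.card_nthRoots _ _).trans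
      ((Nat.sub_le _ _).trans hD))
  refine le_trans ?_ h3
  have hmem : ∀ z ∈ ((Finset.univ : Finset ((ZMod p)ˣ × (ZMod p)ˣ)) ×ˢ A).filter
      (fun z => f z = y), mon α y = ((z.1.1 : (ZMod p)ˣ) : ZMod p) *
        ((z.1.2 : (ZMod p)ˣ) : ZMod p) ^ α l * a ∧ mon α' y = ((z.1.1 : (ZMod p)ˣ) : ZMod p) *
        ((z.1.2 : (ZMod p)ˣ) : ZMod p) ^ α' l * b := by
    intro z hz
    obtain ⟨h4, h5⟩ := Finset.mem_filter.mp hz
    have h6 := (Finset.mem_filter.mp (Finset.mem_product.mp h4).2).2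
    rw [← h5, hmon α h, hmon α' h', h6.1, h6.2]
    exact ⟨rfl, rfl⟩
  apply Finset.card_le_card_of_injOn (fun z => ((z.1.2 : (ZMod p)ˣ) : ZMod p))
  · intro z hz
    obtain ⟨h4, h5⟩ := hmem z (Finset.mem_coe.mp hz)
    refine Finset.mem_coe.mpr (Multiset.mem_toFinset.mpr
      ((Polynomial.mem_nthRoots (by omega)).mpr ?_))
    rw [hc, h4, h5]
    have e1 : ((z.1.2 : (ZMod p)ˣ) : ZMod p) ^ α l = ((z.1.2 : (ZMod p)ˣ) : ZMod p) ^ α' l *
        ((z.1.2 : (ZMod p)ˣ) : ZMod p) ^ (α l - α' l) := by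
      rw [← pow_add]
      congr 1
      omega
    rw [e1]
    have e2 : ((z.1.1 : (ZMod p)ˣ) : ZMod p) ≠ 0 := Units.ne_zero _
    have e3 : ((z.1.2 : (ZMod p)ˣ) : ZMod p) ≠ 0 := Units.ne_zero _
    field_simp
  · intro z hz z' hz' hzz
    simp only at hzz
    obtain ⟨h4, h5⟩ := hmem z (Finset.mem_coe.mp hz)
    obtain ⟨h4', h5'⟩ := hmem z' (Finset.mem_coe.mp hz')
    have h6 : z.1.2 = z'.1.2 := Units.ext hzz
    have e3 : ((z'.1.2 : (ZMod p)ˣ) : ZMod p) ^ α l ≠ 0 := pow_ne_zero _ (Units.ne_zero _)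
    have h7 : z.1.1 = z'.1.1 := by
      apply Units.ext
      rw [h4, hzz, mul_assoc, mul_assoc] at h4'
      exact mul_right_cancel₀ (mul_ne_zero e3 ha) h4'
    have h8 : z.1 = z'.1 := Prod.ext h7 h6
    refine Prod.ext h8 ?_
    have h9 := (Finset.mem_filter.mp (Finset.mem_coe.mp hz)).2
    have h10 := (Finset.mem_filter.mp (Finset.mem_coe.mp hz')).2
    funext j
    have h11 : f z j = f z' j := by rw [h9, h10]
    rw [hf] at h11
    simp only at h11
    rw [h8] at h11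
    apply mul_left_cancel₀ _ h11
    apply mul_ne_zero (Units.ne_zero _)
    split_ifs
    · exact Units.ne_zero _
    · exact one_ne_zero

/-- two monomials -/
lemma two_upper (p : ℕ) [Fact p.Prime] {n : ℕ} (α α' : Fin n → ℕ) (β : Fin n → ℤ)
    (h : ∑ j, (α j : ℤ) * β j = 1) (h' : ∑ j, (α' j : ℤ) * β j = 1) (hne : α ≠ α') (D : ℕ)
    (hD : ∀ j, α j ≤ D) (hD' : ∀ j, α' j ≤ D) (a b : ZMod p) (ha : a ≠ 0) (hb : b ≠ 0) :
    (p - 1) ^ 2 * ((Finset.univ : Finset (Fin n → ZMod p)).filter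
      (fun x => mon α x = a ∧ mon α' x = b)).card ≤ D * p ^ n := by
  obtain ⟨l, hl⟩ := Function.ne_iff.mp hne
  rcases lt_or_gt_of_ne hl with h1 | h1
  · have h2 := two_upper_aux p α' α β h' h l D h1 (hD' l) b a hb ha
    refine le_trans (le_of_eq ?_) h2
    congr 2
    apply Finset.filter_congr
    intro x _
    exact and_comm
  · exact two_upper_aux p α α' β h h' l D h1 (hD l) a b ha hb

/-- all monomials can be made equal modulo a squarefree number -/
lemma common_value {n r : ℕ} (α : Fin r → Fin n → ℕ) (β : Fin n → ℤ)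
    (h : ∀ i, ∑ j, (α i j : ℤ) * β j = 1) (q : ℕ) (hq : Squarefree q) (e : ℤ) :
    ∃ ρ : Fin n → ℤ, ∀ i, (q : ℤ) ∣ mon (α i) ρ - e := by
  have h1 : ∀ p ∈ q.primeFactors, ∃ ρ : Fin n → ℤ, ∀ i, (p : ℤ) ∣ mon (α i) ρ - e := by
    intro p hp
    have hpp := Nat.prime_of_mem_primeFactors hp
    have := Fact.mk hpp
    by_cases he : ((e : ℤ) : ZMod p) = 0
    · refine ⟨fun _ => 0, fun i => ?_⟩
      have h2 : mon (α i) (fun _ => (0 : ℤ)) = 0 := by
        have h3 : ∃ j, α i j ≠ 0 := by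
          by_contra hcon
          push Not at hcon
          have := h i
          simp [hcon] at this
        obtain ⟨j, hj⟩ := h3
        unfold mon
        exact Finset.prod_eq_zero (Finset.mem_univ j) (zero_pow hj)
      rw [h2, zero_sub]
      exact (dvd_neg).mpr ((ZMod.intCast_zmod_eq_zero_iff_dvd _ _).mp he)
    · set e' : (ZMod p)ˣ := Units.mk0 _ he with he'
      refine ⟨fun j => ((((e' ^ β j : (ZMod p)ˣ) : ZMod p).val : ℕ) : ℤ), fun i => ?_⟩
      rw [← ZMod.intCast_zmod_eq_zero_iff_dvd, Int.cast_sub, mon_cast]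
      have h2 : (fun j => (((((e' ^ β j : (ZMod p)ˣ) : ZMod p).val : ℕ) : ℤ) : ZMod p)) =
          fun j => ((e' ^ β j : (ZMod p)ˣ) : ZMod p) := by
        funext j
        rw [Int.cast_natCast, ZMod.natCast_val, ZMod.cast_id]
      rw [h2, mon_sec (α i) β (h i)]
      rw [he', Units.val_mk0, sub_self]
  choose! σ hσ using h1
  have h2 : ∀ j, ∃ x : ℤ, ∀ p ∈ q.primeFactors, (p : ℤ) ∣ x - σ p j := by
    intro j
    apply Pool.Agent.H256R2.SC.crt_int q.primeFactors (fun p => (p : ℤ)) _ (fun p => σ p j)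
    intro p hp p' hp' hne
    exact Nat.isCoprime_iff_coprime.mpr ((Nat.coprime_primes (Nat.prime_of_mem_primeFactors hp)
      (Nat.prime_of_mem_primeFactors hp')).mpr hne)
  choose x hx using h2
  refine ⟨x, fun i => ?_⟩
  have h3 : (q : ℤ) = ∏ p ∈ q.primeFactors, (p : ℤ) := by
    rw [← Nat.cast_prod, Nat.prod_primeFactors_of_squarefree hq]
  rw [h3]
  apply Finset.prod_dvd_of_coprime
  · intro p hp p' hp' hne
    exact Nat.isCoprime_iff_coprime.mpr ((Nat.coprime_primes (Nat.prime_of_mem_primeFactors hp)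
      (Nat.prime_of_mem_primeFactors hp')).mpr hne)
  · intro p hp
    have h4 := mon_cong p (α i) x (σ p) (fun j => hx j p hp)
    have h5 := hσ p hp i
    have := dvd_add h4 h5
    have e1 : mon (α i) x - mon (α i) (σ p) + (mon (α i) (σ p) - e) = mon (α i) x - e := by ring
    rwa [e1] at this

end Pool.Agent.V1179.MH.GH
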