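import Pool.Agent.V1179.MH.GH4

set_option autoImplicit false

/-! # Arithmetic and geometric progressions with the same start and step -/

namespace Pool.Agent.V1179.MH.GH

open Finset Filter
open Pool.Agent.V1179.MH.SF (boxF mem_boxF box_card)
open Pool.Agent.V1179.MH.PC (box_count)
open Pool.Agent.W147.PS (ff ff_compare ev_pow)
open scoped Classical

lemma ga_local_one (p k : ℕ) (hp : p.Prime) (i : ℕ) (a : ℤ) :
    (p : ℝ) ^ (2 - 1) * (1 - ((k : ℝ) + 1) / p) ≤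
      (((boxF 2 p).filter (fun ρ => (p : ℤ) ∣ ga k ρ i - a)).card : ℝ) := by
  have := Fact.mk hp
  have : NeZero p := ⟨hp.ne_zero⟩
  have h1 := ga_one p k i ((a : ℤ) : ZMod p)
  have h2 : ((boxF 2 p).filter (fun ρ => (p : ℤ) ∣ ga k ρ i - a)).card =
      ((Finset.univ : Finset (Fin 2 → ZMod p)).filter (fun z => ga k z i = (a : ZMod p))).card :=
    box_card (n := 2) (p := p) (fun ρ => (p : ℤ) ∣ ga k ρ i - a)
      (fun z => ga k z i = (a : ZMod p)) (by
        intro ρ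
        rw [← ga_cast, ← sub_eq_zero, ← Int.cast_sub, ZMod.intCast_zmod_eq_zero_iff_dvd])
  rw [h2]
  have h3 : ((p : ℝ) - 1) ≤
      ((((Finset.univ : Finset (Fin 2 → ZMod p)).filter
        (fun z => ga k z i = (a : ZMod p))).card : ℕ) : ℝ) := by
    have h4 : (((p - 1 : ℕ) : ℝ)) ≤ ((((Finset.univ : Finset (Fin 2 → ZMod p)).filter
        (fun z => ga k z i = (a : ZMod p))).card : ℕ) : ℝ) := by exact_mod_cast h1
    rwa [Nat.cast_sub hp.one_lt.le, Nat.cast_one] at h4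
  refine le_trans ?_ h3
  have hp0 : (0 : ℝ) < p := by exact_mod_cast hp.pos
  have h5 : (p : ℝ) ^ (2 - 1) * (1 - ((k : ℝ) + 1) / p) = p - (k + 1) := by
    norm_num
    field_simp
  rw [h5]
  have : (0 : ℝ) ≤ k := Nat.cast_nonneg _
  linarith

lemma ga_local_two (p k : ℕ) (hp : p.Prime) (hk : k < p) (i j : ℕ) (hij : i ≠ j)
    (hi : i ≤ 2 * k) (hj : j ≤ 2 * k) (a b : ℤ) (ha : |a| < (p : ℤ)) (hb : |b| < (p : ℤ))
    (ha0 : k < i → a ≠ 0) (hb0 : k < j → b ≠ 0) :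
    (((boxF 2 p).filter (fun ρ => (p : ℤ) ∣ ga k ρ i - a ∧ (p : ℤ) ∣ ga k ρ j - b)).card : ℝ) ≤
      (p : ℝ) ^ (2 - 1) * (((k : ℝ) + 1) / p) := by
  have := Fact.mk hp
  have : NeZero p := ⟨hp.ne_zero⟩
  have hcast : ∀ c : ℤ, |c| < (p : ℤ) → c ≠ 0 → ((c : ℤ) : ZMod p) ≠ 0 := by
    intro c hc hc0 hcon
    exact hc0 (Int.eq_zero_of_abs_lt_dvd ((ZMod.intCast_zmod_eq_zero_iff_dvd _ _).mp hcon) hc)
  have h2 : ((boxF 2 p).filter (fun ρ => (p : ℤ) ∣ ga k ρ i - a ∧ (p : ℤ) ∣ ga k ρ j - b)).card =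
      ((Finset.univ : Finset (Fin 2 → ZMod p)).filter (fun z => ga k z i = (a : ZMod p) ∧
        ga k z j = (b : ZMod p))).card :=
    box_card (n := 2) (p := p) (fun ρ => (p : ℤ) ∣ ga k ρ i - a ∧ (p : ℤ) ∣ ga k ρ j - b)
      (fun z => ga k z i = (a : ZMod p) ∧ ga k z j = (b : ZMod p)) (by
        intro ρ
        rw [← ga_cast, ← ga_cast, ← sub_eq_zero, ← Int.cast_sub,
          ZMod.intCast_zmod_eq_zero_iff_dvd, ← sub_eq_zero (b := ((b : ℤ) : ZMod p)),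
          ← Int.cast_sub, ZMod.intCast_zmod_eq_zero_iff_dvd])
  have hp0 : (0 : ℝ) < p := by exact_mod_cast hp.pos
  have h5 : (p : ℝ) ^ (2 - 1) * (((k : ℝ) + 1) / p) = ((k + 1 : ℕ) : ℝ) := by
    norm_num
    field_simp
  rw [h5, h2]
  have h3 : ((Finset.univ : Finset (Fin 2 → ZMod p)).filter (fun z => ga k z i = (a : ZMod p) ∧
        ga k z j = (b : ZMod p))).card ≤ k + 1 := by
    rcases lt_or_gt_of_ne hij with h | h
    · exact ga_two p k hk i j h hj _ _ (fun h' => hcast a ha (ha0 h'))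
        (fun h' => hcast b hb (hb0 h'))
    · have h4 := ga_two p k hk j i h hi _ _ (fun h' => hcast b hb (hb0 h'))
        (fun h' => hcast a ha (ha0 h'))
      refine le_trans (le_of_eq ?_) h4
      congr 1
      apply Finset.filter_congr
      intro x _
      exact and_comm
  exact_mod_cast h3

/-- the member number `i` -/
def gaval (k : ℕ) (x y : ℤ) (i : ℕ) : ℤ := if i ≤ k then x + i * y else x * y ^ (i - k)

theorem ga_config (k : ℕ) (ε : ℝ) (h0 : 0 < ε) (h1 : ε ≤ 1) :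
    ∃ κ : ℝ, 0 < κ ∧ ∃ T₀ : ℝ, ∀ T : ℝ, T₀ ≤ T → ∀ (a : Fin 2 → ℤ) (L : Fin 2 → ℕ),
      T ^ ε ≤ a 0 → 2 ≤ a 1 → (∀ j, T ^ ε ≤ L j) →
      ∃ z : Fin 2 → ℤ, (∀ j, a j ≤ z j ∧ z j < a j + L j) ∧
        ∀ i : Fin (2 * k + 1), ∀ q : ℕ, q.Prime →
          κ * ff T < |(q : ℝ) - ((gaval k (z 0) (z 1) i : ℤ) : ℝ)| := by
  obtain ⟨κ, hκ, hcr⟩ := critH 2 (2 * k + 1) (by omega) (by omega) ((k : ℝ) + 1) (by positivity)
  set θ : ℝ := ε / 8 with hθ
  have hθ0 : 0 < θ := by positivity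
  have hθε : θ ≤ ε := by rw [hθ]; linarith
  have hθ1 : θ ≤ 1 := hθε.trans h1
  refine ⟨κ / 2 * (θ / 32), by positivity, ?_⟩
  obtain ⟨X₀, hX0⟩ := hcr k
  have hlog : ∀ᶠ Z : ℝ in atTop, 2 * (k : ℝ) / κ ≤ Real.log Z :=
    Real.tendsto_log_atTop.eventually_ge_atTop _
  have hff1 : ∀ᶠ Z : ℝ in atTop, Real.log Z ≤ ff Z :=
    (ff_compare 1 one_pos le_rfl).mono (fun Z h => h.1)
  have tθ := tendsto_rpow_atTop hθ0
  have hev := (ff_compare θ hθ0 hθ1).and ((tθ.eventually_ge_atTop X₀).and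
    ((tθ.eventually Pool.Agent.Y961.JR.ev_small).and ((tθ.eventually hlog).and
      ((tθ.eventually hff1).and ((eventually_gt_atTop (1 : ℝ)).and
        (((tendsto_rpow_atTop (show (0 : ℝ) < ε / 2 by positivity)).eventually_ge_atTop
          8).and ((tendsto_rpow_atTop h0).eventually_ge_atTop 2)))))))
  obtain ⟨Z, hZ⟩ := eventually_atTop.1 hev
  refine ⟨Z, ?_⟩
  intro T hT a L ha ha1 hL
  obtain ⟨m1, m2, ⟨m3, m4⟩, m5, m6, m7, m8, m9⟩ := hZ T hT
  have hT0 : 0 < T := by linarith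
  set X : ℝ := T ^ θ with hX
  obtain ⟨hfl, hcrit⟩ := hX0 X m2
  set W : ℝ := T ^ ε with hW
  have hW1 : 1 ≤ W := Real.one_le_rpow m7.le h0.le
  have hXW : X ≤ W := Real.rpow_le_rpow_of_exponent_le m7.le hθε
  have hX0' : 0 < X := Real.rpow_pos_of_pos hT0 _
  have hXg : X ^ (2 * ((2 : ℕ) : ℝ)) = T ^ (ε / 2) := by
    rw [hX, ← Real.rpow_mul hT0.le]
    congr 1
    rw [hθ]
    push_cast
    ring
  have hWW : T ^ (ε / 2) * T ^ (ε / 2) = W := by
    rw [hW, ← Real.rpow_add hT0]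
    congr 1
    ring
  set box : Finset (Fin 2 → ℤ) :=
    Fintype.piFinset (fun j : Fin 2 => Finset.Ico (a j) (a j + L j)) with hbox
  have hLpos : ∀ j, (1 : ℝ) ≤ L j := fun j => hW1.trans (hL j)
  have hcard : (box.card : ℝ) = ∏ j, (L j : ℝ) := by
    rw [hbox, Fintype.card_piFinset]
    push_cast
    apply Finset.prod_congr rfl
    intro j _
    simp
  have hprod : (0 : ℝ) < ∏ j, (L j : ℝ) := Finset.prod_pos fun j _ => by linarith [hLpos j]
  have hne : box.Nonempty := by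
    rw [← Finset.card_pos]
    have : (0 : ℝ) < box.card := by
      rw [hcard]
      exact hprod
    exact_mod_cast this
  have hE : ∀ (i : Fin (2 * k + 1)) (u : ℤ), u ∉ (if i.1 ≤ k then (∅ : Set ℤ) else {0}) →
      k < i.1 → u ≠ 0 := by
    intro i u hu hi h
    apply hu
    rw [if_neg (by omega), h]
    rfl
  obtain ⟨z, hz, hz2⟩ := hcrit (fun z i => ga k z i.1)
    (fun i => if i.1 ≤ k then (∅ : Set ℤ) else {0})
    (fun q ρ ρ' h i => ga_cong q k ρ ρ' h i.1)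
    (by
      intro q _ _ e
      refine ⟨![e, 1], fun i => ?_⟩
      unfold ga
      split_ifs
      · simp
      · simp)
    (fun p hp _ i u _ _ => ga_local_one p k hp i.1 u)
    (fun p hp hpP i j hij u v hu hv hu0 hv0 => ga_local_two p k hp (by exact_mod_cast hpP) i.1 j.1
      (fun h => hij (Fin.ext h)) (by omega) (by omega) u v hu hv (hE i u hu0) (hE j v hv0))
    (Fin 2 → ℤ) box (fun v => v) hne (by
      intro q hq _ ρ
      rw [hcard]
      refine (box_count 2 q a L W hW1 hL hq ρ).trans ?_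
      rw [Real.rpow_neg hX0'.le, hXg, Finset.prod_mul_distrib, Finset.prod_const,
        Finset.card_univ, Fintype.card_fin]
      have e1 : ((2 : ℕ) : ℝ) * (1 / (2 * W)) * (2 ^ 2 * ∏ j, (L j : ℝ)) =
          (∏ j, (L j : ℝ)) * (8 / (2 * W)) := by
        push_cast
        field_simp
        norm_num
      rw [e1]
      apply mul_le_mul_of_nonneg_left _ hprod.le
      have hTe : 0 < T ^ (ε / 2) := Real.rpow_pos_of_pos hT0 _
      rw [inv_eq_one_div, div_le_div_iff₀ (by positivity) hTe]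
      nlinarith)
  have hzb : ∀ j, a j ≤ z j ∧ z j < a j + L j := by
    intro j
    have := Fintype.mem_piFinset.mp hz j
    rwa [Finset.mem_Ico] at this
  have hz0 : W ≤ z 0 := by
    have h3 : ((a 0 : ℤ) : ℝ) ≤ z 0 := by exact_mod_cast (hzb 0).1
    exact ha.trans h3
  have hz02 : 2 ≤ z 0 := by
    have : (2 : ℝ) ≤ z 0 := m9.trans hz0
    exact_mod_cast this
  have hz12 : 2 ≤ z 1 := ha1.trans (hzb 1).1
  refine ⟨z, hzb, ?_⟩
  intro i q hq
  have hffX : 2 * (k : ℝ) / κ ≤ Pool.Agent.H256R2.SC.ff X := m5.trans m6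
  have hκff : (k : ℝ) ≤ κ / 2 * Pool.Agent.H256R2.SC.ff X := by
    have h1 : κ / 2 * (2 * (k : ℝ) / κ) = k := by field_simp
    have h2 : κ / 2 * (2 * (k : ℝ) / κ) ≤ κ / 2 * Pool.Agent.H256R2.SC.ff X := by gcongr
    linarith
  have hk0 : (0 : ℝ) ≤ k := Nat.cast_nonneg _
  have hscal : κ / 2 * (θ / 32) * ff T ≤ κ / 2 * Pool.Agent.H256R2.SC.ff X :=
    Pool.Agent.Y961.JR.ff_scaled (κ / 2) θ T (by positivity) hθ1 m7.le m1.2
  refine lt_of_le_of_lt hscal ?_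
  by_contra hcon
  push Not at hcon
  have hval : W ≤ ((gaval k (z 0) (z 1) i : ℤ) : ℝ) := by
    refine hz0.trans ?_
    have h3 : z 0 ≤ gaval k (z 0) (z 1) i := by
      unfold gaval
      split_ifs
      · have : (0 : ℤ) ≤ (i.1 : ℤ) * z 1 := by positivity
        linarith
      · have h4 : 1 ≤ z 1 ^ (i.1 - k) := one_le_pow₀ (by linarith)
        nlinarith
    exact_mod_cast h3
  have hdiff : |((gaval k (z 0) (z 1) i : ℤ) : ℝ) - ((ga k z i.1 : ℤ) : ℝ)| ≤ k := by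
    unfold gaval ga
    split_ifs with h
    · have e : ((z 0 + (i.1 : ℤ) * z 1 : ℤ) : ℝ) - ((z 0 + (i.1 : ℤ) * (z 1 - 1) : ℤ) : ℝ) =
          (i.1 : ℝ) := by
        push_cast
        ring
      rw [e, abs_of_nonneg (Nat.cast_nonneg _)]
      exact_mod_cast h
    · rw [sub_self, abs_zero]
      exact hk0
  obtain ⟨p, hp, hpX, hpd⟩ := hz2 i (q : ℤ) (by
    push_cast
    have e : (q : ℝ) - ((ga k z i.1 : ℤ) : ℝ) = ((q : ℝ) - ((gaval k (z 0) (z 1) i : ℤ) : ℝ)) +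
        (((gaval k (z 0) (z 1) i : ℤ) : ℝ) - ((ga k z i.1 : ℤ) : ℝ)) := by ring
    rw [e]
    refine (abs_add_le _ _).trans ?_
    linarith) (by
    split_ifs with h
    · simp
    · intro h3
      have h4 : ga k z i.1 - (q : ℤ) = 0 := h3
      unfold ga at h4
      rw [if_neg h] at h4
      have h5 : (q : ℤ) = z 0 * z 1 ^ (i.1 - k) := by linarith
      rcases (Nat.prime_iff_prime_int.mp hq).irreducible.isUnit_or_isUnit h5 with h6 | h6
      · rcases Int.isUnit_iff.mp h6 with h7 | h7 <;> linarith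
      · have h8 : z 1 ^ 1 ≤ z 1 ^ (i.1 - k) := pow_le_pow_right₀ (by linarith) (by omega)
        rcases Int.isUnit_iff.mp h6 with h7 | h7 <;> linarith)
  have h5 : p = q := (Nat.prime_dvd_prime_iff_eq hp hq).mp (by exact_mod_cast hpd)
  rw [h5] at hpX
  have h6 := (abs_le.mp hcon).1
  have h7 : 0 ≤ κ * Pool.Agent.H256R2.SC.ff X := by linarith
  linarith

end Pool.Agent.V1179.MH.GH
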