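import Pool.Agent.V1179.MH.GH6
import Pool.Agent.V1179.MH.PC1

set_option autoImplicit false

/-! # Polynomial configurations of residue classes with large least primes -/

namespace Pool.Agent.V1179.MH.GH

open Finset Filter MvPolynomial
open Pool.Agent.V1179.MH.SF (boxF mem_boxF box_card cast_ne)
open Pool.Agent.V1179.MH.PC (box_count val eval_cong count_one count_two few_values exists_coeff)
open Pool.Agent.W147.PS (ff ff_compare ev_pow)
open scoped Classical

/-- an inverse of a large prime modulo all small primes -/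
lemma exists_inv (d : ℕ) (hd : d.Prime) (Y : ℝ) (hY : Y < d) :
    ∃ d' : ℤ, ∀ p : ℕ, p.Prime → (p : ℝ) ≤ Y → (p : ℤ) ∣ d * d' - 1 := by
  have hcop : Nat.Coprime d (primorial ⌊Y⌋₊) := by
    rw [Nat.Prime.coprime_iff_not_dvd hd]
    intro h
    unfold primorial at h
    obtain ⟨p, hp, h1⟩ := (Prime.dvd_finsetProd_iff hd.prime _).mp h
    obtain ⟨h2, h3⟩ := Finset.mem_filter.mp hp
    have h4 := (Nat.prime_dvd_prime_iff_eq hd h3).mp h1
    have h5 := Finset.mem_range.mp h2
    rw [← h4] at h5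
    have h6 : d ≤ ⌊Y⌋₊ := by omega
    have h7 : (0 : ℝ) ≤ Y := by
      by_contra hcon
      push Not at hcon
      rw [Nat.floor_of_nonpos hcon.le] at h6
      have := hd.pos
      omega
    have h8 := (Nat.le_floor_iff h7).mp h6
    linarith
  obtain ⟨u, w, huw⟩ := Nat.isCoprime_iff_coprime.2 hcop
  refine ⟨u, fun p hp hpY => ?_⟩
  have h1 : (p : ℤ) ∣ ((primorial ⌊Y⌋₊ : ℕ) : ℤ) := by
    apply Int.natCast_dvd_natCast.mpr
    unfold primorial
    apply Finset.dvd_prod_of_mem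
    rw [Finset.mem_filter, Finset.mem_range]
    exact ⟨Nat.lt_succ_of_le (Nat.le_floor hpY), hp⟩
  have e : (d : ℤ) * u - 1 = -(w * ((primorial ⌊Y⌋₊ : ℕ) : ℤ)) := by
    linear_combination huw
  rw [e]
  exact (dvd_neg).mpr (Dvd.dvd.mul_left h1 w)

lemma transfer (p d : ℕ) (d' : ℤ) (h : (p : ℤ) ∣ d * d' - 1) (v a : ℤ) :
    (p : ℤ) ∣ d' * v - a ↔ (p : ℤ) ∣ v - a * d := by
  constructor
  · intro h1
    have e : v - a * d = d * (d' * v - a) - (d * d' - 1) * v := by ring
    rw [e]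
    exact dvd_sub (Dvd.dvd.mul_left h1 _) (Dvd.dvd.mul_right h _)
  · intro h1
    have e : d' * v - a = d' * (v - a * d) + (d * d' - 1) * a := by ring
    rw [e]
    exact dvd_add (Dvd.dvd.mul_left h1 _) (Dvd.dvd.mul_right h _)

theorem ap_config (m r D : ℕ) (hr : 1 ≤ r) (ε : ℝ) (h0 : 0 < ε) (h1 : ε ≤ 1) :
    ∃ κ : ℝ, 0 < κ ∧ ∀ P : Fin r → MvPolynomial (Fin m) ℤ, Function.Injective P →
    (∀ i, (P i).totalDegree ≤ D) → (∀ i, constantCoeff (P i) = 0) →
    ∃ d₀ : ℕ, ∀ d : ℕ, d₀ ≤ d → d.Prime → ∀ (a : Fin (m + 1) → ℤ) (L : Fin (m + 1) → ℕ),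
      (∀ j, (d : ℝ) ^ ε ≤ L j) →
      (∀ z : Fin (m + 1) → ℤ, (∀ j, a j ≤ z j ∧ z j < a j + L j) → ∀ i,
        (d : ℝ) ^ ε ≤ ((val (P i) z : ℤ) : ℝ) ∧ val (P i) z < d) →
      ∃ z : Fin (m + 1) → ℤ, (∀ j, a j ≤ z j ∧ z j < a j + L j) ∧
        ∀ i, ∀ q : ℕ, q.Prime → (d : ℤ) ∣ q - val (P i) z → κ * d * ff d < q := by
  obtain ⟨κ, hκ, hcr⟩ := critI (m + 1) r (by omega) hr (D : ℝ) (Nat.cast_nonneg _)
  set n : ℝ := ((m + 1 : ℕ) : ℝ) with hn
  have hn1 : (1 : ℝ) ≤ n := by
    rw [hn]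
    push_cast
    linarith [(Nat.cast_nonneg m : (0 : ℝ) ≤ m)]
  set θ : ℝ := ε / (4 * n) with hθ
  have hθ0 : 0 < θ := by positivity
  have hθε : θ ≤ ε := div_le_self h0.le (by linarith)
  have hθ1 : θ ≤ 1 := hθε.trans h1
  refine ⟨κ * (θ / 32), by positivity, ?_⟩
  intro P hinj hdeg hP0
  have hPne : ∀ i j, i ≠ j → ∀ c : ℤ, P i - P j ≠ C c := by
    intro i j hij c h
    have h2 := congrArg constantCoeff h
    rw [map_sub, hP0 i, hP0 j, sub_zero, constantCoeff_C] at h2
    rw [← h2, C_0, sub_eq_zero] at h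
    exact hij (hinj h)
  have hPe : ∀ i, eval (fun _ => (0 : ℤ)) (P i) = 0 := by
    intro i
    have h2 : eval (fun _ => (0 : ℤ)) (P i) = constantCoeff (P i) := by
      rw [constantCoeff_eq]
      have := MvPolynomial.eval_zero' (R := ℤ) (σ := Fin m)
      exact congrArg (fun g => g (P i)) this
    rw [h2, hP0 i]
  have hex : ∀ i j, i ≠ j → ∃ s : Fin m →₀ ℕ, s ≠ 0 ∧ coeff s (P i - P j) ≠ 0 :=
    fun i j hij => exists_coeff _ (hPne i j hij)
  choose! s hs using hex
  set P₀ : ℝ := ∑ i, ∑ j, |((coeff (s i j) (P i - P j) : ℤ) : ℝ)| with hP₀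
  obtain ⟨X₀, hX0⟩ := hcr P₀
  have tθ := tendsto_rpow_atTop hθ0
  have hlogX : ∀ᶠ X : ℝ in atTop, Real.log X ≤ X ^ (1 / 10 : ℝ) := by
    have h := (isLittleO_log_rpow_atTop (show (0 : ℝ) < 1 / 10 by norm_num)).def
      (show (0 : ℝ) < 1 by norm_num)
    filter_upwards [h, eventually_ge_atTop (1 : ℝ)] with X hX hX1
    rw [Real.norm_eq_abs, abs_of_nonneg (Real.log_nonneg hX1), Real.norm_eq_abs,
      abs_of_nonneg (Real.rpow_nonneg (by linarith) _), one_mul] at hX
    exact hX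
  have hev := (ff_compare θ hθ0 hθ1).and ((tθ.eventually_ge_atTop X₀).and
    ((tθ.eventually Pool.Agent.Y961.JR.ev_small).and ((tθ.eventually hlogX).and
      ((eventually_gt_atTop (1 : ℝ)).and
        ((tendsto_rpow_atTop (show (0 : ℝ) < ε / 2 by positivity)).eventually_ge_atTop
          (n * 2 ^ (m + 1)))))))
  obtain ⟨Z, hZ⟩ := eventually_atTop.1 hev
  refine ⟨⌈Z⌉₊, ?_⟩
  intro d hdZ hd a L hL hval
  have hT : Z ≤ (d : ℝ) := (Nat.le_ceil Z).trans (by exact_mod_cast hdZ)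
  obtain ⟨m1, m2, ⟨m3, m4⟩, m5, m7, m8⟩ := hZ d hT
  have hT0 : (0 : ℝ) < d := by linarith
  set X : ℝ := (d : ℝ) ^ θ with hX
  obtain ⟨hfl, hcrit⟩ := hX0 X m2
  set W : ℝ := (d : ℝ) ^ ε with hW
  have hW1 : 1 ≤ W := Real.one_le_rpow m7.le h0.le
  have hXW : X ≤ W := Real.rpow_le_rpow_of_exponent_le m7.le hθε
  have hXd : X ≤ d := by
    have := Real.rpow_le_rpow_of_exponent_le m7.le hθ1
    rwa [Real.rpow_one] at this
  have hX0' : 0 < X := Real.rpow_pos_of_pos hT0 _
  have hXg : X ^ (2 * n) = (d : ℝ) ^ (ε / 2) := by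
    rw [hX, ← Real.rpow_mul hT0.le]
    congr 1
    rw [hθ]
    field_simp
    norm_num
  have hWW : (d : ℝ) ^ (ε / 2) * (d : ℝ) ^ (ε / 2) = W := by
    rw [hW, ← Real.rpow_add hT0]
    congr 1
    ring
  obtain ⟨d', hd'⟩ := exists_inv d hd (X ^ (1 / 10 : ℝ)) (by linarith)
  set box : Finset (Fin (m + 1) → ℤ) :=
    Fintype.piFinset (fun j : Fin (m + 1) => Finset.Ico (a j) (a j + L j)) with hbox
  have hLpos : ∀ j, (1 : ℝ) ≤ L j := fun j => hW1.trans (hL j)
  have hcard : (box.card : ℝ) = ∏ j, (L j : ℝ) := by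
    rw [hbox, Fintype.card_piFinset]
    push_cast
    apply Finset.prod_congr rfl
    intro j _
    simp
  have hprod : (0 : ℝ) < ∏ j, (L j : ℝ) := Finset.prod_pos fun j _ => by linarith [hLpos j]
  have hne : box.Nonempty := by
    rw [← Finset.card_pos]
    have : (0 : ℝ) < box.card := by
      rw [hcard]
      exact hprod
    exact_mod_cast this
  obtain ⟨z, hz, hz2⟩ := hcrit (fun z i => d' * val (P i) z) (fun _ => ∅)
    (by
      intro q ρ ρ' h i
      have h2 := eval_cong q (P i) (fun l => ρ l.succ) (fun l => ρ' l.succ) (fun l => h l.succ)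
      have e : d' * val (P i) ρ - d' * val (P i) ρ' = d' * ((ρ 0 - ρ' 0) +
          (eval (fun l => ρ l.succ) (P i) - eval (fun l => ρ' l.succ) (P i))) := by
        unfold Pool.Agent.V1179.MH.PC.val
        ring
      rw [e]
      exact Dvd.dvd.mul_left (dvd_add (h 0) h2) _)
    (by
      intro q hq hqX e
      refine ⟨Fin.cons (e * d) (fun _ => 0), ?_⟩
      intro i
      unfold Pool.Agent.V1179.MH.PC.val
      simp only [Fin.cons_zero, Fin.cons_succ]
      rw [hPe i, add_zero]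
      have e1 : d' * (e * (d : ℤ)) - e = (d * d' - 1) * e := by ring
      rw [e1]
      apply Dvd.dvd.mul_right
      have h3 : (q : ℤ) = ∏ p ∈ q.primeFactors, (p : ℤ) := by
        rw [← Nat.cast_prod, Nat.prod_primeFactors_of_squarefree hq]
      rw [h3]
      apply Finset.prod_dvd_of_coprime
      · intro p hp p' hp' hne
        exact Nat.isCoprime_iff_coprime.mpr ((Nat.coprime_primes (Nat.prime_of_mem_primeFactors hp)
          (Nat.prime_of_mem_primeFactors hp')).mpr hne)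
      · intro p hp
        exact hd' p (Nat.prime_of_mem_primeFactors hp) ((hqX p hp).trans m5))
    (by
      intro p hp _ hpX i u _ _
      have hp0 : (0 : ℝ) < p := by exact_mod_cast hp.pos
      have h2 := count_one (P i) p hp (u * d)
      have e : (boxF (m + 1) p).filter (fun ρ => (p : ℤ) ∣ val (P i) ρ - u * d) =
          (boxF (m + 1) p).filter (fun ρ => (p : ℤ) ∣ d' * val (P i) ρ - u) := by
        apply Finset.filter_congr
        intro ρ _
        exact (transfer p d d' (hd' p hp hpX) _ _).symm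
      rw [e] at h2
      have h3 : (p : ℝ) ^ m ≤ (((boxF (m + 1) p).filter (fun ρ => (p : ℤ) ∣
          d' * val (P i) ρ - u)).card : ℝ) := by exact_mod_cast h2
      refine le_trans ?_ h3
      simp only [Nat.add_sub_cancel]
      have h4 : 0 ≤ (D : ℝ) / p := by positivity
      have h5 : (0 : ℝ) < (p : ℝ) ^ m := by positivity
      nlinarith)
    (by
      intro p hp hpP hpX i j hij u v _ _ _ _
      have hp0 : (0 : ℝ) < p := by exact_mod_cast hp.pos
      obtain ⟨hs1, hs2⟩ := hs i j hij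
      have hk : ((coeff (s i j) (P i - P j) : ℤ) : ZMod p) ≠ 0 := by
        apply cast_ne _ hs2
        refine lt_of_le_of_lt ?_ hpP
        rw [hP₀]
        refine le_trans ?_ (Finset.single_le_sum (fun i _ => Finset.sum_nonneg
          (fun j _ => abs_nonneg _)) (Finset.mem_univ i))
        exact Finset.single_le_sum (f := fun j => |((coeff (s i j) (P i - P j) : ℤ) : ℝ)|)
          (fun j _ => abs_nonneg _) (Finset.mem_univ j)
      have h2 := count_two (P i) (P j) p hp (u * d) (v * d)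
      have h3 := few_values (P i - P j) (s i j) hs1 p hp hk (u * d - v * d)
      have h4 : (P i - P j).totalDegree ≤ D :=
        (totalDegree_sub _ _).trans (max_le (hdeg i) (hdeg j))
      have e : (boxF (m + 1) p).filter (fun ρ => (p : ℤ) ∣ val (P i) ρ - u * d ∧
          (p : ℤ) ∣ val (P j) ρ - v * d) =
          (boxF (m + 1) p).filter (fun ρ => (p : ℤ) ∣ d' * val (P i) ρ - u ∧
          (p : ℤ) ∣ d' * val (P j) ρ - v) := by
        apply Finset.filter_congr
        intro ρ _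
        rw [transfer p d d' (hd' p hp hpX) _ _, transfer p d d' (hd' p hp hpX) _ _]
      rw [e] at h2
      have h5 : ((boxF (m + 1) p).filter (fun ρ => (p : ℤ) ∣ d' * val (P i) ρ - u ∧
          (p : ℤ) ∣ d' * val (P j) ρ - v)).card * p ≤ D * p ^ m :=
        (Nat.mul_le_mul_right _ h2).trans (h3.trans (Nat.mul_le_mul_right _ h4))
      have h6 : (((boxF (m + 1) p).filter (fun ρ => (p : ℤ) ∣ d' * val (P i) ρ - u ∧
          (p : ℤ) ∣ d' * val (P j) ρ - v)).card : ℝ) * p ≤ D * (p : ℝ) ^ m := by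
        exact_mod_cast h5
      simp only [Nat.add_sub_cancel]
      rw [← mul_div_assoc, le_div_iff₀ hp0]
      linarith)
    (Fin (m + 1) → ℤ) box (fun v => v) hne (by
      intro q hq _ ρ
      rw [hcard]
      refine (box_count (m + 1) q a L W hW1 hL hq ρ).trans ?_
      rw [← hn, Real.rpow_neg hX0'.le, hXg, Finset.prod_mul_distrib, Finset.prod_const,
        Finset.card_univ, Fintype.card_fin]
      have e1 : n * (1 / (2 * W)) * (2 ^ (m + 1) * ∏ j, (L j : ℝ)) =
          (∏ j, (L j : ℝ)) * (n * 2 ^ (m + 1) / (2 * W)) := by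
        field_simp
      rw [e1]
      apply mul_le_mul_of_nonneg_left _ hprod.le
      have hTe : 0 < (d : ℝ) ^ (ε / 2) := Real.rpow_pos_of_pos hT0 _
      rw [inv_eq_one_div, div_le_div_iff₀ (by positivity) hTe]
      nlinarith)
  have hzb : ∀ j, a j ≤ z j ∧ z j < a j + L j := by
    intro j
    have := Fintype.mem_piFinset.mp hz j
    rwa [Finset.mem_Ico] at this
  refine ⟨z, hzb, ?_⟩
  intro i q hq hdq
  obtain ⟨hv1, hv2⟩ := hval z hzb i
  have hscal : κ * (θ / 32) * ff d ≤ κ * Pool.Agent.H256R2.SC.ff X :=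
    Pool.Agent.Y961.JR.ff_scaled κ θ d hκ hθ1 m7.le m1.2
  by_contra hcon
  push Not at hcon
  obtain ⟨j, hj⟩ := hdq
  have hqj : (q : ℤ) = val (P i) z + d * j := by linarith
  have hdpos : (0 : ℤ) < d := by exact_mod_cast hd.pos
  have hvpos : (0 : ℝ) < ((val (P i) z : ℤ) : ℝ) := by linarith
  have hvpos' : (0 : ℤ) < val (P i) z := by exact_mod_cast hvpos
  have hj0 : 0 ≤ j := by
    by_contra hcon2
    push Not at hcon2
    have h3 : (0 : ℤ) ≤ q := Int.natCast_nonneg _
    nlinarith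
  have hjle : (j : ℝ) ≤ κ * Pool.Agent.H256R2.SC.ff X := by
    refine le_trans ?_ hscal
    have h3 : (q : ℝ) = ((val (P i) z : ℤ) : ℝ) + d * j := by exact_mod_cast hqj
    have h4 : (d : ℝ) * j ≤ d * (κ * (θ / 32) * ff d) := by nlinarith
    exact le_of_mul_le_mul_left h4 hT0
  obtain ⟨p, hp, hpX, hpd⟩ := hz2 i (d' * val (P i) z + j) (by
    push_cast
    have e : (d' : ℝ) * ((val (P i) z : ℤ) : ℝ) + j - d' * ((val (P i) z : ℤ) : ℝ) = j := by ring
    rw [e, abs_of_nonneg (by exact_mod_cast hj0)]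
    linarith) (by simp)
  have hpq : (p : ℤ) ∣ q := by
    have e : (q : ℤ) = d * (d' * val (P i) z + j) - (d * d' - 1) * val (P i) z := by
      rw [hqj]
      ring
    rw [e]
    exact dvd_sub (Dvd.dvd.mul_left hpd _) (Dvd.dvd.mul_right (hd' p hp hpX) _)
  have h5 : p = q := (Nat.prime_dvd_prime_iff_eq hp hq).mp (by exact_mod_cast hpq)
  rw [h5] at hpX
  have h6 : val (P i) z ≤ q := by
    rw [hqj]
    have : 0 ≤ (d : ℤ) * j := mul_nonneg hdpos.le hj0
    linarith
  have h7 : ((val (P i) z : ℤ) : ℝ) ≤ q := by exact_mod_cast h6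
  linarith

end Pool.Agent.V1179.MH.GH
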