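import Mathlib
import Pool.Agent.H398R2.RK.Surv

set_option autoImplicit false
set_option maxHeartbeats 4000000

/-! # Rankin's choice for several windows at the same time -/

namespace Pool.Agent.V1179.MH.GH

open Finset Filter Pool.Agent.H318R2.Cr
open Pool.Agent.H398R2.RK (smooth_count ev_surv primes_le)

open scoped Classical

/-- greedy choice -/
theorem greedy_hit {α β : Type} [Nonempty α] (S : Finset ℕ) (A : ℕ → Finset α)
    (hit : ℕ → α → β → Prop) (w : ℕ → ℝ) (hA : ∀ p ∈ S, (A p).Nonempty) (hw : ∀ p ∈ S, w p ≤ 1)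
    (hcount : ∀ p ∈ S, ∀ x, ((A p).card : ℝ) * w p ≤ (((A p).filter (fun ρ => hit p ρ x)).card : ℝ)) :
    ∀ R : Finset β, ∃ ρ : ℕ → α, (∀ p ∈ S, ρ p ∈ A p) ∧
      ((R.filter (fun x => ∀ p ∈ S, ¬ hit p (ρ p) x)).card : ℝ) ≤ R.card * ∏ p ∈ S, (1 - w p) := by
  induction S using Finset.induction_on with
  | empty =>
    intro R
    exact ⟨fun _ => Classical.arbitrary α, by simp, by simp⟩
  | insert p S hpS ih =>
    intro R
    have ih' := ih (fun q hq => hA q (mem_insert_of_mem hq)) (fun q hq => hw q (mem_insert_of_mem hq))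
      (fun q hq => hcount q (mem_insert_of_mem hq))
    have hAp := hA p (mem_insert_self _ _)
    have hcp := hcount p (mem_insert_self _ _)
    have hc1 : (0 : ℝ) < (A p).card := by exact_mod_cast card_pos.2 hAp
    have havg : ∃ c ∈ A p, ((R.filter (fun x => ¬ hit p c x)).card : ℝ) ≤ R.card * (1 - w p) := by
      by_contra hcon
      push Not at hcon
      have h1 := sum_lt_sum_of_nonempty hAp hcon
      rw [sum_const, nsmul_eq_mul] at h1
      have h2 : ∑ c ∈ A p, ((R.filter (fun x => ¬ hit p c x)).card : ℝ) =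
          ∑ x ∈ R, (((A p).filter (fun c => ¬ hit p c x)).card : ℝ) := by
        simp_rw [card_filter]
        push_cast
        rw [sum_comm]
      have h3 : ∑ x ∈ R, (((A p).filter (fun c => ¬ hit p c x)).card : ℝ) ≤
          ∑ _x ∈ R, (((A p).card : ℝ) * (1 - w p)) := by
        apply sum_le_sum
        intro x _
        have h4 : (((A p).filter (fun c => hit p c x)).card : ℝ) +
            (((A p).filter (fun c => ¬ hit p c x)).card : ℝ) = (A p).card := by
          exact_mod_cast card_filter_add_card_filter_not (s := A p) (fun c => hit p c x)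
        have h5 := hcp x
        have h6 : ((A p).card : ℝ) * (1 - w p) = (A p).card - (A p).card * w p := by ring
        rw [h6]
        linarith
      rw [sum_const, nsmul_eq_mul] at h3
      rw [h2] at h1
      have h7 : ((A p).card : ℝ) * (R.card * (1 - w p)) = R.card * (((A p).card : ℝ) * (1 - w p)) := by
        ring
      linarith
    obtain ⟨c, hc, hle⟩ := havg
    obtain ⟨b, hb, hbc⟩ := ih' (R.filter (fun x => ¬ hit p c x))
    refine ⟨Function.update b p c, ?_, ?_⟩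
    · intro q hq
      rcases mem_insert.1 hq with rfl | hq
      · rw [Function.update_self]; exact hc
      · have : q ≠ p := fun h => hpS (h ▸ hq)
        rw [Function.update_of_ne this]
        exact hb q hq
    · have h8 : R.filter (fun x => ∀ q ∈ insert p S, ¬ hit q (Function.update b p c q) x) ⊆
          (R.filter (fun x => ¬ hit p c x)).filter (fun x => ∀ q ∈ S, ¬ hit q (b q) x) := by
        intro x hx
        rw [mem_filter] at hx
        rw [mem_filter, mem_filter]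
        refine ⟨⟨hx.1, ?_⟩, ?_⟩
        · have := hx.2 p (mem_insert_self _ _)
          rwa [Function.update_self] at this
        · intro q hq
          have h9 : q ≠ p := fun h => hpS (h ▸ hq)
          have := hx.2 q (mem_insert_of_mem hq)
          rwa [Function.update_of_ne h9] at this
      have h9 : (0 : ℝ) ≤ ∏ q ∈ S, (1 - w q) :=
        prod_nonneg fun q hq => by linarith [hw q (mem_insert_of_mem hq)]
      rw [prod_insert hpS]
      calc ((R.filter (fun x => ∀ q ∈ insert p S, ¬ hit q (Function.update b p c q) x)).card : ℝ)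
          ≤ (((R.filter (fun x => ¬ hit p c x)).filter (fun x => ∀ q ∈ S, ¬ hit q (b q) x)).card : ℝ) := by
            exact_mod_cast card_le_card h8
        _ ≤ ((R.filter (fun x => ¬ hit p c x)).card : ℝ) * ∏ q ∈ S, (1 - w q) := hbc
        _ ≤ (R.card * (1 - w p)) * ∏ q ∈ S, (1 - w q) := by gcongr
        _ = _ := by ring

/-- Rankin's choice for several windows: the primes outside of `S` sieve with the class `0`, the primes
of `S` with a random vector. -/
theorem joint_surv (r : ℕ) (C₁ : ℝ) (hC₁ : 0 ≤ C₁) : ∃ C : ℝ, 0 < C ∧ ∃ y₀ : ℝ, ∀ y : ℝ, y₀ ≤ y →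
    ∀ L : ℕ, y ≤ L → (L : ℝ) ≤ y * (Real.log y) ^ 2 →
    ∃ S : Finset ℕ, (∀ p ∈ S, p.Prime ∧ (Real.log y) ^ 2 < p ∧ (p : ℝ) ≤ y) ∧
    ∀ (α : Type) [Nonempty α] (A : ℕ → Finset α) (hit : ℕ → α → Fin r × ℤ → Prop),
    (∀ p ∈ S, (A p).Nonempty) →
    (∀ p ∈ S, ∀ x, ((A p).card : ℝ) * (1 / (p : ℝ) * (1 - C₁ / p)) ≤
      (((A p).filter (fun ρ => hit p ρ x)).card : ℝ)) →
    ∃ ρ : ℕ → α, (∀ p ∈ S, ρ p ∈ A p) ∧
      ((((Finset.univ : Finset (Fin r)) ×ˢ Finset.Icc (-(L : ℤ)) L).filter (fun x => x.2 ≠ 0 ∧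
        (∀ p : ℕ, p.Prime → (p : ℝ) ≤ y → p ∉ S → ¬ (p : ℤ) ∣ x.2) ∧
        ∀ p ∈ S, ¬ hit p (ρ p) x)).card : ℝ) ≤
      C * L * (Real.log (Real.log y)) ^ 2 /
        ((Real.log y) ^ 2 * Real.log (Real.log (Real.log y))) := by
  obtain ⟨c₁, c₂, hc₁, hc₁₂, hV⟩ := cz_bounds
  obtain ⟨y₁, hsm⟩ := smooth_count
  obtain ⟨t₀, hev⟩ := ev_surv
  have hc₂ : 0 < c₂ := hc₁.trans_le hc₁₂
  refine ⟨(r * 2 + 1) * 11 * Real.exp (2 * C₁) * (c₂ / c₁ * 40), by positivity,
    max y₁ (Real.exp (Real.exp t₀)), fun y hy L hyL hLy => ?_⟩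
  have hsm' := hsm y ((le_max_left _ _).trans hy) L hyL
  have hy' := (le_max_right _ _).trans hy
  have hy0 : 0 < y := (Real.exp_pos _).trans_le hy'
  have hL1' : Real.exp t₀ ≤ Real.log y := by
    rw [← Real.log_exp (Real.exp t₀)]; exact Real.log_le_log (Real.exp_pos _) hy'
  have hly : 0 < Real.log y := (Real.exp_pos _).trans_le hL1'
  set t := Real.log (Real.log y) with ht
  have htt : t₀ ≤ t := by
    rw [← Real.log_exp t₀]; exact Real.log_le_log (Real.exp_pos _) hL1'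
  obtain ⟨h1, h2, h3, h4, h5, h6⟩ := hev t htt
  have hLe : Real.log y = Real.exp t := by rw [ht, Real.exp_log hly]
  have hye : y = Real.exp (Real.exp t) := by rw [← hLe, Real.exp_log hy0]
  set V0 := Real.log y * Real.log t / (10 * t) with hV0
  have ht0 : 0 < t := by linarith
  have hlt0 : 0 < Real.log t := by linarith
  -- V0 ≥ 2 t
  have hV1 : 2 * t ≤ V0 := by
    rw [hV0, le_div_iff₀ (by positivity), hLe]
    nlinarith [Real.exp_pos t]
  have hV1le : V0 ≤ Real.log y := by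
    rw [hV0, div_le_iff₀ (by positivity), hLe]
    nlinarith [Real.exp_pos t]
  set v₀ : ℝ := (Real.log y) ^ 2 with hv₀
  have hv₀e : v₀ = Real.exp (2 * t) := by
    rw [hv₀, hLe, ← Real.exp_nat_mul]; push_cast; ring_nf
  have hv₀0 : 0 < v₀ := by positivity
  have hv₀big : 10000 ≤ v₀ := by rw [hv₀, hLe]; nlinarith
  -- v₀ ≤ y
  have hv₀y : v₀ ≤ y := by
    rw [hv₀e, hye]; apply Real.exp_le_exp.2; linarith
  set u : ℕ := ⌊v₀⌋₊ with hu
  set v : ℕ := ⌊Real.exp V0⌋₊ with hv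
  have huv : u ≤ v := by
    rw [hu, hv]; apply Nat.floor_le_floor; rw [hv₀e]; exact Real.exp_le_exp.2 hV1
  have hu2 : 2 ≤ u := by
    rw [hu, Nat.le_floor_iff hv₀0.le]; push_cast; linarith
  have hvle : (v : ℝ) ≤ Real.exp V0 := Nat.floor_le (Real.exp_pos _).le
  have hule : (u : ℝ) ≤ v₀ := Nat.floor_le hv₀0.le
  have hv0 : (0 : ℝ) < v := by exact_mod_cast (by omega : 0 < v)
  have hu0 : (0 : ℝ) < u := by exact_mod_cast (by omega : 0 < u)
  have hlu : Real.log u ≤ 2 * t := by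
    rw [← Real.log_exp (2 * t), ← hv₀e]; exact Real.log_le_log hu0 hule
  have hlu0 : 0 < Real.log u := Real.log_pos (by exact_mod_cast (by omega : 1 < u))
  have hlv0 : 0 < Real.log v := Real.log_pos (by exact_mod_cast (by omega : 1 < v))
  have hlv : V0 / 2 ≤ Real.log v := by
    have h7 : Real.exp V0 < v + 1 := Nat.lt_floor_add_one _
    have h8 : (2 : ℝ) ≤ v := by exact_mod_cast (by omega : 2 ≤ v)
    have h9 : Real.exp V0 ≤ (v : ℝ) ^ 2 := by nlinarith
    have h10 := Real.log_le_log (Real.exp_pos _) h9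
    rw [Real.log_exp, Real.log_pow] at h10
    push_cast at h10; linarith
  -- the primes for the greedy step
  set S : Finset ℕ := (Icc 1 v).filter (fun p : ℕ => p.Prime ∧ v₀ < (p : ℝ)) with hS
  have hSp : ∀ p ∈ S, p.Prime ∧ 3 ≤ p := by
    intro p hp
    rw [hS, mem_filter] at hp
    refine ⟨hp.2.1, ?_⟩
    have : (3 : ℝ) < p := by linarith [hp.2.2]
    have : 3 < p := by exact_mod_cast this
    omega
  have hSv : ∀ p ∈ S, v₀ < (p : ℝ) := fun p hp => (mem_filter.1 hp).2.2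
  -- membership in S for primes
  have hSmem : ∀ p : ℕ, p.Prime → (p ∈ S ↔ v₀ < (p : ℝ) ∧ Real.log p ≤ V0) := by
    intro p hp
    have hp0 : (0 : ℝ) < p := by exact_mod_cast hp.pos
    rw [hS, mem_filter, mem_Icc, Real.log_le_iff_le_exp hp0, hv, Nat.le_floor_iff (Real.exp_pos _).le]
    constructor
    · rintro ⟨⟨_, h⟩, _, h'⟩; exact ⟨h', h⟩
    · rintro ⟨h, h'⟩; exact ⟨⟨hp.pos, h'⟩, hp, h⟩
  have hSy : ∀ p ∈ S, (p : ℝ) ≤ y := by
    intro p hpS
    have hpp := (hSp p hpS).1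
    have hp0 : (0 : ℝ) < p := by exact_mod_cast hpp.pos
    have h7 := ((hSmem p hpp).1 hpS).2
    rw [← Real.log_le_log_iff hp0 hy0]; linarith
  refine ⟨S, fun p hp => ⟨(hSp p hp).1, hSv p hp, hSy p hp⟩, ?_⟩
  intro α _ A hit hA hcount
  -- R
  set R₁ := (Icc 1 L).filter (fun m => ∀ p : ℕ, p.Prime → (p : ℝ) ≤ y → p ∉ S → ¬ p ∣ m) with hR₁
  set R : Finset (Fin r × ℤ) := ((Finset.univ : Finset (Fin r)) ×ˢ Finset.Icc (-(L : ℤ)) L).filter
    (fun x => x.2 ≠ 0 ∧ ∀ p : ℕ, p.Prime → (p : ℝ) ≤ y → p ∉ S → ¬ (p : ℤ) ∣ x.2) with hR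
  obtain ⟨b, hb, hbc⟩ := greedy_hit S A hit (fun p => 1 / (p : ℝ) * (1 - C₁ / p)) hA (by
    intro p hp
    have hp1 : (1 : ℝ) ≤ p := by exact_mod_cast (hSp p hp).1.one_le
    have hp0 : (0 : ℝ) < p := by linarith
    have h7 : 0 ≤ C₁ / p := by positivity
    have h8 : 1 / (p : ℝ) ≤ 1 := by rw [div_le_one hp0]; exact hp1
    have h9 : (0 : ℝ) ≤ 1 / (p : ℝ) := by positivity
    nlinarith) hcount R
  refine ⟨b, hb, ?_⟩
  have hsub1 : ((Finset.univ : Finset (Fin r)) ×ˢ Finset.Icc (-(L : ℤ)) L).filter (fun x => x.2 ≠ 0 ∧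
        (∀ p : ℕ, p.Prime → (p : ℝ) ≤ y → p ∉ S → ¬ (p : ℤ) ∣ x.2) ∧
        ∀ p ∈ S, ¬ hit p (b p) x) ⊆ R.filter (fun x => ∀ p ∈ S, ¬ hit p (b p) x) := by
    intro x hx
    rw [mem_filter] at hx
    rw [mem_filter, hR, mem_filter]
    exact ⟨⟨hx.1, hx.2.1, hx.2.2.1⟩, hx.2.2.2⟩
  refine (Nat.cast_le.2 (card_le_card hsub1)).trans (hbc.trans ?_)
  -- size of R
  have hL2 : 2 ≤ L := by
    have : (2 : ℝ) ≤ L := by linarith
    exact_mod_cast this
  have hL0 : (0 : ℝ) < L := by linarith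
  have hRsub : R₁ ⊆ (((Icc 1 L).filter Nat.Prime) ∪ (Finset.Icc 1 L).filter (fun m => ∀ p : ℕ, p.Prime → p ∣ m →
      Real.log p ≤ V0)) := by
    intro m hm
    rw [hR₁, mem_filter, mem_Icc] at hm
    obtain ⟨⟨hm1, hkL⟩, hk2⟩ := hm
    -- all prime factors of m
    have hfac : ∀ p : ℕ, p.Prime → p ∣ m → (y < p ∨ p ∈ S) := by
      intro p hp hd
      by_contra hcon
      push Not at hcon
      exact hk2 p hp hcon.1 hcon.2 hd
    rw [mem_union]
    by_cases hall : ∀ p : ℕ, p.Prime → p ∣ m → Real.log p ≤ V0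
    · right
      rw [mem_filter, mem_Icc]
      exact ⟨⟨hm1, by omega⟩, hall⟩
    · left
      push Not at hall
      obtain ⟨p, hp, hd, hlp⟩ := hall
      have hpy : y < p := by
        rcases hfac p hp hd with h | h
        · exact h
        · exact absurd ((hSmem p hp).1 h).2 (not_le.2 hlp)
      obtain ⟨m', rfl⟩ := hd
      have hm'1 : m' = 1 := by
        by_contra hne
        have hm'0 : m' ≠ 0 := by rintro rfl; simp at hm1
        obtain ⟨q, hq, hqd⟩ := Nat.exists_prime_and_dvd hne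
        have hqle : q ≤ m' := Nat.le_of_dvd (Nat.pos_of_ne_zero hm'0) hqd
        have hm'le : (m' : ℝ) ≤ v₀ := by
          have h7 : (p : ℝ) * m' ≤ L := by exact_mod_cast (by omega : p * m' ≤ L)
          have h8 : (0 : ℝ) < m' := by exact_mod_cast Nat.pos_of_ne_zero hm'0
          have h9 : y * m' ≤ y * v₀ := by
            calc y * m' ≤ p * m' := by gcongr
              _ ≤ L := h7
              _ ≤ _ := hLy
          exact le_of_mul_le_mul_left h9 hy0
        have hqv : (q : ℝ) ≤ v₀ := le_trans (by exact_mod_cast hqle) hm'le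
        rcases hfac q hq (hqd.mul_left p) with h | h
        · linarith
        · have := hSv q h; linarith
      rw [hm'1, mul_one, mem_filter, mem_Icc]
      rw [hm'1, mul_one] at hkL
      exact ⟨⟨hp.pos, by omega⟩, hp⟩
  have hR₁card : (R₁.card : ℝ) ≤ 11 * L / Real.log y := by
    have h7 : R₁.card ≤ ((Icc 1 L).filter Nat.Prime).card + ((Finset.Icc 1 L).filter (fun m => ∀ p : ℕ, p.Prime → p ∣ m →
      Real.log p ≤ V0)).card := (card_le_card hRsub).trans (card_union_le _ _)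
    have h8 : (R₁.card : ℝ) ≤ (((Icc 1 L).filter Nat.Prime).card : ℝ) + (((Finset.Icc 1 L).filter (fun m => ∀ p : ℕ, p.Prime → p ∣ m →
      Real.log p ≤ V0)).card : ℝ) := by exact_mod_cast h7
    have h9 := primes_le L hL2
    have h10 : 10 * (L : ℝ) / Real.log L ≤ 10 * L / Real.log y := by
      apply div_le_div_of_nonneg_left (by positivity) hly
      exact Real.log_le_log hy0 hyL
    have h11 : (L : ℝ) / (Real.log y) ^ 3 ≤ L / Real.log y := by
      apply div_le_div_of_nonneg_left hL0.le hly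
      rw [hLe]
      nlinarith [sq_nonneg (Real.exp t)]
    have h12 : 11 * (L : ℝ) / Real.log y = 10 * L / Real.log y + L / Real.log y := by ring
    linarith
  have hRcard : (R.card : ℝ) ≤ (r * 2 + 1) * (11 * L / Real.log y) := by
    have h7 : R ⊆ (Finset.univ : Finset (Fin r)) ×ˢ (R₁.image (fun m : ℕ => (m : ℤ)) ∪
        R₁.image (fun m : ℕ => -(m : ℤ))) := by
      intro x hx
      rw [hR, mem_filter, mem_product, mem_Icc] at hx
      obtain ⟨⟨_, hx1, hx2⟩, hx3, hx4⟩ := hx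
      have hmem : x.2.natAbs ∈ R₁ := by
        rw [hR₁, mem_filter, mem_Icc]
        refine ⟨⟨by omega, by omega⟩, fun p hp hpy hpS hd => hx4 p hp hpy hpS ?_⟩
        exact Int.natCast_dvd.mpr hd
      rw [mem_product, mem_union, mem_image, mem_image]
      refine ⟨mem_univ _, ?_⟩
      rcases le_total 0 x.2 with h | h
      · left
        exact ⟨_, hmem, by omega⟩
      · right
        exact ⟨_, hmem, by omega⟩
    have h8 : R.card ≤ r * (R₁.card + R₁.card) := by
      refine (card_le_card h7).trans ?_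
      rw [card_product, card_univ, Fintype.card_fin]
      exact Nat.mul_le_mul_left _ ((card_union_le _ _).trans (Nat.add_le_add card_image_le card_image_le))
    have h9 : (R.card : ℝ) ≤ r * (R₁.card + R₁.card) := by exact_mod_cast h8
    have h10 : (0 : ℝ) ≤ r := Nat.cast_nonneg _
    have h11 : (0 : ℝ) ≤ R₁.card := Nat.cast_nonneg _
    nlinarith
  -- the product
  have hPv : V v = V u * ∏ p ∈ S, (1 - 1 / (p : ℝ)) := by
    have h7 : Pz v = Pz u ∪ S := by
      ext p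
      rw [mem_union, mem_Pz, mem_Pz, hS, mem_filter, mem_Icc, hu, Nat.le_floor_iff hv₀0.le]
      constructor
      · rintro ⟨hp, hpv⟩
        by_cases h : (p : ℝ) ≤ v₀
        · exact Or.inl ⟨hp, h⟩
        · exact Or.inr ⟨⟨hp.pos, hpv⟩, hp, not_le.1 h⟩
      · rintro (⟨hp, hpu⟩ | ⟨⟨_, hpv⟩, hp, _⟩)
        · refine ⟨hp, ?_⟩
          have : p ≤ u := by rw [hu, Nat.le_floor_iff hv₀0.le]; exact hpu
          omega
        · exact ⟨hp, hpv⟩
    have h8 : Disjoint (Pz u) S := by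
      rw [Finset.disjoint_left]
      intro p hp hpS
      have h9 := (mem_Pz.1 hp).2
      rw [hu, Nat.le_floor_iff hv₀0.le] at h9
      have := hSv p hpS
      linarith
    unfold V
    rw [h7, prod_union h8]
  have hSprod0 : 0 ≤ ∏ p ∈ S, (1 - 1 / (p : ℝ)) :=
    prod_nonneg fun p hp => (one_sub_inv_pos (hSp p hp).1).le
  have hSprod : ∏ p ∈ S, (1 - 1 / (p : ℝ)) ≤ c₂ / c₁ * 40 * (t ^ 2 / (Real.log y * Real.log t)) := by
    have h7 := (hV v (by omega)).2
    have h8 := (hV u hu2).1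
    rw [hPv] at h7
    -- V u * P * log v ≤ c₂, c₁ ≤ V u * log u
    have hVu := V_pos u
    have h9 : c₁ * (∏ p ∈ S, (1 - 1 / (p : ℝ))) * (V0 / 2) ≤ c₂ * (2 * t) := by
      calc c₁ * (∏ p ∈ S, (1 - 1 / (p : ℝ))) * (V0 / 2)
          ≤ (V u * Real.log u) * (∏ p ∈ S, (1 - 1 / (p : ℝ))) * Real.log v := by
            gcongr
        _ = (V u * (∏ p ∈ S, (1 - 1 / (p : ℝ))) * Real.log v) * Real.log u := by ring
        _ ≤ c₂ * Real.log u := by gcongr
        _ ≤ _ := by gcongr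
    have hV0pos : 0 < V0 := by linarith
    have h10 : ∏ p ∈ S, (1 - 1 / (p : ℝ)) ≤ c₂ * (2 * t) / (c₁ * (V0 / 2)) := by
      rw [le_div_iff₀ (by positivity)]
      linarith
    refine h10.trans (le_of_eq ?_)
    rw [hV0]
    field_simp
    ring
  have hsq : ∑ p ∈ S, 1 / (p : ℝ) ^ 2 ≤ 1 := by
    have h7 : S ⊆ Ioc 1 (max v 1) := by
      intro p hp
      rw [mem_Ioc]
      have h8 := (hSp p hp).1.one_lt
      have h9 := (mem_Icc.1 (mem_filter.1 hp).1).2
      exact ⟨h8, h9.trans (le_max_left _ _)⟩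
    have h8 := sum_Ioc_inv_sq_le_sub (α := ℝ) (k := 1) (n := max v 1) one_ne_zero (le_max_right _ _)
    have h9 : ∑ p ∈ S, 1 / (p : ℝ) ^ 2 ≤ ∑ p ∈ Ioc 1 (max v 1), ((p : ℝ) ^ 2)⁻¹ := by
      have e : ∑ p ∈ S, 1 / (p : ℝ) ^ 2 = ∑ p ∈ S, ((p : ℝ) ^ 2)⁻¹ :=
        sum_congr rfl fun p _ => one_div _
      rw [e]
      exact sum_le_sum_of_subset_of_nonneg h7 (fun p _ _ => by positivity)
    have h10 : (0 : ℝ) ≤ ((max v 1 : ℕ) : ℝ)⁻¹ := by positivity
    have h11 : ((1 : ℕ) : ℝ)⁻¹ = 1 := by norm_num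
    rw [h11] at h8
    linarith
  have hprod2 : ∏ p ∈ S, (1 - 1 / (p : ℝ) * (1 - C₁ / p)) ≤
      (∏ p ∈ S, (1 - 1 / (p : ℝ))) * Real.exp (2 * C₁) := by
    have h7 : ∏ p ∈ S, (1 - 1 / (p : ℝ) * (1 - C₁ / p)) ≤
        ∏ p ∈ S, ((1 - 1 / (p : ℝ)) * Real.exp (2 * C₁ * (1 / (p : ℝ) ^ 2))) := by
      apply Finset.prod_le_prod
      · intro p hp
        have hp1 : (1 : ℝ) ≤ p := by exact_mod_cast (hSp p hp).1.one_le
        have hp0 : (0 : ℝ) < p := by linarith
        have h7 : 0 ≤ C₁ / p := by positivity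
        have h8 : 1 / (p : ℝ) ≤ 1 := by rw [div_le_one hp0]; exact hp1
        have h9 : (0 : ℝ) ≤ 1 / (p : ℝ) := by positivity
        nlinarith
      · intro p hp
        have hp2 : (2 : ℝ) ≤ p := by exact_mod_cast (hSp p hp).1.two_le
        have hp0 : (0 : ℝ) < p := by linarith
        have h8 : 1 / (p : ℝ) ≤ 1 / 2 := one_div_le_one_div_of_le (by norm_num) hp2
        have h9 : 1 + 2 * C₁ * (1 / (p : ℝ) ^ 2) ≤ Real.exp (2 * C₁ * (1 / (p : ℝ) ^ 2)) := by
          linarith [Real.add_one_le_exp (2 * C₁ * (1 / (p : ℝ) ^ 2))]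
        have h10 : (1 - 1 / (p : ℝ)) * (1 + 2 * C₁ * (1 / (p : ℝ) ^ 2)) ≤
            (1 - 1 / (p : ℝ)) * Real.exp (2 * C₁ * (1 / (p : ℝ) ^ 2)) := by
          apply mul_le_mul_of_nonneg_left h9
          linarith
        refine le_trans ?_ h10
        have h11 : 1 / (p : ℝ) * (C₁ / p) = C₁ * (1 / (p : ℝ) ^ 2) := by
          field_simp
        have h12 : 0 ≤ C₁ * (1 / (p : ℝ) ^ 2) := by positivity
        nlinarith
    refine h7.trans ?_
    rw [prod_mul_distrib, ← Real.exp_sum, ← mul_sum]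
    apply mul_le_mul_of_nonneg_left _ hSprod0
    apply Real.exp_le_exp.2
    nlinarith
  calc (R.card : ℝ) * ∏ p ∈ S, (1 - 1 / (p : ℝ) * (1 - C₁ / p))
      ≤ R.card * ((∏ p ∈ S, (1 - 1 / (p : ℝ))) * Real.exp (2 * C₁)) :=
        mul_le_mul_of_nonneg_left hprod2 (Nat.cast_nonneg _)
    _ ≤ ((r * 2 + 1) * (11 * L / Real.log y)) *
        ((c₂ / c₁ * 40 * (t ^ 2 / (Real.log y * Real.log t))) * Real.exp (2 * C₁)) :=
        mul_le_mul hRcard (mul_le_mul_of_nonneg_right hSprod (Real.exp_pos _).le)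
          (mul_nonneg hSprod0 (Real.exp_pos _).le)
          (mul_nonneg (by positivity) (div_nonneg (by positivity) hly.le))
    _ = _ := by
        field_simp
        ring

end Pool.Agent.V1179.MH.GH
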