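import Pool.Agent.V1179.MH.GH8
import Pool.Agent.V1179.MH.GH6

set_option autoImplicit false

/-! # The criterion for families with a common zero -/

namespace Pool.Agent.V1179.MH.GH

open Finset Filter
open Pool.Agent.H256R2.SC (ff t1 t2 t3 t4 ev_log ev_log_sq primorial_le_rpow crt_int)
open Pool.Agent.Y961.JR (coverAbs)
open Pool.Agent.V1179.MH.SF (boxF mem_boxF colF colF_eq countF₀)

open scoped Classical

theorem params_joint (r : ℕ) (C₁ : ℝ) (hC₁ : 0 ≤ C₁) (c₁ : ℝ) (hc₁ : 0 < c₁) : ∃ c : ℝ, 0 < c ∧ ∃ X₀ : ℝ, ∀ X : ℝ,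
    X₀ ≤ X → 1000 ≤ X ∧ ((⌊c * ff X⌋₊ : ℕ) : ℝ) < (Real.log X) ^ 2 ∧
      Real.log X / 10 ≤ (⌊c * ff X⌋₊ : ℕ) ∧
      (primorial ⌊Real.log X / 10⌋₊ : ℝ) ≤ X ^ (3 / 20 : ℝ) ∧
      ∃ Q : Finset ℕ, (∀ p ∈ Q, p.Prime ∧ (Real.log (Real.log X / 10)) ^ 2 < p ∧
        (p : ℝ) ≤ Real.log X / 10) ∧
      ∀ (α : Type) [Nonempty α] (A : ℕ → Finset α) (hit : ℕ → α → Fin r × ℤ → Prop),
      (∀ p ∈ Q, (A p).Nonempty) →
      (∀ p ∈ Q, ∀ x, ((A p).card : ℝ) * (1 / (p : ℝ) * (1 - C₁ / p)) ≤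
        (((A p).filter (fun ρ => hit p ρ x)).card : ℝ)) →
      ∃ ρ : ℕ → α, (∀ p ∈ Q, ρ p ∈ A p) ∧
        ((((Finset.univ : Finset (Fin r)) ×ˢ Finset.Icc (-((⌊c * ff X⌋₊ : ℕ) : ℤ))
          ((⌊c * ff X⌋₊ : ℕ) : ℤ)).filter (fun x => x.2 ≠ 0 ∧
          (∀ p : ℕ, p.Prime → (p : ℝ) ≤ Real.log X / 10 → p ∉ Q → ¬ (p : ℤ) ∣ x.2) ∧
          ∀ p ∈ Q, ¬ hit p (ρ p) x)).card : ℝ) ≤ c₁ * Real.log X := by
  obtain ⟨C, hC, y₀, hy₀⟩ := joint_surv r C₁ hC₁
  set c : ℝ := c₁ / (8 * C) with hc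
  have hcpos : 0 < c := by positivity
  refine ⟨c, hcpos, ?_⟩
  have hsc : 0 < Real.sqrt c := Real.sqrt_pos.2 hcpos
  have key : ∀ᶠ X : ℝ in atTop, 1000 ≤ X ∧ ((⌊c * ff X⌋₊ : ℕ) : ℝ) < (Real.log X) ^ 2 ∧
      Real.log X / 10 ≤ (⌊c * ff X⌋₊ : ℕ) ∧
      (primorial ⌊Real.log X / 10⌋₊ : ℝ) ≤ X ^ (3 / 20 : ℝ) ∧
      ∃ Q : Finset ℕ, (∀ p ∈ Q, p.Prime ∧ (Real.log (Real.log X / 10)) ^ 2 < p ∧
        (p : ℝ) ≤ Real.log X / 10) ∧
      ∀ (α : Type) [Nonempty α] (A : ℕ → Finset α) (hit : ℕ → α → Fin r × ℤ → Prop),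
      (∀ p ∈ Q, (A p).Nonempty) →
      (∀ p ∈ Q, ∀ x, ((A p).card : ℝ) * (1 / (p : ℝ) * (1 - C₁ / p)) ≤
        (((A p).filter (fun ρ => hit p ρ x)).card : ℝ)) →
      ∃ ρ : ℕ → α, (∀ p ∈ Q, ρ p ∈ A p) ∧
        ((((Finset.univ : Finset (Fin r)) ×ˢ Finset.Icc (-((⌊c * ff X⌋₊ : ℕ) : ℤ))
          ((⌊c * ff X⌋₊ : ℕ) : ℤ)).filter (fun x => x.2 ≠ 0 ∧
          (∀ p : ℕ, p.Prime → (p : ℝ) ≤ Real.log X / 10 → p ∉ Q → ¬ (p : ℤ) ∣ x.2) ∧
          ∀ p ∈ Q, ¬ hit p (ρ p) x)).card : ℝ) ≤ c₁ * Real.log X := by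
    filter_upwards [eventually_ge_atTop (1000 : ℝ), t1.eventually (eventually_ge_atTop (10 * |y₀|)),
      t1.eventually (eventually_ge_atTop 10),
      t1.eventually ev_log_sq, t2.eventually (eventually_ge_atTop (2 * Real.log 10)),
      t2.eventually (eventually_ge_atTop 10),
      t2.eventually (ev_log hsc), t3.eventually (eventually_ge_atTop (40 * c)),
      t3.eventually (eventually_ge_atTop 2), t3.eventually (ev_log one_pos),
      t4.eventually (eventually_ge_atTop 2)] with X e0 e1 e1' e2 e3 e3' e4 e5 e5' e6 e7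
    set l1 := Real.log X with hl1
    set l2 := Real.log l1 with hl2
    set l3 := Real.log l2 with hl3
    set l4 := Real.log l3 with hl4
    have hff : c * ff X = c * (l1 * l2 ^ 2 * l4 / l3 ^ 2) := rfl
    have hl1p : 0 < l1 := by linarith
    have hl2p : 0 < l2 := by linarith
    have hl3p : 0 < l3 := by linarith
    have hl4p : 0 < l4 := by linarith
    have hffpos : 0 ≤ c * ff X := by rw [hff]; positivity
    have hlog10 : 0 < Real.log 10 := Real.log_pos (by norm_num)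
    have hlog2 : Real.log 2 < 0.7 := by have := Real.log_two_lt_d9; linarith
    -- the logarithms of `y`
    have y1 : Real.log (l1 / 10) = l2 - Real.log 10 := Real.log_div hl1p.ne' (by norm_num)
    have y2 : l2 / 2 ≤ Real.log (l1 / 10) := by rw [y1]; linarith
    have y2' : Real.log (l1 / 10) ≤ l2 := by rw [y1]; linarith
    have y3 : l3 / 2 ≤ Real.log (Real.log (l1 / 10)) := by
      have h1 : Real.log (l2 / 2) ≤ Real.log (Real.log (l1 / 10)) :=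
        Real.log_le_log (by positivity) y2
      rw [Real.log_div hl2p.ne' (by norm_num)] at h1
      change l3 - Real.log 2 ≤ _ at h1
      linarith
    have y3' : Real.log (Real.log (l1 / 10)) ≤ l3 := Real.log_le_log (by linarith) y2'
    have y4 : l4 / 2 ≤ Real.log (Real.log (Real.log (l1 / 10))) := by
      have h1 : Real.log (l3 / 2) ≤ Real.log (Real.log (Real.log (l1 / 10))) :=
        Real.log_le_log (by positivity) y3
      rw [Real.log_div hl3p.ne' (by norm_num)] at h1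
      change l4 - Real.log 2 ≤ _ at h1
      linarith
    -- size of `c * ff X`
    have hge : l1 ≤ c * ff X := by
      rw [hff]
      have h1 : l3 ^ 2 ≤ c * l2 ^ 2 := by
        have h2 : l3 ^ 2 ≤ (Real.sqrt c * l2) ^ 2 := by
          apply pow_le_pow_left₀ hl3p.le e4
        rwa [mul_pow, Real.sq_sqrt hcpos.le] at h2
      rw [show c * (l1 * l2 ^ 2 * l4 / l3 ^ 2) = l1 * (c * l2 ^ 2 * l4 / l3 ^ 2) by ring]
      have h3 : 1 ≤ c * l2 ^ 2 * l4 / l3 ^ 2 := by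
        rw [le_div_iff₀ (by positivity)]
        nlinarith [sq_nonneg l3]
      nlinarith
    have hle : c * ff X ≤ l1 * l2 ^ 2 / 40 := by
      rw [hff]
      have h1 : c * l4 ≤ l3 ^ 2 / 40 := by
        have h2 : c * l4 ≤ c * l3 := by
          apply mul_le_mul_of_nonneg_left _ hcpos.le
          linarith
        nlinarith
      rw [show c * (l1 * l2 ^ 2 * l4 / l3 ^ 2) = (l1 * l2 ^ 2) * ((c * l4) / l3 ^ 2) by ring]
      have h3 : (c * l4) / l3 ^ 2 ≤ 1 / 40 := by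
        rw [div_le_iff₀ (by positivity)]
        linarith
      have h4 : 0 ≤ l1 * l2 ^ 2 := by positivity
      calc (l1 * l2 ^ 2) * ((c * l4) / l3 ^ 2) ≤ (l1 * l2 ^ 2) * (1 / 40) :=
            mul_le_mul_of_nonneg_left h3 h4
        _ = _ := by ring
    have hfl : ((⌊c * ff X⌋₊ : ℕ) : ℝ) ≤ c * ff X := Nat.floor_le hffpos
    have hfl' : c * ff X < (⌊c * ff X⌋₊ : ℕ) + 1 := Nat.lt_floor_add_one _
    have hyL : l1 / 10 ≤ (⌊c * ff X⌋₊ : ℕ) := by linarith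
    refine ⟨e0, ?_, hyL, primorial_le_rpow (by linarith), ?_⟩
    · have h1 : l1 * l2 ^ 2 ≤ l1 * (l1 / 2) := mul_le_mul_of_nonneg_left e2 hl1p.le
      have h2 : 0 < l1 ^ 2 := by positivity
      nlinarith
    · have hLy : ((⌊c * ff X⌋₊ : ℕ) : ℝ) ≤ l1 / 10 * (Real.log (l1 / 10)) ^ 2 := by
        have h1 : (l2 / 2) ^ 2 ≤ (Real.log (l1 / 10)) ^ 2 :=
          pow_le_pow_left₀ (by positivity) y2 2
        have h2 : l1 / 10 * (l2 / 2) ^ 2 ≤ l1 / 10 * (Real.log (l1 / 10)) ^ 2 :=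
          mul_le_mul_of_nonneg_left h1 (by positivity)
        nlinarith
      obtain ⟨Q, hQ, hmain⟩ := hy₀ (l1 / 10) (by linarith [le_abs_self y₀]) _ hyL hLy
      refine ⟨Q, hQ, ?_⟩
      intro α _ A hit hA hcount
      obtain ⟨ρ, hρ, hcard⟩ := hmain α A hit hA hcount
      refine ⟨ρ, hρ, hcard.trans ?_⟩
      have p2 : 0 < Real.log (l1 / 10) := by linarith
      have p3 : 0 < Real.log (Real.log (l1 / 10)) := by linarith
      have p4 : 0 < Real.log (Real.log (Real.log (l1 / 10))) := by linarith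
      rw [div_le_iff₀ (by positivity)]
      have h1 : (Real.log (Real.log (l1 / 10))) ^ 2 ≤ l3 ^ 2 := pow_le_pow_left₀ p3.le y3' 2
      have h2 : C * (⌊c * ff X⌋₊ : ℕ) * (Real.log (Real.log (l1 / 10))) ^ 2 ≤
          C * (c * ff X) * l3 ^ 2 := by
        apply mul_le_mul (mul_le_mul_of_nonneg_left hfl hC.le) h1 (by positivity) (by positivity)
      have h3 : C * (c * ff X) * l3 ^ 2 = c₁ * l1 * ((l2 / 2) ^ 2 * (l4 / 2)) := by
        rw [hff, hc]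
        field_simp
        ring
      have h4 : (l2 / 2) ^ 2 * (l4 / 2) ≤
          (Real.log (l1 / 10)) ^ 2 * Real.log (Real.log (Real.log (l1 / 10))) :=
        mul_le_mul (pow_le_pow_left₀ (by positivity) y2 2) y4 (by positivity) (by positivity)
      calc _ ≤ C * (c * ff X) * l3 ^ 2 := h2
        _ = c₁ * l1 * ((l2 / 2) ^ 2 * (l4 / 2)) := h3
        _ ≤ _ := mul_le_mul_of_nonneg_left h4 (by positivity)
  obtain ⟨X₀, hX₀⟩ := eventually_atTop.1 key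
  exact ⟨X₀, hX₀⟩


end Pool.Agent.V1179.MH.GH
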