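import Pool.Agent.V1179.MH.Wrap
import Pool.Agent.H498R2.KlWeil

set_option autoImplicit false

/-! # Record prime gaps around the coordinates of points of modular hyperbolas (helper79) -/

namespace Pool.Agent.V1179.MH

open Finset Filter
open Pool.Agent.W147.PS (ff ff_compare ev_pow)

section Kl

variable {P : ℕ} [Fact P.Prime]

lemma sum_units_eq (F : ZMod P → ℂ) :
    ∑ x : (ZMod P)ˣ, F (x : ZMod P) = ∑ x ∈ univ.erase (0 : ZMod P), F x := by
  refine sum_bij (fun (u : (ZMod P)ˣ) _ => (u : ZMod P)) ?_ ?_ ?_ ?_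
  · intro u _
    rw [mem_erase]
    exact ⟨u.ne_zero, mem_univ _⟩
  · intro a _ b _ hab
    exact Units.ext hab
  · intro b hb
    rw [mem_erase] at hb
    exact ⟨Units.mk0 b hb.1, mem_univ _, rfl⟩
  · intro u _
    rfl

lemma sum_units_char (α : ZMod P) (hα : α ≠ 0) :
    ∑ x : (ZMod P)ˣ, ZMod.stdAddChar (α * (x : ZMod P)) = (-1 : ℂ) := by
  rw [sum_units_eq (fun x => ZMod.stdAddChar (α * x))]
  have h1 := AddChar.sum_mulShift α (ZMod.isPrimitive_stdAddChar P)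
  rw [if_neg hα, Nat.cast_zero] at h1
  have h2 : ∑ x : ZMod P, ZMod.stdAddChar (α * x) = (0 : ℂ) := by
    rw [← h1]
    apply sum_congr rfl
    intro x _
    rw [mul_comm]
  rw [← add_sum_erase univ _ (mem_univ (0 : ZMod P)), mul_zero, AddChar.map_zero_eq_one] at h2
  linear_combination h2

lemma one_le_two_sqrt : (1 : ℝ) ≤ 2 * Real.sqrt P := by
  have h1 : (1 : ℝ) ≤ P := by exact_mod_cast (Fact.out : P.Prime).one_lt.le
  have : 1 ≤ Real.sqrt P := Real.one_le_sqrt.2 h1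
  linarith

lemma kl2 (hP2 : P ≠ 2) (α β : ZMod P) (h : α ≠ 0 ∨ β ≠ 0) :
    ‖∑ x : (ZMod P)ˣ, ZMod.stdAddChar (α * (x : ZMod P) + β * ((x⁻¹ : (ZMod P)ˣ) : ZMod P))‖ ≤
      2 * Real.sqrt P := by
  classical
  by_cases hα : α = 0
  · subst hα
    have hβ : β ≠ 0 := by simpa using h
    simp only [zero_mul, zero_add]
    have h1 : ∑ x : (ZMod P)ˣ, ZMod.stdAddChar (β * ((x⁻¹ : (ZMod P)ˣ) : ZMod P)) = (-1 : ℂ) := by
      rw [← sum_units_char β hβ]
      exact Fintype.sum_equiv (Equiv.inv _) _ _ (fun x => rfl)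
    rw [h1, norm_neg, norm_one]
    exact one_le_two_sqrt
  by_cases hβ : β = 0
  · subst hβ
    simp only [zero_mul, add_zero]
    rw [sum_units_char α hα, norm_neg, norm_one]
    exact one_le_two_sqrt
  have hchar : ringChar (ZMod P) ≠ 2 := by
    rw [ZMod.ringChar_zmod_n]; exact hP2
  have := Pool.Agent.H498R2.Kl.kloosterman_units_le hchar (ZMod.isPrimitive_stdAddChar P) hα hβ
  rwa [ZMod.card] at this

/-- the coordinates of a point of the modular hyperbola -/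
noncomputable def pt (a : ZMod P) {m : ℕ} (x : Fin m → (ZMod P)ˣ) : Fin (m + 1) → ZMod P :=
  Fin.cons (a * ∏ j, (((x j)⁻¹ : (ZMod P)ˣ) : ZMod P)) (fun j => (x j : ZMod P))

lemma hyper_sum (m : ℕ) (hP2 : P ≠ 2) (a : ZMod P) (ha : a ≠ 0) (h : Fin (m + 2) → ZMod P)
    (hh : h ≠ 0) :
    ‖∑ x : Fin (m + 1) → (ZMod P)ˣ, ZMod.stdAddChar (∑ j, h j * pt a x j)‖ ≤
      2 * Real.sqrt P * ((P : ℝ) - 1) ^ m := by
  classical
  obtain ⟨i, hi⟩ : ∃ i : Fin (m + 1), h i.succ ≠ 0 ∨ h 0 ≠ 0 := by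
    by_contra hcon
    push Not at hcon
    apply hh
    funext j
    refine Fin.cases ?_ (fun j => ?_) j
    · exact (hcon 0).2
    · exact (hcon j).1
  rw [← Fintype.sum_equiv (Fin.insertNthEquiv (fun _ => (ZMod P)ˣ) i)
    (fun y => ZMod.stdAddChar (∑ j, h j * pt a (Fin.insertNth i y.1 y.2) j)) _
    (fun y => rfl), Fintype.sum_prod_type_right]
  have hterm : ∀ x' : Fin m → (ZMod P)ˣ, ∑ y : (ZMod P)ˣ,
      ZMod.stdAddChar (∑ j, h j * pt a
        (Fin.insertNth (α := fun _ => (ZMod P)ˣ) i y x') j) =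
      ZMod.stdAddChar (∑ j : Fin m, h (i.succAbove j).succ * (x' j : ZMod P)) *
      ∑ y : (ZMod P)ˣ, ZMod.stdAddChar (h i.succ * (y : ZMod P) +
        (h 0 * (a * ∏ j, (((x' j)⁻¹ : (ZMod P)ˣ) : ZMod P))) * ((y⁻¹ : (ZMod P)ˣ) : ZMod P)) := by
    intro x'
    rw [mul_sum]
    apply sum_congr rfl
    intro y _
    rw [← AddChar.map_add_eq_mul]
    congr 1
    rw [Fin.sum_univ_succ]
    simp only [pt, Fin.cons_zero, Fin.cons_succ]
    rw [Fin.prod_univ_succAbove _ i, Fin.sum_univ_succAbove _ i]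
    simp only [Fin.insertNth_apply_same, Fin.insertNth_apply_succAbove]
    ring
  simp only
  rw [sum_congr rfl (fun x' _ => hterm x')]
  refine (norm_sum_le _ _).trans ?_
  calc _ ≤ ∑ _x' : Fin m → (ZMod P)ˣ, 2 * Real.sqrt P := by
        apply sum_le_sum
        intro x' _
        rw [norm_mul, AddChar.norm_apply, one_mul]
        apply kl2 hP2
        rcases hi with hi | hi
        · exact Or.inl hi
        · refine Or.inr (mul_ne_zero hi (mul_ne_zero ha ?_))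
          exact prod_ne_zero_iff.2 fun j _ => Units.ne_zero _
    _ = 2 * Real.sqrt P * ((P : ℝ) - 1) ^ m := by
        rw [sum_const, card_univ, nsmul_eq_mul, Fintype.card_fun, Fintype.card_fin, ZMod.card_units]
        rw [mul_comm]
        congr 1
        push_cast [Nat.cast_sub (Fact.out : P.Prime).one_le]
        rfl

end Kl

/-- record prime gaps around all coordinates of a point of a modular hyperbola in a box -/
theorem hyperbola (m : ℕ) (ε : ℝ) (h0 : 0 < ε) :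
    ∃ κ : ℝ, 0 < κ ∧ ∃ P₀ : ℕ, ∀ P : ℕ, P₀ ≤ P → P.Prime → ∀ a : ℤ, ¬ (P : ℤ) ∣ a →
    ∀ M L : Fin (m + 2) → ℕ, (∀ j, M j + L j ≤ P) →
    (P : ℝ) ^ (((m + 2 : ℕ) : ℝ) - 1 / 2 + ε) ≤ ∏ j, (L j : ℝ) →
    ∃ x : Fin (m + 2) → ℕ, (∀ j, M j ≤ x j ∧ x j < M j + L j) ∧ (P : ℤ) ∣ ∏ j, (x j : ℤ) - a ∧
      ∀ j, ∀ q : ℕ, q.Prime → κ * ff P < |(q : ℝ) - x j| := by
  classical
  set ε' : ℝ := min ε 1 / 2 with hε'
  have hε0 : 0 < ε' := by positivity
  have hε1 : ε' ≤ 1 := by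
    have : min ε 1 ≤ 1 := min_le_right _ _
    linarith
  have hε2 : 2 * ε' ≤ ε := by
    have : min ε 1 ≤ ε := min_le_left _ _
    linarith
  obtain ⟨κ, hκ, P₁, hc⟩ := crit_gen' 0 (m + 2) (by omega) ε' hε0 hε1
  obtain ⟨Z, hZ⟩ := eventually_atTop.1
    ((tendsto_rpow_atTop hε0).eventually_ge_atTop (4 : ℝ))
  refine ⟨κ, hκ, max P₁ (max 3 ⌈Z⌉₊), ?_⟩
  intro P hP hPp a ha M L hML hL
  have : Fact P.Prime := ⟨hPp⟩
  have : NeZero P := ⟨hPp.ne_zero⟩
  have hP3 : 3 ≤ P := ((le_max_left _ _).trans (le_max_right _ _)).trans hP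
  have m1 := hZ P (Nat.ceil_le.1 (((le_max_right _ _).trans (le_max_right _ _)).trans hP))
  have hP1 : (1 : ℝ) ≤ P := by exact_mod_cast hPp.one_le
  have hP0 : (0 : ℝ) < P := by linarith
  have hP3' : (3 : ℝ) ≤ P := by exact_mod_cast hP3
  have hmono : ∀ x y : ℝ, x ≤ y → (P : ℝ) ^ x ≤ (P : ℝ) ^ y := fun x y h =>
    Real.rpow_le_rpow_of_exponent_le hP1 h
  have haz : ((a : ZMod P)) ≠ 0 := by
    intro h
    exact ha ((ZMod.intCast_zmod_eq_zero_iff_dvd a P).1 h)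
  have hcard : (univ : Finset (Fin (m + 1) → (ZMod P)ˣ)).card = (P - 1) ^ (m + 1) := by
    rw [card_univ, Fintype.card_fun, Fintype.card_fin, ZMod.card_units]
  have hPm : ((P - 1 : ℕ) : ℝ) = (P : ℝ) - 1 := by
    push_cast [Nat.cast_sub hPp.one_le]
    rfl
  set Lp : ℝ := ∏ j, (L j : ℝ) with hLp
  have hLj : ∀ j, (L j : ℝ) ≤ P := by
    intro j
    have := hML j
    exact_mod_cast (by omega : L j ≤ P)
  obtain ⟨x, -, -, hx⟩ := hc P ((le_max_left _ _).trans hP) hPp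
    (Fin (m + 1) → (ZMod P)ˣ) univ (fun _ j => j.elim0) (fun x => pt (a : ZMod P) x)
    (2 * Real.sqrt P * ((P : ℝ) - 1) ^ m) (by
      have : (0 : ℝ) ≤ (P : ℝ) - 1 := by linarith
      positivity) (by
      intro q hq _ ρ
      have hf : (univ : Finset (Fin (m + 1) → (ZMod P)ˣ)).filter
          (fun i => ∀ j : Fin 0, (q : ℤ) ∣ (fun (_ : Fin (m + 1) → (ZMod P)ˣ) (j : Fin 0) =>
            (j.elim0 : ℤ)) i j - ρ j) = univ :=
        filter_true_of_mem fun i _ j => j.elim0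
      constructor
      · rw [hf, pow_zero, div_one, sub_self, abs_zero]
        positivity
      · intro h hh
        rw [hf]
        exact hyper_sum m (by omega) (a : ZMod P) haz h hh)
    (fun i _ j => j.elim0) M L hML (by
      intro j
      have h5 : Lp ≤ L j * (P : ℝ) ^ (m + 1) := by
        rw [hLp, ← mul_prod_erase univ _ (mem_univ j)]
        apply mul_le_mul_of_nonneg_left _ (Nat.cast_nonneg _)
        calc ∏ x ∈ univ.erase j, (L x : ℝ) ≤ ∏ _x ∈ univ.erase j, (P : ℝ) :=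
              prod_le_prod (fun _ _ => Nat.cast_nonneg _) (fun i _ => hLj i)
          _ = _ := by
              rw [prod_const, card_erase_of_mem (mem_univ j), card_univ, Fintype.card_fin]
              rfl
      have h6 : (P : ℝ) ^ (((m + 2 : ℕ) : ℝ) - 1 / 2 + ε) =
          (P : ℝ) ^ (1 / 2 + ε) * (P : ℝ) ^ (m + 1) := by
        rw [← Real.rpow_natCast, ← Real.rpow_add hP0]
        congr 1
        push_cast
        ring
      rw [h6] at hL
      have h7 : (P : ℝ) ^ (1 / 2 + ε) ≤ L j :=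
        le_of_mul_le_mul_right (hL.trans h5) (by positivity)
      exact (hmono _ _ (by linarith)).trans h7) (by
      rw [hcard]
      exact pow_pos (by omega) _) (by
      rw [hcard]
      push_cast
      rw [hPm, pow_succ]
      have hP10 : (0 : ℝ) < (P : ℝ) - 1 := by linarith
      have e1 : (P : ℝ) ^ (((m + 2 : ℕ) : ℝ) + ε') * Real.sqrt P =
          (P : ℝ) ^ (((m + 2 : ℕ) : ℝ) - 1 / 2 + ε') * P := by
        rw [Real.sqrt_eq_rpow, ← Real.rpow_add hP0, ← Real.rpow_add_one hP0.ne']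
        congr 1
        ring
      have e2 : (P : ℝ) ^ (((m + 2 : ℕ) : ℝ) - 1 / 2 + ε') * 4 ≤ Lp := by
        calc (P : ℝ) ^ (((m + 2 : ℕ) : ℝ) - 1 / 2 + ε') * 4 ≤
              (P : ℝ) ^ (((m + 2 : ℕ) : ℝ) - 1 / 2 + ε') * (P : ℝ) ^ ε' :=
              mul_le_mul_of_nonneg_left m1 (by positivity)
          _ = (P : ℝ) ^ (((m + 2 : ℕ) : ℝ) - 1 / 2 + ε' + ε') := by
              rw [← Real.rpow_add hP0]
          _ ≤ (P : ℝ) ^ (((m + 2 : ℕ) : ℝ) - 1 / 2 + ε) := hmono _ _ (by linarith)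
          _ ≤ Lp := hL
      have e3 : 0 ≤ (P : ℝ) ^ (((m + 2 : ℕ) : ℝ) - 1 / 2 + ε') := by positivity
      push_cast at e1 e2 e3 ⊢
      calc 2 * Real.sqrt P * ((P : ℝ) - 1) ^ m * (P : ℝ) ^ ((m : ℝ) + 2 + ε') =
            2 * ((P : ℝ) - 1) ^ m * ((P : ℝ) ^ ((m : ℝ) + 2 + ε') * Real.sqrt P) := by ring
        _ = 2 * ((P : ℝ) - 1) ^ m * ((P : ℝ) ^ ((m : ℝ) + 2 - 1 / 2 + ε') * P) := by rw [e1]
        _ ≤ 2 * ((P : ℝ) - 1) ^ m * ((P : ℝ) ^ ((m : ℝ) + 2 - 1 / 2 + ε') *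
              (2 * ((P : ℝ) - 1))) := by
              apply mul_le_mul_of_nonneg_left _ (by positivity)
              apply mul_le_mul_of_nonneg_left _ e3
              linarith
        _ = ((P : ℝ) - 1) ^ m * ((P : ℝ) - 1) *
              ((P : ℝ) ^ ((m : ℝ) + 2 - 1 / 2 + ε') * 4) := by ring
        _ ≤ ((P : ℝ) - 1) ^ m * ((P : ℝ) - 1) * Lp := by
              apply mul_le_mul_of_nonneg_left e2 (by positivity))
  refine ⟨fun j => (pt (a : ZMod P) x j).val, fun j => ⟨(hx j).1, (hx j).2.1⟩, ?_,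
    fun j => (hx j).2.2⟩
  rw [← ZMod.intCast_zmod_eq_zero_iff_dvd]
  push_cast
  rw [sub_eq_zero]
  have h5 : ∀ j, (((pt (a : ZMod P) x j).val : ℕ) : ZMod P) = pt (a : ZMod P) x j := fun j =>
    ZMod.natCast_zmod_val _
  simp_rw [h5]
  rw [Fin.prod_univ_succ]
  simp only [pt, Fin.cons_zero, Fin.cons_succ]
  rw [mul_assoc, ← prod_mul_distrib]
  have h6 : ∏ j : Fin (m + 1), ((((x j)⁻¹ : (ZMod P)ˣ) : ZMod P) * (x j : ZMod P)) = 1 := by
    apply prod_eq_one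
    intro j _
    exact Units.inv_mul _
  rw [h6, mul_one]

end Pool.Agent.V1179.MH
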