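import Pool.Agent.V1179.MH.FM4
import Pool.Agent.V11113.MP.Pow

set_option autoImplicit false

/-! # Multiples of a number modulo a prime, in residue classes (helper79) -/

namespace Pool.Agent.V1179.MH

open Finset Filter
open Pool.Agent.H469R2.NK (e norm_e e_add)

/-- the number of points in boxes through Fourier coefficients -/
lemma count_id {P r : ℕ} [NeZero P] {ι : Type} (t : Finset ι) (u : ι → Fin r → ZMod P)
    (A : Fin r → Finset (ZMod P)) [DecidablePred fun i => ∀ j, u i j ∈ A j] :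
    ((t.filter (fun i => ∀ j, u i j ∈ A j)).card : ℂ) =
      ((P : ℂ)⁻¹) ^ r * ∑ w : Fin r → ZMod P,
        (∏ j, ∑ y ∈ A j, ZMod.stdAddChar (-(w j * y))) *
          ∑ i ∈ t, ZMod.stdAddChar (∑ j, w j * u i j) := by
  classical
  rw [card_filter]
  push_cast
  have h2 : ∀ i ∈ t, (if ∀ j, u i j ∈ A j then (1 : ℂ) else 0) =
      ((P : ℂ)⁻¹) ^ r * ∑ w : Fin r → ZMod P,
      (∏ j, ∑ y ∈ A j, ZMod.stdAddChar (-(w j * y))) *
        ZMod.stdAddChar (∑ j, w j * u i j) := by
    intro i _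
    have h3 : (if ∀ j, u i j ∈ A j then (1 : ℂ) else 0) =
        ∏ j, (if u i j ∈ A j then (1 : ℂ) else 0) := by
      split_ifs with h
      · rw [prod_eq_one]
        intro j _
        rw [if_pos (h j)]
      · push Not at h
        obtain ⟨j, hj⟩ := h
        rw [prod_eq_zero (mem_univ j)]
        rw [if_neg hj]
    rw [h3]
    simp_rw [ind_eq]
    rw [prod_mul_distrib, prod_const, card_univ, Fintype.card_fin]
    congr 1
    rw [prod_univ_sum, Fintype.piFinset_univ]
    apply sum_congr rfl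
    intro w _
    rw [prod_mul_distrib, mul_comm]
    congr 1
    exact (map_char_sum _ _).symm
  rw [sum_congr rfl h2, ← mul_sum, sum_comm]
  congr 1
  apply sum_congr rfl
  intro w _
  rw [mul_sum]

lemma full_char {P : ℕ} [NeZero P] (ξ : ZMod P) :
    ∑ x : ZMod P, ZMod.stdAddChar (ξ * x) = if ξ = 0 then (P : ℂ) else 0 := by
  have h := AddChar.sum_mulShift ξ (ZMod.isPrimitive_stdAddChar P)
  simp_rw [mul_comm ξ]
  rw [h, ZMod.card]
  split_ifs <;> simp

open Classical in
/-- comparison of the points `c x_i + b` with all multiples -/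
theorem count_cmp {P r : ℕ} [NeZero P] {ι : Type} (t : Finset ι) (x : ι → ZMod P)
    (c b : Fin r → ZMod P) (B D : ℝ) (hB : 0 ≤ B)
    (hS : ∀ ξ : ZMod P, ξ ≠ 0 → ‖∑ i ∈ t, ZMod.stdAddChar (ξ * x i)‖ ≤ B)
    (A : Fin r → Finset (ZMod P))
    (hA : ∀ j, ∑ w : ZMod P, ‖∑ y ∈ A j, ZMod.stdAddChar (-(w * y))‖ ≤ P * D) :
    |((t.filter (fun i => ∀ j, c j * x i + b j ∈ A j)).card : ℝ) - (t.card : ℝ) / P *
      (((univ : Finset (ZMod P)).filter (fun y => ∀ j, c j * y + b j ∈ A j)).card : ℝ)| ≤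
      B * D ^ r := by
  have hP0 : (0 : ℝ) < P := by exact_mod_cast Nat.pos_of_ne_zero (NeZero.ne P)
  have hPc : (P : ℂ) ≠ 0 := by exact_mod_cast NeZero.ne P
  have h1 := count_id t (fun i j => c j * x i + b j) A
  have h2 := count_id (univ : Finset (ZMod P)) (fun y j => c j * y + b j) A
  have hξ : ∀ (w : Fin r → ZMod P) (y : ZMod P),
      (ZMod.stdAddChar (∑ j, w j * (c j * y + b j)) : ℂ) =
      ZMod.stdAddChar (∑ j, w j * b j) * ZMod.stdAddChar ((∑ j, w j * c j) * y) := by
    intro w y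
    rw [← AddChar.map_add_eq_mul]
    congr 1
    rw [sum_mul, ← sum_add_distrib]
    exact sum_congr rfl fun j _ => by ring
  simp_rw [hξ, ← mul_sum] at h1 h2
  have h4 : ((t.filter (fun i => ∀ j, c j * x i + b j ∈ A j)).card : ℂ) - (t.card : ℂ) / P *
      (((univ : Finset (ZMod P)).filter (fun y => ∀ j, c j * y + b j ∈ A j)).card : ℂ) =
      ((P : ℂ)⁻¹) ^ r * ∑ w : Fin r → ZMod P,
        (∏ j, ∑ y ∈ A j, ZMod.stdAddChar (-(w j * y))) *
          (ZMod.stdAddChar (∑ j, w j * b j) *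
          (∑ i ∈ t, ZMod.stdAddChar ((∑ j, w j * c j) * x i) -
            (t.card : ℂ) / P * ∑ y : ZMod P, ZMod.stdAddChar ((∑ j, w j * c j) * y))) := by
    rw [h1, h2]
    simp_rw [mul_sub]
    rw [sum_sub_distrib, mul_sub]
    congr 1
    rw [← mul_assoc, mul_comm ((t.card : ℂ) / P), mul_assoc, mul_sum]
    congr 1
    apply sum_congr rfl
    intro w _
    ring
  have h5 : ‖((t.filter (fun i => ∀ j, c j * x i + b j ∈ A j)).card : ℂ) - (t.card : ℂ) / P *
      (((univ : Finset (ZMod P)).filter (fun y => ∀ j, c j * y + b j ∈ A j)).card : ℂ)‖ ≤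
      B * D ^ r := by
    rw [h4, norm_mul, norm_pow, norm_inv, Complex.norm_natCast]
    have h6 : ‖∑ w : Fin r → ZMod P,
        (∏ j, ∑ y ∈ A j, ZMod.stdAddChar (-(w j * y))) *
          (ZMod.stdAddChar (∑ j, w j * b j) *
          (∑ i ∈ t, ZMod.stdAddChar ((∑ j, w j * c j) * x i) -
            (t.card : ℂ) / P * ∑ y : ZMod P, ZMod.stdAddChar ((∑ j, w j * c j) * y)))‖ ≤
        B * (P * D) ^ r := by
      calc _ ≤ ∑ w : Fin r → ZMod P,
            (∏ j, ‖∑ y ∈ A j, ZMod.stdAddChar (-(w j * y))‖) * B := by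
              refine (norm_sum_le _ _).trans (sum_le_sum fun w _ => ?_)
              rw [norm_mul, norm_prod, norm_mul, AddChar.norm_apply, one_mul]
              apply mul_le_mul_of_nonneg_left _ (prod_nonneg fun _ _ => norm_nonneg _)
              rw [full_char]
              by_cases hw : ∑ j, w j * c j = 0
              · rw [if_pos hw, hw]
                simp only [zero_mul, AddChar.map_zero_eq_one, sum_const, nsmul_eq_mul, mul_one]
                rw [div_mul_cancel₀ _ hPc, sub_self, norm_zero]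
                exact hB
              · rw [if_neg hw, mul_zero, sub_zero]
                exact hS _ hw
        _ = (∏ j, ∑ w : ZMod P, ‖∑ y ∈ A j, ZMod.stdAddChar (-(w * y))‖) * B := by
              rw [← sum_mul, prod_univ_sum, Fintype.piFinset_univ]
        _ ≤ (∏ _j : Fin r, (P * D)) * B := by
              apply mul_le_mul_of_nonneg_right _ hB
              apply Finset.prod_le_prod
              · intro j _
                exact sum_nonneg fun _ _ => norm_nonneg _
              · intro j _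
                exact hA j
        _ = B * (P * D) ^ r := by
              rw [prod_const, card_univ, Fintype.card_fin]
              ring
    calc _ ≤ ((P : ℝ)⁻¹) ^ r * (B * (P * D) ^ r) :=
          mul_le_mul_of_nonneg_left h6 (by positivity)
      _ = _ := by
          rw [mul_pow, inv_pow]
          field_simp
  have h7 : ((t.filter (fun i => ∀ j, c j * x i + b j ∈ A j)).card : ℂ) - (t.card : ℂ) / P *
      (((univ : Finset (ZMod P)).filter (fun y => ∀ j, c j * y + b j ∈ A j)).card : ℂ) =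
      ((((t.filter (fun i => ∀ j, c j * x i + b j ∈ A j)).card : ℝ) - (t.card : ℝ) / P *
      (((univ : Finset (ZMod P)).filter (fun y => ∀ j, c j * y + b j ∈ A j)).card : ℝ) : ℝ) : ℂ) := by
    push_cast
    rfl
  rw [h7, Complex.norm_real, Real.norm_eq_abs] at h5
  exact h5

/-- the additive character in terms of `e` -/
lemma char_int (m : ℕ) [NeZero m] (C : ℤ) (t : ℕ) :
    e ((t : ℝ) * ((C : ℝ) / m)) = (ZMod.stdAddChar (((C : ℤ) : ZMod m) * (t : ZMod m)) : ℂ) := by
  have h1 : ((C : ℤ) : ZMod m) * (t : ZMod m) = ((C * t : ℤ) : ZMod m) := by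
    push_cast
    rfl
  rw [h1, ZMod.stdAddChar_coe]
  unfold e
  congr 1
  push_cast
  ring

variable {P : ℕ} [Fact P.Prime]

/-- the geometric sum over a residue class -/
lemma class_geom (k q : ℕ) (hq : 1 ≤ q) (a β : Fin k → ℕ) (h : Fin k → ℤ) (ρ : ℤ) (H : ℕ)
    (hH0 : 1 ≤ H) (hH : (H : ℤ) ≤ |((((∑ j, h j * (a j : ℤ) : ℤ)) : ZMod P)).valMinAbs|) :
    ‖∑ n ∈ (range P).filter (fun n : ℕ => (q : ℤ) ∣ (n : ℤ) - ρ),
      e (∑ j, (h j : ℝ) * ((((a j * n + β j : ℕ) : ℝ) / P) / q))‖ ≤ P / H := by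
  have hP0 : (0 : ℝ) < P := by exact_mod_cast (Fact.out : P.Prime).pos
  have hqR : (0 : ℝ) < q := by exact_mod_cast hq
  obtain ⟨s, hs, hS⟩ := class_eq 0 P q hq ρ
  rw [zero_add] at hS
  have hr : range P = Ico 0 P := by rw [range_eq_Ico]
  rw [hr, hS, sum_image (by
    intro x _ y _ hxy
    simp only at hxy
    have : q * x = q * y := by omega
    exact Nat.eq_of_mul_eq_mul_left (by omega) this)]
  set C : ℤ := ∑ j, h j * (a j : ℤ) with hC
  have h1 : ∀ u ∈ range (TT P q s), e (∑ j, (h j : ℝ) *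
      ((((a j * (0 + (s + q * u)) + β j : ℕ) : ℝ) / P) / q)) =
      e (∑ j, (h j : ℝ) * ((((a j * s + β j : ℕ) : ℝ) / P) / q)) *
        (ZMod.stdAddChar (((C : ℤ) : ZMod P) * (u : ZMod P)) : ℂ) := by
    intro u _
    rw [← char_int, ← e_add]
    congr 1
    have h2 : (u : ℝ) * ((C : ℝ) / P) = ∑ j, (h j : ℝ) * (((a j : ℝ) * (q * u) / P) / q) := by
      rw [hC]
      push_cast
      rw [sum_div, mul_sum]
      apply sum_congr rfl
      intro j _
      field_simp
    rw [h2, ← sum_add_distrib]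
    apply sum_congr rfl
    intro j _
    push_cast
    ring
  rw [sum_congr rfl h1, ← mul_sum, norm_mul, norm_e, one_mul]
  have hne : ((C : ℤ) : ZMod P) ≠ 0 := by
    intro h0
    rw [h0, ZMod.valMinAbs_zero, abs_zero] at hH
    omega
  refine (Pool.Agent.H442R2.KF.Inc.geom P _ hne _).trans ((val_inv_le _ hne).trans ?_)
  apply div_le_div_of_nonneg_left hP0.le (by exact_mod_cast hH0)
  have : ((H : ℤ) : ℝ) ≤ |((((C : ℤ) : ZMod P).valMinAbs : ℤ) : ℝ)| := by
    rw [← Int.cast_abs]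
    exact_mod_cast hH
  simpa using this

lemma floor_nat_div (m n : ℕ) (hn : 0 < n) : ⌊(m : ℝ) / n⌋ = ((m / n : ℕ) : ℤ) := by
  rw [Int.floor_eq_iff]
  have hn0 : (0 : ℝ) < n := by exact_mod_cast hn
  constructor
  · rw [le_div_iff₀ hn0]
    push_cast
    exact_mod_cast Nat.div_mul_le_self m n
  · rw [div_lt_iff₀ hn0]
    push_cast
    have h := Nat.lt_mul_div_succ m hn
    rw [mul_comm] at h
    exact_mod_cast h

/-- the number of `v` with given classes of `v` and of the residues of `a_j v + β_j` -/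
theorem full_count (k : ℕ) (hk : 1 ≤ k) (a β : Fin k → ℕ) (H K q : ℕ) (hH1 : 1 ≤ H)
    (hrel : ∀ h : Fin k → ℤ, h ≠ 0 → (∀ j, (h j).natAbs < H) →
      (H : ℤ) ≤ |((((∑ j, h j * (a j : ℤ) : ℤ)) : ZMod P)).valMinAbs|)
    (hK : 1 ≤ K) (hKH : K ^ 3 ≤ H) (hq : 1 ≤ q) (hqK : 3 * q ≤ K) (hqP : Nat.Coprime P q)
    (ρ₀ : ℤ) (ρ : Fin k → ℤ)
    [DecidablePred fun v : ZMod P => (q : ℤ) ∣ (v.val : ℤ) - ρ₀ ∧
      ∀ j, (q : ℤ) ∣ ((((a j : ZMod P) * v + (β j : ZMod P)).val : ℕ) : ℤ) - ρ j] :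
    |(((univ : Finset (ZMod P)).filter (fun v : ZMod P => (q : ℤ) ∣ (v.val : ℤ) - ρ₀ ∧
      ∀ j, (q : ℤ) ∣ ((((a j : ZMod P) * v + (β j : ZMod P)).val : ℕ) : ℤ) - ρ j)).card : ℝ) -
      (P : ℝ) / (q : ℝ) ^ (k + 1)| ≤
      1 + (q : ℝ) ^ k * ((3 * k + 4) * P / K + (K : ℝ) ^ (3 * k) * (P / H)) := by
  classical
  have hPp : P.Prime := Fact.out
  have hPpos : 0 < P := hPp.pos
  have hP0 : (0 : ℝ) < P := by exact_mod_cast hPpos
  have hqR : (0 : ℝ) < q := by exact_mod_cast hq
  have hq1 : (1 : ℝ) ≤ q := by exact_mod_cast hq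
  -- the inverse of `P` modulo `q`
  obtain ⟨pinv, hpinv⟩ : ∃ y : ℤ, (q : ℤ) ∣ (P : ℤ) * y - 1 := by
    have h1 : IsCoprime (P : ℤ) (q : ℤ) := Nat.isCoprime_iff_coprime.2 hqP
    obtain ⟨u, v, huv⟩ := h1
    refine ⟨u, -v, ?_⟩
    linarith [huv, mul_comm u (P : ℤ), mul_comm v (q : ℤ)]
  set s : Finset ℕ := (range P).filter (fun n : ℕ => (q : ℤ) ∣ (n : ℤ) - ρ₀) with hs
  set τ : Fin k → ℤ := fun j => pinv * ((a j : ℤ) * ρ₀ + β j - ρ j) with hτ
  have hcard : (((univ : Finset (ZMod P)).filter (fun v : ZMod P => (q : ℤ) ∣ (v.val : ℤ) - ρ₀ ∧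
      ∀ j, (q : ℤ) ∣ ((((a j : ZMod P) * v + (β j : ZMod P)).val : ℕ) : ℤ) - ρ j)).card) =
      (s.filter (fun n => ∀ j, (q : ℤ) ∣ ⌊((a j * n + β j : ℕ) : ℝ) / P⌋ - τ j)).card := by
    apply card_bij (fun (v : ZMod P) _ => v.val)
    · intro v hv
      rw [mem_filter] at hv
      rw [mem_filter, hs, mem_filter, mem_range]
      refine ⟨⟨ZMod.val_lt v, hv.2.1⟩, fun j => ?_⟩
      have h2 := hv.2.2 j
      rw [floor_nat_div _ _ hPpos]
      have h3 : (((a j : ZMod P) * v + (β j : ZMod P)).val) = (a j * v.val + β j) % P := by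
        rw [← ZMod.val_natCast]
        congr 1
        push_cast
        rw [ZMod.natCast_zmod_val]
      rw [h3] at h2
      have h4 : (((a j * v.val + β j) % P : ℕ) : ℤ) =
          (a j : ℤ) * v.val + β j - P * (((a j * v.val + β j) / P : ℕ) : ℤ) := by
        have := Nat.mod_add_div (a j * v.val + β j) P
        have h5 : (((a j * v.val + β j) % P : ℕ) : ℤ) + P * (((a j * v.val + β j) / P : ℕ) : ℤ) =
            (a j : ℤ) * v.val + β j := by exact_mod_cast this
        linarith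
      rw [h4] at h2
      set T : ℤ := (((a j * v.val + β j) / P : ℕ) : ℤ) with hT
      obtain ⟨z1, hz1⟩ := h2
      obtain ⟨z2, hz2⟩ := hpinv
      obtain ⟨z3, hz3⟩ := hv.2.1
      refine ⟨-(z2 * T) - pinv * z1 + pinv * (a j : ℤ) * z3, ?_⟩
      rw [hτ]
      simp only
      have e1 : (v.val : ℤ) = ρ₀ + q * z3 := by linarith
      have e2 : (a j : ℤ) * (v.val : ℤ) + β j = P * T + ρ j + q * z1 := by linarith
      have e3 : (P : ℤ) * pinv = 1 + q * z2 := by linarith
      have e4 : (a j : ℤ) * ρ₀ + β j - ρ j = P * T + q * z1 - (a j : ℤ) * (q * z3) := by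
        have : (a j : ℤ) * (v.val : ℤ) = (a j : ℤ) * ρ₀ + (a j : ℤ) * (q * z3) := by
          rw [e1]; ring
        linarith
      rw [e4]
      have e5 : pinv * (P * T + q * z1 - (a j : ℤ) * (q * z3)) =
          (P * pinv) * T + pinv * (q * z1 - (a j : ℤ) * (q * z3)) := by ring
      rw [e5, e3]
      ring
    · intro v _ w _ hvw
      exact ZMod.val_injective P hvw
    · intro n hn
      rw [mem_filter, hs, mem_filter, mem_range] at hn
      have hval : ((n : ZMod P)).val = n := by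
        rw [ZMod.val_natCast, Nat.mod_eq_of_lt hn.1.1]
      refine ⟨(n : ZMod P), ?_, hval⟩
      rw [mem_filter]
      refine ⟨mem_univ _, ?_, fun j => ?_⟩
      · rw [hval]
        exact hn.1.2
      · have h2 := hn.2 j
        rw [floor_nat_div _ _ hPpos] at h2
        have h3 : (((a j : ZMod P) * (n : ZMod P) + (β j : ZMod P)).val) = (a j * n + β j) % P := by
          rw [← ZMod.val_natCast]
          congr 1
          push_cast
          rfl
        rw [h3]
        have h4 : (((a j * n + β j) % P : ℕ) : ℤ) =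
            (a j : ℤ) * n + β j - P * (((a j * n + β j) / P : ℕ) : ℤ) := by
          have := Nat.mod_add_div (a j * n + β j) P
          have h5 : (((a j * n + β j) % P : ℕ) : ℤ) + P * (((a j * n + β j) / P : ℕ) : ℤ) =
              (a j : ℤ) * n + β j := by exact_mod_cast this
          linarith
        rw [h4]
        set T : ℤ := (((a j * n + β j) / P : ℕ) : ℤ) with hT
        obtain ⟨z1, hz1⟩ := h2
        obtain ⟨z2, hz2⟩ := hpinv
        obtain ⟨z3, hz3⟩ := hn.1.2
        rw [hτ] at hz1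
        simp only at hz1
        refine ⟨(a j : ℤ) * z3 - P * z1 - z2 * ((a j : ℤ) * ρ₀ + β j - ρ j), ?_⟩
        have e1 : (n : ℤ) = ρ₀ + q * z3 := by linarith
        have e2 : T = pinv * ((a j : ℤ) * ρ₀ + β j - ρ j) + q * z1 := by linarith
        have e3 : (P : ℤ) * pinv = 1 + q * z2 := by linarith
        rw [e2, e1]
        have e5 : (P : ℤ) * (pinv * ((a j : ℤ) * ρ₀ + β j - ρ j) + q * z1) =
            (P * pinv) * ((a j : ℤ) * ρ₀ + β j - ρ j) + P * (q * z1) := by ring
        rw [e5, e3]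
        ring
  have hdisc := Pool.Agent.Y961.JR.discJ hk s (fun (n : ℕ) j => ((a j * n + β j : ℕ) : ℝ) / P) K q
    hK hq hqK ((P : ℝ) / H) (by positivity) (by
      intro h hh hhK
      exact class_geom k q hq a β h ρ₀ H hH1
        (hrel h hh fun j => lt_of_lt_of_le (hhK j) hKH)) τ
  have hscard : |(s.card : ℝ) - P / q| ≤ 1 ∧ (s.card : ℝ) ≤ P := by
    constructor
    · obtain ⟨s', hs', hS⟩ := class_eq 0 P q hq ρ₀
      rw [zero_add] at hS
      have h2 : s.card = TT P q s' := by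
        rw [hs, range_eq_Ico, hS, card_image_of_injOn, card_range]
        intro x _ y _ hxy
        simp only at hxy
        have : q * x = q * y := by omega
        exact Nat.eq_of_mul_eq_mul_left (by omega) this
      rw [h2]
      exact TT_bound P q s' hq hs'
    · have : s.card ≤ P := by
        rw [hs]
        refine (card_filter_le _ _).trans ?_
        rw [card_range]
      exact_mod_cast this
  rw [hcard]
  have h5 : |(s.card : ℝ) / (q : ℝ) ^ k - P / (q : ℝ) ^ (k + 1)| ≤ 1 := by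
    have e1 : (s.card : ℝ) / (q : ℝ) ^ k - P / (q : ℝ) ^ (k + 1) =
        ((s.card : ℝ) - P / q) / (q : ℝ) ^ k := by
      rw [pow_succ]
      field_simp
    rw [e1, abs_div, abs_of_pos (show (0 : ℝ) < (q : ℝ) ^ k by positivity)]
    exact (div_le_self (abs_nonneg _) (one_le_pow₀ hq1)).trans hscard.1
  have h6 : (q : ℝ) ^ k * ((3 * k + 4) * s.card / K + (K : ℝ) ^ (3 * k) * (P / H)) ≤
      (q : ℝ) ^ k * ((3 * k + 4) * P / K + (K : ℝ) ^ (3 * k) * (P / H)) := by
    have hKR : (0 : ℝ) < K := by exact_mod_cast hK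
    apply mul_le_mul_of_nonneg_left _ (by positivity)
    have : (3 * k + 4 : ℝ) * s.card / K ≤ (3 * k + 4) * P / K := by
      apply div_le_div_of_nonneg_right _ hKR.le
      exact mul_le_mul_of_nonneg_left hscard.2 (by positivity)
    linarith
  refine (abs_sub_le _ ((s.card : ℝ) / (q : ℝ) ^ k) _).trans ?_
  linarith

end Pool.Agent.V1179.MH
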