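import Pool.Agent.V1179.MH.LG1

set_option autoImplicit false

/-! # Linear congruential generators and record prime gaps (helper79) -/

namespace Pool.Agent.V1179.MH

open Finset Filter
open Pool.Agent.W147.PS (ff ff_compare ev_pow)

/-- numerical comparison -/
lemma lg_num (k : ℕ) (ε : ℝ) (h0 : 0 < ε) (h1 : ε ≤ 1) (δ θ : ℝ) (hδ : δ = ε / (8 * (k + 1)))
    (hθ : θ = δ / (4 * (k + 2))) :
    ∃ Z : ℝ, ∀ P : ℕ, Z ≤ P → 2 ≤ (P : ℝ) ∧ 3 * (P : ℝ) ^ θ + 1 ≤ (P : ℝ) ^ δ ∧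
      (P : ℝ) ^ (3 * δ) + 1 ≤ (P : ℝ) ^ ε ∧ 4 * (P : ℝ) ^ (-(δ / 4)) ≤ (P : ℝ) ^ (-θ) ∧
      ∀ (q K H : ℕ) (N : ℝ), 1 ≤ q → (q : ℝ) ≤ (P : ℝ) ^ θ → (P : ℝ) ^ δ - 1 ≤ K →
        (K : ℝ) ≤ (P : ℝ) ^ δ → (P : ℝ) ^ ε - 1 ≤ H → (P : ℝ) ^ (1 / 2 + ε) ≤ N →
        Real.sqrt P * (2 + Real.log P) * (2 + Real.log P) ^ (k + 1) +
          N / P * (1 + (q : ℝ) ^ k * ((3 * k + 4) * P / K + (K : ℝ) ^ (3 * k) * (P / H))) +
          (k + 1) * ((P : ℝ) ^ θ + 1) ≤ N * (P : ℝ) ^ (-(δ / 4)) := by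
  have hk0 : (0 : ℝ) ≤ k := Nat.cast_nonneg k
  have hδ0 : 0 < δ := by rw [hδ]; positivity
  have hθ0 : 0 < θ := by rw [hθ]; positivity
  have hδk : (k + 1 : ℝ) * δ = ε / 8 := by rw [hδ]; field_simp
  have hθk : (k + 2 : ℝ) * θ = δ / 4 := by rw [hθ]; field_simp
  have hkδ : 0 ≤ (k : ℝ) * δ := mul_nonneg hk0 hδ0.le
  have hkθ : 0 ≤ (k : ℝ) * θ := mul_nonneg hk0 hθ0.le
  have hδε : δ ≤ ε / 8 := by linarith
  have hθδ : θ ≤ δ / 8 := by linarith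
  set η : ℝ := ε / (4 * (k + 2)) with hη
  have hη0 : 0 < η := by positivity
  obtain ⟨Z₁, hZ₁⟩ := small η hη0
  have hev : ∀ᶠ P : ℝ in atTop, 2 ≤ P ∧ 4 * P ^ θ ≤ P ^ δ ∧ 2 * P ^ (3 * δ) ≤ P ^ ε ∧
      4 * P ^ (-(δ / 4)) ≤ P ^ (-θ) ∧ 4 * P ^ (-(3 * ε / 4)) ≤ P ^ (-(δ / 4)) ∧
      (8 + 4 * (3 * k + 4) * 2 : ℝ) * P ^ (-(δ / 2)) ≤ P ^ (-(δ / 4)) ∧
      32 * P ^ (-(ε / 2)) ≤ P ^ (-(δ / 4)) ∧ (8 * (k + 1) : ℝ) * P ^ (-(3 / 8 : ℝ)) ≤ P ^ (-(δ / 4)) := by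
    filter_upwards [eventually_ge_atTop (2 : ℝ), ev_pow θ δ 4 (by linarith),
      ev_pow (3 * δ) ε 2 (by linarith), ev_pow (-(δ / 4)) (-θ) 4 (by linarith),
      ev_pow (-(3 * ε / 4)) (-(δ / 4)) 4 (by linarith),
      ev_pow (-(δ / 2)) (-(δ / 4)) (8 + 4 * (3 * k + 4) * 2) (by linarith),
      ev_pow (-(ε / 2)) (-(δ / 4)) 32 (by linarith),
      ev_pow (-(3 / 8 : ℝ)) (-(δ / 4)) (8 * (k + 1)) (by linarith)] with P a1 a2 a3 a4 a5 a6 a7 a8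
    exact ⟨a1, a2, a3, a4, a5, a6, a7, a8⟩
  obtain ⟨Z₂, hZ₂⟩ := eventually_atTop.1 hev
  refine ⟨max Z₁ Z₂, fun P hP => ?_⟩
  obtain ⟨D, -, -, -, hlog⟩ := hZ₁ P ((le_max_left _ _).trans hP)
  obtain ⟨n1, n2, n3, n4, n5, n6, n7, n8⟩ := hZ₂ P ((le_max_right _ _).trans hP)
  have hP1 : (1 : ℝ) ≤ P := by linarith
  have hP0 : (0 : ℝ) < P := by linarith
  have hmono : ∀ x y : ℝ, x ≤ y → (P : ℝ) ^ x ≤ (P : ℝ) ^ y := fun x y h =>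
    Real.rpow_le_rpow_of_exponent_le hP1 h
  have hpθ : 1 ≤ (P : ℝ) ^ θ := Real.one_le_rpow hP1 hθ0.le
  have hp3 : 1 ≤ (P : ℝ) ^ (3 * δ) := Real.one_le_rpow hP1 (by linarith)
  refine ⟨n1, by linarith, by linarith, n4, ?_⟩
  intro q K H N hq hqP hK1 hK2 hH hN
  have hN0 : 0 < N := lt_of_lt_of_le (Real.rpow_pos_of_pos hP0 _) hN
  have hqR : (1 : ℝ) ≤ q := by exact_mod_cast hq
  have hΛ1 : 1 ≤ 2 + Real.log P := by
    have := Real.log_nonneg hP1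
    linarith
  -- first term
  have t1 : Real.sqrt P * (2 + Real.log P) * (2 + Real.log P) ^ (k + 1) ≤
      N * ((P : ℝ) ^ (-(δ / 4)) / 4) := by
    have e1 : (2 + Real.log P) ^ (k + 2) ≤ (P : ℝ) ^ (ε / 4) := by
      calc (2 + Real.log P) ^ (k + 2) ≤ (2 + Real.log P) ^ (2 * (k + 2)) :=
            pow_le_pow_right₀ hΛ1 (by omega)
        _ = ((2 + Real.log P) ^ 2) ^ (k + 2) := by rw [pow_mul]
        _ ≤ ((P : ℝ) ^ η) ^ (k + 2) := pow_le_pow_left₀ (by positivity) hlog _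
        _ = (P : ℝ) ^ (ε / 4) := by
            rw [← Real.rpow_natCast, ← Real.rpow_mul hP0.le]
            congr 1
            rw [hη]
            push_cast
            field_simp
    have e2 : Real.sqrt P * (P : ℝ) ^ (ε / 4) = (P : ℝ) ^ (1 / 2 + ε) * (P : ℝ) ^ (-(3 * ε / 4)) := by
      rw [Real.sqrt_eq_rpow, ← Real.rpow_add hP0, ← Real.rpow_add hP0]
      congr 1
      ring
    calc Real.sqrt P * (2 + Real.log P) * (2 + Real.log P) ^ (k + 1) =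
          Real.sqrt P * (2 + Real.log P) ^ (k + 2) := by ring
      _ ≤ Real.sqrt P * (P : ℝ) ^ (ε / 4) := mul_le_mul_of_nonneg_left e1 (Real.sqrt_nonneg _)
      _ = (P : ℝ) ^ (1 / 2 + ε) * (P : ℝ) ^ (-(3 * ε / 4)) := e2
      _ ≤ N * ((P : ℝ) ^ (-(δ / 4)) / 4) := by
          apply mul_le_mul hN _ (Real.rpow_nonneg hP0.le _) hN0.le
          linarith
  -- last term
  have t3 : (k + 1 : ℝ) * ((P : ℝ) ^ θ + 1) ≤ N * ((P : ℝ) ^ (-(δ / 4)) / 4) := by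
    have e1 : (P : ℝ) ^ θ + 1 ≤ 2 * (P : ℝ) ^ (1 / 8 : ℝ) := by
      have := hmono θ (1 / 8) (by linarith)
      linarith
    have e2 : (P : ℝ) ^ (1 / 8 : ℝ) = (P : ℝ) ^ (1 / 2 : ℝ) * (P : ℝ) ^ (-(3 / 8 : ℝ)) := by
      rw [← Real.rpow_add hP0]
      norm_num
    have e3 : (P : ℝ) ^ (1 / 2 : ℝ) ≤ N := (hmono _ _ (by linarith)).trans hN
    calc (k + 1 : ℝ) * ((P : ℝ) ^ θ + 1) ≤ (k + 1) * (2 * (P : ℝ) ^ (1 / 8 : ℝ)) :=
          mul_le_mul_of_nonneg_left e1 (by positivity)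
      _ = (P : ℝ) ^ (1 / 2 : ℝ) * ((8 * (k + 1)) * (P : ℝ) ^ (-(3 / 8 : ℝ)) / 4) := by
          rw [e2]; ring
      _ ≤ N * ((P : ℝ) ^ (-(δ / 4)) / 4) := by
          apply mul_le_mul e3 _ (by positivity) hN0.le
          linarith
  -- the middle term
  have hPδ : 4 ≤ (P : ℝ) ^ δ := by linarith
  have hK0 : (0 : ℝ) < K := by linarith
  have hK3 : (P : ℝ) ^ δ / 2 ≤ K := by linarith
  have hPε : 2 ≤ (P : ℝ) ^ ε := by linarith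
  have hH2 : (P : ℝ) ^ ε / 2 ≤ H := by linarith
  have hH0 : (0 : ℝ) < H := by linarith
  have hqk : (q : ℝ) ^ k ≤ (P : ℝ) ^ (δ / 4) := by
    calc (q : ℝ) ^ k ≤ ((P : ℝ) ^ θ) ^ k := pow_le_pow_left₀ (by linarith) hqP k
      _ = (P : ℝ) ^ (θ * k) := by rw [← Real.rpow_natCast, ← Real.rpow_mul hP0.le]
      _ ≤ _ := hmono _ _ (by linarith)
  have m1 : (3 * k + 4 : ℝ) * P / K ≤ P * (2 * (3 * k + 4) * (P : ℝ) ^ (-δ)) := by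
    rw [div_le_iff₀ hK0, Real.rpow_neg hP0.le]
    have e1 : (1 : ℝ) ≤ 2 * ((P : ℝ) ^ δ)⁻¹ * K := by
      rw [mul_assoc, inv_mul_eq_div, ← mul_div_assoc, le_div_iff₀ (by linarith)]
      linarith
    calc (3 * k + 4 : ℝ) * P = ((3 * k + 4) * P) * 1 := by ring
      _ ≤ ((3 * k + 4) * P) * (2 * ((P : ℝ) ^ δ)⁻¹ * K) :=
          mul_le_mul_of_nonneg_left e1 (by positivity)
      _ = _ := by ring
  have m2 : (K : ℝ) ^ (3 * k) * (P / H) ≤ P * (2 * (P : ℝ) ^ (3 * k * δ - ε)) := by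
    have e1 : (K : ℝ) ^ (3 * k) ≤ (P : ℝ) ^ (3 * k * δ) := by
      calc (K : ℝ) ^ (3 * k) ≤ ((P : ℝ) ^ δ) ^ (3 * k) := pow_le_pow_left₀ hK0.le hK2 _
        _ = _ := by
            rw [← Real.rpow_natCast, ← Real.rpow_mul hP0.le]
            congr 1
            push_cast
            ring
    have e2 : (P : ℝ) / H ≤ P * (2 * (P : ℝ) ^ (-ε)) := by
      rw [div_le_iff₀ hH0, Real.rpow_neg hP0.le]
      have e3 : (1 : ℝ) ≤ 2 * ((P : ℝ) ^ ε)⁻¹ * H := by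
        rw [mul_assoc, inv_mul_eq_div, ← mul_div_assoc, le_div_iff₀ (by linarith)]
        linarith
      calc (P : ℝ) = P * 1 := by ring
        _ ≤ P * (2 * ((P : ℝ) ^ ε)⁻¹ * H) := mul_le_mul_of_nonneg_left e3 hP0.le
        _ = _ := by ring
    calc (K : ℝ) ^ (3 * k) * (P / H) ≤ (P : ℝ) ^ (3 * k * δ) * (P * (2 * (P : ℝ) ^ (-ε))) :=
          mul_le_mul e1 e2 (by positivity) (by positivity)
      _ = P * (2 * ((P : ℝ) ^ (3 * k * δ) * (P : ℝ) ^ (-ε))) := by ring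
      _ = _ := by
          rw [← Real.rpow_add hP0]
          rfl
  have t2 : N / P * (1 + (q : ℝ) ^ k * ((3 * k + 4) * P / K + (K : ℝ) ^ (3 * k) * (P / H))) ≤
      N * ((P : ℝ) ^ (-(δ / 4)) / 2) := by
    have e1 : (q : ℝ) ^ k * ((3 * k + 4) * P / K + (K : ℝ) ^ (3 * k) * (P / H)) ≤
        (P : ℝ) ^ (δ / 4) * (P * (2 * (3 * k + 4) * (P : ℝ) ^ (-δ)) +
          P * (2 * (P : ℝ) ^ (3 * k * δ - ε))) :=
      mul_le_mul hqk (add_le_add m1 m2) (by positivity) (by positivity)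
    have e2 : (P : ℝ) ^ (δ / 4) * (P * (2 * (3 * k + 4) * (P : ℝ) ^ (-δ)) +
          P * (2 * (P : ℝ) ^ (3 * k * δ - ε))) =
        P * (2 * (3 * k + 4) * (P : ℝ) ^ (-(3 * δ / 4)) +
          2 * (P : ℝ) ^ (δ / 4 + (3 * k * δ - ε))) := by
      have f1 : (P : ℝ) ^ (δ / 4) * (P : ℝ) ^ (-δ) = (P : ℝ) ^ (-(3 * δ / 4)) := by
        rw [← Real.rpow_add hP0]
        congr 1
        ring
      have f2 : (P : ℝ) ^ (δ / 4) * (P : ℝ) ^ (3 * k * δ - ε) =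
          (P : ℝ) ^ (δ / 4 + (3 * k * δ - ε)) := by
        rw [← Real.rpow_add hP0]
      rw [← f1, ← f2]
      ring
    have e3 : (P : ℝ) ^ (-(3 * δ / 4)) ≤ (P : ℝ) ^ (-(δ / 2)) := hmono _ _ (by linarith)
    have e4 : (P : ℝ) ^ (δ / 4 + (3 * k * δ - ε)) ≤ (P : ℝ) ^ (-(ε / 2)) := by
      apply hmono
      linarith
    have e5 : (1 : ℝ) ≤ P * (P : ℝ) ^ (-(δ / 2)) := by
      have : (P : ℝ) * (P : ℝ) ^ (-(δ / 2)) = (P : ℝ) ^ (1 + -(δ / 2)) := by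
        rw [Real.rpow_add hP0, Real.rpow_one]
      rw [this]
      exact Real.one_le_rpow hP1 (by linarith)
    have e6 : 1 + (q : ℝ) ^ k * ((3 * k + 4) * P / K + (K : ℝ) ^ (3 * k) * (P / H)) ≤
        P * ((P : ℝ) ^ (-(δ / 4)) / 2) := by
      have f1 : (P : ℝ) * (2 * (3 * k + 4) * (P : ℝ) ^ (-(3 * δ / 4)) +
          2 * (P : ℝ) ^ (δ / 4 + (3 * k * δ - ε))) ≤
          P * (2 * (3 * k + 4) * (P : ℝ) ^ (-(δ / 2)) + 2 * (P : ℝ) ^ (-(ε / 2))) := by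
        apply mul_le_mul_of_nonneg_left _ hP0.le
        have : 2 * (3 * k + 4 : ℝ) * (P : ℝ) ^ (-(3 * δ / 4)) ≤
            2 * (3 * k + 4) * (P : ℝ) ^ (-(δ / 2)) :=
          mul_le_mul_of_nonneg_left e3 (by positivity)
        linarith
      have f2 : (P : ℝ) * (P : ℝ) ^ (-(δ / 2)) + P * (2 * (3 * k + 4) * (P : ℝ) ^ (-(δ / 2)) +
          2 * (P : ℝ) ^ (-(ε / 2))) ≤ P * ((P : ℝ) ^ (-(δ / 4)) / 2) := by
        rw [← mul_add]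
        apply mul_le_mul_of_nonneg_left _ hP0.le
        have g1 : 0 < (P : ℝ) ^ (-(δ / 2)) := Real.rpow_pos_of_pos hP0 _
        have g2 : 0 < (P : ℝ) ^ (-(δ / 4)) := Real.rpow_pos_of_pos hP0 _
        linarith
      rw [e2] at e1
      linarith
    calc N / P * (1 + (q : ℝ) ^ k * ((3 * k + 4) * P / K + (K : ℝ) ^ (3 * k) * (P / H))) ≤
          N / P * (P * ((P : ℝ) ^ (-(δ / 4)) / 2)) :=
          mul_le_mul_of_nonneg_left e6 (by positivity)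
      _ = _ := by field_simp
  linarith

end Pool.Agent.V1179.MH
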