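import Pool.Agent.V1179.MH.LG2

set_option autoImplicit false

/-! # Linear congruential generators and record prime gaps: the theorem (helper79) -/

namespace Pool.Agent.V1179.MH

open Finset Filter
open Pool.Agent.W147.PS (ff ff_compare ev_pow)

open Classical in
theorem lehmer (k : ℕ) (hk : 1 ≤ k) (ε : ℝ) (h0 : 0 < ε) (h1 : ε ≤ 1) :
    ∃ κ : ℝ, 0 < κ ∧ ∃ P₀ : ℕ, ∀ P : ℕ, P₀ ≤ P → ∀ [Fact P.Prime],
    ∀ (g b : ZMod P) (X : ℕ → ZMod P), (∀ n, X (n + 1) = g * X n + b) → X 1 ≠ X 0 →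
    (P : ℝ) ^ (1 / 2 + ε) ≤ orderOf g →
    (∀ h : Fin (k + 1) → ℤ, h ≠ 0 → (∀ j, |(h j : ℝ)| ≤ (P : ℝ) ^ ε) →
      ∑ j, (h j : ZMod P) * g ^ (j : ℕ) ≠ 0) →
    ∀ N₀ N : ℕ, (P : ℝ) ^ (1 / 2 + ε) ≤ N → ∃ n : ℕ, N₀ ≤ n ∧ n < N₀ + N ∧
      ∀ j : Fin (k + 1), ∀ q : ℕ, q.Prime → κ * ff P < |(q : ℝ) - (X (n + j)).val| := by
  set δ : ℝ := ε / (8 * (k + 1)) with hδ
  set θ : ℝ := δ / (4 * (k + 2)) with hθ
  have hk0 : (0 : ℝ) ≤ k := Nat.cast_nonneg k
  have hδ0 : 0 < δ := by rw [hδ]; positivity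
  have hθ0 : 0 < θ := by rw [hθ]; positivity
  have hδ1 : δ ≤ 1 := by
    rw [hδ, div_le_one (by positivity)]
    nlinarith
  have hθ1 : θ ≤ 1 := by
    rw [hθ, div_le_one (by positivity)]
    nlinarith
  obtain ⟨κ, hκ, P₁, hc⟩ := crit_int (k + 1) (by omega) θ hθ0 hθ1
  obtain ⟨Z, hZ⟩ := lg_num k ε h0 h1 δ θ hδ hθ
  refine ⟨κ, hκ, max P₁ ⌈Z⌉₊, ?_⟩
  intro P hP _ g b X hX hX1 hord hrel N₀ N hN
  have hPp : P.Prime := Fact.out
  obtain ⟨n1, n2, n3, n4, n5⟩ := hZ P (Nat.ceil_le.1 ((le_max_right _ _).trans hP))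
  have hP1 : (1 : ℝ) ≤ P := by linarith
  have hP0 : (0 : ℝ) < P := by linarith
  have hmono : ∀ x y : ℝ, x ≤ y → (P : ℝ) ^ x ≤ (P : ℝ) ^ y := fun x y h =>
    Real.rpow_le_rpow_of_exponent_le hP1 h
  have hPθ1 : 1 ≤ (P : ℝ) ^ θ := Real.one_le_rpow hP1 hθ0.le
  -- the generator
  have hord1 : 1 < (orderOf g : ℝ) := by
    refine lt_of_lt_of_le ?_ hord
    exact Real.one_lt_rpow (by linarith) (by linarith)
  have hg1 : g ≠ 1 := by
    intro h
    rw [h, orderOf_one] at hord1
    norm_num at hord1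
  have hg0 : g ≠ 0 := by
    intro h
    have h2 : orderOf g = 0 := by
      rw [orderOf_eq_zero_iff', h]
      intro n hn
      rw [zero_pow hn.ne']
      exact zero_ne_one
    rw [h2] at hord1
    norm_num at hord1
  have h1g : (1 : ZMod P) - g ≠ 0 := sub_ne_zero.2 (Ne.symm hg1)
  set f : ZMod P := b * (1 - g)⁻¹ with hf
  have hfix : g * f + b = f := by
    have : f * (1 - g) = b := by rw [hf, mul_assoc, inv_mul_cancel₀ h1g, mul_one]
    linear_combination -this
  set z : ZMod P := X 0 - f with hz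
  have hXn : ∀ n, X n = g ^ n * z + f := by
    intro n
    induction n with
    | zero => rw [hz]; ring
    | succ n ih =>
      rw [hX, ih, pow_succ]
      linear_combination hfix
  have hz0 : z ≠ 0 := by
    intro h
    apply hX1
    rw [hXn 1, hXn 0, h]
    ring
  -- the window
  set N' : ℕ := min N (orderOf g) with hN'
  have hN'le : (P : ℝ) ^ (1 / 2 + ε) ≤ N' := by
    rw [hN']
    push_cast
    exact le_min hN hord
  have hN'ord : N' ≤ orderOf g := min_le_right _ _
  set x : ℕ → ZMod P := fun n => g ^ (N₀ + n) * z with hx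
  have hXx : ∀ n j : ℕ, X (N₀ + n + j) = g ^ j * x n + f := by
    intro n j
    rw [hXn, hx]
    simp only
    rw [pow_add g (N₀ + n) j]
    ring
  set B : ℝ := Real.sqrt P * (2 + Real.log P) with hB
  have hlog0 : 0 ≤ Real.log P := Real.log_nonneg hP1
  have hB0 : 0 ≤ B := by positivity
  have hordP : (orderOf g : ℝ) ≤ P := by
    have h2 : orderOf g ∣ P - 1 := orderOf_dvd_of_pow_eq_one (ZMod.pow_card_sub_one_eq_one hg0)
    have h3 : 0 < P - 1 := by have := hPp.two_le; omega
    have h4 := Nat.le_of_dvd h3 h2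
    have h5 : orderOf g ≤ P := by omega
    exact_mod_cast h5
  have hS : ∀ ξ : ZMod P, ξ ≠ 0 → ‖∑ n ∈ range N', ZMod.stdAddChar (ξ * x n)‖ ≤ B := by
    intro ξ hξ
    have h2 := Pool.Agent.V11113.MP.pow_norm g hg0 (ξ * z) (mul_ne_zero hξ hz0) N₀ N'
    have h3 : ∑ n ∈ range N', (ZMod.stdAddChar (ξ * x n) : ℂ) =
        ∑ n ∈ range N', (ZMod.stdAddChar (ξ * z * g ^ (N₀ + n)) : ℂ) := by
      apply sum_congr rfl
      intro n _
      congr 1
      rw [hx]
      ring
    rw [h3]
    refine h2.trans ?_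
    rw [hB]
    apply mul_le_mul_of_nonneg_left _ (Real.sqrt_nonneg _)
    have h4 : (N' : ℝ) / orderOf g ≤ 1 := by
      rw [div_le_one (by linarith)]
      exact_mod_cast hN'ord
    have h5 : Real.log (orderOf g) ≤ Real.log P := Real.log_le_log (by linarith) hordP
    linarith
  -- the parameters
  set K : ℕ := ⌊(P : ℝ) ^ δ⌋₊ with hK
  set H : ℕ := ⌊(P : ℝ) ^ ε⌋₊ with hH
  have hK1 : (P : ℝ) ^ δ - 1 ≤ K := (Nat.sub_one_lt_floor _).le
  have hK2 : (K : ℝ) ≤ (P : ℝ) ^ δ := Nat.floor_le (by positivity)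
  have hH1 : (P : ℝ) ^ ε - 1 ≤ H := (Nat.sub_one_lt_floor _).le
  have hH2 : (H : ℝ) ≤ (P : ℝ) ^ ε := Nat.floor_le (by positivity)
  have hp3 : 1 ≤ (P : ℝ) ^ (3 * δ) := Real.one_le_rpow hP1 (by linarith)
  have hHpos : 1 ≤ H := by
    have : (1 : ℝ) ≤ H := by linarith
    exact_mod_cast this
  have hKpos : 1 ≤ K := by
    have : (1 : ℝ) ≤ K := by linarith
    exact_mod_cast this
  have hKH : K ^ 3 ≤ H := by
    have h2 : (K : ℝ) ^ 3 ≤ (P : ℝ) ^ (3 * δ) := by
      calc (K : ℝ) ^ 3 ≤ ((P : ℝ) ^ δ) ^ 3 := pow_le_pow_left₀ (Nat.cast_nonneg _) hK2 3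
        _ = _ := by
            rw [← Real.rpow_natCast, ← Real.rpow_mul hP0.le]
            congr 1
            push_cast
            ring
    have h3 : ((K ^ 3 : ℕ) : ℝ) ≤ H := by
      push_cast
      linarith
    exact_mod_cast h3
  set a : Fin k → ℕ := fun j => (g ^ ((j : ℕ) + 1)).val with ha
  set β : Fin k → ℕ := fun j => (f - g ^ ((j : ℕ) + 1) * f).val with hβ
  have haz : ∀ j, ((a j : ℕ) : ZMod P) = g ^ ((j : ℕ) + 1) := fun j => ZMod.natCast_zmod_val _
  have hβz : ∀ j, ((β j : ℕ) : ZMod P) = f - g ^ ((j : ℕ) + 1) * f :=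
    fun j => ZMod.natCast_zmod_val _
  have hrel' : ∀ h : Fin k → ℤ, h ≠ 0 → (∀ j, (h j).natAbs < H) →
      (H : ℤ) ≤ |((((∑ j, h j * (a j : ℤ) : ℤ)) : ZMod P)).valMinAbs| := by
    intro h hh hhH
    by_contra hcon
    push Not at hcon
    set c : ZMod P := (((∑ j, h j * (a j : ℤ) : ℤ)) : ZMod P) with hc'
    set h' : Fin (k + 1) → ℤ := Fin.cons (-c.valMinAbs) h with hh'
    have h'0 : h' ≠ 0 := by
      intro h3
      apply hh
      funext j
      have := congrFun h3 j.succ
      rw [hh', Fin.cons_succ] at this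
      exact this
    refine hrel h' h'0 ?_ ?_
    · intro j
      refine Fin.cases ?_ (fun j => ?_) j
      · rw [hh', Fin.cons_zero]
        push_cast
        rw [abs_neg]
        have h4 : |((c.valMinAbs : ℤ) : ℝ)| ≤ H := by
          have h5 : |c.valMinAbs| ≤ (H : ℤ) := hcon.le
          have h6 : ((|c.valMinAbs| : ℤ) : ℝ) ≤ ((H : ℤ) : ℝ) := by exact_mod_cast h5
          rw [Int.cast_abs] at h6
          simpa using h6
        exact h4.trans hH2
      · rw [hh', Fin.cons_succ]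
        have h4 : |((h j : ℤ) : ℝ)| ≤ H := by
          have h5 : |h j| ≤ (H : ℤ) := by
            rw [Int.abs_eq_natAbs]
            exact_mod_cast (hhH j).le
          have h6 : ((|h j| : ℤ) : ℝ) ≤ ((H : ℤ) : ℝ) := by exact_mod_cast h5
          rw [Int.cast_abs] at h6
          simpa using h6
        exact h4.trans hH2
    · rw [Fin.sum_univ_succ]
      simp only [hh', Fin.cons_zero, Fin.cons_succ, Fin.val_zero, pow_zero, mul_one, Fin.val_succ]
      push_cast
      rw [hc']
      push_cast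
      simp_rw [haz]
      ring
  have hcop : ∀ q : ℕ, 1 ≤ q → (q : ℝ) ≤ (P : ℝ) ^ θ → Nat.Coprime P q := by
    intro q hq hqP
    have hqlt : q < P := by
      have h3 : (q : ℝ) < P := by
        refine lt_of_le_of_lt hqP ?_
        calc (P : ℝ) ^ θ < (P : ℝ) ^ (1 : ℝ) := by
              apply Real.rpow_lt_rpow_of_exponent_lt (by linarith)
              rw [hθ, div_lt_one (by positivity)]
              nlinarith
          _ = P := Real.rpow_one _
      exact_mod_cast h3
    exact Nat.coprime_of_lt_prime (by omega) hqlt hPp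
  set Ef : ℕ → ℝ := fun q => 1 + (q : ℝ) ^ k * ((3 * k + 4) * P / K +
    (K : ℝ) ^ (3 * k) * (P / H)) with hEf
  -- the count on the whole window
  have hwin : ∀ q : ℕ, 1 ≤ q → (q : ℝ) ≤ (P : ℝ) ^ θ → ∀ ρ : Fin (k + 1) → ℤ,
      |(((range N').filter (fun n => ∀ j : Fin (k + 1),
        (q : ℤ) ∣ (((X (N₀ + n + j)).val : ℕ) : ℤ) - ρ j)).card : ℝ) -
        (N' : ℝ) / (q : ℝ) ^ (k + 1)| ≤
      B * (2 + Real.log P) ^ (k + 1) + N' / P * Ef q := by
    intro q hq hqP ρ
    have hPq := hcop q hq hqP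
    have h2 := count_cmp (range N') x (fun j : Fin (k + 1) => g ^ (j : ℕ)) (fun _ => f) B
      (2 + Real.log P) hB0 hS (fun j => AP P 0 P q (ρ j))
      (fun j => fourier_AP (by omega) hq hPq (ρ j))
    have h3 : (range N').filter (fun n => ∀ j : Fin (k + 1),
        g ^ (j : ℕ) * x n + f ∈ AP P 0 P q (ρ j)) =
        (range N').filter (fun n => ∀ j : Fin (k + 1),
          (q : ℤ) ∣ (((X (N₀ + n + j)).val : ℕ) : ℤ) - ρ j) := by
      apply filter_congr
      intro n _
      constructor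
      · intro h j
        have := (mem_AP (by omega) (ρ j) _).1 (h j)
        rw [hXx n j]
        exact this.2
      · intro h j
        rw [mem_AP (by omega)]
        refine ⟨⟨Nat.zero_le _, by rw [zero_add]; exact ZMod.val_lt _⟩, ?_⟩
        rw [← hXx n j]
        exact h j
    have h4 : ((univ : Finset (ZMod P)).filter (fun y => ∀ j : Fin (k + 1),
        g ^ (j : ℕ) * y + f ∈ AP P 0 P q (ρ j))).card =
        ((univ : Finset (ZMod P)).filter (fun v : ZMod P => (q : ℤ) ∣ (v.val : ℤ) - ρ 0 ∧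
          ∀ j : Fin k, (q : ℤ) ∣ ((((a j : ZMod P) * v + (β j : ZMod P)).val : ℕ) : ℤ) -
            ρ j.succ)).card := by
      apply card_bij (fun (y : ZMod P) _ => y + f)
      · intro y hy
        rw [mem_filter] at hy ⊢
        refine ⟨mem_univ _, ?_, fun j => ?_⟩
        · have := ((mem_AP (by omega) (ρ 0) _).1 (hy.2 0)).2
          simpa using this
        · have h5 := ((mem_AP (by omega) (ρ j.succ) _).1 (hy.2 j.succ)).2
          have h6 : (a j : ZMod P) * (y + f) + (β j : ZMod P) =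
              g ^ ((j.succ : Fin (k + 1)) : ℕ) * y + f := by
            rw [haz, hβz, Fin.val_succ]
            ring
          rw [h6]
          exact h5
      · intro y _ y' _ h
        exact add_right_cancel h
      · intro v hv
        rw [mem_filter] at hv
        refine ⟨v - f, ?_, by ring⟩
        rw [mem_filter]
        refine ⟨mem_univ _, fun j => ?_⟩
        rw [mem_AP (by omega)]
        refine ⟨⟨Nat.zero_le _, by rw [zero_add]; exact ZMod.val_lt _⟩, ?_⟩
        refine Fin.cases ?_ (fun j => ?_) j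
        · have h5 : g ^ (((0 : Fin (k + 1)) : Fin (k + 1)) : ℕ) * (v - f) + f = v := by
            rw [Fin.val_zero, pow_zero]
            ring
          rw [h5]
          exact hv.2.1
        · have h6 : g ^ ((j.succ : Fin (k + 1)) : ℕ) * (v - f) + f =
              (a j : ZMod P) * v + (β j : ZMod P) := by
            rw [haz, hβz, Fin.val_succ]
            ring
          rw [h6]
          exact hv.2.2 j
    have h5 := full_count k hk a β H K q hHpos hrel' hKpos hKH hq (by
      have : (3 * (q : ℝ)) ≤ K := by linarith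
      exact_mod_cast this) hPq (ρ 0) (fun j => ρ j.succ)
    rw [h3, h4, card_range] at h2
    set F : ℝ := (((univ : Finset (ZMod P)).filter (fun v : ZMod P =>
      (q : ℤ) ∣ (v.val : ℤ) - ρ 0 ∧
          ∀ j : Fin k, (q : ℤ) ∣ ((((a j : ZMod P) * v + (β j : ZMod P)).val : ℕ) : ℤ) -
            ρ j.succ)).card : ℝ) with hF
    have h6 : |(N' : ℝ) / P * F - (N' : ℝ) / (q : ℝ) ^ (k + 1)| ≤ N' / P * Ef q := by
      have e1 : (N' : ℝ) / P * F - (N' : ℝ) / (q : ℝ) ^ (k + 1) =
          N' / P * (F - P / (q : ℝ) ^ (k + 1)) := by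
        field_simp
      rw [e1, abs_mul, abs_of_nonneg (by positivity)]
      exact mul_le_mul_of_nonneg_left h5 (by positivity)
    exact (abs_sub_le _ ((N' : ℝ) / P * F) _).trans (add_le_add h2 h6)
  -- removing small residues
  set bad : Finset ℕ := (range N').filter (fun n => ∃ j : Fin (k + 1),
    (((X (N₀ + n + j)).val : ℕ) : ℝ) < (P : ℝ) ^ θ) with hbad
  have hbadc : (bad.card : ℝ) ≤ (k + 1) * ((P : ℝ) ^ θ + 1) := by
    have h2 : bad ⊆ (univ : Finset (Fin (k + 1))).biUnion (fun j =>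
        (range N').filter (fun n => (((X (N₀ + n + j)).val : ℕ) : ℝ) < (P : ℝ) ^ θ)) := by
      intro n hn
      rw [hbad, mem_filter] at hn
      obtain ⟨j, hj⟩ := hn.2
      rw [mem_biUnion]
      exact ⟨j, mem_univ _, mem_filter.2 ⟨hn.1, hj⟩⟩
    have h3 : ∀ j ∈ (univ : Finset (Fin (k + 1))), (((range N').filter
        (fun n => (((X (N₀ + n + j)).val : ℕ) : ℝ) < (P : ℝ) ^ θ)).card : ℝ) ≤
        (P : ℝ) ^ θ + 1 := by
      intro j _
      have hinj : Set.InjOn (fun n => (X (N₀ + n + j)).val) (((range N').filter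
          (fun n => (((X (N₀ + n + j)).val : ℕ) : ℝ) < (P : ℝ) ^ θ) : Finset ℕ) : Set ℕ) := by
        intro n hn m hm hnm
        rw [mem_coe, mem_filter, mem_range] at hn hm
        have h4 := ZMod.val_injective P hnm
        rw [hXx, hXx] at h4
        have h5 : g ^ (j : ℕ) * x n = g ^ (j : ℕ) * x m := add_right_cancel h4
        have h6 := mul_left_cancel₀ (pow_ne_zero _ hg0) h5
        rw [hx] at h6
        simp only at h6
        have h7 := mul_right_cancel₀ hz0 h6
        rw [pow_add, pow_add] at h7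
        have h8 := mul_left_cancel₀ (pow_ne_zero _ hg0) h7
        exact pow_injOn_Iio_orderOf (Set.mem_Iio.2 (by omega)) (Set.mem_Iio.2 (by omega)) h8
      rw [← card_image_of_injOn hinj]
      have h4 : ((range N').filter (fun n => (((X (N₀ + n + j)).val : ℕ) : ℝ) <
          (P : ℝ) ^ θ)).image (fun n => (X (N₀ + n + j)).val) ⊆ range ⌈(P : ℝ) ^ θ⌉₊ := by
        intro y hy
        rw [mem_image] at hy
        obtain ⟨n, hn, rfl⟩ := hy
        rw [mem_filter] at hn
        rw [mem_range]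
        exact Nat.lt_ceil.2 hn.2
      have h5 := card_le_card h4
      rw [card_range] at h5
      have h6 : (⌈(P : ℝ) ^ θ⌉₊ : ℝ) ≤ (P : ℝ) ^ θ + 1 :=
        (Nat.ceil_lt_add_one (by positivity)).le
      have h7 : ((((range N').filter (fun n => (((X (N₀ + n + j)).val : ℕ) : ℝ) <
          (P : ℝ) ^ θ)).image (fun n => (X (N₀ + n + j)).val)).card : ℝ) ≤ ⌈(P : ℝ) ^ θ⌉₊ := by
        exact_mod_cast h5
      exact h7.trans h6
    calc (bad.card : ℝ) ≤ (((univ : Finset (Fin (k + 1))).biUnion (fun j =>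
        (range N').filter (fun n => (((X (N₀ + n + j)).val : ℕ) : ℝ) < (P : ℝ) ^ θ))).card : ℝ) := by
          exact_mod_cast card_le_card h2
      _ ≤ ∑ j : Fin (k + 1), (((range N').filter
        (fun n => (((X (N₀ + n + j)).val : ℕ) : ℝ) < (P : ℝ) ^ θ)).card : ℝ) := by
          rw [← Nat.cast_sum]
          exact_mod_cast card_biUnion_le
      _ ≤ ∑ _j : Fin (k + 1), ((P : ℝ) ^ θ + 1) := sum_le_sum h3
      _ = _ := by
          rw [sum_const, card_univ, Fintype.card_fin, nsmul_eq_mul]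
          push_cast
          ring
  set t : Finset ℕ := (range N').filter (fun n => ¬ ∃ j : Fin (k + 1),
    (((X (N₀ + n + j)).val : ℕ) : ℝ) < (P : ℝ) ^ θ) with ht
  have hN'0 : (0 : ℝ) < N' := lt_of_lt_of_le (Real.rpow_pos_of_pos hP0 _) hN'le
  obtain ⟨n, hn, hn1⟩ := hc P ((le_max_left _ _).trans hP) hPp ℕ t
    (fun n j => (((X (N₀ + n + j)).val : ℕ) : ℤ)) N' ((P : ℝ) ^ (-(δ / 4))) hN'0
    (Real.rpow_nonneg hP0.le _) n4 (by
      intro q hq hqP ρ
      set C : Finset ℕ := (range N').filter (fun n => ∀ j : Fin (k + 1),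
        (q : ℤ) ∣ (((X (N₀ + n + j)).val : ℕ) : ℤ) - ρ j) with hC
      set C' : Finset ℕ := t.filter (fun n => ∀ j : Fin (k + 1),
        (q : ℤ) ∣ (((X (N₀ + n + j)).val : ℕ) : ℤ) - ρ j) with hC'
      have h2 : C' ⊆ C := by
        intro n hn
        rw [hC', mem_filter, ht, mem_filter] at hn
        rw [hC, mem_filter]
        exact ⟨hn.1.1, hn.2⟩
      have h3 : C ⊆ C' ∪ bad := by
        intro n hn
        rw [hC, mem_filter] at hn
        rw [mem_union]
        by_cases h : ∃ j : Fin (k + 1), (((X (N₀ + n + j)).val : ℕ) : ℝ) < (P : ℝ) ^ θ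
        · right
          rw [hbad, mem_filter]
          exact ⟨hn.1, h⟩
        · left
          rw [hC', mem_filter, ht, mem_filter]
          exact ⟨⟨hn.1, h⟩, hn.2⟩
      have h4 : (C'.card : ℝ) ≤ C.card := by exact_mod_cast card_le_card h2
      have h5 : (C.card : ℝ) ≤ C'.card + bad.card := by
        exact_mod_cast (card_le_card h3).trans (card_union_le _ _)
      have h6 := hwin q hq hqP ρ
      have h7 := n5 q K H N' hq hqP hK1 hK2 hH1 hN'le
      have h8 : |(C'.card : ℝ) - C.card| ≤ (k + 1) * ((P : ℝ) ^ θ + 1) := by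
        rw [abs_le]
        constructor <;> linarith
      refine (abs_sub_le _ (C.card : ℝ) _).trans ?_
      have h9 : B * (2 + Real.log P) ^ (k + 1) = Real.sqrt P * (2 + Real.log P) *
        (2 + Real.log P) ^ (k + 1) := by rw [hB]
      rw [h9] at h6
      linarith [h6, h7, h8])
    (by
      intro n hn j
      rw [ht, mem_filter] at hn
      have h2 := hn.2
      push Not at h2
      have := h2 j
      push_cast
      exact this)
  rw [ht, mem_filter, mem_range] at hn
  have hN'N : N' ≤ N := min_le_left _ _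
  refine ⟨N₀ + n, by omega, by omega, fun j q hq => ?_⟩
  have := hn1 j q hq
  simpa using this

end Pool.Agent.V1179.MH
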