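import Pool.Agent.V1179.MH.PC1

set_option autoImplicit false

/-! # Polynomial configurations of integers without primes nearby -/

namespace Pool.Agent.V1179.MH.PC

open Finset Filter MvPolynomial
open Pool.Agent.V1179.MH.SF (boxF mem_boxF box_card critF cast_ne)
open Pool.Agent.W147.PS (ff ff_compare ev_pow)
open scoped Classical

theorem config (m r D : ℕ) (hr : 1 ≤ r) (ε : ℝ) (h0 : 0 < ε) (h1 : ε ≤ 1) :
    ∃ κ : ℝ, 0 < κ ∧ ∀ P : Fin r → MvPolynomial (Fin m) ℤ, (∀ i, (P i).totalDegree ≤ D) →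
    (∀ i j, i ≠ j → ∀ c : ℤ, P i - P j ≠ C c) →
    ∃ T₀ : ℝ, ∀ T : ℝ, T₀ ≤ T → ∀ (a : Fin (m + 1) → ℤ) (L : Fin (m + 1) → ℕ),
      (∀ j, T ^ ε ≤ L j) →
      (∀ z : Fin (m + 1) → ℤ, (∀ j, a j ≤ z j ∧ z j < a j + L j) → ∀ i,
        T ^ ε ≤ ((val (P i) z : ℤ) : ℝ)) →
      ∃ z : Fin (m + 1) → ℤ, (∀ j, a j ≤ z j ∧ z j < a j + L j) ∧
        ∀ i, ∀ q : ℕ, q.Prime → κ * ff T < |(q : ℝ) - ((val (P i) z : ℤ) : ℝ)| := by
  obtain ⟨κ, hκ, hcr⟩ := critF (m + 1) r (by omega) hr (D : ℝ) (Nat.cast_nonneg _)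
  set n : ℝ := ((m + 1 : ℕ) : ℝ) with hn
  have hn1 : (1 : ℝ) ≤ n := by
    rw [hn]
    push_cast
    linarith [(Nat.cast_nonneg m : (0 : ℝ) ≤ m)]
  set θ : ℝ := ε / (4 * n) with hθ
  have hθ0 : 0 < θ := by positivity
  have hθε : θ ≤ ε := div_le_self h0.le (by linarith)
  have hθ1 : θ ≤ 1 := hθε.trans h1
  refine ⟨κ / 2 * (θ / 32), by positivity, ?_⟩
  intro P hdeg hP
  have hex : ∀ i j, i ≠ j → ∃ s : Fin m →₀ ℕ, s ≠ 0 ∧ coeff s (P i - P j) ≠ 0 :=
    fun i j hij => exists_coeff _ (hP i j hij)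
  choose! s hs using hex
  set P₀ : ℝ := ∑ i, ∑ j, |((coeff (s i j) (P i - P j) : ℤ) : ℝ)| with hP₀
  obtain ⟨X₀, hX0⟩ := hcr P₀
  set c : Fin r → ℤ := fun i => eval (fun _ => 0) (P i) with hc
  set C₀ : ℝ := ∑ i, |(c i : ℝ)| with hC₀
  have hlog : ∀ᶠ Z : ℝ in atTop, 2 * C₀ / κ ≤ Real.log Z :=
    Real.tendsto_log_atTop.eventually_ge_atTop _
  have hff1 : ∀ᶠ Z : ℝ in atTop, Real.log Z ≤ ff Z :=
    (ff_compare 1 one_pos le_rfl).mono (fun Z h => h.1)
  have tθ := tendsto_rpow_atTop hθ0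
  have hev := (ff_compare θ hθ0 hθ1).and ((tθ.eventually_ge_atTop X₀).and
    ((tθ.eventually Pool.Agent.Y961.JR.ev_small).and ((tθ.eventually hlog).and
      ((tθ.eventually hff1).and ((eventually_gt_atTop (1 : ℝ)).and
        ((tendsto_rpow_atTop (show (0 : ℝ) < ε / 2 by positivity)).eventually_ge_atTop
          (n * 2 ^ (m + 1))))))))
  obtain ⟨Z, hZ⟩ := eventually_atTop.1 hev
  refine ⟨Z, ?_⟩
  intro T hT a L hL hval
  obtain ⟨m1, m2, ⟨m3, m4⟩, m5, m6, m7, m8⟩ := hZ T hT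
  have hT0 : 0 < T := by linarith
  set X : ℝ := T ^ θ with hX
  obtain ⟨hfl, hcrit⟩ := hX0 X m2
  set W : ℝ := T ^ ε with hW
  have hW1 : 1 ≤ W := Real.one_le_rpow m7.le h0.le
  have hXW : X ≤ W := Real.rpow_le_rpow_of_exponent_le m7.le hθε
  have hX0' : 0 < X := Real.rpow_pos_of_pos hT0 _
  have hXg : X ^ (2 * n) = T ^ (ε / 2) := by
    rw [hX, ← Real.rpow_mul hT0.le]
    congr 1
    rw [hθ]
    field_simp
    norm_num
  have hWW : T ^ (ε / 2) * T ^ (ε / 2) = W := by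
    rw [hW, ← Real.rpow_add hT0]
    congr 1
    ring
  set box : Finset (Fin (m + 1) → ℤ) :=
    Fintype.piFinset (fun j : Fin (m + 1) => Finset.Ico (a j) (a j + L j)) with hbox
  have hLpos : ∀ j, (1 : ℝ) ≤ L j := fun j => hW1.trans (hL j)
  have hcard : (box.card : ℝ) = ∏ j, (L j : ℝ) := by
    rw [hbox, Fintype.card_piFinset]
    push_cast
    apply Finset.prod_congr rfl
    intro j _
    simp
  have hprod : (0 : ℝ) < ∏ j, (L j : ℝ) := Finset.prod_pos fun j _ => by linarith [hLpos j]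
  have hne : box.Nonempty := by
    rw [← Finset.card_pos]
    have : (0 : ℝ) < box.card := by
      rw [hcard]
      exact hprod
    exact_mod_cast this
  obtain ⟨z, hz, hz2⟩ := hcrit (fun z i => val (P i) z - c i)
    (by
      intro q ρ ρ' h i
      have h2 := eval_cong q (P i) (fun l => ρ l.succ) (fun l => ρ' l.succ) (fun l => h l.succ)
      have e : val (P i) ρ - c i - (val (P i) ρ' - c i) = (ρ 0 - ρ' 0) +
          (eval (fun l => ρ l.succ) (P i) - eval (fun l => ρ' l.succ) (P i)) := by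
        unfold val
        ring
      rw [e]
      exact dvd_add (h 0) h2)
    (by
      intro q _ e
      refine ⟨Fin.cons e (fun _ => 0), ?_⟩
      intro i
      unfold val
      simp only [Fin.cons_zero, Fin.cons_succ]
      have e1 : e + eval (fun _ => 0) (P i) - c i - e = 0 := by
        rw [hc]
        ring
      rw [e1]
      exact dvd_zero _)
    (by
      intro p hp _ i u
      have hp0 : (0 : ℝ) < p := by exact_mod_cast hp.pos
      have h2 := count_one (P i) p hp (u + c i)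
      have e : (boxF (m + 1) p).filter (fun ρ => (p : ℤ) ∣ val (P i) ρ - (u + c i)) =
          (boxF (m + 1) p).filter (fun ρ => (p : ℤ) ∣ val (P i) ρ - c i - u) := by
        apply Finset.filter_congr
        intro ρ _
        have : val (P i) ρ - (u + c i) = val (P i) ρ - c i - u := by ring
        rw [this]
      rw [e] at h2
      have h3 : (p : ℝ) ^ m ≤ (((boxF (m + 1) p).filter (fun ρ => (p : ℤ) ∣
          val (P i) ρ - c i - u)).card : ℝ) := by exact_mod_cast h2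
      refine le_trans ?_ h3
      simp only [Nat.add_sub_cancel]
      have h4 : 0 ≤ (D : ℝ) / p := by positivity
      have h5 : (0 : ℝ) < (p : ℝ) ^ m := by positivity
      nlinarith)
    (by
      intro p hp hpP i j hij u v
      have hp0 : (0 : ℝ) < p := by exact_mod_cast hp.pos
      obtain ⟨hs1, hs2⟩ := hs i j hij
      have hk : ((coeff (s i j) (P i - P j) : ℤ) : ZMod p) ≠ 0 := by
        apply cast_ne _ hs2
        refine lt_of_le_of_lt ?_ hpP
        rw [hP₀]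
        refine le_trans ?_ (Finset.single_le_sum (fun i _ => Finset.sum_nonneg
          (fun j _ => abs_nonneg _)) (Finset.mem_univ i))
        exact Finset.single_le_sum (f := fun j => |((coeff (s i j) (P i - P j) : ℤ) : ℝ)|)
          (fun j _ => abs_nonneg _) (Finset.mem_univ j)
      have h2 := count_two (P i) (P j) p hp (u + c i) (v + c j)
      have h3 := few_values (P i - P j) (s i j) hs1 p hp hk (u + c i - (v + c j))
      have h4 : (P i - P j).totalDegree ≤ D :=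
        (totalDegree_sub _ _).trans (max_le (hdeg i) (hdeg j))
      have e : (boxF (m + 1) p).filter (fun ρ => (p : ℤ) ∣ val (P i) ρ - (u + c i) ∧
          (p : ℤ) ∣ val (P j) ρ - (v + c j)) =
          (boxF (m + 1) p).filter (fun ρ => (p : ℤ) ∣ val (P i) ρ - c i - u ∧
          (p : ℤ) ∣ val (P j) ρ - c j - v) := by
        apply Finset.filter_congr
        intro ρ _
        have e1 : val (P i) ρ - (u + c i) = val (P i) ρ - c i - u := by ring
        have e2 : val (P j) ρ - (v + c j) = val (P j) ρ - c j - v := by ring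
        rw [e1, e2]
      rw [e] at h2
      have h5 : ((boxF (m + 1) p).filter (fun ρ => (p : ℤ) ∣ val (P i) ρ - c i - u ∧
          (p : ℤ) ∣ val (P j) ρ - c j - v)).card * p ≤ D * p ^ m :=
        (Nat.mul_le_mul_right _ h2).trans (h3.trans (Nat.mul_le_mul_right _ h4))
      have h6 : (((boxF (m + 1) p).filter (fun ρ => (p : ℤ) ∣ val (P i) ρ - c i - u ∧
          (p : ℤ) ∣ val (P j) ρ - c j - v)).card : ℝ) * p ≤ D * (p : ℝ) ^ m := by
        exact_mod_cast h5
      simp only [Nat.add_sub_cancel]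
      rw [← mul_div_assoc, le_div_iff₀ hp0]
      linarith)
    (Fin (m + 1) → ℤ) box (fun v => v) hne (by
      intro q hq _ ρ
      rw [hcard]
      refine (box_count (m + 1) q a L W hW1 hL hq ρ).trans ?_
      rw [← hn, Real.rpow_neg hX0'.le, hXg, Finset.prod_mul_distrib, Finset.prod_const,
        Finset.card_univ, Fintype.card_fin]
      have e1 : n * (1 / (2 * W)) * (2 ^ (m + 1) * ∏ j, (L j : ℝ)) =
          (∏ j, (L j : ℝ)) * (n * 2 ^ (m + 1) / (2 * W)) := by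
        field_simp
      rw [e1]
      apply mul_le_mul_of_nonneg_left _ hprod.le
      have hTe : 0 < T ^ (ε / 2) := Real.rpow_pos_of_pos hT0 _
      rw [inv_eq_one_div, div_le_div_iff₀ (by positivity) hTe]
      nlinarith)
  have hzb : ∀ j, a j ≤ z j ∧ z j < a j + L j := by
    intro j
    have := Fintype.mem_piFinset.mp hz j
    rwa [Finset.mem_Ico] at this
  refine ⟨z, hzb, ?_⟩
  intro i q hq
  have hffX : 2 * C₀ / κ ≤ Pool.Agent.H256R2.SC.ff X := m5.trans m6
  have hκff : C₀ ≤ κ / 2 * Pool.Agent.H256R2.SC.ff X := by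
    have h1 : κ / 2 * (2 * C₀ / κ) = C₀ := by field_simp
    have h2 : κ / 2 * (2 * C₀ / κ) ≤ κ / 2 * Pool.Agent.H256R2.SC.ff X := by gcongr
    linarith
  have hC00 : 0 ≤ C₀ := Finset.sum_nonneg fun i _ => abs_nonneg _
  have hscal : κ / 2 * (θ / 32) * ff T ≤ κ / 2 * Pool.Agent.H256R2.SC.ff X :=
    Pool.Agent.Y961.JR.ff_scaled (κ / 2) θ T (by positivity) hθ1 m7.le m1.2
  refine lt_of_le_of_lt hscal ?_
  apply Pool.Agent.Y961.JR.no_prime (κ / 2) X (by linarith) m3 m4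
    ((val (P i) z : ℤ) : ℝ) (hXW.trans (hval z hzb i)) _ q hq
  intro M hM
  rw [Int.floor_intCast] at hM
  apply hz2 i M
  have h1 : |(c i : ℝ)| ≤ C₀ := Finset.single_le_sum (f := fun i => |(c i : ℝ)|)
    (fun i _ => abs_nonneg _) (Finset.mem_univ i)
  push_cast
  have h2 : (M : ℝ) - ((val (P i) z : ℝ) - c i) = ((M : ℝ) - (val (P i) z : ℝ)) + c i := by ring
  rw [h2]
  refine (abs_add_le _ _).trans ?_
  linarith

/-- without the restriction on `ε` -/
theorem config' (m r D : ℕ) (hr : 1 ≤ r) (ε : ℝ) (h0 : 0 < ε) :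
    ∃ κ : ℝ, 0 < κ ∧ ∀ P : Fin r → MvPolynomial (Fin m) ℤ, (∀ i, (P i).totalDegree ≤ D) →
    (∀ i j, i ≠ j → ∀ c : ℤ, P i - P j ≠ C c) →
    ∃ T₀ : ℝ, ∀ T : ℝ, T₀ ≤ T → ∀ (a : Fin (m + 1) → ℤ) (L : Fin (m + 1) → ℕ),
      (∀ j, T ^ ε ≤ L j) →
      (∀ z : Fin (m + 1) → ℤ, (∀ j, a j ≤ z j ∧ z j < a j + L j) → ∀ i,
        T ^ ε ≤ (((z 0 + eval (fun l => z l.succ) (P i) : ℤ)) : ℝ)) →
      ∃ z : Fin (m + 1) → ℤ, (∀ j, a j ≤ z j ∧ z j < a j + L j) ∧
        ∀ i, ∀ q : ℕ, q.Prime →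
          κ * ff T < |(q : ℝ) - ((z 0 + eval (fun l => z l.succ) (P i) : ℤ) : ℝ)| := by
  obtain ⟨κ, hκ, h⟩ := config m r D hr (min ε 1) (lt_min h0 one_pos) (min_le_right _ _)
  refine ⟨κ, hκ, fun P hdeg hP => ?_⟩
  obtain ⟨T₀, hT⟩ := h P hdeg hP
  refine ⟨max T₀ 1, fun T hTT a L hL hval => ?_⟩
  have hT1 : 1 ≤ T := (le_max_right _ _).trans hTT
  have hmono : T ^ (min ε 1) ≤ T ^ ε := Real.rpow_le_rpow_of_exponent_le hT1 (min_le_left _ _)
  exact hT T ((le_max_left _ _).trans hTT) a L (fun j => hmono.trans (hL j))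
    (fun z hz i => hmono.trans (hval z hz i))

end Pool.Agent.V1179.MH.PC
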