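import Pool.Agent.V1179.MH.Wrap
import Pool.Agent.V1179.MH.WeylP

set_option autoImplicit false

/-! # Record prime gaps around the residues of several polynomials at one argument (helper79) -/

namespace Pool.Agent.V1179.MH

open Finset Filter Polynomial
open Pool.Agent.W147.PS (ff ff_compare ev_pow)

theorem polys (d r : ℕ) (hr : 1 ≤ r) (ε : ℝ) (h0 : 0 < ε) :
    ∃ κ : ℝ, 0 < κ ∧ ∃ P₀ : ℕ, ∀ P : ℕ, P₀ ≤ P → P.Prime →
    ∀ f : Fin r → (ZMod P)[X], (∀ j, (f j).natDegree ≤ d + 1) →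
    (∀ c : Fin r → ZMod P, c ≠ 0 → 1 ≤ (∑ j, C (c j) * f j).natDegree) →
    ∀ M L : Fin r → ℕ, (∀ j, M j + L j ≤ P) →
    (P : ℝ) ^ ((r : ℝ) - 1 / 2 ^ d + ε) ≤ ∏ j, (L j : ℝ) →
    ∃ x : ZMod P, ∀ j, M j ≤ ((f j).eval x).val ∧ ((f j).eval x).val < M j + L j ∧
      ∀ q : ℕ, q.Prime → κ * ff P < |(q : ℝ) - ((f j).eval x).val| := by
  classical
  set ε' : ℝ := min ε 1 / 2 with hε'
  have hε0 : 0 < ε' := by positivity
  have hε1 : ε' ≤ 1 := by
    have : min ε 1 ≤ 1 := min_le_right _ _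
    linarith
  have hε2 : 2 * ε' ≤ ε := by
    have : min ε 1 ≤ ε := min_le_left _ _
    linarith
  obtain ⟨κ, hκ, P₁, hc⟩ := crit_gen' 0 r (by omega) ε' hε0 hε1
  obtain ⟨Z, hZ⟩ := eventually_atTop.1
    ((tendsto_rpow_atTop hε0).eventually_ge_atTop (2 : ℝ))
  refine ⟨κ, hκ, max P₁ (max (d + 2) ⌈Z⌉₊), ?_⟩
  intro P hP hPp f hfd hfi M L hML hL
  have : Fact P.Prime := ⟨hPp⟩
  have : NeZero P := ⟨hPp.ne_zero⟩
  have hPd : d + 2 ≤ P := ((le_max_left _ _).trans (le_max_right _ _)).trans hP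
  have m1 := hZ P (Nat.ceil_le.1 (((le_max_right _ _).trans (le_max_right _ _)).trans hP))
  have hP1 : (1 : ℝ) ≤ P := by exact_mod_cast hPp.one_le
  have hP0 : (0 : ℝ) < P := by linarith
  have hmono : ∀ x y : ℝ, x ≤ y → (P : ℝ) ^ x ≤ (P : ℝ) ^ y := fun x y h =>
    Real.rpow_le_rpow_of_exponent_le hP1 h
  have e0 : (0 : ℝ) < 1 / 2 ^ d ∧ (1 / 2 ^ d : ℝ) ≤ 1 := by
    constructor
    · positivity
    · rw [div_le_one (by positivity)]
      exact one_le_pow₀ (by norm_num)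
  have hcard : (univ : Finset (ZMod P)).card = P := by
    rw [card_univ, ZMod.card]
  set Lp : ℝ := ∏ j, (L j : ℝ) with hLp
  have hLj : ∀ j, (L j : ℝ) ≤ P := by
    intro j
    have := hML j
    exact_mod_cast (by omega : L j ≤ P)
  obtain ⟨x, -, -, hx⟩ := hc P ((le_max_left _ _).trans hP) hPp
    (ZMod P) univ (fun _ j => j.elim0) (fun x j => (f j).eval x)
    (2 * (P : ℝ) ^ (1 - 1 / 2 ^ d : ℝ)) (by positivity) (by
      intro q hq _ ρ
      have hf : (univ : Finset (ZMod P)).filter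
          (fun i => ∀ j : Fin 0, (q : ℤ) ∣ (fun (_ : ZMod P) (j : Fin 0) =>
            (j.elim0 : ℤ)) i j - ρ j) = univ :=
        filter_true_of_mem fun i _ j => j.elim0
      constructor
      · rw [hf, pow_zero, div_one, sub_self, abs_zero]
        positivity
      · intro h hh
        rw [hf]
        set G : (ZMod P)[X] := ∑ j, C (h j) * f j with hG
        have hGe : ∀ x : ZMod P, ∑ j, h j * (f j).eval x = G.eval x := by
          intro x
          rw [hG, eval_finsetSum]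
          apply sum_congr rfl
          intro j _
          rw [eval_mul, eval_C]
        simp_rw [hGe]
        have hGd : G.natDegree ≤ d + 1 := by
          rw [hG]
          apply natDegree_sum_le_of_forall_le
          intro j _
          exact (natDegree_C_mul_le _ _).trans (hfd j)
        obtain ⟨e, he⟩ : ∃ e, G.natDegree = e + 1 :=
          ⟨G.natDegree - 1, by have h9 := hfi h hh; rw [← hG] at h9; omega⟩
        refine (weyl e G he (by omega)).trans ?_
        apply mul_le_mul_of_nonneg_left _ (by norm_num)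
        apply hmono
        have : (2 : ℝ) ^ e ≤ 2 ^ d := pow_le_pow_right₀ (by norm_num) (by omega)
        have h2 : (1 / 2 ^ d : ℝ) ≤ 1 / 2 ^ e :=
          one_div_le_one_div_of_le (by positivity) this
        linarith)
    (fun i _ j => j.elim0) M L hML (by
      intro j
      have h5 : Lp ≤ L j * (P : ℝ) ^ (r - 1) := by
        rw [hLp, ← mul_prod_erase univ _ (mem_univ j)]
        apply mul_le_mul_of_nonneg_left _ (Nat.cast_nonneg _)
        calc ∏ x ∈ univ.erase j, (L x : ℝ) ≤ ∏ _x ∈ univ.erase j, (P : ℝ) :=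
              prod_le_prod (fun _ _ => Nat.cast_nonneg _) (fun i _ => hLj i)
          _ = _ := by
              rw [prod_const, card_erase_of_mem (mem_univ j), card_univ, Fintype.card_fin]
      have h6 : (P : ℝ) ^ ((r : ℝ) - 1 / 2 ^ d + ε) =
          (P : ℝ) ^ (1 - 1 / 2 ^ d + ε) * (P : ℝ) ^ (r - 1) := by
        rw [← Real.rpow_natCast (P : ℝ) (r - 1), ← Real.rpow_add hP0]
        congr 1
        push_cast [Nat.cast_sub hr]
        ring
      rw [h6] at hL
      have h7 : (P : ℝ) ^ (1 - 1 / 2 ^ d + ε) ≤ L j :=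
        le_of_mul_le_mul_right (hL.trans h5) (by positivity)
      exact (hmono _ _ (by linarith)).trans h7) (by
      rw [hcard]
      exact hPp.pos) (by
      rw [hcard]
      have e1 : (P : ℝ) ^ (1 - 1 / 2 ^ d : ℝ) * (P : ℝ) ^ ((r : ℝ) + ε') =
          P * (P : ℝ) ^ ((r : ℝ) - 1 / 2 ^ d + ε') := by
        rw [mul_comm (P : ℝ), ← Real.rpow_add hP0, ← Real.rpow_add_one hP0.ne']
        congr 1
        ring
      have e2 : (P : ℝ) ^ ((r : ℝ) - 1 / 2 ^ d + ε') * 2 ≤ Lp := by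
        calc (P : ℝ) ^ ((r : ℝ) - 1 / 2 ^ d + ε') * 2 ≤
              (P : ℝ) ^ ((r : ℝ) - 1 / 2 ^ d + ε') * (P : ℝ) ^ ε' :=
              mul_le_mul_of_nonneg_left m1 (by positivity)
          _ = (P : ℝ) ^ ((r : ℝ) - 1 / 2 ^ d + ε' + ε') := by
              rw [← Real.rpow_add hP0]
          _ ≤ (P : ℝ) ^ ((r : ℝ) - 1 / 2 ^ d + ε) := hmono _ _ (by linarith)
          _ ≤ Lp := hL
      calc 2 * (P : ℝ) ^ (1 - 1 / 2 ^ d : ℝ) * (P : ℝ) ^ ((r : ℝ) + ε') =
            P * ((P : ℝ) ^ ((r : ℝ) - 1 / 2 ^ d + ε') * 2) := by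
              rw [mul_assoc, e1]; ring
        _ ≤ P * Lp := mul_le_mul_of_nonneg_left e2 hP0.le)
  exact ⟨x, fun j => ⟨(hx j).1, (hx j).2.1, (hx j).2.2⟩⟩

end Pool.Agent.V1179.MH
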