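import Pool.Agent.H341R2.WeilSharp

set_option autoImplicit false

/-! # Weil's bound for short sums of products of Legendre symbols, in the mean (helper79) -/

namespace Pool.Agent.V1179.MH

open Finset Polynomial

section Sq

variable {P : ℕ} [Fact P.Prime]

lemma prod_ne_sq {I : Type*} [DecidableEq I] (T : Finset I) (s : I → ZMod P) (w0 : I)
    (hw0 : w0 ∈ T) (hs : ∀ w ∈ T, w ≠ w0 → s w ≠ s w0) (c : ZMod P) (g : (ZMod P)[X]) :
    ∏ w ∈ T, (X + C (s w)) ≠ C c * g ^ 2 := by
  intro h
  have hsplit : ∏ w ∈ T, (X + C (s w)) =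
      (X + C (s w0)) * ∏ w ∈ T.erase w0, (X + C (s w)) := by
    rw [mul_prod_erase T (fun w => X + C (s w)) hw0]
  set r : (ZMod P)[X] := ∏ w ∈ T.erase w0, (X + C (s w)) with hr
  have hr0 : r.eval (- s w0) ≠ 0 := by
    rw [hr, eval_prod, prod_ne_zero_iff]
    intro w hw
    rw [eval_add, eval_X, eval_C]
    intro h1
    rw [mem_erase] at hw
    exact hs w hw.2 hw.1 (by linear_combination h1)
  have hc : c ≠ 0 := by
    rintro rfl
    have := (monic_prod_of_monic T (fun w => X + C (s w)) fun w _ => monic_X_add_C _).ne_zero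
    apply this
    rw [h]
    simp
  have hg0 : g.eval (- s w0) = 0 := by
    have h1 : (∏ w ∈ T, (X + C (s w))).eval (- s w0) = 0 := by
      rw [hsplit, eval_mul]
      simp
    rw [h, eval_mul, eval_C, eval_pow] at h1
    have h2 := (mul_eq_zero.1 h1).resolve_left hc
    exact pow_eq_zero_iff (two_ne_zero) |>.1 h2
  have hd1 : (derivative (∏ w ∈ T, (X + C (s w)))).eval (- s w0) = r.eval (- s w0) := by
    rw [hsplit, derivative_mul]
    simp
  have hd2 : (derivative (∏ w ∈ T, (X + C (s w)))).eval (- s w0) = 0 := by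
    rw [h, derivative_mul, derivative_C, zero_mul, zero_add, eval_mul, derivative_pow]
    simp [hg0]
  exact hr0 (hd1 ▸ hd2)

/-- the Legendre symbol as a real number -/
noncomputable def qc (x : ZMod P) : ℝ := (quadraticChar (ZMod P) x : ℝ)

lemma abs_qc_le (x : ZMod P) : |qc x| ≤ 1 := by
  unfold qc
  by_cases h : x = 0
  · subst h; simp
  · rcases quadraticChar_dichotomy h with h | h <;> simp [h]

lemma qc_mul (x y : ZMod P) : qc (x * y) = qc x * qc y := by
  unfold qc
  rw [map_mul]
  push_cast
  rfl

lemma qc_prod {I : Type*} (T : Finset I) (f : I → ZMod P) :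
    qc (∏ i ∈ T, f i) = ∏ i ∈ T, qc (f i) := by
  unfold qc
  rw [map_prod]
  push_cast
  rfl

/-- no nonempty proper subset is invariant under a nonzero translation -/
lemma exists_not_mem (S : Finset (ZMod P)) (hS : S.Nonempty) (hSP : S.card < P) (δ : ZMod P)
    (hδ : δ ≠ 0) : ∃ x ∈ S, x + δ ∉ S := by
  classical
  by_contra hcon
  push Not at hcon
  have h1 : S.image (fun x => x + δ) = S := by
    apply eq_of_subset_of_card_le
    · intro y hy
      rw [mem_image] at hy
      obtain ⟨x, hx, rfl⟩ := hy
      exact hcon x hx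
    · rw [card_image_of_injective _ (add_left_injective δ)]
  have h2 : ∑ x ∈ S, x = ∑ x ∈ S, (x + δ) := by
    conv_lhs => rw [← h1]
    rw [sum_image (fun a _ b _ hab => add_left_injective δ hab)]
  rw [sum_add_distrib, sum_const, nsmul_eq_mul] at h2
  have h3 : (S.card : ZMod P) * δ = 0 := by
    have := h2
    linear_combination -this
  have h4 : (S.card : ZMod P) = 0 := (mul_eq_zero.1 h3).resolve_right hδ
  rw [ZMod.natCast_eq_zero_iff] at h4
  have := Nat.le_of_dvd (card_pos.2 hS) h4
  omega

/-- correlation of two shifts of a product of Legendre symbols -/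
lemma corr (hP2 : P ≠ 2) {K : ℕ} (b : Fin K → ZMod P) (hb : Function.Injective b)
    (S : Finset (Fin K)) (hS : S.Nonempty) (hSP : S.card < P) (a a' : ZMod P) (haa : a ≠ a') :
    |∑ x : ZMod P, (∏ j ∈ S, qc (x + a + b j)) * (∏ j ∈ S, qc (x + a' + b j))| ≤
      2 * K * Real.sqrt P := by
  classical
  set T : Finset (Fin K × Bool) := S ×ˢ univ with hT
  set s : Fin K × Bool → ZMod P := fun w => (if w.2 then a else a') + b w.1 with hs
  set f : (ZMod P)[X] := ∏ w ∈ T, (X + C (s w)) with hf
  have hfe : ∀ x : ZMod P, qc (f.eval x) =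
      (∏ j ∈ S, qc (x + a + b j)) * (∏ j ∈ S, qc (x + a' + b j)) := by
    intro x
    rw [hf, eval_prod, qc_prod, hT, prod_product, ← prod_mul_distrib]
    apply prod_congr rfl
    intro j _
    rw [Fintype.prod_bool]
    simp only [hs, eval_add, eval_X, eval_C, if_true]
    rw [if_neg (by simp)]
    congr 2 <;> ring
  have hdeg : f.natDegree = S.card * 2 := by
    rw [hf, natDegree_prod_of_monic _ _ fun w _ => monic_X_add_C _]
    simp [hT]
  have hSpos : 0 < S.card := card_pos.2 hS
  have hne : ∀ (c : ZMod P) (h : (ZMod P)[X]), f ≠ C c * h ^ 2 := by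
    obtain ⟨y, hy, hy2⟩ := exists_not_mem (S.image b) (hS.image b)
      (by rw [card_image_of_injective _ hb]; exact hSP) (a - a') (sub_ne_zero.2 haa)
    rw [mem_image] at hy
    obtain ⟨j0, hj0, rfl⟩ := hy
    intro c g
    refine prod_ne_sq T s (j0, true) (by simp [hT, hj0]) ?_ c g
    rintro ⟨j, e⟩ hw hne h
    rw [hT, mem_product] at hw
    cases e with
    | true =>
      simp only [hs, if_true] at h
      have h2 : b j = b j0 := by linear_combination h
      exact hne (by rw [hb h2])
    | false =>
      simp only [hs, if_true, Bool.false_eq_true, if_false] at h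
      apply hy2
      rw [mem_image]
      exact ⟨j, hw.1, by linear_combination h⟩
  have hchar : ringChar (ZMod P) ≠ 2 := by
    rw [ZMod.ringChar_zmod_n]; exact hP2
  have hw := Pool.Agent.H341R2.Sharp.weil_sharp hchar f (by omega) hne
  rw [hdeg, ZMod.card] at hw
  have hsum : ∑ x : ZMod P, (quadraticChar (ZMod P) (f.eval x) : ℝ) =
      ∑ x : ZMod P, (∏ j ∈ S, qc (x + a + b j)) * (∏ j ∈ S, qc (x + a' + b j)) :=
    sum_congr rfl fun x _ => hfe x
  rw [hsum] at hw
  refine hw.trans ?_
  apply mul_le_mul_of_nonneg_right _ (Real.sqrt_nonneg _)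
  have h5 : S.card ≤ K := by
    have := card_le_univ S
    simpa using this
  have h6 : (S.card : ℝ) ≤ K := by exact_mod_cast h5
  push_cast
  linarith

/-- the mean square of short sums along a progression -/
lemma mean_sq (hP2 : P ≠ 2) {K : ℕ} (b : Fin K → ZMod P) (hb : Function.Injective b)
    (S : Finset (Fin K)) (hS : S.Nonempty) (hSP : S.card < P) (q s T : ℕ)
    (hqP : Nat.Coprime q P) (hTP : T ≤ P) :
    ∑ x : ZMod P, (∑ k ∈ range T, ∏ j ∈ S, qc (x + ((s + q * k : ℕ) : ZMod P) + b j)) ^ 2 ≤
      T * P + T ^ 2 * (2 * K * Real.sqrt P) := by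
  classical
  have h1 : ∀ x : ZMod P, (∑ k ∈ range T, ∏ j ∈ S,
      qc (x + ((s + q * k : ℕ) : ZMod P) + b j)) ^ 2 =
      ∑ k ∈ range T, ∑ k' ∈ range T, (∏ j ∈ S, qc (x + ((s + q * k : ℕ) : ZMod P) + b j)) *
        (∏ j ∈ S, qc (x + ((s + q * k' : ℕ) : ZMod P) + b j)) := by
    intro x
    rw [sq, sum_mul_sum]
  simp_rw [h1]
  rw [sum_comm]
  have h2 : ∀ k ∈ range T, ∑ x : ZMod P, ∑ k' ∈ range T,
      (∏ j ∈ S, qc (x + ((s + q * k : ℕ) : ZMod P) + b j)) *
        (∏ j ∈ S, qc (x + ((s + q * k' : ℕ) : ZMod P) + b j)) ≤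
      P + T * (2 * K * Real.sqrt P) := by
    intro k hk
    rw [sum_comm, ← add_sum_erase _ _ hk]
    apply add_le_add
    · calc _ ≤ ∑ _x : ZMod P, (1 : ℝ) := by
            apply sum_le_sum
            intro x _
            have h3 : |∏ j ∈ S, qc (x + ((s + q * k : ℕ) : ZMod P) + b j)| ≤ 1 := by
              rw [abs_prod]
              exact prod_le_one (fun _ _ => abs_nonneg _) (fun _ _ => abs_qc_le _)
            have h4 := abs_le.1 h3
            nlinarith
        _ = P := by rw [sum_const, card_univ, ZMod.card]; simp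
    · calc _ ≤ ∑ _k' ∈ (range T).erase k, (2 * K * Real.sqrt P) := by
            apply sum_le_sum
            intro k' hk'
            rw [mem_erase, mem_range] at hk'
            rw [mem_range] at hk
            refine (le_abs_self _).trans (corr hP2 b hb S hS hSP _ _ ?_)
            intro h
            have h5 : ((q * k : ℕ) : ZMod P) = ((q * k' : ℕ) : ZMod P) := by
              push_cast at h ⊢
              linear_combination h
            push_cast at h5
            have hqu : IsUnit (q : ZMod P) := (ZMod.isUnit_iff_coprime q P).2 hqP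
            have h6 := hqu.mul_left_cancel h5
            rw [ZMod.natCast_eq_natCast_iff'] at h6
            rw [Nat.mod_eq_of_lt (by omega), Nat.mod_eq_of_lt (by omega)] at h6
            exact hk'.1 h6.symm
        _ ≤ T * (2 * K * Real.sqrt P) := by
            rw [sum_const, nsmul_eq_mul]
            apply mul_le_mul_of_nonneg_right _ (by positivity)
            have := card_erase_le (s := range T) (a := k)
            rw [card_range] at this
            exact_mod_cast this
  calc _ ≤ ∑ _k ∈ range T, (P + T * (2 * K * Real.sqrt P)) := sum_le_sum h2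
    _ = _ := by
        rw [sum_const, card_range, nsmul_eq_mul]
        ring

end Sq

end Pool.Agent.V1179.MH
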