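import Pool.Agent.V1179.MH.QR1

set_option autoImplicit false

/-! # Good starting points for patterns of Legendre symbols (helper79) -/

namespace Pool.Agent.V1179.MH

open Finset

/-- number of terms of a progression in `[0, H)` -/
def TT (H q s : ℕ) : ℕ := (H + q - 1 - s) / q

lemma lt_TT (H q s k : ℕ) (hq : 1 ≤ q) (hs : s < q) : k < TT H q s ↔ s + q * k < H := by
  unfold TT
  rw [Nat.lt_iff_add_one_le, Nat.le_div_iff_mul_le (by omega)]
  have : (k + 1) * q = q * k + q := by ring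
  rw [this]
  omega

lemma TT_le (H q s : ℕ) (hq : 1 ≤ q) (hs : s < q) : TT H q s ≤ H := by
  by_contra h
  push Not at h
  have := (lt_TT H q s H hq hs).1 h
  nlinarith

lemma TT_bound (H q s : ℕ) (hq : 1 ≤ q) (hs : s < q) : |(TT H q s : ℝ) - H / q| ≤ 1 := by
  have hqR : (0 : ℝ) < q := by exact_mod_cast hq
  have h1 : TT H q s * q ≤ H + q - 1 - s := Nat.div_mul_le_self _ _
  have h2 : H + q - 1 - s < (TT H q s + 1) * q := by
    have := Nat.lt_mul_div_succ (H + q - 1 - s) (show 0 < q by omega)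
    rw [mul_comm]
    exact this
  have h3 : (TT H q s : ℝ) * q ≤ H + q := by
    have : TT H q s * q ≤ H + q := by omega
    exact_mod_cast this
  have h4 : (H : ℝ) ≤ (TT H q s + 1) * q := by
    have : H ≤ (TT H q s + 1) * q := by omega
    exact_mod_cast this
  rw [abs_le]
  constructor
  · have : (H : ℝ) / q ≤ TT H q s + 1 := by rw [div_le_iff₀ hqR]; exact h4
    linarith
  · have : (TT H q s : ℝ) ≤ (H + q) / q := by rw [le_div_iff₀ hqR]; exact h3
    have h5 : ((H : ℝ) + q) / q = H / q + 1 := by field_simp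
    linarith

variable {P : ℕ} [Fact P.Prime]

/-- the sums whose size matters -/
noncomputable def ZZ {K : ℕ} (b : Fin K → ZMod P) (H : ℕ) (j : ℕ × ℕ × Finset (Fin K))
    (x : ZMod P) : ℝ :=
  ∑ k ∈ range (TT H j.1 j.2.1), ∏ i ∈ j.2.2, qc (x + ((j.2.1 + j.1 * k : ℕ) : ZMod P) + b i)

open Classical in
/-- there is a good starting point in every long interval -/
lemma exists_good (hP2 : P ≠ 2) {K : ℕ} (b : Fin K → ZMod P) (hb : Function.Injective b)
    (hKP : K < P) (H Q : ℕ) (hQP : Q < P) (hHP : H ≤ P) (hH : Real.sqrt P ≤ H) (δ : ℝ) (hδ : 0 < δ)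
    (M N : ℕ) (hMN : M + N ≤ P)
    (hN : (Q : ℝ) ^ 2 * 2 ^ K * (δ⁻¹ ^ 2 * ((1 + 2 * K) * Real.sqrt P)) < N) :
    ∃ x : ℕ, M ≤ x ∧ x < M + N ∧ ∀ q s : ℕ, 1 ≤ q → q ≤ Q → s < q → ∀ S : Finset (Fin K),
      S.Nonempty → |ZZ b H (q, s, S) (x : ZMod P)| ≤ δ * H := by
  by_contra hcon
  push Not at hcon
  have hP : P.Prime := Fact.out
  have hP0 : (0 : ℝ) < P := by exact_mod_cast hP.pos
  have hsq : 0 < Real.sqrt P := Real.sqrt_pos.2 hP0
  have hH0 : (0 : ℝ) < H := lt_of_lt_of_le hsq hH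
  set J : Finset (ℕ × ℕ × Finset (Fin K)) :=
    (Icc 1 Q ×ˢ (range Q ×ˢ (univ : Finset (Finset (Fin K))))).filter
      (fun j => j.2.1 < j.1 ∧ j.2.2.Nonempty) with hJ
  set bad : ℕ × ℕ × Finset (Fin K) → Finset (ZMod P) := fun j =>
    univ.filter (fun x => δ * H < |ZZ b H j x|) with hbad
  have hbadcard : ∀ j ∈ J, ((bad j).card : ℝ) ≤ δ⁻¹ ^ 2 * ((1 + 2 * K) * Real.sqrt P) := by
    rintro ⟨q, s, S⟩ hj
    rw [hJ, mem_filter, mem_product, mem_product, mem_Icc] at hj
    obtain ⟨⟨⟨hq1, hq2⟩, -⟩, hsq', hS⟩ := hj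
    simp only at hq1 hq2 hsq' hS
    have hcop : Nat.Coprime q P :=
      (Nat.coprime_of_lt_prime (by omega) (by omega) hP).symm
    have hT : TT H q s ≤ H := TT_le H q s hq1 hsq'
    have hm := mean_sq hP2 b hb S hS (by
      have h5 : S.card ≤ K := by
        have := card_le_univ S
        simpa using this
      omega) q s (TT H q s) hcop (hT.trans hHP)
    have h1 : ((bad (q, s, S)).card : ℝ) * (δ * H) ^ 2 ≤
        ∑ x : ZMod P, (ZZ b H (q, s, S) x) ^ 2 := by
      calc ((bad (q, s, S)).card : ℝ) * (δ * H) ^ 2 = ∑ _x ∈ bad (q, s, S), (δ * H) ^ 2 := by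
            rw [sum_const, nsmul_eq_mul]
        _ ≤ ∑ x ∈ bad (q, s, S), (ZZ b H (q, s, S) x) ^ 2 := by
            apply sum_le_sum
            intro x hx
            rw [hbad, mem_filter] at hx
            rw [← sq_abs (ZZ b H (q, s, S) x)]
            exact pow_le_pow_left₀ (by positivity) hx.2.le 2
        _ ≤ _ := sum_le_sum_of_subset_of_nonneg (subset_univ _) (fun _ _ _ => sq_nonneg _)
    have hTR : (TT H q s : ℝ) ≤ H := by exact_mod_cast hT
    have h2 : ∑ x : ZMod P, (ZZ b H (q, s, S) x) ^ 2 ≤ H * P + H ^ 2 * (2 * K * Real.sqrt P) := by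
      refine hm.trans ?_
      gcongr
    have h3 : (H : ℝ) * P ≤ H ^ 2 * Real.sqrt P := by
      have : (P : ℝ) = Real.sqrt P * Real.sqrt P := (Real.mul_self_sqrt hP0.le).symm
      calc (H : ℝ) * P = H * (Real.sqrt P * Real.sqrt P) := by rw [← this]
        _ ≤ H * (H * Real.sqrt P) := by gcongr
        _ = _ := by ring
    have h4 : ((bad (q, s, S)).card : ℝ) * (δ * H) ^ 2 ≤
        (δ⁻¹ ^ 2 * ((1 + 2 * K) * Real.sqrt P)) * (δ * H) ^ 2 := by
      calc ((bad (q, s, S)).card : ℝ) * (δ * H) ^ 2 ≤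
            H ^ 2 * Real.sqrt P + H ^ 2 * (2 * K * Real.sqrt P) := by linarith
        _ = _ := by field_simp
    exact le_of_mul_le_mul_right h4 (by positivity)
  have hcover : (Ico M (M + N)).image (fun x : ℕ => (x : ZMod P)) ⊆ J.biUnion bad := by
    intro y hy
    rw [mem_image] at hy
    obtain ⟨x, hx, rfl⟩ := hy
    rw [mem_Ico] at hx
    obtain ⟨q, s, hq1, hq2, hs, S, hS, hbig⟩ := hcon x hx.1 hx.2
    rw [mem_biUnion]
    refine ⟨(q, s, S), ?_, ?_⟩
    · rw [hJ, mem_filter, mem_product, mem_product, mem_Icc, mem_range]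
      exact ⟨⟨⟨hq1, hq2⟩, by simp only; omega, mem_univ _⟩, hs, hS⟩
    · rw [hbad, mem_filter]
      exact ⟨mem_univ _, hbig⟩
  have hinj : Set.InjOn (fun x : ℕ => (x : ZMod P)) (Ico M (M + N)) := by
    intro x hx y hy hxy
    rw [mem_coe, mem_Ico] at hx hy
    simp only at hxy
    rw [ZMod.natCast_eq_natCast_iff', Nat.mod_eq_of_lt (by omega), Nat.mod_eq_of_lt (by omega)]
      at hxy
    exact hxy
  have hcount : N ≤ ∑ j ∈ J, (bad j).card := by
    calc N = ((Ico M (M + N)).image (fun x : ℕ => (x : ZMod P))).card := by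
          rw [card_image_of_injOn hinj]; simp
      _ ≤ (J.biUnion bad).card := card_le_card hcover
      _ ≤ _ := card_biUnion_le
  have hJcard : (J.card : ℝ) ≤ (Q : ℝ) ^ 2 * 2 ^ K := by
    have h1 : J.card ≤ (Icc 1 Q ×ˢ (range Q ×ˢ (univ : Finset (Finset (Fin K))))).card :=
      card_filter_le _ _
    rw [card_product, card_product, Nat.card_Icc, card_range, card_univ, Fintype.card_finset,
      Fintype.card_fin] at h1
    have h2 : ((Q + 1 - 1) * (Q * 2 ^ K) : ℕ) = Q ^ 2 * 2 ^ K := by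
      rw [Nat.add_sub_cancel]; ring
    rw [h2] at h1
    exact_mod_cast h1
  have hlast : (N : ℝ) ≤ (Q : ℝ) ^ 2 * 2 ^ K * (δ⁻¹ ^ 2 * ((1 + 2 * K) * Real.sqrt P)) := by
    calc (N : ℝ) ≤ ∑ j ∈ J, ((bad j).card : ℝ) := by exact_mod_cast hcount
      _ ≤ ∑ _j ∈ J, δ⁻¹ ^ 2 * ((1 + 2 * K) * Real.sqrt P) := sum_le_sum hbadcard
      _ = J.card * (δ⁻¹ ^ 2 * ((1 + 2 * K) * Real.sqrt P)) := by rw [sum_const, nsmul_eq_mul]
      _ ≤ _ := by
          apply mul_le_mul_of_nonneg_right hJcard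
          positivity
  linarith

/-- the weighted indicator of a pattern -/
lemma pattern_weight {K : ℕ} (b : Fin K → ZMod P) (ω : Fin K → ℤ) (hω : ∀ j, ω j = 1 ∨ ω j = -1)
    (n : ZMod P) [Decidable (∀ j, quadraticChar (ZMod P) (n + b j) = ω j)]
    [Decidable (∃ j, n + b j = 0)] :
    |(2 : ℝ)⁻¹ ^ K * ∏ j, (1 + (ω j : ℝ) * qc (n + b j)) -
      (if ∀ j, quadraticChar (ZMod P) (n + b j) = ω j then 1 else 0)| ≤
      if ∃ j, n + b j = 0 then 1 else 0 := by
  have hfac : ∀ j, 0 ≤ (1 + (ω j : ℝ) * qc (n + b j)) / 2 ∧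
      (1 + (ω j : ℝ) * qc (n + b j)) / 2 ≤ 1 := by
    intro j
    have h1 := abs_le.1 (abs_qc_le (n + b j))
    rcases hω j with h | h <;> rw [h] <;> push_cast <;> constructor <;> linarith [h1.1, h1.2]
  have hprod : (2 : ℝ)⁻¹ ^ K * ∏ j, (1 + (ω j : ℝ) * qc (n + b j)) =
      ∏ j, ((1 + (ω j : ℝ) * qc (n + b j)) / 2) := by
    rw [prod_div_distrib, prod_const, card_univ, Fintype.card_fin, inv_pow]
    field_simp
  rw [hprod]
  have h0 : 0 ≤ ∏ j, ((1 + (ω j : ℝ) * qc (n + b j)) / 2) := prod_nonneg fun j _ => (hfac j).1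
  have h1 : ∏ j, ((1 + (ω j : ℝ) * qc (n + b j)) / 2) ≤ 1 :=
    prod_le_one (fun j _ => (hfac j).1) fun j _ => (hfac j).2
  by_cases hz : ∃ j, n + b j = 0
  · rw [if_pos hz]
    rw [abs_le]
    split_ifs <;> constructor <;> linarith
  · rw [if_neg hz]
    push Not at hz
    by_cases hp : ∀ j, quadraticChar (ZMod P) (n + b j) = ω j
    · rw [if_pos hp]
      have : ∏ j, ((1 + (ω j : ℝ) * qc (n + b j)) / 2) = 1 := by
        apply prod_eq_one
        intro j _
        unfold qc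
        rw [hp j]
        rcases hω j with h | h <;> rw [h] <;> norm_num
      rw [this]
      simp
    · rw [if_neg hp]
      push Not at hp
      obtain ⟨j, hj⟩ := hp
      have : ∏ j, ((1 + (ω j : ℝ) * qc (n + b j)) / 2) = 0 := by
        apply prod_eq_zero (mem_univ j)
        unfold qc
        rcases hω j with h | h <;> rcases quadraticChar_dichotomy (hz j) with h2 | h2
        · exact absurd (h2.trans h.symm) hj
        · rw [h, h2]; norm_num
        · rw [h, h2]; norm_num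
        · exact absurd (h2.trans h.symm) hj
      rw [this]
      simp

end Pool.Agent.V1179.MH
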