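import Pool.Agent.V1179.MH.QR3

set_option autoImplicit false

/-! # Patterns of Legendre symbols and record prime gaps: the theorem (helper79) -/

namespace Pool.Agent.V1179.MH

open Finset Filter
open Pool.Agent.W147.PS (ff ff_compare ev_pow)

open Classical in
theorem patterns (ε : ℝ) (h0 : 0 < ε) :
    ∃ κ : ℝ, 0 < κ ∧ ∃ c : ℝ, 0 < c ∧ ∃ P₀ : ℕ, ∀ P : ℕ, P₀ ≤ P → ∀ [Fact P.Prime],
    ∀ K : ℕ, (K : ℝ) ≤ c * Real.log P → ∀ b : Fin K → ZMod P, Function.Injective b →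
    ∀ ω : Fin K → ℤ, (∀ j, ω j = 1 ∨ ω j = -1) →
    ∀ M N : ℕ, M + N ≤ P → (P : ℝ) ^ (1 / 2 + ε) ≤ N →
    ∃ n : ℕ, M ≤ n ∧ n < M + N ∧ (∀ j, quadraticChar (ZMod P) ((n : ZMod P) + b j) = ω j) ∧
      ∀ q : ℕ, q.Prime → κ * ff P < |(q : ℝ) - n| := by
  set ε' : ℝ := min ε 1 with hε'
  have hε0 : 0 < ε' := lt_min h0 one_pos
  have hε1 : ε' ≤ 1 := min_le_right _ _
  have hε2 : ε' ≤ ε := min_le_left _ _
  set η : ℝ := ε' / 20 with hη
  have hη0 : 0 < η := by positivity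
  have hη1 : η ≤ 1 / 20 := by rw [hη]; linarith
  obtain ⟨κ, hκ, P₁, hc⟩ := crit_gen 1 0 (by omega) η hη0 (by linarith)
  have hev : ∀ᶠ P : ℝ in atTop, 64 ≤ P ^ η ∧ 2 * (η * Real.log P) + 2 ≤ P ^ η ∧ 64 ≤ P := by
    have h2 := (isLittleO_log_rpow_atTop hη0).def (show (0 : ℝ) < 1 / 2 by norm_num)
    filter_upwards [h2, (tendsto_rpow_atTop hη0).eventually_ge_atTop 64,
      eventually_ge_atTop (64 : ℝ)] with P h4 h5 h6
    have h7 := Real.log_nonneg (show (1 : ℝ) ≤ P by linarith)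
    rw [Real.norm_eq_abs, Real.norm_eq_abs, abs_of_nonneg h7,
      abs_of_nonneg (Real.rpow_nonneg (by linarith) _)] at h4
    refine ⟨h5, ?_, h6⟩
    nlinarith
  obtain ⟨Z, hZ⟩ := eventually_atTop.1 hev
  refine ⟨κ, hκ, η, hη0, max P₁ ⌈Z⌉₊, ?_⟩
  intro P hP hPf K hK b hb ω hω M N hMN hN
  have hPp : P.Prime := hPf.out
  obtain ⟨m1, m2, m3⟩ := hZ P (Nat.ceil_le.1 ((le_max_right _ _).trans hP))
  have hP0 : (0 : ℝ) < P := by linarith
  have hP1 : (1 : ℝ) ≤ P := by linarith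
  have hmono : ∀ x y : ℝ, x ≤ y → (P : ℝ) ^ x ≤ (P : ℝ) ^ y := fun x y h =>
    Real.rpow_le_rpow_of_exponent_le hP1 h
  have hP2 : P ≠ 2 := by
    rintro rfl
    norm_num at m3
  set a : ℝ := (P : ℝ) ^ η with ha
  set σ : ℝ := Real.sqrt P with hσ
  have ha1 : (1 : ℝ) ≤ a := by linarith
  have ha0 : 0 < a := by linarith
  have hapow : ∀ k : ℕ, a ^ k = (P : ℝ) ^ (η * k) := by
    intro k
    rw [ha, ← Real.rpow_natCast, ← Real.rpow_mul hP0.le]
  have haσ : a ^ 10 ≤ σ := by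
    rw [hapow, hσ, Real.sqrt_eq_rpow]
    apply hmono
    push_cast
    linarith
  have haσ1 : a ≤ σ := by
    refine le_trans ?_ haσ
    calc a = a ^ 1 := (pow_one a).symm
      _ ≤ a ^ 10 := pow_le_pow_right₀ ha1 (by norm_num)
  have hσ0 : 0 < σ := by linarith
  have hσ2 : σ * σ = P := Real.mul_self_sqrt hP0.le
  have hNσ : σ * a ^ 20 ≤ N := by
    refine le_trans ?_ hN
    rw [hapow, hσ, Real.sqrt_eq_rpow, ← Real.rpow_add hP0]
    apply hmono
    push_cast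
    rw [hη]
    linarith
  have hKa : 2 * (K : ℝ) + 2 ≤ a := by linarith
  have h2K : (2 : ℝ) ^ K ≤ a := by
    have h3 : (2 : ℝ) ≤ Real.exp 1 := by
      have := Real.exp_one_gt_d9
      linarith
    calc (2 : ℝ) ^ K ≤ (Real.exp 1) ^ K := pow_le_pow_left₀ (by norm_num) h3 K
      _ = Real.exp K := by rw [← Real.exp_nat_mul, mul_one]
      _ ≤ Real.exp (η * Real.log P) := Real.exp_le_exp.2 hK
      _ = a := by rw [ha, Real.rpow_def_of_pos hP0, mul_comm]
  set H : ℕ := ⌈σ⌉₊ with hH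
  have hH1 : σ ≤ H := Nat.le_ceil _
  have hH2 : (H : ℝ) < σ + 1 := Nat.ceil_lt_add_one hσ0.le
  set Q : ℕ := ⌊a⌋₊ with hQ
  have hQ1 : (Q : ℝ) ≤ a := Nat.floor_le ha0.le
  set g : ℕ := ⌈a⌉₊ with hg
  have hg1 : a ≤ g := Nat.le_ceil _
  have hg2 : (g : ℝ) < a + 1 := Nat.ceil_lt_add_one ha0.le
  have hσ64 : 64 ≤ σ := by linarith
  have hHP : H ≤ P := by
    have : (H : ℝ) ≤ P := by nlinarith
    exact_mod_cast this
  have hQP : Q < P := by
    have : (Q : ℝ) < P := by nlinarith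
    exact_mod_cast this
  have hKP : K < P := by
    have : (K : ℝ) < P := by nlinarith
    exact_mod_cast this
  have ha10 : 64 ≤ a ^ 10 := m1.trans (by
    calc a = a ^ 1 := (pow_one a).symm
      _ ≤ a ^ 10 := pow_le_pow_right₀ ha1 (by norm_num))
  have ha20 : a ^ 20 = a ^ 10 * a ^ 10 := by ring
  have hN8 : 8 * σ ≤ N := by
    refine le_trans ?_ hNσ
    rw [mul_comm]
    apply mul_le_mul_of_nonneg_left _ hσ0.le
    rw [ha20]
    nlinarith
  have hghN : g + H ≤ N := by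
    have : ((g + H : ℕ) : ℝ) ≤ N := by push_cast; linarith
    exact_mod_cast this
  have hN' : (N : ℝ) / 2 ≤ ((N - g - H : ℕ) : ℝ) := by
    have h3 : (N - g - H) + (g + H) = N := by omega
    have h4 : ((N - g - H : ℕ) : ℝ) + (g + H) = N := by exact_mod_cast h3
    linarith
  set δ : ℝ := (a ^ 3)⁻¹ with hδ
  have hδ0 : 0 < δ := by positivity
  obtain ⟨x, hx1, hx2, hx3⟩ := exists_good hP2 b hb hKP H Q hQP hHP hH1 δ hδ0 (M + g)
    (N - g - H) (by omega) (by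
      refine lt_of_le_of_lt (b := a ^ 10 * σ) ?_ (lt_of_lt_of_le ?_ hN')
      · have e1 : δ⁻¹ = a ^ 3 := by rw [hδ, inv_inv]
        rw [e1]
        have h3 : (1 + 2 * (K : ℝ)) ≤ a := by linarith
        calc (Q : ℝ) ^ 2 * 2 ^ K * ((a ^ 3) ^ 2 * ((1 + 2 * K) * σ)) ≤
              a ^ 2 * a * ((a ^ 3) ^ 2 * (a * σ)) := by gcongr
          _ = a ^ 10 * σ := by ring
      · rw [lt_div_iff₀ (by norm_num)]
        refine lt_of_lt_of_le ?_ hNσ
        have h3 : 0 < a ^ 10 * σ := by positivity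
        calc a ^ 10 * σ * 2 < a ^ 10 * σ * 64 := by linarith
          _ ≤ a ^ 10 * σ * a ^ 10 := by gcongr
          _ = σ * a ^ 20 := by ring)
  have hxH : x + H ≤ P := by omega
  have hHR0 : (0 : ℝ) < H := by linarith
  set t : Finset ℕ := (Ico x (x + H)).filter (Pat b ω) with ht
  set E : ℝ := δ * H + K + 1 with hE
  have hcount : ∀ q : ℕ, 1 ≤ q → (q : ℝ) ≤ a → ∀ ρ : ℤ,
      |((t.filter (fun n : ℕ => (q : ℤ) ∣ (n : ℤ) - ρ)).card : ℝ) - (2 : ℝ)⁻¹ ^ K * (H / q)| ≤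
        E := by
    intro q hq hqa ρ
    obtain ⟨s, hs, hcl⟩ := class_eq x H q hq ρ
    have hqQ : q ≤ Q := Nat.le_floor hqa
    have h3 := count_pat b ω hω x H hxH q s hq hs (δ * H) (by positivity)
      (fun S hS => hx3 q s hq hqQ hs S hS)
    have h4 : t.filter (fun n : ℕ => (q : ℤ) ∣ (n : ℤ) - ρ) =
        ((range (TT H q s)).image (fun k => x + (s + q * k))).filter (Pat b ω) := by
      rw [← hcl, ht, filter_filter, filter_filter]
      apply filter_congr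
      intro n _
      tauto
    rw [h4]
    have h5 := TT_bound H q s hq hs
    have h6 : |(2 : ℝ)⁻¹ ^ K * (TT H q s : ℝ) - (2 : ℝ)⁻¹ ^ K * (H / q)| ≤ 1 := by
      rw [← mul_sub, abs_mul, abs_of_nonneg (by positivity)]
      have h7 : (2 : ℝ)⁻¹ ^ K ≤ 1 := pow_le_one₀ (by norm_num) (by norm_num)
      calc (2 : ℝ)⁻¹ ^ K * |(TT H q s : ℝ) - H / q| ≤ 1 * 1 := by gcongr
        _ = 1 := one_mul 1
    have h7 := abs_sub_le
      ((((range (TT H q s)).image (fun k => x + (s + q * k))).filter (Pat b ω)).card : ℝ)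
      ((2 : ℝ)⁻¹ ^ K * (TT H q s : ℝ)) ((2 : ℝ)⁻¹ ^ K * (H / q))
    rw [hE]
    linarith
  have htcard : |(t.card : ℝ) - (2 : ℝ)⁻¹ ^ K * H| ≤ E := by
    have h3 := hcount 1 le_rfl (by push_cast; exact ha1) 0
    have h4 : t.filter (fun n : ℕ => ((1 : ℕ) : ℤ) ∣ (n : ℤ) - 0) = t := by
      apply filter_true_of_mem
      intro n _
      simp
    rw [h4] at h3
    simpa using h3
  have hEb : E ≤ 2 * H / a ^ 3 := by
    have h3 : a * a ^ 3 ≤ H := by
      calc a * a ^ 3 = a ^ 4 := by ring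
        _ ≤ a ^ 10 := pow_le_pow_right₀ ha1 (by norm_num)
        _ ≤ H := haσ.trans hH1
    have h4 : a ≤ H / a ^ 3 := by rw [le_div_iff₀ (by positivity)]; exact h3
    have h5 : δ * H = H / a ^ 3 := by rw [hδ, inv_mul_eq_div]
    have h6 : 2 * (H : ℝ) / a ^ 3 = H / a ^ 3 + H / a ^ 3 := by ring
    have hK0 : (0 : ℝ) ≤ K := Nat.cast_nonneg _
    rw [hE, h5, h6]
    linarith
  have hK2 : a⁻¹ ≤ (2 : ℝ)⁻¹ ^ K := by
    rw [inv_pow]
    exact inv_anti₀ (by positivity) h2K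
  have htlow : H / a - 2 * H / a ^ 3 ≤ t.card := by
    have h3 := (abs_le.1 htcard).1
    have h4 : a⁻¹ * (H : ℝ) ≤ (2 : ℝ)⁻¹ ^ K * H := mul_le_mul_of_nonneg_right hK2 hHR0.le
    have h5 : (H : ℝ) / a = a⁻¹ * H := by rw [inv_mul_eq_div]
    rw [h5]
    linarith
  have hfin : 2 * E ≤ t.card * a⁻¹ := by
    have h3 : (H / a - 2 * H / a ^ 3) * a⁻¹ ≤ t.card * a⁻¹ :=
      mul_le_mul_of_nonneg_right htlow (by positivity)
    refine le_trans ?_ h3
    have h4 : 2 * E ≤ 4 * H / a ^ 3 := by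
      have : 4 * (H : ℝ) / a ^ 3 = 2 * (2 * H / a ^ 3) := by ring
      rw [this]
      linarith
    refine h4.trans ?_
    have h5 : (H / a - 2 * H / a ^ 3) * a⁻¹ = H * (a ^ 2 - 2) / a ^ 4 := by
      field_simp
    rw [h5, div_le_div_iff₀ (by positivity) (by positivity)]
    have h6 : 4 * a ≤ a ^ 2 - 2 := by nlinarith
    have h7 : 0 ≤ (H : ℝ) * a ^ 3 := by positivity
    calc 4 * (H : ℝ) * a ^ 4 = (H * a ^ 3) * (4 * a) := by ring
      _ ≤ (H * a ^ 3) * (a ^ 2 - 2) := mul_le_mul_of_nonneg_left h6 h7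
      _ = H * (a ^ 2 - 2) * a ^ 3 := by ring
  have htpos : 0 < t.card := by
    have h3 : 0 < H / a - 2 * H / a ^ 3 := by
      have h5 : H / a - 2 * H / a ^ 3 = H * (a ^ 2 - 2) / a ^ 3 := by
        field_simp
      rw [h5]
      have h6 : 0 < a ^ 2 - 2 := by nlinarith
      positivity
    have : (0 : ℝ) < t.card := lt_of_lt_of_le h3 htlow
    exact_mod_cast this
  have : NeZero P := ⟨hPp.ne_zero⟩
  obtain ⟨n, hn, hn1, -⟩ := hc P ((le_max_left _ _).trans hP) hPp ℕ t (fun n _ => (n : ℤ))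
    (fun _ j => j.elim0) 0 le_rfl (by
      intro q hq hqa ρ
      constructor
      · have h3 : t.filter (fun n : ℕ => ∀ j : Fin 1, (q : ℤ) ∣ (fun (n : ℕ) (_ : Fin 1) =>
            (n : ℤ)) n j - ρ j) = t.filter (fun n : ℕ => (q : ℤ) ∣ (n : ℤ) - ρ 0) := by
          apply filter_congr
          intro n _
          rw [Fin.forall_fin_one]
        rw [h3, pow_one, Real.rpow_neg hP0.le, ← ha]
        have hqR : (1 : ℝ) ≤ q := by exact_mod_cast hq
        have hqR0 : (0 : ℝ) < q := by linarith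
        have h4 := hcount q hq hqa (ρ 0)
        have h5 : |(2 : ℝ)⁻¹ ^ K * (H / q) - t.card / q| ≤ E := by
          have e : (2 : ℝ)⁻¹ ^ K * (H / q) - t.card / q =
              -((t.card - (2 : ℝ)⁻¹ ^ K * H) / q) := by
            field_simp
            ring
          rw [e, abs_neg, abs_div, abs_of_pos hqR0]
          exact (div_le_self (abs_nonneg _) hqR).trans htcard
        refine le_trans (abs_sub_le _ ((2 : ℝ)⁻¹ ^ K * (H / q)) _) ?_
        linarith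
      · intro h hh
        exact absurd (Subsingleton.elim h 0) hh)
    (by
      intro n hn j
      rw [ht, mem_filter, mem_Ico] at hn
      have h3 : g ≤ n := by omega
      have h4 : (g : ℝ) ≤ (n : ℝ) := by exact_mod_cast h3
      push_cast
      linarith)
    (fun j => j.elim0) (fun j => j.elim0) (fun j => j.elim0) (fun j => j.elim0)
    (fun j => j.elim0) htpos (by
      rw [zero_mul]
      positivity)
  rw [ht, mem_filter, mem_Ico] at hn
  refine ⟨n, by omega, by omega, hn.2, ?_⟩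
  intro q hq
  have := hn1 0 q hq
  simpa using this

end Pool.Agent.V1179.MH
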