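import Pool.Agent.Y961.JR.Count

set_option autoImplicit false

/-! # Colours given by sets of residue vectors

A family of integer vectors `u x` that is well distributed in the residue classes, and for every
prime `p` and every colour `c` a set `R p c` of residue vectors modulo `p`, with the same number
`G p` of elements for all colours.  Here: the joint distribution of the colours at several primes. -/

namespace Pool.Agent.V1179.MH.SF

open Finset
open Pool.Agent.H256R2.SC (crt_int)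
open Pool.Agent.Y961.JR (dvd_iff_emod)
open scoped Classical

section

variable {n : ℕ} {κ : Type}

/-- the colour given by sets of residue vectors -/
noncomputable def colF (R : ℕ → κ → Finset (Fin n → ℤ)) (w : Fin n → ℤ) (p : ℕ) : Option κ :=
  if h : ∃ c, (fun j => w j % (p : ℤ)) ∈ R p c then some h.choose else none

lemma colF_eq {R : ℕ → κ → Finset (Fin n → ℤ)} {w : Fin n → ℤ} {p : ℕ} {c : κ}
    (hd : ∀ c c', c ≠ c' → Disjoint (R p c) (R p c')) :
    colF R w p = some c ↔ (fun j => w j % (p : ℤ)) ∈ R p c := by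
  unfold colF
  constructor
  · intro h
    split_ifs at h with h1
    rw [← Option.some.inj h]
    exact h1.choose_spec
  · intro h
    have h1 : ∃ c, (fun j => w j % (p : ℤ)) ∈ R p c := ⟨c, h⟩
    rw [dif_pos h1]
    congr 1
    by_contra hne
    exact Finset.disjoint_left.mp (hd _ _ hne) h1.choose_spec h

theorem countF {ι : Type} (𝒜 : Finset ι) (v : ι → Fin n → ℤ) (R : ℕ → κ → Finset (Fin n → ℤ))
    (G : ℕ → ℕ) (N Err Q lb : ℝ) (hErr : 0 ≤ Err)
    (hcount : ∀ q : ℕ, Squarefree q → (q : ℝ) ≤ Q → (∀ p ∈ q.primeFactors, lb < p) →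
      ∀ ρ : Fin n → ℤ, |((𝒜.filter (fun x => ∀ j, (q : ℤ) ∣ v x j - ρ j)).card : ℝ) -
        N / (q : ℝ) ^ n| ≤ Err) (S : Finset ℕ) :
    ∀ (T : Finset ℕ), (∀ p ∈ S, p.Prime ∧ lb < p) →
    (∀ p ∈ S, ∀ c c', c ≠ c' → Disjoint (R p c) (R p c')) →
    (∀ p ∈ S, ∀ c, (R p c).card = G p) → (∀ p ∈ S, G p ≤ p ^ (n - 1)) →
    (∀ p ∈ S, ∀ c, ∀ ρ ∈ R p c, ∀ j, 0 ≤ ρ j ∧ ρ j < (p : ℤ)) →
    (∀ p ∈ T, p.Prime ∧ lb < p) → Disjoint S T →
    (∏ p ∈ S, (p : ℝ)) * (∏ p ∈ T, (p : ℝ)) ≤ Q →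
    ∀ (D : ℕ → Option κ), (∀ p ∈ S, D p ≠ none) → ∀ (τ : ℕ → Fin n → ℤ),
    |((𝒜.filter (fun x => (∀ p ∈ S, colF R (v x) p = D p) ∧
        ∀ p ∈ T, ∀ j, (p : ℤ) ∣ v x j - τ p j)).card : ℝ) -
      N * (∏ p ∈ S, (G p : ℝ) / (p : ℝ) ^ n) * ∏ p ∈ T, (1 / (p : ℝ) ^ n)| ≤
      Err * ∏ p ∈ S, (p : ℝ) ^ (n - 1) := by
  induction S using Finset.induction_on with
  | empty =>
    intro T _ _ _ _ _ hT _ hQ D _ τ
    have hcop : ∀ p ∈ T, ∀ q ∈ T, p ≠ q → IsCoprime (p : ℤ) (q : ℤ) := fun p hp q hq hpq =>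
      Nat.isCoprime_iff_coprime.mpr ((Nat.coprime_primes (hT p hp).1 (hT q hq).1).mpr hpq)
    have h1 : ∀ j : Fin n, ∃ ρ : ℤ, ∀ p ∈ T, (p : ℤ) ∣ ρ - τ p j := fun j =>
      crt_int T (fun p => (p : ℤ)) hcop (fun p => τ p j)
    choose ρ hρ using h1
    set q : ℕ := ∏ p ∈ T, p with hq
    have hqr : (q : ℝ) = ∏ p ∈ T, (p : ℝ) := by rw [hq]; push_cast; rfl
    have hsq : Squarefree q := by
      rw [hq]
      refine Finset.squarefree_prod_of_pairwise_isCoprime ?_ ?_
      · intro p hp p' hp' hpp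
        exact Nat.coprime_iff_isRelPrime.mp ((Nat.coprime_primes (hT p hp).1 (hT p' hp').1).mpr hpp)
      · intro p hp
        exact (hT p hp).1.squarefree
    have h2 : (𝒜.filter (fun x => (∀ p ∈ (∅ : Finset ℕ), colF R (v x) p = D p) ∧
        ∀ p ∈ T, ∀ j, (p : ℤ) ∣ v x j - τ p j)) =
        𝒜.filter (fun x => ∀ j, (q : ℤ) ∣ v x j - ρ j) := by
      apply Finset.filter_congr
      intro x _
      constructor
      · rintro ⟨_, h⟩ j
        have e : ((q : ℕ) : ℤ) = ∏ p ∈ T, (p : ℤ) := by rw [hq]; push_cast; rfl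
        rw [e]
        apply Finset.prod_dvd_of_coprime
        · intro p hp p' hp' hpp
          exact hcop p hp p' hp' hpp
        · intro p hp
          have h3 := dvd_sub (h p hp j) (hρ j p hp)
          have e2 : v x j - τ p j - (ρ j - τ p j) = v x j - ρ j := by ring
          rwa [e2] at h3
      · intro h
        refine ⟨by simp, fun p hp j => ?_⟩
        have h3 : (p : ℤ) ∣ (q : ℤ) := by
          exact_mod_cast Finset.dvd_prod_of_mem (fun p => p) hp
        have h4 := dvd_add (h3.trans (h j)) (hρ j p hp)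
        have e2 : v x j - ρ j + (ρ j - τ p j) = v x j - τ p j := by ring
        rwa [e2] at h4
    rw [h2]
    have h3 := hcount q hsq (by rw [hqr]; simpa using hQ) (by
      intro p hp
      rw [Nat.mem_primeFactors] at hp
      obtain ⟨p', hp', hd⟩ := (Prime.dvd_finsetProd_iff hp.1.prime _).mp hp.2.1
      rw [(Nat.prime_dvd_prime_iff_eq hp.1 (hT p' hp').1).mp hd]
      exact (hT p' hp').2) ρ
    have h4 : N * (∏ p ∈ (∅ : Finset ℕ), (G p : ℝ) / (p : ℝ) ^ n) * ∏ p ∈ T, (1 / (p : ℝ) ^ n) =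
        N / (q : ℝ) ^ n := by
      rw [Finset.prod_empty, mul_one, Finset.prod_div_distrib, Finset.prod_const_one,
        Finset.prod_pow, ← hqr]
      ring
    rw [h4]
    simpa using h3
  | insert p S hpS ih =>
    intro T hS hdj hG hGle hrange hT hdisj hQ D hD τ
    have hpp := hS p (Finset.mem_insert_self _ _)
    have hp0 : 0 < p := hpp.1.pos
    have hp0' : (0 : ℝ) < p := by exact_mod_cast hp0
    have hdp := hdj p (Finset.mem_insert_self _ _)
    have hrp := hrange p (Finset.mem_insert_self _ _)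
    obtain ⟨c, hc⟩ := Option.ne_none_iff_exists'.mp (hD p (Finset.mem_insert_self _ _))
    have hpT : p ∉ T := Finset.disjoint_left.mp hdisj (Finset.mem_insert_self _ _)
    set F := 𝒜.filter (fun x => (∀ p' ∈ insert p S, colF R (v x) p' = D p') ∧
        ∀ p' ∈ T, ∀ j, (p' : ℤ) ∣ v x j - τ p' j) with hF
    -- fibres
    have hmap : ∀ x ∈ F, (fun j => v x j % (p : ℤ)) ∈ R p c := by
      intro x hx
      rw [hF, Finset.mem_filter] at hx
      have h1 := hx.2.1 p (Finset.mem_insert_self _ _)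
      rw [hc, colF_eq hdp] at h1
      exact h1
    have hcard := Finset.card_eq_sum_card_fiberwise (s := F) (t := R p c)
      (f := fun x j => v x j % (p : ℤ)) hmap
    have hfib : ∀ ρ ∈ R p c, (F.filter (fun x => (fun j => v x j % (p : ℤ)) = ρ)) =
        𝒜.filter (fun x => (∀ p' ∈ S, colF R (v x) p' = D p') ∧
          ∀ p' ∈ insert p T, ∀ j, (p' : ℤ) ∣ v x j - (Function.update τ p ρ) p' j) := by
      intro ρ hρ
      rw [hF, Finset.filter_filter]
      apply Finset.filter_congr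
      intro x _
      constructor
      · rintro ⟨⟨h1, h2⟩, h3⟩
        refine ⟨fun p' hp' => h1 p' (Finset.mem_insert_of_mem hp'), ?_⟩
        intro p' hp' j
        rcases Finset.mem_insert.mp hp' with rfl | hp'
        · rw [Function.update_self]
          obtain ⟨e1, e2⟩ := hrp c ρ hρ j
          rw [dvd_iff_emod hp0 _ _ e1 e2]
          exact congrFun h3 j
        · have hne : p' ≠ p := fun h => hpT (h ▸ hp')
          rw [Function.update_of_ne hne]
          exact h2 p' hp' j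
      · rintro ⟨h1, h2⟩
        have h3 : (fun j => v x j % (p : ℤ)) = ρ := by
          funext j
          have h4 := h2 p (Finset.mem_insert_self _ _) j
          rw [Function.update_self] at h4
          obtain ⟨e1, e2⟩ := hrp c ρ hρ j
          rwa [dvd_iff_emod hp0 _ _ e1 e2] at h4
        refine ⟨⟨?_, ?_⟩, h3⟩
        · intro p' hp'
          rcases Finset.mem_insert.mp hp' with rfl | hp'
          · rw [hc, colF_eq hdp, h3]
            exact hρ
          · exact h1 p' hp'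
        · intro p' hp' j
          have h4 := h2 p' (Finset.mem_insert_of_mem hp') j
          have hne : p' ≠ p := fun h => hpT (h ▸ hp')
          rwa [Function.update_of_ne hne] at h4
    have hdisj' : Disjoint S (insert p T) := by
      rw [Finset.disjoint_insert_right]
      exact ⟨hpS, (Finset.disjoint_insert_left.mp hdisj).2⟩
    have hih : ∀ ρ : Fin n → ℤ, _ := fun ρ =>
      ih (insert p T) (fun p' hp' => hS p' (Finset.mem_insert_of_mem hp'))
      (fun p' hp' => hdj p' (Finset.mem_insert_of_mem hp'))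
      (fun p' hp' => hG p' (Finset.mem_insert_of_mem hp'))
      (fun p' hp' => hGle p' (Finset.mem_insert_of_mem hp'))
      (fun p' hp' => hrange p' (Finset.mem_insert_of_mem hp'))
      (fun p' hp' => by
        rcases Finset.mem_insert.mp hp' with rfl | hp'
        · exact hpp
        · exact hT p' hp') hdisj'
      (by
        rw [Finset.prod_insert hpT]
        rw [Finset.prod_insert hpS] at hQ
        calc _ = (p : ℝ) * (∏ p ∈ S, (p : ℝ)) * ∏ p ∈ T, (p : ℝ) := by ring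
          _ ≤ _ := hQ) D
      (fun p' hp' => hD p' (Finset.mem_insert_of_mem hp')) (Function.update τ p ρ)
    rw [hcard]
    push_cast
    rw [Finset.sum_congr rfl fun ρ hρ => by rw [hfib ρ hρ]]
    -- the main term
    have hR : ((R p c).card : ℝ) = (G p : ℝ) := by
      rw [hG p (Finset.mem_insert_self _ _) c]
    have hR2 : ((R p c).card : ℝ) ≤ (p : ℝ) ^ (n - 1) := by
      rw [hR]
      exact_mod_cast hGle p (Finset.mem_insert_self _ _)
    have hmain : N * (∏ p' ∈ insert p S, (G p' : ℝ) / (p' : ℝ) ^ n) *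
          ∏ p' ∈ T, (1 / (p' : ℝ) ^ n) =
        ∑ _ρ ∈ R p c, N * (∏ p' ∈ S, (G p' : ℝ) / (p' : ℝ) ^ n) *
          ∏ p' ∈ insert p T, (1 / (p' : ℝ) ^ n) := by
      rw [Finset.sum_const, nsmul_eq_mul, hR, Finset.prod_insert hpS, Finset.prod_insert hpT]
      ring
    rw [hmain, ← Finset.sum_sub_distrib]
    refine (Finset.abs_sum_le_sum_abs _ _).trans ?_
    refine (Finset.sum_le_sum fun ρ _ => hih ρ).trans ?_
    rw [Finset.sum_const, nsmul_eq_mul, Finset.prod_insert hpS]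
    have hpos : 0 ≤ ∏ p ∈ S, (p : ℝ) ^ (n - 1) :=
      Finset.prod_nonneg fun _ _ => pow_nonneg (Nat.cast_nonneg _) _
    calc ((R p c).card : ℝ) * (Err * ∏ p ∈ S, (p : ℝ) ^ (n - 1))
        ≤ (p : ℝ) ^ (n - 1) * (Err * ∏ p ∈ S, (p : ℝ) ^ (n - 1)) := by gcongr
      _ = _ := by ring

theorem countF₀ {ι : Type} (𝒜 : Finset ι) (v : ι → Fin n → ℤ)
    (R : ℕ → κ → Finset (Fin n → ℤ))
    (G : ℕ → ℕ) (N Err Q lb : ℝ) (hErr : 0 ≤ Err)
    (hcount : ∀ q : ℕ, Squarefree q → (q : ℝ) ≤ Q → (∀ p ∈ q.primeFactors, lb < p) →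
      ∀ ρ : Fin n → ℤ, |((𝒜.filter (fun x => ∀ j, (q : ℤ) ∣ v x j - ρ j)).card : ℝ) -
        N / (q : ℝ) ^ n| ≤ Err) (S : Finset ℕ) (hS : ∀ p ∈ S, p.Prime ∧ lb < p)
    (hd : ∀ p ∈ S, ∀ c c', c ≠ c' → Disjoint (R p c) (R p c'))
    (hG : ∀ p ∈ S, ∀ c, (R p c).card = G p) (hGle : ∀ p ∈ S, G p ≤ p ^ (n - 1))
    (hr : ∀ p ∈ S, ∀ c, ∀ ρ ∈ R p c, ∀ j, 0 ≤ ρ j ∧ ρ j < (p : ℤ))
    (hQ : (∏ p ∈ S, (p : ℝ)) ≤ Q) (D : ℕ → Option κ) (hD : ∀ p ∈ S, D p ≠ none) :
    |((𝒜.filter (fun x => ∀ p ∈ S, colF R (v x) p = D p)).card : ℝ) -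
      N * (∏ p ∈ S, (G p : ℝ) / (p : ℝ) ^ n)| ≤ Err * ∏ p ∈ S, (p : ℝ) ^ (n - 1) := by
  have h5 := countF 𝒜 v R G N Err Q lb hErr hcount S ∅ hS hd hG hGle hr
    (by simp) (Finset.disjoint_empty_right _) (by simpa using hQ) D hD (fun _ _ => 0)
  have h6 : (𝒜.filter (fun x => (∀ p ∈ S, colF R (v x) p = D p) ∧
      ∀ p ∈ (∅ : Finset ℕ), ∀ j : Fin n, (p : ℤ) ∣ v x j - 0)) =
      𝒜.filter (fun x => ∀ p ∈ S, colF R (v x) p = D p) := by
    apply Finset.filter_congr
    intro x _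
    simp
  rw [Finset.prod_empty, mul_one] at h5
  rw [← h6]
  exact h5

end

end Pool.Agent.V1179.MH.SF
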