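import Pool.Agent.V1179.MH.SF1
import Pool.Agent.Y961.JR.Abs
import Pool.Agent.TH915.PW.Crit

set_option autoImplicit false

/-! # The criterion for families of polynomial values

`F` is a family of `r` functions of `n` integer variables (with integer values, compatible with
congruences).  Locally (modulo large primes) the values are almost independent, and modulo all
small primes together all the values can be made equal to any given integer.  Then in every
well-distributed family of parameter vectors there is one all of whose `r` values are isolated. -/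

namespace Pool.Agent.V1179.MH.SF

open Finset Filter
open Pool.Agent.H256R2.SC (ff params survivors)
open Pool.Agent.TH915.PW (crt_small)
open Pool.Agent.Y961.JR (Hit Hit.unique coverAbs)

open scoped Classical

/-- residue vectors modulo `p` -/
noncomputable def boxF (n p : ℕ) : Finset (Fin n → ℤ) := Fintype.piFinset (fun _ => Finset.Ico 0 (p : ℤ))

lemma mem_boxF {n p : ℕ} {ρ : Fin n → ℤ} : ρ ∈ boxF n p ↔ ∀ j, 0 ≤ ρ j ∧ ρ j < (p : ℤ) := by
  simp [boxF, Fintype.mem_piFinset]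

/-- the local counts give enough residue vectors for every colour -/
lemma local_count {n r : ℕ} (F : (Fin n → ℤ) → Fin r → ℤ) {κ : Type} [Fintype κ] (p : ℕ)
    (res : ℕ → κ → ℤ) (A B : ℝ) (hB0 : 0 ≤ B)
    (hone : ∀ i a, A ≤ (((boxF n p).filter (fun ρ => (p : ℤ) ∣ F ρ i - a)).card : ℝ))
    (htwo : ∀ i j, i ≠ j → ∀ a b, (((boxF n p).filter (fun ρ => (p : ℤ) ∣ F ρ i - a ∧
      (p : ℤ) ∣ F ρ j - b)).card : ℝ) ≤ B) (c : Fin r × κ) :
    A - r * Fintype.card κ * B ≤
      (((boxF n p).filter (fun ρ => Hit res (F ρ) p c)).card : ℝ) := by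
  have h1 : (boxF n p).filter (fun ρ => (p : ℤ) ∣ F ρ c.1 - res p c.2) ⊆
      ((boxF n p).filter (fun ρ => Hit res (F ρ) p c)) ∪
      ((Finset.univ : Finset (Fin r × κ)).filter (fun d => d.1 ≠ c.1)).biUnion (fun d =>
        (boxF n p).filter (fun ρ => (p : ℤ) ∣ F ρ c.1 - res p c.2 ∧
          (p : ℤ) ∣ F ρ d.1 - res p d.2)) := by
    intro ρ hρ
    rw [Finset.mem_filter] at hρ
    rw [Finset.mem_union]
    by_cases h : Hit res (F ρ) p c
    · left
      exact Finset.mem_filter.mpr ⟨hρ.1, h⟩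
    · right
      have h2 : ∃ j, j ≠ c.1 ∧ ∃ k, (p : ℤ) ∣ F ρ j - res p k := by
        by_contra hcon
        push Not at hcon
        exact h ⟨hρ.2, hcon⟩
      obtain ⟨j, hj, k, hk⟩ := h2
      rw [Finset.mem_biUnion]
      exact ⟨(j, k), Finset.mem_filter.mpr ⟨Finset.mem_univ _, hj⟩,
        Finset.mem_filter.mpr ⟨hρ.1, hρ.2, hk⟩⟩
  have h2 := (Finset.card_le_card h1).trans ((Finset.card_union_le _ _).trans
    (Nat.add_le_add_left Finset.card_biUnion_le _))
  have h3 : (((boxF n p).filter (fun ρ => (p : ℤ) ∣ F ρ c.1 - res p c.2)).card : ℝ) ≤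
      (((boxF n p).filter (fun ρ => Hit res (F ρ) p c)).card : ℝ) +
      ∑ d ∈ (Finset.univ : Finset (Fin r × κ)).filter (fun d => d.1 ≠ c.1),
        (((boxF n p).filter (fun ρ => (p : ℤ) ∣ F ρ c.1 - res p c.2 ∧
          (p : ℤ) ∣ F ρ d.1 - res p d.2)).card : ℝ) := by
    exact_mod_cast h2
  have h4 : ∑ d ∈ (Finset.univ : Finset (Fin r × κ)).filter (fun d => d.1 ≠ c.1),
      (((boxF n p).filter (fun ρ => (p : ℤ) ∣ F ρ c.1 - res p c.2 ∧
        (p : ℤ) ∣ F ρ d.1 - res p d.2)).card : ℝ) ≤ r * Fintype.card κ * B := by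
    calc _ ≤ ∑ _d ∈ (Finset.univ : Finset (Fin r × κ)).filter (fun d => d.1 ≠ c.1), B := by
          apply Finset.sum_le_sum
          intro d hd
          exact htwo c.1 d.1 (Ne.symm (Finset.mem_filter.mp hd).2) _ _
      _ = (((Finset.univ : Finset (Fin r × κ)).filter (fun d => d.1 ≠ c.1)).card : ℝ) * B := by
          rw [Finset.sum_const, nsmul_eq_mul]
      _ ≤ ((Finset.univ : Finset (Fin r × κ)).card : ℝ) * B := by
          apply mul_le_mul_of_nonneg_right _ hB0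
          exact_mod_cast Finset.card_filter_le _ _
      _ = _ := by
          rw [Finset.card_univ, Fintype.card_prod, Fintype.card_fin]
          push_cast
          ring
  linarith [hone c.1 (res p c.2)]

/-- families of values: the criterion -/
theorem critF (n r : ℕ) (hn : 1 ≤ n) (hr : 1 ≤ r) (C : ℝ) (hC : 0 ≤ C) :
    ∃ κ : ℝ, 0 < κ ∧ ∀ P₀ : ℝ, ∃ X₀ : ℝ, ∀ X : ℝ, X₀ ≤ X →
    κ * ff X + 1 ≤ (Real.log X) ^ 2 ∧
    ∀ (F : (Fin n → ℤ) → Fin r → ℤ),
    (∀ q : ℕ, ∀ ρ ρ' : Fin n → ℤ, (∀ j, (q : ℤ) ∣ ρ j - ρ' j) →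
      ∀ i, (q : ℤ) ∣ F ρ i - F ρ' i) →
    (∀ q : ℕ, Squarefree q → ∀ e : ℤ, ∃ ρ : Fin n → ℤ, ∀ i, (q : ℤ) ∣ F ρ i - e) →
    (∀ p : ℕ, p.Prime → P₀ < p → ∀ i a, (p : ℝ) ^ (n - 1) * (1 - C / p) ≤
      (((boxF n p).filter (fun ρ => (p : ℤ) ∣ F ρ i - a)).card : ℝ)) →
    (∀ p : ℕ, p.Prime → P₀ < p → ∀ i j, i ≠ j → ∀ a b,
      (((boxF n p).filter (fun ρ => (p : ℤ) ∣ F ρ i - a ∧ (p : ℤ) ∣ F ρ j - b)).card : ℝ) ≤
        (p : ℝ) ^ (n - 1) * (C / p)) →
    ∀ (ι : Type) (s : Finset ι) (v : ι → Fin n → ℤ), s.Nonempty →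
    (∀ q : ℕ, 1 ≤ q → (q : ℝ) ≤ X ^ (2 / 5 : ℝ) →
      ∀ ρ : Fin n → ℤ, |((s.filter (fun i => ∀ j, (q : ℤ) ∣ v i j - ρ j)).card : ℝ) -
        s.card / (q : ℝ) ^ n| ≤ s.card * X ^ (-(2 * (n : ℝ)))) →
    ∃ i ∈ s, ∀ j, ∀ m : ℤ, |(m : ℝ) - F (v i) j| ≤ κ * ff X + 1 →
      ∃ p : ℕ, p.Prime ∧ (p : ℝ) ≤ X ^ (1 / 10 : ℝ) ∧ (p : ℤ) ∣ m := by
  obtain ⟨c₀, hc₀, X₁, hcov⟩ := coverAbs
  set c₁ : ℝ := min c₀ (1 / (4 * (C + 1))) with hc₁'
  have hc₁ : 0 < c₁ := lt_min hc₀ (by positivity)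
  have hc₁0 : c₁ ≤ c₀ := min_le_left _ _
  have hc₁2 : c₁ ≤ 1 / (4 * (C + 1)) := min_le_right _ _
  have hn0 : (0 : ℝ) < n := by exact_mod_cast hn
  have hn1 : (1 : ℝ) ≤ n := by exact_mod_cast hn
  have hr0 : (0 : ℝ) < r := by exact_mod_cast hr
  have hr1 : (1 : ℝ) ≤ r := by exact_mod_cast hr
  obtain ⟨c, hc, X₂, hpar⟩ := params survivors (c₁ / r) (by positivity)
  have hlogx : ∀ᶠ X : ℝ in atTop, Real.log X / 10 ≤ X ^ (1 / 10 : ℝ) := by
    have h := (isLittleO_log_rpow_atTop (show (0 : ℝ) < 1 / 10 by norm_num)).def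
      (show (0 : ℝ) < 1 by norm_num)
    filter_upwards [h, eventually_ge_atTop (1 : ℝ)] with X hX hX1
    rw [Real.norm_eq_abs, abs_of_nonneg (Real.log_nonneg hX1), Real.norm_eq_abs,
      abs_of_nonneg (Real.rpow_nonneg (by linarith) _)] at hX
    have := Real.log_nonneg hX1
    linarith
  obtain ⟨X₃, hX₃⟩ := eventually_atTop.mp hlogx
  refine ⟨c / 4, by positivity, fun P₀ => ?_⟩
  have hL16 : ∀ᶠ X : ℝ in atTop, 160 + 4 * C + |P₀| ≤ Real.log X :=
    Real.tendsto_log_atTop.eventually_ge_atTop _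
  obtain ⟨X₄, hX₄⟩ := eventually_atTop.mp hL16
  refine ⟨max (max X₁ X₂) (max X₃ (max X₄ 1)), ?_⟩
  intro X hX
  have hXX1 : X₁ ≤ X := ((le_max_left _ _).trans (le_max_left _ _)).trans hX
  have hXX2 : X₂ ≤ X := ((le_max_right _ _).trans (le_max_left _ _)).trans hX
  have hXX3 : X₃ ≤ X := ((le_max_left _ _).trans (le_max_right _ _)).trans hX
  have hXX4 : X₄ ≤ X := (((le_max_left _ _).trans (le_max_right _ _)).trans
    (le_max_right _ _)).trans hX
  have hX1 : 1 ≤ X := (((le_max_right _ _).trans (le_max_right _ _)).trans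
    (le_max_right _ _)).trans hX
  have hX0 : 0 < X := by linarith
  obtain ⟨hX1000, hLlog, hLge, hprim, b, hb1, hb2⟩ := hpar X hXX2
  have h3 := hX₃ X hXX3
  have h4' := hX₄ X hXX4
  have h4 : 160 ≤ Real.log X := by linarith [abs_nonneg P₀]
  have h4C : 4 * C ≤ Real.log X := by linarith [abs_nonneg P₀]
  have h4P : P₀ ≤ Real.log X := by linarith [le_abs_self P₀]
  set l : ℝ := Real.log X with hl
  have hl1 : 1 ≤ l := by linarith
  have hl0 : 0 < l := by linarith
  set L : ℕ := ⌊c * ff X⌋₊ with hL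
  set Ny : ℕ := ⌊l / 10⌋₊ with hNy
  set P : ℕ := primorial Ny with hP
  set S : Finset ℕ := (Finset.range (Ny + 1)).filter Nat.Prime with hS
  have hPS : P = ∏ p ∈ S, p := rfl
  have hSp : ∀ p ∈ S, p.Prime := fun p hp => (Finset.mem_filter.mp hp).2
  have hSle : ∀ p ∈ S, (p : ℝ) ≤ l / 10 := by
    intro p hp
    have h5 := Finset.mem_range.mp (Finset.mem_filter.mp hp).1
    have h6 : (p : ℝ) ≤ Ny := by exact_mod_cast Nat.lt_succ_iff.mp h5
    exact h6.trans (Nat.floor_le (by linarith))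
  have hSmem : ∀ p : ℕ, p.Prime → (p : ℝ) ≤ l / 10 → p ∈ S := by
    intro p hp hpl
    rw [hS, Finset.mem_filter, Finset.mem_range]
    exact ⟨Nat.lt_succ_of_le (Nat.le_floor hpl), hp⟩
  have hPpos : 0 < P := primorial_pos _
  have hPr : (0 : ℝ) < P := by exact_mod_cast hPpos
  have hPsq : Squarefree P := by
    rw [hPS]
    refine Finset.squarefree_prod_of_pairwise_isCoprime ?_ ?_
    · intro p hp p' hp' hpp
      exact Nat.coprime_iff_isRelPrime.mp ((Nat.coprime_primes (hSp p hp) (hSp p' hp')).mpr hpp)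
    · intro p hp
      exact (hSp p hp).squarefree
  have hff : c * ff X < L + 1 := Nat.lt_floor_add_one _
  refine ⟨by nlinarith, ?_⟩
  intro F hcong hsmall hone htwo ι s v hs hcount
  set h : ℕ := L / 2 with hh
  obtain ⟨r0, hr0'⟩ := crt_small S hSp (fun p => b p + (p - 1) * h)
  obtain ⟨x0, hx0⟩ := hsmall P hPsq r0
  -- the candidates
  set 𝒜 : Finset ι := s.filter (fun i => ∀ j, (P : ℤ) ∣ v i j - x0 j) with h𝒜
  set U : Finset ℕ := (Finset.Icc 1 L).filter (fun k => ∀ p : ℕ, p.Prime →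
          (p : ℝ) ≤ l / 10 → ¬ k ≡ b p [MOD p]) with hU
  have hcardU : (Fintype.card {k // k ∈ U} : ℝ) ≤ c₁ / r * l := by
    rw [Fintype.card_coe]
    exact hb2
  have hcard : (Fintype.card (Fin r × {k // k ∈ U}) : ℝ) ≤ c₀ * l := by
    rw [Fintype.card_prod, Fintype.card_fin]
    push_cast
    calc (r : ℝ) * (Fintype.card {k // k ∈ U} : ℝ) ≤ r * (c₁ / r * l) := by gcongr
      _ = c₁ * l := by field_simp
      _ ≤ c₀ * l := by gcongr
  have hru : (r : ℝ) * (Fintype.card {k // k ∈ U} : ℝ) ≤ 1 / (4 * (C + 1)) * l := by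
    calc (r : ℝ) * (Fintype.card {k // k ∈ U} : ℝ) ≤ r * (c₁ / r * l) := by gcongr
      _ = c₁ * l := by field_simp
      _ ≤ 1 / (4 * (C + 1)) * l := by gcongr
  have hu0 : (0 : ℝ) ≤ (Fintype.card {k // k ∈ U} : ℝ) := Nat.cast_nonneg _
  set res : ℕ → {k // k ∈ U} → ℤ := fun _ k => (h : ℤ) - (k.1 : ℤ) with hres
  have hinj : ∀ p : ℕ, l ^ 2 < p → ∀ k k' : {k // k ∈ U}, k ≠ k' →
      ¬ ((p : ℤ) ∣ res p k - res p k') := by
    intro p hpl k k' hkk hd
    have h5 : res p k - res p k' = (k'.1 : ℤ) - (k.1 : ℤ) := by rw [hres]; ring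
    rw [h5] at hd
    have hk := Finset.mem_Icc.mp (Finset.mem_filter.mp k.2).1
    have hk' := Finset.mem_Icc.mp (Finset.mem_filter.mp k'.2).1
    have hLp : L < p := by
      have : (L : ℝ) < p := by linarith
      exact_mod_cast this
    have hne : k.1 ≠ k'.1 := fun h => hkk (Subtype.ext h)
    rcases lt_or_gt_of_ne hne with h6 | h6
    · have := Int.le_of_dvd (by omega) hd
      omega
    · have h7 : (p : ℤ) ∣ (k.1 : ℤ) - (k'.1 : ℤ) := by
        have := (dvd_neg (a := (p : ℤ))).mpr hd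
        rwa [neg_sub] at this
      have := Int.le_of_dvd (by omega) h7
      omega
  -- the sets of residue vectors
  set G : ℕ → ℕ := fun p => ⌈(p : ℝ) ^ (n - 1) * (1 - 1 / (2 * l))⌉₊ with hG
  have hGle : ∀ p : ℕ, G p ≤ p ^ (n - 1) := by
    intro p
    rw [hG]
    simp only
    rw [Nat.ceil_le]
    push_cast
    have h5 : 0 ≤ 1 / (2 * l) := by positivity
    have h6 : (0 : ℝ) ≤ (p : ℝ) ^ (n - 1) := by positivity
    nlinarith
  have hGge : ∀ p : ℕ, (p : ℝ) ^ (n - 1) * (1 - 1 / (2 * l)) ≤ G p := fun p => Nat.le_ceil _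
  have hRex : ∀ p : ℕ, ∀ c : Fin r × {k // k ∈ U}, p.Prime → l ^ 2 < p →
      ∃ R : Finset (Fin n → ℤ), R ⊆ (boxF n p).filter (fun ρ => Hit res (F ρ) p c) ∧
        R.card = G p := by
    intro p c hp hpl
    apply Finset.exists_subset_card_eq
    rw [hG]
    simp only
    rw [Nat.ceil_le]
    have hp0 : (0 : ℝ) < p := by exact_mod_cast hp.pos
    have hPp : P₀ < p := by nlinarith
    have h5 := local_count F p res ((p : ℝ) ^ (n - 1) * (1 - C / p)) ((p : ℝ) ^ (n - 1) * (C / p))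
      (by positivity) (hone p hp hPp) (htwo p hp hPp) c
    refine le_trans ?_ h5
    have h6 : (p : ℝ) ^ (n - 1) * (1 - C / p) -
        r * Fintype.card {k // k ∈ U} * ((p : ℝ) ^ (n - 1) * (C / p)) =
        (p : ℝ) ^ (n - 1) * (1 - C / p * (1 + r * Fintype.card {k // k ∈ U})) := by ring
    rw [h6]
    apply mul_le_mul_of_nonneg_left _ (by positivity)
    have h7 : C / p * (1 + r * Fintype.card {k // k ∈ U}) ≤ 1 / (2 * l) := by
      have h8 : C / p ≤ C / l ^ 2 := by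
        apply div_le_div_of_nonneg_left hC (by positivity) hpl.le
      calc C / p * (1 + r * Fintype.card {k // k ∈ U})
          ≤ C / l ^ 2 * (1 + 1 / (4 * (C + 1)) * l) := by gcongr
        _ = C / l ^ 2 + (C / (C + 1)) * (1 / (4 * l)) := by
            field_simp
        _ ≤ 1 / (4 * l) + 1 * (1 / (4 * l)) := by
            apply add_le_add
            · rw [div_le_div_iff₀ (by positivity) (by positivity)]
              nlinarith
            · apply mul_le_mul_of_nonneg_right _ (by positivity)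
              rw [div_le_one (by positivity)]
              linarith
        _ = 1 / (2 * l) := by
            field_simp
            norm_num
    linarith
  set R : ℕ → Fin r × {k // k ∈ U} → Finset (Fin n → ℤ) := fun p c =>
    if hp : p.Prime ∧ l ^ 2 < p then (hRex p c hp.1 hp.2).choose else ∅ with hR
  have hRsub : ∀ p : ℕ, ∀ c, p.Prime → l ^ 2 < p →
      R p c ⊆ (boxF n p).filter (fun ρ => Hit res (F ρ) p c) := by
    intro p c hp hpl
    rw [hR]
    simp only
    rw [dif_pos ⟨hp, hpl⟩]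
    exact (hRex p c hp hpl).choose_spec.1
  have hRcard : ∀ p : ℕ, ∀ c, p.Prime → l ^ 2 < p → (R p c).card = G p := by
    intro p c hp hpl
    rw [hR]
    simp only
    rw [dif_pos ⟨hp, hpl⟩]
    exact (hRex p c hp hpl).choose_spec.2
  have hRdisj : ∀ p : ℕ, p.Prime → l ^ 2 < p → ∀ c c', c ≠ c' → Disjoint (R p c) (R p c') := by
    intro p hp hpl c c' hne
    rw [Finset.disjoint_left]
    intro ρ h5 h6
    have h7 := (Finset.mem_filter.mp (hRsub p c hp hpl h5)).2
    have h8 := (Finset.mem_filter.mp (hRsub p c' hp hpl h6)).2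
    exact hne (Hit.unique (hinj p hpl) h7 h8)
  have hscard : (0 : ℝ) < s.card := by exact_mod_cast hs.card_pos
  have hNpos : (0 : ℝ) < s.card / (P : ℝ) ^ n := by positivity
  have hXr0 : 0 < X ^ (-(2 * (n : ℝ))) := Real.rpow_pos_of_pos hX0 _
  -- equidistribution of the candidates
  have hcountA : ∀ q : ℕ, Squarefree q → (q : ℝ) ≤ X ^ (1 / 4 : ℝ) →
      (∀ p ∈ q.primeFactors, l ^ 2 < p) → ∀ ρ : Fin n → ℤ,
      |((𝒜.filter (fun x => ∀ j, (q : ℤ) ∣ v x j - ρ j)).card : ℝ) -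
        (s.card / (P : ℝ) ^ n) / (q : ℝ) ^ n| ≤ s.card * X ^ (-(2 * (n : ℝ))) := by
    intro q hq hqX hqp ρ
    have hcop : Nat.Coprime P q := by
      rw [Nat.coprime_comm, hPS]
      apply Nat.Coprime.prod_right
      intro p hp
      rw [Nat.coprime_comm, Nat.Prime.coprime_iff_not_dvd (hSp p hp)]
      intro hd
      have h5 : p ∈ q.primeFactors := Nat.mem_primeFactors.mpr ⟨hSp p hp, hd, hq.ne_zero⟩
      have h6 := hqp p h5
      have h7 := hSle p hp
      have h8 : l ≤ l ^ 2 := by nlinarith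
      linarith
    have hq1 : 1 ≤ q := Nat.one_le_iff_ne_zero.mpr hq.ne_zero
    obtain ⟨u, w, huw⟩ := Nat.isCoprime_iff_coprime.2 hcop
    set r' : Fin n → ℤ := fun j => x0 j * (w * q) + ρ j * (u * P) with hr'
    have hiff : ∀ (j : Fin n) (x : ℤ), ((P : ℤ) ∣ x - x0 j ∧ (q : ℤ) ∣ x - ρ j) ↔
        ((P * q : ℕ) : ℤ) ∣ x - r' j := by
      intro j x
      have e1 : x0 j - r' j = (x0 j - ρ j) * u * P := by
        simp only [hr']
        linear_combination (-(x0 j : ℤ)) * huw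
      have e2 : ρ j - r' j = (ρ j - x0 j) * w * q := by
        simp only [hr']
        linear_combination (-(ρ j : ℤ)) * huw
      constructor
      · rintro ⟨h5, h6⟩
        have h7 : (P : ℤ) ∣ x - r' j := by
          have : x - r' j = (x - x0 j) + (x0 j - ρ j) * u * P := by rw [← e1]; ring
          rw [this]
          exact dvd_add h5 (Dvd.intro_left _ rfl)
        have h8 : (q : ℤ) ∣ x - r' j := by
          have : x - r' j = (x - ρ j) + (ρ j - x0 j) * w * q := by rw [← e2]; ring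
          rw [this]
          exact dvd_add h6 (Dvd.intro_left _ rfl)
        push_cast
        exact IsCoprime.mul_dvd (Nat.isCoprime_iff_coprime.2 hcop) h7 h8
      · intro h5
        push_cast at h5
        constructor
        · have h6 : (P : ℤ) ∣ x - r' j := (dvd_mul_right _ _).trans h5
          have : x - x0 j = (x - r' j) - (x0 j - ρ j) * u * P := by rw [← e1]; ring
          rw [this]
          exact dvd_sub h6 (Dvd.intro_left _ rfl)
        · have h6 : (q : ℤ) ∣ x - r' j := (dvd_mul_left _ _).trans h5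
          have : x - ρ j = (x - r' j) - (ρ j - x0 j) * w * q := by rw [← e2]; ring
          rw [this]
          exact dvd_sub h6 (Dvd.intro_left _ rfl)
    have h5 : 𝒜.filter (fun x => ∀ j, (q : ℤ) ∣ v x j - ρ j) =
        s.filter (fun x => ∀ j, ((P * q : ℕ) : ℤ) ∣ v x j - r' j) := by
      rw [h𝒜, Finset.filter_filter]
      apply Finset.filter_congr
      intro x _
      constructor
      · rintro ⟨a1, a2⟩ j
        exact (hiff j (v x j)).mp ⟨a1 j, a2 j⟩
      · intro a1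
        exact ⟨fun j => ((hiff j (v x j)).mpr (a1 j)).1, fun j => ((hiff j (v x j)).mpr (a1 j)).2⟩
    rw [h5]
    have h6 : (s.card : ℝ) / (P : ℝ) ^ n / (q : ℝ) ^ n = s.card / ((P * q : ℕ) : ℝ) ^ n := by
      push_cast
      rw [div_div, mul_pow]
    rw [h6]
    apply hcount (P * q) (Nat.mul_pos hPpos hq1)
    push_cast
    calc (P : ℝ) * q ≤ X ^ (3 / 20 : ℝ) * X ^ (1 / 4 : ℝ) := by gcongr
      _ = X ^ (3 / 20 + 1 / 4 : ℝ) := by rw [Real.rpow_add hX0]
      _ = _ := by norm_num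
  set Err₀ : ℝ := s.card * X ^ (-(2 * (n : ℝ))) with hErr₀
  have hErr₀0 : 0 ≤ Err₀ := by positivity
  set Err : ℝ := Err₀ * (X ^ (1 / 4 : ℝ)) ^ (n - 1) with hErr
  have hErr0 : 0 ≤ Err := by positivity
  obtain ⟨i, hi, hcovi⟩ := hcov X hXX1 (Fin r × {k // k ∈ U}) hcard
    (fun p => (G p : ℝ) / (p : ℝ) ^ n)
    (fun p hp hpl _ => by
      have hp0 : (0 : ℝ) < p := by exact_mod_cast hp.pos
      have e : (p : ℝ) ^ n = (p : ℝ) ^ (n - 1) * p := by
        rw [← pow_succ, Nat.sub_add_cancel hn]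
      constructor
      · rw [le_div_iff₀ (by positivity), e]
        calc 1 / (p : ℝ) * (1 - 1 / (2 * l)) * ((p : ℝ) ^ (n - 1) * p)
            = (p : ℝ) ^ (n - 1) * (1 - 1 / (2 * l)) := by field_simp
          _ ≤ G p := hGge p
      · rw [div_le_div_iff₀ (by positivity) hp0, e]
        have h5 : (G p : ℝ) ≤ (p : ℝ) ^ (n - 1) := by exact_mod_cast hGle p
        nlinarith) ι 𝒜
    (fun x p => colF R (v x) p) (s.card / (P : ℝ) ^ n) Err hNpos hErr0 (by
      have h5 : (P : ℝ) ^ n ≤ X ^ ((3 / 20 : ℝ) * n) := by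
        rw [Real.rpow_mul hX0.le, Real.rpow_natCast]
        exact pow_le_pow_left₀ hPr.le hprim n
      have h6 : (X ^ (1 / 4 : ℝ)) ^ (n - 1) ≤ X ^ ((1 / 4 : ℝ) * n) := by
        rw [Real.rpow_mul hX0.le, Real.rpow_natCast]
        exact pow_le_pow_right₀ (Real.one_le_rpow hX1 (by norm_num)) (Nat.sub_le n 1)
      rw [hErr, hErr₀, div_mul_eq_mul_div, le_div_iff₀ (by positivity)]
      calc (s.card : ℝ) * X ^ (-(2 * (n : ℝ))) * (X ^ (1 / 4 : ℝ)) ^ (n - 1) * (P : ℝ) ^ n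
          ≤ (s.card : ℝ) * X ^ (-(2 * (n : ℝ))) * X ^ ((1 / 4 : ℝ) * n) * X ^ ((3 / 20 : ℝ) * n) := by
            gcongr
        _ = (s.card : ℝ) * X ^ (-(2 * (n : ℝ)) + (1 / 4 : ℝ) * n + (3 / 20 : ℝ) * n) := by
            rw [Real.rpow_add hX0, Real.rpow_add hX0]; ring
        _ ≤ (s.card : ℝ) * X ^ (-(2 / 5) : ℝ) := by
            apply mul_le_mul_of_nonneg_left _ hscard.le
            apply Real.rpow_le_rpow_of_exponent_le hX1
            nlinarith) (by
      intro S' hS' hS'Q D hD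
      have h5 := countF₀ 𝒜 v R G (s.card / (P : ℝ) ^ n) Err₀ (X ^ (1 / 4 : ℝ)) (l ^ 2) hErr₀0
        hcountA S' (fun p hp => ⟨(hS' p hp).1, (hS' p hp).2.1⟩)
        (fun p hp => hRdisj p (hS' p hp).1 (hS' p hp).2.1)
        (fun p hp c => hRcard p c (hS' p hp).1 (hS' p hp).2.1) (fun p _ => hGle p)
        (fun p hp c ρ hρ => mem_boxF.mp
          (Finset.mem_filter.mp (hRsub p c (hS' p hp).1 (hS' p hp).2.1 hρ)).1)
        hS'Q D hD
      refine le_trans (le_of_eq ?_) (h5.trans ?_)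
      · congr!
      rw [hErr]
      apply mul_le_mul_of_nonneg_left _ hErr₀0
      rw [Finset.prod_pow]
      exact pow_le_pow_left₀ (Finset.prod_nonneg fun _ _ => Nat.cast_nonneg _) hS'Q _)
  rw [h𝒜, Finset.mem_filter] at hi
  refine ⟨i, hi.1, ?_⟩
  intro j m hm
  have hL16 : (16 : ℝ) ≤ L := by linarith
  have hLh : (L : ℝ) ≤ 2 * h + 1 := by
    have : L ≤ 2 * h + 1 := by omega
    exact_mod_cast this
  have hLh' : 2 * (h : ℝ) ≤ L := by
    have : 2 * h ≤ L := by omega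
    exact_mod_cast this
  have hm' := abs_le.mp hm
  have hk1 : (1 : ℤ) ≤ m - F (v i) j + h := by
    have : (0 : ℝ) < ((m - F (v i) j + h : ℤ) : ℝ) := by
      push_cast
      linarith [hm'.1]
    have : (0 : ℤ) < m - F (v i) j + h := by exact_mod_cast this
    omega
  have hk2 : m - F (v i) j + h ≤ L := by
    have : ((m - F (v i) j + h : ℤ) : ℝ) ≤ ((L : ℤ) : ℝ) := by
      push_cast
      linarith [hm'.2]
    exact_mod_cast this
  obtain ⟨k, hk⟩ : ∃ k : ℕ, (k : ℤ) = m - F (v i) j + h :=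
    ⟨(m - F (v i) j + h).toNat, by omega⟩
  have hkIcc : k ∈ Finset.Icc 1 L := by
    rw [Finset.mem_Icc]
    omega
  by_cases hkU : k ∈ U
  · obtain ⟨p, hp, hpl, hpX, hd⟩ := hcovi (j, ⟨k, hkU⟩)
    refine ⟨p, hp, hpX, ?_⟩
    have hmem := (colF_eq (hRdisj p hp hpl)).mp hd
    have hd' : (p : ℤ) ∣ F (fun j => v i j % (p : ℤ)) j - res p ⟨k, hkU⟩ :=
      (Finset.mem_filter.mp (hRsub p _ hp hpl hmem)).2.1
    have h5 : (p : ℤ) ∣ F (v i) j - F (fun j => v i j % (p : ℤ)) j := by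
      apply hcong
      intro j'
      refine ⟨v i j' / p, ?_⟩
      have := Int.emod_add_mul_ediv (v i j') p
      linarith
    have h6 := dvd_add h5 hd'
    have e1 : res p ⟨k, hkU⟩ = (h : ℤ) - (k : ℤ) := rfl
    have e2 : F (v i) j - F (fun j => v i j % (p : ℤ)) j +
        (F (fun j => v i j % (p : ℤ)) j - res p ⟨k, hkU⟩) = m := by
      rw [e1, hk]
      ring
    rwa [e2] at h6
  · have h5 : ∃ p : ℕ, p.Prime ∧ (p : ℝ) ≤ l / 10 ∧ k ≡ b p [MOD p] := by
      by_contra hcon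
      push Not at hcon
      exact hkU (Finset.mem_filter.mpr ⟨hkIcc, hcon⟩)
    obtain ⟨p, hp, hpl, hkb⟩ := h5
    refine ⟨p, hp, hpl.trans h3, ?_⟩
    have hpS := hSmem p hp hpl
    have h6 : (p : ℤ) ∣ (r0 : ℤ) + ((b p : ℤ) + ((p : ℤ) - 1) * h) := by
      have h7 := Int.natCast_dvd_natCast.mpr (hr0' p hpS)
      push_cast [Nat.cast_sub hp.one_le] at h7
      exact h7
    have h7 : (p : ℤ) ∣ F (v i) j - r0 := by
      have h8 : (P : ℤ) ∣ F (v i) j - r0 := by
        have h9 := dvd_add (hcong P (v i) x0 hi.2 j) (hx0 j)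
        have e : F (v i) j - F x0 j + (F x0 j - r0) = F (v i) j - r0 := by ring
        rwa [e] at h9
      refine dvd_trans ?_ h8
      rw [hPS]
      exact Int.natCast_dvd_natCast.mpr (Finset.dvd_prod_of_mem _ hpS)
    have h8 : (p : ℤ) ∣ (k : ℤ) - b p := by
      have := (Nat.modEq_iff_dvd.mp hkb)
      rw [← neg_sub]
      exact (dvd_neg).mpr this
    have h9 : m = (F (v i) j - r0) + ((r0 : ℤ) + ((b p : ℤ) + ((p : ℤ) - 1) * h)) +
        ((k : ℤ) - b p) - p * h := by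
      rw [hk]; ring
    rw [h9]
    exact dvd_sub (dvd_add (dvd_add h7 h6) h8) (Dvd.intro _ rfl)

end Pool.Agent.V1179.MH.SF
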