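import Mathlib

set_option autoImplicit false

/-! # Counting in `SL₂` of a finite field

The matrices `(A, B; C, D)` of determinant `1` are parametrised by four elements of the field (a
product of four elementary matrices); they are multiplied from the left by a fixed invertible
matrix.  Here: the number of parameter vectors with prescribed values of one or two linear forms in
the rows of the product. -/

namespace Pool.Agent.V1179.MH.SF

open Finset
open scoped Classical

section ring

variable {R : Type} [CommRing R]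

def eA (ρ : Fin 4 → R) : R := 1 + ρ 0 * ρ 1 + ρ 3 * (ρ 0 + ρ 2 * (1 + ρ 0 * ρ 1))

def eB (ρ : Fin 4 → R) : R := ρ 0 + ρ 2 * (1 + ρ 0 * ρ 1)

def eC (ρ : Fin 4 → R) : R := ρ 1 + ρ 3 * (1 + ρ 1 * ρ 2)

def eD (ρ : Fin 4 → R) : R := 1 + ρ 1 * ρ 2

lemma det_e (ρ : Fin 4 → R) : eA ρ * eD ρ - eB ρ * eC ρ = 1 := by
  unfold eA eB eC eD
  ring

/-- combination of the rows, first column -/
def gX (α β : R) (ρ : Fin 4 → R) : R := α * eA ρ + β * eC ρ

/-- combination of the rows, second column -/
def gY (α β : R) (ρ : Fin 4 → R) : R := α * eB ρ + β * eD ρ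

lemma det_g (a b c d : R) (ρ : Fin 4 → R) :
    gX a b ρ * gY c d ρ - gY a b ρ * gX c d ρ = a * d - b * c := by
  have h := det_e ρ
  unfold gX gY
  linear_combination (a * d - b * c) * h

end ring

section field

variable {K : Type} [Field K] [Fintype K]

omit [Fintype K] in
lemma eq_of_entries {ρ ρ' : Fin 4 → K} (hA : eA ρ = eA ρ') (hB : eB ρ = eB ρ')
    (hC : eC ρ = eC ρ') (hD : eD ρ = eD ρ') (h0 : ρ 1 = 0 ↔ ρ' 1 = 0)
    (h1 : (if ρ 1 = 0 then ρ 0 else ρ 3) = (if ρ' 1 = 0 then ρ' 0 else ρ' 3)) : ρ = ρ' := by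
  by_cases hy : ρ 1 = 0
  · have hy' := h0.mp hy
    rw [if_pos hy, if_pos hy'] at h1
    unfold eC at hC
    unfold eB at hB
    rw [hy, hy'] at hC hB
    have h3 : ρ 3 = ρ' 3 := by linear_combination hC
    have h2 : ρ 2 = ρ' 2 := by linear_combination hB - h1
    funext i
    fin_cases i
    · exact h1
    · exact hy.trans hy'.symm
    · exact h2
    · exact h3
  · have hy' : ¬ ρ' 1 = 0 := fun h => hy (h0.mpr h)
    rw [if_neg hy, if_neg hy'] at h1
    have e1 : ρ 1 = ρ' 1 := by
      have a1 : ρ 1 = eC ρ - ρ 3 * eD ρ := by unfold eC eD; ring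
      have a2 : ρ' 1 = eC ρ' - ρ' 3 * eD ρ' := by unfold eC eD; ring
      rw [a1, a2, hC, hD, h1]
    have e2 : ρ 2 = ρ' 2 := by
      have a1 : ρ 1 * ρ 2 = eD ρ - 1 := by unfold eD; ring
      have a2 : ρ' 1 * ρ' 2 = eD ρ' - 1 := by unfold eD; ring
      have a3 : ρ 1 * ρ 2 = ρ 1 * ρ' 2 := by rw [a1, hD, ← a2, e1]
      exact mul_left_cancel₀ hy a3
    have e0 : ρ 0 = ρ' 0 := by
      have a1 : ρ 1 * ρ 0 = eA ρ - ρ 3 * eB ρ - 1 := by unfold eA eB; ring
      have a2 : ρ' 1 * ρ' 0 = eA ρ' - ρ' 3 * eB ρ' - 1 := by unfold eA eB; ring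
      have a3 : ρ 1 * ρ 0 = ρ 1 * ρ' 0 := by rw [a1, hA, hB, h1, ← a2, e1]
      exact mul_left_cancel₀ hy a3
    funext i
    fin_cases i
    · exact e0
    · exact e1
    · exact e2
    · exact h1

/-- at most `2 |K| |α|` parameter vectors if the matrix is determined by an element of `α` -/
lemma card_param (a b c d : K) (hδ : a * d - b * c ≠ 0) {α : Type} [Fintype α]
    (Φ : (Fin 4 → K) → Prop) (g : (Fin 4 → K) → α)
    (hg : ∀ ρ ρ', Φ ρ → Φ ρ' → g ρ = g ρ' →
      gX a b ρ = gX a b ρ' ∧ gY a b ρ = gY a b ρ' ∧ gX c d ρ = gX c d ρ' ∧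
        gY c d ρ = gY c d ρ') :
    ((Finset.univ : Finset (Fin 4 → K)).filter Φ).card ≤
      2 * Fintype.card K * Fintype.card α := by
  have h1 : ((Finset.univ : Finset (Fin 4 → K)).filter Φ).card ≤
      (Finset.univ : Finset (Bool × K × α)).card := by
    apply Finset.card_le_card_of_injOn
      (fun ρ => (decide (ρ 1 = 0), (if ρ 1 = 0 then ρ 0 else ρ 3), g ρ))
    · intro ρ _
      exact Finset.mem_coe.mpr (Finset.mem_univ _)
    · intro ρ hρ ρ' hρ' h
      have hΦ := (Finset.mem_filter.mp (Finset.mem_coe.mp hρ)).2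
      have hΦ' := (Finset.mem_filter.mp (Finset.mem_coe.mp hρ')).2
      simp only [Prod.mk.injEq, decide_eq_decide] at h
      obtain ⟨h1, h2, h3⟩ := h
      obtain ⟨a1, a2, a3, a4⟩ := hg ρ ρ' hΦ hΦ' h3
      unfold gX at a1 a3
      unfold gY at a2 a4
      have b1 : eA ρ = eA ρ' := by
        have : (a * d - b * c) * eA ρ = (a * d - b * c) * eA ρ' := by
          linear_combination d * a1 - b * a3
        exact mul_left_cancel₀ hδ this
      have b3 : eC ρ = eC ρ' := by
        have : (a * d - b * c) * eC ρ = (a * d - b * c) * eC ρ' := by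
          linear_combination a * a3 - c * a1
        exact mul_left_cancel₀ hδ this
      have b2 : eB ρ = eB ρ' := by
        have : (a * d - b * c) * eB ρ = (a * d - b * c) * eB ρ' := by
          linear_combination d * a2 - b * a4
        exact mul_left_cancel₀ hδ this
      have b4 : eD ρ = eD ρ' := by
        have : (a * d - b * c) * eD ρ = (a * d - b * c) * eD ρ' := by
          linear_combination a * a4 - c * a2
        exact mul_left_cancel₀ hδ this
      exact eq_of_entries b1 b2 b3 b4 h1 h2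
  refine h1.trans (le_of_eq ?_)
  rw [Finset.card_univ, Fintype.card_prod, Fintype.card_prod, Fintype.card_bool]
  ring

/-- conditions on different rows -/
lemma count_diff (a b c d : K) (hδ : a * d - b * c ≠ 0) (s₁ s₂ u t₁ t₂ v : K)
    (hs : s₁ ≠ 0 ∨ s₂ ≠ 0) (ht : t₁ ≠ 0 ∨ t₂ ≠ 0) :
    ((Finset.univ : Finset (Fin 4 → K)).filter (fun ρ => s₁ * gX a b ρ + s₂ * gY a b ρ = u ∧
      t₁ * gX c d ρ + t₂ * gY c d ρ = v)).card ≤ 4 * Fintype.card K ^ 2 := by
  set δ : K := a * d - b * c with hδ'
  have h := card_param a b c d hδ (α := Bool × K)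
    (fun ρ : Fin 4 → K => s₁ * gX a b ρ + s₂ * gY a b ρ = u ∧
      t₁ * gX c d ρ + t₂ * gY c d ρ = v)
    (fun ρ => (decide (t₁ * gX a b ρ + t₂ * gY a b ρ = 0),
      if t₁ * gX a b ρ + t₂ * gY a b ρ = 0 then (if t₂ = 0 then gY c d ρ else gX c d ρ)
      else (if s₂ = 0 then gY a b ρ else gX a b ρ))) (by
    intro ρ ρ' h1 h1' h2
    simp only [Prod.mk.injEq, decide_eq_decide] at h2
    obtain ⟨h3, h4⟩ := h2
    obtain ⟨p1, p2⟩ := h1
    obtain ⟨q1, q2⟩ := h1'
    have D := det_g a b c d ρ
    have D' := det_g a b c d ρ'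
    rw [← hδ'] at D D'
    by_cases hz : t₁ * gX a b ρ + t₂ * gY a b ρ = 0
    · have hz' := h3.mp hz
      rw [if_pos hz, if_pos hz'] at h4
      have b1 : v * gX a b ρ = t₂ * δ := by
        linear_combination (-gX a b ρ) * p2 + t₂ * D + gX c d ρ * hz
      have b2 : v * gY a b ρ = -(t₁ * δ) := by
        linear_combination (-gY a b ρ) * p2 - t₁ * D + gY c d ρ * hz
      have b1' : v * gX a b ρ' = t₂ * δ := by
        linear_combination (-gX a b ρ') * q2 + t₂ * D' + gX c d ρ' * hz'
      have b2' : v * gY a b ρ' = -(t₁ * δ) := by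
        linear_combination (-gY a b ρ') * q2 - t₁ * D' + gY c d ρ' * hz'
      have hb : v ≠ 0 := by
        intro hb
        rw [hb, zero_mul] at b1 b2
        rcases ht with ht | ht
        · exact (mul_ne_zero ht hδ) (neg_eq_zero.mp b2.symm)
        · exact (mul_ne_zero ht hδ) b1.symm
      have eA' : gX a b ρ = gX a b ρ' := mul_left_cancel₀ hb (b1.trans b1'.symm)
      have eB' : gY a b ρ = gY a b ρ' := mul_left_cancel₀ hb (b2.trans b2'.symm)
      refine ⟨eA', eB', ?_⟩
      by_cases ht2 : t₂ = 0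
      · rw [if_pos ht2, if_pos ht2] at h4
        have ht1 : t₁ ≠ 0 := ht.resolve_right (fun h => h ht2)
        rw [ht2, zero_mul, add_zero] at p2 q2
        exact ⟨mul_left_cancel₀ ht1 (p2.trans q2.symm), h4⟩
      · rw [if_neg ht2, if_neg ht2] at h4
        refine ⟨h4, ?_⟩
        have : t₂ * gY c d ρ = t₂ * gY c d ρ' := by linear_combination p2 - q2 - t₁ * h4
        exact mul_left_cancel₀ ht2 this
    · have hz' : ¬ t₁ * gX a b ρ' + t₂ * gY a b ρ' = 0 := fun h => hz (h3.mpr h)
      rw [if_neg hz, if_neg hz'] at h4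
      have hAB : gX a b ρ = gX a b ρ' ∧ gY a b ρ = gY a b ρ' := by
        by_cases hs2 : s₂ = 0
        · rw [if_pos hs2, if_pos hs2] at h4
          have hs1 : s₁ ≠ 0 := hs.resolve_right (fun h => h hs2)
          rw [hs2, zero_mul, add_zero] at p1 q1
          exact ⟨mul_left_cancel₀ hs1 (p1.trans q1.symm), h4⟩
        · rw [if_neg hs2, if_neg hs2] at h4
          refine ⟨h4, ?_⟩
          have : s₂ * gY a b ρ = s₂ * gY a b ρ' := by linear_combination p1 - q1 - s₁ * h4
          exact mul_left_cancel₀ hs2 this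
      obtain ⟨hA, hB⟩ := hAB
      rw [← hA, ← hB] at D'
      refine ⟨hA, hB, ?_, ?_⟩
      · have : (t₁ * gX a b ρ + t₂ * gY a b ρ) * gX c d ρ =
            (t₁ * gX a b ρ + t₂ * gY a b ρ) * gX c d ρ' := by
          linear_combination gX a b ρ * p2 - gX a b ρ * q2 - t₂ * D + t₂ * D'
        exact mul_left_cancel₀ hz this
      · have : (t₁ * gX a b ρ + t₂ * gY a b ρ) * gY c d ρ =
            (t₁ * gX a b ρ + t₂ * gY a b ρ) * gY c d ρ' := by
          linear_combination gY a b ρ * p2 - gY a b ρ * q2 + t₁ * D - t₁ * D'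
        exact mul_left_cancel₀ hz this)
  refine le_trans (le_of_eq ?_) (h.trans (le_of_eq ?_))
  · congr!
  rw [Fintype.card_prod, Fintype.card_bool]
  ring

/-- two independent conditions on the same row -/
lemma count_row (a b c d : K) (hδ : a * d - b * c ≠ 0) (s₁ s₂ u t₁ t₂ v : K)
    (hst : s₁ * t₂ - s₂ * t₁ ≠ 0) :
    ((Finset.univ : Finset (Fin 4 → K)).filter (fun ρ => s₁ * gX a b ρ + s₂ * gY a b ρ = u ∧
      t₁ * gX a b ρ + t₂ * gY a b ρ = v)).card ≤ 2 * Fintype.card K ^ 2 := by
  have h := card_param a b c d hδ (α := K)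
    (fun ρ : Fin 4 → K => s₁ * gX a b ρ + s₂ * gY a b ρ = u ∧
      t₁ * gX a b ρ + t₂ * gY a b ρ = v)
    (fun ρ => if gX a b ρ = 0 then gY c d ρ else gX c d ρ) (by
    intro ρ ρ' h1 h1' h2
    obtain ⟨p1, p2⟩ := h1
    obtain ⟨q1, q2⟩ := h1'
    have D := det_g a b c d ρ
    have D' := det_g a b c d ρ'
    have hA : gX a b ρ = gX a b ρ' := by
      have : (s₁ * t₂ - s₂ * t₁) * gX a b ρ = (s₁ * t₂ - s₂ * t₁) * gX a b ρ' := by
        linear_combination t₂ * p1 - t₂ * q1 - s₂ * p2 + s₂ * q2
      exact mul_left_cancel₀ hst this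
    have hB : gY a b ρ = gY a b ρ' := by
      have : (s₁ * t₂ - s₂ * t₁) * gY a b ρ = (s₁ * t₂ - s₂ * t₁) * gY a b ρ' := by
        linear_combination s₁ * p2 - s₁ * q2 - t₁ * p1 + t₁ * q1
      exact mul_left_cancel₀ hst this
    rw [← hA, ← hB] at D'
    rw [← hA] at h2
    refine ⟨hA, hB, ?_⟩
    by_cases h0 : gX a b ρ = 0
    · rw [if_pos h0, if_pos h0] at h2
      have hB0 : gY a b ρ ≠ 0 := by
        intro h
        apply hδ
        rw [← D, h0, h]
        ring
      refine ⟨?_, h2⟩
      have : gY a b ρ * gX c d ρ = gY a b ρ * gX c d ρ' := by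
        linear_combination -D + D' + gX a b ρ * h2
      exact mul_left_cancel₀ hB0 this
    · rw [if_neg h0, if_neg h0] at h2
      refine ⟨h2, ?_⟩
      have : gX a b ρ * gY c d ρ = gX a b ρ * gY c d ρ' := by
        linear_combination D - D' + gY a b ρ * h2
      exact mul_left_cancel₀ h0 this)
  refine le_trans (le_of_eq ?_) (h.trans (le_of_eq ?_))
  · congr!
  ring

/-- one condition: upper bound -/
lemma upper (a b c d : K) (hδ : a * d - b * c ≠ 0) (s₁ s₂ u : K) (hs : s₁ ≠ 0 ∨ s₂ ≠ 0) :
    ((Finset.univ : Finset (Fin 4 → K)).filter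
      (fun ρ => s₁ * gX a b ρ + s₂ * gY a b ρ = u)).card ≤ 4 * Fintype.card K ^ 3 := by
  have h1 := Finset.card_eq_sum_card_fiberwise
    (s := (Finset.univ : Finset (Fin 4 → K)).filter (fun ρ => s₁ * gX a b ρ + s₂ * gY a b ρ = u))
    (t := (Finset.univ : Finset K)) (f := fun ρ => 1 * gX c d ρ + 0 * gY c d ρ)
    (fun _ _ => Finset.mem_coe.mpr (Finset.mem_univ _))
  rw [h1]
  have h2 : ∀ v ∈ (Finset.univ : Finset K),
      (((Finset.univ : Finset (Fin 4 → K)).filter
        (fun ρ => s₁ * gX a b ρ + s₂ * gY a b ρ = u)).filter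
        (fun ρ => 1 * gX c d ρ + 0 * gY c d ρ = v)).card ≤
      4 * Fintype.card K ^ 2 := by
    intro v _
    rw [Finset.filter_filter]
    exact count_diff a b c d hδ s₁ s₂ u 1 0 v hs (Or.inl one_ne_zero)
  refine (Finset.sum_le_sum h2).trans (le_of_eq ?_)
  rw [Finset.sum_const, Finset.card_univ, smul_eq_mul]
  ring

/-- one condition: lower bound -/
lemma lower (α β : K) (hα : α ≠ 0) (s₁ s₂ u : K) (hs : s₁ ≠ 0 ∨ s₂ ≠ 0) :
    Fintype.card K ^ 3 ≤
      ((Finset.univ : Finset (Fin 4 → K)).filter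
        (fun ρ => s₁ * gX α β ρ + s₂ * gY α β ρ = u)).card +
      Fintype.card K ^ 2 := by
  set c : K × K × K → K := fun u => s₁ * u.1 + (s₁ * u.2.2 + s₂) * (1 + u.1 * u.2.1) with hc
  -- few zeros of `c`
  have h1 : ((Finset.univ : Finset (K × K × K)).filter (fun u => c u = 0)).card ≤
      Fintype.card K ^ 2 := by
    have h2 : ((Finset.univ : Finset (K × K × K)).filter (fun u => c u = 0)).card ≤
        (Finset.univ : Finset (K × K)).card := by
      apply Finset.card_le_card_of_injOn
        (fun u => if s₁ * u.2.2 + s₂ = 0 then (u.2.1, 0) else (u.2.2, u.1))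
      · intro ρ _
        exact Finset.mem_coe.mpr (Finset.mem_univ _)
      · rintro ⟨y, z, w⟩ hu ⟨y', z', w'⟩ hu' h
        have e := (Finset.mem_filter.mp (Finset.mem_coe.mp hu)).2
        have e' := (Finset.mem_filter.mp (Finset.mem_coe.mp hu')).2
        simp only [hc] at e e' h
        have key : ∀ y z w : K, s₁ * y + (s₁ * w + s₂) * (1 + y * z) = 0 →
            ¬ (s₁ * w + s₂ = 0) → y ≠ 0 := by
          intro y z w he hn hy
          apply hn
          rw [hy] at he
          linear_combination he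
        have key2 : ∀ y z w : K, s₁ * y + (s₁ * w + s₂) * (1 + y * z) = 0 →
            (s₁ * w + s₂ = 0) → s₁ ≠ 0 ∧ y = 0 := by
          intro y z w he hn
          have hs1 : s₁ ≠ 0 := by
            intro h0
            rw [h0, zero_mul, zero_add] at hn
            rcases hs with hs | hs
            · exact hs h0
            · exact hs hn
          refine ⟨hs1, ?_⟩
          rw [hn, zero_mul, add_zero] at he
          exact (mul_eq_zero.mp he).resolve_left hs1
        by_cases h3 : s₁ * w + s₂ = 0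
        · by_cases h4 : s₁ * w' + s₂ = 0
          · rw [if_pos h3, if_pos h4] at h
            obtain ⟨b1, b2⟩ := key2 y z w e h3
            obtain ⟨b3, b4⟩ := key2 y' z' w' e' h4
            have hz : z = z' := congrArg Prod.fst h
            have hw : w = w' := by
              have : s₁ * w = s₁ * w' := by linear_combination h3 - h4
              exact mul_left_cancel₀ b1 this
            rw [b2, b4, hz, hw]
          · exfalso
            rw [if_pos h3, if_neg h4] at h
            exact key y' z' w' e' h4 (congrArg Prod.snd h).symm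
        · by_cases h4 : s₁ * w' + s₂ = 0
          · exfalso
            rw [if_neg h3, if_pos h4] at h
            exact key y z w e h3 (congrArg Prod.snd h)
          · rw [if_neg h3, if_neg h4] at h
            have hw : w = w' := congrArg Prod.fst h
            have hy : y = y' := congrArg Prod.snd h
            have hy0 := key y z w e h3
            have hz : z = z' := by
              have : ((s₁ * w + s₂) * y) * z = ((s₁ * w + s₂) * y) * z' := by
                rw [← hw, ← hy] at e'
                linear_combination e - e'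
              exact mul_left_cancel₀ (mul_ne_zero h3 hy0) this
            rw [hy, hz, hw]
    refine h2.trans (le_of_eq ?_)
    rw [Finset.card_univ, Fintype.card_prod]
    ring
  -- the others give a solution
  have h2 : ((Finset.univ : Finset (K × K × K)).filter (fun u => ¬ c u = 0)).card ≤
      ((Finset.univ : Finset (Fin 4 → K)).filter
        (fun ρ => s₁ * gX α β ρ + s₂ * gY α β ρ = u)).card := by
    apply Finset.card_le_card_of_injOn
      (fun l => ![(u - β * c l - α * (s₁ + (s₁ * l.2.2 + s₂) * l.2.1)) / (α * c l),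
        l.1, l.2.1, l.2.2])
    · rintro ⟨y, z, w⟩ hu
      have e := (Finset.mem_filter.mp (Finset.mem_coe.mp hu)).2
      refine Finset.mem_coe.mpr (Finset.mem_filter.mpr ⟨Finset.mem_univ _, ?_⟩)
      simp only [gX, gY, eA, eB, eC, eD, Matrix.cons_val_zero, Matrix.cons_val_one,
        Matrix.cons_val]
      have hx : (u - β * c (y, z, w) - α * (s₁ + (s₁ * w + s₂) * z)) / (α * c (y, z, w)) *
          (α * c (y, z, w)) = u - β * c (y, z, w) - α * (s₁ + (s₁ * w + s₂) * z) :=
        div_mul_cancel₀ _ (mul_ne_zero hα e)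
      have hcc : c (y, z, w) = s₁ * y + (s₁ * w + s₂) * (1 + y * z) := rfl
      set x := (u - β * c (y, z, w) - α * (s₁ + (s₁ * w + s₂) * z)) / (α * c (y, z, w))
      rw [hcc] at hx
      linear_combination hx
    · rintro ⟨y, z, w⟩ _ ⟨y', z', w'⟩ _ h
      have a1 := congrFun h 1
      have a2 := congrFun h 2
      have a3 := congrFun h 3
      simp only [Matrix.cons_val_one, Matrix.cons_val] at a1 a2 a3
      rw [a1, a2, a3]
  have h3 := Finset.card_filter_add_card_filter_not (s := (Finset.univ : Finset (K × K × K)))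
    (fun u => c u = 0)
  have h4 : (Finset.univ : Finset (K × K × K)).card = Fintype.card K ^ 3 := by
    rw [Finset.card_univ, Fintype.card_prod, Fintype.card_prod]
    ring
  omega

end field

end Pool.Agent.V1179.MH.SF
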