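import Pool.Agent.V1179.MH.SF3

set_option autoImplicit false

/-! # Continuants: consecutive convergents modulo a prime

The numerators and denominators of several consecutive convergents, as functions of the partial
quotients, over a finite field: the number of vectors of partial quotients with one or two
prescribed values. -/

namespace Pool.Agent.V1179.MH.SF

open Finset
open scoped Classical

section ring

variable {R : Type} [CommRing R]

/-- the recursion of the convergents -/
def kk (u v : R) (t : ℕ → R) : ℕ → R
  | 0 => u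
  | 1 => v
  | (j + 2) => t j * kk u v t (j + 1) + kk u v t j

lemma kk_lin (u v : R) (t : ℕ → R) : ∀ j, kk u v t j = v * kk 0 1 t j + u * kk 1 0 t j ∧
    kk u v t (j + 1) = v * kk 0 1 t (j + 1) + u * kk 1 0 t (j + 1) := by
  intro j
  induction j with
  | zero => simp [kk]
  | succ j ih =>
    refine ⟨ih.2, ?_⟩
    simp only [kk]
    rw [ih.1, ih.2]
    ring

lemma kk_congr (u v : R) (t t' : ℕ → R) : ∀ j, (∀ i, i + 2 ≤ j + 1 → t i = t' i) →
    kk u v t j = kk u v t' j ∧ kk u v t (j + 1) = kk u v t' (j + 1) := by
  intro j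
  induction j with
  | zero => intro _; simp [kk]
  | succ j ih =>
    intro h
    have h1 := ih (fun i hi => h i (by omega))
    refine ⟨h1.2, ?_⟩
    simp only [kk]
    rw [h1.1, h1.2, h j (by omega)]

/-- determinants of the coefficient vectors -/
def Dt (t : ℕ → R) (i j : ℕ) : R := kk 0 1 t i * kk 1 0 t j - kk 1 0 t i * kk 0 1 t j

lemma Dt_step (t : ℕ → R) (i j : ℕ) : Dt t i (j + 2) = t j * Dt t i (j + 1) + Dt t i j := by
  simp only [Dt, kk]
  ring

lemma Dt_succ (t : ℕ → R) : ∀ j, Dt t j (j + 1) = -(-1) ^ j := by
  intro j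
  induction j with
  | zero => simp [Dt, kk]
  | succ j ih =>
    have h : Dt t (j + 1) (j + 1 + 1) = - Dt t j (j + 1) := by
      simp only [Dt, kk]
      ring
    rw [h, ih]
    ring

lemma Dt_swap (t : ℕ → R) (i j : ℕ) : Dt t j i = - Dt t i j := by
  simp only [Dt]
  ring

/-- a vector is determined by its determinants with two consecutive ones -/
lemma Dt_basis (t : ℕ → R) (i j : ℕ) (h1 : Dt t i j = 0) (h2 : Dt t i (j + 1) = 0) :
    kk 0 1 t i = 0 ∧ kk 1 0 t i = 0 := by
  have h3 := Dt_succ t j
  have h4 : ((-1 : R) ^ j) * ((-1) ^ j) = 1 := by rw [← mul_pow]; simp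
  constructor
  · have e : kk 0 1 t i * Dt t j (j + 1) = 0 := by
      have : kk 0 1 t i * Dt t j (j + 1) = kk 0 1 t j * Dt t i (j + 1) -
          kk 0 1 t (j + 1) * Dt t i j := by
        simp only [Dt]
        ring
      rw [this, h1, h2]
      ring
    rw [h3] at e
    linear_combination (-(-1) ^ j) * e - kk 0 1 t i * h4
  · have e : kk 1 0 t i * Dt t j (j + 1) = 0 := by
      have : kk 1 0 t i * Dt t j (j + 1) = kk 1 0 t j * Dt t i (j + 1) -
          kk 1 0 t (j + 1) * Dt t i j := by
        simp only [Dt]
        ring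
      rw [this, h1, h2]
      ring
    rw [h3] at e
    linear_combination (-(-1) ^ j) * e - kk 1 0 t i * h4

lemma kk_map {S : Type} [CommRing S] (f : R →+* S) (u v : R) (t : ℕ → R) :
    ∀ j, f (kk u v t j) = kk (f u) (f v) (fun i => f (t i)) j ∧
      f (kk u v t (j + 1)) = kk (f u) (f v) (fun i => f (t i)) (j + 1) := by
  intro j
  induction j with
  | zero => simp [kk]
  | succ j ih =>
    refine ⟨ih.2, ?_⟩
    simp only [kk]
    rw [map_add, map_mul, ih.1, ih.2]

/-- extension of a finite vector by zeros -/
def ext {m : ℕ} (τ : Fin m → R) : ℕ → R := fun i => if h : i < m then τ ⟨i, h⟩ else 0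

/-- combination of the rows, column `j` -/
def entr {m : ℕ} (α β : R) (ρ : Fin (4 + m) → R) (j : ℕ) : R :=
  kk (gY α β (fun l : Fin 4 => ρ (Fin.castAdd m l))) (gX α β (fun l : Fin 4 => ρ (Fin.castAdd m l)))
      (ext (fun l : Fin m => ρ (Fin.natAdd 4 l))) j

lemma entr_append {m : ℕ} (α β : R) (x : Fin 4 → R) (τ : Fin m → R) (j : ℕ) :
    entr α β (Fin.append x τ) j =
      kk 0 1 (ext τ) j * gX α β x + kk 1 0 (ext τ) j * gY α β x := by
  unfold entr
  simp only [Fin.append_left, Fin.append_right]
  rw [(kk_lin _ _ _ j).1]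
  ring

end ring

section field

variable {K : Type} [Field K]

lemma coef_ne (t : ℕ → K) (j : ℕ) : kk 0 1 t j ≠ 0 ∨ kk 1 0 t j ≠ 0 := by
  by_contra hcon
  push Not at hcon
  have h := Dt_succ t j
  rw [Dt, hcon.1, hcon.2] at h
  simp at h

variable [Fintype K]

/-- few dependent coefficient vectors -/
lemma count_dep (m i j : ℕ) (hij : i < j) (hj : j ≤ m + 1) :
    ((Finset.univ : Finset (Fin m → K)).filter (fun τ => Dt (ext τ) i j = 0)).card *
      Fintype.card K ≤ Fintype.card K ^ m := by
  rcases Nat.lt_or_ge j (i + 2) with h | h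
  · have hj' : j = i + 1 := by omega
    have he : (Finset.univ : Finset (Fin m → K)).filter (fun τ => Dt (ext τ) i j = 0) = ∅ := by
      apply Finset.filter_false_of_mem
      intro τ _ h0
      rw [hj', Dt_succ] at h0
      simp at h0
    rw [he]
    simp
  · obtain ⟨j₀, rfl⟩ : ∃ j₀, j = j₀ + 2 := ⟨j - 2, by omega⟩
    have hj0 : j₀ < m := by omega
    set idx : Fin m := ⟨j₀, hj0⟩ with hidx
    have h1 : (((Finset.univ : Finset (Fin m → K)).filter
        (fun τ => Dt (ext τ) i (j₀ + 2) = 0)) ×ˢ (Finset.univ : Finset K)).card ≤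
        (Finset.univ : Finset (Fin m → K)).card := by
      apply Finset.card_le_card_of_injOn (fun u => Function.update u.1 idx u.2)
      · intro _ _
        exact Finset.mem_coe.mpr (Finset.mem_univ _)
      · rintro ⟨τ, x⟩ hu ⟨τ', x'⟩ hu' h
        have e := (Finset.mem_filter.mp (Finset.mem_product.mp (Finset.mem_coe.mp hu)).1).2
        have e' := (Finset.mem_filter.mp (Finset.mem_product.mp (Finset.mem_coe.mp hu')).1).2
        simp only at e e' h
        have hx : x = x' := by
          have := congrFun h idx
          simpa using this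
        have hoff : ∀ l, l ≠ idx → τ l = τ' l := by
          intro l hl
          have := congrFun h l
          simpa [Function.update_of_ne hl] using this
        have hext : ∀ l, l < j₀ → ext τ l = ext τ' l := by
          intro l hl
          unfold ext
          rw [dif_pos (by omega), dif_pos (by omega)]
          apply hoff
          intro h2
          have := congrArg Fin.val h2
          simp only [hidx] at this
          omega
        have hD : ∀ l, l ≤ j₀ + 1 → Dt (ext τ) i l = Dt (ext τ') i l := by
          intro l hl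
          unfold Dt
          rw [(kk_congr 0 1 (ext τ) (ext τ') i (fun i' hi' => hext i' (by omega))).1,
            (kk_congr 1 0 (ext τ) (ext τ') i (fun i' hi' => hext i' (by omega))).1]
          rcases Nat.lt_or_ge l 1 with h0 | h0
          · have : l = 0 := by omega
            subst this
            rfl
          · obtain ⟨l', rfl⟩ : ∃ l', l = l' + 1 := ⟨l - 1, by omega⟩
            rw [(kk_congr 0 1 (ext τ) (ext τ') l' (fun i' hi' => hext i' (by omega))).2,
              (kk_congr 1 0 (ext τ) (ext τ') l' (fun i' hi' => hext i' (by omega))).2]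
        rw [Dt_step] at e e'
        rw [← hD (j₀ + 1) (by omega), ← hD j₀ (by omega)] at e'
        have hne : Dt (ext τ) i (j₀ + 1) ≠ 0 := by
          intro h0
          rw [h0, mul_zero, zero_add] at e
          have := Dt_basis (ext τ) i j₀ e h0
          rcases coef_ne (ext τ) i with h3 | h3
          · exact h3 this.1
          · exact h3 this.2
        have hidxeq : ext τ j₀ = ext τ' j₀ := by
          have : ext τ j₀ * Dt (ext τ) i (j₀ + 1) = ext τ' j₀ * Dt (ext τ) i (j₀ + 1) := by
            linear_combination e - e'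
          exact mul_right_cancel₀ hne this
        have hττ : τ = τ' := by
          funext l
          by_cases hl : l = idx
          · rw [hl]
            unfold ext at hidxeq
            rw [dif_pos hj0, dif_pos hj0] at hidxeq
            exact hidxeq
          · exact hoff l hl
        rw [hx, hττ]
    rw [Finset.card_product, Finset.card_univ, Finset.card_univ] at h1
    refine h1.trans (le_of_eq ?_)
    rw [Fintype.card_pi_const]

omit [Field K] in
/-- splitting off the first four parameters -/
lemma split_card {m : ℕ} (Φ : (Fin (4 + m) → K) → Prop) [DecidablePred Φ] :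
    ((Finset.univ : Finset (Fin (4 + m) → K)).filter Φ).card =
      ∑ τ : Fin m → K, ((Finset.univ : Finset (Fin 4 → K)).filter
        (fun x => Φ (Fin.append x τ))).card := by
  rw [Finset.card_filter, ← Equiv.sum_comp (Fin.appendEquiv 4 m), Fintype.sum_prod_type_right]
  apply Finset.sum_congr rfl
  intro τ _
  rw [Finset.card_filter]
  rfl

lemma fam_lower (m : ℕ) (α β : K) (hα : α ≠ 0) (j : ℕ) (u : K) :
    Fintype.card K ^ (m + 3) ≤ ((Finset.univ : Finset (Fin (4 + m) → K)).filter
      (fun ρ => entr α β ρ j = u)).card + Fintype.card K ^ (m + 2) := by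
  rw [split_card]
  have h1 : ∀ τ : Fin m → K, Fintype.card K ^ 3 ≤ ((Finset.univ : Finset (Fin 4 → K)).filter
      (fun x => entr α β (Fin.append x τ) j = u)).card + Fintype.card K ^ 2 := by
    intro τ
    simp only [entr_append]
    exact lower α β hα _ _ u (coef_ne (ext τ) j)
  have h2 := Finset.sum_le_sum (s := (Finset.univ : Finset (Fin m → K))) (fun τ _ => h1 τ)
  rw [Finset.sum_const, Finset.sum_add_distrib, Finset.sum_const, Finset.card_univ,
    Fintype.card_pi_const, smul_eq_mul, smul_eq_mul] at h2
  calc Fintype.card K ^ (m + 3) = Fintype.card K ^ m * Fintype.card K ^ 3 := by ring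
    _ ≤ _ := h2
    _ = _ := by ring

lemma fam_diff (m : ℕ) (a b c d : K) (hδ : a * d - b * c ≠ 0) (j j' : ℕ) (u v : K) :
    ((Finset.univ : Finset (Fin (4 + m) → K)).filter
      (fun ρ => entr a b ρ j = u ∧ entr c d ρ j' = v)).card ≤ 6 * Fintype.card K ^ (m + 2) := by
  rw [split_card]
  have h1 : ∀ τ : Fin m → K, ((Finset.univ : Finset (Fin 4 → K)).filter
      (fun x => entr a b (Fin.append x τ) j = u ∧ entr c d (Fin.append x τ) j' = v)).card ≤
      4 * Fintype.card K ^ 2 := by
    intro τ
    simp only [entr_append]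
    exact count_diff a b c d hδ _ _ u _ _ v (coef_ne (ext τ) j) (coef_ne (ext τ) j')
  refine (Finset.sum_le_sum (fun τ _ => h1 τ)).trans ?_
  rw [Finset.sum_const, Finset.card_univ, Fintype.card_pi_const, smul_eq_mul]
  have : 0 ≤ Fintype.card K ^ (m + 2) := Nat.zero_le _
  calc Fintype.card K ^ m * (4 * Fintype.card K ^ 2) = 4 * Fintype.card K ^ (m + 2) := by ring
    _ ≤ _ := by omega

lemma fam_same (m : ℕ) (a b c d : K) (hδ : a * d - b * c ≠ 0) (j j' : ℕ) (hjj : j ≠ j')
    (hj : j ≤ m + 1) (hj' : j' ≤ m + 1) (u v : K) :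
    ((Finset.univ : Finset (Fin (4 + m) → K)).filter
      (fun ρ => entr a b ρ j = u ∧ entr a b ρ j' = v)).card ≤ 6 * Fintype.card K ^ (m + 2) := by
  rw [split_card]
  have h1 : ∀ τ : Fin m → K, ((Finset.univ : Finset (Fin 4 → K)).filter
      (fun x => entr a b (Fin.append x τ) j = u ∧ entr a b (Fin.append x τ) j' = v)).card ≤
      2 * Fintype.card K ^ 2 + (if Dt (ext τ) j j' = 0 then 1 else 0) *
        (4 * Fintype.card K ^ 3) := by
    intro τ
    by_cases hD : Dt (ext τ) j j' = 0
    · rw [if_pos hD, one_mul]
      refine le_trans ?_ (Nat.le_add_left _ _)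
      simp only [entr_append]
      refine le_trans (Finset.card_le_card ?_)
        (upper a b c d hδ (kk 0 1 (ext τ) j) (kk 1 0 (ext τ) j) u (coef_ne (ext τ) j))
      intro x hx
      rw [Finset.mem_filter] at hx ⊢
      exact ⟨hx.1, hx.2.1⟩
    · refine le_trans ?_ (Nat.le_add_right _ _)
      simp only [entr_append]
      exact count_row a b c d hδ _ _ u _ _ v hD
  refine (Finset.sum_le_sum (fun τ _ => h1 τ)).trans ?_
  rw [Finset.sum_add_distrib, Finset.sum_const, Finset.card_univ,
    Fintype.card_pi_const, smul_eq_mul, ← Finset.sum_mul, ← Finset.card_filter]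
  have h2 : ((Finset.univ : Finset (Fin m → K)).filter (fun τ => Dt (ext τ) j j' = 0)).card *
      Fintype.card K ≤ Fintype.card K ^ m := by
    rcases lt_or_gt_of_ne hjj with h | h
    · exact count_dep m j j' h hj'
    · have e : (Finset.univ : Finset (Fin m → K)).filter (fun τ => Dt (ext τ) j j' = 0) =
          (Finset.univ : Finset (Fin m → K)).filter (fun τ => Dt (ext τ) j' j = 0) := by
        apply Finset.filter_congr
        intro τ _
        rw [Dt_swap, neg_eq_zero]
      rw [e]
      exact count_dep m j' j h hj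
  calc Fintype.card K ^ m * (2 * Fintype.card K ^ 2) +
        ((Finset.univ : Finset (Fin m → K)).filter (fun τ => Dt (ext τ) j j' = 0)).card *
          (4 * Fintype.card K ^ 3)
      = 2 * Fintype.card K ^ (m + 2) +
        (((Finset.univ : Finset (Fin m → K)).filter (fun τ => Dt (ext τ) j j' = 0)).card *
          Fintype.card K) * (4 * Fintype.card K ^ 2) := by ring
    _ ≤ 2 * Fintype.card K ^ (m + 2) + Fintype.card K ^ m * (4 * Fintype.card K ^ 2) := by gcongr
    _ = _ := by ring

end field

end Pool.Agent.V1179.MH.SF
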