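import Pool.Agent.V1179.MH.SF2
import Pool.Agent.V1179.MH.SF4

set_option autoImplicit false

/-! # The criterion for consecutive convergents -/

namespace Pool.Agent.V1179.MH.SF

open Finset Filter
open Pool.Agent.H256R2.SC (ff)
open scoped Classical

section ring

variable {R S : Type} [CommRing R] [CommRing S]

lemma eA_map (f : R →+* S) (ρ : Fin 4 → R) : f (eA ρ) = eA (fun l => f (ρ l)) := by
  simp [eA]

lemma eB_map (f : R →+* S) (ρ : Fin 4 → R) : f (eB ρ) = eB (fun l => f (ρ l)) := by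
  simp [eB]

lemma eC_map (f : R →+* S) (ρ : Fin 4 → R) : f (eC ρ) = eC (fun l => f (ρ l)) := by
  simp [eC]

lemma eD_map (f : R →+* S) (ρ : Fin 4 → R) : f (eD ρ) = eD (fun l => f (ρ l)) := by
  simp [eD]

lemma ext_map {m : ℕ} (f : R →+* S) (τ : Fin m → R) :
    (fun i => f (ext τ i)) = ext (fun l => f (τ l)) := by
  funext i
  unfold ext
  split_ifs
  · rfl
  · exact map_zero f

lemma entr_map {m : ℕ} (f : R →+* S) (α β : R) (ρ : Fin (4 + m) → R) (j : ℕ) :
    f (entr α β ρ j) = entr (f α) (f β) (fun l => f (ρ l)) j := by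
  unfold entr
  rw [(kk_map f _ _ _ j).1, ext_map]
  simp only [gX, gY, map_add, map_mul, eA_map, eB_map, eC_map, eD_map]

/-- the entries of the two rows -/
def ent {m : ℕ} (a b c d : R) (ρ : Fin (4 + m) → R) (i : Fin 2) (j : ℕ) : R :=
  if i = 0 then entr a b ρ j else entr c d ρ j

/-- `M(ρ)` takes every value of determinant one -/
lemma param_surj (NA NB NC ND w y' : R) (hN : NA * ND - NB * NC = 1)
    (hy : (NC - w * ND) * y' = 1) :
    eA ![(NA - w * NB - 1) * y', NC - w * ND, (ND - 1) * y', w] = NA ∧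
    eB ![(NA - w * NB - 1) * y', NC - w * ND, (ND - 1) * y', w] = NB ∧
    eC ![(NA - w * NB - 1) * y', NC - w * ND, (ND - 1) * y', w] = NC ∧
    eD ![(NA - w * NB - 1) * y', NC - w * ND, (ND - 1) * y', w] = ND := by
  have h1 : 1 + (NA - w * NB - 1) * y' * (NC - w * ND) = NA - w * NB := by
    linear_combination (NA - w * NB - 1) * hy
  have h2 : 1 + (NC - w * ND) * ((ND - 1) * y') = ND := by
    linear_combination (ND - 1) * hy
  have h3 : (NA - w * NB - 1) * y' + (ND - 1) * y' * (NA - w * NB) = NB := by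
    linear_combination y' * hN + NB * hy
  simp only [eA, eB, eC, eD, Matrix.cons_val_zero, Matrix.cons_val_one, Matrix.cons_val]
  rw [h1, h2, h3]
  refine ⟨by ring, rfl, by ring, rfl⟩

end ring

/-- congruences -/
lemma ent_cong {m : ℕ} (a b c d : ℤ) (q : ℕ) (ρ ρ' : Fin (4 + m) → ℤ)
    (h : ∀ j, (q : ℤ) ∣ ρ j - ρ' j) (i : Fin 2) (j : ℕ) :
    (q : ℤ) ∣ ent a b c d ρ i j - ent a b c d ρ' i j := by
  have h0 : (fun l => ((ρ l : ℤ) : ZMod q)) = fun l => ((ρ' l : ℤ) : ZMod q) := by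
    funext l
    rw [← sub_eq_zero, ← Int.cast_sub, ZMod.intCast_zmod_eq_zero_iff_dvd]
    exact h l
  have h1 : ((ent a b c d ρ i j : ℤ) : ZMod q) = ((ent a b c d ρ' i j : ℤ) : ZMod q) := by
    unfold ent
    split_ifs
    · have e1 := entr_map (Int.castRingHom (ZMod q)) a b ρ j
      have e2 := entr_map (Int.castRingHom (ZMod q)) a b ρ' j
      simp only [Int.coe_castRingHom] at e1 e2
      rw [e1, e2, h0]
    · have e1 := entr_map (Int.castRingHom (ZMod q)) c d ρ j
      have e2 := entr_map (Int.castRingHom (ZMod q)) c d ρ' j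
      simp only [Int.coe_castRingHom] at e1 e2
      rw [e1, e2, h0]
  rw [← sub_eq_zero, ← Int.cast_sub, ZMod.intCast_zmod_eq_zero_iff_dvd] at h1
  exact h1

/-- counting residue vectors -/
lemma box_card {n p : ℕ} [NeZero p] (Φ : (Fin n → ℤ) → Prop) (Ψ : (Fin n → ZMod p) → Prop)
    [DecidablePred Φ] [DecidablePred Ψ]
    (h : ∀ ρ, Φ ρ ↔ Ψ (fun j => ((ρ j : ℤ) : ZMod p))) :
    ((boxF n p).filter Φ).card = ((Finset.univ : Finset (Fin n → ZMod p)).filter Ψ).card := by
  have hp : 0 < p := Nat.pos_of_ne_zero (NeZero.ne p)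
  apply Finset.card_nbij' (fun ρ j => ((ρ j : ℤ) : ZMod p)) (fun a j => ((a j).val : ℤ))
  · intro ρ hρ
    have := Finset.mem_filter.mp (Finset.mem_coe.mp hρ)
    exact Finset.mem_coe.mpr (Finset.mem_filter.mpr ⟨Finset.mem_univ _, (h ρ).mp this.2⟩)
  · intro a ha
    have := Finset.mem_filter.mp (Finset.mem_coe.mp ha)
    refine Finset.mem_coe.mpr (Finset.mem_filter.mpr ⟨?_, ?_⟩)
    · rw [mem_boxF]
      intro j
      refine ⟨by positivity, ?_⟩
      have h5 : ((a j).val : ℤ) < p := by exact_mod_cast ZMod.val_lt (a j)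
      exact h5
    · rw [h]
      have e : (fun j => ((((a j).val : ℕ) : ℤ) : ZMod p)) = a := by
        funext j
        simp
      rw [e]
      exact this.2
  · intro ρ hρ
    have h1 := mem_boxF.mp (Finset.mem_filter.mp (Finset.mem_coe.mp hρ)).1
    funext j
    simp only
    rw [ZMod.val_intCast, Int.emod_eq_of_lt (h1 j).1 (h1 j).2]
  · intro a _
    funext j
    simp

/-- the shifts -/
def sg (i : Fin 2) (j : ℕ) : ℤ := if i = 0 then (if Even j then -1 else 0) else (if Even j then 0 else 1)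

lemma sg_abs (i : Fin 2) (j : ℕ) : |(sg i j : ℝ)| ≤ 1 := by
  unfold sg
  split_ifs <;> simp

lemma kk_zero {R : Type} [CommRing R] (u v : R) (t : ℕ → R) (ht : ∀ i, t i = 0) :
    ∀ j, kk u v t j = (if Even j then u else v) ∧
      kk u v t (j + 1) = (if Even (j + 1) then u else v) := by
  intro j
  induction j with
  | zero => simp [kk]
  | succ j ih =>
    refine ⟨ih.2, ?_⟩
    simp only [kk]
    rw [ht, zero_mul, zero_add, ih.1]
    have : Even (j + 1 + 1) ↔ Even j := by
      rw [Nat.even_add_one, Nat.even_add_one, not_not]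
    simp only [this]

lemma exists_w (q : ℕ) (hq : q ≠ 0) (C D : ℤ)
    (hCD : ∀ p : ℕ, p.Prime → (p : ℤ) ∣ C → ¬ (p : ℤ) ∣ D) :
    ∃ w y' : ℤ, (q : ℤ) ∣ (C - w * D) * y' - 1 := by
  obtain ⟨w, hw⟩ := Pool.Agent.H256R2.SC.crt_int q.primeFactors (fun p => (p : ℤ)) (by
    intro p hp p' hp' hne
    exact Nat.isCoprime_iff_coprime.mpr ((Nat.coprime_primes (Nat.prime_of_mem_primeFactors hp)
      (Nat.prime_of_mem_primeFactors hp')).mpr hne))
    (fun p => if (p : ℤ) ∣ C then 1 else 0)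
  have hcop : IsCoprime (C - w * D) (q : ℤ) := by
    rw [Int.isCoprime_iff_gcd_eq_one]
    by_contra hne
    obtain ⟨p, hp, hpd⟩ := Nat.exists_prime_and_dvd hne
    have h1 : (p : ℤ) ∣ C - w * D := (Int.natCast_dvd_natCast.mpr hpd).trans (Int.gcd_dvd_left _ _)
    have h2 : (p : ℤ) ∣ (q : ℤ) := (Int.natCast_dvd_natCast.mpr hpd).trans (Int.gcd_dvd_right _ _)
    have h3 : p ∈ q.primeFactors :=
      Nat.mem_primeFactors.mpr ⟨hp, Int.natCast_dvd_natCast.mp h2, hq⟩
    have h4 := hw p h3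
    by_cases hC : (p : ℤ) ∣ C
    · rw [if_pos hC] at h4
      apply hCD p hp hC
      have : D = C - (C - w * D) - (w - 1) * D := by ring
      rw [this]
      exact dvd_sub (dvd_sub hC h1) (Dvd.dvd.mul_right h4 _)
    · rw [if_neg hC, sub_zero] at h4
      apply hC
      have : C = (C - w * D) + w * D := by ring
      rw [this]
      exact dvd_add h1 (Dvd.dvd.mul_right h4 _)
  obtain ⟨u, v, huv⟩ := hcop
  refine ⟨w, u, ⟨-v, ?_⟩⟩
  linear_combination huv

lemma small_sol (m : ℕ) (a b c d : ℤ) (hdet : a * d - b * c = 1) (q : ℕ) (hq : Squarefree q)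
    (e : ℤ) : ∃ ρ : Fin (4 + m) → ℤ, ∀ i j, (q : ℤ) ∣ ent a b c d ρ i j - (e + sg i j) := by
  set NA : ℤ := d * e - b * (e + 1) with hNA
  set NB : ℤ := d * (e - 1) - b * e with hNB
  set NC : ℤ := -c * e + a * (e + 1) with hNC
  set ND : ℤ := -c * (e - 1) + a * e with hND
  have hN : NA * ND - NB * NC = 1 := by
    rw [hNA, hNB, hNC, hND]
    linear_combination hdet
  obtain ⟨w, y', hy'⟩ := exists_w q hq.ne_zero NC ND (by
    intro p hp h1 h2
    have h3 : (p : ℤ) ∣ 1 := by
      rw [← hN]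
      exact dvd_sub (Dvd.dvd.mul_left h2 _) (Dvd.dvd.mul_left h1 _)
    have h4 := Int.natAbs_dvd_natAbs.mpr h3
    simp at h4
    exact hp.one_lt.ne' h4)
  set x4 : Fin 4 → ℤ := ![(NA - w * NB - 1) * y', NC - w * ND, (ND - 1) * y', w] with hx4
  refine ⟨Fin.append x4 (fun _ => 0), ?_⟩
  intro i j
  have hz : ∀ l, ext (fun _ : Fin m => (0 : ZMod q)) l = 0 := by
    intro l
    unfold ext
    split_ifs <;> rfl
  have hyq : ((NC : ZMod q) - w * ND) * y' = 1 := by
    rw [← ZMod.intCast_zmod_eq_zero_iff_dvd] at hy'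
    push_cast at hy'
    exact sub_eq_zero.mp hy'
  have hNq : (NA : ZMod q) * ND - NB * NC = 1 := by
    have := congrArg (fun z : ℤ => (z : ZMod q)) hN
    simpa using this
  obtain ⟨k1, k2, k3, k4⟩ := param_surj (NA : ZMod q) NB NC ND w y' hNq hyq
  have hx4c : (fun l => ((x4 l : ℤ) : ZMod q)) = ![((NA : ZMod q) - w * NB - 1) * y',
      (NC : ZMod q) - w * ND, ((ND : ZMod q) - 1) * y', (w : ZMod q)] := by
    funext l
    rw [hx4]
    fin_cases l <;> simp
  have happ : (fun l => (((Fin.append x4 (fun _ => 0) : Fin (4 + m) → ℤ) l : ℤ) : ZMod q)) =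
      Fin.append ![((NA : ZMod q) - w * NB - 1) * y',
      (NC : ZMod q) - w * ND, ((ND : ZMod q) - 1) * y', (w : ZMod q)] (fun _ => 0) := by
    rw [← hx4c]
    funext l
    refine Fin.addCases (fun l => ?_) (fun l => ?_) l
    · simp only [Fin.append_left]
    · simp only [Fin.append_right, Int.cast_zero]
  have hval : ∀ α β : ℤ, ((entr α β (Fin.append x4 (fun _ => 0) : Fin (4 + m) → ℤ) j : ℤ) : ZMod q) =
      if Even j then (α : ZMod q) * NB + β * ND else (α : ZMod q) * NA + β * NC := by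
    intro α β
    have e1 := entr_map (Int.castRingHom (ZMod q)) α β
      (Fin.append x4 (fun _ => 0) : Fin (4 + m) → ℤ) j
    simp only [Int.coe_castRingHom] at e1
    rw [e1, happ, entr_append]
    have e3 := kk_zero (0 : ZMod q) 1 (ext (fun _ : Fin m => (0 : ZMod q))) hz j
    have e4 := kk_zero (1 : ZMod q) 0 (ext (fun _ : Fin m => (0 : ZMod q))) hz j
    rw [e3.1, e4.1]
    unfold gX gY
    rw [k1, k2, k3, k4]
    split_ifs <;> ring
  have hdetq : (a : ZMod q) * d - b * c = 1 := by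
    have := congrArg (fun z : ℤ => (z : ZMod q)) hdet
    simpa using this
  rw [← ZMod.intCast_zmod_eq_zero_iff_dvd]
  unfold ent sg
  push_cast
  split_ifs with h1 h2 h2
  · rw [hval, if_pos h2, hNB, hND]
    push_cast
    linear_combination ((e : ZMod q) - 1) * hdetq
  · rw [hval, if_neg h2, hNA, hNC]
    push_cast
    linear_combination (e : ZMod q) * hdetq
  · rw [hval, if_pos h2, hNB, hND]
    push_cast
    linear_combination (e : ZMod q) * hdetq
  · rw [hval, if_neg h2, hNA, hNC]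
    push_cast
    linear_combination ((e : ZMod q) + 1) * hdetq

lemma cast_ne {p : ℕ} (a : ℤ) (ha : a ≠ 0) (h : |(a : ℝ)| < p) : (a : ZMod p) ≠ 0 := by
  intro h0
  rw [ZMod.intCast_zmod_eq_zero_iff_dvd] at h0
  have h1 := Int.natAbs_dvd_natAbs.mpr h0
  simp only [Int.natAbs_natCast] at h1
  have h2 := Nat.le_of_dvd (Int.natAbs_pos.mpr ha) h1
  have h3 : (p : ℝ) ≤ |(a : ℝ)| := by
    have : ((a.natAbs : ℕ) : ℝ) = |(a : ℝ)| := by
      rw [Nat.cast_natAbs, Int.cast_abs]
    rw [← this]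
    exact_mod_cast h2
  linarith

lemma prime_lower (m p : ℕ) (hp : p.Prime) (α β : ℤ) (hα : (α : ZMod p) ≠ 0) (j : ℕ) (u : ℤ) :
    p ^ (m + 3) ≤ ((boxF (4 + m) p).filter (fun ρ => (p : ℤ) ∣ entr α β ρ j - u)).card +
      p ^ (m + 2) := by
  have := Fact.mk hp
  have : NeZero p := ⟨hp.ne_zero⟩
  have h := fam_lower (K := ZMod p) m α β hα j (u : ZMod p)
  rw [ZMod.card] at h
  refine h.trans (le_of_eq ?_)
  congr 1
  rw [box_card (n := 4 + m) (p := p) (fun ρ => (p : ℤ) ∣ entr α β ρ j - u)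
    (fun ρ => entr (α : ZMod p) β ρ j = (u : ZMod p)) (by
      intro ρ
      have e1 := entr_map (Int.castRingHom (ZMod p)) α β ρ j
      simp only [Int.coe_castRingHom] at e1
      rw [← e1, ← sub_eq_zero, ← Int.cast_sub, ZMod.intCast_zmod_eq_zero_iff_dvd])]
  congr!

lemma prime_upper (m p : ℕ) (hp : p.Prime) (a b c d : ℤ) (hdet : a * d - b * c = 1)
    (i i' : Fin 2) (j j' : ℕ) (hj : j ≤ m + 1)
    (hj' : j' ≤ m + 1) (hne : ¬ (i = i' ∧ j = j')) (u v : ℤ) :
    ((boxF (4 + m) p).filter (fun ρ => (p : ℤ) ∣ ent a b c d ρ i j - u ∧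
      (p : ℤ) ∣ ent a b c d ρ i' j' - v)).card ≤ 6 * p ^ (m + 2) := by
  have := Fact.mk hp
  have : NeZero p := ⟨hp.ne_zero⟩
  have hdetq : (a : ZMod p) * d - b * c = 1 := by
    have := congrArg (fun z : ℤ => (z : ZMod p)) hdet
    simpa using this
  have hδ : (a : ZMod p) * d - b * c ≠ 0 := by
    rw [hdetq]
    exact one_ne_zero
  have hδ' : (c : ZMod p) * b - d * a ≠ 0 := by
    have : (c : ZMod p) * b - d * a = -1 := by linear_combination -hdetq
    rw [this]
    exact neg_ne_zero.mpr one_ne_zero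
  have h2 : ∀ α β γ η : ℤ, ((boxF (4 + m) p).filter (fun ρ => (p : ℤ) ∣ entr α β ρ j - u ∧
      (p : ℤ) ∣ entr γ η ρ j' - v)).card = ((Finset.univ : Finset (Fin (4 + m) → ZMod p)).filter
        (fun ρ => entr (α : ZMod p) β ρ j = (u : ZMod p) ∧
          entr (γ : ZMod p) η ρ j' = (v : ZMod p))).card := by
    intro α β γ η
    refine box_card (n := 4 + m) (p := p) (fun ρ => (p : ℤ) ∣ entr α β ρ j - u ∧
      (p : ℤ) ∣ entr γ η ρ j' - v) (fun ρ => entr (α : ZMod p) β ρ j = (u : ZMod p) ∧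
          entr (γ : ZMod p) η ρ j' = (v : ZMod p)) ?_
    intro ρ
    have e1 := entr_map (Int.castRingHom (ZMod p)) α β ρ j
    have e2 := entr_map (Int.castRingHom (ZMod p)) γ η ρ j'
    simp only [Int.coe_castRingHom] at e1 e2
    rw [← e1, ← e2, ← sub_eq_zero, ← Int.cast_sub, ZMod.intCast_zmod_eq_zero_iff_dvd,
      ← sub_eq_zero (b := ((v : ℤ) : ZMod p)), ← Int.cast_sub, ZMod.intCast_zmod_eq_zero_iff_dvd]
  have hi : i = 0 ∨ i = 1 := by omega
  have hi' : i' = 0 ∨ i' = 1 := by omega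
  have h10 : ¬ ((1 : Fin 2) = 0) := by decide
  unfold ent
  rcases hi with rfl | rfl <;> rcases hi' with rfl | rfl
  · simp only [if_true]
    rw [h2]
    have h := fam_same (K := ZMod p) m (a : ZMod p) b c d hδ j j' (fun h => hne ⟨rfl, h⟩) hj hj'
      (u : ZMod p) (v : ZMod p)
    rw [ZMod.card] at h
    convert h
  · simp only [if_true, if_neg h10]
    rw [h2]
    have h := fam_diff (K := ZMod p) m (a : ZMod p) b c d hδ j j' (u : ZMod p) (v : ZMod p)
    rw [ZMod.card] at h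
    convert h
  · simp only [if_true, if_neg h10]
    rw [h2]
    have h := fam_diff (K := ZMod p) m (c : ZMod p) d a b hδ' j j' (u : ZMod p) (v : ZMod p)
    rw [ZMod.card] at h
    convert h
  · simp only [if_neg h10]
    rw [h2]
    have h := fam_same (K := ZMod p) m (c : ZMod p) d a b hδ' j j' (fun h => hne ⟨rfl, h⟩) hj hj'
      (u : ZMod p) (v : ZMod p)
    rw [ZMod.card] at h
    convert h

/-- the criterion for consecutive convergents -/
theorem critK (m : ℕ) : ∃ κ : ℝ, 0 < κ ∧ ∀ a b c d : ℤ, a * d - b * c = 1 → a ≠ 0 → c ≠ 0 →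
    ∃ X₀ : ℝ, ∀ X : ℝ, X₀ ≤ X →
    κ * ff X + 1 ≤ (Real.log X) ^ 2 ∧
    ∀ (s : Finset (Fin (4 + m) → ℤ)), s.Nonempty →
    (∀ q : ℕ, 1 ≤ q → (q : ℝ) ≤ X ^ (2 / 5 : ℝ) →
      ∀ ρ : Fin (4 + m) → ℤ, |((s.filter (fun v => ∀ j, (q : ℤ) ∣ v j - ρ j)).card : ℝ) -
        s.card / (q : ℝ) ^ (4 + m)| ≤ s.card * X ^ (-(2 * ((4 + m : ℕ) : ℝ)))) →
    ∃ v ∈ s, ∀ i : Fin 2, ∀ j : ℕ, j ≤ m + 1 →
      ∀ M : ℤ, |(M : ℝ) - (ent a b c d v i j - sg i j : ℤ)| ≤ κ * ff X + 1 →
      ∃ p : ℕ, p.Prime ∧ (p : ℝ) ≤ X ^ (1 / 10 : ℝ) ∧ (p : ℤ) ∣ M := by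
  set en : Fin (2 * (m + 2)) ≃ Fin 2 × Fin (m + 2) := finProdFinEquiv.symm with hen
  have hn : 4 + m - 1 = m + 3 := by omega
  obtain ⟨κ, hκ, hcr⟩ := critF (4 + m) (2 * (m + 2)) (by omega) (by omega) 6 (by norm_num)
  refine ⟨κ, hκ, ?_⟩
  intro a b c d hdet ha hc
  obtain ⟨X₀, h⟩ := hcr (|(a : ℝ)| + |(c : ℝ)|)
  refine ⟨X₀, ?_⟩
  intro X hX
  obtain ⟨h1, h2⟩ := h X hX
  refine ⟨h1, ?_⟩
  intro s hs hcount
  obtain ⟨v, hv, h3⟩ := h2
    (fun ρ l => ent a b c d ρ (en l).1 (en l).2.val - sg (en l).1 (en l).2.val)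
    (by
      intro q ρ ρ' hρ l
      have := ent_cong a b c d q ρ ρ' hρ (en l).1 (en l).2.val
      have e : ent a b c d ρ (en l).1 (en l).2.val - sg (en l).1 (en l).2.val -
          (ent a b c d ρ' (en l).1 (en l).2.val - sg (en l).1 (en l).2.val) =
          ent a b c d ρ (en l).1 (en l).2.val - ent a b c d ρ' (en l).1 (en l).2.val := by ring
      rw [e]
      exact this)
    (by
      intro q hq e
      obtain ⟨ρ, hρ⟩ := small_sol m a b c d hdet q hq e
      refine ⟨ρ, fun l => ?_⟩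
      have := hρ (en l).1 (en l).2.val
      have e' : ent a b c d ρ (en l).1 (en l).2.val - (e + sg (en l).1 (en l).2.val) =
          ent a b c d ρ (en l).1 (en l).2.val - sg (en l).1 (en l).2.val - e := by ring
      rw [e'] at this
      exact this)
    (by
      intro p hp hpP l u
      have hp0 : (0 : ℝ) < p := by exact_mod_cast hp.pos
      have hap : (a : ZMod p) ≠ 0 := cast_ne a ha (by linarith [abs_nonneg (c : ℝ)])
      have hcp : (c : ZMod p) ≠ 0 := cast_ne c hc (by linarith [abs_nonneg (a : ℝ)])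
      have h1 : p ^ (m + 3) ≤ ((boxF (4 + m) p).filter (fun ρ => (p : ℤ) ∣
          ent a b c d ρ (en l).1 (en l).2.val - (u + sg (en l).1 (en l).2.val))).card +
          p ^ (m + 2) := by
        unfold ent
        split_ifs
        · exact prime_lower m p hp a b hap (en l).2.val _
        · exact prime_lower m p hp c d hcp (en l).2.val _
      have e : (boxF (4 + m) p).filter (fun ρ => (p : ℤ) ∣ ent a b c d ρ (en l).1 (en l).2.val -
          (u + sg (en l).1 (en l).2.val)) = (boxF (4 + m) p).filter (fun ρ => (p : ℤ) ∣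
          ent a b c d ρ (en l).1 (en l).2.val - sg (en l).1 (en l).2.val - u) := by
        apply Finset.filter_congr
        intro ρ _
        have : ent a b c d ρ (en l).1 (en l).2.val - (u + sg (en l).1 (en l).2.val) =
          ent a b c d ρ (en l).1 (en l).2.val - sg (en l).1 (en l).2.val - u := by ring
        rw [this]
      rw [e] at h1
      have h2 : (p : ℝ) ^ (m + 3) ≤ (((boxF (4 + m) p).filter (fun ρ => (p : ℤ) ∣
          ent a b c d ρ (en l).1 (en l).2.val - sg (en l).1 (en l).2.val - u)).card : ℝ) +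
          (p : ℝ) ^ (m + 2) := by exact_mod_cast h1
      rw [hn]
      have h3 : (p : ℝ) ^ (m + 3) * (1 - 6 / p) = (p : ℝ) ^ (m + 3) - 6 * (p : ℝ) ^ (m + 2) := by
        field_simp
        ring
      rw [h3]
      have h4 : (0 : ℝ) ≤ (p : ℝ) ^ (m + 2) := by positivity
      linarith)
    (by
      intro p hp _ l l' hll u v
      have hp0 : (0 : ℝ) < p := by exact_mod_cast hp.pos
      have hne : ¬ ((en l).1 = (en l').1 ∧ (en l).2.val = (en l').2.val) := by
        rintro ⟨h1, h2⟩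
        exact hll (en.injective (Prod.ext h1 (Fin.ext h2)))
      have h1 := prime_upper m p hp a b c d hdet (en l).1 (en l').1 (en l).2.val (en l').2.val
        (by have := (en l).2.isLt; omega) (by have := (en l').2.isLt; omega) hne
        (u + sg (en l).1 (en l).2.val) (v + sg (en l').1 (en l').2.val)
      have e : (boxF (4 + m) p).filter (fun ρ => (p : ℤ) ∣ ent a b c d ρ (en l).1 (en l).2.val -
          (u + sg (en l).1 (en l).2.val) ∧ (p : ℤ) ∣ ent a b c d ρ (en l').1 (en l').2.val -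
          (v + sg (en l').1 (en l').2.val)) = (boxF (4 + m) p).filter (fun ρ => (p : ℤ) ∣
          ent a b c d ρ (en l).1 (en l).2.val - sg (en l).1 (en l).2.val - u ∧ (p : ℤ) ∣
          ent a b c d ρ (en l').1 (en l').2.val - sg (en l').1 (en l').2.val - v) := by
        apply Finset.filter_congr
        intro ρ _
        have e1 : ent a b c d ρ (en l).1 (en l).2.val - (u + sg (en l).1 (en l).2.val) =
          ent a b c d ρ (en l).1 (en l).2.val - sg (en l).1 (en l).2.val - u := by ring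
        have e2 : ent a b c d ρ (en l').1 (en l').2.val - (v + sg (en l').1 (en l').2.val) =
          ent a b c d ρ (en l').1 (en l').2.val - sg (en l').1 (en l').2.val - v := by ring
        rw [e1, e2]
      rw [e] at h1
      rw [hn]
      have h3 : (p : ℝ) ^ (m + 3) * (6 / p) = 6 * (p : ℝ) ^ (m + 2) := by
        field_simp
        ring
      rw [h3]
      exact_mod_cast h1)
    (Fin (4 + m) → ℤ) s (fun v => v) hs hcount
  refine ⟨v, hv, ?_⟩
  intro i j hj M hM
  have h4 := h3 (en.symm (i, ⟨j, by omega⟩)) M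
  simp only [Equiv.apply_symm_apply] at h4
  exact h4 hM

end Pool.Agent.V1179.MH.SF
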