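import Pool.Agent.V1179.MH.SF5
import Pool.Agent.V1179.MH.Crit

set_option autoImplicit false

/-! # Consecutive convergents: assembly -/

namespace Pool.Agent.V1179.MH.SF

open Finset Filter
open Pool.Agent.W147.PS (ff ff_compare ev_pow)
open scoped Classical

/-- growth of the recursion -/
lemma kk_bounds (Y U : ℤ) (hY : 1 ≤ Y) (u v : ℤ) (hu : Y ≤ u ∧ u ≤ U) (hv : Y ≤ v ∧ v ≤ U)
    (t : ℕ → ℤ) : ∀ j, (∀ i, i + 2 ≤ j + 1 → 1 ≤ t i ∧ t i ≤ 2 * Y) →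
    (Y ≤ kk u v t j ∧ kk u v t j ≤ U * (3 * Y) ^ j) ∧
      (Y ≤ kk u v t (j + 1) ∧ kk u v t (j + 1) ≤ U * (3 * Y) ^ (j + 1)) := by
  have hU : 1 ≤ U := hY.trans (hu.1.trans hu.2)
  intro j
  induction j with
  | zero =>
    intro _
    simp only [kk, pow_zero, mul_one, zero_add, pow_one]
    refine ⟨hu, hv.1, ?_⟩
    nlinarith [hv.2]
  | succ j ih =>
    intro h
    obtain ⟨⟨h1, h2⟩, h3, h4⟩ := ih (fun i hi => h i (by omega))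
    refine ⟨⟨h3, h4⟩, ?_⟩
    obtain ⟨t1, t2⟩ := h j (by omega)
    simp only [kk]
    have hp : (0 : ℤ) < (3 * Y) ^ j := by positivity
    have hp1 : (0 : ℤ) < U * (3 * Y) ^ (j + 1) := by positivity
    constructor
    · nlinarith
    · have e1 : t j * kk u v t (j + 1) ≤ (2 * Y) * (U * (3 * Y) ^ (j + 1)) := by
        apply mul_le_mul t2 h4 (by omega) (by omega)
      have e2 : U * (3 * Y) ^ j ≤ Y * (U * (3 * Y) ^ (j + 1)) := by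
        have : U * (3 * Y) ^ (j + 1) = (U * (3 * Y) ^ j) * (3 * Y) := by ring
        rw [this]
        have h5 : (0 : ℤ) < U * (3 * Y) ^ j := by positivity
        nlinarith
      have e3 : U * (3 * Y) ^ (j + 1 + 1) = (2 * Y) * (U * (3 * Y) ^ (j + 1)) +
          Y * (U * (3 * Y) ^ (j + 1)) := by ring
      rw [e3]
      linarith

/-- size of the entries -/
lemma e_bounds (Y : ℤ) (hY : 1 ≤ Y) (ρ : Fin 4 → ℤ) (h : ∀ l, Y ≤ ρ l ∧ ρ l ≤ 2 * Y) :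
    (Y ≤ eA ρ ∧ eA ρ ≤ (3 * Y) ^ 4) ∧ (Y ≤ eB ρ ∧ eB ρ ≤ (3 * Y) ^ 4) ∧
    (Y ≤ eC ρ ∧ eC ρ ≤ (3 * Y) ^ 4) ∧ (Y ≤ eD ρ ∧ eD ρ ≤ (3 * Y) ^ 4) ∧
    eB ρ < eA ρ ∧ eD ρ < eC ρ := by
  obtain ⟨x1, x2⟩ := h 0
  obtain ⟨y1, y2⟩ := h 1
  obtain ⟨z1, z2⟩ := h 2
  obtain ⟨w1, w2⟩ := h 3
  set x := ρ 0
  set y := ρ 1
  set z := ρ 2
  set w := ρ 3
  have hxy : 1 ≤ x * y := by nlinarith
  have hxy2 : x * y ≤ 4 * Y ^ 2 := by nlinarith
  have hyz : Y ≤ y * z := by nlinarith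
  have hyz2 : y * z ≤ 4 * Y ^ 2 := by nlinarith
  have hY2 : Y ≤ Y ^ 2 := by nlinarith
  have hY3 : Y ^ 2 ≤ Y ^ 3 := by nlinarith [sq_nonneg Y]
  have hY4 : Y ^ 3 ≤ Y ^ 4 := by
    have : 0 ≤ Y ^ 3 := by positivity
    nlinarith
  have hB1 : Y ≤ eB ρ := by
    change Y ≤ x + z * (1 + x * y)
    nlinarith
  have hB2 : eB ρ ≤ 12 * Y ^ 3 := by
    change x + z * (1 + x * y) ≤ 12 * Y ^ 3
    have : z * (1 + x * y) ≤ (2 * Y) * (1 + 4 * Y ^ 2) :=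
      mul_le_mul z2 (by linarith) (by linarith) (by linarith)
    nlinarith
  have hD1 : Y ≤ eD ρ := by
    change Y ≤ 1 + y * z
    linarith
  have hD2 : eD ρ ≤ 5 * Y ^ 2 := by
    change 1 + y * z ≤ 5 * Y ^ 2
    linarith
  have hA : eA ρ = 1 + x * y + w * eB ρ := rfl
  have hC : eC ρ = y + w * eD ρ := rfl
  have hA1 : eB ρ < eA ρ := by
    rw [hA]
    nlinarith
  have hC1 : eD ρ < eC ρ := by
    rw [hC]
    nlinarith
  have hA2 : eA ρ ≤ (3 * Y) ^ 4 := by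
    rw [hA]
    have : w * eB ρ ≤ (2 * Y) * (12 * Y ^ 3) := mul_le_mul w2 hB2 (by linarith) (by linarith)
    nlinarith
  have hC2 : eC ρ ≤ (3 * Y) ^ 4 := by
    rw [hC]
    have : w * eD ρ ≤ (2 * Y) * (5 * Y ^ 2) := mul_le_mul w2 hD2 (by linarith) (by linarith)
    nlinarith
  refine ⟨⟨by linarith, hA2⟩, ⟨hB1, by linarith⟩, ⟨by linarith, hC2⟩, ⟨hD1, by linarith⟩, hA1, hC1⟩

lemma entr_bounds (m : ℕ) (Y S : ℤ) (hY : 1 ≤ Y) (α β : ℤ) (hα : 1 ≤ α) (hβ : 1 ≤ β)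
    (hS : α + β ≤ S) (v : Fin (4 + m) → ℤ) (hv : ∀ l, Y ≤ v l ∧ v l ≤ 2 * Y) (j : ℕ)
    (hj : j ≤ m + 1) : Y ≤ entr α β v j ∧ entr α β v j ≤ S * (3 * Y) ^ (m + 5) := by
  obtain ⟨⟨a1, a2⟩, ⟨b1, b2⟩, ⟨c1, c2⟩, ⟨d1, d2⟩, _, _⟩ :=
    e_bounds Y hY (fun l : Fin 4 => v (Fin.castAdd m l)) (fun l => hv _)
  set x := (fun l : Fin 4 => v (Fin.castAdd m l))
  have h34 : (0 : ℤ) < (3 * Y) ^ 4 := by positivity
  have hX : Y ≤ gX α β x ∧ gX α β x ≤ S * (3 * Y) ^ 4 := by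
    unfold gX
    constructor
    · nlinarith
    · have e1 : α * eA x ≤ α * (3 * Y) ^ 4 := by nlinarith
      have e2 : β * eC x ≤ β * (3 * Y) ^ 4 := by nlinarith
      nlinarith
  have hYY : Y ≤ gY α β x ∧ gY α β x ≤ S * (3 * Y) ^ 4 := by
    unfold gY
    constructor
    · nlinarith
    · have e1 : α * eB x ≤ α * (3 * Y) ^ 4 := by nlinarith
      have e2 : β * eD x ≤ β * (3 * Y) ^ 4 := by nlinarith
      nlinarith
  have hS1 : 1 ≤ S := by linarith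
  have h3Y : (1 : ℤ) ≤ 3 * Y := by linarith
  have hpow : ∀ i, i ≤ m + 1 → S * (3 * Y) ^ 4 * (3 * Y) ^ i ≤ S * (3 * Y) ^ (m + 5) := by
    intro i hi
    rw [mul_assoc, ← pow_add]
    apply mul_le_mul_of_nonneg_left _ (by linarith)
    exact pow_le_pow_right₀ h3Y (by omega)
  have ht : ∀ i, i + 2 ≤ m + 1 → 1 ≤ ext (fun l : Fin m => v (Fin.natAdd 4 l)) i ∧
      ext (fun l : Fin m => v (Fin.natAdd 4 l)) i ≤ 2 * Y := by
    intro i hi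
    unfold ext
    rw [dif_pos (show i < m by omega)]
    exact ⟨hY.trans (hv _).1, (hv _).2⟩
  unfold entr
  rcases Nat.eq_zero_or_pos j with rfl | hj0
  · refine ⟨hYY.1, ?_⟩
    have := hpow 0 (by omega)
    rw [pow_zero, mul_one] at this
    exact hYY.2.trans this
  · obtain ⟨j', rfl⟩ : ∃ j', j = j' + 1 := ⟨j - 1, by omega⟩
    have h1 := (kk_bounds Y (S * (3 * Y) ^ 4) hY _ _ hYY hX
      (ext (fun l : Fin m => v (Fin.natAdd 4 l))) j' (fun i hi => ht i (by omega))).2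
    exact ⟨h1.1, h1.2.trans (hpow _ hj)⟩

/-- residue classes in an interval -/
lemma card_Ico_class (Y q : ℕ) (hq : 1 ≤ q) (ρ : ℤ) :
    |((((Finset.Ico (Y : ℤ) (Y + Y)).filter (fun x => (q : ℤ) ∣ x - ρ)).card : ℕ) : ℝ) -
      Y / q| ≤ 1 := by
  have hq0 : (0 : ℤ) < q := by exact_mod_cast hq
  have hqR : (0 : ℝ) < q := by exact_mod_cast hq
  have h1 : (Finset.Ico (Y : ℤ) (Y + Y)).filter (fun x => (q : ℤ) ∣ x - ρ) =
      (Finset.Ico (Y : ℤ) (Y + Y)).filter (fun x => x ≡ ρ [ZMOD q]) := by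
    apply Finset.filter_congr
    intro x _
    rw [Int.modEq_comm, Int.modEq_iff_dvd]
  have h2 := Int.Ico_filter_modEq_card (a := (Y : ℤ)) (b := (Y : ℤ) + Y) (r := (q : ℤ)) hq0 ρ
  rw [h1]
  set N := ((Finset.Ico (Y : ℤ) (Y + Y)).filter (fun m => m ≡ ρ [ZMOD q])).card
  have hle : (((Y : ℤ) : ℚ) - ρ) / ((q : ℤ) : ℚ) ≤ ((((Y : ℤ) + Y : ℤ) : ℚ) - ρ) / ((q : ℤ) : ℚ) := by
    apply div_le_div_of_nonneg_right _ (by exact_mod_cast hq0.le)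
    push_cast
    have : (0 : ℚ) ≤ Y := Nat.cast_nonneg _
    linarith
  have hmono := Int.ceil_le_ceil hle
  push_cast at h2 hmono ⊢
  rw [max_eq_left (by linarith)] at h2
  have h3 : (N : ℝ) = ((⌈((Y : ℚ) + Y - ρ) / q⌉ - ⌈((Y : ℚ) - ρ) / q⌉ : ℤ) : ℝ) := by
    exact_mod_cast h2
  have e1 := Int.le_ceil (((Y : ℚ) + Y - ρ) / q)
  have e2 := Int.ceil_lt_add_one (((Y : ℚ) + Y - ρ) / q)
  have e3 := Int.le_ceil (((Y : ℚ) - ρ) / q)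
  have e4 := Int.ceil_lt_add_one (((Y : ℚ) - ρ) / q)
  have f1 : (((Y : ℝ) + Y - ρ) / q) ≤ (⌈((Y : ℚ) + Y - ρ) / q⌉ : ℝ) := by exact_mod_cast e1
  have f2 : (⌈((Y : ℚ) + Y - ρ) / q⌉ : ℝ) < ((Y : ℝ) + Y - ρ) / q + 1 := by exact_mod_cast e2
  have f3 : (((Y : ℝ) - ρ) / q) ≤ (⌈((Y : ℚ) - ρ) / q⌉ : ℝ) := by exact_mod_cast e3
  have f4 : (⌈((Y : ℚ) - ρ) / q⌉ : ℝ) < ((Y : ℝ) - ρ) / q + 1 := by exact_mod_cast e4
  have f5 : ((Y : ℝ) + Y - ρ) / q = ((Y : ℝ) - ρ) / q + Y / q := by ring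
  rw [h3]
  push_cast
  rw [abs_le]
  constructor <;> linarith

/-- residue classes in a box -/
lemma box_count (n Y q : ℕ) (hY : 1 ≤ Y) (hq : 1 ≤ q) (ρ : Fin n → ℤ) :
    |((((Fintype.piFinset (fun _ : Fin n => Finset.Ico (Y : ℤ) (Y + Y))).filter
      (fun v => ∀ j, (q : ℤ) ∣ v j - ρ j)).card : ℕ) : ℝ) - (Y : ℝ) ^ n / (q : ℝ) ^ n| ≤
      n * (1 / (2 * Y)) * (2 * Y) ^ n := by
  have hYR : (1 : ℝ) ≤ Y := by exact_mod_cast hY
  have hqR : (1 : ℝ) ≤ q := by exact_mod_cast hq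
  have h1 : (Fintype.piFinset (fun _ : Fin n => Finset.Ico (Y : ℤ) (Y + Y))).filter
      (fun v => ∀ j, (q : ℤ) ∣ v j - ρ j) = Fintype.piFinset (fun j : Fin n =>
        (Finset.Ico (Y : ℤ) (Y + Y)).filter (fun x => (q : ℤ) ∣ x - ρ j)) := by
    ext v
    simp only [Finset.mem_filter, Fintype.mem_piFinset]
    exact forall_and.symm
  rw [h1, Fintype.card_piFinset]
  push_cast
  have h2 : (Y : ℝ) ^ n / (q : ℝ) ^ n = ∏ _j : Fin n, ((Y : ℝ) / q) := by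
    rw [Finset.prod_const, Finset.card_univ, Fintype.card_fin, div_pow]
  have h3 : ((2 : ℝ) * Y) ^ n = ∏ _j : Fin n, (2 * (Y : ℝ)) := by
    rw [Finset.prod_const, Finset.card_univ, Fintype.card_fin]
  rw [h2, h3]
  have hYq : (Y : ℝ) / q ≤ Y := div_le_self (by linarith) hqR
  apply Pool.Agent.V1179.MH.prod_diff n _ _ _ _ (by positivity)
  · intro j
    have := (abs_le.mp (card_Ico_class Y q hq (ρ j))).2
    refine ⟨Nat.cast_nonneg _, ?_⟩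
    linarith
  · intro j
    exact ⟨by positivity, by linarith⟩
  · intro j
    have := card_Ico_class Y q hq (ρ j)
    have e : 1 / (2 * (Y : ℝ)) * (2 * Y) = 1 := by field_simp
    rw [e]
    exact this

end Pool.Agent.V1179.MH.SF
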