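import Pool.Agent.V1179.MH.SF6

set_option autoImplicit false

/-! # Consecutive convergents without primes nearby -/

namespace Pool.Agent.V1179.MH.SF

open Finset Filter
open Pool.Agent.W147.PS (ff ff_compare ev_pow)
open scoped Classical

theorem conv (m : ℕ) : ∃ κ : ℝ, 0 < κ ∧ ∀ a b c d : ℤ, a * d - b * c = 1 → 1 ≤ a → 1 ≤ b →
    1 ≤ c → 1 ≤ d → ∃ T₀ : ℝ, ∀ T : ℝ, T₀ ≤ T → ∃ v : Fin (4 + m) → ℤ, (∀ l, 1 ≤ v l) ∧
      ∀ i : Fin 2, ∀ j : ℕ, j ≤ m + 1 → ((ent a b c d v i j : ℤ) : ℝ) ≤ T ∧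
        ∀ q : ℕ, q.Prime → κ * ff T < |(q : ℝ) - ((ent a b c d v i j : ℤ) : ℝ)| := by
  obtain ⟨κ, hκ, hcr⟩ := critK m
  set n : ℝ := ((4 + m : ℕ) : ℝ) with hn
  have hn4 : (4 : ℝ) ≤ n := by
    rw [hn]
    push_cast
    linarith [(Nat.cast_nonneg m : (0 : ℝ) ≤ m)]
  set N : ℝ := ((m + 5 : ℕ) : ℝ) with hN
  have hN5 : (5 : ℝ) ≤ N := by
    rw [hN]
    push_cast
    linarith [(Nat.cast_nonneg m : (0 : ℝ) ≤ m)]
  set θ : ℝ := 1 / (8 * N * n) with hθ
  have hθ0 : 0 < θ := by positivity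
  have hθ1 : θ ≤ 1 := by
    rw [hθ, div_le_one (by positivity)]
    nlinarith
  refine ⟨κ / 2 * (θ / 32), by positivity, ?_⟩
  intro a b c d hdet ha hb hc hd
  obtain ⟨X₀, hX0⟩ := hcr a b c d hdet (by omega) (by omega)
  set S : ℤ := a + b + c + d with hS
  have hlog : ∀ᶠ Z : ℝ in atTop, 2 / κ ≤ Real.log Z := Real.tendsto_log_atTop.eventually_ge_atTop _
  have hff1 : ∀ᶠ Z : ℝ in atTop, Real.log Z ≤ ff Z :=
    (ff_compare 1 one_pos le_rfl).mono (fun Z h => h.1)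
  have tθ := tendsto_rpow_atTop hθ0
  have hev := (ff_compare θ hθ0 hθ1).and ((tθ.eventually_ge_atTop X₀).and
    ((tθ.eventually Pool.Agent.Y961.JR.ev_small).and ((tθ.eventually hlog).and
      ((tθ.eventually hff1).and ((eventually_gt_atTop (1 : ℝ)).and
        (((tendsto_rpow_atTop (show (0 : ℝ) < 1 / (4 * N) by positivity)).eventually_ge_atTop
          (n * 2 ^ (4 + m) + 4)).and
          ((tendsto_rpow_atTop (show (0 : ℝ) < 1 / 2 by norm_num)).eventually_ge_atTop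
            ((S : ℝ) * 3 ^ (m + 5)))))))))
  obtain ⟨Z, hZ⟩ := eventually_atTop.1 hev
  refine ⟨Z, ?_⟩
  intro T hT
  obtain ⟨m1, m2, ⟨m3, m4⟩, m5, m6, m7, m8, m9⟩ := hZ T hT
  have hT0 : 0 < T := by linarith
  set X : ℝ := T ^ θ with hX
  obtain ⟨hfl, hcrit⟩ := hX0 X m2
  set g : ℝ := T ^ (1 / (4 * N)) with hg
  have hn2 : (0 : ℝ) < n * 2 ^ (4 + m) := by positivity
  have hg4 : 4 ≤ g := by linarith
  have hX1 : 1 ≤ X := Real.one_le_rpow m7.le hθ0.le
  have hX0' : 0 < X := by linarith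
  have hXg : X ^ (2 * n) = g := by
    rw [hX, hg, ← Real.rpow_mul hT0.le]
    congr 1
    rw [hθ]
    field_simp
    norm_num
  have hXleg : X ≤ g := by
    rw [← hXg]
    calc X = X ^ (1 : ℝ) := (Real.rpow_one X).symm
      _ ≤ X ^ (2 * n) := Real.rpow_le_rpow_of_exponent_le hX1 (by linarith)
  have hgg : g * g = T ^ (1 / (2 * N)) := by
    rw [hg, ← Real.rpow_add hT0]
    congr 1
    field_simp
    norm_num
  set Y : ℕ := ⌊g * g⌋₊ with hY
  have hY1 : (Y : ℝ) ≤ g * g := Nat.floor_le (by positivity)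
  have hY2 : g * g < Y + 1 := Nat.lt_floor_add_one _
  have hYg : g * g / 2 ≤ Y := by nlinarith
  have hYpos : (1 : ℝ) ≤ Y := by nlinarith
  have hY1n : 1 ≤ Y := by exact_mod_cast hYpos
  have hXY : X ≤ Y := by nlinarith
  set s : Finset (Fin (4 + m) → ℤ) :=
    Fintype.piFinset (fun _ : Fin (4 + m) => Finset.Ico (Y : ℤ) (Y + Y)) with hs
  have hscard : (s.card : ℝ) = (Y : ℝ) ^ (4 + m) := by
    rw [hs, Fintype.card_piFinset, Finset.prod_const, Finset.card_univ, Fintype.card_fin]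
    simp
  have hsne : s.Nonempty := by
    rw [← Finset.card_pos]
    have : (0 : ℝ) < s.card := by
      rw [hscard]
      positivity
    exact_mod_cast this
  obtain ⟨v, hv, hv2⟩ := hcrit s hsne (by
    intro q hq _ ρ
    rw [hscard]
    refine (box_count (4 + m) Y q hY1n hq ρ).trans ?_
    rw [← hn, Real.rpow_neg hX0'.le, hXg, mul_pow]
    have e1 : n * (1 / (2 * (Y : ℝ))) * (2 ^ (4 + m) * (Y : ℝ) ^ (4 + m)) =
        (Y : ℝ) ^ (4 + m) * (n * 2 ^ (4 + m) / (2 * Y)) := by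
      field_simp
    rw [e1]
    apply mul_le_mul_of_nonneg_left _ (by positivity)
    rw [inv_eq_one_div, div_le_div_iff₀ (by positivity) (by positivity)]
    nlinarith)
  have hvb : ∀ l, (Y : ℤ) ≤ v l ∧ v l ≤ 2 * (Y : ℤ) := by
    intro l
    have := Fintype.mem_piFinset.mp hv l
    rw [Finset.mem_Ico] at this
    omega
  have hYZ : (1 : ℤ) ≤ (Y : ℤ) := by exact_mod_cast hY1n
  refine ⟨v, fun l => hYZ.trans (hvb l).1, ?_⟩
  intro i j hj
  have hb2 : (Y : ℤ) ≤ ent a b c d v i j ∧ ent a b c d v i j ≤ S * (3 * (Y : ℤ)) ^ (m + 5) := by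
    unfold ent
    split_ifs
    · exact entr_bounds m Y S hYZ a b ha hb (by omega) v hvb j hj
    · exact entr_bounds m Y S hYZ c d hc hd (by omega) v hvb j hj
  have hlowR : (Y : ℝ) ≤ ((ent a b c d v i j : ℤ) : ℝ) := by exact_mod_cast hb2.1
  refine ⟨?_, ?_⟩
  · have h1 : ((ent a b c d v i j : ℤ) : ℝ) ≤ (S : ℝ) * (3 * (Y : ℝ)) ^ (m + 5) := by
      exact_mod_cast hb2.2
    have h2 : (3 * (Y : ℝ)) ^ (m + 5) ≤ 3 ^ (m + 5) * T ^ (1 / 2 : ℝ) := by
      rw [mul_pow]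
      apply mul_le_mul_of_nonneg_left _ (by positivity)
      calc (Y : ℝ) ^ (m + 5) ≤ (T ^ (1 / (2 * N))) ^ (m + 5) := by
            apply pow_le_pow_left₀ (by positivity)
            rw [← hgg]
            exact hY1
        _ = T ^ (1 / 2 : ℝ) := by
            rw [← Real.rpow_natCast, ← Real.rpow_mul hT0.le]
            congr 1
            rw [← hN]
            field_simp
    have hS0 : (0 : ℝ) < S := by
      have : (0 : ℤ) < S := by omega
      exact_mod_cast this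
    have hTh : 0 < T ^ (1 / 2 : ℝ) := Real.rpow_pos_of_pos hT0 _
    calc ((ent a b c d v i j : ℤ) : ℝ) ≤ (S : ℝ) * (3 * (Y : ℝ)) ^ (m + 5) := h1
      _ ≤ S * (3 ^ (m + 5) * T ^ (1 / 2 : ℝ)) := by gcongr
      _ = (S * 3 ^ (m + 5)) * T ^ (1 / 2 : ℝ) := by ring
      _ ≤ T ^ (1 / 2 : ℝ) * T ^ (1 / 2 : ℝ) := by gcongr
      _ = T := by
          rw [← Real.rpow_add hT0]
          norm_num
  · intro q hq
    have hffX : 2 / κ ≤ Pool.Agent.H256R2.SC.ff X := m5.trans m6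
    have hκff : 1 ≤ κ / 2 * Pool.Agent.H256R2.SC.ff X := by
      have h1 : κ / 2 * (2 / κ) = 1 := by field_simp
      have h2 : κ / 2 * (2 / κ) ≤ κ / 2 * Pool.Agent.H256R2.SC.ff X := by gcongr
      linarith
    have hscal : κ / 2 * (θ / 32) * ff T ≤ κ / 2 * Pool.Agent.H256R2.SC.ff X :=
      Pool.Agent.Y961.JR.ff_scaled (κ / 2) θ T (by positivity) hθ1 m7.le m1.2
    refine lt_of_le_of_lt hscal ?_
    apply Pool.Agent.Y961.JR.no_prime (κ / 2) X (by linarith) m3 m4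
      ((ent a b c d v i j : ℤ) : ℝ) (hXY.trans hlowR) _ q hq
    intro M hM
    rw [Int.floor_intCast] at hM
    apply hv2 i j hj M
    have h1 := sg_abs i j
    push_cast
    have h2 : (M : ℝ) - (((ent a b c d v i j : ℤ) : ℝ) - sg i j) =
        ((M : ℝ) - ((ent a b c d v i j : ℤ) : ℝ)) + sg i j := by ring
    rw [h2]
    refine (abs_add_le _ _).trans ?_
    linarith

/-- two neighbouring fractions in an interval -/
lemma interval (x y : ℝ) (hx : 0 < x) (hxy : x < y) : ∃ a b c d : ℤ, a * d - b * c = 1 ∧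
    1 ≤ a ∧ 1 ≤ b ∧ 1 ≤ c ∧ 1 ≤ d ∧ x * c < a ∧ (a : ℝ) < y * c ∧ x * d < b ∧
      (b : ℝ) < y * d := by
  obtain ⟨r, hr1, hr2⟩ := exists_rat_btwn hxy
  have hr0 : (0 : ℝ) < r := by linarith
  have hrq : (0 : ℚ) < r := by exact_mod_cast hr0
  have hnum : 0 < r.num := Rat.num_pos.mpr hrq
  have hden : 0 < r.den := r.den_pos
  have hdenR : (0 : ℝ) < (r.den : ℝ) := by exact_mod_cast hden
  have hrr : (r : ℝ) = (r.num : ℝ) / (r.den : ℝ) := by
    rw [← Rat.cast_natCast, ← Rat.cast_intCast, ← Rat.cast_div, Rat.num_div_den]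
  have h1 : x * (r.den : ℝ) < r.num := by
    rw [hrr, lt_div_iff₀ hdenR] at hr1
    exact hr1
  have h2 : (r.num : ℝ) < y * (r.den : ℝ) := by
    rw [hrr, div_lt_iff₀ hdenR] at hr2
    exact hr2
  obtain ⟨u, w, huw⟩ := (Rat.isCoprime_num_den r)
  set b₀ : ℤ := -w with hb0
  set d₀ : ℤ := u with hd0
  obtain ⟨k, hk⟩ := exists_nat_gt (max (max (1 - (b₀ : ℝ)) (1 - (d₀ : ℝ)))
    (max ((x * d₀ - b₀) / (r.num - x * r.den)) ((b₀ - y * d₀) / (y * r.den - r.num))))
  have hk1 : 1 - (b₀ : ℝ) < k := ((le_max_left _ _).trans (le_max_left _ _)).trans_lt hk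
  have hk2 : 1 - (d₀ : ℝ) < k := ((le_max_right _ _).trans (le_max_left _ _)).trans_lt hk
  have hk3 : (x * d₀ - b₀) / (r.num - x * r.den) < k :=
    ((le_max_left _ _).trans (le_max_right _ _)).trans_lt hk
  have hk4 : (b₀ - y * d₀) / (y * r.den - r.num) < k :=
    ((le_max_right _ _).trans (le_max_right _ _)).trans_lt hk
  rw [div_lt_iff₀ (by linarith)] at hk3 hk4
  have hk0 : (0 : ℤ) ≤ (k : ℤ) := by positivity
  have hdenZ : (1 : ℤ) ≤ (r.den : ℤ) := by exact_mod_cast hden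
  have hk1' : 1 - b₀ < (k : ℤ) := by exact_mod_cast hk1
  have hk2' : 1 - d₀ < (k : ℤ) := by exact_mod_cast hk2
  refine ⟨r.num, b₀ + k * r.num, r.den, d₀ + k * r.den, ?_, hnum, ?_, hdenZ, ?_, ?_, ?_, ?_, ?_⟩
  · rw [hb0, hd0]
    linear_combination huw
  · nlinarith
  · nlinarith
  · exact_mod_cast h1
  · exact_mod_cast h2
  · push_cast
    nlinarith
  · push_cast
    nlinarith

/-- the main theorem -/
theorem convergents (k : ℕ) : ∃ κ : ℝ, 0 < κ ∧ ∀ x y : ℝ, 0 < x → x < y →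
    ∃ T₀ : ℝ, ∀ T : ℝ, T₀ ≤ T → ∃ p q t : ℕ → ℕ,
      p 1 * q 0 = p 0 * q 1 + 1 ∧ q 0 < q 1 ∧
      (∀ j, 1 ≤ t j ∧ p (j + 2) = t j * p (j + 1) + p j ∧ q (j + 2) = t j * q (j + 1) + q j) ∧
      (∀ j, 1 ≤ p j ∧ 1 ≤ q j ∧ x < (p j : ℝ) / q j ∧ (p j : ℝ) / q j < y) ∧
      ∀ j, j < k → ((p j : ℝ) ≤ T ∧ (q j : ℝ) ≤ T) ∧
        (∀ r : ℕ, r.Prime → κ * ff T < |(r : ℝ) - p j|) ∧
        (∀ r : ℕ, r.Prime → κ * ff T < |(r : ℝ) - q j|) := by
  obtain ⟨κ, hκ, h⟩ := conv k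
  refine ⟨κ, hκ, ?_⟩
  intro x y hx hxy
  obtain ⟨a, b, c, d, hdet, ha, hb, hc, hd, i1, i2, i3, i4⟩ := interval x y hx hxy
  obtain ⟨T₀, hT⟩ := h a b c d hdet ha hb hc hd
  refine ⟨T₀, ?_⟩
  intro T hTT
  obtain ⟨v, hv1, hv2⟩ := hT T hTT
  set z : Fin 4 → ℤ := fun l => v (Fin.castAdd k l) with hz
  set t' : ℕ → ℤ := fun i => if h : i < k then v (Fin.natAdd 4 ⟨i, h⟩) else 1 with ht'
  have ht1 : ∀ i, 1 ≤ t' i := by
    intro i
    rw [ht']
    simp only
    split_ifs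
    · exact hv1 _
    · exact le_rfl
  set pz : ℕ → ℤ := kk (gY a b z) (gX a b z) t' with hpz
  set qz : ℕ → ℤ := kk (gY c d z) (gX c d z) t' with hqz
  -- comparison with the entries
  have hagree : ∀ α β : ℤ, ∀ j, j ≤ k + 1 →
      kk (gY α β z) (gX α β z) t' j = entr α β v j := by
    intro α β j hj
    unfold entr
    have hc1 : ∀ j', j' + 1 ≤ k + 1 → (∀ i, i + 2 ≤ j' + 1 →
        t' i = ext (fun l : Fin k => v (Fin.natAdd 4 l)) i) := by
      intro j' hj' i hi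
      rw [ht']
      simp only
      unfold ext
      rw [dif_pos (show i < k by omega), dif_pos (show i < k by omega)]
    rcases Nat.eq_zero_or_pos j with rfl | hj0
    · rfl
    · obtain ⟨j', rfl⟩ : ∃ j', j = j' + 1 := ⟨j - 1, by omega⟩
      exact (kk_congr _ _ _ _ j' (hc1 j' hj)).2
  -- base values
  have hz1 : ∀ l, (1 : ℤ) ≤ z l := fun l => hv1 _
  have hxyz : 1 ≤ z 0 * z 1 := by nlinarith [hz1 0, hz1 1]
  have hyzz : 1 ≤ z 1 * z 2 := by nlinarith [hz1 1, hz1 2]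
  have hB1 : 1 ≤ eB z := by
    unfold eB
    nlinarith [hz1 0, hz1 2]
  have hD1 : 1 ≤ eD z := by
    unfold eD
    linarith
  have hBA : eB z < eA z := by
    have e : eA z = 1 + z 0 * z 1 + z 3 * eB z := rfl
    rw [e]
    nlinarith [hz1 3]
  have hDC : eD z < eC z := by
    have e : eC z = z 1 + z 3 * eD z := rfl
    rw [e]
    nlinarith [hz1 3, hz1 1]
  have hdet2 := det_g a b c d z
  rw [hdet] at hdet2
  have hstep : ∀ u w : ℤ, ∀ j, kk u w t' (j + 2) = t' j * kk u w t' (j + 1) + kk u w t' j :=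
    fun u w j => rfl
  -- positivity of combinations along the recursion
  have hpos : ∀ u w : ℝ, ∀ A B A' B' : ℤ, 0 < u * A + w * A' → 0 < u * B + w * B' → ∀ j,
      0 < u * ((kk A B t' j : ℤ) : ℝ) + w * ((kk A' B' t' j : ℤ) : ℝ) ∧
      0 < u * ((kk A B t' (j + 1) : ℤ) : ℝ) + w * ((kk A' B' t' (j + 1) : ℤ) : ℝ) := by
    intro u w A B A' B' h1 h2 j
    induction j with
    | zero => exact ⟨h1, h2⟩
    | succ j ih =>
      refine ⟨ih.2, ?_⟩
      rw [hstep, hstep]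
      push_cast
      have h3 : (1 : ℝ) ≤ (t' j : ℝ) := by exact_mod_cast ht1 j
      have h4 : u * ((t' j : ℝ) * ((kk A B t' (j + 1) : ℤ) : ℝ) + ((kk A B t' j : ℤ) : ℝ)) +
          w * ((t' j : ℝ) * ((kk A' B' t' (j + 1) : ℤ) : ℝ) + ((kk A' B' t' j : ℤ) : ℝ)) =
          (t' j : ℝ) * (u * ((kk A B t' (j + 1) : ℤ) : ℝ) + w * ((kk A' B' t' (j + 1) : ℤ) : ℝ)) +
          (u * ((kk A B t' j : ℤ) : ℝ) + w * ((kk A' B' t' j : ℤ) : ℝ)) := by ring
      rw [h4]
      have := mul_pos (by linarith : (0 : ℝ) < (t' j : ℝ)) ih.2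
      linarith [ih.1]
  have hBR : (1 : ℝ) ≤ ((eB z : ℤ) : ℝ) := by exact_mod_cast hB1
  have hDR : (1 : ℝ) ≤ ((eD z : ℤ) : ℝ) := by exact_mod_cast hD1
  have hBAR : ((eB z : ℤ) : ℝ) < ((eA z : ℤ) : ℝ) := by exact_mod_cast hBA
  have hDCR : ((eD z : ℤ) : ℝ) < ((eC z : ℤ) : ℝ) := by exact_mod_cast hDC
  have haR : (1 : ℝ) ≤ a := by exact_mod_cast ha
  have hbR : (1 : ℝ) ≤ b := by exact_mod_cast hb
  have hcR : (1 : ℝ) ≤ c := by exact_mod_cast hc
  have hdR : (1 : ℝ) ≤ d := by exact_mod_cast hd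
  have hppos : ∀ j, 0 < pz j := by
    intro j
    have := (hpos 1 0 (gY a b z) (gX a b z) (gY c d z) (gX c d z)
      (by simp only [gY]; push_cast; nlinarith) (by simp only [gX]; push_cast; nlinarith) j).1
    rw [one_mul, zero_mul, add_zero] at this
    exact_mod_cast this
  have hqpos : ∀ j, 0 < qz j := by
    intro j
    have := (hpos 0 1 (gY a b z) (gX a b z) (gY c d z) (gX c d z)
      (by simp only [gY]; push_cast; nlinarith) (by simp only [gX]; push_cast; nlinarith) j).1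
    rw [one_mul, zero_mul, zero_add] at this
    exact_mod_cast this
  have hlow : ∀ j, x * (qz j : ℝ) < pz j := by
    intro j
    have := (hpos 1 (-x) (gY a b z) (gX a b z) (gY c d z) (gX c d z)
      (by
        simp only [gY]
        push_cast
        have e1 := mul_pos (sub_pos.mpr i1) (by linarith : (0 : ℝ) < ((eB z : ℤ) : ℝ))
        have e2 := mul_pos (sub_pos.mpr i3) (by linarith : (0 : ℝ) < ((eD z : ℤ) : ℝ))
        linarith)
      (by
        simp only [gX]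
        push_cast
        have e1 := mul_pos (sub_pos.mpr i1) (by linarith : (0 : ℝ) < ((eA z : ℤ) : ℝ))
        have e2 := mul_pos (sub_pos.mpr i3) (by linarith : (0 : ℝ) < ((eC z : ℤ) : ℝ))
        linarith) j).1
    have e : (1 : ℝ) * (pz j : ℝ) + -x * (qz j : ℝ) = pz j - x * qz j := by ring
    have h5 : 0 < (pz j : ℝ) - x * qz j := by
      rw [← e]
      exact this
    linarith
  have hupp : ∀ j, (pz j : ℝ) < y * qz j := by
    intro j
    have := (hpos (-1) y (gY a b z) (gX a b z) (gY c d z) (gX c d z)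
      (by
        simp only [gY]
        push_cast
        have e1 := mul_pos (sub_pos.mpr i2) (by linarith : (0 : ℝ) < ((eB z : ℤ) : ℝ))
        have e2 := mul_pos (sub_pos.mpr i4) (by linarith : (0 : ℝ) < ((eD z : ℤ) : ℝ))
        linarith)
      (by
        simp only [gX]
        push_cast
        have e1 := mul_pos (sub_pos.mpr i2) (by linarith : (0 : ℝ) < ((eA z : ℤ) : ℝ))
        have e2 := mul_pos (sub_pos.mpr i4) (by linarith : (0 : ℝ) < ((eC z : ℤ) : ℝ))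
        linarith) j).1
    have e : (-1 : ℝ) * (pz j : ℝ) + y * (qz j : ℝ) = y * qz j - pz j := by ring
    have h5 : 0 < y * (qz j : ℝ) - pz j := by
      rw [← e]
      exact this
    linarith
  have hpc : ∀ j, (((pz j).toNat : ℕ) : ℤ) = pz j := fun j => Int.toNat_of_nonneg (hppos j).le
  have hqc : ∀ j, (((qz j).toNat : ℕ) : ℤ) = qz j := fun j => Int.toNat_of_nonneg (hqpos j).le
  have htc : ∀ j, (((t' j).toNat : ℕ) : ℤ) = t' j := fun j =>
    Int.toNat_of_nonneg (by linarith [ht1 j])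
  have hpR : ∀ j, (((pz j).toNat : ℕ) : ℝ) = pz j := fun j => by exact_mod_cast hpc j
  have hqR : ∀ j, (((qz j).toNat : ℕ) : ℝ) = qz j := fun j => by exact_mod_cast hqc j
  refine ⟨fun j => (pz j).toNat, fun j => (qz j).toNat, fun j => (t' j).toNat, ?_, ?_, ?_, ?_, ?_⟩
  · have : (((pz 1).toNat * (qz 0).toNat : ℕ) : ℤ) = (((pz 0).toNat * (qz 1).toNat + 1 : ℕ) : ℤ) := by
      push_cast
      rw [hpc, hpc, hqc, hqc]
      change gX a b z * gY c d z = gY a b z * gX c d z + 1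
      linarith
    exact_mod_cast this
  · have : (((qz 0).toNat : ℕ) : ℤ) < (((qz 1).toNat : ℕ) : ℤ) := by
      rw [hqc, hqc]
      change gY c d z < gX c d z
      unfold gX gY
      nlinarith
    exact_mod_cast this
  · intro j
    refine ⟨?_, ?_, ?_⟩
    · have : (1 : ℤ) ≤ (((t' j).toNat : ℕ) : ℤ) := by
        rw [htc]
        exact ht1 j
      exact_mod_cast this
    · have : (((pz (j + 2)).toNat : ℕ) : ℤ) =
          (((t' j).toNat * (pz (j + 1)).toNat + (pz j).toNat : ℕ) : ℤ) := by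
        push_cast
        rw [hpc, hpc, hpc, htc]
        exact hstep _ _ j
      exact_mod_cast this
    · have : (((qz (j + 2)).toNat : ℕ) : ℤ) =
          (((t' j).toNat * (qz (j + 1)).toNat + (qz j).toNat : ℕ) : ℤ) := by
        push_cast
        rw [hqc, hqc, hqc, htc]
        exact hstep _ _ j
      exact_mod_cast this
  · intro j
    have hq0 : (0 : ℝ) < qz j := by exact_mod_cast hqpos j
    refine ⟨?_, ?_, ?_, ?_⟩
    · have : (0 : ℤ) < (((pz j).toNat : ℕ) : ℤ) := by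
        rw [hpc]
        exact hppos j
      exact_mod_cast this
    · have : (0 : ℤ) < (((qz j).toNat : ℕ) : ℤ) := by
        rw [hqc]
        exact hqpos j
      exact_mod_cast this
    · simp only
      rw [hpR, hqR, lt_div_iff₀ hq0]
      exact hlow j
    · simp only
      rw [hpR, hqR, div_lt_iff₀ hq0]
      exact hupp j
  · intro j hj
    have e1 : pz j = ent a b c d v 0 j := by
      unfold ent
      rw [if_pos rfl]
      exact hagree a b j (by omega)
    have e2 : qz j = ent a b c d v 1 j := by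
      unfold ent
      rw [if_neg (by decide)]
      exact hagree c d j (by omega)
    obtain ⟨g1, g2⟩ := hv2 0 j (by omega)
    obtain ⟨g3, g4⟩ := hv2 1 j (by omega)
    rw [← e1] at g1 g2
    rw [← e2] at g3 g4
    refine ⟨⟨?_, ?_⟩, ?_, ?_⟩
    · simp only
      rw [hpR]
      exact g1
    · simp only
      rw [hqR]
      exact g3
    · intro r hr
      simp only
      rw [hpR]
      exact g2 r hr
    · intro r hr
      simp only
      rw [hqR]
      exact g4 r hr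

end Pool.Agent.V1179.MH.SF
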