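import Pool.Agent.V1179.MH.Crit

set_option autoImplicit false

/-! # The criterion without the condition on the left end points (helper79) -/

namespace Pool.Agent.V1179.MH

open Finset Filter
open Pool.Agent.W147.PS (ff ff_compare ev_pow)

theorem crit_gen' (k r : ℕ) (hkr : 1 ≤ k + r) (ε : ℝ) (h0 : 0 < ε) (h1 : ε ≤ 1) :
    ∃ κ : ℝ, 0 < κ ∧ ∃ P₀ : ℕ, ∀ P : ℕ, P₀ ≤ P → P.Prime → ∀ [NeZero P],
    ∀ (ι : Type) (t : Finset ι) (w : ι → Fin k → ℤ) (u : ι → Fin r → ZMod P) (B : ℝ), 0 ≤ B →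
    (∀ q : ℕ, 1 ≤ q → (q : ℝ) ≤ (P : ℝ) ^ ε → ∀ ρ : Fin k → ℤ,
      |((t.filter (fun i => ∀ j, (q : ℤ) ∣ w i j - ρ j)).card : ℝ) - t.card / (q : ℝ) ^ k| ≤
        t.card * (P : ℝ) ^ (-ε) ∧
      ∀ h : Fin r → ZMod P, h ≠ 0 →
        ‖∑ i ∈ t.filter (fun i => ∀ j, (q : ℤ) ∣ w i j - ρ j),
          ZMod.stdAddChar (∑ j, h j * u i j)‖ ≤ B) →
    (∀ i ∈ t, ∀ j, (P : ℝ) ^ ε ≤ w i j) →
    ∀ a L : Fin r → ℕ, (∀ j, a j + L j ≤ P) →
    (∀ j, (P : ℝ) ^ ε ≤ L j) → 0 < t.card →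
    B * (P : ℝ) ^ ((r : ℝ) + ε) ≤ t.card * ∏ j, (L j : ℝ) →
    ∃ i ∈ t, (∀ j, ∀ q : ℕ, q.Prime → κ * ff P < |(q : ℝ) - w i j|) ∧
      ∀ j, a j ≤ (u i j).val ∧ (u i j).val < a j + L j ∧
        ∀ q : ℕ, q.Prime → κ * ff P < |(q : ℝ) - (u i j).val| := by
  obtain ⟨κ, hκ, P₁, hc⟩ := crit_gen k r hkr (ε / 2) (by linarith) (by linarith)
  have hev := ((tendsto_rpow_atTop (show (0 : ℝ) < ε / 2 by linarith)).eventually_ge_atTop
    (4 : ℝ)).and (((tendsto_rpow_atTop (show (0 : ℝ) < ε / 2 by linarith)).eventually_ge_atTop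
    ((2 : ℝ) ^ r)).and (eventually_gt_atTop (1 : ℝ)))
  obtain ⟨Z, hZ⟩ := eventually_atTop.1 hev
  refine ⟨κ, hκ, max P₁ ⌈Z⌉₊, ?_⟩
  intro P hP hPp _ ι t w u B hB hE hw a L haL hL ht hBt
  obtain ⟨m1, m2, m3⟩ := hZ P (Nat.ceil_le.1 ((le_max_right _ _).trans hP))
  have hP1 : (1 : ℝ) ≤ P := m3.le
  have hP0 : (0 : ℝ) < P := by linarith
  have hmono : ∀ x y : ℝ, x ≤ y → (P : ℝ) ^ x ≤ (P : ℝ) ^ y := fun x y h =>
    Real.rpow_le_rpow_of_exponent_le hP1 h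
  set η : ℝ := (P : ℝ) ^ (ε / 2) with hη
  have hεη : (P : ℝ) ^ ε = η * η := by
    rw [hη, ← Real.rpow_add hP0]
    congr 1
    ring
  set c : ℕ := ⌈η⌉₊ with hcdef
  have hc1 : η ≤ c := Nat.le_ceil _
  have hc2 : (c : ℝ) < η + 1 := Nat.ceil_lt_add_one (by linarith)
  have hcL : ∀ j, 2 * c ≤ L j := by
    intro j
    have h5 := hL j
    rw [hεη] at h5
    have : (2 * (c : ℝ)) ≤ L j := by nlinarith
    exact_mod_cast this
  set a' : Fin r → ℕ := fun j => max (a j) c with ha'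
  set L' : Fin r → ℕ := fun j => a j + L j - a' j with hL'
  have hsum : ∀ j, a' j + L' j = a j + L j := by
    intro j
    have := hcL j
    have h6 : a' j ≤ a j + L j := by
      simp only [ha']
      exact max_le (by omega) (by omega)
    simp only [hL']
    omega
  have hL2 : ∀ j, (L j : ℝ) ≤ 2 * L' j := by
    intro j
    have h5 := hcL j
    have h6 := hsum j
    have h7 : a' j ≤ a j + c := by
      simp only [ha']
      exact max_le (by omega) (by omega)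
    have : L j ≤ 2 * L' j := by omega
    exact_mod_cast this
  have hprod : ∏ j, (L j : ℝ) ≤ 2 ^ r * ∏ j, (L' j : ℝ) := by
    calc ∏ j, (L j : ℝ) ≤ ∏ j, (2 * (L' j : ℝ)) :=
          prod_le_prod (fun j _ => Nat.cast_nonneg _) (fun j _ => hL2 j)
      _ = _ := by rw [prod_mul_distrib, prod_const, card_univ, Fintype.card_fin]
  have htR : (0 : ℝ) < t.card := by exact_mod_cast ht
  obtain ⟨i, hi, hi1, hi2⟩ := hc P ((le_max_left _ _).trans hP) hPp ι t w u B hB (by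
    intro q hq hqP ρ
    obtain ⟨g1, g2⟩ := hE q hq (hqP.trans (hmono _ _ (by linarith))) ρ
    refine ⟨g1.trans ?_, g2⟩
    exact mul_le_mul_of_nonneg_left (hmono _ _ (by linarith)) htR.le)
    (fun i hi j => (hmono _ _ (by linarith)).trans (hw i hi j)) a' L' (by
      intro j
      refine hc1.trans ?_
      exact_mod_cast le_max_right _ _) (fun j => by rw [hsum j]; exact haL j) (by
      intro j
      have h5 := hL j
      rw [hεη] at h5
      have h6 := hL2 j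
      nlinarith) ht (by
      have e1 : (P : ℝ) ^ ((r : ℝ) + ε) = (P : ℝ) ^ ((r : ℝ) + ε / 2) * η := by
        rw [hη, ← Real.rpow_add hP0]
        congr 1
        ring
      rw [e1] at hBt
      have h5 : 0 ≤ B * (P : ℝ) ^ ((r : ℝ) + ε / 2) := by positivity
      have h6 : B * (P : ℝ) ^ ((r : ℝ) + ε / 2) * 2 ^ r ≤
          t.card * (2 ^ r * ∏ j, (L' j : ℝ)) := by
        calc B * (P : ℝ) ^ ((r : ℝ) + ε / 2) * 2 ^ r ≤ B * (P : ℝ) ^ ((r : ℝ) + ε / 2) * η :=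
              mul_le_mul_of_nonneg_left m2 h5
          _ = B * ((P : ℝ) ^ ((r : ℝ) + ε / 2) * η) := by ring
          _ ≤ t.card * ∏ j, (L j : ℝ) := hBt
          _ ≤ _ := mul_le_mul_of_nonneg_left hprod htR.le
      have h7 : (0 : ℝ) < 2 ^ r := by positivity
      have h8 : (t.card : ℝ) * (2 ^ r * ∏ j, (L' j : ℝ)) =
          (t.card * ∏ j, (L' j : ℝ)) * 2 ^ r := by ring
      rw [h8] at h6
      exact le_of_mul_le_mul_right h6 h7)
  refine ⟨i, hi, hi1, fun j => ⟨?_, ?_, (hi2 j).2.2⟩⟩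
  · exact (le_max_left _ _).trans (hi2 j).1
  · rw [← hsum j]
    exact (hi2 j).2.1

end Pool.Agent.V1179.MH
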